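import Pool.Agent.H414_LQ.Base3

/-!
JOB F6c.  The composite tube map with the standard parameters.
-/

set_option autoImplicit false

open scoped Topology ContDiff unitInterval

noncomputable section

namespace Pool.Agent.H414_LQ

open Pool.Agent.H414_LK

variable {g : Fin 3 → GK} {ε : ℝ}

theorem th0_dis : Dis th0 := by
  refine ⟨fun l => ?_, fun l => ?_, fun l => ?_, fun l l' h => ?_⟩
  · simp [th0]
  · simp [th0]
  · fin_cases l <;> simp [th0] <;> norm_num [abs_of_nonneg, abs_of_neg, abs_div]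
  · fin_cases l <;> fin_cases l' <;> first
      | exact absurd rfl h
      | (simp [th0]; norm_num [abs_of_nonneg, abs_of_neg, abs_div])

/-- the tube of radius `ε` around the axis -/
def F6c_D (ε : ℝ) : Set (Eu 3) := {x | ‖x - v3 (x 0) 0 0‖ < ε}

/-- one of the three maps -/
def F6c_F (g : Fin 3 → GK) (l : Fin 3) (x : Eu 3) : Eu 3 :=
  v3 (th0.1 l) 0 0 + (g l).tu (x - v3 (th0.1 l) 0 0)

theorem F6c_tub (l : Fin 3) (x : Eu 3) : (g l).tub (th0.1 l) (th0.2 l) x = F6c_F g l x := by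
  unfold GK.tub F6c_F
  simp [th0]

theorem F6c_Mc (x : Eu 3) : Mc g 0 1 2 th0 x = F6c_F g 2 (F6c_F g 1 (F6c_F g 0 x)) := by
  unfold Mc
  rw [F6c_tub, F6c_tub, F6c_tub]

theorem F6c_out (hg : ∀ l, TubeF (g l) ε) (l : Fin 3) {x : Eu 3}
    (hx : 1 / 6 ≤ |x 0 - th0.1 l|) : F6c_F g l x = x := by
  unfold F6c_F
  rw [(hg l).out _ (by simpa using hx)]
  abel

theorem F6c_mem {x : Eu 3} (hx : x ∈ F6c_D ε) (c : ℝ) : x - v3 c 0 0 ∈ Om ε := by
  intro _
  have e : (x - v3 c 0 0) - v3 ((x - v3 c 0 0) 0) 0 0 = x - v3 (x 0) 0 0 := by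
    apply ext3 <;> simp
  rw [e]
  exact hx

theorem F6c_abs_le (x : Eu 3) (i : Fin 3) : |x i| ≤ ‖x‖ := by
  have := PiLp.norm_apply_le x i
  rwa [Real.norm_eq_abs] at this

theorem F6c_near (hg : ∀ l, TubeF (g l) ε) (l : Fin 3) {x : Eu 3} (hD : x ∈ F6c_D ε)
    (hx : |x 0 - th0.1 l| ≤ 1 / 5) : |F6c_F g l x 0 - th0.1 l| ≤ 1 / 5 := by
  rcases le_total |x 0 - th0.1 l| (1 / 6) with h | h
  · have h0 : (x - v3 (th0.1 l) 0 0) 0 = x 0 - th0.1 l := by simp
    have h1 := (hg l).near _ (F6c_mem hD (th0.1 l)) (by rw [h0]; exact h)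
    have h2 := (hg l).be_0 (x 0 - th0.1 l) h
    have h3 := (F6c_abs_le _ 0).trans h1
    rw [sub_app, h0] at h3
    have h4 : F6c_F g l x 0 - th0.1 l = (g l).tu (x - v3 (th0.1 l) 0 0) 0 := by
      simp [F6c_F]
    rw [h4]
    have h5 := abs_le.mp h3
    have h6 := abs_le.mp h2
    rw [abs_le]
    constructor <;> linarith [h5.1, h5.2, h6.1, h6.2]
  · rw [F6c_out hg l h]
    exact hx

theorem F6c_far {l l' : Fin 3} (h : l ≠ l') {a : ℝ} (ha : |a - th0.1 l| ≤ 1 / 5) :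
    1 / 6 ≤ |a - th0.1 l'| := by
  have h1 : 2 / 3 ≤ |th0.1 l - th0.1 l'| := by
    fin_cases l <;> fin_cases l' <;> first
      | exact absurd rfl h
      | (simp [th0]; norm_num [abs_of_nonneg, abs_of_neg, abs_div])
  have h2 : |th0.1 l - th0.1 l'| ≤ |a - th0.1 l| + |a - th0.1 l'| := by
    have : th0.1 l - th0.1 l' = -(a - th0.1 l) + (a - th0.1 l') := by ring
    rw [this]
    refine (abs_add_le _ _).trans ?_
    rw [abs_neg]
  linarith

/-- in the slab `l` only the map `l` counts -/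
theorem F6c_eq (hg : ∀ l, TubeF (g l) ε) (l : Fin 3) {x : Eu 3} (hD : x ∈ F6c_D ε)
    (hx : |x 0 - th0.1 l| ≤ 1 / 5) : Mc g 0 1 2 th0 x = F6c_F g l x := by
  have hn := F6c_near hg l hD hx
  rw [F6c_Mc]
  have a : ∀ l', l ≠ l' → F6c_F g l' x = x := fun l' h => F6c_out hg l' (F6c_far h hx)
  have b : ∀ l', l ≠ l' → F6c_F g l' (F6c_F g l x) = F6c_F g l x :=
    fun l' h => F6c_out hg l' (F6c_far h hn)
  fin_cases l
  · simp only [Fin.zero_eta, Fin.isValue] at a b ⊢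
    rw [b 1 (by decide), b 2 (by decide)]
  · simp only [Fin.mk_one, Fin.isValue] at a b ⊢
    rw [a 0 (by decide), b 2 (by decide)]
  · simp only [Fin.reduceFinMk, Fin.isValue] at a b ⊢
    rw [a 0 (by decide), a 1 (by decide)]

theorem Mc0_out (hg : ∀ l, TubeF (g l) ε) {x : Eu 3} (hx : ∀ l, 1 / 6 ≤ |x 0 - th0.1 l|) :
    Mc g 0 1 2 th0 x = x := by
  rw [F6c_Mc, F6c_out hg 0 (hx 0), F6c_out hg 1 (hx 1), F6c_out hg 2 (hx 2)]

theorem F6c_F_smooth (hg : ∀ l, TubeF (g l) ε) (l : Fin 3) : ContDiff ℝ ∞ (F6c_F g l) := by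
  unfold F6c_F
  exact contDiff_const.add ((hg l).st.comp (contDiff_id.sub contDiff_const))

theorem Mc0_smooth (hg : ∀ l, TubeF (g l) ε) : ContDiff ℝ ∞ (Mc g 0 1 2 th0) := by
  have : Mc g 0 1 2 th0 = fun x => F6c_F g 2 (F6c_F g 1 (F6c_F g 0 x)) := by
    funext x
    exact F6c_Mc x
  rw [this]
  exact (F6c_F_smooth hg 2).comp ((F6c_F_smooth hg 1).comp (F6c_F_smooth hg 0))

theorem F6c_c (l : Fin 3) : |th0.1 l| ≤ 2 / 3 := by
  fin_cases l <;> simp [th0] <;> norm_num [abs_of_nonneg, abs_of_neg, abs_div]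

theorem Mc0_out' (hg : ∀ l, TubeF (g l) ε) {x : Eu 3} (hx : 1 ≤ |x 0|) :
    Mc g 0 1 2 th0 x = x := by
  apply Mc0_out hg
  intro l
  have h1 := F6c_c l
  have h2 := abs_sub_abs_le_abs_sub (x 0) (th0.1 l)
  linarith

theorem Mc0_inj (hg : ∀ l, TubeF (g l) ε) :
    Set.InjOn (Mc g 0 1 2 th0) {x | ‖x - v3 (x 0) 0 0‖ < ε} := by
  intro x hx y hy hxy
  have hx' : x ∈ F6c_D ε := hx
  have hy' : y ∈ F6c_D ε := hy
  have hmem : ∀ {x : Eu 3}, x ∈ F6c_D ε → ∀ l, |x 0 - th0.1 l| ≤ 1 / 5 →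
      |Mc g 0 1 2 th0 x 0 - th0.1 l| ≤ 1 / 5 := by
    intro x hx l hl
    rw [F6c_eq hg l hx hl]
    exact F6c_near hg l hx hl
  have hno : ∀ {x : Eu 3}, (∀ l, ¬ |x 0 - th0.1 l| ≤ 1 / 5) → Mc g 0 1 2 th0 x = x := by
    intro x hx
    apply Mc0_out hg
    intro l
    have := hx l
    push Not at this
    linarith
  have hmix : ∀ {x y : Eu 3}, x ∈ F6c_D ε → y ∈ F6c_D ε → Mc g 0 1 2 th0 x = Mc g 0 1 2 th0 y →
      ∀ l, |x 0 - th0.1 l| ≤ 1 / 5 → |y 0 - th0.1 l| ≤ 1 / 5 := by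
    intro x y hx hy hxy l hl
    have h1 := hmem hx l hl
    rw [hxy] at h1
    by_cases h : ∃ l', |y 0 - th0.1 l'| ≤ 1 / 5
    · obtain ⟨l', hl'⟩ := h
      have h2 := hmem hy l' hl'
      by_cases hll : l' = l
      · rw [← hll]; exact hl'
      · exfalso
        have h3 := F6c_far hll h2
        -- distance between the centers
        have h4 : 2 / 3 ≤ |th0.1 l' - th0.1 l| := by
          clear h1 h2 h3 hl' hl hmem hno
          fin_cases l <;> fin_cases l' <;> first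
            | exact absurd rfl hll
            | (simp [th0]; norm_num [abs_of_nonneg, abs_of_neg, abs_div])
        have h5 := abs_le.mp h1
        have h6 := abs_le.mp h2
        have h7 : |th0.1 l' - th0.1 l| ≤ 2 / 5 := by
          rw [abs_le]
          constructor <;> linarith [h5.1, h5.2, h6.1, h6.2]
        linarith
    · push Not at h
      rw [hno (fun l' hl' => absurd hl' (not_le.mpr (h l')))] at h1
      exact h1
  by_cases h : ∃ l, |x 0 - th0.1 l| ≤ 1 / 5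
  · obtain ⟨l, hl⟩ := h
    have hl' := hmix hx' hy' hxy l hl
    rw [F6c_eq hg l hx' hl, F6c_eq hg l hy' hl'] at hxy
    have h1 : (g l).tu (x - v3 (th0.1 l) 0 0) = (g l).tu (y - v3 (th0.1 l) 0 0) :=
      add_left_cancel hxy
    have h2 := (hg l).inj (F6c_mem hx' _) (F6c_mem hy' _) h1
    exact sub_left_injective h2
  · have hx1 : ∀ l, ¬ |x 0 - th0.1 l| ≤ 1 / 5 := fun l hl => h ⟨l, hl⟩
    have hy1 : ∀ l, ¬ |y 0 - th0.1 l| ≤ 1 / 5 := fun l hl => hx1 l (hmix hy' hx' hxy.symm l hl)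
    rw [hno hx1, hno hy1] at hxy
    exact hxy

theorem F6c_D_open (ε : ℝ) : IsOpen (F6c_D ε) := by
  have hc : Continuous (fun x : Eu 3 => ‖x - v3 (x 0) 0 0‖) := by
    apply Continuous.norm
    apply continuous_id.sub
    exact v3_cont (by fun_prop) continuous_const continuous_const
  exact isOpen_lt hc continuous_const

theorem F6c_axis (hε : 0 < ε) (t : ℝ) : v3 t 0 0 ∈ F6c_D ε := by
  change ‖v3 t 0 0 - v3 ((v3 t 0 0 : Eu 3) 0) 0 0‖ < ε
  rw [v3_0, sub_self, norm_zero]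
  exact hε

/-- the derivative is injective on the axis -/
theorem Mc0_dinj (hg : ∀ l, TubeF (g l) ε) (t : ℝ) :
    Function.Injective (fderiv ℝ (Mc g 0 1 2 th0) (v3 t 0 0)) := by
  have hε := (hg 0).pos
  have hc0 : Continuous (fun x : Eu 3 => x 0) := by fun_prop
  by_cases h : ∃ l, |t - th0.1 l| < 1 / 5
  · obtain ⟨l, hl⟩ := h
    have hev : Mc g 0 1 2 th0 =ᶠ[𝓝 (v3 t 0 0)] F6c_F g l := by
      have h1 : F6c_D ε ∈ 𝓝 (v3 t 0 0) := (F6c_D_open ε).mem_nhds (F6c_axis hε t)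
      have h2 : {x : Eu 3 | |x 0 - th0.1 l| < 1 / 5} ∈ 𝓝 (v3 t 0 0) := by
        apply IsOpen.mem_nhds
        · exact isOpen_lt ((hc0.sub continuous_const).abs) continuous_const
        · simpa using hl
      filter_upwards [h1, h2] with x hx1 hx2
      exact F6c_eq hg l hx1 (le_of_lt hx2)
    rw [hev.fderiv_eq]
    have h3 : fderiv ℝ (F6c_F g l) (v3 t 0 0) =
        fderiv ℝ (g l).tu (v3 t 0 0 - v3 (th0.1 l) 0 0) := by
      unfold F6c_F
      rw [fderiv_const_add]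
      exact fderiv_comp_sub _
    rw [h3]
    exact (hg l).dinj _ (F6c_mem (F6c_axis hε t) _)
  · push Not at h
    have hev : Mc g 0 1 2 th0 =ᶠ[𝓝 (v3 t 0 0)] id := by
      have h2 : ∀ᶠ x : Eu 3 in 𝓝 (v3 t 0 0), ∀ l, 1 / 6 < |x 0 - th0.1 l| := by
        rw [Filter.eventually_all]
        intro l
        have ho : IsOpen {x : Eu 3 | 1 / 6 < |x 0 - th0.1 l|} :=
          isOpen_lt continuous_const ((hc0.sub continuous_const).abs)
        apply ho.mem_nhds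
        have := h l
        simp only [Set.mem_ofPred_eq, v3_0]
        linarith
      filter_upwards [h2] with x hx
      exact Mc0_out hg (fun l => (hx l).le)
    rw [hev.fderiv_eq, fderiv_id]
    exact fun a b hab => hab

theorem Mc0_slab (hg : ∀ l, TubeF (g l) ε) (l : Fin 3) {u η : ℝ} (hu : |u - th0.1 l| ≤ 1 / 5)
    (h0 : 0 ≤ η) (h1 : η < ε) : Mc g 0 1 2 th0 (v3 u η 0) =
      v3 (th0.1 l) 0 0 + (g l).be (u - th0.1 l) + η • (g l).ve (u - th0.1 l) := by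
  have hD : v3 u η 0 ∈ F6c_D ε := by
    change ‖v3 u η 0 - v3 ((v3 u η 0 : Eu 3) 0) 0 0‖ < ε
    have e : v3 u η 0 - v3 ((v3 u η 0 : Eu 3) 0) 0 0 = v3 0 η 0 := by
      apply ext3 <;> simp
    rw [e]
    have h2 : ‖v3 0 η 0‖ ^ 2 = η ^ 2 := by rw [normsq3]; simp
    have h3 : ‖v3 0 η 0‖ = η := by
      rwa [pow_left_inj₀ (norm_nonneg _) h0 (by norm_num)] at h2
    rw [h3]
    exact h1
  rw [F6c_eq hg l hD (by simpa using hu)]
  have e : v3 u η 0 - v3 (th0.1 l) 0 0 = v3 (u - th0.1 l) η 0 := by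
    apply ext3 <;> simp
  unfold F6c_F
  rw [e]
  unfold GK.tu
  simp [add_assoc]

/-- the points of the parallel are not on the knot -/
theorem Mc0_avoid (hg : ∀ l, TubeF (g l) ε) {u t η : ℝ} (h0 : 0 < η) (h1 : η < ε) :
    Mc g 0 1 2 th0 (v3 t 0 0) ≠ Mc g 0 1 2 th0 (v3 u η 0) := by
  intro h
  have hD : v3 u η 0 ∈ F6c_D ε := by
    change ‖v3 u η 0 - v3 ((v3 u η 0 : Eu 3) 0) 0 0‖ < ε
    have e : v3 u η 0 - v3 ((v3 u η 0 : Eu 3) 0) 0 0 = v3 0 η 0 := by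
      apply ext3 <;> simp
    rw [e]
    have h2 : ‖v3 0 η 0‖ ^ 2 = η ^ 2 := by rw [normsq3]; simp
    have h3 : ‖v3 0 η 0‖ = η := by
      rwa [pow_left_inj₀ (norm_nonneg _) h0.le (by norm_num)] at h2
    rw [h3]
    exact h1
  have h2 := Mc0_inj hg (F6c_axis (hg 0).pos t) hD h
  have h3 := congrArg (fun v : Eu 3 => v 1) h2
  simp only [v3_1] at h3
  linarith

/-- the knot lies in the half space `y ≥ 0` -/
theorem Mc0_nonneg (hg : ∀ l, TubeF (g l) ε) (hG : ∀ l, GFacts (g l)) (t : ℝ) :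
    0 ≤ Mc g 0 1 2 th0 (v3 t 0 0) 1 := by
  by_cases h : ∃ l, |t - th0.1 l| ≤ 1 / 5
  · obtain ⟨l, hl⟩ := h
    rw [Mc0_slab hg l hl le_rfl (hg 0).pos]
    have h1 := ((hG l).gyb (48 * (t - th0.1 l))).1
    simp only [zero_smul, add_zero, add_app, v3_1, zero_add, GK.be]
    positivity
  · push Not at h
    rw [Mc0_out hg (fun l => by
      rw [v3_0]
      have := h l
      linarith)]
    simp

end Pool.Agent.H414_LQ
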