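import Pool.Agent.H414_LQ.F6b
import Pool.Agent.H414_LQ.F6c

/-!
JOB A1.  The group of the composite knot: from the knot to its projection.
-/

set_option autoImplicit false

open scoped Topology ContDiff unitInterval

noncomputable section

namespace Pool.Agent.H414_LQ

open Pool.Agent.H414_LK

section given

/-! The following are given, proved elsewhere (jobs F6b, F6c). -/

variable {g : Fin 3 → GK} {ε : ℝ}

end given

variable {g : Fin 3 → GK} {ε : ℝ}

/-- far from the origin, a grid knot is the axis -/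
theorem T_far {g : GK} (hG : GFacts g) {x y z : ℝ} (hx : 8 < |x|) :
    g.T x y z ↔ y = 0 ∧ z = 0 := by
  have hn : (g.n : ℝ) ≤ 7 := by exact_mod_cast g.n7
  have hn3 : (3 : ℝ) ≤ g.n := by exact_mod_cast g.n3
  constructor
  · rintro ⟨t, rfl, rfl, rfl⟩
    rcases lt_or_ge t (-((g.n : ℝ) + 1)) with h1 | h1
    · exact ⟨hG.stdy t (Or.inl (by linarith)), hG.stdz t (Or.inl (by linarith))⟩
    · rcases lt_or_ge (g.n : ℝ) t with h2 | h2
      · exact ⟨hG.stdy t (Or.inr (by linarith)), hG.stdz t (Or.inr (by linarith))⟩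
      · have := hG.gxb t (by linarith) h2
        linarith
  · rintro ⟨rfl, rfl⟩
    have hc : x ≤ -((g.n : ℝ) + 1) ∨ (g.n : ℝ) + 1 ≤ x := by
      rcases lt_abs.1 hx with h | h
      · right; linarith
      · left; linarith
    refine ⟨x, hG.stdx x ?_, hG.stdy x ?_, hG.stdz x ?_⟩
    · rcases hc with h | h
      · exact Or.inl (by linarith)
      · exact Or.inr (by linarith)
    · rcases hc with h | h
      · exact Or.inl (by linarith)
      · exact Or.inr (by linarith)
    · rcases hc with h | h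
      · exact Or.inl (by linarith)
      · exact Or.inr (by linarith)

/-- the range of `be` -/
theorem be_range {g : GK} (p : Eu 3) (c : ℝ) :
    (1 : ℝ)⁻¹ • (p - v3 c 0 0) ∈ Set.range g.be ↔ g.T (48 * p 0 - 48 * c) (48 * p 1) (48 * p 2) := by
  rw [inv_one, one_smul]
  constructor
  · rintro ⟨t, ht⟩
    have h0 := congrArg (fun v : Eu 3 => v 0) ht
    have h1 := congrArg (fun v : Eu 3 => v 1) ht
    have h2 := congrArg (fun v : Eu 3 => v 2) ht
    simp only [GK.be, v3_0, v3_1, v3_2, sub_app] at h0 h1 h2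
    exact ⟨48 * t, by linarith, by linarith, by linarith⟩
  · rintro ⟨t, h0, h1, h2⟩
    refine ⟨t / 48, ?_⟩
    have e : 48 * (t / 48) = t := by ring
    apply ext3
    · simp only [GK.be, v3_0, sub_app, e]; linarith
    · simp only [GK.be, v3_1, sub_app, e]; linarith
    · simp only [GK.be, v3_2, sub_app, e]; linarith

theorem isSh (hg : ∀ l, TubeF (g l) ε) (hG : ∀ l, GFacts (g l)) {S : Shadow} (hS : S.K = K3 g)
    {f : LongKnot 3} (hf : ∀ t, f.toFun t = Mc g 0 1 2 th0 (v3 t 0 0)) :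
    IsSh S (Set.range f.toFun) := by
  intro p
  have h0 : p ∈ Set.range f.toFun ↔ ∃ t : ℝ, Mc g 0 1 2 th0 (v3 t 0 0) = p := by
    constructor
    · rintro ⟨t, ht⟩
      exact ⟨t, by rw [← hf t, ht]⟩
    · rintro ⟨t, ht⟩
      exact ⟨t, by rw [hf t, ht]⟩
  rw [h0, hS]
  have d : Dis th0 := th0_dis
  have n01 : (0 : Fin 3) ≠ 1 := by decide
  have n02 : (0 : Fin 3) ≠ 2 := by decide
  have n12 : (1 : Fin 3) ≠ 2 := by decide
  have slab := fun l => rng_slab hg d n01 n02 n12 l (p := p)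
  have c0 : th0.1 0 = -2 / 3 := rfl
  have c1 : th0.1 1 = 0 := rfl
  have c2 : th0.1 2 = 2 / 3 := rfl
  have s1 : ∀ l, th0.2 l = 1 := fun _ => rfl
  unfold K3
  by_cases a0 : |p 0 - th0.1 0| ≤ 1 / 5
  · rw [slab 0 (by rw [s1]; exact a0), s1, be_range, c0]
    rw [c0, abs_le] at a0
    obtain ⟨a, b⟩ := a0
    rw [show 48 * p 0 - 48 * (-2 / 3) = 48 * p 0 + 32 by ring]
    constructor
    · intro h; exact Or.inl ⟨by linarith, h⟩
    · rintro (⟨-, h⟩ | ⟨h, -⟩ | ⟨h, -⟩)
      · exact h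
      · linarith
      · linarith
  by_cases a1 : |p 0 - th0.1 1| ≤ 1 / 5
  · rw [slab 1 (by rw [s1]; exact a1), s1, be_range, c1]
    rw [c1, abs_le] at a1
    obtain ⟨a, b⟩ := a1
    rw [show 48 * p 0 - 48 * 0 = 48 * p 0 by ring]
    constructor
    · intro h; exact Or.inr (Or.inl ⟨by linarith, by linarith, h⟩)
    · rintro (⟨h, -⟩ | ⟨-, -, h⟩ | ⟨h, -⟩)
      · linarith
      · exact h
      · linarith
  by_cases a2 : |p 0 - th0.1 2| ≤ 1 / 5
  · rw [slab 2 (by rw [s1]; exact a2), s1, be_range, c2]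
    rw [c2, abs_le] at a2
    obtain ⟨a, b⟩ := a2
    rw [show 48 * p 0 - 48 * (2 / 3) = 48 * p 0 - 32 by ring]
    constructor
    · intro h; exact Or.inr (Or.inr ⟨by linarith, h⟩)
    · rintro (⟨h, -⟩ | ⟨-, h, -⟩ | ⟨-, h⟩)
      · linarith
      · linarith
      · exact h
  · rw [rng_out hg d n01 n02 n12 (p := p) (by
      intro l
      rw [s1]
      fin_cases l
      · show 1 / 6 < |p 0 - th0.1 0|
        linarith [not_le.1 a0]
      · show 1 / 6 < |p 0 - th0.1 1|
        linarith [not_le.1 a1]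
      · show 1 / 6 < |p 0 - th0.1 2|
        linarith [not_le.1 a2])]
    have b0 : 8 < |48 * p 0 + 32| := by
      have := not_le.1 a0
      rw [c0] at this
      rw [show 48 * p 0 + 32 = 48 * (p 0 - -2 / 3) by ring, abs_mul, abs_of_pos (by norm_num : (0:ℝ) < 48)]
      linarith
    have b1 : 8 < |48 * p 0| := by
      have := not_le.1 a1
      rw [c1, sub_zero] at this
      rw [abs_mul, abs_of_pos (by norm_num : (0:ℝ) < 48)]
      linarith
    have b2 : 8 < |48 * p 0 - 32| := by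
      have := not_le.1 a2
      rw [c2] at this
      rw [show 48 * p 0 - 32 = 48 * (p 0 - 2 / 3) by ring, abs_mul, abs_of_pos (by norm_num : (0:ℝ) < 48)]
      linarith
    rw [T_far (hG 0) b0, T_far (hG 1) b1, T_far (hG 2) b2]
    have e : (48 * p 1 = 0 ∧ 48 * p 2 = 0) ↔ (p 1 = 0 ∧ p 2 = 0) := by
      constructor
      · rintro ⟨h, h'⟩; exact ⟨by linarith, by linarith⟩
      · rintro ⟨h, h'⟩; rw [h, h']; simp
    rw [e]
    constructor
    · intro h
      rcases lt_or_ge (48 * p 0) (-16) with h1 | h1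
      · exact Or.inl ⟨h1, h⟩
      · rcases lt_or_ge (48 * p 0) 16 with h2 | h2
        · exact Or.inr (Or.inl ⟨h1, h2, h⟩)
        · exact Or.inr (Or.inr ⟨h2, h⟩)
    · rintro (⟨-, h⟩ | ⟨-, -, h⟩ | ⟨-, h⟩) <;> exact h

theorem top_iff {S : Shadow} {f : LongKnot 3} (h : IsSh S (Set.range f.toFun))
    (p : Cp (Set.range f.toFun)) : Top S (Set.range f.toFun) p ↔ KTop f p.1 := by
  constructor
  · intro hp w hw hr
    have h1 := (h _).1 hr
    simp only [v3_0, v3_1, v3_2] at h1
    exact hp (48 * w) (by linarith) h1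
  · intro hp w hw hK
    refine hp (w / 48) (by linarith) ((h _).2 ?_)
    simp only [v3_0, v3_1, v3_2]
    rw [show 48 * (w / 48) = w by ring]
    exact hK

theorem bot_iff {S : Shadow} {f : LongKnot 3} (h : IsSh S (Set.range f.toFun))
    (p : Cp (Set.range f.toFun)) : Bot S (Set.range f.toFun) p ↔ KBot f p.1 := by
  constructor
  · intro hp w hw hr
    have h1 := (h _).1 hr
    simp only [v3_0, v3_1, v3_2] at h1
    exact hp (48 * w) (by linarith) h1
  · intro hp w hw hK
    refine hp (w / 48) (by linarith) ((h _).2 ?_)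
    simp only [v3_0, v3_1, v3_2]
    rw [show 48 * (w / 48) = w by ring]
    exact hK

/-- long knots are in the union of the unit ball and the axis -/
theorem far_notin (f : LongKnot 3) {p : Eu 3} (h1 : 2 ≤ |p 1| ∨ 2 ≤ |p 2|) :
    p ∉ Set.range f.toFun := by
  rintro ⟨t, ht⟩
  rcases le_total 1 |t| with h | h
  · rw [f.standard t h, axis_eq] at ht
    rw [← ht] at h1
    simp only [v3_1, v3_2, abs_zero] at h1
    rcases h1 with h1 | h1 <;> linarith
  · have h2 := f.ball t h
    rw [ht, mem_closedBall_zero_iff] at h2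
    have h3 := normsq3 p
    have h4 : ‖p‖ ^ 2 ≤ 1 := by nlinarith [norm_nonneg p]
    rcases h1 with h1 | h1
    · have := sq_abs (p 1)
      nlinarith [sq_nonneg (p 0), sq_nonneg (p 2)]
    · have := sq_abs (p 2)
      nlinarith [sq_nonneg (p 0), sq_nonneg (p 1)]

theorem sg_app (a b : Eu 3) (t : I) : sg a b t = (1 - (t : ℝ)) • a + (t : ℝ) • b := rfl

/-- a property of all the points of a concatenation -/
theorem trans_all {X : Type*} [TopologicalSpace X] {a b c : X} (γ : Path a b) (δ : Path b c)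
    {P : X → Prop} (h1 : ∀ t, P (γ t)) (h2 : ∀ t, P (δ t)) (t : I) : P ((γ.trans δ) t) := by
  rw [Path.trans_apply]
  split_ifs
  · exact h1 _
  · exact h2 _

/-- a path from the base point, above the knot -/
theorem path_top (f : LongKnot 3) {p : Eu 3} (hp : KTop f p) :
    ∃ δ : Path bb p, ∀ t, KTop f (δ t) := by
  set z := max (p 2) 2 with hz
  have z2 : 2 ≤ z := le_max_right _ _
  have zp : p 2 ≤ z := le_max_left _ _
  refine ⟨(sg bb (v3 0 3 z)).trans ((sg (v3 0 3 z) (v3 (p 0) (p 1) z)).trans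
    (sg (v3 (p 0) (p 1) z) p)), ?_⟩
  refine trans_all _ _ ?_ (trans_all _ _ ?_ ?_)
  · intro t w hw
    refine far_notin f (Or.inl ?_)
    have e : sg bb (v3 0 3 z) t 1 = 3 := by
      rw [sg_app]; simp [bb]; ring
    rw [v3_1, e]
    norm_num
  · intro t w hw
    refine far_notin f (Or.inr ?_)
    have e : sg (v3 0 3 z) (v3 (p 0) (p 1) z) t 2 = z := by
      rw [sg_app]; simp; ring
    rw [e] at hw
    rw [v3_2]
    exact le_trans (le_trans z2 hw) (le_abs_self w)
  · intro t w hw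
    have e0 : sg (v3 (p 0) (p 1) z) p t 0 = p 0 := by rw [sg_app]; simp; ring
    have e1 : sg (v3 (p 0) (p 1) z) p t 1 = p 1 := by rw [sg_app]; simp; ring
    have e2 : sg (v3 (p 0) (p 1) z) p t 2 = (1 - (t : ℝ)) * z + t * p 2 := by rw [sg_app]; simp
    rw [e0, e1]
    refine hp w ?_
    rw [e2] at hw
    have t0 : (0 : ℝ) ≤ t := t.2.1
    have t1 : (t : ℝ) ≤ 1 := t.2.2
    nlinarith

/-- a path from the base point, below the knot -/
theorem path_bot (f : LongKnot 3) {p : Eu 3} (hp : KBot f p) :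
    ∃ δ : Path bb p, ∀ t, KBot f (δ t) := by
  set z := min (p 2) (-2) with hz
  have z2 : z ≤ -2 := min_le_right _ _
  have zp : z ≤ p 2 := min_le_left _ _
  refine ⟨(sg bb (v3 0 3 z)).trans ((sg (v3 0 3 z) (v3 (p 0) (p 1) z)).trans
    (sg (v3 (p 0) (p 1) z) p)), ?_⟩
  refine trans_all _ _ ?_ (trans_all _ _ ?_ ?_)
  · intro t w hw
    refine far_notin f (Or.inl ?_)
    have e : sg bb (v3 0 3 z) t 1 = 3 := by
      rw [sg_app]; simp [bb]; ring
    rw [v3_1, e]
    norm_num
  · intro t w hw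
    refine far_notin f (Or.inr ?_)
    have e : sg (v3 0 3 z) (v3 (p 0) (p 1) z) t 2 = z := by
      rw [sg_app]; simp; ring
    rw [e] at hw
    rw [v3_2]
    have := neg_le_abs w
    linarith
  · intro t w hw
    have e0 : sg (v3 (p 0) (p 1) z) p t 0 = p 0 := by rw [sg_app]; simp; ring
    have e1 : sg (v3 (p 0) (p 1) z) p t 1 = p 1 := by rw [sg_app]; simp; ring
    have e2 : sg (v3 (p 0) (p 1) z) p t 2 = (1 - (t : ℝ)) * z + t * p 2 := by rw [sg_app]; simp
    rw [e0, e1]
    refine hp w ?_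
    rw [e2] at hw
    have t0 : (0 : ℝ) ≤ t := t.2.1
    have t1 : (t : ℝ) ≤ 1 := t.2.2
    nlinarith

theorem TB_of_KTB {S : Shadow} {f : LongKnot 3} (h : IsSh S (Set.range f.toFun))
    {tp : ∀ p : Eu 3, ∀ h : KTop f p, Path.Homotopic.Quotient
        (⟨bb, bb_notin f⟩ : Cp (Set.range f.toFun)) ⟨p, h.nin⟩}
    {bp : ∀ p : Eu 3, ∀ h : KBot f p, Path.Homotopic.Quotient
        (⟨bb, bb_notin f⟩ : Cp (Set.range f.toFun)) ⟨p, h.nin⟩}
    {PL : ∀ _ _ : ℝ, KG f} (hK : KTB f tp bp PL) :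
    ∃ (tp' : ∀ p : Cp (Set.range f.toFun), Top S (Set.range f.toFun) p →
        Path.Homotopic.Quotient ⟨bb, h.bb⟩ p)
      (bp' : ∀ p : Cp (Set.range f.toFun), Bot S (Set.range f.toFun) p →
        Path.Homotopic.Quotient ⟨bb, h.bb⟩ p),
      TB h tp' bp' ∧ ∀ i j : ℤ,
        FC h tp' bp' i j = PL (((i : ℝ) + 1 / 2) / 48) (((j : ℝ) + 1 / 2) / 48) := by
  refine ⟨fun p hp => tp p.1 ((top_iff h p).1 hp), fun p hp => bp p.1 ((bot_iff h p).1 hp),
    ⟨?_, ?_, ?_, ?_⟩, ?_⟩
  · intro p q hp hq δ hδ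
    have h1 := hK.top ((top_iff h p).1 hp) ((top_iff h q).1 hq)
      (δ.map continuous_subtype_val) (fun t => (top_iff h (δ t)).1 (hδ t))
    have h2 : inC (δ.map continuous_subtype_val)
      (fun t => ((top_iff h (δ t)).1 (hδ t)).nin) ((top_iff h p).1 hp).nin
      ((top_iff h q).1 hq).nin = δ := rfl
    rw [h2] at h1
    exact h1
  · intro p q hp hq δ hδ
    have h1 := hK.bot ((bot_iff h p).1 hp) ((bot_iff h q).1 hq)
      (δ.map continuous_subtype_val) (fun t => (bot_iff h (δ t)).1 (hδ t))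
    have h2 : inC (δ.map continuous_subtype_val)
      (fun t => ((bot_iff h (δ t)).1 (hδ t)).nin) ((bot_iff h p).1 hp).nin
      ((bot_iff h q).1 hq).nin = δ := rfl
    rw [h2] at h1
    exact h1
  · intro p hp
    obtain ⟨δ, hδ⟩ := path_top f ((top_iff h p).1 hp)
    refine ⟨inC δ (fun t => (hδ t).nin) (bb_notin f) ((top_iff h p).1 hp).nin, fun t => ?_,
      (hK.top0 ((top_iff h p).1 hp) δ hδ).symm⟩
    exact (top_iff h _).2 (hδ t)
  · intro p hp
    obtain ⟨δ, hδ⟩ := path_bot f ((bot_iff h p).1 hp)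
    refine ⟨inC δ (fun t => (hδ t).nin) (bb_notin f) ((bot_iff h p).1 hp).nin, fun t => ?_,
      (hK.bot0 ((bot_iff h p).1 hp) δ hδ).symm⟩
    exact (bot_iff h _).2 (hδ t)
  · intro i j
    have h1 := hK.pl (p := cpt i j)
      ((top_iff h (cptc h i j)).1 (fun w _ => cpt_free S i j w))
      ((bot_iff h (cptc h i j)).1 (fun w _ => cpt_free S i j w))
    exact h1.symm

end Pool.Agent.H414_LQ
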