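import Pool.Agent.H414_LQ.G1

/-!
JOB G3.  The projection of a grid knot, and of three grid knots in a row.
-/

set_option autoImplicit false

open scoped Topology ContDiff unitInterval

noncomputable section

namespace Pool.Agent.H414_LQ

open Pool.Agent.H414_LK

/-! ### A single knot -/

section one

variable {g : GK}

theorem Yne (g : GK) {k : ℕ} (hk : k < g.n) : g.Y k ≠ g.Y (k + 1) := by
  have h3 := g.n3
  rcases Nat.eq_zero_or_pos k with rfl | h0
  · rw [g.Y0]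
    exact ((g.Yr 1 (by omega) (by omega)).1).ne
  · by_cases h : k + 1 < g.n
    · intro he
      have := g.Yinj k (k + 1) h0 hk (by omega) h he
      omega
    · have e : k + 1 = g.n := by omega
      rw [e, g.Yn]
      exact ((g.Yr k h0 hk).1).ne'

theorem Ynn (g : GK) {k : ℕ} (hk : k ≤ g.n) : 0 ≤ g.Y k := by
  rcases Nat.eq_zero_or_pos k with rfl | h0
  · rw [g.Y0]
  · rcases hk.lt_or_eq with h | h
    · exact ((g.Yr k h0 h).1).le
    · rw [h, g.Yn]

/-- strict bounds for a convex combination -/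
theorem conv_lt {a b s : ℝ} (hab : a ≠ b) (h0 : 0 < s) (h1 : s < 1) :
    min a b < a + (b - a) * s ∧ a + (b - a) * s < max a b := by
  rcases lt_or_gt_of_ne hab with h | h
  · rw [min_eq_left h.le, max_eq_right h.le]
    constructor <;> nlinarith
  · rw [min_eq_right h.le, max_eq_left h.le]
    constructor <;> nlinarith

theorem conv_le {a b s : ℝ} (h0 : 0 ≤ s) (h1 : s ≤ 1) :
    min a b ≤ a + (b - a) * s ∧ a + (b - a) * s ≤ max a b := by
  rcases le_total a b with h | h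
  · rw [min_eq_left h, max_eq_right h]
    constructor <;> nlinarith
  · rw [min_eq_right h, max_eq_left h]
    constructor <;> nlinarith

theorem T_closed (g : GK) : IsClosed {p : ℝ × ℝ × ℝ | g.T p.1 p.2.1 p.2.2} := by
  have F := gfacts g
  have hcont : Continuous (fun t : ℝ => ((g.gx t, g.gy t, g.gz t) : ℝ × ℝ × ℝ)) :=
    F.smx.continuous.prodMk (F.smy.continuous.prodMk F.smz.continuous)
  have hC : IsClosed ((fun t : ℝ => ((g.gx t, g.gy t, g.gz t) : ℝ × ℝ × ℝ)) ''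
      Set.Icc (-((g.n : ℝ) + 1)) g.n) := (isCompact_Icc.image hcont).isClosed
  have hL : IsClosed {p : ℝ × ℝ × ℝ | (p.1 ≤ -((g.n : ℝ) + 1) ∨ (g.n : ℝ) ≤ p.1) ∧
      p.2.1 = 0 ∧ p.2.2 = 0} := by
    refine IsClosed.inter (IsClosed.union ?_ ?_) (IsClosed.inter ?_ ?_)
    · exact isClosed_le continuous_fst continuous_const
    · exact isClosed_le continuous_const continuous_fst
    · exact isClosed_eq (continuous_fst.comp continuous_snd) continuous_const
    · exact isClosed_eq (continuous_snd.comp continuous_snd) continuous_const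
  have e : {p : ℝ × ℝ × ℝ | g.T p.1 p.2.1 p.2.2} =
      ((fun t : ℝ => ((g.gx t, g.gy t, g.gz t) : ℝ × ℝ × ℝ)) ''
      Set.Icc (-((g.n : ℝ) + 1)) g.n) ∪ {p : ℝ × ℝ × ℝ | (p.1 ≤ -((g.n : ℝ) + 1) ∨
      (g.n : ℝ) ≤ p.1) ∧ p.2.1 = 0 ∧ p.2.2 = 0} := by
    ext ⟨x, y, z⟩
    constructor
    · rintro ⟨t, hx, hy, hz⟩
      simp only at hx hy hz
      by_cases h1 : -((g.n : ℝ) + 1) ≤ t ∧ t ≤ g.n
      · left
        exact ⟨t, h1, by simp [hx, hy, hz]⟩
      · right
        have h2 : t ≤ -((g.n : ℝ) + 1) ∨ (g.n : ℝ) ≤ t := by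
          by_contra hcon
          push Not at hcon
          exact h1 ⟨hcon.1.le, hcon.2.le⟩
        have h3 : t ≤ -(g.n : ℝ) ∨ (g.n : ℝ) - 1 ≤ t := by
          rcases h2 with h | h
          · left; linarith
          · right; linarith
        have e1 : x = t := by rw [← hx]; exact F.stdx t h2
        have e2 : y = 0 := by rw [← hy]; exact F.stdy t h3
        have e3 : z = 0 := by rw [← hz]; exact F.stdz t h2
        refine ⟨?_, e2, e3⟩
        rw [e1]; exact h2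
    · rintro (⟨t, -, ht⟩ | ⟨h1, h2, h3⟩)
      · simp only [Prod.mk.injEq] at ht
        exact ⟨t, ht.1, ht.2.1, ht.2.2⟩
      · simp only at h1 h2 h3
        have h3' : x ≤ -(g.n : ℝ) ∨ (g.n : ℝ) - 1 ≤ x := by
          rcases h1 with h | h
          · left; linarith
          · right; linarith
        exact ⟨x, F.stdx x h1, (F.stdy x h3').trans h2.symm, (F.stdz x h1).trans h3.symm⟩
  rw [e]
  exact hC.union hL

/-- the description of the open vertical pieces -/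
theorem vpc (g : GK) {k : ℕ} (hk : k < g.n) {t : ℝ} (h1 : -(g.n : ℝ) + 2 * k < t)
    (h2 : t < -(g.n : ℝ) + 2 * k + 1) : g.gx t = g.X k ∧
      g.gy t = g.Y k + ((g.Y (k + 1) : ℝ) - g.Y k) * st (t + g.n - 2 * k) ∧ 0 < g.gz t := by
  have F := gfacts g
  have hk0 : (0 : ℝ) ≤ k := Nat.cast_nonneg k
  have hkn : (k : ℝ) + 1 ≤ g.n := by exact_mod_cast hk
  rcases F.piece t with ⟨a, x, y, z⟩ | ⟨l, hl, a, b, x, y, z⟩ | ⟨l, hl, a, b, x, y, z⟩ | ⟨a, x, y, z⟩
  · linarith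
  · have e1 : (2 * l : ℝ) < 2 * k + 1 := by linarith
    have e2 : (2 * k : ℝ) < 2 * l + 1 := by linarith
    have e1' : 2 * l < 2 * k + 1 := by exact_mod_cast e1
    have e2' : 2 * k < 2 * l + 1 := by exact_mod_cast e2
    have e : l = k := by omega
    subst e
    exact ⟨x, y, z⟩
  · have e1 : (2 * l + 1 : ℝ) < 2 * k + 1 := by linarith
    have e2 : (2 * k : ℝ) < 2 * l + 2 := by linarith
    have e1' : 2 * l + 1 < 2 * k + 1 := by exact_mod_cast e1
    have e2' : 2 * k < 2 * l + 2 := by exact_mod_cast e2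
    omega
  · linarith

/-- the description of the open horizontal pieces -/
theorem hpc (g : GK) {k : ℕ} (hk : k + 1 < g.n) {t : ℝ} (h1 : -(g.n : ℝ) + 2 * k + 1 < t)
    (h2 : t < -(g.n : ℝ) + 2 * k + 2) :
      g.gx t = g.X k + ((g.X (k + 1) : ℝ) - g.X k) * st (t + g.n - 1 - 2 * k) ∧
      g.gy t = g.Y (k + 1) := by
  have F := gfacts g
  have hk0 : (0 : ℝ) ≤ k := Nat.cast_nonneg k
  have hkn : (k : ℝ) + 2 ≤ g.n := by exact_mod_cast hk
  rcases F.piece t with ⟨a, x, y, z⟩ | ⟨l, hl, a, b, x, y, z⟩ | ⟨l, hl, a, b, x, y, z⟩ | ⟨a, x, y, z⟩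
  · linarith
  · have e1 : (2 * l : ℝ) < 2 * k + 2 := by linarith
    have e2 : (2 * k + 1 : ℝ) < 2 * l + 1 := by linarith
    have e1' : 2 * l < 2 * k + 2 := by exact_mod_cast e1
    have e2' : 2 * k + 1 < 2 * l + 1 := by exact_mod_cast e2
    omega
  · have e1 : (2 * l + 1 : ℝ) < 2 * k + 2 := by linarith
    have e2 : (2 * k + 1 : ℝ) < 2 * l + 2 := by linarith
    have e1' : 2 * l + 1 < 2 * k + 2 := by exact_mod_cast e1
    have e2' : 2 * k + 1 < 2 * l + 2 := by exact_mod_cast e2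
    have e : l = k := by omega
    subst e
    exact ⟨x, y⟩
  · linarith

/-- a continuous identity on an open interval holds on the closed interval -/
theorem ext_Icc {a b : ℝ} (hab : a < b) {f f' : ℝ → ℝ} (hf : Continuous f) (hf' : Continuous f')
    (h : ∀ t, a < t → t < b → f t = f' t) {t : ℝ} (h1 : a ≤ t) (h2 : t ≤ b) : f t = f' t := by
  have hc : IsClosed {s | f s = f' s} := isClosed_eq hf hf'
  have hs : Set.Ioo a b ⊆ {s | f s = f' s} := fun s hs => h s hs.1 hs.2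
  have := closure_minimal hs hc
  rw [closure_Ioo hab.ne] at this
  exact this ⟨h1, h2⟩

theorem st_cont : Continuous st := st_contDiff'.continuous

theorem vx (g : GK) {k : ℕ} (hk : k < g.n) {t : ℝ} (h1 : -(g.n : ℝ) + 2 * k ≤ t)
    (h2 : t ≤ -(g.n : ℝ) + 2 * k + 1) : g.gx t = g.X k :=
  ext_Icc (by linarith) (gfacts g).smx.continuous continuous_const
    (fun _ a b => (vpc g hk a b).1) h1 h2

theorem vy (g : GK) {k : ℕ} (hk : k < g.n) {t : ℝ} (h1 : -(g.n : ℝ) + 2 * k ≤ t)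
    (h2 : t ≤ -(g.n : ℝ) + 2 * k + 1) :
    g.gy t = g.Y k + ((g.Y (k + 1) : ℝ) - g.Y k) * st (t + g.n - 2 * k) := by
  have hc : Continuous (fun t : ℝ =>
      (g.Y k : ℝ) + ((g.Y (k + 1) : ℝ) - g.Y k) * st (t + g.n - 2 * k)) := by
    have := st_cont
    fun_prop
  exact ext_Icc (f' := fun t : ℝ =>
      (g.Y k : ℝ) + ((g.Y (k + 1) : ℝ) - g.Y k) * st (t + g.n - 2 * k)) (by linarith)
      (gfacts g).smy.continuous hc (fun _ a b => (vpc g hk a b).2.1) h1 h2

theorem hy (g : GK) {k : ℕ} (hk : k + 1 < g.n) {t : ℝ} (h1 : -(g.n : ℝ) + 2 * k + 1 ≤ t)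
    (h2 : t ≤ -(g.n : ℝ) + 2 * k + 2) : g.gy t = g.Y (k + 1) :=
  ext_Icc (by linarith) (gfacts g).smy.continuous continuous_const
    (fun _ a b => (hpc g hk a b).2) h1 h2

theorem hx (g : GK) {k : ℕ} (hk : k + 1 < g.n) {t : ℝ} (h1 : -(g.n : ℝ) + 2 * k + 1 ≤ t)
    (h2 : t ≤ -(g.n : ℝ) + 2 * k + 2) :
    g.gx t = g.X k + ((g.X (k + 1) : ℝ) - g.X k) * st (t + g.n - 1 - 2 * k) := by
  have hc : Continuous (fun t : ℝ =>
      (g.X k : ℝ) + ((g.X (k + 1) : ℝ) - g.X k) * st (t + g.n - 1 - 2 * k)) := by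
    have := st_cont
    fun_prop
  exact ext_Icc (f' := fun t : ℝ =>
      (g.X k : ℝ) + ((g.X (k + 1) : ℝ) - g.X k) * st (t + g.n - 1 - 2 * k)) (by linarith)
      (gfacts g).smx.continuous hc (fun _ a b => (hpc g hk a b).1) h1 h2

theorem ivt {a b : ℝ} (hab : a ≤ b) {f : ℝ → ℝ} (hf : Continuous f) {y : ℝ}
    (h : min (f a) (f b) ≤ y ∧ y ≤ max (f a) (f b)) : ∃ t, a ≤ t ∧ t ≤ b ∧ f t = y := by
  have hc : ContinuousOn f (Set.Icc a b) := hf.continuousOn
  have : y ∈ f '' Set.Icc a b := by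
    rcases le_total (f a) (f b) with h' | h'
    · rw [min_eq_left h', max_eq_right h'] at h
      exact intermediate_value_Icc hab hc h
    · rw [min_eq_right h', max_eq_left h'] at h
      exact intermediate_value_Icc' hab hc h
  obtain ⟨t, ht, hty⟩ := this
  exact ⟨t, ht.1, ht.2, hty⟩

/-- points on a vertical segment -/
theorem run_v (g : GK) {k : ℕ} (hk : k < g.n) {y : ℝ}
    (h1 : min (g.Y k : ℝ) (g.Y (k + 1)) ≤ y) (h2 : y ≤ max (g.Y k : ℝ) (g.Y (k + 1))) :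
    ∃ t, -(g.n : ℝ) + 2 * k ≤ t ∧ t ≤ -(g.n : ℝ) + 2 * k + 1 ∧ g.gx t = g.X k ∧ g.gy t = y := by
  have e1 : g.gy (-(g.n : ℝ) + 2 * k) = g.Y k := by
    rw [vy g hk le_rfl (by linarith), st_zero (by linarith)]; ring
  have e2 : g.gy (-(g.n : ℝ) + 2 * k + 1) = g.Y (k + 1) := by
    rw [vy g hk (by linarith) le_rfl, st_one (by linarith)]; ring
  obtain ⟨t, a, b, c⟩ := ivt (a := -(g.n : ℝ) + 2 * k) (b := -(g.n : ℝ) + 2 * k + 1)
    (by linarith) (gfacts g).smy.continuous (y := y) (by rw [e1, e2]; exact ⟨h1, h2⟩)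
  exact ⟨t, a, b, vx g hk a b, c⟩

/-- points on a horizontal segment -/
theorem run_h (g : GK) {k : ℕ} (hk : k + 1 < g.n) {x : ℝ}
    (h1 : min (g.X k : ℝ) (g.X (k + 1)) ≤ x) (h2 : x ≤ max (g.X k : ℝ) (g.X (k + 1))) :
    ∃ t, -(g.n : ℝ) + 2 * k + 1 ≤ t ∧ t ≤ -(g.n : ℝ) + 2 * k + 2 ∧ g.gx t = x ∧
      g.gy t = g.Y (k + 1) := by
  have e1 : g.gx (-(g.n : ℝ) + 2 * k + 1) = g.X k := by
    rw [hx g hk le_rfl (by linarith), st_zero (by linarith)]; ring
  have e2 : g.gx (-(g.n : ℝ) + 2 * k + 2) = g.X (k + 1) := by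
    rw [hx g hk (by linarith) le_rfl, st_one (by linarith)]; ring
  obtain ⟨t, a, b, c⟩ := ivt (a := -(g.n : ℝ) + 2 * k + 1) (b := -(g.n : ℝ) + 2 * k + 2)
    (by linarith) (gfacts g).smx.continuous (y := x) (by rw [e1, e2]; exact ⟨h1, h2⟩)
  exact ⟨t, a, b, c, hy g hk a b⟩

/-- points on the left ray -/
theorem run_l (g : GK) {x : ℝ} (h : x ≤ g.X 0) : ∃ z, g.T x 0 z := by
  have F := gfacts g
  have h3 := g.n3
  have e1 : g.gx (min x (-((g.n : ℝ) + 1))) = min x (-((g.n : ℝ) + 1)) :=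
    F.stdx _ (Or.inl (min_le_right _ _))
  have e2 : g.gx (-(g.n : ℝ)) = g.X 0 := by
    have := vx g (k := 0) (by omega) (t := -(g.n : ℝ)) (by simp) (by simp)
    exact this
  obtain ⟨t, a, b, c⟩ := ivt (a := min x (-((g.n : ℝ) + 1))) (b := -(g.n : ℝ))
    ((min_le_right _ _).trans (by linarith)) F.smx.continuous (y := x) (by
      rw [e1, e2]
      exact ⟨(min_le_left _ _).trans (min_le_left _ _), h.trans (le_max_right _ _)⟩)
  exact ⟨g.gz t, t, c, F.stdy t (Or.inl b), rfl⟩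

/-- points on the right ray -/
theorem run_r (g : GK) {x : ℝ} (h : (g.X (g.n - 1) : ℝ) ≤ x) : ∃ z, g.T x 0 z := by
  have F := gfacts g
  have h3 := g.n3
  have hn : ((g.n - 1 : ℕ) : ℝ) = (g.n : ℝ) - 1 := by
    rw [Nat.cast_sub (by omega)]; simp
  have e1 : g.gx (max x (g.n : ℝ)) = max x (g.n : ℝ) :=
    F.stdx _ (Or.inr (le_max_right _ _))
  have e2 : g.gx ((g.n : ℝ) - 1) = g.X (g.n - 1) := by
    have := vx g (k := g.n - 1) (by omega) (t := (g.n : ℝ) - 1) (by rw [hn]; linarith)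
      (by rw [hn]; linarith)
    exact this
  obtain ⟨t, a, b, c⟩ := ivt (a := (g.n : ℝ) - 1) (b := max x (g.n : ℝ))
    (le_trans (by linarith) (le_max_right _ _)) F.smx.continuous (y := x) (by
      rw [e1, e2]
      exact ⟨(min_le_left _ _).trans h, (le_max_left _ _).trans (le_max_right _ _)⟩)
  exact ⟨g.gz t, t, c, F.stdy t (Or.inr a), rfl⟩

theorem g_int_v (g : GK) {t : ℝ} (h : 0 < g.gz t) : ∃ m : ℤ, g.gx t = m := by
  rcases (gfacts g).piece t with ⟨a, x, y, z⟩ | ⟨l, hl, a, b, x, y, z⟩ | ⟨l, hl, a, b, x, y, z⟩ |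
    ⟨a, x, y, z⟩
  · exact absurd h (not_lt.2 z)
  · exact ⟨_, x⟩
  · exact absurd h (not_lt.2 z)
  · exact absurd h (not_lt.2 z)

theorem g_int_h (g : GK) {t : ℝ} (h : g.gz t ≤ 0) : ∃ m : ℤ, g.gy t = m := by
  rcases (gfacts g).piece t with ⟨a, x, y, z⟩ | ⟨l, hl, a, b, x, y, z⟩ | ⟨l, hl, a, b, x, y, z⟩ |
    ⟨a, x, y, z⟩
  · exact ⟨0, by rw [y]; norm_num⟩
  · exact absurd h (not_le.2 z)
  · exact ⟨_, y⟩
  · exact ⟨0, by rw [y]; norm_num⟩

/-- An integer valued continuous function is locally constant. -/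
theorem ev_eq_of_int {f : ℝ → ℝ} {t : ℝ} (hf : Continuous f)
    (hint : ∀ᶠ s in 𝓝 t, ∃ m : ℤ, f s = m) : ∀ᶠ s in 𝓝 t, f s = f t := by
  obtain ⟨m, hm⟩ := hint.self_of_nhds
  have h1 : ∀ᶠ s in 𝓝 t, dist (f s) (f t) < 1 :=
    (Metric.tendsto_nhds.1 hf.continuousAt) 1 one_pos
  filter_upwards [hint, h1] with s hs h
  obtain ⟨n, hn⟩ := hs
  rw [hn, hm, Real.dist_eq] at h
  rw [hn, hm]
  have h2 : |((n - m : ℤ) : ℝ)| < 1 := by push_cast; exact h
  rw [← Int.cast_abs] at h2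
  have h3 : |n - m| < 1 := by exact_mod_cast h2
  have h4 : n = m := by
    have := Int.abs_lt_one_iff.1 h3
    linarith
  rw [h4]

theorem g_near_v (g : GK) {t : ℝ} (h : 0 < g.gz t) {w : ℝ} (hw : w < g.gz t) :
    ∀ᶠ y' in 𝓝 (g.gy t), ∃ z', w < z' ∧ g.T (g.gx t) y' z' := by
  have F := gfacts g
  have hd : deriv g.gy t ≠ 0 := by
    rcases F.dir t with ⟨h1, h2, h3⟩ | ⟨h1, h2, h3⟩ | ⟨h1, h2⟩
    · exact absurd h (not_lt.2 h1)
    · exact h3
    · rw [h2] at h; exact absurd h (lt_irrefl 0)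
  have hs : HasStrictDerivAt g.gy (deriv g.gy t) t :=
    (F.smy.contDiffAt (x := t)).hasStrictDerivAt (by simp)
  have hm := hs.map_nhds_eq hd
  rw [← hm, Filter.eventually_map]
  have h1 : ∀ᶠ s in 𝓝 t, 0 < g.gz s :=
    (F.smz.continuous.tendsto t).eventually (lt_mem_nhds h)
  have h2 : ∀ᶠ s in 𝓝 t, w < g.gz s :=
    (F.smz.continuous.tendsto t).eventually (lt_mem_nhds hw)
  have h3 : ∀ᶠ s in 𝓝 t, g.gx s = g.gx t :=
    ev_eq_of_int F.smx.continuous (h1.mono fun s hs => g_int_v g hs)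
  filter_upwards [h2, h3] with s hs2 hs3
  exact ⟨g.gz s, hs2, s, hs3, rfl, rfl⟩

theorem g_near_h (g : GK) {t : ℝ} (h : g.gz t < 0) {w : ℝ} (hw : g.gz t < w) :
    ∀ᶠ x' in 𝓝 (g.gx t), ∃ z', z' < w ∧ g.T x' (g.gy t) z' := by
  have F := gfacts g
  have hd : deriv g.gx t ≠ 0 := by
    rcases F.dir t with ⟨h1, h2, h3⟩ | ⟨h1, h2, h3⟩ | ⟨h1, h2⟩
    · exact h2
    · exact absurd h (not_lt.2 h1.le)
    · rw [h2] at h; exact absurd h (lt_irrefl 0)
  have hs : HasStrictDerivAt g.gx (deriv g.gx t) t :=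
    (F.smx.contDiffAt (x := t)).hasStrictDerivAt (by simp)
  have hm := hs.map_nhds_eq hd
  rw [← hm, Filter.eventually_map]
  have h1 : ∀ᶠ s in 𝓝 t, g.gz s < 0 :=
    (F.smz.continuous.tendsto t).eventually (gt_mem_nhds h)
  have h2 : ∀ᶠ s in 𝓝 t, g.gz s < w :=
    (F.smz.continuous.tendsto t).eventually (gt_mem_nhds hw)
  have h3 : ∀ᶠ s in 𝓝 t, g.gy s = g.gy t :=
    ev_eq_of_int F.smy.continuous (h1.mono fun s hs => g_int_h g hs.le)
  filter_upwards [h2, h3] with s hs2 hs3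
  exact ⟨g.gz s, hs2, s, rfl, hs3, rfl⟩

theorem min_cast (a b : ℤ) : min (a : ℝ) (b : ℝ) = ((min a b : ℤ) : ℝ) := by push_cast; rfl
theorem max_cast (a b : ℤ) : max (a : ℝ) (b : ℝ) = ((max a b : ℤ) : ℝ) := by push_cast; rfl

theorem g_cross (g : GK) {t s : ℝ} (ht : g.gz t ≤ 0) (hs : 0 < g.gz s) (hxx : g.gx t = g.gx s)
    (hyy : g.gy t = g.gy s) :
    g.gz t < 0 ∧ ∃ m n : ℤ, g.gx s = m ∧ g.gy s = n ∧ g.Cr m n := by
  have F := gfacts g
  rcases F.piece s with ⟨a, x, y, z⟩ | ⟨k, hk, a, b, x, y, z⟩ | ⟨k, hk, a, b, x, y, z⟩ |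
    ⟨a, x, y, z⟩
  · exact absurd hs (not_lt.2 z)
  swap
  · exact absurd hs (not_lt.2 z)
  swap
  · exact absurd hs (not_lt.2 z)
  have hY : (g.Y k : ℝ) ≠ g.Y (k + 1) := by exact_mod_cast Yne g hk
  have hc := conv_lt hY (st_pos (x := s + g.n - 2 * k) (by linarith))
    (st_lt_one (x := s + g.n - 2 * k) (by linarith))
  rw [← y, min_cast, max_cast] at hc
  have hpos : 0 < g.gy s := by
    have h1 : 0 ≤ min (g.Y k) (g.Y (k + 1)) := le_min (Ynn g hk.le) (Ynn g hk)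
    have h2 : (0 : ℝ) ≤ ((min (g.Y k) (g.Y (k + 1)) : ℤ) : ℝ) := by exact_mod_cast h1
    linarith [hc.1]
  rcases F.piece t with ⟨a', x', y', z'⟩ | ⟨l, hl, a', b', x', y', z'⟩ |
    ⟨l, hl, a', b', x', y', z'⟩ | ⟨a', x', y', z'⟩
  · rw [← hyy, y'] at hpos; exact absurd hpos (lt_irrefl 0)
  · exact absurd ht (not_le.2 z')
  swap
  · rw [← hyy, y'] at hpos; exact absurd hpos (lt_irrefl 0)
  have e1 : g.gy s = g.Y (l + 1) := by rw [← hyy, y']
  rw [e1] at hc
  have c1 : min (g.Y k) (g.Y (k + 1)) < g.Y (l + 1) := by exact_mod_cast hc.1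
  have c2 : g.Y (l + 1) < max (g.Y k) (g.Y (k + 1)) := by exact_mod_cast hc.2
  have hkl : k ≠ l := by
    rintro rfl
    rcases le_total (g.Y k) (g.Y (k + 1)) with h | h
    · rw [max_eq_right h] at c2; omega
    · rw [min_eq_right h] at c1; omega
  have hkl1 : k ≠ l + 1 := by
    rintro rfl
    rcases le_total (g.Y (l + 1)) (g.Y (l + 1 + 1)) with h | h
    · rw [min_eq_left h] at c1; omega
    · rw [max_eq_left h] at c2; omega
  have hX1 : g.X k ≠ g.X l := fun h => hkl (g.Xinj k l hk (by omega) h)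
  have hX2 : g.X k ≠ g.X (l + 1) := fun h => hkl1 (g.Xinj k (l + 1) hk (by omega) h)
  have hX3 : g.X l ≠ g.X (l + 1) := fun h => by
    have := g.Xinj l (l + 1) (by omega) (by omega) h
    omega
  have ex : (g.X k : ℝ) = g.X l + ((g.X (l + 1) : ℝ) - g.X l) * st (t + g.n - 1 - 2 * l) := by
    rw [← x', hxx, x]
  have ht1 : -(g.n : ℝ) + 2 * l + 1 < t := by
    rcases a'.lt_or_eq with h | h
    · exact h
    · exfalso
      rw [← h, st_zero (by linarith)] at ex
      apply hX1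
      have : (g.X k : ℝ) = g.X l := by rw [ex]; ring
      exact_mod_cast this
  have ht2 : t < -(g.n : ℝ) + 2 * l + 2 := by
    rcases b'.lt_or_eq with h | h
    · exact h
    · exfalso
      rw [h, st_one (by linarith)] at ex
      apply hX2
      have : (g.X k : ℝ) = g.X (l + 1) := by rw [ex]; ring
      exact_mod_cast this
  have hX3' : (g.X l : ℝ) ≠ g.X (l + 1) := by exact_mod_cast hX3
  have hc2 := conv_lt hX3' (st_pos (x := t + g.n - 1 - 2 * l) (by linarith))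
    (st_lt_one (x := t + g.n - 1 - 2 * l) (by linarith))
  rw [← ex, min_cast, max_cast] at hc2
  have d1 : min (g.X l) (g.X (l + 1)) < g.X k := by exact_mod_cast hc2.1
  have d2 : g.X k < max (g.X l) (g.X (l + 1)) := by exact_mod_cast hc2.2
  refine ⟨?_, g.X k, g.Y (l + 1), x, e1, ⟨k, hk, rfl, c1, c2⟩,
    Or.inl ⟨l, hl, rfl, by omega, by omega⟩, Or.inl ⟨l, hl, rfl, by omega, by omega⟩⟩
  apply F.neg (l + 1) t (by omega)
  · push_cast; linarith
  · push_cast; linarith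

/-- The projection of a single grid knot. -/
def sh1 (g : GK) : Shadow where
  K := g.T
  VE := g.VE
  HE := g.HE
  Cr := g.Cr
  closed := T_closed g
  bz := by
    rintro x y z ⟨t, rfl, rfl, rfl⟩
    exact ((gfacts g).gzc t).trans ((gfacts g).gc1 t)
  by0 := by
    rintro x y z ⟨t, rfl, rfl, rfl⟩
    exact ((gfacts g).gyb t).1
  by6 := by
    rintro x y z ⟨t, rfl, rfl, rfl⟩
    have h := ((gfacts g).gyb t).2
    have h7 : (g.n : ℝ) ≤ 7 := by exact_mod_cast g.n7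
    linarith
  int_v := by
    rintro x y z ⟨t, rfl, rfl, rfl⟩ h
    exact g_int_v g h
  int_h := by
    rintro x y z ⟨t, rfl, rfl, rfl⟩ h
    exact g_int_h g h
  uniq_v := by
    rintro x y z z' ⟨t, h1, h2, rfl⟩ ⟨t', h1', h2', rfl⟩ hz hz'
    rw [(gfacts g).injv t t' hz hz' (h1.trans h1'.symm) (h2.trans h2'.symm)]
  uniq_h := by
    rintro x y z z' ⟨t, h1, h2, rfl⟩ ⟨t', h1', h2', rfl⟩ hz hz'
    rw [(gfacts g).injh t t' hz hz' (h1.trans h1'.symm) (h2.trans h2'.symm)]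
  cross := by
    rintro x y z w ⟨t, h1, h2, rfl⟩ ⟨s, rfl, rfl, rfl⟩ hz hw
    exact g_cross g hz hw h1 h2
  near_v := by
    rintro x y z w ⟨t, rfl, rfl, rfl⟩ hz hw
    exact g_near_v g hz hw
  near_h := by
    rintro x y z w ⟨t, rfl, rfl, rfl⟩ hz hw
    exact g_near_h g hz hw
  cov_v := by
    rintro i j y ⟨k, hk, rfl, h1, h2⟩ h3 h4
    have h1' : ((min (g.Y k) (g.Y (k + 1)) : ℤ) : ℝ) ≤ j := by exact_mod_cast h1
    have h2' : (j : ℝ) + 1 ≤ ((max (g.Y k) (g.Y (k + 1)) : ℤ) : ℝ) := by exact_mod_cast h2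
    obtain ⟨t, a, b, c, d⟩ := run_v g hk (y := y) (by rw [min_cast]; linarith)
      (by rw [max_cast]; linarith)
    exact ⟨g.gz t, t, c, d, rfl⟩
  cov_h := by
    rintro i j x (⟨k, hk, rfl, h1, h2⟩ | ⟨rfl, h⟩) h3 h4
    · have h1' : ((min (g.X k) (g.X (k + 1)) : ℤ) : ℝ) ≤ i := by exact_mod_cast h1
      have h2' : (i : ℝ) + 1 ≤ ((max (g.X k) (g.X (k + 1)) : ℤ) : ℝ) := by exact_mod_cast h2
      obtain ⟨t, a, b, c, d⟩ := run_h g hk (x := x) (by rw [min_cast]; linarith)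
        (by rw [max_cast]; linarith)
      exact ⟨g.gz t, t, c, d, rfl⟩
    · rcases h with h | h
      · have h' : (i : ℝ) + 1 ≤ g.X 0 := by exact_mod_cast h
        have := run_l g (x := x) (by linarith)
        simpa using this
      · have h' : (g.X (g.n - 1) : ℝ) ≤ i := by exact_mod_cast h
        have := run_r g (x := x) (by linarith)
        simpa using this
  unc_v := by
    rintro i j y w hVE h1 h2 ⟨t, ex, ey, ez⟩
    have key : ∀ m : ℤ, y ≠ m := by
      rintro m rfl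
      have a : j < m := by exact_mod_cast h1
      have b : m < j + 1 := by exact_mod_cast h2
      omega
    rcases (gfacts g).piece t with ⟨a, x, y', z⟩ | ⟨l, hl, a, b, x, y', z⟩ |
      ⟨l, hl, a, b, x, y', z⟩ | ⟨a, x, y', z⟩
    · exact key 0 (by rw [← ey, y']; norm_num)
    · apply hVE
      have hc := conv_le (a := (g.Y l : ℝ)) (b := g.Y (l + 1)) (st_nonneg (t + g.n - 2 * l))
        (st_le_one (t + g.n - 2 * l))
      rw [← y', ey, min_cast, max_cast] at hc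
      refine ⟨l, hl, ?_, ?_, ?_⟩
      · rw [x] at ex; exact_mod_cast ex
      · have : ((min (g.Y l) (g.Y (l + 1)) : ℤ) : ℝ) < j + 1 := by linarith [hc.1]
        have : min (g.Y l) (g.Y (l + 1)) < j + 1 := by exact_mod_cast this
        omega
      · have : (j : ℝ) < ((max (g.Y l) (g.Y (l + 1)) : ℤ) : ℝ) := by linarith [hc.2]
        exact_mod_cast this
    · exact key _ (by rw [← ey, y'])
    · exact key 0 (by rw [← ey, y']; norm_num)
  unc_h := by
    rintro i j x w hHE h1 h2 ⟨t, ex, ey, ez⟩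
    have key : ∀ m : ℤ, x ≠ m := by
      rintro m rfl
      have a : i < m := by exact_mod_cast h1
      have b : m < i + 1 := by exact_mod_cast h2
      omega
    have hn3 := g.n3
    rcases (gfacts g).piece t with ⟨a, x', y', z⟩ | ⟨l, hl, a, b, x', y', z⟩ |
      ⟨l, hl, a, b, x', y', z⟩ | ⟨a, x', y', z⟩
    · apply hHE
      right
      refine ⟨?_, Or.inl ?_⟩
      · rw [y'] at ey; exact_mod_cast ey.symm
      · have h0 : (0 : ℝ) ≤ g.X 0 := by exact_mod_cast (g.Xr 0 (by omega)).1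
        have hn : (0 : ℝ) ≤ g.n := Nat.cast_nonneg _
        have hs0 := st_nonneg (t + g.n + 1)
        have hs1 := st_le_one (t + g.n + 1)
        have : (i : ℝ) < g.X 0 := by
          have : g.gx t ≤ g.X 0 := by rw [x']; nlinarith
          linarith
        exact_mod_cast this
    · exact key _ (by rw [← ex, x'])
    · apply hHE
      left
      have hc := conv_le (a := (g.X l : ℝ)) (b := g.X (l + 1)) (st_nonneg (t + g.n - 1 - 2 * l))
        (st_le_one (t + g.n - 1 - 2 * l))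
      rw [← x', ex, min_cast, max_cast] at hc
      refine ⟨l, hl, ?_, ?_, ?_⟩
      · rw [y'] at ey; exact_mod_cast ey
      · have : ((min (g.X l) (g.X (l + 1)) : ℤ) : ℝ) < i + 1 := by linarith [hc.1]
        have : min (g.X l) (g.X (l + 1)) < i + 1 := by exact_mod_cast this
        omega
      · have : (i : ℝ) < ((max (g.X l) (g.X (l + 1)) : ℤ) : ℝ) := by linarith [hc.2]
        exact_mod_cast this
    · apply hHE
      right
      refine ⟨?_, Or.inr ?_⟩
      · rw [y'] at ey; exact_mod_cast ey.symm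
      · have h0 : (g.X (g.n - 1) : ℝ) + 1 ≤ g.n := by
          exact_mod_cast (g.Xr (g.n - 1) (by omega)).2
        have hs0 := st_nonneg (t - (g.n - 1))
        have hs1 := st_le_one (t - (g.n - 1))
        have : (g.X (g.n - 1) : ℝ) < i + 1 := by
          have : (g.X (g.n - 1) : ℝ) ≤ g.gx t := by rw [x']; nlinarith
          linarith
        have : g.X (g.n - 1) < i + 1 := by exact_mod_cast this
        omega
  cr_pt := by
    rintro m n ⟨⟨k, hk, rfl, h1, h2⟩, H1, H2⟩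
    have F := gfacts g
    have h0 : 0 ≤ min (g.Y k) (g.Y (k + 1)) := le_min (Ynn g hk.le) (Ynn g hk)
    have hn0 : 0 < n := by omega
    obtain ⟨l, hl, hl1, hl2, hl3⟩ | ⟨h, -⟩ := H1
    swap
    · omega
    obtain ⟨l', hl', hl1', hl2', hl3'⟩ | ⟨h, -⟩ := H2
    swap
    · omega
    have ell : l = l' := by
      have := g.Yinj (l + 1) (l' + 1) (by omega) hl (by omega) hl' (hl1.trans hl1'.symm)
      omega
    subst ell
    have h1' : ((min (g.Y k) (g.Y (k + 1)) : ℤ) : ℝ) < n := by exact_mod_cast h1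
    have h2' : (n : ℝ) < ((max (g.Y k) (g.Y (k + 1)) : ℤ) : ℝ) := by exact_mod_cast h2
    obtain ⟨s, a, b, c, d⟩ := run_v g hk (y := n) (by rw [min_cast]; exact h1'.le)
      (by rw [max_cast]; exact h2'.le)
    have h3' : ((min (g.X l) (g.X (l + 1)) : ℤ) : ℝ) < g.X k := by
      have : min (g.X l) (g.X (l + 1)) < g.X k := by omega
      exact_mod_cast this
    have h4' : (g.X k : ℝ) < ((max (g.X l) (g.X (l + 1)) : ℤ) : ℝ) := by exact_mod_cast hl3'
    obtain ⟨t, a', b', c', d'⟩ := run_h g hl (x := g.X k) (by rw [min_cast]; exact h3'.le)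
      (by rw [max_cast]; exact h4'.le)
    refine ⟨g.gz t, g.gz s, ?_, ?_, ⟨t, c', by rw [d', hl1], rfl⟩, ⟨s, c, d, rfl⟩⟩
    · apply F.neg (l + 1) t (by omega)
      · rcases a'.lt_or_eq with h | h
        · push_cast; linarith
        · exfalso
          have e := hx g hl a' b'
          rw [c', ← h, st_zero (by linarith)] at e
          have e' : (g.X k : ℝ) = g.X l := by rw [e]; ring
          have e'' : g.X k = g.X l := by exact_mod_cast e'
          rcases le_total (g.X l) (g.X (l + 1)) with hh | hh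
          · rw [min_eq_left hh] at hl2; omega
          · rw [max_eq_left hh] at hl3'; omega
      · rcases b'.lt_or_eq with h | h
        · push_cast; linarith
        · exfalso
          have e := hx g hl a' b'
          rw [c', h, st_one (by linarith)] at e
          have e' : (g.X k : ℝ) = g.X (l + 1) := by rw [e]; ring
          have e'' : g.X k = g.X (l + 1) := by exact_mod_cast e'
          rcases le_total (g.X l) (g.X (l + 1)) with hh | hh
          · rw [max_eq_right hh] at hl3'; omega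
          · rw [min_eq_right hh] at hl2; omega
    · have ha : -(g.n : ℝ) + 2 * k < s := by
        rcases a.lt_or_eq with h | h
        · exact h
        · exfalso
          have e := vy g hk a b
          rw [d, ← h, st_zero (by linarith)] at e
          have e' : (n : ℝ) = g.Y k := by rw [e]; ring
          have e'' : n = g.Y k := by exact_mod_cast e'
          rcases le_total (g.Y k) (g.Y (k + 1)) with hh | hh
          · rw [min_eq_left hh] at h1; omega
          · rw [max_eq_left hh] at h2; omega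
      have hb : s < -(g.n : ℝ) + 2 * k + 1 := by
        rcases b.lt_or_eq with h | h
        · exact h
        · exfalso
          have e := vy g hk a b
          rw [d, h, st_one (by linarith)] at e
          have e' : (n : ℝ) = g.Y (k + 1) := by rw [e]; ring
          have e'' : n = g.Y (k + 1) := by exact_mod_cast e'
          rcases le_total (g.Y k) (g.Y (k + 1)) with hh | hh
          · rw [max_eq_right hh] at h2; omega
          · rw [min_eq_right hh] at h1; omega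
      exact (vpc g hk ha hb).2.2

/-- far from the center the knot is the axis -/
theorem g_far (g : GK) {x y z : ℝ} (h : 8 < |x|) : g.T x y z ↔ y = 0 ∧ z = 0 := by
  have F := gfacts g
  have h7 : (g.n : ℝ) ≤ 7 := by exact_mod_cast g.n7
  constructor
  · rintro ⟨t, rfl, rfl, rfl⟩
    have ht : t ≤ -((g.n : ℝ) + 1) ∨ (g.n : ℝ) ≤ t := by
      by_contra hcon
      push Not at hcon
      have := F.gxb t hcon.1.le hcon.2.le
      linarith
    have ht' : t ≤ -(g.n : ℝ) ∨ (g.n : ℝ) - 1 ≤ t := by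
      rcases ht with h | h
      · left; linarith
      · right; linarith
    exact ⟨F.stdy t ht', F.stdz t ht⟩
  · rintro ⟨rfl, rfl⟩
    have ht : x ≤ -((g.n : ℝ) + 1) ∨ (g.n : ℝ) ≤ x := by
      rcases lt_abs.1 h with h | h
      · right; linarith
      · left; linarith
    have ht' : x ≤ -(g.n : ℝ) ∨ (g.n : ℝ) - 1 ≤ x := by
      rcases ht with h | h
      · left; linarith
      · right; linarith
    exact ⟨x, F.stdx x ht, F.stdy x ht', F.stdz x ht⟩

end one

/-! ### Shifting and gluing -/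

/-- The shift of a shadow by an integer. -/
def shiftS (S : Shadow) (a : ℤ) : Shadow where
  K x y z := S.K (x - a) y z
  VE i j := S.VE (i - a) j
  HE i j := S.HE (i - a) j
  Cr i j := S.Cr (i - a) j
  closed := S.closed.preimage (f := fun p : ℝ × ℝ × ℝ => ((p.1 - a, p.2.1, p.2.2) : ℝ × ℝ × ℝ))
    (by fun_prop)
  bz h := S.bz h
  by0 h := S.by0 h
  by6 h := S.by6 h
  int_v := by
    intro x y z h hz
    obtain ⟨m, hm⟩ := S.int_v h hz
    exact ⟨m + a, by push_cast; linarith⟩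
  int_h h hz := S.int_h h hz
  uniq_v h h' hz hz' := S.uniq_v h h' hz hz'
  uniq_h h h' hz hz' := S.uniq_h h h' hz hz'
  cross := by
    intro x y z w h h' hz hw
    obtain ⟨h1, m, n, hm, hn, hc⟩ := S.cross h h' hz hw
    exact ⟨h1, m + a, n, by push_cast; linarith, hn, by rwa [add_sub_cancel_right]⟩
  near_v h hz hw := S.near_v h hz hw
  near_h := by
    intro x y z w h hz hw
    have h1 := S.near_h h hz hw
    have h2 : Filter.Tendsto (fun x' : ℝ => x' - a) (𝓝 x) (𝓝 (x - a)) :=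
      (continuous_id.sub continuous_const).tendsto x
    exact h2.eventually h1
  cov_v := by
    intro i j y h h1 h2
    obtain ⟨w, hw⟩ := S.cov_v h h1 h2
    exact ⟨w, by push_cast at hw; exact hw⟩
  cov_h := by
    intro i j x h h1 h2
    exact S.cov_h h (by push_cast; linarith) (by push_cast; linarith)
  unc_v := by
    intro i j y w h h1 h2 hK
    exact S.unc_v (w := w) h h1 h2 (by push_cast; exact hK)
  unc_h := by
    intro i j x w h h1 h2 hK
    exact S.unc_h (w := w) h (by push_cast; linarith) (by push_cast; linarith) hK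
  cr_pt := by
    intro m n h
    obtain ⟨z, w, hz, hw, h1, h2⟩ := S.cr_pt h
    push_cast at h1 h2
    exact ⟨z, w, hz, hw, h1, h2⟩

/-- Gluing two shadows along the plane `x = a`, in which both are the point of the axis. -/
def glueS (S₁ S₂ : Shadow) (a : ℤ) (h₁ : ∀ y z : ℝ, S₁.K a y z ↔ y = 0 ∧ z = 0)
    (h₂ : ∀ y z : ℝ, S₂.K a y z ↔ y = 0 ∧ z = 0) : Shadow where
  K x y z := (x < a ∧ S₁.K x y z) ∨ (a ≤ x ∧ S₂.K x y z)
  VE i j := (i < a ∧ S₁.VE i j) ∨ (a ≤ i ∧ S₂.VE i j)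
  HE i j := (i < a ∧ S₁.HE i j) ∨ (a ≤ i ∧ S₂.HE i j)
  Cr i j := (i < a ∧ S₁.Cr i j) ∨ (a ≤ i ∧ S₂.Cr i j)
  closed := by
    have e : {p : ℝ × ℝ × ℝ | (p.1 < a ∧ S₁.K p.1 p.2.1 p.2.2) ∨ (a ≤ p.1 ∧
        S₂.K p.1 p.2.1 p.2.2)} = ({p : ℝ × ℝ × ℝ | p.1 ≤ a} ∩ {p : ℝ × ℝ × ℝ |
        S₁.K p.1 p.2.1 p.2.2}) ∪ ({p : ℝ × ℝ × ℝ | a ≤ p.1} ∩ {p : ℝ × ℝ × ℝ |
        S₂.K p.1 p.2.1 p.2.2}) := by
      ext ⟨x, y, z⟩
      simp only [Set.mem_ofPred_eq, Set.mem_union, Set.mem_inter_iff]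
      constructor
      · rintro (⟨h, h'⟩ | h)
        · exact Or.inl ⟨h.le, h'⟩
        · exact Or.inr h
      · rintro (⟨h, h'⟩ | h)
        · rcases h.lt_or_eq with h3 | h3
          · exact Or.inl ⟨h3, h'⟩
          · right
            refine ⟨h3.ge, ?_⟩
            rw [h3] at h' ⊢
            exact (h₂ _ _).2 ((h₁ _ _).1 h')
        · exact Or.inr h
    rw [e]
    exact ((isClosed_le continuous_fst continuous_const).inter S₁.closed).union
      ((isClosed_le continuous_const continuous_fst).inter S₂.closed)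
  bz := by
    rintro x y z (⟨-, h⟩ | ⟨-, h⟩)
    · exact S₁.bz h
    · exact S₂.bz h
  by0 := by
    rintro x y z (⟨-, h⟩ | ⟨-, h⟩)
    · exact S₁.by0 h
    · exact S₂.by0 h
  by6 := by
    rintro x y z (⟨-, h⟩ | ⟨-, h⟩)
    · exact S₁.by6 h
    · exact S₂.by6 h
  int_v := by
    rintro x y z (⟨-, h⟩ | ⟨-, h⟩) hz
    · exact S₁.int_v h hz
    · exact S₂.int_v h hz
  int_h := by
    rintro x y z (⟨-, h⟩ | ⟨-, h⟩) hz
    · exact S₁.int_h h hz
    · exact S₂.int_h h hz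
  uniq_v := by
    rintro x y z z' (⟨l, h⟩ | ⟨l, h⟩) (⟨l', h'⟩ | ⟨l', h'⟩) hz hz'
    · exact S₁.uniq_v h h' hz hz'
    · linarith
    · linarith
    · exact S₂.uniq_v h h' hz hz'
  uniq_h := by
    rintro x y z z' (⟨l, h⟩ | ⟨l, h⟩) (⟨l', h'⟩ | ⟨l', h'⟩) hz hz'
    · exact S₁.uniq_h h h' hz hz'
    · linarith
    · linarith
    · exact S₂.uniq_h h h' hz hz'
  cross := by
    rintro x y z z' (⟨l, h⟩ | ⟨l, h⟩) (⟨l', h'⟩ | ⟨l', h'⟩) hz hz'
    · obtain ⟨h1, m, n, hm, hn, hc⟩ := S₁.cross h h' hz hz'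
      refine ⟨h1, m, n, hm, hn, Or.inl ⟨?_, hc⟩⟩
      rw [hm] at l; exact_mod_cast l
    · linarith
    · linarith
    · obtain ⟨h1, m, n, hm, hn, hc⟩ := S₂.cross h h' hz hz'
      refine ⟨h1, m, n, hm, hn, Or.inr ⟨?_, hc⟩⟩
      rw [hm] at l; exact_mod_cast l
  near_v := by
    rintro x y z w (⟨l, h⟩ | ⟨l, h⟩) hz hw
    · filter_upwards [S₁.near_v h hz hw] with y' ⟨z', h1, h2⟩
      exact ⟨z', h1, Or.inl ⟨l, h2⟩⟩
    · filter_upwards [S₂.near_v h hz hw] with y' ⟨z', h1, h2⟩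
      exact ⟨z', h1, Or.inr ⟨l, h2⟩⟩
  near_h := by
    rintro x y z w (⟨l, h⟩ | ⟨l, h⟩) hz hw
    · filter_upwards [S₁.near_h h hz hw, gt_mem_nhds l] with x' ⟨z', h1, h2⟩ hx'
      exact ⟨z', h1, Or.inl ⟨hx', h2⟩⟩
    · have l' : (a : ℝ) < x := by
        rcases l.lt_or_eq with h3 | h3
        · exact h3
        · rw [← h3] at h
          have := ((h₂ _ _).1 h).2
          linarith
      filter_upwards [S₂.near_h h hz hw, lt_mem_nhds l'] with x' ⟨z', h1, h2⟩ hx'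
      exact ⟨z', h1, Or.inr ⟨hx'.le, h2⟩⟩
  cov_v := by
    rintro i j y (⟨l, h⟩ | ⟨l, h⟩) h1 h2
    · obtain ⟨w, hw⟩ := S₁.cov_v h h1 h2
      exact ⟨w, Or.inl ⟨by exact_mod_cast l, hw⟩⟩
    · obtain ⟨w, hw⟩ := S₂.cov_v h h1 h2
      exact ⟨w, Or.inr ⟨by exact_mod_cast l, hw⟩⟩
  cov_h := by
    rintro i j x (⟨l, h⟩ | ⟨l, h⟩) h1 h2
    · obtain ⟨w, hw⟩ := S₁.cov_h h h1 h2
      have l' : (i : ℝ) + 1 ≤ a := by exact_mod_cast l
      rcases (h2.trans l').lt_or_eq with h3 | h3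
      · exact ⟨w, Or.inl ⟨h3, hw⟩⟩
      · refine ⟨w, Or.inr ⟨h3.ge, ?_⟩⟩
        rw [h3] at hw ⊢
        exact (h₂ _ _).2 ((h₁ _ _).1 hw)
    · obtain ⟨w, hw⟩ := S₂.cov_h h h1 h2
      have l' : (a : ℝ) ≤ i := by exact_mod_cast l
      exact ⟨w, Or.inr ⟨l'.trans h1, hw⟩⟩
  unc_v := by
    rintro i j y w hn h1 h2 (⟨l, h⟩ | ⟨l, h⟩)
    · have l' : i < a := by exact_mod_cast l
      exact S₁.unc_v (fun h' => hn (Or.inl ⟨l', h'⟩)) h1 h2 h
    · have l' : a ≤ i := by exact_mod_cast l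
      exact S₂.unc_v (fun h' => hn (Or.inr ⟨l', h'⟩)) h1 h2 h
  unc_h := by
    rintro i j x w hn h1 h2 (⟨l, h⟩ | ⟨l, h⟩)
    · have l' : (i : ℝ) < a := by linarith
      have l'' : i < a := by exact_mod_cast l'
      exact S₁.unc_h (fun h' => hn (Or.inl ⟨l'', h'⟩)) h1 h2 h
    · have l' : (a : ℝ) < i + 1 := by linarith
      have l'' : a < i + 1 := by exact_mod_cast l'
      exact S₂.unc_h (fun h' => hn (Or.inr ⟨by omega, h'⟩)) h1 h2 h
  cr_pt := by
    rintro m n (⟨l, h⟩ | ⟨l, h⟩)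
    · obtain ⟨z, w, hz, hw, h1, h2⟩ := S₁.cr_pt h
      have l' : (m : ℝ) < a := by exact_mod_cast l
      exact ⟨z, w, hz, hw, Or.inl ⟨l', h1⟩, Or.inl ⟨l', h2⟩⟩
    · obtain ⟨z, w, hz, hw, h1, h2⟩ := S₂.cr_pt h
      have l' : (a : ℝ) ≤ m := by exact_mod_cast l
      exact ⟨z, w, hz, hw, Or.inr ⟨l', h1⟩, Or.inr ⟨l', h2⟩⟩

/-
PROOF IDEA (TARGET).  First prove the fields of `Shadow` for the single knot `T`, `VE`, `HE`,
`Cr` of a grid knot; this generalises H414_LK/Shadow.lean (a particular grid knot, imported).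
For `closed`: the map `t ↦ (gx t, gy t, gz t)` is continuous, and proper as `gx t = t` for large `|t|`.
`by6`: `gy ≤ n - 1 ≤ 6`.  `cross`: a horizontal piece meets a vertical one at a point with
`y` strictly between the ends of the vertical piece (`w > 0` only on open pieces and `st` is
strictly between `0` and `1` there), so the horizontal piece is not a ray (`y > 0`), and `x = X k`
is not an end of the horizontal piece (the columns of its ends are only used by the vertical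
pieces that end there, `Xinj`), so `z < 0` by `neg` and there is a crossing: `VE`-type condition with
strict inequalities, `HE (i - 1) j` and `HE i j`.  `near_v`, `near_h`: see `near_v`, `near_h` in
Shadow.lean (`HasStrictDerivAt.map_nhds_eq`, using `dir`).  `cov_v`, `cov_h`: `st` takes all values
between `0` and `1` (`st_surj`); for the rays, the intermediate value theorem.  `unc_v`: a point
with `y` not an integer is on a vertical piece.  `cr_pt`: `cov_h` and `cov_v`-like arguments.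
Then glue: for `|x| ≥ 8` the knot `T` is the line `y = 0, z = 0` (`stdx`, `stdy`, `stdz`, `gxb`,
injectivity is not needed), no vertical edges and crossings there, `HE i j ↔ j = 0` for `i ≥ 8` or
`i < -8`; so near `x = ±16` the set `K3` is the line, and each field of `Shadow` is local in `x`.
(A convenient way: define the gluing of two shadows at an integer `a` near which both are the
line `y = z = 0`, and the shift of a shadow by an integer.)
-/
theorem exists_shadow (g : Fin 3 → GK) :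
    ∃ S : Shadow, S.K = K3 g ∧ S.VE = VE3 g ∧ S.HE = HE3 g ∧ S.Cr = Cr3 g := by
  have c1 : ∀ y z : ℝ, (shiftS (sh1 (g 0)) (-32)).K ((-16 : ℤ) : ℝ) y z ↔ y = 0 ∧ z = 0 := by
    intro y z
    exact g_far (g 0) (by norm_num)
  have c2 : ∀ y z : ℝ, (sh1 (g 1)).K ((-16 : ℤ) : ℝ) y z ↔ y = 0 ∧ z = 0 := by
    intro y z
    exact g_far (g 1) (by norm_num)
  have c3 : ∀ y z : ℝ, (glueS (shiftS (sh1 (g 0)) (-32)) (sh1 (g 1)) (-16) c1 c2).K
      ((16 : ℤ) : ℝ) y z ↔ y = 0 ∧ z = 0 := by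
    intro y z
    constructor
    · rintro (⟨h, -⟩ | ⟨-, h⟩)
      · norm_num at h
      · exact (g_far (g 1) (by norm_num)).1 h
    · intro h
      exact Or.inr ⟨by norm_num, (g_far (g 1) (by norm_num)).2 h⟩
  have c4 : ∀ y z : ℝ, (shiftS (sh1 (g 2)) 32).K ((16 : ℤ) : ℝ) y z ↔ y = 0 ∧ z = 0 := by
    intro y z
    exact g_far (g 2) (by norm_num)
  refine ⟨glueS (glueS (shiftS (sh1 (g 0)) (-32)) (sh1 (g 1)) (-16) c1 c2)
    (shiftS (sh1 (g 2)) 32) 16 c3 c4, ?_, ?_, ?_, ?_⟩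
  · funext x y z
    show ((x < ((16 : ℤ) : ℝ) ∧ ((x < ((-16 : ℤ) : ℝ) ∧ (g 0).T (x - ((-32 : ℤ) : ℝ)) y z) ∨
      (((-16 : ℤ) : ℝ) ≤ x ∧ (g 1).T x y z))) ∨ (((16 : ℤ) : ℝ) ≤ x ∧
      (g 2).T (x - ((32 : ℤ) : ℝ)) y z)) = K3 g x y z
    have e1 : x - ((-32 : ℤ) : ℝ) = x + 32 := by push_cast; ring
    have e2 : x - ((32 : ℤ) : ℝ) = x - 32 := by push_cast; ring
    have e3 : ((16 : ℤ) : ℝ) = 16 := by norm_num
    have e4 : ((-16 : ℤ) : ℝ) = -16 := by norm_num
    rw [e1, e2, e3, e4]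
    apply propext
    unfold K3
    constructor
    · rintro (⟨h1, (⟨h2, h3⟩ | ⟨h2, h3⟩)⟩ | h)
      · exact Or.inl ⟨h2, h3⟩
      · exact Or.inr (Or.inl ⟨h2, h1, h3⟩)
      · exact Or.inr (Or.inr h)
    · rintro (⟨h2, h3⟩ | ⟨h2, h1, h3⟩ | h)
      · exact Or.inl ⟨by linarith, Or.inl ⟨h2, h3⟩⟩
      · exact Or.inl ⟨h1, Or.inr ⟨h2, h3⟩⟩
      · exact Or.inr h
  · funext i j
    show ((i < 16 ∧ ((i < -16 ∧ (g 0).VE (i - (-32)) j) ∨ (-16 ≤ i ∧ (g 1).VE i j))) ∨ (16 ≤ i ∧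
      (g 2).VE (i - 32) j)) = VE3 g i j
    rw [sub_neg_eq_add]
    apply propext
    unfold VE3
    constructor
    · rintro (⟨h1, (⟨h2, h3⟩ | ⟨h2, h3⟩)⟩ | h)
      · exact Or.inl ⟨h2, h3⟩
      · exact Or.inr (Or.inl ⟨h2, h1, h3⟩)
      · exact Or.inr (Or.inr h)
    · rintro (⟨h2, h3⟩ | ⟨h2, h1, h3⟩ | h)
      · exact Or.inl ⟨by omega, Or.inl ⟨h2, h3⟩⟩
      · exact Or.inl ⟨h1, Or.inr ⟨h2, h3⟩⟩
      · exact Or.inr h
  · funext i j
    show ((i < 16 ∧ ((i < -16 ∧ (g 0).HE (i - (-32)) j) ∨ (-16 ≤ i ∧ (g 1).HE i j))) ∨ (16 ≤ i ∧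
      (g 2).HE (i - 32) j)) = HE3 g i j
    rw [sub_neg_eq_add]
    apply propext
    unfold HE3
    constructor
    · rintro (⟨h1, (⟨h2, h3⟩ | ⟨h2, h3⟩)⟩ | h)
      · exact Or.inl ⟨h2, h3⟩
      · exact Or.inr (Or.inl ⟨h2, h1, h3⟩)
      · exact Or.inr (Or.inr h)
    · rintro (⟨h2, h3⟩ | ⟨h2, h1, h3⟩ | h)
      · exact Or.inl ⟨by omega, Or.inl ⟨h2, h3⟩⟩
      · exact Or.inl ⟨h1, Or.inr ⟨h2, h3⟩⟩
      · exact Or.inr h
  · funext i j
    show ((i < 16 ∧ ((i < -16 ∧ (g 0).Cr (i - (-32)) j) ∨ (-16 ≤ i ∧ (g 1).Cr i j))) ∨ (16 ≤ i ∧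
      (g 2).Cr (i - 32) j)) = Cr3 g i j
    rw [sub_neg_eq_add]
    apply propext
    unfold Cr3
    constructor
    · rintro (⟨h1, (⟨h2, h3⟩ | ⟨h2, h3⟩)⟩ | h)
      · exact Or.inl ⟨h2, h3⟩
      · exact Or.inr (Or.inl ⟨h2, h1, h3⟩)
      · exact Or.inr (Or.inr h)
    · rintro (⟨h2, h3⟩ | ⟨h2, h1, h3⟩ | h)
      · exact Or.inl ⟨by omega, Or.inl ⟨h2, h3⟩⟩
      · exact Or.inl ⟨h1, Or.inr ⟨h2, h3⟩⟩
      · exact Or.inr h

end Pool.Agent.H414_LQ
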