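import Pool.Agent.H414_LQ.Base3

/-!
JOB M10.  Good labellings of three particular grid knots in a row.  (Pure finite combinatorics.)
-/

set_option autoImplicit false

open scoped Topology ContDiff unitInterval

noncomputable section

namespace Pool.Agent.H414_LQ

open Pool.Agent.H414_LK

section words

variable {G : Type} [Group G]

end words


/-! ### Boolean versions of the predicates -/

/-- Boolean version of `VE` -/
def vB (g : GK) (i j : ℤ) : Bool :=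
  (List.range g.n).any fun k => decide (g.X k = i ∧ min (g.Y k) (g.Y (k + 1)) ≤ j ∧
    j < max (g.Y k) (g.Y (k + 1)))

/-- Boolean version of `HE` -/
def hB (g : GK) (i j : ℤ) : Bool :=
  ((List.range (g.n - 1)).any fun k => decide (g.Y (k + 1) = j ∧
    min (g.X k) (g.X (k + 1)) ≤ i ∧ i < max (g.X k) (g.X (k + 1)))) ||
    decide (j = 0 ∧ (i < g.X 0 ∨ g.X (g.n - 1) ≤ i))

/-- Boolean version of `Cr` -/
def cB (g : GK) (i j : ℤ) : Bool :=
  ((List.range g.n).any fun k => decide (g.X k = i ∧ min (g.Y k) (g.Y (k + 1)) < j ∧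
    j < max (g.Y k) (g.Y (k + 1)))) && (hB g (i - 1) j && hB g i j)

theorem vB_iff (g : GK) (i j : ℤ) : vB g i j = true ↔ g.VE i j := by
  simp [vB, GK.VE, List.any_eq_true]

theorem hB_iff (g : GK) (i j : ℤ) : hB g i j = true ↔ g.HE i j := by
  have hn := g.n3
  unfold hB GK.HE
  rw [Bool.or_eq_true, List.any_eq_true, decide_eq_true_eq]
  refine or_congr ?_ Iff.rfl
  constructor
  · rintro ⟨k, hk, h⟩
    rw [decide_eq_true_eq] at h
    exact ⟨k, by rw [List.mem_range] at hk; omega, h⟩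
  · rintro ⟨k, hk, h⟩
    exact ⟨k, by rw [List.mem_range]; omega, by rw [decide_eq_true_eq]; exact h⟩

theorem cB_iff (g : GK) (i j : ℤ) : cB g i j = true ↔ g.Cr i j := by
  unfold cB GK.Cr
  rw [Bool.and_eq_true, Bool.and_eq_true, hB_iff, hB_iff]
  refine and_congr ?_ Iff.rfl
  simp [List.any_eq_true]

theorem vB_false {g : GK} {i j : ℤ} (h : vB g i j = false) : ¬ g.VE i j := by
  rw [← vB_iff, h]; simp

theorem hB_false {g : GK} {i j : ℤ} (h : hB g i j = false) : ¬ g.HE i j := by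
  rw [← hB_iff, h]; simp

theorem VE_in (g : GK) {i j : ℤ} (h : g.VE i j) : 0 ≤ i ∧ i < g.n ∧ 0 ≤ j ∧ j < g.n := by
  obtain ⟨k, hk, h1, h2, h3⟩ := h
  have hX := g.Xr k hk
  have hY : ∀ l, l ≤ g.n → 0 ≤ g.Y l ∧ g.Y l < g.n := by
    intro l hl
    have hn := g.n3
    rcases Nat.eq_zero_or_pos l with h0 | h0
    · rw [h0, g.Y0]; omega
    · rcases Nat.lt_or_ge l g.n with h4 | h4
      · have := g.Yr l h0 h4; omega
      · have : l = g.n := by omega
        rw [this, g.Yn]; omega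
  have h4 := hY k hk.le
  have h5 := hY (k + 1) hk
  refine ⟨by omega, by omega, ?_, ?_⟩
  · rcases le_total (g.Y k) (g.Y (k + 1)) with h | h
    · rw [min_eq_left h] at h2; omega
    · rw [min_eq_right h] at h2; omega
  · rcases le_total (g.Y k) (g.Y (k + 1)) with h | h
    · rw [max_eq_right h] at h3; omega
    · rw [max_eq_left h] at h3; omega

theorem HE_in (g : GK) {i j : ℤ} (h : g.HE i j) : (0 ≤ i ∧ i < g.n - 1 ∧ 0 < j ∧ j < g.n) ∨ j = 0 := by
  rcases h with ⟨k, hk, h1, h2, h3⟩ | ⟨h0, _⟩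
  · left
    have hX := g.Xr k (by omega)
    have hX' := g.Xr (k + 1) hk
    have hY := g.Yr (k + 1) (by omega) hk
    refine ⟨?_, ?_, by omega, by omega⟩
    · rcases le_total (g.X k) (g.X (k + 1)) with h | h
      · rw [min_eq_left h] at h2; omega
      · rw [min_eq_right h] at h2; omega
    · rcases le_total (g.X k) (g.X (k + 1)) with h | h
      · rw [max_eq_right h] at h3; omega
      · rw [max_eq_left h] at h3; omega
  · right; exact h0

/-! ### Labellings near one of the knots -/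

/-- The conditions on a labelling near one of the grid knots. -/
structure LocL {G : Type} [Group G] (g : GK) (m : G) (L : ℤ → ℤ → G) : Prop where
  v : ∀ i j, -8 ≤ i → i ≤ 12 → ¬ g.VE i j → L (i - 1) j = L i j
  h : ∀ i j, -8 ≤ i → i ≤ 12 → ¬ g.HE i j → L i (j - 1) = L i j
  c : ∀ i j, -8 ≤ i → i ≤ 12 → g.Cr i j →
    (L (i - 1) (j - 1))⁻¹ * L i (j - 1) = (L (i - 1) j)⁻¹ * L i j
  up : ∀ i j, 6 ≤ j → L i j = 1
  low : ∀ i j, j < 0 → L i j = m

theorem out_aux {G : Type} [Group G] (L : ℤ → ℤ → G) (i : ℤ)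
    (h : ∀ j, 1 ≤ j → L i (j - 1) = L i j) (up : ∀ j, 6 ≤ j → L i j = 1) (j : ℤ) (hj : 0 ≤ j) :
    L i j = 1 := by
  have key : ∀ k : ℕ, k ≤ 6 → L i (6 - k) = 1 := by
    intro k
    induction k with
    | zero => intro _; exact up _ (by norm_num)
    | succ k ih =>
      intro hk
      have h1 := h (6 - k) (by omega)
      rw [ih (by omega)] at h1
      rw [← h1]
      congr 1
      push_cast
      ring
  rcases le_or_gt 6 j with h6 | h6
  · exact up j h6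
  · have h1 := key (6 - j).toNat (by omega)
    rw [← h1]
    congr 1
    omega

section loc

variable {G : Type} [Group G] {g : GK} {m : G} {L : ℤ → ℤ → G}

theorem LocL.outI (hL : LocL g m L) (i j : ℤ) (h1 : -8 ≤ i) (h2 : i ≤ 12)
    (h3 : i < 0 ∨ (g.n : ℤ) - 1 ≤ i) (hj : 0 ≤ j) : L i j = 1 := by
  refine out_aux L i (fun j hj => hL.h i j h1 h2 ?_) (hL.up i) j hj
  intro h
  rcases HE_in g h with h | h <;> omega

theorem LocL.out (hL : LocL g m L) (i j : ℤ)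
    (h : (decide (-8 ≤ i) && decide (i ≤ 12) && decide (i < 0 ∨ (g.n : ℤ) - 1 ≤ i) &&
      decide (0 ≤ j)) = true) : L i j = 1 := by
  simp only [Bool.and_eq_true, decide_eq_true_eq] at h
  exact hL.outI i j h.1.1.1 h.1.1.2 h.1.2 h.2

theorem LocL.vr (hL : LocL g m L) {i i' j : ℤ}
    (h : (decide (i' = i - 1) && decide (-8 ≤ i) && decide (i ≤ 12) && !(vB g i j)) = true) :
    L i' j = L i j := by
  simp only [Bool.and_eq_true, decide_eq_true_eq, Bool.not_eq_true'] at h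
  rw [h.1.1.1]
  exact hL.v i j h.1.1.2 h.1.2 (vB_false h.2)

theorem LocL.hr (hL : LocL g m L) {i j j' : ℤ}
    (h : (decide (j' = j - 1) && decide (-8 ≤ i) && decide (i ≤ 12) && !(hB g i j)) = true) :
    L i j' = L i j := by
  simp only [Bool.and_eq_true, decide_eq_true_eq, Bool.not_eq_true'] at h
  rw [h.1.1.1]
  exact hL.h i j h.1.1.2 h.1.2 (hB_false h.2)

theorem LocL.cr (hL : LocL g m L) {i i' j j' : ℤ}
    (h : (decide (i' = i - 1) && decide (j' = j - 1) && decide (-8 ≤ i) && decide (i ≤ 12) &&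
      (cB g i j)) = true) :
    (L i' j')⁻¹ * L i j' = (L i' j)⁻¹ * L i j := by
  simp only [Bool.and_eq_true, decide_eq_true_eq] at h
  rw [h.1.1.1.1, h.1.1.1.2]
  exact hL.c i j h.1.1.2 h.1.2 ((cB_iff g i j).1 h.2)

end loc

/-! ### The tables -/

/-- The entry of a table. -/
def tN (T : List (List ℕ)) (i j : ℤ) : ℕ :=
  if j < 0 then 1 else if i < 0 ∨ 5 < i ∨ 5 < j then 0 else (T.getD j.toNat []).getD i.toNat 0

/-- the table of `5_2` -/
def TF : List (List ℕ) := [[1, 1, 1, 1], [1, 5, 5, 5, 4], [0, 2, 2, 5, 4], [0, 2, 2, 5, 5, 6], [0, 2, 3, 6, 6, 6], [0, 0, 6, 6, 6, 6]]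
/-- the table of `4_1` -/
def TE : List (List ℕ) := [[1, 1, 1], [1, 1, 4, 3], [1, 1, 4, 4, 5], [1, 2, 5, 5, 5], [0, 5, 5, 5, 5]]
/-- the table of `3_1` -/
def TT : List (List ℕ) := [[1, 1, 1], [1, 3, 3, 4], [0, 2, 3, 4], [0, 0, 4, 4]]

section vals

variable {G : Type} [Group G]

/-- the labels of `5_2` -/
def valF (m d : G) : ℕ → G
  | 0 => 1
  | 1 => m
  | 2 => m⁻¹ * d
  | 3 => m⁻¹ * d * d * m * d⁻¹
  | 4 => d * m⁻¹
  | 5 => d
  | _ => d * m * d⁻¹

/-- the labels of `4_1` -/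
def valE (m d : G) : ℕ → G
  | 0 => 1
  | 1 => m
  | 2 => m * d
  | 3 => m * d⁻¹ * m⁻¹ * d * m⁻¹
  | 4 => m * d⁻¹ * m⁻¹ * d
  | _ => d

/-- the labels of `3_1` -/
def valT (m a : G) : ℕ → G
  | 0 => 1
  | 1 => m
  | 2 => a
  | 3 => m * a
  | _ => a⁻¹ * m * a

end vals

theorem locF {G : Type} [Group G] {m : G} {L : ℤ → ℤ → G} (hL : LocL gF m L) :
    R1 m (L 1 1) ∧ ∀ i j, -8 ≤ i → i ≤ 12 → L i j = valF m (L 1 1) (tN TF i j) := by
  obtain ⟨a, ha⟩ : ∃ a, L 1 2 = a := ⟨_, rfl⟩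
  obtain ⟨b, hb⟩ : ∃ b, L 2 4 = b := ⟨_, rfl⟩
  obtain ⟨c, hc⟩ : ∃ c, L 4 1 = c := ⟨_, rfl⟩
  obtain ⟨d, hd⟩ : ∃ d, L 1 1 = d := ⟨_, rfl⟩
  obtain ⟨e, he⟩ : ∃ e, L 2 5 = e := ⟨_, rfl⟩
  have q1_2 : L 1 2 = a := ha
  have q2_4 : L 2 4 = b := hb
  have q4_1 : L 4 1 = c := hc
  have q1_1 : L 1 1 = d := hd
  have q2_5 : L 2 5 = e := he
  have q5_0 : L 5 0 = 1 := (hL.vr (i := 6) (i' := 5) (j := 0) (by decide)).trans (hL.out 6 0 (by decide))
  have q5_1 : L 5 1 = 1 := (hL.vr (i := 6) (i' := 5) (j := 1) (by decide)).trans (hL.out 6 1 (by decide))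
  have q0_2 : L 0 2 = 1 := (hL.vr (i := 0) (i' := (-1)) (j := 2) (by decide)).symm.trans (hL.out (-1) 2 (by decide))
  have q5_2 : L 5 2 = 1 := (hL.vr (i := 6) (i' := 5) (j := 2) (by decide)).trans (hL.out 6 2 (by decide))
  have q0_3 : L 0 3 = 1 := (hL.vr (i := 0) (i' := (-1)) (j := 3) (by decide)).symm.trans (hL.out (-1) 3 (by decide))
  have q0_4 : L 0 4 = 1 := (hL.vr (i := 0) (i' := (-1)) (j := 4) (by decide)).symm.trans (hL.out (-1) 4 (by decide))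
  have q0_5 : L 0 5 = 1 := (hL.vr (i := 0) (i' := (-1)) (j := 5) (by decide)).symm.trans (hL.out (-1) 5 (by decide))
  have q0_0 : L 0 0 = m := (hL.hr (i := 0) (j := 0) (j' := (-1)) (by decide)).symm.trans (hL.low 0 (-1) (by decide))
  have q1_5 : L 1 5 = 1 := (hL.hr (i := 1) (j := 6) (j' := 5) (by decide)).trans (hL.up 1 6 (by decide))
  have q1_0 : L 1 0 = m := (hL.hr (i := 1) (j := 0) (j' := (-1)) (by decide)).symm.trans (hL.low 1 (-1) (by decide))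
  have q2_0 : L 2 0 = m := (hL.hr (i := 2) (j := 0) (j' := (-1)) (by decide)).symm.trans (hL.low 2 (-1) (by decide))
  have q3_0 : L 3 0 = m := (hL.hr (i := 3) (j := 0) (j' := (-1)) (by decide)).symm.trans (hL.low 3 (-1) (by decide))
  have q2_2 : L 2 2 = a := (hL.vr (i := 2) (i' := 1) (j := 2) (by decide)).symm.trans q1_2
  have q1_3 : L 1 3 = a := (hL.hr (i := 1) (j := 3) (j' := 2) (by decide)).symm.trans q1_2
  have q4_2 : L 4 2 = c := (hL.hr (i := 4) (j := 2) (j' := 1) (by decide)).symm.trans q4_1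
  have q2_1 : L 2 1 = d := (hL.vr (i := 2) (i' := 1) (j := 1) (by decide)).symm.trans q1_1
  have q3_5 : L 3 5 = e := (hL.vr (i := 3) (i' := 2) (j := 5) (by decide)).symm.trans q2_5
  have q4_0 : L 4 0 = 1 := (hL.vr (i := 5) (i' := 4) (j := 0) (by decide)).trans q5_0
  have q0_1 : L 0 1 = m := (hL.hr (i := 0) (j := 1) (j' := 0) (by decide)).symm.trans q0_0
  have q2_3 : L 2 3 = a := (hL.hr (i := 2) (j := 3) (j' := 2) (by decide)).symm.trans q2_2
  have q1_4 : L 1 4 = a := (hL.hr (i := 1) (j := 4) (j' := 3) (by decide)).symm.trans q1_3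
  have q3_1 : L 3 1 = d := (hL.vr (i := 3) (i' := 2) (j := 1) (by decide)).symm.trans q2_1
  have q4_5 : L 4 5 = e := (hL.vr (i := 4) (i' := 3) (j := 5) (by decide)).symm.trans q3_5
  have q3_4 : L 3 4 = e := (hL.hr (i := 3) (j := 5) (j' := 4) (by decide)).trans q3_5
  have q3_2 : L 3 2 = d := (hL.hr (i := 3) (j := 2) (j' := 1) (by decide)).symm.trans q3_1
  have q5_5 : L 5 5 = e := (hL.vr (i := 5) (i' := 4) (j := 5) (by decide)).symm.trans q4_5
  have q4_4 : L 4 4 = e := (hL.hr (i := 4) (j := 5) (j' := 4) (by decide)).trans q4_5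
  have q3_3 : L 3 3 = d := (hL.hr (i := 3) (j := 3) (j' := 2) (by decide)).symm.trans q3_2
  have q5_4 : L 5 4 = e := (hL.hr (i := 5) (j := 5) (j' := 4) (by decide)).trans q5_5
  have q4_3 : L 4 3 = d := (hL.vr (i := 4) (i' := 3) (j := 3) (by decide)).symm.trans q3_3
  have q5_3 : L 5 3 = e := (hL.hr (i := 5) (j := 4) (j' := 3) (by decide)).trans q5_4
  rw [hd]
  -- the crossings
  have x41 := hL.cr (i := 4) (i' := 3) (j := 1) (j' := 0) (by decide)
  rw [q3_0, q4_0, q3_1, q4_1, mul_one] at x41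
  have x12 := hL.cr (i := 1) (i' := 0) (j := 2) (j' := 1) (by decide)
  rw [q0_1, q1_1, q0_2, q1_2, inv_one, one_mul] at x12
  have x53 := hL.cr (i := 5) (i' := 4) (j := 3) (j' := 2) (by decide)
  rw [q4_2, q5_2, q4_3, q5_3, mul_one] at x53
  have x25 := hL.cr (i := 2) (i' := 1) (j := 5) (j' := 4) (by decide)
  rw [q1_4, q2_4, q1_5, q2_5, inv_one, one_mul] at x25
  have x34 := hL.cr (i := 3) (i' := 2) (j := 4) (j' := 3) (by decide)
  rw [q2_3, q3_3, q2_4, q3_4] at x34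
  have ec : c = d * m⁻¹ := by rw [x41]; group
  have ea : a = m⁻¹ * d := x12.symm
  have ee : e = d * m * d⁻¹ := by
    have : e = d * c⁻¹ := by rw [x53]; group
    rw [this, ec]; group
  have eb : b = m⁻¹ * d * d * m * d⁻¹ := by
    have : b = a * e := by rw [← x25]; group
    rw [this, ea, ee]; group
  refine ⟨?_, ?_⟩
  · rw [ea, eb, ee] at x34
    unfold R1
    calc d⁻¹ * m * d = (m⁻¹ * d)⁻¹ * d := by group
      _ = _ := x34
      _ = _ := by group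
  · intro i j h1 h2
    rcases lt_or_ge j 0 with hj | hj
    · rw [tN, if_pos hj, hL.low i j hj]; rfl
    · by_cases ho : i < 0 ∨ 5 < i ∨ 5 < j
      · rw [tN, if_neg (not_lt.2 hj), if_pos ho]
        rcases ho with ho | ho | ho
        · rw [hL.outI i j h1 h2 (Or.inl ho) hj]; rfl
        · rw [hL.outI i j h1 h2 (Or.inr (by show (7 : ℤ) - 1 ≤ i; omega)) hj]; rfl
        · rw [hL.up i j (by omega)]; rfl
      · push Not at ho
        obtain ⟨ho1, ho2, ho3⟩ := ho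
        subst ea eb ec ee
        interval_cases i <;> interval_cases j <;> assumption

theorem locE {G : Type} [Group G] {m : G} {L : ℤ → ℤ → G} (hL : LocL gE m L) :
    R2 m (L 1 4) ∧ ∀ i j, -8 ≤ i → i ≤ 12 → L i j = valE m (L 1 4) (tN TE i j) := by
  obtain ⟨a, ha⟩ : ∃ a, L 1 3 = a := ⟨_, rfl⟩
  obtain ⟨b, hb⟩ : ∃ b, L 3 1 = b := ⟨_, rfl⟩
  obtain ⟨c, hc⟩ : ∃ c, L 2 1 = c := ⟨_, rfl⟩
  obtain ⟨d, hd⟩ : ∃ d, L 1 4 = d := ⟨_, rfl⟩
  have q1_3 : L 1 3 = a := ha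
  have q3_1 : L 3 1 = b := hb
  have q2_1 : L 2 1 = c := hc
  have q1_4 : L 1 4 = d := hd
  have q4_0 : L 4 0 = 1 := (hL.vr (i := 5) (i' := 4) (j := 0) (by decide)).trans (hL.out 5 0 (by decide))
  have q4_1 : L 4 1 = 1 := (hL.vr (i := 5) (i' := 4) (j := 1) (by decide)).trans (hL.out 5 1 (by decide))
  have q0_4 : L 0 4 = 1 := (hL.vr (i := 0) (i' := (-1)) (j := 4) (by decide)).symm.trans (hL.out (-1) 4 (by decide))
  have q0_5 : L 0 5 = 1 := (hL.vr (i := 0) (i' := (-1)) (j := 5) (by decide)).symm.trans (hL.out (-1) 5 (by decide))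
  have q4_5 : L 4 5 = 1 := (hL.vr (i := 5) (i' := 4) (j := 5) (by decide)).trans (hL.out 5 5 (by decide))
  have q0_0 : L 0 0 = m := (hL.hr (i := 0) (j := 0) (j' := (-1)) (by decide)).symm.trans (hL.low 0 (-1) (by decide))
  have q1_5 : L 1 5 = 1 := (hL.hr (i := 1) (j := 6) (j' := 5) (by decide)).trans (hL.up 1 6 (by decide))
  have q1_0 : L 1 0 = m := (hL.hr (i := 1) (j := 0) (j' := (-1)) (by decide)).symm.trans (hL.low 1 (-1) (by decide))
  have q2_5 : L 2 5 = 1 := (hL.hr (i := 2) (j := 6) (j' := 5) (by decide)).trans (hL.up 2 6 (by decide))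
  have q2_0 : L 2 0 = m := (hL.hr (i := 2) (j := 0) (j' := (-1)) (by decide)).symm.trans (hL.low 2 (-1) (by decide))
  have q3_5 : L 3 5 = 1 := (hL.hr (i := 3) (j := 6) (j' := 5) (by decide)).trans (hL.up 3 6 (by decide))
  have q2_2 : L 2 2 = c := (hL.hr (i := 2) (j := 2) (j' := 1) (by decide)).symm.trans q2_1
  have q2_4 : L 2 4 = d := (hL.vr (i := 2) (i' := 1) (j := 4) (by decide)).symm.trans q1_4
  have q3_0 : L 3 0 = 1 := (hL.vr (i := 4) (i' := 3) (j := 0) (by decide)).trans q4_0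
  have q0_1 : L 0 1 = m := (hL.hr (i := 0) (j := 1) (j' := 0) (by decide)).symm.trans q0_0
  have q1_1 : L 1 1 = m := (hL.hr (i := 1) (j := 1) (j' := 0) (by decide)).symm.trans q1_0
  have q3_2 : L 3 2 = c := (hL.vr (i := 3) (i' := 2) (j := 2) (by decide)).symm.trans q2_2
  have q3_4 : L 3 4 = d := (hL.vr (i := 3) (i' := 2) (j := 4) (by decide)).symm.trans q2_4
  have q2_3 : L 2 3 = d := (hL.hr (i := 2) (j := 4) (j' := 3) (by decide)).trans q2_4
  have q0_2 : L 0 2 = m := (hL.hr (i := 0) (j := 2) (j' := 1) (by decide)).symm.trans q0_1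
  have q1_2 : L 1 2 = m := (hL.hr (i := 1) (j := 2) (j' := 1) (by decide)).symm.trans q1_1
  have q4_4 : L 4 4 = d := (hL.vr (i := 4) (i' := 3) (j := 4) (by decide)).symm.trans q3_4
  have q3_3 : L 3 3 = d := (hL.hr (i := 3) (j := 4) (j' := 3) (by decide)).trans q3_4
  have q0_3 : L 0 3 = m := (hL.hr (i := 0) (j := 3) (j' := 2) (by decide)).symm.trans q0_2
  have q4_3 : L 4 3 = d := (hL.hr (i := 4) (j := 4) (j' := 3) (by decide)).trans q4_4
  have q4_2 : L 4 2 = d := (hL.hr (i := 4) (j := 3) (j' := 2) (by decide)).trans q4_3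
  rw [hd]
  -- the crossings
  have x14 := hL.cr (i := 1) (i' := 0) (j := 4) (j' := 3) (by decide)
  rw [q0_3, q1_3, q0_4, q1_4, inv_one, one_mul] at x14
  have x23 := hL.cr (i := 2) (i' := 1) (j := 3) (j' := 2) (by decide)
  rw [q1_2, q2_2, q1_3, q2_3] at x23
  have x31 := hL.cr (i := 3) (i' := 2) (j := 1) (j' := 0) (by decide)
  rw [q2_0, q3_0, q2_1, q3_1, mul_one] at x31
  have x42 := hL.cr (i := 4) (i' := 3) (j := 2) (j' := 1) (by decide)
  rw [q3_1, q4_1, q3_2, q4_2, mul_one] at x42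
  have ea : a = m * d := by rw [← x14]; group
  have ec : c = m * d⁻¹ * m⁻¹ * d := by
    have : c = m * (a⁻¹ * d) := by rw [← x23]; group
    rw [this, ea]; group
  have eb : b = m * d⁻¹ * m⁻¹ * d * m⁻¹ := by
    have : b = c * m⁻¹ := by rw [x31]; group
    rw [this, ec]
  refine ⟨?_, ?_⟩
  · rw [eb, ec] at x42
    unfold R2
    have h1 := congrArg (fun x => x⁻¹) x42
    simp only [inv_inv] at h1
    calc m * d⁻¹ * m⁻¹ * d = d * ((m * d⁻¹ * m⁻¹ * d)⁻¹ * d)⁻¹ := by group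
      _ = d * (m * d⁻¹ * m⁻¹ * d * m⁻¹) := by rw [← h1]
      _ = _ := by group
  · intro i j h1 h2
    rcases lt_or_ge j 0 with hj | hj
    · rw [tN, if_pos hj, hL.low i j hj]; rfl
    · by_cases ho : i < 0 ∨ 5 < i ∨ 5 < j
      · rw [tN, if_neg (not_lt.2 hj), if_pos ho]
        rcases ho with ho | ho | ho
        · rw [hL.outI i j h1 h2 (Or.inl ho) hj]; rfl
        · rw [hL.outI i j h1 h2 (Or.inr (by show (6 : ℤ) - 1 ≤ i; omega)) hj]; rfl
        · rw [hL.up i j (by omega)]; rfl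
      · push Not at ho
        obtain ⟨ho1, ho2, ho3⟩ := ho
        subst ea eb ec
        interval_cases i <;> interval_cases j <;>
          first | assumption | exact hL.out _ _ (by decide)

theorem locT {G : Type} [Group G] {m : G} {L : ℤ → ℤ → G} (hL : LocL gT m L) :
    R3 m (L 1 2) ∧ ∀ i j, -8 ≤ i → i ≤ 12 → L i j = valT m (L 1 2) (tN TT i j) := by
  obtain ⟨a, ha⟩ : ∃ a, L 1 2 = a := ⟨_, rfl⟩
  obtain ⟨b, hb⟩ : ∃ b, L 1 1 = b := ⟨_, rfl⟩
  obtain ⟨c, hc⟩ : ∃ c, L 3 1 = c := ⟨_, rfl⟩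
  have q1_2 : L 1 2 = a := ha
  have q1_1 : L 1 1 = b := hb
  have q3_1 : L 3 1 = c := hc
  have q3_0 : L 3 0 = 1 := (hL.vr (i := 4) (i' := 3) (j := 0) (by decide)).trans (hL.out 4 0 (by decide))
  have q0_2 : L 0 2 = 1 := (hL.vr (i := 0) (i' := (-1)) (j := 2) (by decide)).symm.trans (hL.out (-1) 2 (by decide))
  have q0_3 : L 0 3 = 1 := (hL.vr (i := 0) (i' := (-1)) (j := 3) (by decide)).symm.trans (hL.out (-1) 3 (by decide))
  have q0_4 : L 0 4 = 1 := (hL.vr (i := 0) (i' := (-1)) (j := 4) (by decide)).symm.trans (hL.out (-1) 4 (by decide))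
  have q3_4 : L 3 4 = 1 := (hL.vr (i := 4) (i' := 3) (j := 4) (by decide)).trans (hL.out 4 4 (by decide))
  have q0_5 : L 0 5 = 1 := (hL.vr (i := 0) (i' := (-1)) (j := 5) (by decide)).symm.trans (hL.out (-1) 5 (by decide))
  have q3_5 : L 3 5 = 1 := (hL.vr (i := 4) (i' := 3) (j := 5) (by decide)).trans (hL.out 4 5 (by decide))
  have q0_0 : L 0 0 = m := (hL.hr (i := 0) (j := 0) (j' := (-1)) (by decide)).symm.trans (hL.low 0 (-1) (by decide))
  have q1_5 : L 1 5 = 1 := (hL.hr (i := 1) (j := 6) (j' := 5) (by decide)).trans (hL.up 1 6 (by decide))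
  have q1_0 : L 1 0 = m := (hL.hr (i := 1) (j := 0) (j' := (-1)) (by decide)).symm.trans (hL.low 1 (-1) (by decide))
  have q2_5 : L 2 5 = 1 := (hL.hr (i := 2) (j := 6) (j' := 5) (by decide)).trans (hL.up 2 6 (by decide))
  have q2_0 : L 2 0 = m := (hL.hr (i := 2) (j := 0) (j' := (-1)) (by decide)).symm.trans (hL.low 2 (-1) (by decide))
  have q2_1 : L 2 1 = b := (hL.vr (i := 2) (i' := 1) (j := 1) (by decide)).symm.trans q1_1
  have q3_2 : L 3 2 = c := (hL.hr (i := 3) (j := 2) (j' := 1) (by decide)).symm.trans q3_1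
  have q1_3 : L 1 3 = 1 := (hL.vr (i := 1) (i' := 0) (j := 3) (by decide)).symm.trans q0_3
  have q1_4 : L 1 4 = 1 := (hL.vr (i := 1) (i' := 0) (j := 4) (by decide)).symm.trans q0_4
  have q2_4 : L 2 4 = 1 := (hL.vr (i := 3) (i' := 2) (j := 4) (by decide)).trans q3_4
  have q0_1 : L 0 1 = m := (hL.hr (i := 0) (j := 1) (j' := 0) (by decide)).symm.trans q0_0
  have q2_2 : L 2 2 = b := (hL.hr (i := 2) (j := 2) (j' := 1) (by decide)).symm.trans q2_1
  have q3_3 : L 3 3 = c := (hL.hr (i := 3) (j := 3) (j' := 2) (by decide)).symm.trans q3_2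
  have q2_3 : L 2 3 = c := (hL.vr (i := 3) (i' := 2) (j := 3) (by decide)).trans q3_3
  rw [ha]
  -- the crossings
  have x12 := hL.cr (i := 1) (i' := 0) (j := 2) (j' := 1) (by decide)
  rw [q0_1, q1_1, q0_2, q1_2, inv_one, one_mul] at x12
  have x23 := hL.cr (i := 2) (i' := 1) (j := 3) (j' := 2) (by decide)
  rw [q1_2, q2_2, q1_3, q2_3, inv_one, one_mul] at x23
  have x31 := hL.cr (i := 3) (i' := 2) (j := 1) (j' := 0) (by decide)
  rw [q2_0, q3_0, q2_1, q3_1, mul_one] at x31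
  have eb : b = m * a := by rw [← x12]; group
  have ec : c = a⁻¹ * m * a := by rw [← x23, eb]; group
  refine ⟨?_, ?_⟩
  · rw [eb, ec] at x31
    unfold R3
    have h2 : m * a * m⁻¹ = a⁻¹ * m * a := by
      calc m * a * m⁻¹ = m * a * ((m * a)⁻¹ * (a⁻¹ * m * a)) := by rw [← x31]
        _ = _ := by group
    calc a * m * a = a * (m * a * m⁻¹) * m := by group
      _ = a * (a⁻¹ * m * a) * m := by rw [h2]
      _ = m * a * m := by group
  · intro i j h1 h2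
    rcases lt_or_ge j 0 with hj | hj
    · rw [tN, if_pos hj, hL.low i j hj]; rfl
    · by_cases ho : i < 0 ∨ 5 < i ∨ 5 < j
      · rw [tN, if_neg (not_lt.2 hj), if_pos ho]
        rcases ho with ho | ho | ho
        · rw [hL.outI i j h1 h2 (Or.inl ho) hj]; rfl
        · rw [hL.outI i j h1 h2 (Or.inr (by show (5 : ℤ) - 1 ≤ i; omega)) hj]; rfl
        · rw [hL.up i j (by omega)]; rfl
      · push Not at ho
        obtain ⟨ho1, ho2, ho3⟩ := ho
        subst eb ec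
        interval_cases i <;> interval_cases j <;>
          first | assumption | exact hL.out _ _ (by decide)


theorem lamF {G : Type} [Group G] {m d : G} {L : ℤ → ℤ → G}
    (h : ∀ i j, -8 ≤ i → i ≤ 12 → L i j = valF m d (tN TF i j)) : lam gF L = L1 m d := by
  show L 0 0 * (((L 0 2)⁻¹ * L 3 2) * (((L 3 5)⁻¹ * L 1 5) * (((L 1 1)⁻¹ * L 5 1) * (((L 5 4)⁻¹ * L 2 4) * (((L 2 6)⁻¹ * L 6 6) * (((L 6 3)⁻¹ * L 4 3) * 1)))))) * (L 4 0)⁻¹ = _
  rw [h 0 0 (by norm_num) (by norm_num), h 0 2 (by norm_num) (by norm_num), h 3 2 (by norm_num) (by norm_num), h 3 5 (by norm_num) (by norm_num), h 1 5 (by norm_num) (by norm_num), h 1 1 (by norm_num) (by norm_num), h 5 1 (by norm_num) (by norm_num), h 5 4 (by norm_num) (by norm_num), h 2 4 (by norm_num) (by norm_num), h 2 6 (by norm_num) (by norm_num), h 6 6 (by norm_num) (by norm_num), h 6 3 (by norm_num) (by norm_num), h 4 3 (by norm_num) (by norm_num), h 4 0 (by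 norm_num) (by norm_num)]
  show m * ((((1 : G))⁻¹ * d) * ((((d * m * d⁻¹))⁻¹ * (1 : G)) * (((d)⁻¹ * (1 : G)) * ((((d * m * d⁻¹))⁻¹ * (m⁻¹ * d * d * m * d⁻¹)) * ((((1 : G))⁻¹ * (1 : G)) * ((((1 : G))⁻¹ * d) * 1)))))) * ((1 : G))⁻¹ = _
  unfold L1
  group

theorem lamE {G : Type} [Group G] {m d : G} {L : ℤ → ℤ → G}
    (h : ∀ i j, -8 ≤ i → i ≤ 12 → L i j = valE m d (tN TE i j)) : lam gE L = L2 m d := by
  show L 0 0 * (((L 0 4)⁻¹ * L 2 4) * (((L 2 1)⁻¹ * L 4 1) * (((L 4 3)⁻¹ * L 1 3) * (((L 1 5)⁻¹ * L 5 5) * (((L 5 2)⁻¹ * L 3 2) * 1))))) * (L 3 0)⁻¹ = _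
  rw [h 0 0 (by norm_num) (by norm_num), h 0 4 (by norm_num) (by norm_num), h 2 4 (by norm_num) (by norm_num), h 2 1 (by norm_num) (by norm_num), h 4 1 (by norm_num) (by norm_num), h 4 3 (by norm_num) (by norm_num), h 1 3 (by norm_num) (by norm_num), h 1 5 (by norm_num) (by norm_num), h 5 5 (by norm_num) (by norm_num), h 5 2 (by norm_num) (by norm_num), h 3 2 (by norm_num) (by norm_num), h 3 0 (by norm_num) (by norm_num)]
  show m * ((((1 : G))⁻¹ * d) * ((((m * d⁻¹ * m⁻¹ * d))⁻¹ * (1 : G)) * (((d)⁻¹ * (m * d)) * ((((1 : G))⁻¹ * (1 : G)) * ((((1 : G))⁻¹ * (m * d⁻¹ * m⁻¹ * d)) * 1))))) * ((1 : G))⁻¹ = _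
  unfold L2
  group

theorem lamT {G : Type} [Group G] {m a : G} {L : ℤ → ℤ → G}
    (h : ∀ i j, -8 ≤ i → i ≤ 12 → L i j = valT m a (tN TT i j)) : lam gT L = L3 m a := by
  show L 0 0 * (((L 0 2)⁻¹ * L 2 2) * (((L 2 4)⁻¹ * L 4 4) * (((L 4 1)⁻¹ * L 1 1) * (((L 1 3)⁻¹ * L 3 3) * 1)))) * (L 3 0)⁻¹ = _
  rw [h 0 0 (by norm_num) (by norm_num), h 0 2 (by norm_num) (by norm_num), h 2 2 (by norm_num) (by norm_num), h 2 4 (by norm_num) (by norm_num), h 4 4 (by norm_num) (by norm_num), h 4 1 (by norm_num) (by norm_num), h 1 1 (by norm_num) (by norm_num), h 1 3 (by norm_num) (by norm_num), h 3 3 (by norm_num) (by norm_num), h 3 0 (by norm_num) (by norm_num)]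
  show m * ((((1 : G))⁻¹ * (m * a)) * ((((1 : G))⁻¹ * (1 : G)) * ((((1 : G))⁻¹ * (m * a)) * ((((1 : G))⁻¹ * (a⁻¹ * m * a)) * 1)))) * ((1 : G))⁻¹ = _
  unfold L3
  group


section glob

variable {G : Type} [Group G] {m : G} {L : ℤ → ℤ → G}

theorem glF (hL : GoodL (VE3 g3) (HE3 g3) (Cr3 g3) m L) : LocL gF m (fun i j => L (i - 32) j) where
  v i j h1 h2 h := by
    have h3 := hL.v (i - 32) j (by
      rintro (⟨_, h'⟩ | ⟨h', _⟩ | ⟨h', _⟩)
      · rw [sub_add_cancel] at h'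
        exact h h'
      · omega
      · omega)
    rw [← h3]
    show L (i - 1 - 32) j = L (i - 32 - 1) j
    congr 1; ring
  h i j h1 h2 h := by
    exact hL.h (i - 32) j (by
      rintro (⟨_, h'⟩ | ⟨h', _⟩ | ⟨h', _⟩)
      · rw [sub_add_cancel] at h'
        exact h h'
      · omega
      · omega)
  c i j h1 h2 h := by
    have h3 := hL.c (i - 32) j (Or.inl ⟨by omega, by rw [sub_add_cancel]; exact h⟩)
    have e : i - 32 - 1 = i - 1 - 32 := by ring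
    rw [e] at h3
    exact h3
  up i j h := hL.up _ j h
  low i j h := hL.low _ j h

theorem glE (hL : GoodL (VE3 g3) (HE3 g3) (Cr3 g3) m L) : LocL gE m L where
  v i j h1 h2 h := by
    exact hL.v i j (by
      rintro (⟨h', _⟩ | ⟨_, _, h'⟩ | ⟨h', _⟩)
      · omega
      · exact h h'
      · omega)
  h i j h1 h2 h := by
    exact hL.h i j (by
      rintro (⟨h', _⟩ | ⟨_, _, h'⟩ | ⟨h', _⟩)
      · omega
      · exact h h'
      · omega)
  c i j h1 h2 h := by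
    exact hL.c i j (Or.inr (Or.inl ⟨by omega, by omega, h⟩))
  up i j h := hL.up _ j h
  low i j h := hL.low _ j h

theorem glT (hL : GoodL (VE3 g3) (HE3 g3) (Cr3 g3) m L) : LocL gT m (fun i j => L (i + 32) j) where
  v i j h1 h2 h := by
    have h3 := hL.v (i + 32) j (by
      rintro (⟨h', _⟩ | ⟨_, h', _⟩ | ⟨_, h'⟩)
      · omega
      · omega
      · rw [add_sub_cancel_right] at h'
        exact h h')
    rw [← h3]
    show L (i - 1 + 32) j = L (i + 32 - 1) j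
    congr 1; ring
  h i j h1 h2 h := by
    exact hL.h (i + 32) j (by
      rintro (⟨h', _⟩ | ⟨_, h', _⟩ | ⟨_, h'⟩)
      · omega
      · omega
      · rw [add_sub_cancel_right] at h'
        exact h h')
  c i j h1 h2 h := by
    have h3 := hL.c (i + 32) j (Or.inr (Or.inr ⟨by omega, by rw [add_sub_cancel_right]; exact h⟩))
    have e : i + 32 - 1 = i - 1 + 32 := by ring
    rw [e] at h3
    exact h3
  up i j h := hL.up _ j h
  low i j h := hL.low _ j h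

theorem glO (hL : GoodL (VE3 g3) (HE3 g3) (Cr3 g3) m L) (i j : ℤ)
    (h1 : i + 32 < 0 ∨ 7 ≤ i + 32) (h2 : i < 0 ∨ 6 ≤ i) (h3 : i - 32 < 0 ∨ 5 ≤ i - 32)
    (hj : 0 ≤ j) : L i j = 1 := by
  refine out_aux L i (fun j hj => hL.h i j ?_) (hL.up i) j hj
  rintro (⟨h', h⟩ | ⟨_, h', h⟩ | ⟨_, h⟩)
  · have h4 : gF.HE (i + 32) j := h
    have h5 := HE_in gF h4
    have h6 : (gF.n : ℤ) = 7 := rfl
    rw [h6] at h5
    omega
  · have h4 : gE.HE i j := h
    have h5 := HE_in gE h4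
    have h6 : (gE.n : ℤ) = 6 := rfl
    rw [h6] at h5
    omega
  · have h4 : gT.HE (i - 32) j := h
    have h5 := HE_in gT h4
    have h6 : (gT.n : ℤ) = 5 := rfl
    rw [h6] at h5
    omega

end glob

theorem valF_mem {G : Type} [Group G] {m d : G} {H : Subgroup G} (hm : m ∈ H) (hd : d ∈ H) (n : ℕ) :
    valF m d n ∈ H := by
  have h1 := H.inv_mem hm
  have h2 := H.inv_mem hd
  unfold valF
  split
  · exact H.one_mem
  · exact hm
  · exact H.mul_mem h1 hd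
  · exact H.mul_mem (H.mul_mem (H.mul_mem (H.mul_mem h1 hd) hd) hm) h2
  · exact H.mul_mem hd h1
  · exact hd
  · exact H.mul_mem (H.mul_mem hd hm) h2

theorem valE_mem {G : Type} [Group G] {m d : G} {H : Subgroup G} (hm : m ∈ H) (hd : d ∈ H) (n : ℕ) :
    valE m d n ∈ H := by
  have h1 := H.inv_mem hm
  have h2 := H.inv_mem hd
  unfold valE
  split
  · exact H.one_mem
  · exact hm
  · exact H.mul_mem hm hd
  · exact H.mul_mem (H.mul_mem (H.mul_mem (H.mul_mem hm h2) h1) hd) h1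
  · exact H.mul_mem (H.mul_mem (H.mul_mem hm h2) h1) hd
  · exact hd

theorem valT_mem {G : Type} [Group G] {m a : G} {H : Subgroup G} (hm : m ∈ H) (ha : a ∈ H) (n : ℕ) :
    valT m a n ∈ H := by
  have h2 := H.inv_mem ha
  unfold valT
  split
  · exact H.one_mem
  · exact hm
  · exact ha
  · exact H.mul_mem hm ha
  · exact H.mul_mem (H.mul_mem h2 hm) ha

/-
PROOF IDEA (TARGET), checked by computer.  The labels of the cells `(i, j)` of each knot, from the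
row `j = 6` or `5` or `4` at the top to the row `j = 0`, with `i = -1, 0, 1, ...`:
`4_1` (crossings (2,3), (4,2), (1,4), (3,1)):
  row 5:  1 1 1 1 1 1 1 1
  row 4:  1 1 d d d d 1 1
  row 3:  1 m a d d d 1 1
  row 2:  1 m m c c d 1 1
  row 1:  1 m m c b 1 1 1
  row 0:  1 m m m 1 1 1 1
 relations at the crossings, in this order: `m⁻¹ c = a⁻¹ d`, `b⁻¹ = c⁻¹ d`, `m⁻¹ a = d`, `m⁻¹ = c⁻¹ b`.
 So `a = m d`, `c = m d⁻¹ m⁻¹ d`, `b = c m⁻¹`, and `R2 m d`.
`3_1` (crossings (2,3), (1,2), (3,1)):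
  row 4:  1 1 1 1 1 1 1
  row 3:  1 1 1 c c 1 1
  row 2:  1 1 a b c 1 1
  row 1:  1 m b b c 1 1
  row 0:  1 m m m 1 1 1
 relations: `a⁻¹ b = c`, `m⁻¹ b = a`, `m⁻¹ = b⁻¹ c`.  So `b = m a`, `c = a⁻¹ m a`, `R3 m a`.
`5_2` (crossings (3,4), (1,2), (5,3), (2,5), (4,1)):
  row 6:  1 1 1 1 1 1 1 1 1
  row 5:  1 1 1 e e e e 1 1
  row 4:  1 1 a b e e e 1 1
  row 3:  1 1 a a d d e 1 1
  row 2:  1 1 a a d c 1 1 1
  row 1:  1 m d d d c 1 1 1
  row 0:  1 m m m m 1 1 1 1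
 relations: `a⁻¹ d = b⁻¹ e`, `m⁻¹ d = a`, `c⁻¹ = d⁻¹ e`, `a⁻¹ b = e`, `m⁻¹ = d⁻¹ c`.
 So `a = m⁻¹ d`, `c = d m⁻¹`, `e = d m d⁻¹`, `b = m⁻¹ d d m d⁻¹`, `R1 m d`.
All the other cells (left and right of these, and between the knots) have label `1` for `j ≥ 0` and
`m` for `j < 0`.
FORWARD: the equalities along uncovered edges (`v`, `h` of `GoodL`) give the labels of all cells in
terms of a few; e.g. use `decide` for the predicates `VE`, `HE` of the grid knots restricted to the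
relevant finite range (make them decidable), or a small verified checker of paths of cells.
BACKWARD: define `L` by the tables (with shifts by -32, 0, 32) and check `v`, `h`, `c`.
See `lab_good` in H414_LK/Label.lean for the trefoil done by hand (`split_ifs`, `omega`).
The last three equalities are word computations: `lam` of `5_2` is `m d e⁻¹ d⁻¹ e⁻¹ b d`, of `4_1` is
`m d c⁻¹ d⁻¹ a c`, of `3_1` is `m b b c` (products of labels at the corners; check with `simp [lam]`).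
-/
theorem tab {G : Type} [Group G] {m : G} {L : ℤ → ℤ → G}
    (hL : GoodL (VE3 g3) (HE3 g3) (Cr3 g3) m L) :
    R1 m (L (-31) 1) ∧ R2 m (L 1 4) ∧ R3 m (L 33 2) ∧
      (∀ i j, L i j ∈ Subgroup.closure {m, L (-31) 1, L 1 4, L 33 2}) ∧
      lam gF (fun i j => L (i - 32) j) = L1 m (L (-31) 1) ∧
      lam gE L = L2 m (L 1 4) ∧
      lam gT (fun i j => L (i + 32) j) = L3 m (L 33 2) := by
  have hF := locF (glF hL)
  have hE := locE (glE hL)
  have hT := locT (glT hL)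
  have e1 : (1 - 32 : ℤ) = -31 := by norm_num
  have e2 : (1 + 32 : ℤ) = 33 := by norm_num
  rw [e1] at hF
  rw [e2] at hT
  have hm : m ∈ Subgroup.closure {m, L (-31) 1, L 1 4, L 33 2} :=
    Subgroup.subset_closure (by simp)
  have hd1 : L (-31) 1 ∈ Subgroup.closure {m, L (-31) 1, L 1 4, L 33 2} :=
    Subgroup.subset_closure (by simp)
  have hd2 : L 1 4 ∈ Subgroup.closure {m, L (-31) 1, L 1 4, L 33 2} :=
    Subgroup.subset_closure (by simp)
  have ha3 : L 33 2 ∈ Subgroup.closure {m, L (-31) 1, L 1 4, L 33 2} :=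
    Subgroup.subset_closure (by simp)
  refine ⟨hF.1, hE.1, hT.1, ?_, lamF hF.2, lamE hE.2, lamT hT.2⟩
  intro i j
  rcases lt_or_ge j 0 with hj | hj
  · rw [hL.low i j hj]; exact hm
  by_cases c1 : -40 ≤ i ∧ i ≤ -20
  · have h := hF.2 (i + 32) j (by omega) (by omega)
    rw [add_sub_cancel_right] at h
    rw [h]
    exact valF_mem hm hd1 _
  by_cases c2 : -8 ≤ i ∧ i ≤ 12
  · rw [hE.2 i j c2.1 c2.2]
    exact valE_mem hm hd2 _
  by_cases c3 : 24 ≤ i ∧ i ≤ 44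
  · have h := hT.2 (i - 32) j (by omega) (by omega)
    rw [sub_add_cancel] at h
    rw [h]
    exact valT_mem hm ha3 _
  rw [glO hL i j (by omega) (by omega) (by omega) hj]
  exact Subgroup.one_mem _



/-! ### The labelling given by the tables -/

theorem tN_low (T : List (List ℕ)) {i j : ℤ} (h : j < 0) : tN T i j = 1 := if_pos h

theorem tN_out (T : List (List ℕ)) {i j : ℤ} (h : 0 ≤ j) (h' : i < 0 ∨ 5 < i ∨ 5 < j) :
    tN T i j = 0 := by
  rw [tN, if_neg (not_lt.2 h), if_pos h']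

theorem fin_of {n : ℕ} {i : ℤ} (h1 : 0 ≤ i) (h2 : i < n) : ∃ x : Fin n, ((x : ℕ) : ℤ) = i :=
  ⟨⟨i.toNat, by omega⟩, by simp [h1]⟩

theorem Cr_in (g : GK) {i j : ℤ} (h : g.Cr i j) : 0 ≤ i ∧ i < g.n ∧ 0 ≤ j ∧ j < g.n := by
  obtain ⟨⟨k, hk, h1, h2, h3⟩, _⟩ := h
  exact VE_in g ⟨k, hk, h1, h2.le, h3⟩

theorem vNF (x j : ℤ) (h : ¬ (gF).VE x j) : tN TF (x - 1) j = tN TF x j := by
  rcases lt_or_ge j 0 with hj | hj
  · rw [tN_low _ hj, tN_low _ hj]
  · by_cases ho : x < 0 ∨ 6 < x ∨ 5 < j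
    · rw [tN_out _ hj (by omega), tN_out _ hj (by omega)]
    · push Not at ho
      obtain ⟨ho1, ho2, ho3⟩ := ho
      obtain ⟨x, rfl⟩ := fin_of (n := 7) ho1 (by omega)
      obtain ⟨j, rfl⟩ := fin_of (n := 6) hj (by omega)
      have key : ∀ x : Fin 7, ∀ j : Fin 6, vB gF ((x : ℕ) : ℤ) ((j : ℕ) : ℤ) = false →
          tN TF (((x : ℕ) : ℤ) - 1) ((j : ℕ) : ℤ) = tN TF ((x : ℕ) : ℤ) ((j : ℕ) : ℤ) := by
        decide
      refine key x j ?_
      rw [← vB_iff, Bool.not_eq_true] at h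
      exact h

theorem hNF (x j : ℤ) (h : ¬ (gF).HE x j) : tN TF x (j - 1) = tN TF x j := by
  rcases lt_or_ge j 0 with hj | hj
  · rw [tN_low _ hj, tN_low _ (by omega)]
  · by_cases ho : x < 0 ∨ 5 < x ∨ 6 < j
    · rcases lt_or_ge 0 j with h0 | h0
      · rw [tN_out _ hj (by omega), tN_out _ (by omega) (by omega)]
      · exfalso
        apply h
        right
        refine ⟨by omega, ?_⟩
        show x < 0 ∨ 4 ≤ x
        omega
    · push Not at ho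
      obtain ⟨ho1, ho2, ho3⟩ := ho
      obtain ⟨x, rfl⟩ := fin_of (n := 6) ho1 (by omega)
      obtain ⟨j, rfl⟩ := fin_of (n := 7) hj (by omega)
      have key : ∀ x : Fin 6, ∀ j : Fin 7, hB gF ((x : ℕ) : ℤ) ((j : ℕ) : ℤ) = false →
          tN TF ((x : ℕ) : ℤ) (((j : ℕ) : ℤ) - 1) = tN TF ((x : ℕ) : ℤ) ((j : ℕ) : ℤ) := by
        decide
      refine key x j ?_
      rw [← hB_iff, Bool.not_eq_true] at h
      exact h

theorem cNF (x j : ℤ) (h : (gF).Cr x j) : (x = 1 ∧ j = 2) ∨ (x = 2 ∧ j = 5) ∨ (x = 3 ∧ j = 4) ∨ (x = 4 ∧ j = 1) ∨ (x = 5 ∧ j = 3) := by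
  obtain ⟨h1, h2, h3, h4⟩ := Cr_in _ h
  have h5 : ((gF).n : ℤ) = 7 := rfl
  obtain ⟨x, rfl⟩ := fin_of (n := 7) h1 (by omega)
  obtain ⟨j, rfl⟩ := fin_of (n := 7) h3 (by omega)
  have key : ∀ x j : Fin 7, cB gF ((x : ℕ) : ℤ) ((j : ℕ) : ℤ) = true → ((x : ℕ) = 1 ∧ (j : ℕ) = 2) ∨ ((x : ℕ) = 2 ∧ (j : ℕ) = 5) ∨ ((x : ℕ) = 3 ∧ (j : ℕ) = 4) ∨ ((x : ℕ) = 4 ∧ (j : ℕ) = 1) ∨ ((x : ℕ) = 5 ∧ (j : ℕ) = 3) := by
    decide
  have := key x j ((cB_iff _ _ _).2 h)
  omega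

theorem vNE (x j : ℤ) (h : ¬ (gE).VE x j) : tN TE (x - 1) j = tN TE x j := by
  rcases lt_or_ge j 0 with hj | hj
  · rw [tN_low _ hj, tN_low _ hj]
  · by_cases ho : x < 0 ∨ 6 < x ∨ 5 < j
    · rw [tN_out _ hj (by omega), tN_out _ hj (by omega)]
    · push Not at ho
      obtain ⟨ho1, ho2, ho3⟩ := ho
      obtain ⟨x, rfl⟩ := fin_of (n := 7) ho1 (by omega)
      obtain ⟨j, rfl⟩ := fin_of (n := 6) hj (by omega)
      have key : ∀ x : Fin 7, ∀ j : Fin 6, vB gE ((x : ℕ) : ℤ) ((j : ℕ) : ℤ) = false →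
          tN TE (((x : ℕ) : ℤ) - 1) ((j : ℕ) : ℤ) = tN TE ((x : ℕ) : ℤ) ((j : ℕ) : ℤ) := by
        decide
      refine key x j ?_
      rw [← vB_iff, Bool.not_eq_true] at h
      exact h

theorem hNE (x j : ℤ) (h : ¬ (gE).HE x j) : tN TE x (j - 1) = tN TE x j := by
  rcases lt_or_ge j 0 with hj | hj
  · rw [tN_low _ hj, tN_low _ (by omega)]
  · by_cases ho : x < 0 ∨ 5 < x ∨ 6 < j
    · rcases lt_or_ge 0 j with h0 | h0
      · rw [tN_out _ hj (by omega), tN_out _ (by omega) (by omega)]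
      · exfalso
        apply h
        right
        refine ⟨by omega, ?_⟩
        show x < 0 ∨ 3 ≤ x
        omega
    · push Not at ho
      obtain ⟨ho1, ho2, ho3⟩ := ho
      obtain ⟨x, rfl⟩ := fin_of (n := 6) ho1 (by omega)
      obtain ⟨j, rfl⟩ := fin_of (n := 7) hj (by omega)
      have key : ∀ x : Fin 6, ∀ j : Fin 7, hB gE ((x : ℕ) : ℤ) ((j : ℕ) : ℤ) = false →
          tN TE ((x : ℕ) : ℤ) (((j : ℕ) : ℤ) - 1) = tN TE ((x : ℕ) : ℤ) ((j : ℕ) : ℤ) := by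
        decide
      refine key x j ?_
      rw [← hB_iff, Bool.not_eq_true] at h
      exact h

theorem cNE (x j : ℤ) (h : (gE).Cr x j) : (x = 1 ∧ j = 4) ∨ (x = 2 ∧ j = 3) ∨ (x = 3 ∧ j = 1) ∨ (x = 4 ∧ j = 2) := by
  obtain ⟨h1, h2, h3, h4⟩ := Cr_in _ h
  have h5 : ((gE).n : ℤ) = 6 := rfl
  obtain ⟨x, rfl⟩ := fin_of (n := 6) h1 (by omega)
  obtain ⟨j, rfl⟩ := fin_of (n := 6) h3 (by omega)
  have key : ∀ x j : Fin 6, cB gE ((x : ℕ) : ℤ) ((j : ℕ) : ℤ) = true → ((x : ℕ) = 1 ∧ (j : ℕ) = 4) ∨ ((x : ℕ) = 2 ∧ (j : ℕ) = 3) ∨ ((x : ℕ) = 3 ∧ (j : ℕ) = 1) ∨ ((x : ℕ) = 4 ∧ (j : ℕ) = 2) := by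
    decide
  have := key x j ((cB_iff _ _ _).2 h)
  omega

theorem vNT (x j : ℤ) (h : ¬ (gT).VE x j) : tN TT (x - 1) j = tN TT x j := by
  rcases lt_or_ge j 0 with hj | hj
  · rw [tN_low _ hj, tN_low _ hj]
  · by_cases ho : x < 0 ∨ 6 < x ∨ 5 < j
    · rw [tN_out _ hj (by omega), tN_out _ hj (by omega)]
    · push Not at ho
      obtain ⟨ho1, ho2, ho3⟩ := ho
      obtain ⟨x, rfl⟩ := fin_of (n := 7) ho1 (by omega)
      obtain ⟨j, rfl⟩ := fin_of (n := 6) hj (by omega)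
      have key : ∀ x : Fin 7, ∀ j : Fin 6, vB gT ((x : ℕ) : ℤ) ((j : ℕ) : ℤ) = false →
          tN TT (((x : ℕ) : ℤ) - 1) ((j : ℕ) : ℤ) = tN TT ((x : ℕ) : ℤ) ((j : ℕ) : ℤ) := by
        decide
      refine key x j ?_
      rw [← vB_iff, Bool.not_eq_true] at h
      exact h

theorem hNT (x j : ℤ) (h : ¬ (gT).HE x j) : tN TT x (j - 1) = tN TT x j := by
  rcases lt_or_ge j 0 with hj | hj
  · rw [tN_low _ hj, tN_low _ (by omega)]
  · by_cases ho : x < 0 ∨ 5 < x ∨ 6 < j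
    · rcases lt_or_ge 0 j with h0 | h0
      · rw [tN_out _ hj (by omega), tN_out _ (by omega) (by omega)]
      · exfalso
        apply h
        right
        refine ⟨by omega, ?_⟩
        show x < 0 ∨ 3 ≤ x
        omega
    · push Not at ho
      obtain ⟨ho1, ho2, ho3⟩ := ho
      obtain ⟨x, rfl⟩ := fin_of (n := 6) ho1 (by omega)
      obtain ⟨j, rfl⟩ := fin_of (n := 7) hj (by omega)
      have key : ∀ x : Fin 6, ∀ j : Fin 7, hB gT ((x : ℕ) : ℤ) ((j : ℕ) : ℤ) = false →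
          tN TT ((x : ℕ) : ℤ) (((j : ℕ) : ℤ) - 1) = tN TT ((x : ℕ) : ℤ) ((j : ℕ) : ℤ) := by
        decide
      refine key x j ?_
      rw [← hB_iff, Bool.not_eq_true] at h
      exact h

theorem cNT (x j : ℤ) (h : (gT).Cr x j) : (x = 1 ∧ j = 2) ∨ (x = 2 ∧ j = 3) ∨ (x = 3 ∧ j = 1) := by
  obtain ⟨h1, h2, h3, h4⟩ := Cr_in _ h
  have h5 : ((gT).n : ℤ) = 5 := rfl
  obtain ⟨x, rfl⟩ := fin_of (n := 5) h1 (by omega)
  obtain ⟨j, rfl⟩ := fin_of (n := 5) h3 (by omega)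
  have key : ∀ x j : Fin 5, cB gT ((x : ℕ) : ℤ) ((j : ℕ) : ℤ) = true → ((x : ℕ) = 1 ∧ (j : ℕ) = 2) ∨ ((x : ℕ) = 2 ∧ (j : ℕ) = 3) ∨ ((x : ℕ) = 3 ∧ (j : ℕ) = 1) := by
    decide
  have := key x j ((cB_iff _ _ _).2 h)
  omega


section back

variable {G : Type} [Group G] {m d a : G}

theorem crF (h : R1 m d) (x j : ℤ) (hx : gF.Cr x j) :
    (valF m d (tN TF (x - 1) (j - 1)))⁻¹ * valF m d (tN TF x (j - 1)) =
      (valF m d (tN TF (x - 1) j))⁻¹ * valF m d (tN TF x j) := by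
  unfold R1 at h
  rcases cNF x j hx with ⟨rfl, rfl⟩ | ⟨rfl, rfl⟩ | ⟨rfl, rfl⟩ | ⟨rfl, rfl⟩ | ⟨rfl, rfl⟩
  · show m⁻¹ * d = 1⁻¹ * (m⁻¹ * d)
    group
  · show (m⁻¹ * d)⁻¹ * (m⁻¹ * d * d * m * d⁻¹) = 1⁻¹ * (d * m * d⁻¹)
    group
  · show (m⁻¹ * d)⁻¹ * d = (m⁻¹ * d * d * m * d⁻¹)⁻¹ * (d * m * d⁻¹)
    calc (m⁻¹ * d)⁻¹ * d = d⁻¹ * m * d := by group
      _ = _ := h
      _ = _ := by group
  · show m⁻¹ * 1 = d⁻¹ * (d * m⁻¹)
    group
  · show (d * m⁻¹)⁻¹ * 1 = d⁻¹ * (d * m * d⁻¹)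
    group

theorem crE (h : R2 m d) (x j : ℤ) (hx : gE.Cr x j) :
    (valE m d (tN TE (x - 1) (j - 1)))⁻¹ * valE m d (tN TE x (j - 1)) =
      (valE m d (tN TE (x - 1) j))⁻¹ * valE m d (tN TE x j) := by
  unfold R2 at h
  rcases cNE x j hx with ⟨rfl, rfl⟩ | ⟨rfl, rfl⟩ | ⟨rfl, rfl⟩ | ⟨rfl, rfl⟩
  · show m⁻¹ * (m * d) = 1⁻¹ * d
    group
  · show m⁻¹ * (m * d⁻¹ * m⁻¹ * d) = (m * d)⁻¹ * d
    group
  · show m⁻¹ * 1 = (m * d⁻¹ * m⁻¹ * d)⁻¹ * (m * d⁻¹ * m⁻¹ * d * m⁻¹)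
    group
  · show (m * d⁻¹ * m⁻¹ * d * m⁻¹)⁻¹ * 1 = (m * d⁻¹ * m⁻¹ * d)⁻¹ * d
    have h2 : m * d⁻¹ * m⁻¹ * d * m⁻¹ = d⁻¹ * (m * d⁻¹ * m⁻¹ * d) := by
      calc m * d⁻¹ * m⁻¹ * d * m⁻¹ = d⁻¹ * (d * (m * d⁻¹ * m⁻¹ * d) * m⁻¹) := by group
        _ = _ := by rw [← h]
    rw [h2]
    group

theorem crT (h : R3 m a) (x j : ℤ) (hx : gT.Cr x j) :
    (valT m a (tN TT (x - 1) (j - 1)))⁻¹ * valT m a (tN TT x (j - 1)) =
      (valT m a (tN TT (x - 1) j))⁻¹ * valT m a (tN TT x j) := by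
  unfold R3 at h
  rcases cNT x j hx with ⟨rfl, rfl⟩ | ⟨rfl, rfl⟩ | ⟨rfl, rfl⟩
  · show m⁻¹ * (m * a) = 1⁻¹ * a
    group
  · show a⁻¹ * (m * a) = 1⁻¹ * (a⁻¹ * m * a)
    group
  · show m⁻¹ * 1 = (m * a)⁻¹ * (a⁻¹ * m * a)
    calc m⁻¹ * 1 = (m * a)⁻¹ * a⁻¹ * (a * m * a) * m⁻¹ := by group
      _ = (m * a)⁻¹ * a⁻¹ * (m * a * m) * m⁻¹ := by rw [h]
      _ = _ := by group

end back

theorem tab_back {G : Type} [Group G] {m d1 d2 a3 : G} (h1 : R1 m d1) (h2 : R2 m d2)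
    (h3 : R3 m a3) : ∃ L : ℤ → ℤ → G, GoodL (VE3 g3) (HE3 g3) (Cr3 g3) m L ∧
      L (-31) 1 = d1 ∧ L 1 4 = d2 ∧ L 33 2 = a3 := by
  let L : ℤ → ℤ → G := fun i j => if i < -16 then valF m d1 (tN TF (i + 32) j) else
    if i < 16 then valE m d2 (tN TE i j) else valT m a3 (tN TT (i - 32) j)
  have LF : ∀ i j, i < -16 → L i j = valF m d1 (tN TF (i + 32) j) := fun i j h => if_pos h
  have LE : ∀ i j, -16 ≤ i → i < 16 → L i j = valE m d2 (tN TE i j) := fun i j h h' => by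
    simp only [L]
    rw [if_neg (not_lt.2 h), if_pos h']
  have LT : ∀ i j, 16 ≤ i → L i j = valT m a3 (tN TT (i - 32) j) := fun i j h => by
    simp only [L]
    rw [if_neg (by omega), if_neg (not_lt.2 h)]
  refine ⟨L, ⟨?_, ?_, ?_, ?_, ?_⟩, ?_, ?_, ?_⟩
  · intro i j h
    rcases lt_or_ge i (-16) with c1 | c1
    · rw [LF _ j (by omega), LF _ j c1, ← vNF (i + 32) j (fun h' => h (Or.inl ⟨c1, h'⟩))]
      congr 2
      ring
    rcases lt_or_ge i 16 with c2 | c2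
    · rcases eq_or_lt_of_le c1 with c3 | c3
      · rw [← c3, LF _ j (by norm_num), LE _ j le_rfl (by norm_num)]
        rcases lt_or_ge j 0 with hj | hj
        · rw [tN_low _ hj, tN_low _ hj]; rfl
        · rw [tN_out _ hj (by omega), tN_out _ hj (by omega)]; rfl
      · rw [LE _ j (by omega) (by omega), LE _ j c1 c2,
          ← vNE i j (fun h' => h (Or.inr (Or.inl ⟨c1, c2, h'⟩)))]
    · rcases eq_or_lt_of_le c2 with c3 | c3
      · rw [← c3, LE _ j (by norm_num) (by norm_num), LT _ j le_rfl]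
        rcases lt_or_ge j 0 with hj | hj
        · rw [tN_low _ hj, tN_low _ hj]; rfl
        · rw [tN_out _ hj (by omega), tN_out _ hj (by omega)]; rfl
      · rw [LT _ j (by omega), LT _ j c2, ← vNT (i - 32) j (fun h' => h (Or.inr (Or.inr ⟨c2, h'⟩)))]
        congr 2
        ring
  · intro i j h
    rcases lt_or_ge i (-16) with c1 | c1
    · rw [LF _ _ c1, LF _ _ c1, hNF (i + 32) j (fun h' => h (Or.inl ⟨c1, h'⟩))]
    rcases lt_or_ge i 16 with c2 | c2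
    · rw [LE _ _ c1 c2, LE _ _ c1 c2, hNE i j (fun h' => h (Or.inr (Or.inl ⟨c1, c2, h'⟩)))]
    · rw [LT _ _ c2, LT _ _ c2, hNT (i - 32) j (fun h' => h (Or.inr (Or.inr ⟨c2, h'⟩)))]
  · rintro i j (⟨c1, h⟩ | ⟨c1, c2, h⟩ | ⟨c1, h⟩)
    · have h' : gF.Cr (i + 32) j := h
      have h4 := Cr_in _ h'
      have h5 := crF h1 (i + 32) j h'
      have e : i + 32 - 1 = i - 1 + 32 := by ring
      rw [LF _ _ (by omega), LF _ _ c1, LF _ _ (by omega), LF _ _ c1, ← e]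
      exact h5
    · have h' : gE.Cr i j := h
      have h4 := Cr_in _ h'
      have h5 := crE h2 i j h'
      rw [LE _ _ (by omega) (by omega), LE _ _ c1 c2, LE _ _ (by omega) (by omega), LE _ _ c1 c2]
      exact h5
    · have h' : gT.Cr (i - 32) j := h
      have h4 := Cr_in _ h'
      have h5 := crT h3 (i - 32) j h'
      have e : i - 32 - 1 = i - 1 - 32 := by ring
      rw [LT _ _ (by omega), LT _ _ c1, LT _ _ (by omega), LT _ _ c1, ← e]
      exact h5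
  · intro i j hj
    rcases lt_or_ge i (-16) with c1 | c1
    · rw [LF _ _ c1, tN_out _ (by omega) (by omega)]; rfl
    rcases lt_or_ge i 16 with c2 | c2
    · rw [LE _ _ c1 c2, tN_out _ (by omega) (by omega)]; rfl
    · rw [LT _ _ c2, tN_out _ (by omega) (by omega)]; rfl
  · intro i j hj
    rcases lt_or_ge i (-16) with c1 | c1
    · rw [LF _ _ c1, tN_low _ hj]; rfl
    rcases lt_or_ge i 16 with c2 | c2
    · rw [LE _ _ c1 c2, tN_low _ hj]; rfl
    · rw [LT _ _ c2, tN_low _ hj]; rfl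
  · rw [LF _ _ (by norm_num)]; rfl
  · rw [LE _ _ (by norm_num) (by norm_num)]; rfl
  · rw [LT _ _ (by norm_num)]; rfl


end Pool.Agent.H414_LQ
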