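import Pool.Agent.H414_LQ.Base

/-!
JOB T3.  The fundamental group of the complement is generated by the loops of the cells.
-/

set_option autoImplicit false

open scoped Topology ContDiff unitInterval

noncomputable section

namespace Pool.Agent.H414_LQ

open Pool.Agent.H414_LK

/-
PROOF IDEA (TARGET).  Let `H` be the subgroup generated by the `FC i j`.  Coordinates are scaled
by 48.

(0) For every `p` which is `Top` and `Bot`, `FF p ∈ H`: there is no point of `K` over `p`; this is an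
open condition (`S.closed` and `bz`: projection of a closed set with bounded fibres), so we can
move `p` horizontally a little so that `x, y` are not integers, then to the center of the cell inside
the open cell (`int_v`, `int_h`); along a path of points which are `Top` and `Bot`, `FF` is constant.

(1) MIDDLE BOXES.  If `p` is neither `Top` nor `Bot`, then there are points of `K` above and below `p`,
by `uniq_v, uniq_h, cross` `p` is over a crossing `(m, n)`, strictly between the two points.  By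
`near_v, near_h, uniq_v, uniq_h, int_v, int_h` there are `ε < 1/2` and `z₁ < z < z₂` such that the
open box `M = {|x - m| < ε, |y - n| < ε, z₁ < z < z₂}` is disjoint from `K`, a point of `M` is `Top`
iff `x ≠ m`, and `Bot` iff `y ≠ n`.  `M` is convex.

(2) Call a path class `c` from `bb` to `p` good if one of the following holds for some `g ∈ H`:
 (top) `p` is `Top` and `c = g * tp p`;  (bot) `p` is `Bot` and `c = g * bp p`;
 (mid) there are a middle box `M ∋ p`, a point `p' ∈ M` which is `Top`, and a path `δ` in `M` from `p'`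
 to `p` with `c = g * tp p' * [δ]`.
STEP LEMMA: if `c` is good at `p` and `δ` is a path from `p` to `q` inside the set of `Top` points,
or inside the set of `Bot` points, or inside a middle box, then `c * [δ]` is good at `q`.  By cases:
 top/top, bot/bot: by `hT`.  top/bot, bot/top: `bp p = FF p * tp p`, (0).  top/mid: type (mid) with
 `p' = p`.  bot/mid: move from `p ∈ M` (where `y ≠ n`) in the `x` direction to a point `p'` with
 `x ≠ m`: the segment is `Bot`, so `bp p = bp p' * [segment] = FF p' * tp p' * [segment]`.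
 mid/top: `p', p ∈ M` are both `Top`.  If they are on the same side of `x = m`, the segment is `Top`.
 If not, go `p' → p'₁ → p₁ → p` where `p'₁, p₁` have the `x`-coordinates of `p', p` and the same
 `y`-coordinate `≠ n`: the first and the last segment are `Top`, the middle one is `Bot`, and
 `p'₁, p₁` are both `Top` and `Bot`; use (0).  mid/bot: similar.
 mid/mid: both boxes are around the same crossing (`ε < 1/2`), and `p` is in both; replace `p'` by
 a `Top` point in the intersection of the boxes close to `p`, using mid/top.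

(3) The sets of `Top` points, of `Bot` points and the middle boxes are open and cover the complement.
For a loop `γ` at `bb`, subdivide `[0, 1]` (`exists_monotone_Icc_subset_open_cover_unitInterval`,
`Path.subpath` in Mathlib.Topology.Subpath) so that each piece lies in one of these sets; by
induction the class of `γ` is good at `bb`.  As `tp bb`, `bp bb` are trivial and `bb` lies in no
middle box (`by6`), the class of `γ` is in `H`.
-/

/-! ### auxiliary lemmas for `FC_gen` -/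

namespace FCgen

open Path.Homotopic (Quotient)

section grpd

variable {X : Type} [TopologicalSpace X] {b : X}

theorem symm_trans' {x y z : X} (P : Path.Homotopic.Quotient x y)
    (Q : Path.Homotopic.Quotient y z) : (P.trans Q).symm = Q.symm.trans P.symm := by
  induction P using Path.Homotopic.Quotient.ind with | mk P =>
  induction Q using Path.Homotopic.Quotient.ind with | mk Q =>
  change Path.Homotopic.Quotient.mk (P.trans Q).symm =
    Path.Homotopic.Quotient.mk (Q.symm.trans P.symm)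
  rw [Path.trans_symm]

theorem symm_symm' {x y : X} (P : Path.Homotopic.Quotient x y) : P.symm.symm = P := by
  induction P using Path.Homotopic.Quotient.ind with | mk P =>
  change Path.Homotopic.Quotient.mk P.symm.symm = _
  rw [Path.symm_symm]

/-- two path classes with the same end differ by an element of `H` -/
def R (H : Subgroup (PG X b)) {p : X} (c d : Path.Homotopic.Quotient b p) : Prop :=
  PG.of (c.trans d.symm) ∈ H

variable {H : Subgroup (PG X b)} {p q : X} {c d e : Path.Homotopic.Quotient b p}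

theorem R.refl (c : Path.Homotopic.Quotient b p) : R H c c := by
  unfold R
  rw [Path.Homotopic.Quotient.trans_symm]
  exact H.one_mem

theorem R.symm (h : R H c d) : R H d c := by
  unfold R at *
  have := H.inv_mem h
  rw [PG.inv_def] at this
  have e : (c.trans d.symm).symm = d.trans c.symm := by rw [symm_trans', symm_symm']
  change (c.trans d.symm).symm ∈ H at this
  rw [e] at this
  exact this

theorem R.trans (h : R H c d) (h' : R H d e) : R H c e := by
  unfold R at *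
  have := H.mul_mem h h'
  rw [PG.mul_def] at this
  have e : (c.trans d.symm).trans (d.trans e.symm) = c.trans e.symm := by
    rw [Path.Homotopic.Quotient.trans_assoc, ← Path.Homotopic.Quotient.trans_assoc d.symm,
      Path.Homotopic.Quotient.symm_trans, Path.Homotopic.Quotient.refl_trans]
  change (c.trans d.symm).trans (d.trans _) ∈ H at this
  rw [e] at this
  exact this

theorem R.mul_iff (f : Path.Homotopic.Quotient p q) : R H (c.trans f) (d.trans f) ↔ R H c d := by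
  unfold R
  have e : (c.trans f).trans (d.trans f).symm = c.trans d.symm := by
    rw [symm_trans', Path.Homotopic.Quotient.trans_assoc, ← Path.Homotopic.Quotient.trans_assoc f,
      Path.Homotopic.Quotient.trans_symm, Path.Homotopic.Quotient.refl_trans]
  rw [e]

theorem R.mul (h : R H c d) (f : Path.Homotopic.Quotient p q) : R H (c.trans f) (d.trans f) :=
  (R.mul_iff f).2 h

theorem R.of_eq (h : c = d) : R H c d := h ▸ R.refl c

end grpd

/-- A set of path classes which is locally closed under transport. -/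
theorem patch {X : Type} [TopologicalSpace X] {a b : X}
    (C : ∀ p : X, Set (Path.Homotopic.Quotient a p)) (h0 : Path.Homotopic.Quotient.refl a ∈ C a)
    (hloc : ∀ x : X, ∃ U ∈ 𝓝 x, ∀ (p q : X) (δ : Path p q), (∀ t, δ t ∈ U) → ∀ c ∈ C p,
      c.trans (Path.Homotopic.Quotient.mk δ) ∈ C q) (γ : Path a b) :
    Path.Homotopic.Quotient.mk γ ∈ C b := by
  obtain ⟨f, rfl, rfl⟩ := γ
  let γ : Path (f 0) (f 1) := ⟨f, rfl, rfl⟩
  let P : ∀ t : I, Path.Homotopic.Quotient (f 0) (f t) := fun t =>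
    Path.Homotopic.Quotient.mk (γ.subpath 0 t)
  have hP : ∀ s t : I, P t = (P s).trans (Path.Homotopic.Quotient.mk (γ.subpath s t)) := by
    intro s t
    exact (Path.Homotopic.Quotient.eq.2 ⟨Path.Homotopy.subpathTransSubpath γ 0 s t⟩).symm
  set S : Set I := {t | P t ∈ C (f t)} with hS
  have key : ∀ t₀ : I, ∀ᶠ t in 𝓝 t₀, (t ∈ S ↔ t₀ ∈ S) := by
    intro t₀
    obtain ⟨U, hU, hUt⟩ := hloc (f t₀)
    have h1 : f ⁻¹' U ∈ 𝓝 t₀ := f.continuous.continuousAt.preimage_mem_nhds hU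
    obtain ⟨ε, hε, hb⟩ := Metric.mem_nhds_iff.1 h1
    filter_upwards [Metric.ball_mem_nhds t₀ hε] with t ht
    have hsub : ∀ s ∈ Set.uIcc t₀ t, f s ∈ U := by
      intro s hs
      apply hb
      rw [Metric.mem_ball, Subtype.dist_eq, Real.dist_eq] at ht ⊢
      have h2 : (s : ℝ) ∈ Set.uIcc (t₀ : ℝ) t := hs
      rw [Set.mem_uIcc] at h2
      rw [abs_lt] at ht ⊢
      rcases h2 with h2 | h2 <;> constructor <;> linarith [h2.1, h2.2, ht.1, ht.2]
    have h3 : ∀ u, γ.subpath t₀ t u ∈ U := by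
      intro u
      have : γ.subpath t₀ t u ∈ Set.range (γ.subpath t₀ t) := ⟨u, rfl⟩
      rw [Path.range_subpath] at this
      obtain ⟨s, hs, hs2⟩ := this
      rw [← hs2]
      exact hsub s hs
    have h4 : ∀ u, γ.subpath t t₀ u ∈ U := by
      intro u
      have : γ.subpath t t₀ u ∈ Set.range (γ.subpath t t₀) := ⟨u, rfl⟩
      rw [Path.range_subpath] at this
      obtain ⟨s, hs, hs2⟩ := this
      rw [← hs2]
      exact hsub s (by rwa [Set.uIcc_comm])
    constructor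
    · intro h5
      change P t₀ ∈ C (f t₀)
      rw [hP t t₀]
      exact hUt _ _ _ h4 _ h5
    · intro h5
      change P t ∈ C (f t)
      rw [hP t₀ t]
      exact hUt _ _ _ h3 _ h5
  have hcl : IsClopen S := by
    constructor
    · rw [← isOpen_compl_iff, isOpen_iff_eventually]
      intro t ht
      exact (key t).mono fun s hs h => ht (hs.1 h)
    · rw [isOpen_iff_eventually]
      intro t ht
      exact (key t).mono fun s hs => hs.2 ht
  have h0S : (0 : I) ∈ S := by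
    change Path.Homotopic.Quotient.mk (γ.subpath 0 0) ∈ C (f 0)
    rw [Path.subpath_self]
    exact h0
  have huniv : S = Set.univ := hcl.eq_univ ⟨0, h0S⟩
  have h1S : (1 : I) ∈ S := by rw [huniv]; trivial
  have h2 : P 1 = Path.Homotopic.Quotient.mk γ := by
    change Path.Homotopic.Quotient.mk (γ.subpath 0 1) = _
    rw [Path.subpath_zero_one]
    rfl
  have h3 : P 1 ∈ C (f 1) := h1S
  rw [h2] at h3
  exact h3

/-! ### straight paths -/

section geo

variable {𝒦 : Set (Eu 3)}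

/-- a straight path in the complement -/
def sgp (p q : Cp 𝒦) (h : ∀ t : I, (1 - (t : ℝ)) • p.1 + (t : ℝ) • q.1 ∉ 𝒦) : Path p q where
  toFun t := ⟨(1 - (t : ℝ)) • p.1 + (t : ℝ) • q.1, h t⟩
  continuous_toFun := by
    refine Continuous.subtype_mk ?_ _
    fun_prop
  source' := Subtype.ext (by simp)
  target' := Subtype.ext (by simp)

theorem sgp_apply (p q : Cp 𝒦) (h : ∀ t : I, (1 - (t : ℝ)) • p.1 + (t : ℝ) • q.1 ∉ 𝒦) (t : I)
    (i : Fin 3) : (sgp p q h t).1 i = (1 - (t : ℝ)) * p.1 i + (t : ℝ) * q.1 i := rfl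

/-- paths in a convex set are homotopic -/
theorem conv_unique {A : Set (Eu 3)} (hA : Convex ℝ A) (hK : ∀ x ∈ A, x ∉ 𝒦) {p q : Cp 𝒦}
    (δ δ' : Path p q) (h : ∀ t, (δ t).1 ∈ A) (h' : ∀ t, (δ' t).1 ∈ A) :
    Path.Homotopic.Quotient.mk δ = Path.Homotopic.Quotient.mk δ' := by
  rw [Path.Homotopic.Quotient.eq]
  have hmem : ∀ x : I × I, (1 - (x.1 : ℝ)) • (δ x.2).1 + (x.1 : ℝ) • (δ' x.2).1 ∈ A := fun x =>
    hA (h x.2) (h' x.2) (by linarith [x.1.2.2]) x.1.2.1 (by ring)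
  refine ⟨⟨⟨⟨fun x => ⟨(1 - (x.1 : ℝ)) • (δ x.2).1 + (x.1 : ℝ) • (δ' x.2).1, hK _ (hmem x)⟩, ?_⟩,
    ?_, ?_⟩, ?_⟩⟩
  · refine Continuous.subtype_mk ?_ _
    fun_prop
  · intro t
    exact Subtype.ext (by simp)
  · intro t
    exact Subtype.ext (by simp)
  · intro t x hx
    apply Subtype.ext
    rcases hx with hx | hx
    · subst hx
      simp
      rw [← add_smul]
      simp
    · rw [Set.mem_singleton_iff] at hx
      subst hx
      simp
      rw [← add_smul]
      simp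

end geo

/-- a middle box: a box in the complement, around a vertical segment over a crossing -/
structure Bx (S : Shadow) where
  m : ℤ
  n : ℤ
  ε : ℝ
  z1 : ℝ
  z2 : ℝ
  pos : 0 < ε
  nk : ∀ x y z : ℝ, |x - m| < ε → |y - n| < ε → z1 < z → z < z2 → ¬ S.K x y z
  top : ∀ x y z w : ℝ, |x - m| < ε → |y - n| < ε → z1 < z → z < z2 → x ≠ m → z ≤ w → ¬ S.K x y w
  bot : ∀ x y z w : ℝ, |x - m| < ε → |y - n| < ε → z1 < z → z < z2 → y ≠ n → w ≤ z → ¬ S.K x y w
  top' : ∀ y z : ℝ, |y - n| < ε → z1 < z → z < z2 → ∃ w, z ≤ w ∧ S.K m y w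
  bot' : ∀ x z : ℝ, |x - m| < ε → z1 < z → z < z2 → ∃ w, w ≤ z ∧ S.K x n w

/-- the points of a middle box -/
def Bx.M {S : Shadow} (B : Bx S) : Set (Eu 3) :=
  {p | |48 * p 0 - B.m| < B.ε ∧ |48 * p 1 - B.n| < B.ε ∧ B.z1 < 48 * p 2 ∧ 48 * p 2 < B.z2}

theorem Bx.convex {S : Shadow} (B : Bx S) : Convex ℝ B.M := by
  intro p hp q hq a b ha hb hab
  obtain ⟨h1, h2, h3, h4⟩ := hp
  obtain ⟨k1, k2, k3, k4⟩ := hq
  have key : ∀ {u v l : ℝ}, u < l → v < l → a * u + b * v < l := by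
    intro u v l hu hv
    have e : l = a * l + b * l := by rw [← add_mul, hab, one_mul]
    rcases ha.eq_or_lt with ha' | ha'
    · rw [← ha'] at hab ⊢
      have : b = 1 := by linarith
      rw [this]; linarith
    · rw [e]
      have := mul_lt_mul_of_pos_left hu ha'
      have := mul_le_mul_of_nonneg_left hv.le hb
      linarith
  rw [abs_lt] at h1 h2 k1 k2
  refine ⟨?_, ?_, ?_, ?_⟩
  · rw [abs_lt]
    simp only [add_app, smul_app]
    have e1 := key h1.2 k1.2
    have e2 := key (u := -(48 * p 0 - B.m)) (v := -(48 * q 0 - B.m)) (l := B.ε) (by linarith)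
      (by linarith)
    have e3 : (B.m : ℝ) = a * B.m + b * B.m := by rw [← add_mul, hab, one_mul]
    constructor <;> nlinarith
  · rw [abs_lt]
    simp only [add_app, smul_app]
    have e1 := key h2.2 k2.2
    have e2 := key (u := -(48 * p 1 - B.n)) (v := -(48 * q 1 - B.n)) (l := B.ε) (by linarith)
      (by linarith)
    have e3 : (B.n : ℝ) = a * B.n + b * B.n := by rw [← add_mul, hab, one_mul]
    constructor <;> nlinarith
  · simp only [add_app, smul_app]
    have e1 := key (u := -(48 * p 2)) (v := -(48 * q 2)) (l := -B.z1) (by linarith)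
      (by linarith)
    nlinarith
  · simp only [add_app, smul_app]
    have e1 := key h4 k4
    nlinarith

theorem Bx.open {S : Shadow} (B : Bx S) : IsOpen B.M := by
  have c0 : Continuous fun p : Eu 3 => |48 * p 0 - (B.m : ℝ)| := by fun_prop
  have c1 : Continuous fun p : Eu 3 => |48 * p 1 - (B.n : ℝ)| := by fun_prop
  have c2 : Continuous fun p : Eu 3 => 48 * p 2 := by fun_prop
  exact (isOpen_lt c0 continuous_const).inter ((isOpen_lt c1 continuous_const).inter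
    ((isOpen_lt continuous_const c2).inter (isOpen_lt c2 continuous_const)))

theorem Bx.nin {S : Shadow} {𝒦 : Set (Eu 3)} (h : IsSh S 𝒦) (B : Bx S) : ∀ x ∈ B.M, x ∉ 𝒦 :=
  fun x hx hK => B.nk _ _ _ hx.1 hx.2.1 hx.2.2.1 hx.2.2.2 ((h x).1 hK)

theorem Bx.top_iff {S : Shadow} {𝒦 : Set (Eu 3)} (B : Bx S) {p : Cp 𝒦} (hp : p.1 ∈ B.M) :
    Top S 𝒦 p ↔ 48 * p.1 0 ≠ B.m := by
  constructor
  · intro ht h
    obtain ⟨w, hw, hK⟩ := B.top' _ _ hp.2.1 hp.2.2.1 hp.2.2.2
    exact ht w hw (by rw [h]; exact hK)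
  · intro hne w hw
    exact B.top _ _ _ _ hp.1 hp.2.1 hp.2.2.1 hp.2.2.2 hne hw

theorem Bx.bot_iff {S : Shadow} {𝒦 : Set (Eu 3)} (B : Bx S) {p : Cp 𝒦} (hp : p.1 ∈ B.M) :
    Bot S 𝒦 p ↔ 48 * p.1 1 ≠ B.n := by
  constructor
  · intro ht h
    obtain ⟨w, hw, hK⟩ := B.bot' _ _ hp.1 hp.2.2.1 hp.2.2.2
    exact ht w hw (by rw [h]; exact hK)
  · intro hne w hw
    exact B.bot _ _ _ _ hp.1 hp.2.1 hp.2.2.1 hp.2.2.2 hne hw

/-- the segment between two points of a middle box -/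
def Bx.sg {S : Shadow} {𝒦 : Set (Eu 3)} (h : IsSh S 𝒦) (B : Bx S) {p q : Cp 𝒦} (hp : p.1 ∈ B.M)
    (hq : q.1 ∈ B.M) : Path p q :=
  sgp p q fun t => B.nin h _ (B.convex hp hq (by linarith [t.2.2]) t.2.1 (by ring))

theorem Bx.sg_mem {S : Shadow} {𝒦 : Set (Eu 3)} (h : IsSh S 𝒦) (B : Bx S) {p q : Cp 𝒦}
    (hp : p.1 ∈ B.M) (hq : q.1 ∈ B.M) (t : I) : (B.sg h hp hq t).1 ∈ B.M :=
  B.convex hp hq (by linarith [t.2.2]) t.2.1 (by ring)

theorem trans_mem {𝒦 : Set (Eu 3)} {A : Set (Eu 3)} {p q r : Cp 𝒦} {δ : Path p q} {δ' : Path q r}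
    (h : ∀ t, (δ t).1 ∈ A) (h' : ∀ t, (δ' t).1 ∈ A) (t : I) : ((δ.trans δ') t).1 ∈ A := by
  rw [Path.trans_apply]
  split_ifs with ht
  · exact h _
  · exact h' _

section main

variable {S : Shadow} {𝒦 : Set (Eu 3)} {h : IsSh S 𝒦}
  {tp : ∀ p : Cp 𝒦, Top S 𝒦 p → Path.Homotopic.Quotient ⟨bb, h.bb⟩ p}
  {bp : ∀ p : Cp 𝒦, Bot S 𝒦 p → Path.Homotopic.Quotient ⟨bb, h.bb⟩ p} (hT : TB h tp bp)

/-- the subgroup generated by the loops of the cells -/
def HH (h : IsSh S 𝒦) (tp : ∀ p : Cp 𝒦, Top S 𝒦 p → Path.Homotopic.Quotient ⟨bb, h.bb⟩ p)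
    (bp : ∀ p : Cp 𝒦, Bot S 𝒦 p → Path.Homotopic.Quotient ⟨bb, h.bb⟩ p) :
    Subgroup (PG (Cp 𝒦) ⟨bb, h.bb⟩) :=
  Subgroup.closure (Set.range fun c : ℤ × ℤ => FC h tp bp c.1 c.2)

include hT in
theorem top_step {p q : Cp 𝒦} (hp : Top S 𝒦 p) (hq : Top S 𝒦 q) (δ : Path p q)
    (hδ : ∀ t, Top S 𝒦 (δ t)) :
    R (HH h tp bp) ((tp p hp).trans (Path.Homotopic.Quotient.mk δ)) (tp q hq) :=
  R.of_eq (hT.top hp hq δ hδ)

include hT in
theorem bot_step {p q : Cp 𝒦} (hp : Bot S 𝒦 p) (hq : Bot S 𝒦 q) (δ : Path p q)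
    (hδ : ∀ t, Bot S 𝒦 (δ t)) :
    R (HH h tp bp) ((bp p hp).trans (Path.Homotopic.Quotient.mk δ)) (bp q hq) :=
  R.of_eq (hT.bot hp hq δ hδ)

include hT in
/-- (0) -/
theorem bt {p : Cp 𝒦} (ht : Top S 𝒦 p) (hb : Bot S 𝒦 p) :
    R (HH h tp bp) (bp p hb) (tp p ht) := by
  have hfree : ∀ w, ¬ S.K (48 * p.1 0) (48 * p.1 1) w := by
    intro w
    rcases le_total (48 * p.1 2) w with hw | hw
    · exact ht w hw
    · exact hb w hw
  set i : ℤ := ⌊48 * p.1 0⌋ with hi
  set j : ℤ := ⌊48 * p.1 1⌋ with hj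
  have i1 : (i : ℝ) ≤ 48 * p.1 0 := Int.floor_le _
  have i2 : 48 * p.1 0 < i + 1 := Int.lt_floor_add_one _
  have j1 : (j : ℝ) ≤ 48 * p.1 1 := Int.floor_le _
  have j2 : 48 * p.1 1 < j + 1 := Int.lt_floor_add_one _
  have hcell : ∀ x y w : ℝ, (i : ℝ) < x → x < i + 1 → (j : ℝ) < y → y < j + 1 → ¬ S.K x y w := by
    intro x y w x1 x2 y1 y2 hK
    rcases lt_or_ge 0 w with hw | hw
    · obtain ⟨m, hm⟩ := S.int_v hK hw
      rw [hm] at x1 x2
      have e1 : i < m := by exact_mod_cast x1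
      have e2 : m < i + 1 := by exact_mod_cast x2
      omega
    · obtain ⟨m, hm⟩ := S.int_h hK hw
      rw [hm] at y1 y2
      have e1 : j < m := by exact_mod_cast y1
      have e2 : m < j + 1 := by exact_mod_cast y2
      omega
  have hseg : ∀ (t : I) (w : ℝ), ¬ S.K (48 * ((1 - (t : ℝ)) * p.1 0 + (t : ℝ) * cpt i j 0))
      (48 * ((1 - (t : ℝ)) * p.1 1 + (t : ℝ) * cpt i j 1)) w := by
    intro t w
    have t0 := t.2.1
    have t1 := t.2.2
    simp only [cpt, v3_0, v3_1]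
    rcases t0.eq_or_lt with h0 | h0
    · rw [← h0]
      simpa using hfree w
    · have e1 : 48 * ((1 - (t : ℝ)) * p.1 0 + (t : ℝ) * ((i + 1 / 2) / 48)) =
          (1 - (t : ℝ)) * (48 * p.1 0) + (t : ℝ) * (i + 1 / 2) := by ring
      have e2 : 48 * ((1 - (t : ℝ)) * p.1 1 + (t : ℝ) * ((j + 1 / 2) / 48)) =
          (1 - (t : ℝ)) * (48 * p.1 1) + (t : ℝ) * (j + 1 / 2) := by ring
      rw [e1, e2]
      have s0 : 0 ≤ 1 - (t : ℝ) := by linarith
      apply hcell
      · nlinarith [mul_le_mul_of_nonneg_left i1 s0]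
      · nlinarith [mul_le_mul_of_nonneg_left i2.le s0]
      · nlinarith [mul_le_mul_of_nonneg_left j1 s0]
      · nlinarith [mul_le_mul_of_nonneg_left j2.le s0]
  have hnin : ∀ t : I, (1 - (t : ℝ)) • p.1 + (t : ℝ) • (cptc h i j).1 ∉ 𝒦 := by
    intro t hK
    exact hseg t _ ((h _).1 hK)
  let δ := sgp p (cptc h i j) hnin
  have dt : ∀ t, Top S 𝒦 (δ t) := fun t w _ => hseg t w
  have db : ∀ t, Bot S 𝒦 (δ t) := fun t w _ => hseg t w
  have ct : Top S 𝒦 (cptc h i j) := fun w _ => cpt_free S i j w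
  have cb : Bot S 𝒦 (cptc h i j) := fun w _ => cpt_free S i j w
  rw [← R.mul_iff (Path.Homotopic.Quotient.mk δ), hT.bot hb cb δ db, hT.top ht ct δ dt]
  exact Subgroup.subset_closure ⟨(i, j), rfl⟩

/-- a point of space, in scaled coordinates -/
def pt (x y z : ℝ) : Eu 3 := v3 (x / 48) (y / 48) (z / 48)

theorem pt_mem (B : Bx S) {x y z : ℝ} (h1 : |x - B.m| < B.ε) (h2 : |y - B.n| < B.ε)
    (h3 : B.z1 < z) (h4 : z < B.z2) : pt x y z ∈ B.M := by
  refine ⟨?_, ?_, ?_, ?_⟩ <;> simp only [pt, v3_0, v3_1, v3_2] <;>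
    rw [mul_div_cancel₀ _ (by norm_num : (48 : ℝ) ≠ 0)] <;> assumption

theorem pt_0 (x y z : ℝ) : 48 * pt x y z 0 = x := by
  simp only [pt, v3_0]; ring

theorem pt_1 (x y z : ℝ) : 48 * pt x y z 1 = y := by
  simp only [pt, v3_1]; ring

include hT in
/-- transport inside a middle box, between points with nothing above -/
theorem box_tt (B : Bx S) {p q : Cp 𝒦} (hp : p.1 ∈ B.M) (hq : q.1 ∈ B.M) (tP : Top S 𝒦 p)
    (tQ : Top S 𝒦 q) (δ : Path p q) (hδ : ∀ t, (δ t).1 ∈ B.M) :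
    R (HH h tp bp) ((tp p tP).trans (Path.Homotopic.Quotient.mk δ)) (tp q tQ) := by
  have hε := B.pos
  have hp0 := (B.top_iff hp).1 tP
  have hq0 := (B.top_iff hq).1 tQ
  set y : ℝ := B.n + B.ε / 2 with hy
  have hyn : |y - B.n| < B.ε := by
    rw [hy, add_sub_cancel_left, abs_of_pos (by linarith)]; linarith
  have hyne : y ≠ B.n := by rw [hy]; intro h0; linarith
  have m1 : pt (48 * p.1 0) y (48 * p.1 2) ∈ B.M := pt_mem B hp.1 hyn hp.2.2.1 hp.2.2.2
  have m2 : pt (48 * q.1 0) y (48 * q.1 2) ∈ B.M := pt_mem B hq.1 hyn hq.2.2.1 hq.2.2.2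
  let p1 : Cp 𝒦 := ⟨_, B.nin h _ m1⟩
  let p2 : Cp 𝒦 := ⟨_, B.nin h _ m2⟩
  have m1' : p1.1 ∈ B.M := m1
  have m2' : p2.1 ∈ B.M := m2
  have t1 : Top S 𝒦 p1 := (B.top_iff m1').2 (by
    change 48 * pt _ _ _ 0 ≠ _
    rw [pt_0]; exact hp0)
  have b1 : Bot S 𝒦 p1 := (B.bot_iff m1').2 (by
    change 48 * pt _ _ _ 1 ≠ _
    rw [pt_1]; exact hyne)
  have t2 : Top S 𝒦 p2 := (B.top_iff m2').2 (by
    change 48 * pt _ _ _ 0 ≠ _
    rw [pt_0]; exact hq0)
  have b2 : Bot S 𝒦 p2 := (B.bot_iff m2').2 (by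
    change 48 * pt _ _ _ 1 ≠ _
    rw [pt_1]; exact hyne)
  have s1 : ∀ t, Top S 𝒦 (B.sg h hp m1' t) := by
    intro t
    rw [B.top_iff (B.sg_mem h hp m1' t)]
    have e : 48 * (B.sg h hp m1' t).1 0 = 48 * p.1 0 := by
      change 48 * ((1 - (t : ℝ)) * p.1 0 + (t : ℝ) * (pt (48 * p.1 0) y (48 * p.1 2) 0)) = _
      have := pt_0 (48 * p.1 0) y (48 * p.1 2)
      linear_combination (t : ℝ) * this
    rw [e]; exact hp0
  have s2 : ∀ t, Bot S 𝒦 (B.sg h m1' m2' t) := by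
    intro t
    rw [B.bot_iff (B.sg_mem h m1' m2' t)]
    have e : 48 * (B.sg h m1' m2' t).1 1 = y := by
      change 48 * ((1 - (t : ℝ)) * (pt (48 * p.1 0) y (48 * p.1 2) 1) +
        (t : ℝ) * (pt (48 * q.1 0) y (48 * q.1 2) 1)) = _
      have e1 := pt_1 (48 * p.1 0) y (48 * p.1 2)
      have e2 := pt_1 (48 * q.1 0) y (48 * q.1 2)
      linear_combination (1 - (t : ℝ)) * e1 + (t : ℝ) * e2
    rw [e]; exact hyne
  have s3 : ∀ t, Top S 𝒦 (B.sg h m2' hq t) := by
    intro t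
    rw [B.top_iff (B.sg_mem h m2' hq t)]
    have e : 48 * (B.sg h m2' hq t).1 0 = 48 * q.1 0 := by
      change 48 * ((1 - (t : ℝ)) * (pt (48 * q.1 0) y (48 * q.1 2) 0) + (t : ℝ) * q.1 0) = _
      have := pt_0 (48 * q.1 0) y (48 * q.1 2)
      linear_combination (1 - (t : ℝ)) * this
    rw [e]; exact hq0
  have hu : Path.Homotopic.Quotient.mk δ = Path.Homotopic.Quotient.mk
      ((B.sg h hp m1').trans ((B.sg h m1' m2').trans (B.sg h m2' hq))) :=
    conv_unique B.convex (B.nin h) _ _ hδ (trans_mem (B.sg_mem h hp m1')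
      (trans_mem (B.sg_mem h m1' m2') (B.sg_mem h m2' hq)))
  rw [hu, Path.Homotopic.Quotient.mk_trans, Path.Homotopic.Quotient.mk_trans,
    ← Path.Homotopic.Quotient.trans_assoc, ← Path.Homotopic.Quotient.trans_assoc,
    hT.top tP t1 _ s1]
  refine R.trans ((((bt hT t1 b1).symm).mul _).mul _) ?_
  rw [hT.bot b1 b2 _ s2]
  refine R.trans ((bt hT t2 b2).mul _) ?_
  exact top_step hT t2 tQ _ s3

include hT in
/-- transport inside a middle box, from a point with nothing below to a point with nothing above -/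
theorem box_bt (B : Bx S) {p q : Cp 𝒦} (hp : p.1 ∈ B.M) (hq : q.1 ∈ B.M) (bP : Bot S 𝒦 p)
    (tQ : Top S 𝒦 q) (δ : Path p q) (hδ : ∀ t, (δ t).1 ∈ B.M) :
    R (HH h tp bp) ((bp p bP).trans (Path.Homotopic.Quotient.mk δ)) (tp q tQ) := by
  have hε := B.pos
  have hp0 := (B.bot_iff hp).1 bP
  set x : ℝ := B.m + B.ε / 2 with hx
  have hxm : |x - B.m| < B.ε := by
    rw [hx, add_sub_cancel_left, abs_of_pos (by linarith)]; linarith
  have hxne : x ≠ B.m := by rw [hx]; intro h0; linarith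
  have m1 : pt x (48 * p.1 1) (48 * p.1 2) ∈ B.M := pt_mem B hxm hp.2.1 hp.2.2.1 hp.2.2.2
  let p1 : Cp 𝒦 := ⟨_, B.nin h _ m1⟩
  have m1' : p1.1 ∈ B.M := m1
  have t1 : Top S 𝒦 p1 := (B.top_iff m1').2 (by
    change 48 * pt _ _ _ 0 ≠ _
    rw [pt_0]; exact hxne)
  have b1 : Bot S 𝒦 p1 := (B.bot_iff m1').2 (by
    change 48 * pt _ _ _ 1 ≠ _
    rw [pt_1]; exact hp0)
  have s1 : ∀ t, Bot S 𝒦 (B.sg h hp m1' t) := by
    intro t
    rw [B.bot_iff (B.sg_mem h hp m1' t)]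
    have e : 48 * (B.sg h hp m1' t).1 1 = 48 * p.1 1 := by
      change 48 * ((1 - (t : ℝ)) * p.1 1 + (t : ℝ) * (pt x (48 * p.1 1) (48 * p.1 2) 1)) = _
      have := pt_1 x (48 * p.1 1) (48 * p.1 2)
      linear_combination (t : ℝ) * this
    rw [e]; exact hp0
  have hu : Path.Homotopic.Quotient.mk δ = Path.Homotopic.Quotient.mk
      ((B.sg h hp m1').trans (B.sg h m1' hq)) :=
    conv_unique B.convex (B.nin h) _ _ hδ (trans_mem (B.sg_mem h hp m1') (B.sg_mem h m1' hq))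
  rw [hu, Path.Homotopic.Quotient.mk_trans, ← Path.Homotopic.Quotient.trans_assoc,
    hT.bot bP b1 _ s1]
  refine R.trans ((bt hT t1 b1).mul _) ?_
  exact box_tt hT B m1' hq t1 tQ _ (B.sg_mem h m1' hq)

/-- the good path classes -/
def CC (h : IsSh S 𝒦) (tp : ∀ p : Cp 𝒦, Top S 𝒦 p → Path.Homotopic.Quotient ⟨bb, h.bb⟩ p)
    (bp : ∀ p : Cp 𝒦, Bot S 𝒦 p → Path.Homotopic.Quotient ⟨bb, h.bb⟩ p) (p : Cp 𝒦) :
    Set (Path.Homotopic.Quotient ⟨bb, h.bb⟩ p) :=
  {c | (∃ ht : Top S 𝒦 p, R (HH h tp bp) c (tp p ht)) ∨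
    (∃ hb : Bot S 𝒦 p, R (HH h tp bp) c (bp p hb)) ∨
    (∃ B : Bx S, p.1 ∈ B.M ∧ ∃ (q : Cp 𝒦) (_ : q.1 ∈ B.M) (tq : Top S 𝒦 q) (δ : Path p q),
      (∀ t, (δ t).1 ∈ B.M) ∧
      R (HH h tp bp) (c.trans (Path.Homotopic.Quotient.mk δ)) (tp q tq))}

include hT in
theorem CC_top {p : Cp 𝒦} {c : Path.Homotopic.Quotient ⟨bb, h.bb⟩ p} (hc : c ∈ CC h tp bp p)
    (ht : Top S 𝒦 p) : R (HH h tp bp) c (tp p ht) := by
  rcases hc with ⟨_, h1⟩ | ⟨hb, h1⟩ | ⟨B, hp, q, hq, tq, δ, hδ, h1⟩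
  · exact h1
  · exact h1.trans (bt hT ht hb)
  · exact (R.mul_iff (Path.Homotopic.Quotient.mk δ)).1
      (h1.trans (box_tt hT B hp hq ht tq δ hδ).symm)

include hT in
theorem CC_bot {p : Cp 𝒦} {c : Path.Homotopic.Quotient ⟨bb, h.bb⟩ p} (hc : c ∈ CC h tp bp p)
    (hb : Bot S 𝒦 p) : R (HH h tp bp) c (bp p hb) := by
  rcases hc with ⟨ht, h1⟩ | ⟨_, h1⟩ | ⟨B, hp, q, hq, tq, δ, hδ, h1⟩
  · exact h1.trans (bt hT ht hb).symm
  · exact h1
  · exact (R.mul_iff (Path.Homotopic.Quotient.mk δ)).1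
      (h1.trans (box_bt hT B hp hq hb tq δ hδ).symm)

/-- a nearby point with nothing above, inside two boxes -/
theorem near_pt (h : IsSh S 𝒦) (B B' : Bx S) {p : Cp 𝒦} (hp : p.1 ∈ B.M) (hp' : p.1 ∈ B'.M) :
    ∃ r : Cp 𝒦, r.1 ∈ B.M ∧ r.1 ∈ B'.M ∧ Top S 𝒦 r := by
  by_cases h0 : 48 * p.1 0 = B.m
  · have h1 : 0 < B'.ε - |48 * p.1 0 - B'.m| := by linarith [hp'.1]
    have hε := B.pos
    set s : ℝ := min B.ε (B'.ε - |48 * p.1 0 - B'.m|) / 2 with hs
    have s0 : 0 < s := by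
      rw [hs]
      have := lt_min hε h1
      linarith
    have s1 : s < B.ε := by
      have := min_le_left B.ε (B'.ε - |48 * p.1 0 - B'.m|)
      linarith
    have s2 : s < B'.ε - |48 * p.1 0 - B'.m| := by
      have := min_le_right B.ε (B'.ε - |48 * p.1 0 - B'.m|)
      linarith
    have m1 : pt (48 * p.1 0 + s) (48 * p.1 1) (48 * p.1 2) ∈ B.M := by
      refine pt_mem B ?_ hp.2.1 hp.2.2.1 hp.2.2.2
      rw [h0, add_sub_cancel_left, abs_of_pos s0]
      exact s1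
    have m2 : pt (48 * p.1 0 + s) (48 * p.1 1) (48 * p.1 2) ∈ B'.M := by
      refine pt_mem B' ?_ hp'.2.1 hp'.2.2.1 hp'.2.2.2
      have := abs_add_le (48 * p.1 0 - B'.m) s
      rw [abs_of_pos s0] at this
      have e : 48 * p.1 0 + s - B'.m = 48 * p.1 0 - B'.m + s := by ring
      rw [e]
      linarith
    refine ⟨⟨_, B.nin h _ m1⟩, m1, m2, ?_⟩
    refine (B.top_iff (p := ⟨_, B.nin h _ m1⟩) m1).2 ?_
    change 48 * pt (48 * p.1 0 + s) (48 * p.1 1) (48 * p.1 2) 0 ≠ _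
    rw [pt_0, h0]
    intro h2
    linarith
  · exact ⟨p, hp, hp', (B.top_iff hp).2 h0⟩

include hT in
theorem CC_box {p r : Cp 𝒦} {c : Path.Homotopic.Quotient ⟨bb, h.bb⟩ p} (hc : c ∈ CC h tp bp p)
    (B : Bx S) (hp : p.1 ∈ B.M) (hr : r.1 ∈ B.M) (tr : Top S 𝒦 r) (δ : Path p r)
    (hδ : ∀ t, (δ t).1 ∈ B.M) :
    R (HH h tp bp) (c.trans (Path.Homotopic.Quotient.mk δ)) (tp r tr) := by
  rcases hc with ⟨ht, h1⟩ | ⟨hb, h1⟩ | ⟨B', hp', q, hq, tq, δ', hδ', h1⟩
  · exact (h1.mul _).trans (box_tt hT B hp hr ht tr δ hδ)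
  · exact (h1.mul _).trans (box_bt hT B hp hr hb tr δ hδ)
  · obtain ⟨s, hs, hs', ts⟩ := near_pt h B B' hp hp'
    let τ : Path s p := B.sg h hs hp
    have hτ : ∀ t, (τ t).1 ∈ B.M := B.sg_mem h hs hp
    have hτ' : ∀ t, (τ t).1 ∈ B'.M := B'.sg_mem h hs' hp'
    have h2 := box_tt hT B' hs' hq ts tq (τ.trans δ') (trans_mem hτ' hδ')
    rw [Path.Homotopic.Quotient.mk_trans, ← Path.Homotopic.Quotient.trans_assoc] at h2
    have h3 : R (HH h tp bp) c ((tp s ts).trans (Path.Homotopic.Quotient.mk τ)) :=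
      (R.mul_iff (Path.Homotopic.Quotient.mk δ')).1 (h1.trans h2.symm)
    have h4 := box_tt hT B hs hr ts tr (τ.trans δ) (trans_mem hτ hδ)
    rw [Path.Homotopic.Quotient.mk_trans, ← Path.Homotopic.Quotient.trans_assoc] at h4
    exact (h3.mul _).trans h4

/-! ### topology -/

theorem proj_closed (S : Shadow) {X : Type} [TopologicalSpace X] {u v : X → ℝ}
    (hu : Continuous u) (hv : Continuous v) {D : Set (X × ℝ)} (hD : IsClosed D) :
    IsClosed {x : X | ∃ w, (x, w) ∈ D ∧ S.K (u x) (v x) w} := by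
  have hc : IsClosed {q : X × Set.Icc (-1 : ℝ) 1 | (q.1, (q.2 : ℝ)) ∈ D ∧
      S.K (u q.1) (v q.1) q.2} := by
    refine IsClosed.inter ?_ ?_
    · exact hD.preimage (f := fun q : X × Set.Icc (-1 : ℝ) 1 => (q.1, (q.2 : ℝ))) (by fun_prop)
    · exact S.closed.preimage
        (f := fun q : X × Set.Icc (-1 : ℝ) 1 => (u q.1, v q.1, (q.2 : ℝ))) (by fun_prop)
  have := isClosedMap_fst_of_compactSpace _ hc
  convert this using 1
  ext x
  constructor
  · rintro ⟨w, h1, h2⟩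
    have := abs_le.1 (S.bz h2)
    exact ⟨(x, ⟨w, this⟩), ⟨h1, h2⟩, rfl⟩
  · rintro ⟨⟨x', w⟩, ⟨h1, h2⟩, rfl⟩
    exact ⟨w, h1, h2⟩

theorem top_open : IsOpen {p : Cp 𝒦 | Top S 𝒦 p} := by
  have := proj_closed S (X := Cp 𝒦) (u := fun p => 48 * p.1 0) (v := fun p => 48 * p.1 1)
    (by fun_prop) (by fun_prop) (D := {q : Cp 𝒦 × ℝ | 48 * q.1.1 2 ≤ q.2})
    (isClosed_le (by fun_prop) (by fun_prop))
  convert this.isOpen_compl using 1
  ext p
  simp only [Set.mem_ofPred_eq, Set.mem_compl_iff, not_exists, not_and]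
  rfl

theorem bot_open : IsOpen {p : Cp 𝒦 | Bot S 𝒦 p} := by
  have := proj_closed S (X := Cp 𝒦) (u := fun p => 48 * p.1 0) (v := fun p => 48 * p.1 1)
    (by fun_prop) (by fun_prop) (D := {q : Cp 𝒦 × ℝ | q.2 ≤ 48 * q.1.1 2})
    (isClosed_le (by fun_prop) (by fun_prop))
  convert this.isOpen_compl using 1
  ext p
  simp only [Set.mem_ofPred_eq, Set.mem_compl_iff, not_exists, not_and]
  rfl

theorem int_near {x : ℝ} {m k : ℤ} (hx : |x - m| < 1 / 2) (hk : x = k) : x = m := by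
  rw [hk, abs_lt] at hx
  have h1 : ((k - m : ℤ) : ℝ) < 1 := by push_cast; linarith [hx.2]
  have h2 : (-1 : ℝ) < ((k - m : ℤ) : ℝ) := by push_cast; linarith [hx.1]
  have h3 : k - m < 1 := by exact_mod_cast h1
  have h4 : -1 < k - m := by exact_mod_cast h2
  have : k = m := by omega
  rw [hk, this]

/-- middle boxes -/
theorem exists_box (h : IsSh S 𝒦) (p : Cp 𝒦) (ht : ¬ Top S 𝒦 p) (hb : ¬ Bot S 𝒦 p) :
    ∃ B : Bx S, p.1 ∈ B.M := by
  unfold Top at ht
  unfold Bot at hb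
  push Not at ht hb
  obtain ⟨w, hw, kw⟩ := ht
  obtain ⟨w', hw', kw'⟩ := hb
  have kp : ¬ S.K (48 * p.1 0) (48 * p.1 1) (48 * p.1 2) := fun hk => p.2 ((h _).2 hk)
  set x := 48 * p.1 0 with hx
  set y := 48 * p.1 1 with hy
  set z := 48 * p.1 2 with hz
  have hw1 : z < w := lt_of_le_of_ne hw (by rintro rfl; exact kp kw)
  have hw1' : w' < z := lt_of_le_of_ne hw' (by rintro rfl; exact kp kw')
  have wpos : 0 < w := by
    by_contra h0
    push Not at h0
    have := S.uniq_h kw kw' h0 (by linarith)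
    linarith
  have wneg : w' ≤ 0 := by
    by_contra h0
    push Not at h0
    have := S.uniq_v kw kw' wpos h0
    linarith
  obtain ⟨wneg', m, n, hm, hn, -⟩ := S.cross kw' kw wneg wpos
  set z1 := (w' + z) / 2 with hz1
  set z2 := (z + w) / 2 with hz2
  have a1 : w' < z1 := by linarith
  have a2 : z1 < z := by linarith
  have a3 : z < z2 := by linarith
  have a4 : z2 < w := by linarith
  obtain ⟨ε1, e1, f1⟩ := Metric.eventually_nhds_iff.1 (S.near_v kw wpos a4)
  obtain ⟨ε2, e2, f2⟩ := Metric.eventually_nhds_iff.1 (S.near_h kw' wneg' a1)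
  have hcl := proj_closed S (X := ℝ × ℝ) (u := Prod.fst) (v := Prod.snd)
    (by fun_prop) (by fun_prop) (D := {q : (ℝ × ℝ) × ℝ | z1 ≤ q.2 ∧ q.2 ≤ z2})
    (IsClosed.and (isClosed_le (by fun_prop) (by fun_prop))
      (isClosed_le (by fun_prop) (by fun_prop)))
  have hnot : (x, y) ∈ {x : ℝ × ℝ | ∃ w, (x, w) ∈ {q : (ℝ × ℝ) × ℝ | z1 ≤ q.2 ∧ q.2 ≤ z2} ∧
      S.K x.1 x.2 w}ᶜ := by
    rintro ⟨w2, ⟨h1, h2⟩, h3⟩
    change z1 ≤ w2 at h1
    change w2 ≤ z2 at h2
    rcases lt_or_ge 0 w2 with h4 | h4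
    · have := S.uniq_v h3 kw h4 wpos
      linarith
    · have := S.uniq_h h3 kw' h4 wneg
      linarith
  obtain ⟨ε3, e3, f3⟩ := Metric.mem_nhds_iff.1 (hcl.isOpen_compl.mem_nhds hnot)
  set ε := min (min ε1 ε2) (min ε3 (1 / 2)) with hε
  have ε0 : 0 < ε := lt_min (lt_min e1 e2) (lt_min e3 (by norm_num))
  have l1 : ε ≤ ε1 := (min_le_left _ _).trans (min_le_left _ _)
  have l2 : ε ≤ ε2 := (min_le_left _ _).trans (min_le_right _ _)
  have l3 : ε ≤ ε3 := (min_le_right _ _).trans (min_le_left _ _)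
  have l4 : ε ≤ 1 / 2 := (min_le_right _ _).trans (min_le_right _ _)
  have g1 : ∀ y' : ℝ, |y' - n| < ε → ∃ z', z2 < z' ∧ S.K m y' z' := by
    intro y' hy'
    have := f1 (y := y') (by rw [Real.dist_eq, hn]; linarith)
    rwa [hm] at this
  have g2 : ∀ x' : ℝ, |x' - m| < ε → ∃ z', z' < z1 ∧ S.K x' n z' := by
    intro x' hx'
    have := f2 (y := x') (by rw [Real.dist_eq, hm]; linarith)
    rwa [hn] at this
  have g3 : ∀ x' y' w2 : ℝ, |x' - m| < ε → |y' - n| < ε → z1 ≤ w2 → w2 ≤ z2 →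
      ¬ S.K x' y' w2 := by
    intro x' y' w2 hx' hy' h1 h2 hK
    have h3 : (x', y') ∈ Metric.ball (x, y) ε3 := by
      rw [Metric.mem_ball, Prod.dist_eq, max_lt_iff, Real.dist_eq, Real.dist_eq]
      simp only [hm, hn]
      constructor <;> linarith
    exact f3 h3 ⟨w2, ⟨h1, h2⟩, hK⟩
  refine ⟨⟨m, n, ε, z1, z2, ε0, ?_, ?_, ?_, ?_, ?_⟩, ?_, ?_, a2, a3⟩
  · intro x' y' z' h1 h2 h3 h4
    exact g3 _ _ _ h1 h2 h3.le h4.le
  · intro x' y' z' w2 h1 h2 h3 h4 h5 h6 hK
    have hni : ∀ k : ℤ, x' ≠ k := fun k hk => h5 (int_near (by linarith) hk)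
    have hw2 : w2 ≤ 0 := by
      by_contra h0
      push Not at h0
      obtain ⟨k, hk⟩ := S.int_v hK h0
      exact hni k hk
    obtain ⟨k, hk⟩ := S.int_h hK hw2
    have hy' : y' = n := int_near (by linarith) hk
    obtain ⟨z3, h7, h8⟩ := g2 x' h1
    have hz3 : z3 ≤ 0 := by
      by_contra h0
      push Not at h0
      obtain ⟨k, hk⟩ := S.int_v h8 h0
      exact hni k hk
    rw [hy'] at hK
    have := S.uniq_h hK h8 hw2 hz3
    linarith
  · intro x' y' z' w2 h1 h2 h3 h4 h5 h6 hK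
    have hni : ∀ k : ℤ, y' ≠ k := fun k hk => h5 (int_near (by linarith) hk)
    have hw2 : 0 < w2 := by
      by_contra h0
      push Not at h0
      obtain ⟨k, hk⟩ := S.int_h hK h0
      exact hni k hk
    obtain ⟨k, hk⟩ := S.int_v hK hw2
    have hx' : x' = m := int_near (by linarith) hk
    obtain ⟨z3, h7, h8⟩ := g1 y' h2
    have hz3 : 0 < z3 := by
      by_contra h0
      push Not at h0
      obtain ⟨k, hk⟩ := S.int_h h8 h0
      exact hni k hk
    rw [hx'] at hK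
    have := S.uniq_v hK h8 hw2 hz3
    linarith
  · intro y' z' h2 h3 h4
    obtain ⟨z3, h7, h8⟩ := g1 y' h2
    exact ⟨z3, by linarith, h8⟩
  · intro x' z' h1 h3 h4
    obtain ⟨z3, h7, h8⟩ := g2 x' h1
    exact ⟨z3, by linarith, h8⟩
  · change |x - m| < ε
    rw [hm, sub_self, abs_zero]; exact ε0
  · change |y - n| < ε
    rw [hn, sub_self, abs_zero]; exact ε0

include hT in
theorem CC_loc (x : Cp 𝒦) : ∃ U ∈ 𝓝 x, ∀ (p q : Cp 𝒦) (δ : Path p q), (∀ t, δ t ∈ U) →
    ∀ c ∈ CC h tp bp p, c.trans (Path.Homotopic.Quotient.mk δ) ∈ CC h tp bp q := by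
  by_cases ht : Top S 𝒦 x
  · refine ⟨_, top_open.mem_nhds ht, ?_⟩
    intro p q δ hδ c hc
    have h1 : Top S 𝒦 p := by
      have := hδ 0
      rwa [δ.source] at this
    have h2 : Top S 𝒦 q := by
      have := hδ 1
      rwa [δ.target] at this
    exact Or.inl ⟨h2, ((CC_top hT hc h1).mul _).trans (top_step hT h1 h2 δ hδ)⟩
  by_cases hb : Bot S 𝒦 x
  · refine ⟨_, bot_open.mem_nhds hb, ?_⟩
    intro p q δ hδ c hc
    have h1 : Bot S 𝒦 p := by
      have := hδ 0
      rwa [δ.source] at this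
    have h2 : Bot S 𝒦 q := by
      have := hδ 1
      rwa [δ.target] at this
    exact Or.inr (Or.inl ⟨h2, ((CC_bot hT hc h1).mul _).trans (bot_step hT h1 h2 δ hδ)⟩)
  obtain ⟨B, hB⟩ := exists_box h x ht hb
  refine ⟨Subtype.val ⁻¹' B.M, (B.open.preimage continuous_subtype_val).mem_nhds hB, ?_⟩
  intro p q δ hδ c hc
  have h1 : p.1 ∈ B.M := by
    have := hδ 0
    rwa [δ.source] at this
  have h2 : q.1 ∈ B.M := by
    have := hδ 1
    rwa [δ.target] at this
  obtain ⟨r, hr, -, tr⟩ := near_pt h B B h2 h2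
  refine Or.inr (Or.inr ⟨B, h2, r, hr, tr, B.sg h h2 hr, B.sg_mem h h2 hr, ?_⟩)
  have := CC_box hT hc B h1 hr tr (δ.trans (B.sg h h2 hr)) (trans_mem hδ (B.sg_mem h h2 hr))
  rwa [Path.Homotopic.Quotient.mk_trans, ← Path.Homotopic.Quotient.trans_assoc] at this

theorem top_bb (h : IsSh S 𝒦) : Top S 𝒦 ⟨bb, h.bb⟩ := by
  intro w _ hK
  have := S.by6 hK
  change 48 * bb 1 ≤ 6 at this
  simp only [Pool.Agent.H414_LQ.bb, v3_1] at this
  norm_num at this

include hT in
theorem tp_bb : tp ⟨bb, h.bb⟩ (top_bb h) = Path.Homotopic.Quotient.refl _ := by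
  obtain ⟨δ, h1, h2⟩ := hT.rt _ (top_bb h)
  have h3 := hT.top (top_bb h) (top_bb h) δ h1
  rw [← h2] at h3
  set P := tp ⟨bb, h.bb⟩ (top_bb h) with hP
  have h4 : P.symm.trans (P.trans P) = P.symm.trans P := by rw [h3]
  rw [← Path.Homotopic.Quotient.trans_assoc, Path.Homotopic.Quotient.symm_trans,
    Path.Homotopic.Quotient.refl_trans] at h4
  exact h4

include hT in
theorem gen : HH h tp bp = ⊤ := by
  rw [Subgroup.eq_top_iff']
  intro g
  have h0 : Path.Homotopic.Quotient.refl (⟨bb, h.bb⟩ : Cp 𝒦) ∈ CC h tp bp ⟨bb, h.bb⟩ :=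
    Or.inl ⟨top_bb h, R.of_eq (tp_bb hT).symm⟩
  change Path.Homotopic.Quotient (⟨bb, h.bb⟩ : Cp 𝒦) ⟨bb, h.bb⟩ at g
  induction g using Path.Homotopic.Quotient.ind with | mk γ =>
  have h1 := patch (CC h tp bp) h0 (CC_loc hT) γ
  have h2 := CC_top hT h1 (top_bb h)
  rw [tp_bb hT] at h2
  unfold R at h2
  have e : (Path.Homotopic.Quotient.mk γ).trans
      (Path.Homotopic.Quotient.refl (⟨bb, h.bb⟩ : Cp 𝒦)).symm = Path.Homotopic.Quotient.mk γ := by
    have e1 : (Path.Homotopic.Quotient.refl (⟨bb, h.bb⟩ : Cp 𝒦)).symm =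
        Path.Homotopic.Quotient.refl (⟨bb, h.bb⟩ : Cp 𝒦) := by
      have := Path.Homotopic.Quotient.symm_trans
        (Path.Homotopic.Quotient.refl (⟨bb, h.bb⟩ : Cp 𝒦))
      rwa [Path.Homotopic.Quotient.trans_refl] at this
    rw [e1, Path.Homotopic.Quotient.trans_refl]
  rw [e] at h2
  exact h2

end main

end FCgen

theorem FC_gen {S : Shadow} {𝒦 : Set (Eu 3)} (h : IsSh S 𝒦)
    {tp : ∀ p : Cp 𝒦, Top S 𝒦 p → Path.Homotopic.Quotient ⟨bb, h.bb⟩ p}
    {bp : ∀ p : Cp 𝒦, Bot S 𝒦 p → Path.Homotopic.Quotient ⟨bb, h.bb⟩ p} (hT : TB h tp bp) :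
    Subgroup.closure (Set.range fun c : ℤ × ℤ => FC h tp bp c.1 c.2) = ⊤ := by
  exact FCgen.gen hT

end Pool.Agent.H414_LQ
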