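import Pool.Agent.H414_LQ.Base

/-!
JOB T4.  Good labellings give homomorphisms of the fundamental group of the complement.
-/

set_option autoImplicit false

open scoped Topology ContDiff unitInterval

noncomputable section

namespace Pool.Agent.H414_LQ

open Pool.Agent.H414_LK


namespace T4

theorem above_closed (S : Shadow) : IsClosed {p : ℝ × ℝ × ℝ | ∃ w, p.2.2 ≤ w ∧ S.K p.1 p.2.1 w} := by
  have h1 : IsClosed {q : (ℝ × ℝ × ℝ) × Set.Icc (-1 : ℝ) 1 |
      q.1.2.2 ≤ q.2 ∧ S.K q.1.1 q.1.2.1 q.2} := by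
    apply IsClosed.inter
    · exact isClosed_le (f := fun q : (ℝ × ℝ × ℝ) × Set.Icc (-1 : ℝ) 1 => q.1.2.2)
        (g := fun q => (q.2 : ℝ)) (by fun_prop) (by fun_prop)
    · exact S.closed.preimage (f := fun q : (ℝ × ℝ × ℝ) × Set.Icc (-1 : ℝ) 1 =>
        (q.1.1, q.1.2.1, (q.2 : ℝ))) (by fun_prop)
  have h2 := isClosedMap_fst_of_compactSpace _ h1
  convert h2 using 1
  ext p
  constructor
  · rintro ⟨w, hw, hK⟩
    have hb := abs_le.1 (S.bz hK)
    exact ⟨(p, ⟨w, hb⟩), ⟨hw, hK⟩, rfl⟩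
  · rintro ⟨⟨p', w⟩, ⟨hw, hK⟩, rfl⟩
    exact ⟨w, hw, hK⟩

theorem below_closed (S : Shadow) : IsClosed {p : ℝ × ℝ × ℝ | ∃ w, w ≤ p.2.2 ∧ S.K p.1 p.2.1 w} := by
  have h1 : IsClosed {q : (ℝ × ℝ × ℝ) × Set.Icc (-1 : ℝ) 1 |
      (q.2 : ℝ) ≤ q.1.2.2 ∧ S.K q.1.1 q.1.2.1 q.2} := by
    apply IsClosed.inter
    · exact isClosed_le (f := fun q : (ℝ × ℝ × ℝ) × Set.Icc (-1 : ℝ) 1 => (q.2 : ℝ))
        (g := fun q => q.1.2.2) (by fun_prop) (by fun_prop)
    · exact S.closed.preimage (f := fun q : (ℝ × ℝ × ℝ) × Set.Icc (-1 : ℝ) 1 =>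
        (q.1.1, q.1.2.1, (q.2 : ℝ))) (by fun_prop)
  have h2 := isClosedMap_fst_of_compactSpace _ h1
  convert h2 using 1
  ext p
  constructor
  · rintro ⟨w, hw, hK⟩
    have hb := abs_le.1 (S.bz hK)
    exact ⟨(p, ⟨w, hb⟩), ⟨hw, hK⟩, rfl⟩
  · rintro ⟨⟨p', w⟩, ⟨hw, hK⟩, rfl⟩
    exact ⟨w, hw, hK⟩

/-- the closed unit square `(i, j)` contains the point `(x, y)` -/
def NN (x y : ℝ) (i j : ℤ) : Prop := ((i : ℝ) ≤ x ∧ x ≤ i + 1) ∧ ((j : ℝ) ≤ y ∧ y ≤ j + 1)

theorem NN_floor (x y : ℝ) : NN x y ⌊x⌋ ⌊y⌋ :=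
  ⟨⟨Int.floor_le x, (Int.lt_floor_add_one x).le⟩, ⟨Int.floor_le y, (Int.lt_floor_add_one y).le⟩⟩

/-- points close to `x` -/
def Cl (x x' : ℝ) : Prop := (⌈x⌉ : ℝ) - 1 < x' ∧ x' < ⌊x⌋ + 1

theorem eventually_Cl (x : ℝ) : ∀ᶠ x' in 𝓝 x, Cl x x' := by
  have h1 : (⌈x⌉ : ℝ) - 1 < x := by linarith [Int.ceil_lt_add_one x]
  have h2 : x < ⌊x⌋ + 1 := Int.lt_floor_add_one x
  exact (lt_mem_nhds h1).and (gt_mem_nhds h2)

theorem Cl.sub {x x' : ℝ} (h : Cl x x') {i : ℤ} (h1 : (i : ℝ) ≤ x') (h2 : x' ≤ i + 1) :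
    (i : ℝ) ≤ x ∧ x ≤ i + 1 := by
  obtain ⟨a, b⟩ := h
  constructor
  · have : (i : ℝ) < ⌊x⌋ + 1 := lt_of_le_of_lt h1 b
    have h3 : i < ⌊x⌋ + 1 := by exact_mod_cast this
    exact Int.le_floor.1 (by linarith)
  · have : (⌈x⌉ : ℝ) < i + 1 + 1 := by linarith
    have h3 : ⌈x⌉ < i + 1 + 1 := by exact_mod_cast this
    have h4 := Int.ceil_le.1 (show ⌈x⌉ ≤ i + 1 by linarith)
    push_cast at h4
    exact h4

theorem Cl.eq_of_int {m m' : ℤ} (h : Cl (m : ℝ) (m' : ℝ)) : m' = m := by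
  obtain ⟨a, b⟩ := h
  rw [Int.ceil_intCast] at a
  rw [Int.floor_intCast] at b
  have h1 : m - 1 < m' := by exact_mod_cast a
  have h2 : m' < m + 1 := by exact_mod_cast b
  omega


variable {G : Type} [Group G]

open Classical in
/-- the label of the point `(x, y, z)` in the square `(i, j)` -/
def lval (S : Shadow) (L : ℤ → ℤ → G) (x y z : ℝ) (i j : ℤ) : G :=
  if ¬ ∃ w, z < w ∧ S.K x y w then 1
  else if ¬ ∃ w, w < z ∧ S.K x y w then L i j
  else if (i : ℝ) = x then (L (i - 1) j)⁻¹ * L i j else 1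

open Classical in
/-- the labels of the point `(x, y, z)` -/
def lam (S : Shadow) (L : ℤ → ℤ → G) (x y z : ℝ) : PF (ℤ × ℤ) G where
  f ij := if NN x y ij.1 ij.2 then some (lval S L x y z ij.1 ij.2) else none
  ne := ⟨(⌊x⌋, ⌊y⌋), _, if_pos (NN_floor x y)⟩

theorem lam_le {S : Shadow} {L L' : ℤ → ℤ → G} {x y z x' y' z' : ℝ} {g : G}
    (h : ∀ i j, NN x' y' i j → NN x y i j ∧ g * lval S L' x' y' z' i j = lval S L x y z i j) :
    (g • lam S L' x' y' z').le (lam S L x y z) := by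
  rintro ⟨i, j⟩ a ha
  rw [PF.smul_f, Option.map_eq_some_iff] at ha
  obtain ⟨b, hb, hba⟩ := ha
  unfold lam at hb
  simp only at hb
  split_ifs at hb with hN
  obtain ⟨h1, h2⟩ := h i j hN
  unfold lam
  simp only
  rw [if_pos h1, ← h2, ← hba, ← Option.some.inj hb]


variable {S : Shadow} {m₀ : G} {L : ℤ → ℤ → G}

theorem alpha_x (hL : GoodL S.VE S.HE S.Cr m₀ L) {x y : ℝ} (hT : ¬ ∃ w, S.K x y w) {i i' j : ℤ} (h : NN x y i j)
    (h' : NN x y i' j) : L i j = L i' j := by
  have key : ∀ i : ℤ, NN x y (i - 1) j → NN x y i j → L (i - 1) j = L i j := by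
    intro i h1 h2
    apply hL.v
    intro hV
    apply hT
    have hx : x = i := by
      have := h1.1.2
      push_cast at this
      have := h2.1.1
      linarith
    rw [hx]
    exact S.cov_v hV h2.2.1 h2.2.2
  have h1 : i ≤ i' + 1 := by
    have : (i : ℝ) ≤ i' + 1 := h.1.1.trans h'.1.2
    exact_mod_cast this
  have h2 : i' ≤ i + 1 := by
    have : (i' : ℝ) ≤ i + 1 := h'.1.1.trans h.1.2
    exact_mod_cast this
  have h3 : i' = i - 1 ∨ i' = i ∨ i' = i + 1 := by omega
  rcases h3 with h3 | h3 | h3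
  · rw [h3]; rw [h3] at h'
    exact (key i h' h).symm
  · rw [h3]
  · rw [h3]; rw [h3] at h'
    have e : i = (i + 1) - 1 := by ring
    conv_lhs => rw [e]
    exact key (i + 1) (by rw [← e]; exact h) h'

theorem alpha_y (hL : GoodL S.VE S.HE S.Cr m₀ L) {x y : ℝ} (hT : ¬ ∃ w, S.K x y w) {i j j' : ℤ} (h : NN x y i j)
    (h' : NN x y i j') : L i j = L i j' := by
  have key : ∀ j : ℤ, NN x y i (j - 1) → NN x y i j → L i (j - 1) = L i j := by
    intro j h1 h2
    apply hL.h
    intro hV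
    apply hT
    have hy : y = j := by
      have := h1.2.2
      push_cast at this
      have := h2.2.1
      linarith
    rw [hy]
    exact S.cov_h hV h2.1.1 h2.1.2
  have h1 : j ≤ j' + 1 := by
    have : (j : ℝ) ≤ j' + 1 := h.2.1.trans h'.2.2
    exact_mod_cast this
  have h2 : j' ≤ j + 1 := by
    have : (j' : ℝ) ≤ j + 1 := h'.2.1.trans h.2.2
    exact_mod_cast this
  have h3 : j' = j - 1 ∨ j' = j ∨ j' = j + 1 := by omega
  rcases h3 with h3 | h3 | h3
  · rw [h3]; rw [h3] at h'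
    exact (key j h' h).symm
  · rw [h3]
  · rw [h3]; rw [h3] at h'
    have e : j = (j + 1) - 1 := by ring
    conv_lhs => rw [e]
    exact key (j + 1) (by rw [← e]; exact h) h'

theorem alpha (hL : GoodL S.VE S.HE S.Cr m₀ L) {x y : ℝ} (hT : ¬ ∃ w, S.K x y w) {i i' j j' : ℤ} (h : NN x y i j)
    (h' : NN x y i' j') : L i j = L i' j' :=
  (alpha_x hL hT h ⟨h'.1, h.2⟩).trans (alpha_y hL hT ⟨h'.1, h.2⟩ h')

theorem near (hL : GoodL S.VE S.HE S.Cr m₀ L) {x y z : ℝ} (hT : ¬ S.K x y z) : ∀ᶠ p in 𝓝 (x, y, z), ¬ S.K p.1 p.2.1 p.2.2 →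
    ∃ g : G, (g • lam S L p.1 p.2.1 p.2.2).le (lam S L x y z) := by
  have hx : ∀ᶠ p in 𝓝 (x, y, z), Cl x p.1 :=
    (continuous_fst.tendsto _).eventually (eventually_Cl x)
  have hy : ∀ᶠ p in 𝓝 (x, y, z), Cl y p.2.1 :=
    ((continuous_fst.comp continuous_snd).tendsto _).eventually (eventually_Cl y)
  have hN : ∀ {x' y' : ℝ}, Cl x x' → Cl y y' → ∀ {i j : ℤ}, NN x' y' i j → NN x y i j :=
    fun h1 h2 _ _ h => ⟨h1.sub h.1.1 h.1.2, h2.sub h.2.1 h.2.2⟩
  by_cases hU : ∃ w, z < w ∧ S.K x y w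
  swap
  · -- nothing above
    have h1 : ¬ ∃ w, z ≤ w ∧ S.K x y w := by
      rintro ⟨w, hw, hw2⟩
      rcases hw.lt_or_eq with h | h
      · exact hU ⟨w, h, hw2⟩
      · rw [h] at hT; exact hT hw2
    have h2 : ∀ᶠ p in 𝓝 (x, y, z), ¬ ∃ w, p.2.2 ≤ w ∧ S.K p.1 p.2.1 w :=
      (above_closed S).isOpen_compl.mem_nhds h1
    filter_upwards [hx, hy, h2] with p hpx hpy hp _
    refine ⟨1, lam_le fun i j hij => ⟨hN hpx hpy hij, ?_⟩⟩
    have h3 : ¬ ∃ w, p.2.2 < w ∧ S.K p.1 p.2.1 w := fun ⟨w, hw, hw2⟩ => hp ⟨w, hw.le, hw2⟩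
    unfold lval
    rw [if_pos h3, if_pos hU, mul_one]
  by_cases hD : ∃ w, w < z ∧ S.K x y w
  swap
  · -- nothing below
    have h1 : ¬ ∃ w, w ≤ z ∧ S.K x y w := by
      rintro ⟨w, hw, hw2⟩
      rcases hw.lt_or_eq with h | h
      · exact hD ⟨w, h, hw2⟩
      · rw [← h] at hT; exact hT hw2
    have h2 : ∀ᶠ p in 𝓝 (x, y, z), ¬ ∃ w, w ≤ p.2.2 ∧ S.K p.1 p.2.1 w :=
      (below_closed S).isOpen_compl.mem_nhds h1
    filter_upwards [hx, hy, h2] with p hpx hpy hp hpT
    have h3 : ¬ ∃ w, w < p.2.2 ∧ S.K p.1 p.2.1 w := fun ⟨w, hw, hw2⟩ => hp ⟨w, hw.le, hw2⟩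
    by_cases hU' : ∃ w, p.2.2 < w ∧ S.K p.1 p.2.1 w
    · refine ⟨1, lam_le fun i j hij => ⟨hN hpx hpy hij, ?_⟩⟩
      unfold lval
      rw [if_neg (not_not.2 hU'), if_pos h3, if_neg (not_not.2 hU), if_pos hD, one_mul]
    · have h4 : ¬ ∃ w, S.K p.1 p.2.1 w := by
        rintro ⟨w, hw⟩
        rcases lt_trichotomy w p.2.2 with h | h | h
        · exact h3 ⟨w, h, hw⟩
        · rw [h] at hw; exact hpT hw
        · exact hU' ⟨w, h, hw⟩
      refine ⟨L ⌊p.1⌋ ⌊p.2.1⌋, lam_le fun i j hij => ⟨hN hpx hpy hij, ?_⟩⟩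
      unfold lval
      rw [if_pos hU', if_neg (not_not.2 hU), if_pos hD, mul_one]
      exact alpha hL h4 (NN_floor _ _) hij
  · -- in between
    obtain ⟨w₂, hw₂, T₂⟩ := hU
    obtain ⟨w₁, hw₁, T₁⟩ := hD
    have e₁ : w₁ ≤ 0 := by
      by_contra h
      push Not at h
      have := S.uniq_v T₁ T₂ h (by linarith)
      linarith
    have e₂ : 0 < w₂ := by
      by_contra h
      push Not at h
      have := S.uniq_h T₁ T₂ e₁ h
      linarith
    obtain ⟨hneg, m, n, hxm, hyn, hCr⟩ := S.cross T₁ T₂ e₁ e₂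
    have hβ := hL.c m n hCr
    have hV := S.near_v T₂ e₂ (w := (z + w₂) / 2) (by linarith)
    have hH := S.near_h T₁ hneg (w := (z + w₁) / 2) (by linarith)
    have hV' : ∀ᶠ p in 𝓝 (x, y, z), ∃ w, (z + w₂) / 2 < w ∧ S.K x p.2.1 w :=
      ((continuous_fst.comp continuous_snd).tendsto (x, y, z)).eventually hV
    have hH' : ∀ᶠ p in 𝓝 (x, y, z), ∃ w, w < (z + w₁) / 2 ∧ S.K p.1 y w :=
      (continuous_fst.tendsto (x, y, z)).eventually hH
    have hz2 : ∀ᶠ p in 𝓝 (x, y, z), p.2.2 < (z + w₂) / 2 :=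
      ((continuous_snd.comp continuous_snd).tendsto (x, y, z)).eventually
        (gt_mem_nhds (show z < (z + w₂) / 2 by linarith))
    have hz1 : ∀ᶠ p in 𝓝 (x, y, z), (z + w₁) / 2 < p.2.2 :=
      ((continuous_snd.comp continuous_snd).tendsto (x, y, z)).eventually
        (lt_mem_nhds (show (z + w₁) / 2 < z by linarith))
    filter_upwards [hx, hy, hV', hH', hz1, hz2] with p hpx hpy hpV hpH hp1 hp2 hpT
    obtain ⟨x', y', z'⟩ := p
    simp only at hpx hpy hpV hpH hp1 hp2 hpT ⊢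
    have hval : ∀ i j, lval S L x y z i j = if (i : ℝ) = x then (L (i - 1) j)⁻¹ * L i j else 1 := by
      intro i j
      unfold lval
      rw [if_neg (not_not.2 ⟨w₂, hw₂, T₂⟩), if_neg (not_not.2 ⟨w₁, hw₁, T₁⟩)]
    -- the squares around the crossing
    have hNm : ∀ {i j : ℤ}, NN x y i j → (i = m - 1 ∨ i = m) ∧ (j = n - 1 ∨ j = n) := by
      intro i j h
      obtain ⟨⟨a, b⟩, ⟨c, d⟩⟩ := h
      rw [hxm] at a b
      rw [hyn] at c d
      have a' : i ≤ m := by exact_mod_cast a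
      have b' : m ≤ i + 1 := by exact_mod_cast b
      have c' : j ≤ n := by exact_mod_cast c
      have d' : n ≤ j + 1 := by exact_mod_cast d
      constructor <;> omega
    by_cases hU' : ∃ w, z' < w ∧ S.K x' y' w
    swap
    · -- nothing above the new point
      have hxx : x' ≠ x := by
        rintro rfl
        obtain ⟨w, hw, hTw⟩ := hpV
        exact hU' ⟨w, by linarith, hTw⟩
      have hval' : ∀ i j, lval S L x' y' z' i j = 1 := by
        intro i j
        unfold lval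
        rw [if_pos hU']
      rcases lt_or_gt_of_ne hxx with hlt | hgt
      · refine ⟨1, lam_le fun i j hij => ⟨hN hpx hpy hij, ?_⟩⟩
        rw [hval', hval, if_neg (by have := hij.1.1; intro h; linarith), mul_one]
      · refine ⟨(L (m - 1) n)⁻¹ * L m n, lam_le fun i j hij => ⟨hN hpx hpy hij, ?_⟩⟩
        obtain ⟨hi, hj⟩ := hNm (hN hpx hpy hij)
        have him : i = m := by
          rcases hi with hi | hi
          · exfalso
            have := hij.1.2
            rw [hi] at this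
            push_cast at this
            linarith
          · exact hi
        rw [hval', hval, him, if_pos hxm.symm, mul_one]
        rcases hj with hj | hj
        · rw [hj, hβ]
        · rw [hj]
    by_cases hD' : ∃ w, w < z' ∧ S.K x' y' w
    swap
    · have hyy : y' ≠ y := by
        rintro rfl
        obtain ⟨w, hw, hTw⟩ := hpH
        exact hD' ⟨w, by linarith, hTw⟩
      have hval' : ∀ i j, lval S L x' y' z' i j = L i j := by
        intro i j
        unfold lval
        rw [if_neg (not_not.2 hU'), if_pos hD']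
      obtain ⟨j₀, hj₀⟩ : ∃ j₀, ∀ i j, NN x' y' i j → j = j₀ := by
        rcases lt_or_gt_of_ne hyy with hlt | hgt
        · refine ⟨n - 1, fun i j hij => ?_⟩
          rcases (hNm (hN hpx hpy hij)).2 with hj | hj
          · exact hj
          · exfalso
            have := hij.2.1
            rw [hj] at this
            linarith
        · refine ⟨n, fun i j hij => ?_⟩
          rcases (hNm (hN hpx hpy hij)).2 with hj | hj
          · exfalso
            have := hij.2.2
            rw [hj] at this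
            push_cast at this
            linarith
          · exact hj
      refine ⟨(L (m - 1) j₀)⁻¹, lam_le fun i j hij => ⟨hN hpx hpy hij, ?_⟩⟩
      rw [hval', hval, hj₀ i j hij]
      rcases (hNm (hN hpx hpy hij)).1 with hi | hi
      · rw [hi, if_neg, inv_mul_cancel]
        rw [hxm]; push_cast; intro h; linarith
      · rw [hi, if_pos hxm.symm]
    · -- the same crossing
      have hx'm : x' = x := by
        obtain ⟨w, hw, hTw⟩ := hU'
        obtain ⟨w', hw', hTw'⟩ := hD'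
        have hw0 : 0 < w := by
          by_contra h
          push Not at h
          by_cases h2 : w' ≤ 0
          · have := S.uniq_h hTw hTw' h h2; linarith
          · linarith
        obtain ⟨m', hm'⟩ := S.int_v hTw hw0
        rw [hm', hxm] at hpx
        rw [hm', hpx.eq_of_int, hxm]
      have hy'n : y' = y := by
        obtain ⟨w, hw, hTw⟩ := hU'
        obtain ⟨w', hw', hTw'⟩ := hD'
        have hw0 : w' ≤ 0 := by
          by_contra h
          push Not at h
          have := S.uniq_v hTw hTw' (by linarith) h; linarith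
        obtain ⟨n', hn'⟩ := S.int_h hTw' hw0
        rw [hn', hyn] at hpy
        rw [hn', hpy.eq_of_int, hyn]
      refine ⟨1, lam_le fun i j hij => ⟨hN hpx hpy hij, ?_⟩⟩
      rw [hval]
      unfold lval
      rw [if_neg (not_not.2 hU'), if_neg (not_not.2 hD'), hx'm, one_mul]



theorem coord_cont (i : Fin 3) : Continuous (fun p : Eu 3 => p i) :=
  (coord_contDiff' (n := ⊤) contDiff_id i).continuous

/-- the labels -/
def phi {𝒦 : Set (Eu 3)} (S : Shadow) (L : ℤ → ℤ → G) (p : Cp 𝒦) : PF (ℤ × ℤ) G :=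
  lam S L (48 * p.1 0) (48 * p.1 1) (48 * p.1 2)

variable {𝒦 : Set (Eu 3)}

theorem phi_continuous (h : IsSh S 𝒦) (hL : GoodL S.VE S.HE S.Cr m₀ L) :
    Continuous (fun p : Cp 𝒦 => pq (phi S L p)) := by
  apply continuous_pq_comp
  intro p
  have c0 : Continuous (fun q : Cp 𝒦 => 48 * q.1 0) :=
    continuous_const.mul ((coord_cont 0).comp continuous_subtype_val)
  have c1 : Continuous (fun q : Cp 𝒦 => 48 * q.1 1) :=
    continuous_const.mul ((coord_cont 1).comp continuous_subtype_val)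
  have c2 : Continuous (fun q : Cp 𝒦 => 48 * q.1 2) :=
    continuous_const.mul ((coord_cont 2).comp continuous_subtype_val)
  have hT : ¬ S.K (48 * p.1 0) (48 * p.1 1) (48 * p.1 2) := fun hK => p.2 ((h _).2 hK)
  have h1 := near hL hT
  have hc : Continuous (fun q : Cp 𝒦 => (48 * q.1 0, 48 * q.1 1, 48 * q.1 2)) :=
    c0.prodMk (c1.prodMk c2)
  have h2 := (hc.tendsto p).eventually h1
  filter_upwards [h2] with q hq1
  exact hq1 (fun hK => q.2 ((h _).2 hK))

/-- A path with nothing above it has trivial holonomy. -/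
theorem hol_top {p p' : Cp 𝒦} (γ : Path p p') (hU : ∀ t, Top S 𝒦 (γ t)) :
    Hol (phi S L) γ 1 := by
  have hU' : ∀ t, ¬ ∃ w, 48 * (γ t).1 2 < w ∧ S.K (48 * (γ t).1 0) (48 * (γ t).1 1) w :=
    fun t ⟨w, hw, hK⟩ => hU t w hw.le hK
  have hc : Continuous (fun t => phi S L (γ t)) := by
    rw [PF.continuous_iff']
    intro t
    have c0 : Continuous (fun s : I => 48 * (γ s).1 0) :=
      continuous_const.mul ((coord_cont 0).comp (continuous_subtype_val.comp γ.continuous))
    have c1 : Continuous (fun s : I => 48 * (γ s).1 1) :=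
      continuous_const.mul ((coord_cont 1).comp (continuous_subtype_val.comp γ.continuous))
    filter_upwards [(c0.tendsto t).eventually (eventually_Cl _),
      (c1.tendsto t).eventually (eventually_Cl _)] with s h0 h1
    have := lam_le (S := S) (L := L) (L' := L) (g := (1 : G)) (x := 48 * (γ t).1 0)
      (y := 48 * (γ t).1 1) (z := 48 * (γ t).1 2) (x' := 48 * (γ s).1 0)
      (y' := 48 * (γ s).1 1) (z' := 48 * (γ s).1 2) (fun i j hij =>
        ⟨⟨h0.sub hij.1.1 hij.1.2, h1.sub hij.2.1 hij.2.2⟩, by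
          unfold lval
          rw [if_pos (hU' s), if_pos (hU' t), mul_one]⟩)
    rwa [one_smul] at this
  refine ⟨⟨⟨fun t => phi S L (γ t), hc⟩, ?_, ?_⟩, fun t => rfl⟩
  · simp
  · simp

open Classical in
/-- the labels from below -/
def lamB (L : ℤ → ℤ → G) (x y : ℝ) : PF (ℤ × ℤ) G where
  f ij := if NN x y ij.1 ij.2 then some (L ij.1 ij.2) else none
  ne := ⟨(⌊x⌋, ⌊y⌋), _, if_pos (NN_floor x y)⟩

theorem lamB_eq {L L' : ℤ → ℤ → G} {x y z : ℝ} {g : G}
    (h : ∀ i j, NN x y i j → lval S L' x y z i j = g * L i j) :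
    lam S L' x y z = g • lamB L x y := by
  apply PF.ext'
  rintro ⟨i, j⟩
  rw [PF.smul_f]
  unfold lam lamB
  simp only
  by_cases hN : NN x y i j
  · rw [if_pos hN, if_pos hN, h i j hN]; rfl
  · rw [if_neg hN, if_neg hN]; rfl

/-- A path with nothing below it, with end points in regions. -/
theorem hol_bottom (h : IsSh S 𝒦) (hL : GoodL S.VE S.HE S.Cr m₀ L) {p p' : Cp 𝒦} (γ : Path p p')
    (hDD : ∀ t, Bot S 𝒦 (γ t))
    {g g' : G} (hp : ¬ ∃ w, S.K (48 * p.1 0) (48 * p.1 1) w)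
    (hp' : ¬ ∃ w, S.K (48 * p'.1 0) (48 * p'.1 1) w)
    (hg : ∀ i j, NN (48 * p.1 0) (48 * p.1 1) i j → L i j = g)
    (hg' : ∀ i j, NN (48 * p'.1 0) (48 * p'.1 1) i j → L i j = g') :
    Hol (phi S L) γ (g⁻¹ * g') := by
  have hD : ∀ t, ¬ ∃ w, w < 48 * (γ t).1 2 ∧ S.K (48 * (γ t).1 0) (48 * (γ t).1 1) w :=
    fun t ⟨w, hw, hK⟩ => hDD t w hw.le hK
  have hc : Continuous (fun t => g⁻¹ • lamB L (48 * (γ t).1 0) (48 * (γ t).1 1)) := by
    rw [PF.continuous_iff']
    intro t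
    have c0 : Continuous (fun s : I => 48 * (γ s).1 0) :=
      continuous_const.mul ((coord_cont 0).comp (continuous_subtype_val.comp γ.continuous))
    have c1 : Continuous (fun s : I => 48 * (γ s).1 1) :=
      continuous_const.mul ((coord_cont 1).comp (continuous_subtype_val.comp γ.continuous))
    filter_upwards [(c0.tendsto t).eventually (eventually_Cl _),
      (c1.tendsto t).eventually (eventually_Cl _)] with s h0 h1
    apply PF.smul_le
    rintro ⟨i, j⟩ c hc
    unfold lamB at hc ⊢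
    simp only at hc ⊢
    split_ifs at hc with hN
    rw [if_pos ⟨h0.sub hN.1.1 hN.1.2, h1.sub hN.2.1 hN.2.2⟩]
    exact hc
  have e0 : phi S L p = g⁻¹ • lamB L (48 * p.1 0) (48 * p.1 1) := by
    unfold phi
    apply lamB_eq
    intro i j hij
    unfold lval
    rw [if_pos (fun ⟨w, _, hw⟩ => hp ⟨w, hw⟩), hg i j hij, inv_mul_cancel]
  have e1 : (g⁻¹ * g') • phi S L p' = g⁻¹ • lamB L (48 * p'.1 0) (48 * p'.1 1) := by
    rw [mul_smul]
    congr 1
    unfold phi
    have := lamB_eq (S := S) (L := L) (L' := L) (x := 48 * p'.1 0) (y := 48 * p'.1 1)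
      (z := 48 * p'.1 2) (g := g'⁻¹) (by
        intro i j hij
        unfold lval
        rw [if_pos (fun ⟨w, _, hw⟩ => hp' ⟨w, hw⟩), hg' i j hij, inv_mul_cancel])
    rw [this, smul_inv_smul]
  refine ⟨⟨⟨fun t => g⁻¹ • lamB L (48 * (γ t).1 0) (48 * (γ t).1 1), hc⟩,
    ?_, ?_⟩, ?_⟩
  · simp only [γ.source]
    exact e0.symm
  · simp only [γ.target]
    exact e1.symm
  · intro t
    show pq (g⁻¹ • lamB L (48 * (γ t).1 0) (48 * (γ t).1 1)) = pq (phi S L (γ t))
    rw [pq_smul]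
    unfold phi
    by_cases hU : ∃ w, 48 * (γ t).1 2 < w ∧ S.K (48 * (γ t).1 0) (48 * (γ t).1 1) w
    · have := lamB_eq (S := S) (L := L) (L' := L) (x := 48 * (γ t).1 0)
        (y := 48 * (γ t).1 1) (z := 48 * (γ t).1 2) (g := (1 : G)) (by
          intro i j hij
          unfold lval
          rw [if_neg (not_not.2 hU), if_pos (hD t), one_mul])
      rw [this, one_smul]
    · have hno : ¬ ∃ w, S.K (48 * (γ t).1 0) (48 * (γ t).1 1) w := by
        rintro ⟨w, hw⟩
        rcases lt_trichotomy w (48 * (γ t).1 2) with h' | h' | h'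
        · exact hD t ⟨w, h', hw⟩
        · rw [h'] at hw
          exact (γ t).2 ((h _).2 hw)
        · exact hU ⟨w, h', hw⟩
      have := lamB_eq (S := S) (L := L) (L' := L) (x := 48 * (γ t).1 0)
        (y := 48 * (γ t).1 1) (z := 48 * (γ t).1 2)
        (g := (L ⌊48 * (γ t).1 0⌋ ⌊48 * (γ t).1 1⌋)⁻¹) (by
          intro i j hij
          unfold lval
          rw [if_pos hU, alpha hL hno (NN_floor _ _) hij, inv_mul_cancel])
      rw [this, pq_smul]

/-- every loop has a holonomy -/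
theorem exists_hol (h : IsSh S 𝒦) (hL : GoodL S.VE S.HE S.Cr m₀ L) {p : Cp 𝒦} (γ : Path p p) :
    ∃ g : G, Hol (phi S L) γ g := by
  have hφ := phi_continuous h hL
  let δ : C(I, PQ (ℤ × ℤ) G) := ⟨fun t => pq (phi S L (γ t)), hφ.comp γ.continuous⟩
  have h0 : δ 0 = pq (phi S L p) := by show pq (phi S L (γ 0)) = _; rw [γ.source]
  have h1 : δ 1 = pq (phi S L p) := by show pq (phi S L (γ 1)) = _; rw [γ.target]
  have hl := (IsCoveringMap.eq_liftPath_iff' (cov := pq_cov) (γ := δ) (e := phi S L p)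
    (γ_0 := h0) (Γ := pq_cov.liftPath δ (phi S L p) h0)).1 rfl
  obtain ⟨hl1, hl2⟩ := hl
  have h2 : pq (pq_cov.liftPath δ (phi S L p) h0 1) = pq (phi S L p) :=
    (congrFun hl1 1).trans h1
  obtain ⟨g, hg⟩ := pq_eq.1 h2
  refine ⟨g, ⟨⟨pq_cov.liftPath δ (phi S L p) h0, hl2, hg.symm⟩, fun t => ?_⟩⟩
  exact congrFun hl1 t

end T4

/-
PROOF IDEA (TARGET).  This generalises what is done in the files `H414_LK/Cover.lean`,
`H414_LK/Label.lean`, and `H414_LK/Double.lean` for a particular knot: copy and adapt them.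
`Cover.lean` is imported, with the covering `pq : PF ι G → PQ ι G` and the relation `Hol`.
For `p = (x, y, z)` (scaled by 48) let `phi p : PF (ℤ × ℤ) G` be the function (partially defined) defined on the
closed cells containing `(x, y)`, with value at `(i, j)`: `1` if there is no point of `K` above `p`,
otherwise `L i j` if there is no point of `K` below `p`, otherwise (in the middle of a crossing) `1` if
`i ≠ x` and `(L (i-1) j)⁻¹ * L i j` if `i = x`.  (`lval`, `lam` in `Label.lean`.)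
(1) `p ↦ pq (phi p)` is continuous on `Cp 𝒦` (`GoodL.near` in `Label.lean`, with `K` for `T`; the
fields of `Shadow` are the facts on `T` used there; `continuous_pq_comp` in `Cover.lean`).
(2) Every loop `γ` at the base point has a holonomy: lift `pq ∘ phi ∘ γ` through the covering
`pq`, starting at `phi bb` (`IsCoveringMap.liftPath`); its end point is in the orbit of `phi bb`
(`pq_eq`).  By `Hol.unique` and `Hol.trans` this defines a homomorphism
`ρ : PG (Cp 𝒦) ⟨bb, _⟩ →* G`.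
(3) A path all of whose points are `Top` has holonomy `1` (`hol_top`); a path all of whose
points are `Bot`, starting at the base point and ending at a point `p` which is `Top` and `Bot` has
holonomy `L i j` for every closed cell `(i, j)` containing `p` (`hol_bottom`; the label of the cells
containing the base point is `1` by `GoodL.up`).  By `TB.rt`, `TB.rb` this gives
`ρ (FC i j) = L i j`.
-/
theorem exists_rho {S : Shadow} {𝒦 : Set (Eu 3)} (h : IsSh S 𝒦)
    {tp : ∀ p : Cp 𝒦, Top S 𝒦 p → Path.Homotopic.Quotient ⟨bb, h.bb⟩ p}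
    {bp : ∀ p : Cp 𝒦, Bot S 𝒦 p → Path.Homotopic.Quotient ⟨bb, h.bb⟩ p} (hT : TB h tp bp)
    {G : Type} [Group G] {m : G} {L : ℤ → ℤ → G} (hL : GoodL S.VE S.HE S.Cr m L) :
    ∃ ρ : PG (Cp 𝒦) ⟨bb, h.bb⟩ →* G, ∀ i j, ρ (FC h tp bp i j) = L i j := by
  have hφ := T4.phi_continuous h hL
  let F : PG (Cp 𝒦) ⟨bb, h.bb⟩ → G := fun x =>
    Quotient.liftOn x (fun γ => (T4.exists_hol h hL γ).choose) (fun γ γ' hγ =>
      Hol.unique hφ hγ (T4.exists_hol h hL γ).choose_spec (T4.exists_hol h hL γ').choose_spec)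
  have hF : ∀ (γ : Path (⟨bb, h.bb⟩ : Cp 𝒦) ⟨bb, h.bb⟩) (g : G), Hol (T4.phi S L) γ g →
      F (PG.mk γ) = g := by
    intro γ g hg
    exact Hol.unique hφ (Path.Homotopic.refl γ) (T4.exists_hol h hL γ).choose_spec hg
  have hmul : ∀ x y, F (x * y) = F x * F y := by
    intro x y
    induction x using Quotient.inductionOn with
    | _ γ =>
      induction y using Quotient.inductionOn with
      | _ γ' =>
        exact hF (γ.trans γ') _ (Hol.trans (T4.exists_hol h hL γ).choose_spec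
          (T4.exists_hol h hL γ').choose_spec)
  refine ⟨MonoidHom.mk' F hmul, fun i j => ?_⟩
  obtain ⟨δt, ht1, ht2⟩ := hT.rt (cptc h i j) (fun w _ => cpt_free S i j w)
  obtain ⟨δb, hb1, hb2⟩ := hT.rb (cptc h i j) (fun w _ => cpt_free S i j w)
  have e1 : FC h tp bp i j = PG.mk (δb.trans δt.symm) := by
    unfold FC FF
    rw [ht2, hb2]
    rfl
  rw [e1]
  refine hF _ _ ?_
  have hb : Hol (T4.phi S L) δb ((1 : G)⁻¹ * L i j) := by
    refine T4.hol_bottom h hL δb hb1 ?_ ?_ ?_ ?_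
    · rintro ⟨w, hw⟩
      have := S.by6 hw
      simp only [bb, v3_1] at this
      norm_num at this
    · rintro ⟨w, hw⟩
      exact cpt_free S i j w hw
    · intro i' j' hij
      refine hL.up i' j' ?_
      have h1 := hij.2.2
      simp only [bb, v3_1] at h1
      have h2 : (5 : ℝ) < j' := by linarith
      have h3 : (5 : ℤ) < j' := by exact_mod_cast h2
      omega
    · intro i' j' hij
      have h1 := hij.1
      have h2 := hij.2
      simp only [cptc, cpt, v3_0, v3_1] at h1 h2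
      obtain ⟨a1, a2⟩ := h1
      obtain ⟨b1, b2⟩ := h2
      have c1 : (i' : ℝ) < i + 1 := by linarith
      have c2 : (i : ℝ) < i' + 1 := by linarith
      have c3 : (j' : ℝ) < j + 1 := by linarith
      have c4 : (j : ℝ) < j' + 1 := by linarith
      have d1 : i' < i + 1 := by exact_mod_cast c1
      have d2 : i < i' + 1 := by exact_mod_cast c2
      have d3 : j' < j + 1 := by exact_mod_cast c3
      have d4 : j < j' + 1 := by exact_mod_cast c4
      have f1 : i' = i := by omega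
      have f2 : j' = j := by omega
      rw [f1, f2]
  have ht := (T4.hol_top (L := L) δt ht1).symm
  have := hb.trans ht
  simpa using this

end Pool.Agent.H414_LQ

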