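import Pool.Agent.H414_LQ.T2
import Pool.Agent.H414_LQ.T3
import Pool.Agent.H414_LQ.T4
import Pool.Agent.H414_LQ.G3
import Pool.Agent.H414_LQ.M10
import Pool.Agent.H414_LQ.A1

/-!
JOB A3.  The group of the composite knot: generators, relations, longitudes.
-/

set_option autoImplicit false

open scoped Topology ContDiff unitInterval

noncomputable section

namespace Pool.Agent.H414_LQ

open Pool.Agent.H414_LK

section given

/-! The following are given, proved elsewhere (jobs T2, T3, T4, G3, M10, A1). -/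

end given

/-
PROOF IDEA (TARGET).  Let `L i j = PL ((i + 1/2)/48) ((j + 1/2)/48)`; by `FC_good` it is a good labelling
with `m = PL (1/96) (-(1/96)) = mer PL`.  `cel PL th0 l i j = L (i + 32 (l - 1)) j`: e.g. for `l = 0`,
`-2/3 + 1 * ((i + 1/2)/48) = ((i - 32) + 1/2)/48`.  Apply `tab`; `FC_gen` and the fourth statement of `tab`
give the closure; `tab_back` and `exists_rho` give the last statement.
-/
theorem labels {ε : ℝ} (hg : ∀ l, TubeF (g3 l) ε) (hG : ∀ l, GFacts (g3 l)) {f : LongKnot 3}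
    (hf : ∀ t, f.toFun t = Mc g3 0 1 2 th0 (v3 t 0 0))
    {tp : ∀ p : Eu 3, ∀ h : KTop f p, Path.Homotopic.Quotient
        (⟨bb, bb_notin f⟩ : Cp (Set.range f.toFun)) ⟨p, h.nin⟩}
    {bp : ∀ p : Eu 3, ∀ h : KBot f p, Path.Homotopic.Quotient
        (⟨bb, bb_notin f⟩ : Cp (Set.range f.toFun)) ⟨p, h.nin⟩}
    {PL : ∀ _ _ : ℝ, KG f} (hK : KTB f tp bp PL) :
    R1 (mer PL) (cel PL th0 0 1 1) ∧ R2 (mer PL) (cel PL th0 1 1 4) ∧
    R3 (mer PL) (cel PL th0 2 1 2) ∧
    Subgroup.closure {mer PL, cel PL th0 0 1 1, cel PL th0 1 1 4, cel PL th0 2 1 2} = ⊤ ∧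
    lam (g3 0) (cel PL th0 0) = L1 (mer PL) (cel PL th0 0 1 1) ∧
    lam (g3 1) (cel PL th0 1) = L2 (mer PL) (cel PL th0 1 1 4) ∧
    lam (g3 2) (cel PL th0 2) = L3 (mer PL) (cel PL th0 2 1 2) ∧
    ∀ (H : Type) [Group H] (m d1 d2 a3 : H), R1 m d1 → R2 m d2 → R3 m a3 →
      ∃ ρ : KG f →* H, ρ (mer PL) = m ∧ ρ (cel PL th0 0 1 1) = d1 ∧
        ρ (cel PL th0 1 1 4) = d2 ∧ ρ (cel PL th0 2 1 2) = a3 := by
  obtain ⟨S, hSK, hSV, hSH, hSC⟩ := exists_shadow g3
  have h := isSh hg hG hSK hf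
  obtain ⟨tp', bp', hTB, hFC⟩ := TB_of_KTB h hK
  have hgood := FC_good h hTB
  rw [hSV, hSH, hSC] at hgood
  have e0 : ∀ i j : ℤ, cel PL th0 0 i j = FC h tp' bp' (i - 32) j := by
    intro i j
    rw [hFC]
    unfold cel th0
    congr 1
    · simp only [Matrix.cons_val_zero]
      push_cast
      ring
    · ring
  have e1 : ∀ i j : ℤ, cel PL th0 1 i j = FC h tp' bp' i j := by
    intro i j
    rw [hFC]
    unfold cel th0
    congr 1
    · simp only [Matrix.cons_val_one, Matrix.cons_val_zero]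
      ring
    · ring
  have e2 : ∀ i j : ℤ, cel PL th0 2 i j = FC h tp' bp' (i + 32) j := by
    intro i j
    rw [hFC]
    unfold cel th0
    congr 1
    · simp only [Matrix.cons_val]
      push_cast
      ring
    · ring
  have em : mer PL = FC h tp' bp' 0 (-1) := by
    rw [hFC]
    unfold mer
    congr 1
    · norm_num
    · norm_num
  have f0 : cel PL th0 0 = fun i j => FC h tp' bp' (i - 32) j := by
    funext i j; exact e0 i j
  have f1 : cel PL th0 1 = FC h tp' bp' := by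
    funext i j; exact e1 i j
  have f2 : cel PL th0 2 = fun i j => FC h tp' bp' (i + 32) j := by
    funext i j; exact e2 i j
  obtain ⟨t1, t2, t3, t4, t5, t6, t7⟩ := tab hgood
  have c0 : cel PL th0 0 1 1 = FC h tp' bp' (-31) 1 := e0 1 1
  have c1 : cel PL th0 1 1 4 = FC h tp' bp' 1 4 := e1 1 4
  have c2 : cel PL th0 2 1 2 = FC h tp' bp' 33 2 := e2 1 2
  rw [c0, c1, c2, em, f0, f1, f2]
  refine ⟨t1, t2, t3, ?_, t5, t6, t7, ?_⟩
  · have hgen := FC_gen h hTB
    apply top_unique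
    calc (⊤ : Subgroup (KG f))
        = Subgroup.closure (Set.range fun c : ℤ × ℤ => FC h tp' bp' c.1 c.2) := hgen.symm
      _ ≤ _ := by
        rw [Subgroup.closure_le]
        rintro _ ⟨c, rfl⟩
        exact t4 c.1 c.2
  · intro H _ m d1 d2 a3 r1 r2 r3
    obtain ⟨L, hL, l1, l2, l3⟩ := tab_back r1 r2 r3
    have hL' := hL
    rw [← hSV, ← hSH, ← hSC] at hL'
    obtain ⟨ρ, hρ⟩ := exists_rho h hTB hL'
    refine ⟨ρ, ?_, ?_, ?_, ?_⟩
    · exact (hρ 0 (-1)).trans (hL.low 0 (-1) (by norm_num))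
    · exact (hρ (-31) 1).trans l1
    · exact (hρ 1 4).trans l2
    · exact (hρ 33 2).trans l3

end Pool.Agent.H414_LQ
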