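import Pool.Agent.H414_LQ.F6b

/-!
# The framed knots with disjoint parts
-/

set_option autoImplicit false

noncomputable section

namespace Pool.Agent.H414_LQ

open Pool.Agent.H414_LK

/-- the composite map of three disjoint knots -/
theorem AM_dis {g : Fin 3 → GK} {ε : ℝ} (hg : ∀ l, TubeF (g l) ε) {θ : Par} (h : Dis θ) :
    AM (Mc g 0 1 2 θ) :=
  Mc_AM hg (by decide) (by decide) (by decide)
    (h.adm (by decide) (by decide) (by decide))

end Pool.Agent.H414_LQ
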