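import Pool.Agent.H414_LK.Knot
import Pool.Agent.H414_LK.Cover

/-!
# Definitions: grid knots, their projections, fundamental groups of complements
-/

set_option autoImplicit false

open scoped Topology ContDiff unitInterval

noncomputable section

namespace Pool.Agent.H414_LQ

open Pool.Agent.H414_LK

/-! ### Grid knots -/

/-- Combinatorial data of a long knot on a grid: the knot comes from `-∞` along the line `y = 0`
to the column `X 0`, goes up this column to the row `Y 1`, along this row to the column `X 1`,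
along this column to the row `Y 2`, ..., along the column `X (n - 1)` down to the row `Y n = 0`,
and along the line `y = 0` to `∞`.  Vertical segments lie over horizontal segments. -/
structure GK where
  n : ℕ
  X : ℕ → ℤ
  Y : ℕ → ℤ
  n3 : 3 ≤ n
  n7 : n ≤ 7
  Xr : ∀ k, k < n → 0 ≤ X k ∧ X k < n
  Xinj : ∀ k l, k < n → l < n → X k = X l → k = l
  X0 : X 0 < X (n - 1)
  Y0 : Y 0 = 0
  Yn : Y n = 0
  Yr : ∀ k, 0 < k → k < n → 0 < Y k ∧ Y k < n
  Yinj : ∀ k l, 0 < k → k < n → 0 < l → l < n → Y k = Y l → k = l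

namespace GK

variable (g : GK)

/-- first coordinate -/
def gx (t : ℝ) : ℝ := t + (g.X 0 - t) * st (t + g.n + 1) +
  (∑ k ∈ Finset.range (g.n - 1), ((g.X (k + 1) : ℝ) - g.X k) * st (t + g.n - 1 - 2 * k)) +
  (t - g.X (g.n - 1)) * st (t - (g.n - 1))

/-- second coordinate -/
def gy (t : ℝ) : ℝ :=
  ∑ k ∈ Finset.range g.n, ((g.Y (k + 1) : ℝ) - g.Y k) * st (t + g.n - 2 * k)

/-- the cutoff -/
def gc (t : ℝ) : ℝ := st (t + g.n + 1) * st (g.n - t)

/-- third coordinate -/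
def gz (t : ℝ) : ℝ := -(g.gc t * Real.sin (Real.pi * (t + g.n + 1)))

/-- the vertical edge `{i} × [j, j + 1]` is covered by the projection of the knot -/
def VE (i j : ℤ) : Prop := ∃ k, k < g.n ∧ g.X k = i ∧ min (g.Y k) (g.Y (k + 1)) ≤ j ∧
  j < max (g.Y k) (g.Y (k + 1))

/-- the horizontal edge `[i, i + 1] × {j}` is covered by the projection of the knot -/
def HE (i j : ℤ) : Prop := (∃ k, k + 1 < g.n ∧ g.Y (k + 1) = j ∧
  min (g.X k) (g.X (k + 1)) ≤ i ∧ i < max (g.X k) (g.X (k + 1))) ∨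
  (j = 0 ∧ (i < g.X 0 ∨ g.X (g.n - 1) ≤ i))

/-- there is a crossing at `(i, j)` -/
def Cr (i j : ℤ) : Prop := (∃ k, k < g.n ∧ g.X k = i ∧ min (g.Y k) (g.Y (k + 1)) < j ∧
  j < max (g.Y k) (g.Y (k + 1))) ∧ g.HE (i - 1) j ∧ g.HE i j

/-- The point `(x, y, z)` is on the grid knot. -/
def T (x y z : ℝ) : Prop := ∃ t, g.gx t = x ∧ g.gy t = y ∧ g.gz t = z

/-! ### The tube map -/

/-- The knot scaled by `1 / 48`; it is standard outside `[-1/6, 1/6]`. -/
def be (t : ℝ) : Eu 3 := v3 (g.gx (48 * t) / 48) (g.gy (48 * t) / 48) (g.gz (48 * t) / 48)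

/-- auxiliary -/
def ps (t : ℝ) : ℝ := (g.gc t + g.gz t) / 2

/-- a vector field along the knot, nowhere tangent to it -/
def ve (t : ℝ) : Eu 3 := v3 (g.ps (48 * t)) (1 - g.ps (48 * t)) 0

/-- the third vector field -/
def ue (t : ℝ) : Eu 3 := cr (deriv g.be t) (g.ve t)

/-- the tube map -/
def tu (x : Eu 3) : Eu 3 := g.be (x 0) + x 1 • g.ve (x 0) + x 2 • g.ue (x 0)

/-- the tube map centered at the point `c` of the axis, of scale `r` -/
def tub (c r : ℝ) (x : Eu 3) : Eu 3 := v3 c 0 0 + r • g.tu (r⁻¹ • (x - v3 c 0 0))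

end GK

/-! ### Closed subsets of space projecting to the grid -/

/-- A closed subset `K` of space which projects to the integer grid, with the vertical segments
(`x` an integer) in `z > 0` and the horizontal ones (`y` an integer) in `z ≤ 0`. -/
structure Shadow where
  K : ℝ → ℝ → ℝ → Prop
  VE : ℤ → ℤ → Prop
  HE : ℤ → ℤ → Prop
  Cr : ℤ → ℤ → Prop
  closed : IsClosed {p : ℝ × ℝ × ℝ | K p.1 p.2.1 p.2.2}
  bz : ∀ {x y z}, K x y z → |z| ≤ 1
  by0 : ∀ {x y z}, K x y z → 0 ≤ y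
  by6 : ∀ {x y z}, K x y z → y ≤ 6
  int_v : ∀ {x y z}, K x y z → 0 < z → ∃ m : ℤ, x = m
  int_h : ∀ {x y z}, K x y z → z ≤ 0 → ∃ m : ℤ, y = m
  uniq_v : ∀ {x y z z'}, K x y z → K x y z' → 0 < z → 0 < z' → z = z'
  uniq_h : ∀ {x y z z'}, K x y z → K x y z' → z ≤ 0 → z' ≤ 0 → z = z'
  cross : ∀ {x y z w}, K x y z → K x y w → z ≤ 0 → 0 < w →
    z < 0 ∧ ∃ m n : ℤ, x = m ∧ y = n ∧ Cr m n
  near_v : ∀ {x y z w}, K x y z → 0 < z → w < z → ∀ᶠ y' in 𝓝 y, ∃ z', w < z' ∧ K x y' z'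
  near_h : ∀ {x y z w}, K x y z → z < 0 → z < w → ∀ᶠ x' in 𝓝 x, ∃ z', z' < w ∧ K x' y z'
  cov_v : ∀ {i j : ℤ} {y : ℝ}, VE i j → j ≤ y → y ≤ j + 1 → ∃ w, K i y w
  cov_h : ∀ {i j : ℤ} {x : ℝ}, HE i j → i ≤ x → x ≤ i + 1 → ∃ w, K x j w
  unc_v : ∀ {i j : ℤ} {y w : ℝ}, ¬ VE i j → j < y → y < j + 1 → ¬ K i y w
  unc_h : ∀ {i j : ℤ} {x w : ℝ}, ¬ HE i j → i < x → x < i + 1 → ¬ K x j w
  cr_pt : ∀ {m n : ℤ}, Cr m n → ∃ z w, z < 0 ∧ 0 < w ∧ K m n z ∧ K m n w

/-- A good labelling of the cells `[i, i + 1] × [j, j + 1]`: equal on cells separated by an uncovered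
edge, with a relation at each crossing, and equal to `1` above the knot and to `m` below it. -/
structure GoodL {G : Type} [Group G] (VE HE Cr : ℤ → ℤ → Prop) (m : G) (L : ℤ → ℤ → G) : Prop where
  v : ∀ i j, ¬ VE i j → L (i - 1) j = L i j
  h : ∀ i j, ¬ HE i j → L i (j - 1) = L i j
  c : ∀ i j, Cr i j → (L (i - 1) (j - 1))⁻¹ * L i (j - 1) = (L (i - 1) j)⁻¹ * L i j
  up : ∀ i j, 6 ≤ j → L i j = 1
  low : ∀ i j, j < 0 → L i j = m

/-! ### Fundamental groups, with the order of concatenation of paths -/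

/-- The fundamental group, with `p * q` the class of `p` followed by `q`. -/
def PG (C : Type) [TopologicalSpace C] (b : C) : Type := Path.Homotopic.Quotient b b

namespace PG

variable {C : Type} [TopologicalSpace C] {b : C}

instance : Group (PG C b) where
  mul p q := Path.Homotopic.Quotient.trans p q
  one := Path.Homotopic.Quotient.refl b
  inv p := Path.Homotopic.Quotient.symm p
  mul_assoc p q r := Path.Homotopic.Quotient.trans_assoc p q r
  one_mul p := Path.Homotopic.Quotient.refl_trans p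
  mul_one p := Path.Homotopic.Quotient.trans_refl p
  inv_mul_cancel p := Path.Homotopic.Quotient.symm_trans p

/-- the class of a loop -/
def mk (p : Path b b) : PG C b := Path.Homotopic.Quotient.mk p

/-- the class of a loop which is a path class -/
def of (p : Path.Homotopic.Quotient b b) : PG C b := p

theorem mul_def (p q : PG C b) : p * q = Path.Homotopic.Quotient.trans p q := rfl
theorem one_def : (1 : PG C b) = Path.Homotopic.Quotient.refl b := rfl
theorem inv_def (p : PG C b) : p⁻¹ = Path.Homotopic.Quotient.symm p := rfl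

end PG

/-- the base point -/
def bb : Eu 3 := v3 0 3 0

/-- the complement of a subset of space -/
abbrev Cp (𝒦 : Set (Eu 3)) : Type := {p : Eu 3 // p ∉ 𝒦}

/-- the subset `𝒦` of space is `S`, scaled by `1 / 48` -/
def IsSh (S : Shadow) (𝒦 : Set (Eu 3)) : Prop :=
  ∀ p : Eu 3, p ∈ 𝒦 ↔ S.K (48 * p 0) (48 * p 1) (48 * p 2)

theorem IsSh.bb {S : Shadow} {𝒦 : Set (Eu 3)} (h : IsSh S 𝒦) : bb ∉ 𝒦 := by
  intro hb
  have := S.by6 ((h _).1 hb)
  simp only [Pool.Agent.H414_LQ.bb, v3_1] at this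
  norm_num at this

section classes

variable (S : Shadow) (𝒦 : Set (Eu 3))

/-- nothing above `p` -/
def Top (p : Cp 𝒦) : Prop := ∀ w, 48 * p.1 2 ≤ w → ¬ S.K (48 * p.1 0) (48 * p.1 1) w

/-- nothing below `p` -/
def Bot (p : Cp 𝒦) : Prop := ∀ w, w ≤ 48 * p.1 2 → ¬ S.K (48 * p.1 0) (48 * p.1 1) w

variable {S 𝒦}

/-- The classes of paths from the base point that stay above the knot, and of those that stay
below. -/
structure TB (h : IsSh S 𝒦) (tp : ∀ p : Cp 𝒦, Top S 𝒦 p → Path.Homotopic.Quotient ⟨bb, h.bb⟩ p)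
    (bp : ∀ p : Cp 𝒦, Bot S 𝒦 p → Path.Homotopic.Quotient ⟨bb, h.bb⟩ p) : Prop where
  /-- a path in the upper part -/
  top : ∀ {p q : Cp 𝒦} (hp : Top S 𝒦 p) (hq : Top S 𝒦 q) (δ : Path p q), (∀ t, Top S 𝒦 (δ t)) →
    (tp p hp).trans (Path.Homotopic.Quotient.mk δ) = tp q hq
  /-- a path in the lower part -/
  bot : ∀ {p q : Cp 𝒦} (hp : Bot S 𝒦 p) (hq : Bot S 𝒦 q) (δ : Path p q), (∀ t, Bot S 𝒦 (δ t)) →
    (bp p hp).trans (Path.Homotopic.Quotient.mk δ) = bp q hq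
  /-- the class `tp p` is represented by a path in the upper part -/
  rt : ∀ (p : Cp 𝒦) (hp : Top S 𝒦 p), ∃ δ : Path ⟨bb, h.bb⟩ p, (∀ t, Top S 𝒦 (δ t)) ∧
    tp p hp = Path.Homotopic.Quotient.mk δ
  /-- the class `bp p` is represented by a path in the lower part -/
  rb : ∀ (p : Cp 𝒦) (hp : Bot S 𝒦 p), ∃ δ : Path ⟨bb, h.bb⟩ p, (∀ t, Bot S 𝒦 (δ t)) ∧
    bp p hp = Path.Homotopic.Quotient.mk δ

end classes

/-- The loop class that reaches `p` from below and returns to the base point from above. -/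
def FF {S : Shadow} {𝒦 : Set (Eu 3)} (h : IsSh S 𝒦)
    (tp : ∀ p : Cp 𝒦, Top S 𝒦 p → Path.Homotopic.Quotient ⟨bb, h.bb⟩ p)
    (bp : ∀ p : Cp 𝒦, Bot S 𝒦 p → Path.Homotopic.Quotient ⟨bb, h.bb⟩ p)
    (p : Cp 𝒦) (ht : Top S 𝒦 p) (hb : Bot S 𝒦 p) : PG (Cp 𝒦) ⟨bb, h.bb⟩ :=
  (bp p hb).trans (tp p ht).symm

/-- the center of the cell `(i, j)` -/
def cpt (i j : ℤ) : Eu 3 := v3 ((i + 1 / 2) / 48) ((j + 1 / 2) / 48) 0

/-- no point of `K` over the center of a cell -/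
theorem cpt_free (S : Shadow) (i j : ℤ) (w : ℝ) : ¬ S.K (48 * cpt i j 0) (48 * cpt i j 1) w := by
  intro hK
  simp only [cpt, v3_0, v3_1] at hK
  rcases lt_or_ge 0 w with hw | hw
  · obtain ⟨m, hm⟩ := S.int_v hK hw
    have h2 : (2 * i + 1 : ℤ) = 2 * m := by
      have : (2 * i + 1 : ℝ) = 2 * m := by linarith
      exact_mod_cast this
    omega
  · obtain ⟨m, hm⟩ := S.int_h hK hw
    have h2 : (2 * j + 1 : ℤ) = 2 * m := by
      have : (2 * j + 1 : ℝ) = 2 * m := by linarith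
      exact_mod_cast this
    omega

/-- the center of a cell, as a point of the complement -/
def cptc {S : Shadow} {𝒦 : Set (Eu 3)} (h : IsSh S 𝒦) (i j : ℤ) : Cp 𝒦 :=
  ⟨cpt i j, fun hp => cpt_free S i j _ ((h _).1 hp)⟩

/-- the loop class of the cell `(i, j)` -/
def FC {S : Shadow} {𝒦 : Set (Eu 3)} (h : IsSh S 𝒦)
    (tp : ∀ p : Cp 𝒦, Top S 𝒦 p → Path.Homotopic.Quotient ⟨bb, h.bb⟩ p)
    (bp : ∀ p : Cp 𝒦, Bot S 𝒦 p → Path.Homotopic.Quotient ⟨bb, h.bb⟩ p)
    (i j : ℤ) : PG (Cp 𝒦) ⟨bb, h.bb⟩ :=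
  FF h tp bp (cptc h i j) (fun w _ => cpt_free S i j w) (fun w _ => cpt_free S i j w)

end Pool.Agent.H414_LQ
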