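import Pool.Agent.H414_LQ.Base

/-!
# Definitions, second part: tubes, families of composite knots, loops over cells
-/

set_option autoImplicit false

open scoped Topology ContDiff unitInterval

noncomputable section

namespace Pool.Agent.H414_LQ

open Pool.Agent.H414_LK

/-! ### Facts on grid knots and their tubes -/

/-- The description of the grid knot at the time `t`. -/
inductive GK.Piece (g : GK) (t : ℝ) : Prop
  | hl (ht : t ≤ -g.n) (x : g.gx t = t + (g.X 0 - t) * st (t + g.n + 1)) (y : g.gy t = 0)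
      (z : g.gz t ≤ 0)
  | v (k : ℕ) (hk : k < g.n) (h1 : -(g.n : ℝ) + 2 * k < t) (h2 : t < -(g.n : ℝ) + 2 * k + 1)
      (x : g.gx t = g.X k)
      (y : g.gy t = g.Y k + ((g.Y (k + 1) : ℝ) - g.Y k) * st (t + g.n - 2 * k)) (z : 0 < g.gz t)
  | h (k : ℕ) (hk : k + 1 < g.n) (h1 : -(g.n : ℝ) + 2 * k + 1 ≤ t)
      (h2 : t ≤ -(g.n : ℝ) + 2 * k + 2)
      (x : g.gx t = g.X k + ((g.X (k + 1) : ℝ) - g.X k) * st (t + g.n - 1 - 2 * k))
      (y : g.gy t = g.Y (k + 1)) (z : g.gz t ≤ 0)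
  | hr (ht : (g.n : ℝ) - 1 ≤ t)
      (x : g.gx t = g.X (g.n - 1) + (t - g.X (g.n - 1)) * st (t - (g.n - 1))) (y : g.gy t = 0)
      (z : g.gz t ≤ 0)

/-- Elementary facts on a grid knot. -/
structure GFacts (g : GK) : Prop where
  smx : ContDiff ℝ ∞ g.gx
  smy : ContDiff ℝ ∞ g.gy
  smz : ContDiff ℝ ∞ g.gz
  smc : ContDiff ℝ ∞ g.gc
  piece : ∀ t, g.Piece t
  stdx : ∀ t : ℝ, t ≤ -(g.n + 1) ∨ g.n ≤ t → g.gx t = t
  stdy : ∀ t : ℝ, t ≤ -g.n ∨ (g.n : ℝ) - 1 ≤ t → g.gy t = 0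
  stdz : ∀ t : ℝ, t ≤ -(g.n + 1) ∨ g.n ≤ t → g.gz t = 0
  stdc : ∀ t : ℝ, t ≤ -(g.n + 1) ∨ g.n ≤ t → g.gc t = 0
  gc0 : ∀ t, 0 ≤ g.gc t
  gc1 : ∀ t, g.gc t ≤ 1
  gzc : ∀ t, |g.gz t| ≤ g.gc t
  gcz : ∀ t, 0 < g.gz t → g.gc t = 1
  gyb : ∀ t, 0 ≤ g.gy t ∧ g.gy t ≤ g.n - 1
  gxb : ∀ t : ℝ, -(g.n + 1) ≤ t → t ≤ g.n → |g.gx t| ≤ g.n + 1
  /-- strictly negative on the open horizontal pieces -/
  neg : ∀ (k : ℕ) (t : ℝ), k ≤ g.n → -((g.n : ℝ) + 1) + 2 * k < t → t < -(g.n : ℝ) + 2 * k →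
    g.gz t < 0
  injh : ∀ t t', g.gz t ≤ 0 → g.gz t' ≤ 0 → g.gx t = g.gx t' → g.gy t = g.gy t' → t = t'
  injv : ∀ t t', 0 < g.gz t → 0 < g.gz t' → g.gx t = g.gx t' → g.gy t = g.gy t' → t = t'
  /-- at every time, the knot moves along a horizontal or a vertical line of the plane, or in the
  third direction -/
  dir : ∀ t, (g.gz t ≤ 0 ∧ deriv g.gx t ≠ 0 ∧ deriv g.gy t = 0) ∨
    (0 < g.gz t ∧ deriv g.gx t = 0 ∧ deriv g.gy t ≠ 0) ∨ (deriv g.gz t ≠ 0 ∧ g.gz t = 0)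

/-- the domain on which the tube map is good -/
def Om (ε : ℝ) : Set (Eu 3) := {x | |x 0| ≤ 1 / 5 → ‖x - v3 (x 0) 0 0‖ < ε}

/-- Facts on the tube map of a grid knot. -/
structure TubeF (g : GK) (ε : ℝ) : Prop where
  pos : 0 < ε
  le : ε ≤ 1 / 100
  sb : ContDiff ℝ ∞ g.be
  sv : ContDiff ℝ ∞ g.ve
  su : ContDiff ℝ ∞ g.ue
  st : ContDiff ℝ ∞ g.tu
  be_inj : Function.Injective g.be
  be_std : ∀ t : ℝ, 1 / 6 ≤ |t| → g.be t = v3 t 0 0
  dbe_std : ∀ t : ℝ, 1 / 6 ≤ |t| → deriv g.be t = v3 1 0 0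
  ve_std : ∀ t : ℝ, 1 / 6 ≤ |t| → g.ve t = v3 0 1 0
  ue_std : ∀ t : ℝ, 1 / 6 ≤ |t| → g.ue t = v3 0 0 1
  ue_ne : ∀ t, g.ue t ≠ 0
  be_nm : ∀ t : ℝ, |t| ≤ 1 / 5 → ‖g.be t‖ ≤ 11 / 50
  be_0 : ∀ t : ℝ, |t| ≤ 1 / 6 → |g.be t 0| ≤ 1 / 6
  tu_axis : ∀ t : ℝ, g.tu (v3 t 0 0) = g.be t
  fd : ∀ (t : ℝ) (x : Eu 3), fderiv ℝ g.tu (v3 t 0 0) x = x 0 • deriv g.be t + x 1 • g.ve t +
    x 2 • g.ue t
  out : ∀ x : Eu 3, 1 / 6 ≤ |x 0| → g.tu x = x
  near : ∀ x ∈ Om ε, |x 0| ≤ 1 / 6 → ‖g.tu x - g.be (x 0)‖ ≤ 1 / 400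
  inj : Set.InjOn g.tu (Om ε)
  dinj : ∀ x ∈ Om ε, Function.Injective (fderiv ℝ g.tu x)

/-! ### Maps near the axis and their framed long knots -/

/-- A smooth map of space that gives a framed long knot: the image of the axis, with the image of
its framing. -/
structure AM (M : Eu 3 → Eu 3) : Prop where
  smooth : ContDiff ℝ ∞ M
  inj : Function.Injective (fun t : ℝ => M (v3 t 0 0))
  dinj : ∀ t : ℝ, Function.Injective (fderiv ℝ M (v3 t 0 0))
  out : ∀ t : ℝ, 1 ≤ |t| → M (v3 t 0 0) = v3 t 0 0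
  dout : ∀ t : ℝ, 1 ≤ |t| → fderiv ℝ M (v3 t 0 0) = ContinuousLinearMap.id ℝ (Eu 3)
  ball : ∀ t : ℝ, |t| ≤ 1 → ‖M (v3 t 0 0)‖ ≤ 1

/-- A choice of framed long knots for such maps. -/
structure Fr (fr : ∀ M : Eu 3 → Eu 3, AM M → FramedLongKnot 3) : Prop where
  toFun : ∀ M (h : AM M) (t : ℝ), (fr M h).toFun t = M (v3 t 0 0)
  ext : ∀ M M' (h : AM M) (h' : AM M'), (∀ t : ℝ, M =ᶠ[𝓝 (v3 t 0 0)] M') → fr M h = fr M' h'
  cont : ∀ {S : Type} [TopologicalSpace S] {P : Type} [NormedAddCommGroup P] [NormedSpace ℝ P]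
    (γ : S → P), Continuous γ → ∀ (G : P → Eu 3 → Eu 3) (h : ∀ s, AM (G (γ s))),
    (∀ s (t : ℝ), ContDiffAt ℝ ∞ (fun x : P × Eu 3 => G x.1 x.2) (γ s, v3 t 0 0)) →
    Continuous (fun s => fr (G (γ s)) (h s))

/-! ### Composite knots -/

/-- the centers and the sizes of the three knots -/
abbrev Par : Type := (Fin 3 → ℝ) × (Fin 3 → ℝ)

/-- the composition of the tube maps of the knots `i`, `j`, `k`, in this order -/
def Mc (g : Fin 3 → GK) (i j k : Fin 3) (θ : Par) (x : Eu 3) : Eu 3 :=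
  (g k).tub (θ.1 k) (θ.2 k) ((g j).tub (θ.1 j) (θ.2 j) ((g i).tub (θ.1 i) (θ.2 i) x))

/-- Admissible parameters: the knots `i`, `j` are disjoint, or the knot `i` is small with respect to
the knot `j`; the knot `k` is disjoint from both. -/
structure Adm (ε : ℝ) (i j k : Fin 3) (θ : Par) : Prop where
  pos : ∀ l, 0 < θ.2 l
  le : ∀ l, θ.2 l ≤ 1
  bd : ∀ l, |θ.1 l| + θ.2 l / 4 ≤ 1
  ij : (θ.2 i + θ.2 j) / 5 ≤ |θ.1 i - θ.1 j| ∨ θ.2 i / 4 ≤ ε * θ.2 j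
  ik : (θ.2 i + θ.2 k) / 5 ≤ |θ.1 i - θ.1 k|
  jk : (θ.2 j + θ.2 k) / 5 ≤ |θ.1 j - θ.1 k|

/-- Disjoint knots. -/
structure Dis (θ : Par) : Prop where
  pos : ∀ l, 0 < θ.2 l
  le : ∀ l, θ.2 l ≤ 1
  bd : ∀ l, |θ.1 l| + θ.2 l / 4 ≤ 1
  dis : ∀ l l', l ≠ l' → (θ.2 l + θ.2 l') / 5 ≤ |θ.1 l - θ.1 l'|

/-! ### Long knots, their groups, transport -/

/-- the base point is not on a long knot -/
theorem bb_notin (f : LongKnot 3) : bb ∉ Set.range f.toFun := by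
  rintro ⟨t, ht⟩
  have hn : ‖bb‖ ^ 2 = 9 := by rw [normsq3]; simp [bb]; norm_num
  rcases le_total 1 |t| with h | h
  · have h1 := congrArg (fun v : Eu 3 => v 1) ht
    rw [f.standard t h, axis_eq] at h1
    simp [bb] at h1
  · have h1 := f.ball t h
    rw [ht, mem_closedBall_zero_iff] at h1
    nlinarith [norm_nonneg bb]

/-- The group of a long knot, `p * q` is `p` followed by `q`. -/
abbrev KG (f : LongKnot 3) : Type := PG (Cp (Set.range f.toFun)) ⟨bb, bb_notin f⟩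

/-- Transport along paths of long knots: it depends only on the homotopy class of the path, is
compatible with composition, and is computed by continuous families of loops. -/
structure Tr (tr : ∀ {f f' : LongKnot 3}, Path f f' → (KG f ≃* KG f')) : Prop where
  homotopic : ∀ {f f' : LongKnot 3} {H H' : Path f f'}, H.Homotopic H' → tr H = tr H'
  trans : ∀ {f f' f'' : LongKnot 3} (H : Path f f') (H' : Path f' f'') (x : KG f),
    tr (H.trans H') x = tr H' (tr H x)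
  family : ∀ {f f' : LongKnot 3} (H : Path f f') (ℓ : I × I → Eu 3), Continuous ℓ →
    (∀ s t, ℓ (s, t) ∉ Set.range (H s).toFun) → (∀ s, ℓ (s, 0) = bb) → (∀ s, ℓ (s, 1) = bb) →
    ∀ (p : Path (⟨bb, bb_notin f⟩ : Cp (Set.range f.toFun)) ⟨bb, bb_notin f⟩)
      (p' : Path (⟨bb, bb_notin f'⟩ : Cp (Set.range f'.toFun)) ⟨bb, bb_notin f'⟩),
    (∀ t, (p t).1 = ℓ (0, t)) → (∀ t, (p' t).1 = ℓ (1, t)) → tr H (PG.mk p) = PG.mk p'

/-! ### Loops over points of the plane -/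

/-- the straight path in space -/
def sg (a b : Eu 3) : Path a b where
  toFun t := (1 - (t : ℝ)) • a + (t : ℝ) • b
  continuous_toFun := by fun_prop
  source' := by simp
  target' := by simp

/-- a path in space that avoids `𝒦` as a path in the complement -/
def inC {𝒦 : Set (Eu 3)} {a b : Eu 3} (γ : Path a b) (h : ∀ t, γ t ∉ 𝒦) (ha : a ∉ 𝒦)
    (hb : b ∉ 𝒦) : Path (⟨a, ha⟩ : Cp 𝒦) ⟨b, hb⟩ where
  toFun t := ⟨γ t, h t⟩
  continuous_toFun := by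
    refine Continuous.subtype_mk ?_ _
    exact γ.continuous
  source' := Subtype.ext γ.source
  target' := Subtype.ext γ.target

/-- The loop that goes up through the plane at the point `(x, y)`. -/
def poly (x y : ℝ) : Path bb bb :=
  (sg bb (v3 0 3 (-3))).trans ((sg (v3 0 3 (-3)) (v3 x y (-3))).trans
    ((sg (v3 x y (-3)) (v3 x y 3)).trans ((sg (v3 x y 3) (v3 0 3 3)).trans (sg (v3 0 3 3) bb))))

/-- there is no point of the knot over `(x, y)` -/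
def Free (f : LongKnot 3) (x y : ℝ) : Prop := ∀ w, v3 x y w ∉ Set.range f.toFun

/-- nothing of the knot at or above `p` -/
def KTop (f : LongKnot 3) (p : Eu 3) : Prop := ∀ w, p 2 ≤ w → v3 (p 0) (p 1) w ∉ Set.range f.toFun

/-- nothing of the knot at or below `p` -/
def KBot (f : LongKnot 3) (p : Eu 3) : Prop := ∀ w, w ≤ p 2 → v3 (p 0) (p 1) w ∉ Set.range f.toFun

theorem KTop.nin {f : LongKnot 3} {p : Eu 3} (h : KTop f p) : p ∉ Set.range f.toFun := by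
  have := h (p 2) le_rfl
  rwa [v3_eta] at this

theorem KBot.nin {f : LongKnot 3} {p : Eu 3} (h : KBot f p) : p ∉ Set.range f.toFun := by
  have := h (p 2) le_rfl
  rwa [v3_eta] at this

/-- The classes of paths from the base point that stay above the long knot, and of those that stay
below, and the classes `PL x y` of the loops over the points of the plane. -/
structure KTB (f : LongKnot 3)
    (tp : ∀ p : Eu 3, ∀ h : KTop f p, Path.Homotopic.Quotient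
      (⟨bb, bb_notin f⟩ : Cp (Set.range f.toFun)) ⟨p, h.nin⟩)
    (bp : ∀ p : Eu 3, ∀ h : KBot f p, Path.Homotopic.Quotient
      (⟨bb, bb_notin f⟩ : Cp (Set.range f.toFun)) ⟨p, h.nin⟩)
    (PL : ∀ x y : ℝ, KG f) : Prop where
  /-- a path in the upper part -/
  top : ∀ {p q : Eu 3} (hp : KTop f p) (hq : KTop f q) (δ : Path p q) (hδ : ∀ t, KTop f (δ t)),
    (tp p hp).trans (Path.Homotopic.Quotient.mk
      (inC δ (fun t => (hδ t).nin) hp.nin hq.nin)) = tp q hq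
  /-- a path in the lower part -/
  bot : ∀ {p q : Eu 3} (hp : KBot f p) (hq : KBot f q) (δ : Path p q) (hδ : ∀ t, KBot f (δ t)),
    (bp p hp).trans (Path.Homotopic.Quotient.mk
      (inC δ (fun t => (hδ t).nin) hp.nin hq.nin)) = bp q hq
  /-- a path in the upper part from the base point -/
  top0 : ∀ {q : Eu 3} (hq : KTop f q) (δ : Path bb q) (hδ : ∀ t, KTop f (δ t)),
    Path.Homotopic.Quotient.mk (inC δ (fun t => (hδ t).nin) (bb_notin f) hq.nin) = tp q hq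
  /-- a path in the lower part from the base point -/
  bot0 : ∀ {q : Eu 3} (hq : KBot f q) (δ : Path bb q) (hδ : ∀ t, KBot f (δ t)),
    Path.Homotopic.Quotient.mk (inC δ (fun t => (hδ t).nin) (bb_notin f) hq.nin) = bp q hq
  /-- the loops `PL x y` are represented by the polygons -/
  poly : ∀ {x y : ℝ} (_ : Free f x y) (hp : ∀ t, poly x y t ∉ Set.range f.toFun),
    PL x y = PG.mk (inC (poly x y) hp (bb_notin f) (bb_notin f))
  /-- the loop `PL x y` in terms of the classes `bp` and `tp` -/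
  pl : ∀ {p : Eu 3} (ht : KTop f p) (hb : KBot f p), PL (p 0) (p 1) =
    PG.of ((bp p hb).trans (tp p ht).symm)

/-- the product of labels giving the longitude of a grid knot -/
def lam {G : Type} [Group G] (g : GK) (L : ℤ → ℤ → G) : G :=
  L (g.X 0) 0 * ((List.range (g.n - 1)).map fun k =>
    (L (g.X k) (g.Y (k + 1)))⁻¹ * L (g.X (k + 1)) (g.Y (k + 1))).prod * (L (g.X (g.n - 1)) 0)⁻¹

/-! ### Three grid knots in a row -/

/-- Three grid knots in a row: the point `(x, y, z)` is on the first knot, shifted by `-32`, on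
the second knot, or on the third knot, shifted by `32`. -/
def K3 (g : Fin 3 → GK) (x y z : ℝ) : Prop :=
  (x < -16 ∧ (g 0).T (x + 32) y z) ∨ (-16 ≤ x ∧ x < 16 ∧ (g 1).T x y z) ∨
    (16 ≤ x ∧ (g 2).T (x - 32) y z)

/-- the same for the vertical edges, -/
def VE3 (g : Fin 3 → GK) (i j : ℤ) : Prop :=
  (i < -16 ∧ (g 0).VE (i + 32) j) ∨ (-16 ≤ i ∧ i < 16 ∧ (g 1).VE i j) ∨
    (16 ≤ i ∧ (g 2).VE (i - 32) j)

/-- the horizontal edges, -/
def HE3 (g : Fin 3 → GK) (i j : ℤ) : Prop :=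
  (i < -16 ∧ (g 0).HE (i + 32) j) ∨ (-16 ≤ i ∧ i < 16 ∧ (g 1).HE i j) ∨
    (16 ≤ i ∧ (g 2).HE (i - 32) j)

/-- and the crossings -/
def Cr3 (g : Fin 3 → GK) (i j : ℤ) : Prop :=
  (i < -16 ∧ (g 0).Cr (i + 32) j) ∨ (-16 ≤ i ∧ i < 16 ∧ (g 1).Cr i j) ∨
    (16 ≤ i ∧ (g 2).Cr (i - 32) j)

end Pool.Agent.H414_LQ
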