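import Pool.Agent.H414_LQ.Base2

/-!
# Definitions, third part: parallels, particular grid knots, data
-/

set_option autoImplicit false

open scoped Topology ContDiff unitInterval

noncomputable section

namespace Pool.Agent.H414_LQ

open Pool.Agent.H414_LK

/-! ### Cells, parallels -/

/-- the loop over the center of the cell `(i, j)` of the part `l` of the composite knot -/
def cel {f : LongKnot 3} (PL : ℝ → ℝ → KG f) (θ : Par) (l : Fin 3) (i j : ℤ) : KG f :=
  PL (θ.1 l + θ.2 l * ((i + 1 / 2) / 48)) (θ.2 l * ((j + 1 / 2) / 48))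

/-- an element of the group as a path class -/
def toQ {C : Type} [TopologicalSpace C] {b : C} (x : PG C b) : Path.Homotopic.Quotient b b := x

/-- The path parallel to the grid knot centered at `c`, at distance `η`, from the left to the right
end of the slab. -/
def parl (g : GK) (hg : Continuous g.be) (hv : Continuous g.ve) (c η : ℝ) :
    Path (v3 c 0 0 + g.be (-(1 / 5)) + η • g.ve (-(1 / 5)))
      (v3 c 0 0 + g.be (1 / 5) + η • g.ve (1 / 5)) where
  toFun t := v3 c 0 0 + g.be (-(1 / 5) + 2 / 5 * (t : ℝ)) + η • g.ve (-(1 / 5) + 2 / 5 * (t : ℝ))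
  continuous_toFun := by fun_prop
  source' := by simp
  target' := by norm_num

/-- the parameters: the knot `i`, of size `δ`, moves through the knot `j`, of size `1` and center
`cj`, from the left (`cj - 2/3`) to the right (`cj + 1/4`) -/
def thp (i j : Fin 3) (cj ck δ s : ℝ) : Par :=
  (fun l => if l = i then cj - 2 / 3 + s * (11 / 12) else if l = j then cj else ck,
    fun l => if l = i then δ else 1)

/-- the standard parameters: three knots of size `1` with centers `-2/3, 0, 2/3` -/
def th0 : Par := (![-2 / 3, 0, 2 / 3], fun _ => 1)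

/-- the meridian -/
def mer {f : LongKnot 3} (PL : ℝ → ℝ → KG f) : KG f := PL (1 / 96) (-(1 / 96))

/-- the longitude of the composite knot with the standard parameters -/
def Lam (g : Fin 3 → GK) {f : LongKnot 3} (PL : ℝ → ℝ → KG f) : KG f :=
  lam (g 0) (cel PL th0 0) * lam (g 1) (cel PL th0 1) * lam (g 2) (cel PL th0 2)

/-- a vector with continuous coordinates -/
theorem v3_cont {T : Type*} [TopologicalSpace T] {a b c : T → ℝ} (ha : Continuous a)
    (hb : Continuous b) (hc : Continuous c) : Continuous (fun t => v3 (a t) (b t) (c t)) := by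
  refine (PiLp.continuous_toLp 2 _).comp (continuous_pi fun i => ?_)
  fin_cases i
  · exact ha
  · exact hb
  · exact hc

/-- the loop that turns `k` times around the axis, at distance `η` -/
def rotp (η : ℝ) (k : ℤ) : Path (v3 2 η 0) (v3 2 η 0) where
  toFun t := v3 2 (η * Real.cos (2 * Real.pi * k * t)) (η * Real.sin (2 * Real.pi * k * t))
  continuous_toFun := by
    refine v3_cont continuous_const ?_ ?_ <;> fun_prop
  source' := by simp
  target' := by
    have h1 : Real.cos (2 * Real.pi * k * ((1 : I) : ℝ)) = 1 := by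
      have := Real.cos_int_mul_two_pi k
      rw [show 2 * Real.pi * k * ((1 : I) : ℝ) = k * (2 * Real.pi) by simp; ring]
      exact this
    have h2 : Real.sin (2 * Real.pi * k * ((1 : I) : ℝ)) = 0 := by
      have := Real.sin_int_mul_pi (2 * k)
      rw [show 2 * Real.pi * k * ((1 : I) : ℝ) = ((2 * k : ℤ) : ℝ) * Real.pi by simp; ring]
      exact this
    rw [h1, h2]; simp

/-! ### Three particular grid knots -/

/-- the grid knot `5_2` -/
def gF : GK where
  n := 7
  X k := [0, 3, 1, 5, 2, 6, 4].getD k 0
  Y k := [0, 2, 5, 1, 4, 6, 3, 0].getD k 0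
  n3 := by norm_num
  n7 := by norm_num
  Xr := by intro k hk; interval_cases k <;> decide
  Xinj := by
    intro k l hk hl h
    interval_cases k <;> interval_cases l <;> first | rfl | exact absurd h (by decide)
  X0 := by decide
  Y0 := by decide
  Yn := by decide
  Yr := by intro k h0 hk; interval_cases k <;> decide
  Yinj := by
    intro k l hk0 hk hl0 hl h
    interval_cases k <;> interval_cases l <;> first | rfl | exact absurd h (by decide)

/-- the grid knot `4_1` -/
def gE : GK where
  n := 6
  X k := [0, 2, 4, 1, 5, 3].getD k 0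
  Y k := [0, 4, 1, 3, 5, 2, 0].getD k 0
  n3 := by norm_num
  n7 := by norm_num
  Xr := by intro k hk; interval_cases k <;> decide
  Xinj := by
    intro k l hk hl h
    interval_cases k <;> interval_cases l <;> first | rfl | exact absurd h (by decide)
  X0 := by decide
  Y0 := by decide
  Yn := by decide
  Yr := by intro k h0 hk; interval_cases k <;> decide
  Yinj := by
    intro k l hk0 hk hl0 hl h
    interval_cases k <;> interval_cases l <;> first | rfl | exact absurd h (by decide)

/-- the grid knot `3_1` -/
def gT : GK where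
  n := 5
  X k := [0, 2, 4, 1, 3].getD k 0
  Y k := [0, 2, 4, 1, 3, 0].getD k 0
  n3 := by norm_num
  n7 := by norm_num
  Xr := by intro k hk; interval_cases k <;> decide
  Xinj := by
    intro k l hk hl h
    interval_cases k <;> interval_cases l <;> first | rfl | exact absurd h (by decide)
  X0 := by decide
  Y0 := by decide
  Yn := by decide
  Yr := by intro k h0 hk; interval_cases k <;> decide
  Yinj := by
    intro k l hk0 hk hl0 hl h
    interval_cases k <;> interval_cases l <;> first | rfl | exact absurd h (by decide)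

/-- the three grid knots -/
def g3 : Fin 3 → GK := ![gF, gE, gT]

section words

variable {G : Type} [Group G]

/-- the relation of the first knot (`5_2`) -/
def R1 (m d : G) : Prop := d⁻¹ * m * d = d * m⁻¹ * d⁻¹ * d⁻¹ * m * d * m * d⁻¹
/-- the relation of the second knot (`4_1`) -/
def R2 (m d : G) : Prop := m * d⁻¹ * m⁻¹ * d = d * (m * d⁻¹ * m⁻¹ * d) * m⁻¹
/-- the relation of the third knot (`3_1`) -/
def R3 (m a : G) : Prop := a * m * a = m * a * m

/-- the three longitudes -/
def L1 (m d : G) : G := m * d * d * m⁻¹ * d⁻¹ * m⁻¹ * d⁻¹ * m⁻¹ * d * d * m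
def L2 (m d : G) : G := m * m * d * m⁻¹ * d⁻¹ * m * d * m * d⁻¹ * m⁻¹ * d
def L3 (m a : G) : G := m * m * a * m * m * a

end words

/-! ### Data -/

/-- A choice of transport maps, of classes of paths above and below the knots, and of framed
long knots. -/
structure Dat (g : Fin 3 → GK) (ε : ℝ) where
  tr : ∀ {f f' : LongKnot 3}, Path f f' → (KG f ≃* KG f')
  hT : Tr @tr
  tp : ∀ f : LongKnot 3, ∀ p : Eu 3, ∀ h : KTop f p, Path.Homotopic.Quotient
    (⟨bb, bb_notin f⟩ : Cp (Set.range f.toFun)) ⟨p, h.nin⟩
  bp : ∀ f : LongKnot 3, ∀ p : Eu 3, ∀ h : KBot f p, Path.Homotopic.Quotient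
    (⟨bb, bb_notin f⟩ : Cp (Set.range f.toFun)) ⟨p, h.nin⟩
  PL : ∀ f : LongKnot 3, ℝ → ℝ → KG f
  hK : ∀ f, KTB f (tp f) (bp f) (PL f)
  hg : ∀ l, TubeF (g l) ε
  hG : ∀ l, GFacts (g l)
  fr : ∀ M : Eu 3 → Eu 3, AM M → FramedLongKnot 3
  hfr : Fr fr

namespace Dat

variable {g : Fin 3 → GK} {ε : ℝ} (D : Dat g ε)

/-- the loop classes of the cells of the composite framed knot with parameters `θ` -/
def ce (F : FramedLongKnot 3) (θ : Par) (l : Fin 3) (i j : ℤ) : KG F.toLongKnot :=
  cel (D.PL F.toLongKnot) θ l i j

/-- transport along a path of framed long knots -/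
def trf {F F' : FramedLongKnot 3} (H : Path F F') : KG F.toLongKnot ≃* KG F'.toLongKnot :=
  D.tr (H.map (continuous_forget 3))

end Dat

end Pool.Agent.H414_LQ
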