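import Pool.Agent.H414_LQ.Base2

/-!
JOB F5g.  Paths above and below a long knot, and loops over points of the plane.
-/

set_option autoImplicit false

open scoped Topology ContDiff unitInterval

noncomputable section

namespace Pool.Agent.H414_LQ

open Pool.Agent.H414_LK

namespace F5g

theorem cont_v3 {X : Type*} [TopologicalSpace X] {f g h : X → ℝ} (hf : Continuous f)
    (hg : Continuous g) (hh : Continuous h) : Continuous fun x => v3 (f x) (g x) (h x) := by
  unfold v3
  refine (PiLp.continuous_toLp 2 _).comp (continuous_pi fun i => ?_)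
  fin_cases i
  · exact hf
  · exact hg
  · exact hh

theorem cont_co (i : Fin 3) : Continuous fun p : Eu 3 => p i := by fun_prop

/-- the points with nothing of `𝒦` at or beyond them in the direction `e` -/
def VV (𝒦 : Set (Eu 3)) (e : ℝ) (p : Eu 3) : Prop :=
  ∀ w, e * p 2 ≤ e * w → v3 (p 0) (p 1) w ∉ 𝒦

theorem VV.nin {𝒦 : Set (Eu 3)} {e : ℝ} {p : Eu 3} (h : VV 𝒦 e p) : p ∉ 𝒦 := by
  have := h (p 2) le_rfl
  rwa [v3_eta] at this

theorem VV_far {𝒦 : Set (Eu 3)} (hK : ∀ p ∈ 𝒦, |p 2| ≤ 1) {e : ℝ} (he : e = 1 ∨ e = -1)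
    {p : Eu 3} (h : 2 ≤ e * p 2) : VV 𝒦 e p := by
  intro w hw hp
  have h1 := hK _ hp
  rw [v3_2, abs_le] at h1
  rcases he with rfl | rfl <;> linarith [h1.1, h1.2]

/-- pushing in the direction `e` -/
def push (e : ℝ) (s : ℝ) (p : Eu 3) : Eu 3 :=
  v3 (p 0) (p 1) ((1 - s) * p 2 + s * (e * max (e * p 2) 2))

theorem push_cont (e : ℝ) : Continuous fun q : ℝ × Eu 3 => push e q.1 q.2 := by
  unfold push
  refine cont_v3 ?_ ?_ ?_ <;> fun_prop

theorem sig_push {e : ℝ} (he : e = 1 ∨ e = -1) {s : ℝ} (p : Eu 3) :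
    e * push e s p 2 = (1 - s) * (e * p 2) + s * max (e * p 2) 2 := by
  have h1 : e * e = 1 := by rcases he with rfl | rfl <;> norm_num
  rw [push, v3_2]
  calc e * ((1 - s) * p 2 + s * (e * max (e * p 2) 2)) = (1 - s) * (e * p 2) +
        s * ((e * e) * max (e * p 2) 2) := by ring
    _ = _ := by rw [h1, one_mul]

theorem VV_push {𝒦 : Set (Eu 3)} {e : ℝ} (he : e = 1 ∨ e = -1) {s : ℝ} (hs0 : 0 ≤ s) {p : Eu 3}
    (h : VV 𝒦 e p) : VV 𝒦 e (push e s p) := by
  intro w hw
  refine h w (le_trans ?_ hw)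
  rw [sig_push he]
  have h1 : e * p 2 ≤ max (e * p 2) 2 := le_max_left _ _
  have h2 : s * (e * p 2) ≤ s * max (e * p 2) 2 := mul_le_mul_of_nonneg_left h1 hs0
  linarith

theorem contractible_VV {𝒦 : Set (Eu 3)} (hK : ∀ p ∈ 𝒦, |p 2| ≤ 1) {e : ℝ}
    (he : e = 1 ∨ e = -1) : ContractibleSpace {p : Eu 3 // VV 𝒦 e p} := by
  have he2 : e * e = 1 := by rcases he with rfl | rfl <;> norm_num
  rw [contractible_iff_id_nullhomotopic]
  have hc : VV 𝒦 e (v3 0 0 (2 * e)) := by
    apply VV_far hK he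
    rw [v3_2]
    nlinarith
  have hp1 : Continuous fun q : {p : Eu 3 // VV 𝒦 e p} => push e 1 q.1 :=
    (push_cont e).comp (Continuous.prodMk_right 1 |>.comp continuous_subtype_val)
  let P : C({p : Eu 3 // VV 𝒦 e p}, {p : Eu 3 // VV 𝒦 e p}) :=
    ⟨fun q => ⟨push e 1 q.1, VV_push he zero_le_one q.2⟩, hp1.subtype_mk _⟩
  have H1 : ContinuousMap.Homotopic (ContinuousMap.id _) P := by
    refine ⟨⟨⟨fun q => ⟨push e (q.1 : ℝ) q.2.1, VV_push he q.1.2.1 q.2.2⟩, ?_⟩, ?_, ?_⟩⟩
    · refine Continuous.subtype_mk ?_ _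
      exact (push_cont e).comp ((continuous_subtype_val.comp continuous_fst).prodMk
        (continuous_subtype_val.comp continuous_snd))
    · intro q
      apply Subtype.ext
      apply ext3 <;> simp [push]
    · intro q
      rfl
  have H2 : ContinuousMap.Homotopic P (ContinuousMap.const _ ⟨v3 0 0 (2 * e), hc⟩) := by
    refine ⟨⟨⟨fun q => ⟨(1 - (q.1 : ℝ)) • push e 1 q.2.1 + (q.1 : ℝ) • v3 0 0 (2 * e), ?_⟩, ?_⟩,
      ?_, ?_⟩⟩
    · apply VV_far hK he
      have h1 := sig_push he (s := 1) q.2.1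
      have h2 : 2 ≤ e * push e 1 q.2.1 2 := by
        rw [h1]
        have := le_max_right (e * q.2.1 2) 2
        linarith
      have h3 : (0 : ℝ) ≤ 1 - (q.1 : ℝ) := by linarith [q.1.2.2]
      have h4 : (0 : ℝ) ≤ (q.1 : ℝ) := q.1.2.1
      simp only [add_app, smul_app, v3_2]
      have h5 : (1 - (q.1 : ℝ)) * 2 ≤ (1 - (q.1 : ℝ)) * (e * push e 1 q.2.1 2) :=
        mul_le_mul_of_nonneg_left h2 h3
      calc (2 : ℝ) = (1 - (q.1 : ℝ)) * 2 + (q.1 : ℝ) * (2 * 1) := by ring
        _ ≤ (1 - (q.1 : ℝ)) * (e * push e 1 q.2.1 2) + (q.1 : ℝ) * (2 * (e * e)) := by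
          rw [he2]; linarith
        _ = _ := by ring
    · refine Continuous.subtype_mk ?_ _
      have h1 : Continuous fun q : I × {p : Eu 3 // VV 𝒦 e p} => push e 1 q.2.1 :=
        hp1.comp continuous_snd
      fun_prop
    · intro q
      apply Subtype.ext
      simp [P]
    · intro q
      apply Subtype.ext
      simp
  exact ⟨_, H1.trans H2⟩


/-- The classes of the paths in the region `VV 𝒦 e`. -/
theorem exists_cl {𝒦 : Set (Eu 3)} (hK : ∀ p ∈ 𝒦, |p 2| ≤ 1) {e : ℝ} (he : e = 1 ∨ e = -1)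
    (hb : VV 𝒦 e bb) (hb' : bb ∉ 𝒦) :
    ∃ cl : ∀ p : Eu 3, ∀ h : VV 𝒦 e p, Path.Homotopic.Quotient (⟨bb, hb'⟩ : Cp 𝒦) ⟨p, h.nin⟩,
      (∀ {p q : Eu 3} (hp : VV 𝒦 e p) (hq : VV 𝒦 e q) (δ : Path p q) (hδ : ∀ t, VV 𝒦 e (δ t)),
        (cl p hp).trans (Path.Homotopic.Quotient.mk
          (inC δ (fun t => (hδ t).nin) hp.nin hq.nin)) = cl q hq) ∧
      ∀ {q : Eu 3} (hq : VV 𝒦 e q) (δ : Path bb q) (hδ : ∀ t, VV 𝒦 e (δ t)),
        Path.Homotopic.Quotient.mk (inC δ (fun t => (hδ t).nin) hb' hq.nin) = cl q hq := by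
  have := contractible_VV hK he
  let J : {p : Eu 3 // VV 𝒦 e p} → Cp 𝒦 := fun p => ⟨p.1, p.2.nin⟩
  have hJ : Continuous J := continuous_subtype_val.subtype_mk _
  let γ : ∀ (p : Eu 3) (h : VV 𝒦 e p),
      Path (⟨bb, hb⟩ : {p : Eu 3 // VV 𝒦 e p}) ⟨p, h⟩ :=
    fun p h => PathConnectedSpace.somePath _ _
  let lf : ∀ {p q : Eu 3} (hp : VV 𝒦 e p) (hq : VV 𝒦 e q) (δ : Path p q)
      (_ : ∀ t, VV 𝒦 e (δ t)), Path (⟨p, hp⟩ : {p : Eu 3 // VV 𝒦 e p}) ⟨q, hq⟩ :=
    fun {p q} hp hq δ hδ => ⟨⟨fun t => ⟨δ t, hδ t⟩, δ.continuous.subtype_mk _⟩,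
      Subtype.ext δ.source, Subtype.ext δ.target⟩
  refine ⟨fun p h => Path.Homotopic.Quotient.mk ((γ p h).map hJ), ?_, ?_⟩
  · intro p q hp hq δ hδ
    have h1 : inC δ (fun t => (hδ t).nin) hp.nin hq.nin = (lf hp hq δ hδ).map hJ := by
      ext t
      rfl
    rw [h1, ← Path.Homotopic.Quotient.mk_trans, ← Path.map_trans]
    exact Path.Homotopic.Quotient.eq.2
      ((SimplyConnectedSpace.paths_homotopic _ _).map ⟨J, hJ⟩)
  · intro q hq δ hδ
    have h1 : inC δ (fun t => (hδ t).nin) hb' hq.nin = (lf hb hq δ hδ).map hJ := by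
      ext t
      rfl
    rw [h1]
    exact Path.Homotopic.Quotient.eq.2
      ((SimplyConnectedSpace.paths_homotopic _ _).map ⟨J, hJ⟩)

/-- the points of a long knot -/
theorem range_cases (f : LongKnot 3) {p : Eu 3} (hp : p ∈ Set.range f.toFun) :
    ‖p‖ ≤ 1 ∨ (p 1 = 0 ∧ p 2 = 0) := by
  obtain ⟨t, rfl⟩ := hp
  rcases le_total 1 |t| with h | h
  · right
    rw [f.standard t h, axis_eq]
    simp
  · left
    have h1 := f.ball t h
    rwa [mem_closedBall_zero_iff] at h1

theorem range_2 (f : LongKnot 3) {p : Eu 3} (hp : p ∈ Set.range f.toFun) : |p 2| ≤ 1 := by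
  rcases range_cases f hp with h | h
  · have h1 := normsq3 p
    rw [abs_le]
    constructor <;> nlinarith [norm_nonneg p, sq_nonneg (p 0), sq_nonneg (p 1), sq_nonneg (p 2)]
  · rw [h.2]
    norm_num

theorem range_1 (f : LongKnot 3) {p : Eu 3} (hp : p ∈ Set.range f.toFun) : |p 1| ≤ 1 := by
  rcases range_cases f hp with h | h
  · have h1 := normsq3 p
    rw [abs_le]
    constructor <;> nlinarith [norm_nonneg p, sq_nonneg (p 0), sq_nonneg (p 1), sq_nonneg (p 2)]
  · rw [h.1]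
    norm_num

theorem kTop_iff (f : LongKnot 3) (p : Eu 3) : KTop f p ↔ VV (Set.range f.toFun) 1 p := by
  simp only [KTop, VV, one_mul]

theorem kBot_iff (f : LongKnot 3) (p : Eu 3) : KBot f p ↔ VV (Set.range f.toFun) (-1) p := by
  simp only [KBot, VV, neg_mul, one_mul, neg_le_neg_iff]

theorem inC_trans {𝒦 : Set (Eu 3)} {a b c : Eu 3} (γ : Path a b) (δ : Path b c)
    (h : ∀ t, (γ.trans δ) t ∉ 𝒦) (h1 : ∀ t, γ t ∉ 𝒦) (h2 : ∀ t, δ t ∉ 𝒦) (ha : a ∉ 𝒦)
    (hb : b ∉ 𝒦) (hc : c ∉ 𝒦) :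
    inC (γ.trans δ) h ha hc = (inC γ h1 ha hb).trans (inC δ h2 hb hc) := by
  ext t
  simp only [inC, Path.trans_apply, Path.coe_mk_mk]
  split_ifs <;> rfl

theorem y3_free (f : LongKnot 3) {p : Eu 3} (h : p 1 = 3) : p ∉ Set.range f.toFun := by
  intro hp
  have := range_1 f hp
  rw [h] at this
  norm_num at this

theorem KTop_y3 (f : LongKnot 3) {p : Eu 3} (h : p 1 = 3) : KTop f p :=
  fun w _ => y3_free f (by simpa using h)

theorem KBot_y3 (f : LongKnot 3) {p : Eu 3} (h : p 1 = 3) : KBot f p :=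
  fun w _ => y3_free f (by simpa using h)

theorem KTop_z3 (f : LongKnot 3) {p : Eu 3} (h : p 2 = 3) : KTop f p := by
  intro w hw hp
  have := range_2 f hp
  rw [v3_2, abs_le] at this
  linarith [this.2]

theorem KBot_z3 (f : LongKnot 3) {p : Eu 3} (h : p 2 = -3) : KBot f p := by
  intro w hw hp
  have := range_2 f hp
  rw [v3_2, abs_le] at this
  linarith [this.1]

section alg

variable {X : Type*} [TopologicalSpace X] {x a b c d p : X}

theorem q_symm_trans (u : Path.Homotopic.Quotient x a) (v : Path.Homotopic.Quotient a b) :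
    (u.trans v).symm = v.symm.trans u.symm := by
  induction u using Path.Homotopic.Quotient.ind with | mk u =>
  induction v using Path.Homotopic.Quotient.ind with | mk v =>
  rw [← Path.Homotopic.Quotient.mk_trans, ← Path.Homotopic.Quotient.mk_symm, Path.trans_symm]
  rfl

theorem q_alg (a1 : Path.Homotopic.Quotient x a) (a2 : Path.Homotopic.Quotient a b)
    (a3 : Path.Homotopic.Quotient b c) (a4 : Path.Homotopic.Quotient c d)
    (a5 : Path.Homotopic.Quotient d x) (bA : Path.Homotopic.Quotient x a)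
    (bB : Path.Homotopic.Quotient x b) (bC : Path.Homotopic.Quotient x c)
    (tC : Path.Homotopic.Quotient x c) (tD : Path.Homotopic.Quotient x d)
    (t0 : Path.Homotopic.Quotient x x) (δ : Path.Homotopic.Quotient c p)
    (e1 : a1 = bA) (e2 : bA.trans a2 = bB) (e3 : bB.trans a3 = bC) (e4 : tC.trans a4 = tD)
    (e5 : tD.trans a5 = t0) (e6 : Path.Homotopic.Quotient.refl x = t0) :
    a1.trans (a2.trans (a3.trans (a4.trans a5))) = (bC.trans δ).trans (tC.trans δ).symm := by
  have h1 : a4.trans a5 = tC.symm := by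
    calc a4.trans a5 = (tC.symm.trans tC).trans (a4.trans a5) := by
          rw [Path.Homotopic.Quotient.symm_trans, Path.Homotopic.Quotient.refl_trans]
      _ = tC.symm.trans ((tC.trans a4).trans a5) := by
          simp only [Path.Homotopic.Quotient.trans_assoc]
      _ = tC.symm := by rw [e4, e5, ← e6, Path.Homotopic.Quotient.trans_refl]
  rw [h1, q_symm_trans]
  calc a1.trans (a2.trans (a3.trans tC.symm)) = (((bA.trans a2).trans a3).trans tC.symm) := by
        rw [e1]
        simp only [Path.Homotopic.Quotient.trans_assoc]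
    _ = bC.trans tC.symm := by rw [e2, e3]
    _ = bC.trans ((δ.trans δ.symm).trans tC.symm) := by
        rw [Path.Homotopic.Quotient.trans_symm, Path.Homotopic.Quotient.refl_trans]
    _ = _ := by simp only [Path.Homotopic.Quotient.trans_assoc]

end alg

theorem sg_app (a b : Eu 3) (t : I) (i : Fin 3) :
    sg a b t i = (1 - (t : ℝ)) * a i + (t : ℝ) * b i := rfl

end F5g

open F5g


/-
PROOF IDEA (TARGET).  The image of a long knot is contained in the union of the closed unit ball and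
the axis, so its points have `|y| ≤ 1`, `|z| ≤ 1`; the base point is `bb = (0, 3, 0)`.
The subspace `U` of the complement of the points `p` with `KTop f p` is contractible: push the points
up, `(p, s) ↦ (p 0, p 1, (1 - s) p 2 + s max (p 2) 2)`, which stays in `U`, then contract the convex set
`{p 2 ≥ 2}`, contained in `U`, to a point.  So `U` is simply connected; it contains `bb`.  Let `tp p` be
the class in the complement of any path in `U` from `bb` to `p` (`PathConnectedSpace.somePath`);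
two paths in `U` with the same end points are homotopic in `U`, hence in the complement.  Same for
`KBot` and `bp`, pushing down.  `PL x y` is the class of the polygon `poly x y` if this avoids the knot
(define it by cases; `1` otherwise; `poly x y` avoids the knot if and only if `Free f x y`: its
segments have `y = 3` or `z = ±3`, but for the middle one).  `pl`: if `KTop f p` and `KBot f p` then
`Free f (p 0) (p 1)`; the polygon is homotopic to the concatenation of a path in the lower part from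
`bb` to `p` (if `|p 2| ≤ 3`, along the polygon; in general move vertically) and a path in the upper
part from `p` to `bb`: use `bot0`, `bot`, `top0`, `top` for the five segments, and the fact that the
vertical line over `(p 0, p 1)` consists of points which are both `KTop` and `KBot`.
-/
theorem exists_KTB (f : LongKnot 3) :
    ∃ (tp : ∀ p : Eu 3, ∀ h : KTop f p, Path.Homotopic.Quotient
        (⟨bb, bb_notin f⟩ : Cp (Set.range f.toFun)) ⟨p, h.nin⟩)
      (bp : ∀ p : Eu 3, ∀ h : KBot f p, Path.Homotopic.Quotient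
        (⟨bb, bb_notin f⟩ : Cp (Set.range f.toFun)) ⟨p, h.nin⟩)
      (PL : ∀ _ _ : ℝ, KG f), KTB f tp bp PL := by
  classical
  have hK : ∀ p ∈ Set.range f.toFun, |p 2| ≤ 1 := fun p hp => range_2 f hp
  have hbT : KTop f bb := KTop_y3 f (by simp [bb])
  have hbB : KBot f bb := KBot_y3 f (by simp [bb])
  obtain ⟨tp, ht1, ht2⟩ := exists_cl hK (Or.inl rfl) ((kTop_iff f bb).1 hbT) (bb_notin f)
  obtain ⟨bp, hb1, hb2⟩ := exists_cl hK (Or.inr rfl) ((kBot_iff f bb).1 hbB) (bb_notin f)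
  have top : ∀ {p q : Eu 3} (hp : KTop f p) (hq : KTop f q) (δ : Path p q)
      (hδ : ∀ t, KTop f (δ t)), (tp p ((kTop_iff f p).1 hp)).trans (Path.Homotopic.Quotient.mk
        (inC δ (fun t => (hδ t).nin) hp.nin hq.nin)) = tp q ((kTop_iff f q).1 hq) :=
    fun hp hq δ hδ => ht1 _ _ δ fun t => (kTop_iff f _).1 (hδ t)
  have bot : ∀ {p q : Eu 3} (hp : KBot f p) (hq : KBot f q) (δ : Path p q)
      (hδ : ∀ t, KBot f (δ t)), (bp p ((kBot_iff f p).1 hp)).trans (Path.Homotopic.Quotient.mk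
        (inC δ (fun t => (hδ t).nin) hp.nin hq.nin)) = bp q ((kBot_iff f q).1 hq) :=
    fun hp hq δ hδ => hb1 _ _ δ fun t => (kBot_iff f _).1 (hδ t)
  have top0 : ∀ {q : Eu 3} (hq : KTop f q) (δ : Path bb q) (hδ : ∀ t, KTop f (δ t)),
      Path.Homotopic.Quotient.mk (inC δ (fun t => (hδ t).nin) (bb_notin f) hq.nin) =
        tp q ((kTop_iff f q).1 hq) :=
    fun hq δ hδ => ht2 _ δ fun t => (kTop_iff f _).1 (hδ t)
  have bot0 : ∀ {q : Eu 3} (hq : KBot f q) (δ : Path bb q) (hδ : ∀ t, KBot f (δ t)),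
      Path.Homotopic.Quotient.mk (inC δ (fun t => (hδ t).nin) (bb_notin f) hq.nin) =
        bp q ((kBot_iff f q).1 hq) :=
    fun hq δ hδ => hb2 _ δ fun t => (kBot_iff f _).1 (hδ t)
  refine ⟨fun p h => tp p ((kTop_iff f p).1 h), fun p h => bp p ((kBot_iff f p).1 h),
    fun x y => if hp : ∀ t, poly x y t ∉ Set.range f.toFun then
      PG.mk (inC (poly x y) hp (bb_notin f) (bb_notin f)) else 1, ?_⟩
  refine ⟨top, bot, top0, bot0, ?_, ?_⟩
  · intro x y _ hp
    rw [dif_pos hp]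
  intro p ht hb
  have hfree : ∀ w, v3 (p 0) (p 1) w ∉ Set.range f.toFun := by
    intro w
    rcases le_total (p 2) w with h | h
    · exact ht w h
    · exact hb w h
  set x := p 0 with hx
  set y := p 1 with hy
  have hT : ∀ q : Eu 3, q 0 = x → q 1 = y → KTop f q := by
    intro q h0 h1 w _
    rw [h0, h1]
    exact hfree w
  have hB : ∀ q : Eu 3, q 0 = x → q 1 = y → KBot f q := by
    intro q h0 h1 w _
    rw [h0, h1]
    exact hfree w
  have g1 : ∀ t, KBot f (sg bb (v3 0 3 (-3)) t) := fun t => KBot_y3 f (by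
    rw [sg_app]; simp [bb]; ring)
  have g2 : ∀ t, KBot f (sg (v3 0 3 (-3)) (v3 x y (-3)) t) := fun t => KBot_z3 f (by
    rw [sg_app]; simp; ring)
  have g3 : ∀ t, sg (v3 x y (-3)) (v3 x y 3) t 0 = x := fun t => by rw [sg_app]; simp; ring
  have g3' : ∀ t, sg (v3 x y (-3)) (v3 x y 3) t 1 = y := fun t => by rw [sg_app]; simp; ring
  have g4 : ∀ t, KTop f (sg (v3 x y 3) (v3 0 3 3) t) := fun t => KTop_z3 f (by
    rw [sg_app]; simp; ring)
  have g5 : ∀ t, KTop f (sg (v3 0 3 3) bb t) := fun t => KTop_y3 f (by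
    rw [sg_app]; simp [bb]; ring)
  have n1 := fun t => (g1 t).nin
  have n2 := fun t => (g2 t).nin
  have n3 := fun t => (hT _ (g3 t) (g3' t)).nin
  have n4 := fun t => (g4 t).nin
  have n5 := fun t => (g5 t).nin
  have tr : ∀ {a b c : Eu 3} (γ : Path a b) (δ : Path b c),
      (∀ t, γ t ∉ Set.range f.toFun) → (∀ t, δ t ∉ Set.range f.toFun) →
        ∀ t, (γ.trans δ) t ∉ Set.range f.toFun := by
    intro a b c γ δ h1 h2 t
    rw [Path.trans_apply]
    split_ifs
    · exact h1 _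
    · exact h2 _
  have n45 := tr _ _ n4 n5
  have n345 := tr _ _ n3 n45
  have n2345 := tr _ _ n2 n345
  have n12345 := tr _ _ n1 n2345
  have hA : KBot f (v3 0 3 (-3)) := KBot_y3 f (by simp)
  have hB1 : KBot f (v3 x y (-3)) := KBot_z3 f (by simp)
  have hC : KTop f (v3 x y 3) := KTop_z3 f (by simp)
  have hCB : KBot f (v3 x y 3) := hB _ (by simp) (by simp)
  have hD : KTop f (v3 0 3 3) := KTop_y3 f (by simp)
  have e1 := bot0 hA (sg bb (v3 0 3 (-3))) g1
  have e2 := bot hA hB1 (sg (v3 0 3 (-3)) (v3 x y (-3))) g2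
  have e3 := bot hB1 hCB (sg (v3 x y (-3)) (v3 x y 3)) (fun t => hB _ (g3 t) (g3' t))
  have e4 := top hC hD (sg (v3 x y 3) (v3 0 3 3)) g4
  have e5 := top hD hbT (sg (v3 0 3 3) bb) g5
  have e6 : Path.Homotopic.Quotient.refl _ = tp bb ((kTop_iff f bb).1 hbT) :=
    top0 hbT (Path.refl bb) (fun _ => hbT)
  have g7 : ∀ t, sg (v3 x y 3) p t 0 = x := fun t => by rw [sg_app]; simp [hx]; ring
  have g7' : ∀ t, sg (v3 x y 3) p t 1 = y := fun t => by rw [sg_app]; simp [hy]; ring
  have e7 := top hC ht (sg (v3 x y 3) p) (fun t => hT _ (g7 t) (g7' t))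
  have e8 := bot hCB hb (sg (v3 x y 3) p) (fun t => hB _ (g7 t) (g7' t))
  have n12345' : ∀ t, poly x y t ∉ Set.range f.toFun := n12345
  rw [dif_pos n12345']
  have e9 : inC (poly x y) n12345' (bb_notin f) (bb_notin f) =
      (inC _ n1 (bb_notin f) hA.nin).trans ((inC _ n2 hA.nin hB1.nin).trans
        ((inC _ n3 hB1.nin hC.nin).trans ((inC _ n4 hC.nin hD.nin).trans
          (inC _ n5 hD.nin (bb_notin f))))) := by
    have i4 := inC_trans _ _ n45 n4 n5 hC.nin hD.nin (bb_notin f)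
    have i3 := inC_trans _ _ n345 n3 n45 hB1.nin hC.nin (bb_notin f)
    have i2 := inC_trans _ _ n2345 n2 n345 hA.nin hB1.nin (bb_notin f)
    have i1 := inC_trans _ _ n12345 n1 n2345 (bb_notin f) hA.nin (bb_notin f)
    rw [i4] at i3
    rw [i3] at i2
    rw [i2] at i1
    exact i1
  rw [e9]
  unfold PG.mk PG.of
  simp only [Path.Homotopic.Quotient.mk_trans]
  rw [← e7, ← e8]
  exact q_alg _ _ _ _ _ _ _ _ _ _ _ _ e1 e2 e3 e4 e5 e6

end Pool.Agent.H414_LQ
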