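import Pool.Agent.H414_LQ.Base2

/-!
JOB F6a.  The framed long knot of a map near the axis.
-/

set_option autoImplicit false

open scoped Topology ContDiff unitInterval

noncomputable section

namespace Pool.Agent.H414_LQ

open Pool.Agent.H414_LK

/-! ### The curve and the vector fields -/

/-- the image of the axis -/
def f6 (M : Eu 3 → Eu 3) (t : ℝ) : Eu 3 := M (v3 t 0 0)

/-- its derivative -/
def d6 (M : Eu 3 → Eu 3) (t : ℝ) : Eu 3 := fderiv ℝ M (v3 t 0 0) (v3 1 0 0)

/-- the image of the first vector field -/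
def w6 (M : Eu 3 → Eu 3) (t : ℝ) : Eu 3 := fderiv ℝ M (v3 t 0 0) (v3 0 1 0)

/-- the unit vector orthogonal to `d` and `w` -/
def u2 (d w : Eu 3) : Eu 3 := (‖cr d w‖)⁻¹ • cr d w

/-- the third unit vector -/
def u1 (d w : Eu 3) : Eu 3 := cr (u2 d w) ((‖d‖)⁻¹ • d)

theorem u2_unit {d w : Eu 3} (h : cr d w ≠ 0) : ‖u2 d w‖ = 1 := by
  unfold u2
  rw [norm_smul, norm_inv, norm_norm, inv_mul_cancel₀ (norm_ne_zero_iff.2 h)]

theorem u2_d (d w : Eu 3) : inner ℝ (u2 d w) d = 0 := by
  unfold u2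
  rw [inner_smul_left, inner_cr_left, mul_zero]

theorem d_ne {d w : Eu 3} (h : cr d w ≠ 0) : d ≠ 0 := by
  rintro rfl
  exact h (cr_zero_left w)

theorem u1_unit {d w : Eu 3} (h : cr d w ≠ 0) : ‖u1 d w‖ = 1 := by
  unfold u1
  apply norm_cr_unit (u2_unit h)
  · rw [norm_smul, norm_inv, norm_norm, inv_mul_cancel₀ (norm_ne_zero_iff.2 (d_ne h))]
  · rw [inner_smul_right, u2_d, mul_zero]

theorem u1_d {d w : Eu 3} (h : cr d w ≠ 0) : inner ℝ (u1 d w) d = 0 := by
  have h1 : inner ℝ (u1 d w) ((‖d‖)⁻¹ • d) = 0 := by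
    unfold u1; exact inner_cr_right _ _
  rw [inner_smul_right] at h1
  exact (mul_eq_zero.1 h1).resolve_left (inv_ne_zero (norm_ne_zero_iff.2 (d_ne h)))

theorem u1_u2 (d w : Eu 3) : inner ℝ (u1 d w) (u2 d w) = 0 := by
  unfold u1; exact inner_cr_left _ _

theorem u2_std : u2 (v3 1 0 0) (v3 0 1 0) = v3 0 0 1 := by
  have hc : cr (v3 1 0 0) (v3 0 1 0) = v3 0 0 1 := by apply ext3 <;> simp [cr]
  have hn : ‖v3 0 0 1‖ = 1 := by
    have : ‖v3 0 0 1‖ ^ 2 = 1 ^ 2 := by rw [normsq3]; simp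
    exact (sq_eq_sq₀ (norm_nonneg _) zero_le_one).1 this
  unfold u2
  rw [hc, hn, inv_one, one_smul]

theorem u1_std : u1 (v3 1 0 0) (v3 0 1 0) = v3 0 1 0 := by
  unfold u1
  rw [u2_std, v3_norm_axis]
  apply ext3 <;> simp [cr]

theorem u2_contDiffAt {E : Type*} [NormedAddCommGroup E] [NormedSpace ℝ E] {d w : E → Eu 3}
    {x : E} (hd : ContDiffAt ℝ ∞ d x) (hw : ContDiffAt ℝ ∞ w x) (h : cr (d x) (w x) ≠ 0) :
    ContDiffAt ℝ ∞ (fun y => u2 (d y) (w y)) x := by
  unfold u2
  have h1 := cr_contDiff hd hw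
  exact ((h1.norm ℝ h).inv (norm_ne_zero_iff.2 h)).smul h1

theorem u1_contDiffAt {E : Type*} [NormedAddCommGroup E] [NormedSpace ℝ E] {d w : E → Eu 3}
    {x : E} (hd : ContDiffAt ℝ ∞ d x) (hw : ContDiffAt ℝ ∞ w x) (h : cr (d x) (w x) ≠ 0) :
    ContDiffAt ℝ ∞ (fun y => u1 (d y) (w y)) x := by
  unfold u1
  exact cr_contDiff (u2_contDiffAt hd hw h)
    (((hd.norm ℝ (d_ne h)).inv (norm_ne_zero_iff.2 (d_ne h))).smul hd)

theorem axis_contDiff : ContDiff ℝ ∞ (fun t : ℝ => v3 t 0 0) :=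
  v3_contDiff' contDiff_id contDiff_const contDiff_const

namespace AM

variable {M : Eu 3 → Eu 3} (h : AM M)
include h

theorem f6_contDiff : ContDiff ℝ ∞ (f6 M) := h.smooth.comp axis_contDiff

theorem fd_contDiff : ContDiff ℝ ∞ (fderiv ℝ M) := h.smooth.fderiv_right (by simp)

theorem d6_contDiff : ContDiff ℝ ∞ (d6 M) :=
  (h.fd_contDiff.comp axis_contDiff).clm_apply contDiff_const

theorem w6_contDiff : ContDiff ℝ ∞ (w6 M) :=
  (h.fd_contDiff.comp axis_contDiff).clm_apply contDiff_const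

theorem cr_ne (t : ℝ) : cr (d6 M t) (w6 M t) ≠ 0 := by
  apply cr_map_ne (h.dinj t)
  intro h0
  have h1 := congrArg (fun v : Eu 3 => v 2) h0
  simp [cr] at h1

theorem f6_hasDerivAt (t : ℝ) : HasDerivAt (f6 M) (d6 M t) t := by
  have h1 : HasDerivAt (fun t : ℝ => v3 t 0 0) (v3 1 0 0) t :=
    v3_hasDerivAt (hasDerivAt_id t) (hasDerivAt_const t 0) (hasDerivAt_const t 0)
  have h2 : HasFDerivAt M (fderiv ℝ M (v3 t 0 0)) (v3 t 0 0) :=
    (h.smooth.differentiable (by simp) _).hasFDerivAt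
  exact h2.comp_hasDerivAt t h1

theorem d6_out {t : ℝ} (ht : 1 ≤ |t|) : d6 M t = v3 1 0 0 := by
  unfold d6; rw [h.dout t ht]; rfl

theorem w6_out {t : ℝ} (ht : 1 ≤ |t|) : w6 M t = v3 0 1 0 := by
  unfold w6; rw [h.dout t ht]; rfl

/-- The knot of a map. -/
def knot6 : LongKnot 3 where
  toFun := f6 M
  smooth := h.f6_contDiff
  embedding := (isClosedEmbedding_of_std h.f6_contDiff.continuous h.inj
    fun t ht => h.out t ht).isEmbedding
  immersion t := by
    rw [(h.f6_hasDerivAt t).deriv]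
    exact d_ne (h.cr_ne t)
  standard t ht := by
    show M (v3 t 0 0) = _
    rw [h.out t ht, axis_eq]
  ball t ht := by simpa [f6] using h.ball t ht

/-- The framed knot of a map. -/
def framed6 : FramedLongKnot 3 where
  toLongKnot := h.knot6
  frame j t := if j.1 = 1 then u1 (d6 M t) (w6 M t) else u2 (d6 M t) (w6 M t)
  frame_smooth j := by
    rcases idx j with hj | hj
    · simp only [hj, if_true]
      rw [contDiff_iff_contDiffAt]
      exact fun t => u1_contDiffAt h.d6_contDiff.contDiffAt h.w6_contDiff.contDiffAt (h.cr_ne t)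
    · have : ¬ ((2 : Fin 3) = 1) := by decide
      simp only [hj, this, if_false]
      rw [contDiff_iff_contDiffAt]
      exact fun t => u2_contDiffAt h.d6_contDiff.contDiffAt h.w6_contDiff.contDiffAt (h.cr_ne t)
  frame_orthonormal t := by
    have h21 : ¬ ((2 : Fin 3) = 1) := by decide
    constructor
    · intro j
      rcases idx j with hj | hj
      · simp only [hj, if_true]; exact u1_unit (h.cr_ne t)
      · simp only [hj, h21, if_false]; exact u2_unit (h.cr_ne t)
    · intro i j hij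
      rcases idx i with hi | hi <;> rcases idx j with hj | hj
      · exact absurd (Subtype.ext (hi.trans hj.symm)) hij
      · simp only [hi, hj, h21, if_true, if_false]; exact u1_u2 _ _
      · simp only [hi, hj, h21, if_true, if_false]
        rw [real_inner_comm]; exact u1_u2 _ _
      · exact absurd (Subtype.ext (hi.trans hj.symm)) hij
  frame_normal j t := by
    have h21 : ¬ ((2 : Fin 3) = 1) := by decide
    have hd : deriv h.knot6.toFun t = d6 M t := (h.f6_hasDerivAt t).deriv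
    rw [hd]
    rcases idx j with hj | hj
    · simp only [hj, if_true]; exact u1_d (h.cr_ne t)
    · simp only [hj, h21, if_false]; exact u2_d _ _
  frame_standard j t ht := by
    have h21 : ¬ ((2 : Fin 3) = 1) := by decide
    rcases idx j with hj | hj
    · simp only [hj, if_true]; rw [h.d6_out ht, h.w6_out ht, u1_std, single_1]
    · simp only [hj, h21, if_false]; rw [h.d6_out ht, h.w6_out ht, u2_std, single_2]

end AM

theorem framed_ext {F F' : FramedLongKnot 3} (h1 : F.toFun = F'.toFun)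
    (h2 : F.frame = F'.frame) : F = F' := by
  obtain ⟨⟨f, a1, a2, a3, a4, a5⟩, fr, b1, b2, b3, b4⟩ := F
  obtain ⟨⟨f', a1', a2', a3', a4', a5'⟩, fr', b1', b2', b3', b4'⟩ := F'
  simp only at h1 h2
  subst h1
  subst h2
  rfl

section family

variable {P : Type} [NormedAddCommGroup P] [NormedSpace ℝ P] (G : P → Eu 3 → Eu 3)

/-- the curve, with the parameter -/
def f7 (x : P × ℝ) : Eu 3 := G x.1 (v3 x.2 0 0)

/-- a vector field, with the parameter -/
def d7 (v : Eu 3) (x : P × ℝ) : Eu 3 :=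
  fderiv ℝ (fun y : P × Eu 3 => G y.1 y.2) (x.1, v3 x.2 0 0) (0, v)

variable {G}

theorem pt_contDiff : ContDiff ℝ ∞ (fun x : P × ℝ => ((x.1, v3 x.2 0 0) : P × Eu 3)) :=
  contDiff_fst.prodMk (axis_contDiff.comp contDiff_snd)

theorem f7_contDiffAt {p : P} {t : ℝ}
    (h : ContDiffAt ℝ ∞ (fun x : P × Eu 3 => G x.1 x.2) (p, v3 t 0 0)) :
    ContDiffAt ℝ ∞ (f7 G) (p, t) :=
  ContDiffAt.comp (f := fun x : P × ℝ => ((x.1, v3 x.2 0 0) : P × Eu 3)) (p, t) h
    pt_contDiff.contDiffAt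

theorem d7_contDiffAt {p : P} {t : ℝ} (v : Eu 3)
    (h : ContDiffAt ℝ ∞ (fun x : P × Eu 3 => G x.1 x.2) (p, v3 t 0 0)) :
    ContDiffAt ℝ ∞ (d7 G v) (p, t) := by
  unfold d7
  have h1 : ContDiffAt ℝ ∞ (fderiv ℝ (fun y : P × Eu 3 => G y.1 y.2)) (p, v3 t 0 0) :=
    h.fderiv_right (m := ∞) (by simp)
  have h2 := ContDiffAt.comp (f := fun x : P × ℝ => ((x.1, v3 x.2 0 0) : P × Eu 3)) (p, t) h1
    pt_contDiff.contDiffAt
  exact h2.clm_apply contDiffAt_const

theorem d7_eq {p : P} {t : ℝ} (v : Eu 3)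
    (h : ContDiffAt ℝ ∞ (fun x : P × Eu 3 => G x.1 x.2) (p, v3 t 0 0)) :
    d7 G v (p, t) = fderiv ℝ (G p) (v3 t 0 0) v := by
  have hd : HasFDerivAt (fun x : P × Eu 3 => G x.1 x.2)
      (fderiv ℝ (fun y : P × Eu 3 => G y.1 y.2) (p, v3 t 0 0)) (p, v3 t 0 0) :=
    (h.differentiableAt (by simp)).hasFDerivAt
  have hc : HasFDerivAt (fun y : Eu 3 => ((p, y) : P × Eu 3))
      (ContinuousLinearMap.inr ℝ P (Eu 3)) (v3 t 0 0) := hasFDerivAt_prodMk_right p (v3 t 0 0)
  have h1 := HasFDerivAt.comp (f := fun y : Eu 3 => ((p, y) : P × Eu 3)) (v3 t 0 0) hd hc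
  have h2 : HasFDerivAt (G p) ((fderiv ℝ (fun y : P × Eu 3 => G y.1 y.2) (p, v3 t 0 0)).comp
      (ContinuousLinearMap.inr ℝ P (Eu 3))) (v3 t 0 0) := h1
  rw [h2.fderiv]
  rfl

end family

/-
PROOF IDEA (TARGET).  This generalises H414_LK/Knot.lean (imported), which does it for a particular
family of maps.
-/
theorem exists_fr : ∃ fr : ∀ M : Eu 3 → Eu 3, AM M → FramedLongKnot 3, Fr fr := by
  refine ⟨fun M h => h.framed6, ⟨fun M h t => rfl, ?_, ?_⟩⟩
  · intro M M' h h' hM
    have hf : f6 M = f6 M' := funext fun t => (hM t).eq_of_nhds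
    have hd : d6 M = d6 M' := funext fun t => by
      unfold d6; rw [(hM t).fderiv_eq]
    have hw : w6 M = w6 M' := funext fun t => by
      unfold w6; rw [(hM t).fderiv_eq]
    apply framed_ext
    · exact hf
    · funext j t
      show (if j.1 = 1 then u1 (d6 M t) (w6 M t) else u2 (d6 M t) (w6 M t)) =
        (if j.1 = 1 then u1 (d6 M' t) (w6 M' t) else u2 (d6 M' t) (w6 M' t))
      rw [hd, hw]
  · intro S _ P _ _ γ hγ G h hG
    have hd : ∀ s t, d7 G (v3 1 0 0) (γ s, t) = d6 (G (γ s)) t := fun s t => d7_eq _ (hG s t)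
    have hw : ∀ s t, d7 G (v3 0 1 0) (γ s, t) = w6 (G (γ s)) t := fun s t => d7_eq _ (hG s t)
    have hcr : ∀ s t, cr (d7 G (v3 1 0 0) (γ s, t)) (d7 G (v3 0 1 0) (γ s, t)) ≠ 0 := by
      intro s t
      rw [hd, hw]
      exact (h s).cr_ne t
    rw [continuous_induced_rng]
    refine Continuous.prodMk ?_ ?_
    · refine continuous_pi fun k => ?_
      apply ContinuousMap.continuous_of_continuous_uncurry
      exact continuous_iteratedDeriv_family hγ k (f7 G) fun s t => f7_contDiffAt (hG s t)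
    · refine continuous_pi fun j => continuous_pi fun k => ?_
      apply ContinuousMap.continuous_of_continuous_uncurry
      have h21 : ¬ ((2 : Fin 3) = 1) := by decide
      rcases idx j with hj | hj
      · have := continuous_iteratedDeriv_family hγ k
          (fun x => u1 (d7 G (v3 1 0 0) x) (d7 G (v3 0 1 0) x))
          fun s t => u1_contDiffAt (d7_contDiffAt _ (hG s t)) (d7_contDiffAt _ (hG s t)) (hcr s t)
        refine this.congr fun z => ?_
        show _ = iteratedDeriv k ((h z.1).framed6.frame j) z.2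
        congr 1
        funext t
        show _ = if j.1 = 1 then u1 (d6 (G (γ z.1)) t) (w6 (G (γ z.1)) t) else
          u2 (d6 (G (γ z.1)) t) (w6 (G (γ z.1)) t)
        rw [if_pos hj, hd, hw]
      · have := continuous_iteratedDeriv_family hγ k
          (fun x => u2 (d7 G (v3 1 0 0) x) (d7 G (v3 0 1 0) x))
          fun s t => u2_contDiffAt (d7_contDiffAt _ (hG s t)) (d7_contDiffAt _ (hG s t)) (hcr s t)
        refine this.congr fun z => ?_
        show _ = iteratedDeriv k ((h z.1).framed6.frame j) z.2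
        congr 1
        funext t
        show _ = if j.1 = 1 then u1 (d6 (G (γ z.1)) t) (w6 (G (γ z.1)) t) else
          u2 (d6 (G (γ z.1)) t) (w6 (G (γ z.1)) t)
        rw [if_neg (by rw [hj]; exact h21), hd, hw]

end Pool.Agent.H414_LQ
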