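import Pool.Agent.H414_LQ.Base2

/-!
JOB F6b.  Composite knots.
-/

set_option autoImplicit false

open scoped Topology ContDiff unitInterval

noncomputable section

namespace Pool.Agent.H414_LQ

open Pool.Agent.H414_LK

/-! ### One tube map -/

section one

variable {g : GK} {ε c r : ℝ}

/-- the scaled domain -/
def F6b_Om (ε c r : ℝ) : Set (Eu 3) := {x | |x 0 - c| ≤ r / 5 → ‖x - v3 (x 0) 0 0‖ < ε * r}

theorem F6b_S0 (x : Eu 3) : (r⁻¹ • (x - v3 c 0 0) : Eu 3) 0 = (x 0 - c) / r := by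
  simp; ring

theorem F6b_S_axis (t : ℝ) : (r⁻¹ • (v3 t 0 0 - v3 c 0 0) : Eu 3) = v3 ((t - c) / r) 0 0 := by
  apply ext3 <;> simp; ring

theorem F6b_abs (hr : 0 < r) (a b : ℝ) : |(a - c) / r| ≤ b ↔ |a - c| ≤ r * b := by
  rw [abs_div, abs_of_pos hr, div_le_iff₀ hr, mul_comm]

theorem F6b_abs' (hr : 0 < r) (a b : ℝ) : b ≤ |(a - c) / r| ↔ r * b ≤ |a - c| := by
  rw [abs_div, abs_of_pos hr, le_div_iff₀ hr, mul_comm]

theorem F6b_mem_Om (hr : 0 < r) {x : Eu 3} (hx : x ∈ F6b_Om ε c r) :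
    (r⁻¹ • (x - v3 c 0 0) : Eu 3) ∈ Om ε := by
  intro h
  rw [F6b_S0] at h ⊢
  rw [F6b_abs hr] at h
  have h1 := hx (by linarith)
  have h2 : (r⁻¹ • (x - v3 c 0 0) : Eu 3) - v3 ((x 0 - c) / r) 0 0 =
      r⁻¹ • (x - v3 (x 0) 0 0) := by
    apply ext3 <;> simp; ring
  rw [h2, norm_smul, norm_inv, Real.norm_eq_abs, abs_of_pos hr, inv_mul_lt_iff₀ hr]
  linarith

theorem F6b_axis_mem (T : TubeF g ε) (hr : 0 < r) (t : ℝ) : v3 t 0 0 ∈ F6b_Om ε c r := by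
  intro _
  have : (v3 t 0 0 : Eu 3) - v3 ((v3 t 0 0 : Eu 3) 0) 0 0 = 0 := by simp
  rw [this, norm_zero]
  exact mul_pos T.pos hr

theorem F6b_out (T : TubeF g ε) (hr : 0 < r) {x : Eu 3} (hx : r / 6 ≤ |x 0 - c|) :
    g.tub c r x = x := by
  unfold GK.tub
  rw [T.out _ (by rw [F6b_S0, F6b_abs' hr]; linarith), smul_smul, mul_inv_cancel₀ hr.ne', one_smul]
  abel

theorem F6b_axis (T : TubeF g ε) (t : ℝ) :
    g.tub c r (v3 t 0 0) = v3 c 0 0 + r • g.be ((t - c) / r) := by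
  unfold GK.tub
  rw [F6b_S_axis, T.tu_axis]

theorem F6b_near (T : TubeF g ε) (hr : 0 < r) {x : Eu 3} (hx : x ∈ F6b_Om ε c r)
    (h : |x 0 - c| ≤ r / 6) :
    ‖g.tub c r x - (v3 c 0 0 + r • g.be ((x 0 - c) / r))‖ ≤ r / 400 := by
  have h1 := T.near _ (F6b_mem_Om hr hx) (by rw [F6b_S0, F6b_abs hr]; linarith)
  rw [F6b_S0] at h1
  unfold GK.tub
  rw [add_sub_add_left_eq_sub, ← smul_sub, norm_smul, Real.norm_eq_abs, abs_of_pos hr]
  have := mul_le_mul_of_nonneg_left h1 hr.le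
  linarith

theorem F6b_coord_le (x : Eu 3) (i : Fin 3) : |x i| ≤ ‖x‖ := by
  have h := normsq3 x
  rw [← abs_of_nonneg (norm_nonneg x), ← sq_le_sq, h]
  fin_cases i
  · show x 0 ^ 2 ≤ _
    nlinarith [sq_nonneg (x 1), sq_nonneg (x 2)]
  · show x 1 ^ 2 ≤ _
    nlinarith [sq_nonneg (x 0), sq_nonneg (x 2)]
  · show x 2 ^ 2 ≤ _
    nlinarith [sq_nonneg (x 1), sq_nonneg (x 0)]

theorem F6b_axis_slab (T : TubeF g ε) (hr : 0 < r) {t : ℝ} (h : |t - c| ≤ r / 6) :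
    |g.tub c r (v3 t 0 0) 0 - c| ≤ r / 6 := by
  rw [F6b_axis T]
  have h1 := T.be_0 ((t - c) / r) (by rw [F6b_abs hr]; linarith)
  simp only [add_app, v3_0, smul_app, add_sub_cancel_left]
  rw [abs_mul, abs_of_pos hr]
  have := mul_le_mul_of_nonneg_left h1 hr.le
  linarith

theorem F6b_slab (T : TubeF g ε) (hr : 0 < r) {x : Eu 3} (hx : x ∈ F6b_Om ε c r)
    (h : |x 0 - c| ≤ r / 6) : |g.tub c r x 0 - c| < r / 5 := by
  have h1 := F6b_near T hr hx h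
  have h2 := (F6b_coord_le _ 0).trans h1
  have h3 := T.be_0 ((x 0 - c) / r) (by rw [F6b_abs hr]; linarith)
  simp only [sub_app, add_app, v3_0, smul_app] at h2
  have h4 : |r * g.be ((x 0 - c) / r) 0| ≤ r * (1 / 6) := by
    rw [abs_mul, abs_of_pos hr]
    exact mul_le_mul_of_nonneg_left h3 hr.le
  rw [abs_le] at h2 h4
  rw [abs_lt]
  constructor <;> linarith [h2.1, h2.2, h4.1, h4.2]

theorem F6b_norm (T : TubeF g ε) (hr : 0 < r) {x : Eu 3} (hx : x ∈ F6b_Om ε c r)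
    (h : |x 0 - c| ≤ r / 6) : ‖g.tub c r x‖ ≤ |c| + r / 4 := by
  have h1 := F6b_near T hr hx h
  have h3 := T.be_nm ((x 0 - c) / r) (by rw [F6b_abs hr]; linarith)
  have h4 : ‖(v3 c 0 0 : Eu 3)‖ = |c| := by
    have := normsq3 (v3 c 0 0)
    simp only [v3_0, v3_1, v3_2] at this
    rw [← sq_eq_sq₀ (norm_nonneg _) (abs_nonneg _), this, sq_abs]
    ring
  have h5 : ‖r • g.be ((x 0 - c) / r)‖ ≤ r * (11 / 50) := by
    rw [norm_smul, Real.norm_eq_abs, abs_of_pos hr]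
    exact mul_le_mul_of_nonneg_left h3 hr.le
  have h6 : g.tub c r x = (g.tub c r x - (v3 c 0 0 + r • g.be ((x 0 - c) / r))) +
      (v3 c 0 0 + r • g.be ((x 0 - c) / r)) := by abel
  rw [h6]
  refine (norm_add_le _ _).trans ?_
  have h7 := norm_add_le (v3 c 0 0 : Eu 3) (r • g.be ((x 0 - c) / r))
  linarith

theorem F6b_inj (T : TubeF g ε) (hr : 0 < r) : Set.InjOn (g.tub c r) (F6b_Om ε c r) := by
  intro x hx y hy hxy
  unfold GK.tub at hxy
  have h1 := add_left_cancel hxy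
  have h2 := smul_right_injective _ hr.ne' h1
  have h3 := T.inj (F6b_mem_Om hr hx) (F6b_mem_Om hr hy) h2
  have h4 := smul_right_injective _ (inv_ne_zero hr.ne') h3
  exact sub_left_injective h4

theorem F6b_smooth (T : TubeF g ε) : ContDiff ℝ ∞ (g.tub c r) := by
  have h1 : ContDiff ℝ ∞ (fun x : Eu 3 => (r⁻¹ • (x - v3 c 0 0) : Eu 3)) :=
    (contDiff_id.sub contDiff_const).const_smul r⁻¹
  have h2 : ContDiff ℝ ∞ (fun x : Eu 3 => (r • g.tu (r⁻¹ • (x - v3 c 0 0)) : Eu 3)) :=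
    (T.st.comp h1).const_smul r
  exact contDiff_const.add h2

theorem F6b_diff (T : TubeF g ε) (x : Eu 3) : DifferentiableAt ℝ (g.tub c r) x :=
  ((F6b_smooth T).differentiable (by simp)) x

theorem F6b_dinj (T : TubeF g ε) (hr : 0 < r) {x : Eu 3} (hx : x ∈ F6b_Om ε c r) :
    Function.Injective (fderiv ℝ (g.tub c r) x) := by
  have h1 := T.dinj _ (F6b_mem_Om hr hx)
  have h2 : HasFDerivAt (fun y : Eu 3 => (r⁻¹ • (y - v3 c 0 0) : Eu 3))
      (r⁻¹ • ContinuousLinearMap.id ℝ (Eu 3) : Eu 3 →L[ℝ] Eu 3) x :=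
    ((hasFDerivAt_id (𝕜 := ℝ) x).sub_const (v3 c 0 0)).const_smul r⁻¹
  have h3 : HasFDerivAt g.tu (fderiv ℝ g.tu (r⁻¹ • (x - v3 c 0 0))) (r⁻¹ • (x - v3 c 0 0)) :=
    ((T.st.differentiable (by simp)) _).hasFDerivAt
  have h4 := (h3.comp x h2).const_smul r
  have h5 : HasFDerivAt (g.tub c r) (r • (fderiv ℝ g.tu (r⁻¹ • (x - v3 c 0 0))).comp
      (r⁻¹ • ContinuousLinearMap.id ℝ (Eu 3) : Eu 3 →L[ℝ] Eu 3) : Eu 3 →L[ℝ] Eu 3) x :=
    h4.const_add (v3 c 0 0)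
  rw [h5.fderiv]
  intro a b hab
  have h6 := h1 (smul_right_injective (Eu 3) hr.ne' hab)
  exact smul_right_injective (Eu 3) (inv_ne_zero hr.ne') h6

/-- the identity near a point -/
theorem F6b_ev (T : TubeF g ε) (hr : 0 < r) {x : Eu 3} (hx : r / 6 < |x 0 - c|) :
    g.tub c r =ᶠ[𝓝 x] id := by
  have h1 : Continuous (fun y : Eu 3 => |y 0 - c|) := by fun_prop
  filter_upwards [(isOpen_lt continuous_const h1).mem_nhds hx] with y hy
  exact F6b_out T hr (le_of_lt hy)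

end one

/-! ### Compositions -/

variable {g : Fin 3 → GK} {ε : ℝ}

theorem F6b_tri {a b p u v : ℝ} (h1 : |p - a| ≤ u) (h2 : |p - b| ≤ v) : |a - b| ≤ u + v := by
  rw [abs_le] at *
  constructor <;> linarith [h1.1, h1.2, h2.1, h2.2]

theorem F6b_chain {M1 M2 : Eu 3 → Eu 3} {x : Eu 3} (h1 : DifferentiableAt ℝ M1 x)
    (h2 : DifferentiableAt ℝ M2 (M1 x)) (i1 : Function.Injective (fderiv ℝ M1 x))
    (i2 : Function.Injective (fderiv ℝ M2 (M1 x))) : DifferentiableAt ℝ (fun y => M2 (M1 y)) x ∧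
      Function.Injective (fderiv ℝ (fun y => M2 (M1 y)) x) := by
  have h3 : HasFDerivAt (fun y => M2 (M1 y)) ((fderiv ℝ M2 (M1 x)).comp (fderiv ℝ M1 x)) x :=
    h2.hasFDerivAt.comp x h1.hasFDerivAt
  refine ⟨h3.differentiableAt, ?_⟩
  rw [h3.fderiv]
  exact i2.comp i1

theorem F6b_P1 (hg : ∀ l, TubeF (g l) ε) {i j k : Fin 3} {θ : Par} (hA : Adm ε i j k θ) (t : ℝ) :
    (g i).tub (θ.1 i) (θ.2 i) (v3 t 0 0) ∈ F6b_Om ε (θ.1 j) (θ.2 j) := by
  have hi := hA.pos i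
  have hj := hA.pos j
  rcases le_total (θ.2 i / 6) |t - θ.1 i| with h | h
  · rw [F6b_out (hg i) hi (by simpa using h)]
    exact F6b_axis_mem (hg j) hj t
  · intro hs
    rcases hA.ij with hd | hd
    · exfalso
      have h1 := F6b_axis_slab (hg i) hi h
      have h2 := F6b_tri h1 hs
      linarith
    · rw [F6b_axis (hg i)]
      have h3 := (hg i).be_nm ((t - θ.1 i) / θ.2 i) (by rw [F6b_abs hi]; linarith)
      set b : Eu 3 := (g i).be ((t - θ.1 i) / θ.2 i) with hb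
      have h4 : (v3 (θ.1 i) 0 0 + θ.2 i • b : Eu 3) -
          v3 ((v3 (θ.1 i) 0 0 + θ.2 i • b : Eu 3) 0) 0 0 = θ.2 i • (v3 0 (b 1) (b 2)) := by
        apply ext3 <;> simp
      rw [h4, norm_smul, Real.norm_eq_abs, abs_of_pos hi]
      have h5 : ‖(v3 0 (b 1) (b 2) : Eu 3)‖ ≤ ‖b‖ := by
        have h6 := normsq3 (v3 0 (b 1) (b 2))
        have h7 := normsq3 b
        simp only [v3_0, v3_1, v3_2] at h6
        rw [← sq_le_sq₀ (norm_nonneg _) (norm_nonneg _), h6, h7]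
        nlinarith [sq_nonneg (b 0)]
      have h8 := mul_le_mul_of_nonneg_left (h5.trans h3) hi.le
      linarith

theorem F6b_P2 (hg : ∀ l, TubeF (g l) ε) {i j k : Fin 3} {θ : Par} (hA : Adm ε i j k θ) {t : ℝ}
    (hs : |(g j).tub (θ.1 j) (θ.2 j) ((g i).tub (θ.1 i) (θ.2 i) (v3 t 0 0)) 0 - θ.1 k| ≤
      θ.2 k / 5) :
    (g i).tub (θ.1 i) (θ.2 i) (v3 t 0 0) = v3 t 0 0 ∧
      (g j).tub (θ.1 j) (θ.2 j) ((g i).tub (θ.1 i) (θ.2 i) (v3 t 0 0)) = v3 t 0 0 := by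
  have hi := hA.pos i
  have hj := hA.pos j
  have hk := hA.pos k
  have hP1 := F6b_P1 hg hA t
  set P1 : Eu 3 := (g i).tub (θ.1 i) (θ.2 i) (v3 t 0 0) with hP1d
  rcases le_total (θ.2 j / 6) |P1 0 - θ.1 j| with h | h
  · rw [F6b_out (hg j) hj h] at hs ⊢
    rcases le_total (θ.2 i / 6) |t - θ.1 i| with h' | h'
    · have h1 : P1 = v3 t 0 0 := F6b_out (hg i) hi (by simpa using h')
      exact ⟨h1, h1⟩
    · exfalso
      have h1 := F6b_axis_slab (hg i) hi h'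
      rw [← hP1d] at h1
      have h2 := F6b_tri h1 hs
      have := hA.ik
      linarith
  · exfalso
    have h1 := F6b_slab (hg j) hj hP1 h
    have h2 : |θ.1 j - θ.1 k| < θ.2 j / 5 + θ.2 k / 5 := by
      rw [abs_lt] at h1 ⊢
      rw [abs_le] at hs
      constructor <;> linarith [h1.1, h1.2, hs.1, hs.2]
    have := hA.jk
    linarith

theorem F6b_P2_mem (hg : ∀ l, TubeF (g l) ε) {i j k : Fin 3} {θ : Par} (hA : Adm ε i j k θ)
    (t : ℝ) : (g j).tub (θ.1 j) (θ.2 j) ((g i).tub (θ.1 i) (θ.2 i) (v3 t 0 0)) ∈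
      F6b_Om ε (θ.1 k) (θ.2 k) := by
  intro hs
  have h1 := (F6b_P2 hg hA hs).2
  rw [h1]
  exact F6b_axis_mem (hg k) (hA.pos k) t (by rw [← h1]; exact hs)

theorem F6b_ball1 {g : GK} {c r : ℝ} (T : TubeF g ε) (hr : 0 < r) (hb : |c| + r / 4 ≤ 1)
    {x : Eu 3} (hx : x ∈ F6b_Om ε c r) (h1 : ‖x‖ ≤ 1) : ‖g.tub c r x‖ ≤ 1 := by
  rcases le_total (r / 6) |x 0 - c| with h | h
  · rw [F6b_out T hr h]; exact h1
  · exact (F6b_norm T hr hx h).trans hb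

theorem F6b_far {c r t : ℝ} (hr : 0 < r) (hb : |c| + r / 4 ≤ 1) (ht : 1 ≤ |t|) :
    r / 6 < |t - c| := by
  have h1 := abs_sub_abs_le_abs_sub t c
  linarith

theorem Mc_AM (hg : ∀ l, TubeF (g l) ε) {i j k : Fin 3} (hij : i ≠ j) (hik : i ≠ k) (hjk : j ≠ k)
    {θ : Par} (hA : Adm ε i j k θ) : AM (Mc g i j k θ) where
  smooth := (F6b_smooth (hg k)).comp ((F6b_smooth (hg j)).comp (F6b_smooth (hg i)))
  inj := by
    intro t t' h
    have h1 := F6b_inj (hg k) (hA.pos k) (F6b_P2_mem hg hA t) (F6b_P2_mem hg hA t') h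
    have h2 := F6b_inj (hg j) (hA.pos j) (F6b_P1 hg hA t) (F6b_P1 hg hA t') h1
    have h3 := F6b_inj (hg i) (hA.pos i) (F6b_axis_mem (hg i) (hA.pos i) t)
      (F6b_axis_mem (hg i) (hA.pos i) t') h2
    have h4 := congrArg (fun v : Eu 3 => v 0) h3
    simpa using h4
  dinj := by
    intro t
    have h1 := F6b_dinj (c := θ.1 i) (r := θ.2 i) (hg i) (hA.pos i)
      (F6b_axis_mem (hg i) (hA.pos i) t)
    have h2 := F6b_chain (F6b_diff (hg i) _) (F6b_diff (hg j) _) h1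
      (F6b_dinj (hg j) (hA.pos j) (F6b_P1 hg hA t))
    exact (F6b_chain (M2 := (g k).tub (θ.1 k) (θ.2 k)) h2.1 (F6b_diff (hg k) _) h2.2
      (F6b_dinj (hg k) (hA.pos k) (F6b_P2_mem hg hA t))).2
  out := by
    intro t ht
    have h1 : ∀ l, (g l).tub (θ.1 l) (θ.2 l) (v3 t 0 0) = v3 t 0 0 := fun l =>
      F6b_out (hg l) (hA.pos l) (by simpa using (F6b_far (hA.pos l) (hA.bd l) ht).le)
    show (g k).tub _ _ ((g j).tub _ _ ((g i).tub _ _ (v3 t 0 0))) = _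
    rw [h1 i, h1 j, h1 k]
  dout := by
    intro t ht
    have h1 : ∀ l, (g l).tub (θ.1 l) (θ.2 l) =ᶠ[𝓝 (v3 t 0 0)] id := fun l =>
      F6b_ev (hg l) (hA.pos l) (by simpa using F6b_far (hA.pos l) (hA.bd l) ht)
    have h2 : Mc g i j k θ =ᶠ[𝓝 (v3 t 0 0)] id := by
      filter_upwards [h1 i, h1 j, h1 k] with x hi hj hk
      show (g k).tub _ _ ((g j).tub _ _ ((g i).tub _ _ x)) = _
      rw [hi, id, hj, id, hk, id]
    rw [h2.fderiv_eq, fderiv_id]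
  ball := by
    intro t ht
    have h0 : ‖(v3 t 0 0 : Eu 3)‖ ≤ 1 := by
      have := normsq3 (v3 t 0 0)
      simp only [v3_0, v3_1, v3_2] at this
      have h1 : t ^ 2 ≤ 1 := by rw [sq_le_one_iff_abs_le_one]; exact ht
      nlinarith [norm_nonneg (v3 t 0 0 : Eu 3)]
    exact F6b_ball1 (hg k) (hA.pos k) (hA.bd k) (F6b_P2_mem hg hA t)
      (F6b_ball1 (hg j) (hA.pos j) (hA.bd j) (F6b_P1 hg hA t)
        (F6b_ball1 (hg i) (hA.pos i) (hA.bd i) (F6b_axis_mem (hg i) (hA.pos i) t) h0))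

theorem F6b_tub_joint {g : GK} (T : TubeF g ε) {E : Type*} [NormedAddCommGroup E]
    [NormedSpace ℝ E] {c r : E → ℝ} {f : E → Eu 3} {y : E} (hc : ContDiffAt ℝ ∞ c y)
    (hr : ContDiffAt ℝ ∞ r y) (hf : ContDiffAt ℝ ∞ f y) (h : r y ≠ 0) :
    ContDiffAt ℝ ∞ (fun z => g.tub (c z) (r z) (f z)) y := by
  have h1 : ContDiffAt ℝ ∞ (fun z => v3 (c z) 0 0) y :=
    v3_contDiff hc contDiffAt_const contDiffAt_const
  have h2 : ContDiffAt ℝ ∞ (fun z => ((r z)⁻¹ • (f z - v3 (c z) 0 0) : Eu 3)) y :=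
    (hr.inv h).smul (hf.sub h1)
  have h3 : ContDiffAt ℝ ∞ (fun z => g.tu ((r z)⁻¹ • (f z - v3 (c z) 0 0) : Eu 3)) y :=
    T.st.contDiffAt.comp y h2
  exact h1.add (hr.smul h3)

theorem Mc_smooth (hg : ∀ l, TubeF (g l) ε) (i j k : Fin 3) {θ : Par} (h : ∀ l, θ.2 l ≠ 0)
    (x : Eu 3) : ContDiffAt ℝ ∞ (fun y : Par × Eu 3 => Mc g i j k y.1 y.2) (θ, x) := by
  have hc : ∀ l, ContDiffAt ℝ ∞ (fun y : Par × Eu 3 => y.1.1 l) (θ, x) := by
    intro l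
    exact ((contDiff_apply ℝ ℝ l).comp (contDiff_fst.comp contDiff_fst)).contDiffAt
  have hr : ∀ l, ContDiffAt ℝ ∞ (fun y : Par × Eu 3 => y.1.2 l) (θ, x) := by
    intro l
    exact ((contDiff_apply ℝ ℝ l).comp (contDiff_snd.comp contDiff_fst)).contDiffAt
  have h2 : ContDiffAt ℝ ∞ (fun y : Par × Eu 3 => y.2) (θ, x) := contDiff_snd.contDiffAt
  exact F6b_tub_joint (hg k) (hc k) (hr k) (F6b_tub_joint (hg j) (hc j) (hr j)
    (F6b_tub_joint (hg i) (hc i) (hr i) h2 (h i)) (h j)) (h k)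

theorem Dis.adm {θ : Par} (h : Dis θ) {i j k : Fin 3} (hij : i ≠ j) (hik : i ≠ k) (hjk : j ≠ k) :
    Adm ε i j k θ where
  pos := h.pos
  le := h.le
  bd := h.bd
  ij := Or.inl (h.dis i j hij)
  ik := h.dis i k hik
  jk := h.dis j k hjk

theorem F6b_sep {θ : Par} (h : Dis θ) {l l' : Fin 3} (hne : l' ≠ l) {p : ℝ}
    (hp : |p - θ.1 l| ≤ θ.2 l / 5) : θ.2 l' / 6 < |p - θ.1 l'| := by
  have h1 := h.dis l l' hne.symm
  have h2 := F6b_tri hp (le_refl |p - θ.1 l'|)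
  have h3 := h.pos l'
  linarith

theorem F6b_cases {i j k : Fin 3} (hij : i ≠ j) (hik : i ≠ k) (hjk : j ≠ k) (l : Fin 3) :
    l = i ∨ l = j ∨ l = k := by
  revert i j k l
  decide

theorem F6b_loc_id (hg : ∀ l, TubeF (g l) ε) {θ : Par} (hpos : ∀ l, 0 < θ.2 l) (i j k : Fin 3)
    {t : ℝ} (ht : ∀ l, θ.2 l / 6 < |t - θ.1 l|) : Mc g i j k θ =ᶠ[𝓝 (v3 t 0 0)] id := by
  have h1 : ∀ l, (g l).tub (θ.1 l) (θ.2 l) =ᶠ[𝓝 (v3 t 0 0)] id := fun l =>
    F6b_ev (hg l) (hpos l) (by simpa using ht l)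
  filter_upwards [h1 i, h1 j, h1 k] with x hi hj hk
  show (g k).tub _ _ ((g j).tub _ _ ((g i).tub _ _ x)) = _
  rw [hi, id, hj, id, hk, id]

theorem F6b_loc (hg : ∀ l, TubeF (g l) ε) {θ : Par} (h : Dis θ) {i j k : Fin 3}
    (hij : i ≠ j) (hik : i ≠ k) (hjk : j ≠ k) {l : Fin 3} {t : ℝ} (ht : |t - θ.1 l| ≤ θ.2 l / 6) :
    Mc g i j k θ =ᶠ[𝓝 (v3 t 0 0)] (g l).tub (θ.1 l) (θ.2 l) := by
  have hl := h.pos l
  have h1 : ∀ l', l' ≠ l → (g l').tub (θ.1 l') (θ.2 l') =ᶠ[𝓝 (v3 t 0 0)] id := fun l' hne =>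
    F6b_ev (hg l') (h.pos l') (by simpa using F6b_sep h hne (ht.trans (by linarith)))
  have h2 : ∀ l', l' ≠ l → ∀ᶠ x in 𝓝 (v3 t 0 0), (g l').tub (θ.1 l') (θ.2 l')
      ((g l).tub (θ.1 l) (θ.2 l) x) = (g l).tub (θ.1 l) (θ.2 l) x := by
    intro l' hne
    have h3 : (g l').tub (θ.1 l') (θ.2 l') =ᶠ[𝓝 ((g l).tub (θ.1 l) (θ.2 l) (v3 t 0 0))] id :=
      F6b_ev (hg l') (h.pos l') (F6b_sep h hne
        ((F6b_axis_slab (hg l) hl ht).trans (by linarith)))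
    exact h3.comp_tendsto ((F6b_smooth (hg l)).continuous.tendsto _)
  rcases F6b_cases hij hik hjk l with rfl | rfl | rfl
  · filter_upwards [h2 j hij.symm, h2 k hik.symm] with x hj hk
    show (g k).tub _ _ ((g j).tub _ _ ((g l).tub _ _ x)) = _
    rw [hj, hk]
  · filter_upwards [h1 i hij, h2 k hjk.symm] with x hi hk
    show (g k).tub _ _ ((g l).tub _ _ ((g i).tub _ _ x)) = _
    rw [hi, id, hk]
  · filter_upwards [h1 i hik, h1 j hjk] with x hi hj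
    show (g l).tub _ _ ((g j).tub _ _ ((g i).tub _ _ x)) = _
    rw [hi, id, hj, id]

theorem Mc_comm (hg : ∀ l, TubeF (g l) ε) {θ : Par} (h : Dis θ) {i j k i' j' k' : Fin 3}
    (hij : i ≠ j) (hik : i ≠ k) (hjk : j ≠ k) (hij' : i' ≠ j') (hik' : i' ≠ k') (hjk' : j' ≠ k')
    (t : ℝ) : Mc g i j k θ =ᶠ[𝓝 (v3 t 0 0)] Mc g i' j' k' θ := by
  by_cases hc : ∀ l, θ.2 l / 6 < |t - θ.1 l|
  · exact (F6b_loc_id hg h.pos i j k hc).trans (F6b_loc_id hg h.pos i' j' k' hc).symm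
  · push Not at hc
    obtain ⟨l, hl⟩ := hc
    exact (F6b_loc hg h hij hik hjk hl).trans (F6b_loc hg h hij' hik' hjk' hl).symm

/-- the points of a disjoint knot, near one of its three parts -/
theorem rng_slab (hg : ∀ l, TubeF (g l) ε) {θ : Par} (h : Dis θ) {i j k : Fin 3}
    (hij : i ≠ j) (hik : i ≠ k) (hjk : j ≠ k) (l : Fin 3) {p : Eu 3}
    (hp : |p 0 - θ.1 l| ≤ θ.2 l / 5) :
    (∃ t : ℝ, Mc g i j k θ (v3 t 0 0) = p) ↔
      (θ.2 l)⁻¹ • (p - v3 (θ.1 l) 0 0) ∈ Set.range (g l).be := by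
  have hl := h.pos l
  constructor
  · rintro ⟨t, ht⟩
    by_cases hc : ∀ l, θ.2 l / 6 < |t - θ.1 l|
    · have h1 := (F6b_loc_id hg h.pos i j k hc).eq_of_nhds
      rw [ht] at h1
      have h2 : p = v3 t 0 0 := h1
      refine ⟨(t - θ.1 l) / θ.2 l, ?_⟩
      rw [(hg l).be_std _ (by rw [F6b_abs' hl]; linarith [hc l]), h2, F6b_S_axis]
    · push Not at hc
      obtain ⟨l', hl'⟩ := hc
      have h1 := (F6b_loc hg h hij hik hjk hl').eq_of_nhds
      rw [ht] at h1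
      by_cases hll : l' = l
      · subst hll
        refine ⟨(t - θ.1 l') / θ.2 l', ?_⟩
        rw [h1, F6b_axis (hg l'), add_sub_cancel_left, smul_smul, inv_mul_cancel₀ hl.ne', one_smul]
      · exfalso
        have h2 := F6b_axis_slab (hg l') (h.pos l') hl'
        rw [← h1] at h2
        have h3 := F6b_sep h hll hp
        linarith
  · rintro ⟨u, hu⟩
    have hpe : p = v3 (θ.1 l) 0 0 + θ.2 l • (g l).be u := by
      rw [hu, smul_smul, mul_inv_cancel₀ hl.ne', one_smul]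
      abel
    refine ⟨θ.1 l + θ.2 l * u, ?_⟩
    have hdiv : (θ.1 l + θ.2 l * u - θ.1 l) / θ.2 l = u := by
      field_simp; ring
    rcases le_or_gt |u| (1 / 6) with h6 | h6
    · have h1 : |θ.1 l + θ.2 l * u - θ.1 l| ≤ θ.2 l / 6 := by
        rw [add_sub_cancel_left, abs_mul, abs_of_pos hl]
        have := mul_le_mul_of_nonneg_left h6 hl.le
        linarith
      rw [(F6b_loc hg h hij hik hjk h1).eq_of_nhds, F6b_axis (hg l), hdiv, hpe]
    · have h2 : p = v3 (θ.1 l + θ.2 l * u) 0 0 := by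
        rw [hpe, (hg l).be_std u h6.le]
        apply ext3 <;> simp
      have h3 : p 0 = θ.1 l + θ.2 l * u := by rw [h2]; rfl
      rw [h3] at hp
      have h4 : ∀ l', θ.2 l' / 6 < |θ.1 l + θ.2 l * u - θ.1 l'| := by
        intro l'
        by_cases hll : l' = l
        · subst hll
          rw [add_sub_cancel_left, abs_mul, abs_of_pos hl]
          have := mul_lt_mul_of_pos_left h6 hl
          linarith
        · exact F6b_sep h hll hp
      rw [(F6b_loc_id hg h.pos i j k h4).eq_of_nhds, h2]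
      rfl

/-- the points of a disjoint knot, elsewhere -/
theorem rng_out (hg : ∀ l, TubeF (g l) ε) {θ : Par} (h : Dis θ) {i j k : Fin 3}
    (hij : i ≠ j) (hik : i ≠ k) (hjk : j ≠ k) {p : Eu 3}
    (hp : ∀ l, θ.2 l / 6 < |p 0 - θ.1 l|) :
    (∃ t : ℝ, Mc g i j k θ (v3 t 0 0) = p) ↔ p 1 = 0 ∧ p 2 = 0 := by
  constructor
  · rintro ⟨t, ht⟩
    by_cases hc : ∀ l, θ.2 l / 6 < |t - θ.1 l|
    · have h1 := (F6b_loc_id hg h.pos i j k hc).eq_of_nhds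
      rw [ht] at h1
      have h2 : p = v3 t 0 0 := h1
      rw [h2]
      exact ⟨rfl, rfl⟩
    · exfalso
      push Not at hc
      obtain ⟨l', hl'⟩ := hc
      have h1 := (F6b_loc hg h hij hik hjk hl').eq_of_nhds
      rw [ht] at h1
      have h2 := F6b_axis_slab (hg l') (h.pos l') hl'
      rw [← h1] at h2
      have := hp l'
      linarith
  · rintro ⟨h1, h2⟩
    refine ⟨p 0, ?_⟩
    rw [(F6b_loc_id hg h.pos i j k hp).eq_of_nhds]
    apply ext3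
    · rfl
    · exact h1.symm
    · exact h2.symm

/-- the points of an admissible knot near the part `k` -/
theorem rng_adm_k (hg : ∀ l, TubeF (g l) ε) {i j k : Fin 3} (hij : i ≠ j) (hik : i ≠ k)
    (hjk : j ≠ k) {θ : Par} (hA : Adm ε i j k θ) {p : Eu 3} (hp : |p 0 - θ.1 k| ≤ θ.2 k / 5) :
    (∃ t : ℝ, Mc g i j k θ (v3 t 0 0) = p) ↔
      (θ.2 k)⁻¹ • (p - v3 (θ.1 k) 0 0) ∈ Set.range (g k).be := by
  have hi := hA.pos i
  have hj := hA.pos j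
  have hk := hA.pos k
  constructor
  · rintro ⟨t, ht⟩
    have hs : |(g j).tub (θ.1 j) (θ.2 j) ((g i).tub (θ.1 i) (θ.2 i) (v3 t 0 0)) 0 - θ.1 k| ≤
        θ.2 k / 5 := by
      by_contra hcon
      push Not at hcon
      have h1 : Mc g i j k θ (v3 t 0 0) =
          (g j).tub (θ.1 j) (θ.2 j) ((g i).tub (θ.1 i) (θ.2 i) (v3 t 0 0)) :=
        F6b_out (hg k) hk (by linarith)
      rw [ht] at h1
      rw [← h1] at hcon
      linarith
    have h2 := (F6b_P2 hg hA hs).2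
    have h3 : Mc g i j k θ (v3 t 0 0) = (g k).tub (θ.1 k) (θ.2 k) (v3 t 0 0) := by
      show (g k).tub _ _ ((g j).tub _ _ ((g i).tub _ _ (v3 t 0 0))) = _
      rw [h2]
    rw [ht, F6b_axis (hg k)] at h3
    refine ⟨(t - θ.1 k) / θ.2 k, ?_⟩
    rw [h3, add_sub_cancel_left, smul_smul, inv_mul_cancel₀ hk.ne', one_smul]
  · rintro ⟨u, hu⟩
    have hpe : p = v3 (θ.1 k) 0 0 + θ.2 k • (g k).be u := by
      rw [hu, smul_smul, mul_inv_cancel₀ hk.ne', one_smul]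
      abel
    have hdiv : (θ.1 k + θ.2 k * u - θ.1 k) / θ.2 k = u := by
      field_simp; ring
    have hts : |θ.1 k + θ.2 k * u - θ.1 k| ≤ θ.2 k / 5 := by
      rcases le_or_gt |u| (1 / 6) with h6 | h6
      · rw [add_sub_cancel_left, abs_mul, abs_of_pos hk]
        have := mul_le_mul_of_nonneg_left h6 hk.le
        linarith
      · have h3 : p 0 = θ.1 k + θ.2 k * u := by
          rw [hpe, (hg k).be_std u h6.le]; simp
        rw [← h3]; exact hp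
    refine ⟨θ.1 k + θ.2 k * u, ?_⟩
    have h1 : (g i).tub (θ.1 i) (θ.2 i) (v3 (θ.1 k + θ.2 k * u) 0 0) =
        v3 (θ.1 k + θ.2 k * u) 0 0 := by
      apply F6b_out (hg i) hi
      have h4 := F6b_tri hts (le_refl |θ.1 k + θ.2 k * u - θ.1 i|)
      rw [abs_sub_comm] at h4
      have h5 := hA.ik
      rw [v3_0]
      linarith
    have h2 : (g j).tub (θ.1 j) (θ.2 j) (v3 (θ.1 k + θ.2 k * u) 0 0) =
        v3 (θ.1 k + θ.2 k * u) 0 0 := by
      apply F6b_out (hg j) hj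
      have h4 := F6b_tri hts (le_refl |θ.1 k + θ.2 k * u - θ.1 j|)
      rw [abs_sub_comm] at h4
      have h5 := hA.jk
      rw [v3_0]
      linarith
    show (g k).tub _ _ ((g j).tub _ _ ((g i).tub _ _ _)) = _
    rw [h1, h2, F6b_axis (hg k), hdiv, hpe]

/-- the points of an admissible knot near the part `j` are close to the knot `j` -/
theorem rng_adm_j (hg : ∀ l, TubeF (g l) ε) {i j k : Fin 3} (hij : i ≠ j) (hik : i ≠ k)
    (hjk : j ≠ k) {θ : Par} (hA : Adm ε i j k θ) {p : Eu 3} (hp : |p 0 - θ.1 j| ≤ θ.2 j / 5)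
    (h : ∃ t : ℝ, Mc g i j k θ (v3 t 0 0) = p) :
    ∃ u : ℝ, ‖(θ.2 j)⁻¹ • (p - v3 (θ.1 j) 0 0) - (g j).be u‖ ≤ 1 / 100 := by
  have hi := hA.pos i
  have hj := hA.pos j
  have hk := hA.pos k
  obtain ⟨t, ht⟩ := h
  have hP1 := F6b_P1 hg hA t
  have hP2 := F6b_P2_mem hg hA t
  have ht' : (g k).tub (θ.1 k) (θ.2 k) ((g j).tub (θ.1 j) (θ.2 j)
      ((g i).tub (θ.1 i) (θ.2 i) (v3 t 0 0))) = p := ht
  set P1 : Eu 3 := (g i).tub (θ.1 i) (θ.2 i) (v3 t 0 0) with hP1d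
  set P2 : Eu 3 := (g j).tub (θ.1 j) (θ.2 j) P1 with hP2d
  -- the point is not in the part `k`
  have hkk : θ.2 k / 6 ≤ |P2 0 - θ.1 k| := by
    by_contra hcon
    push Not at hcon
    have h1 := F6b_slab (hg k) hk hP2 hcon.le
    rw [ht'] at h1
    have h2 : |θ.1 j - θ.1 k| < θ.2 j / 5 + θ.2 k / 5 := by
      rw [abs_lt] at h1 ⊢
      rw [abs_le] at hp
      constructor <;> linarith [h1.1, h1.2, hp.1, hp.2]
    have := hA.jk
    linarith
  rw [F6b_out (hg k) hk hkk] at ht'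
  refine ⟨(P1 0 - θ.1 j) / θ.2 j, ?_⟩
  rcases le_total |P1 0 - θ.1 j| (θ.2 j / 6) with hc | hc
  · have h1 := F6b_near (hg j) hj hP1 hc
    rw [← hP2d, ht'] at h1
    have h2 : (θ.2 j)⁻¹ • (p - v3 (θ.1 j) 0 0) - (g j).be ((P1 0 - θ.1 j) / θ.2 j) =
        (θ.2 j)⁻¹ • (p - (v3 (θ.1 j) 0 0 + θ.2 j • (g j).be ((P1 0 - θ.1 j) / θ.2 j))) := by
      rw [← sub_sub, smul_sub (θ.2 j)⁻¹ (p - v3 (θ.1 j) 0 0), smul_smul, inv_mul_cancel₀ hj.ne',
        one_smul]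
    rw [h2, norm_smul, norm_inv, Real.norm_eq_abs, abs_of_pos hj, inv_mul_le_iff₀ hj]
    linarith
  · have h1 : P2 = P1 := F6b_out (hg j) hj hc
    rw [h1] at ht'
    rw [ht'] at hP1 hc ⊢
    have h2 := hP1 hp
    rw [(hg j).be_std _ (by rw [F6b_abs' hj]; linarith)]
    have h3 : (θ.2 j)⁻¹ • (p - v3 (θ.1 j) 0 0) - v3 ((p 0 - θ.1 j) / θ.2 j) 0 0 =
        (θ.2 j)⁻¹ • (p - v3 (p 0) 0 0) := by
      apply ext3 <;> simp; ring
    rw [h3, norm_smul, norm_inv, Real.norm_eq_abs, abs_of_pos hj, inv_mul_le_iff₀ hj]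
    have h4 := (hg j).le
    have h5 := mul_le_mul_of_nonneg_right h4 hj.le
    linarith

end Pool.Agent.H414_LQ
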