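import Pool.Agent.H414_LQ.Base

/-!
JOB F7a.  Isotopy extension, forward version.
-/

set_option autoImplicit false

open scoped Topology ContDiff unitInterval

noncomputable section

namespace Pool.Agent.H414_LQ

open Pool.Agent.H414_LK

/-- The composition of the elementary moves, in the forward order. -/
def fmoves (L : ℝ) (N : ℕ) (H : I → LongKnot 3) : ℕ → I × Eu 3 → Eu 3
  | 0, w => w.2
  | k + 1, w => emove L (H (frac N k * w.1)).toFun (H (frac N (k + 1) * w.1)).toFun
      (fmoves L N H k w)

theorem lsub_far {f : ℝ → Eu 3} (hf : Std f) {L : ℝ} (hL : 2 ≤ L)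
    (hexp : ∀ u v, |u - v| ≤ L * ‖f u - f v‖) {a : ℝ} (ha : |a| = 2) {p : Eu 3}
    (hp : ‖p - v3 a 0 0‖ < 1 / L) : 1 ≤ |lsub L f p| := by
  have hL0 : 0 < L := by linarith
  have h1 : f a = v3 a 0 0 := by
    rw [hf.out a (by rw [ha]; norm_num), axis_eq]
  have h2 := lsub_abs hf hf hL p (f a) 0 (fun u => by simp)
  rw [lsub_apply hf hL hexp, add_zero, h1] at h2
  have h3 : L * ‖p - v3 a 0 0‖ < 1 := by
    have := mul_lt_mul_of_pos_left hp hL0
    rwa [mul_one_div_cancel hL0.ne'] at this
  have h4 : |a| - |lsub L f p| ≤ |lsub L f p - a| := by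
    rw [abs_sub_comm]
    exact abs_sub_abs_le_abs_sub a _
  rw [ha] at h4
  linarith

theorem emove_cont {L : ℝ} (hL : 2 ≤ L) {A B : I → LongKnot 3} (hA : Continuous A)
    (hB : Continuous B) {G : I × Eu 3 → Eu 3} (hG : Continuous G) :
    Continuous (fun w : I × Eu 3 => emove L (A w.1).toFun (B w.1).toFun (G w)) := by
  have hl0 : Continuous (fun w : I × Eu 3 => lsub L (A w.1).toFun w.2) :=
    continuous_lsub hA hL
  have hp : Continuous (fun w : I × Eu 3 => (w.1, G w)) := continuous_fst.prodMk hG
  have hl : Continuous (fun w : I × Eu 3 => lsub L (A w.1).toFun (G w)) :=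
    Continuous.comp (g := fun w : I × Eu 3 => lsub L (A w.1).toFun w.2)
      (f := fun w : I × Eu 3 => (w.1, G w)) hl0 hp
  have hq : Continuous (fun w : I × Eu 3 => (w.1, lsub L (A w.1).toFun (G w))) :=
    continuous_fst.prodMk hl
  have c1 : Continuous (fun w : I × Eu 3 => (B w.1).toFun (lsub L (A w.1).toFun (G w))) :=
    (continuous_eval hB).comp hq
  have c0 : Continuous (fun w : I × Eu 3 => (A w.1).toFun (lsub L (A w.1).toFun (G w))) :=
    (continuous_eval hA).comp hq
  exact hG.add (c1.sub c0)

/-
PROOF IDEA (TARGET).  `H414_LK/Isotopy.lean` (imported) proves a backward version for families over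
the square, `isotopy_extension`, as a composition of `N` elementary moves `emove L f f'`
(`emove L f f' p = p + f' (lsub L f p) - f (lsub L f p)`), see `moves`.  Here compose the moves in the
other order: `F₀ (s, p) = p`, `F_{k+1} (s, p) = emove L (H (frac N k * s)) (H (frac N (k+1) * s)) (F_k (s, p))`,
`F = F_N`; the proof is the same (`exists_expanding`, `exists_close`, `emove_apply`, `emove_inj`,
`emove_base`, `continuous_lsub`).
For the last statement: `lsub L f` is `L`-Lipschitz (`lsub_abs` with `f = f'`), and equal to `u` at
`f u` (`lsub_apply`), `f (±2) = (±2, 0, 0)`; so if `L * δ < 1` and `‖p - (±2, 0, 0)‖ < δ` then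
`|lsub L f p| > 1`, and `emove` fixes `p`, as `f` and `f'` are both standard there (`Std.out`).
-/
theorem isotopy_forward {H : I → LongKnot 3} (hH : Continuous H) :
    ∃ F : I × Eu 3 → Eu 3, Continuous F ∧ (∀ p, F (0, p) = p) ∧
      (∀ s u, F (s, (H 0).toFun u) = (H s).toFun u) ∧
      (∀ s, Function.Injective (fun p => F (s, p))) ∧
      (∀ s (b : Eu 3), b 0 = 0 → 3 ≤ ‖b‖ → F (s, b) = b) ∧
      ∃ δ : ℝ, 0 < δ ∧ ∀ s (p : Eu 3), (‖p - v3 2 0 0‖ < δ ∨ ‖p - v3 (-2) 0 0‖ < δ) →
        F (s, p) = p := by
  obtain ⟨L, hL, hexp⟩ := exists_expanding hH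
  have hL0 : 0 < L := by linarith
  obtain ⟨δ, hδ, hclose⟩ := exists_close hH (show 0 < 1 / (2 * L) by positivity)
  obtain ⟨N, hN⟩ := exists_nat_gt (1 / δ)
  have hN0 : 0 < N := by
    have : (0:ℝ) < N := lt_trans (by positivity) hN
    exact_mod_cast this
  have hNδ : (1:ℝ) / N < δ := by
    rw [div_lt_iff₀ (by exact_mod_cast hN0)]
    rw [div_lt_iff₀ hδ] at hN
    linarith
  refine ⟨fmoves L N H N, ?_, ?_, ?_, ?_, ?_, 1 / L, by positivity, ?_⟩
  · have : ∀ k, Continuous (fmoves L N H k) := by
      intro k
      induction k with
      | zero => exact continuous_snd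
      | succ k ih =>
        have e : fmoves L N H (k + 1) = fun w => emove L (H (frac N k * w.1)).toFun
            (H (frac N (k + 1) * w.1)).toFun (fmoves L N H k w) := rfl
        rw [e]
        have hm1 : Continuous (fun z : I => H (frac N (k + 1) * z)) := hH.comp (by fun_prop)
        have hm0 : Continuous (fun z : I => H (frac N k * z)) := hH.comp (by fun_prop)
        exact emove_cont hL hm0 hm1 ih
    exact this N
  · intro p
    have : ∀ k, fmoves L N H k (0, p) = p := by
      intro k
      induction k with
      | zero => rfl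
      | succ k ih =>
        simp only [fmoves, mul_zero, emove_self]
        exact ih
    exact this N
  · intro s u
    have : ∀ k, fmoves L N H k (s, (H 0).toFun u) = (H (frac N k * s)).toFun u := by
      intro k
      induction k with
      | zero => simp [fmoves, frac_zero]
      | succ k ih =>
        simp only [fmoves]
        rw [ih, emove_apply (H _).std hL (hexp _)]
    have h := this N
    rwa [frac_self hN0, one_mul] at h
  · intro s
    have : ∀ k, Function.Injective (fun p => fmoves L N H k (s, p)) := by
      intro k
      induction k with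
      | zero => exact fun p q h => h
      | succ k ih =>
        intro p q h
        simp only [fmoves] at h
        apply ih
        refine emove_inj (H _).std hL ?_ h
        apply hclose
        have := frac_dist (N := N) k s
        rw [dist_comm]
        exact lt_of_le_of_lt this hNδ
    exact this N
  · intro s b hb0 hb
    have : ∀ k, fmoves L N H k (s, b) = b := by
      intro k
      induction k with
      | zero => rfl
      | succ k ih =>
        simp only [fmoves]
        rw [ih, emove_base (H _).std (H _).std hL b hb0 hb]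
    exact this N
  · intro s p hp
    have hfar : ∀ k, 1 ≤ |lsub L (H (frac N k * s)).toFun p| := by
      intro k
      rcases hp with hp | hp
      · exact lsub_far (H _).std hL (hexp _) (by norm_num) hp
      · exact lsub_far (H _).std hL (hexp _) (by norm_num) hp
    have : ∀ k, fmoves L N H k (s, p) = p := by
      intro k
      induction k with
      | zero => rfl
      | succ k ih =>
        simp only [fmoves]
        rw [ih]
        have h1 := hfar k
        simp [emove, (H _).std.out _ h1]
    exact this N

end Pool.Agent.H414_LQ
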