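import Pool.Agent.H414_LQ.Base2
import Pool.Agent.H414_LQ.F7a

/-!
JOB F7b.  Transport of the fundamental group of the complement along paths of long knots.
-/

set_option autoImplicit false

open scoped Topology ContDiff unitInterval

noncomputable section

namespace Pool.Agent.H414_LQ

open Pool.Agent.H414_LK

/-! ### The space of pairs of a long knot and a point of its complement -/

/-- the base point has first coordinate `0` -/
theorem bb_zero : bb 0 = 0 := rfl

/-- the base point is far from the axis -/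
theorem bb_norm : 3 ≤ ‖bb‖ := by
  have hn : ‖bb‖ ^ 2 = 9 := by rw [normsq3]; simp [bb]; norm_num
  nlinarith [norm_nonneg bb]

/-- Pairs of a long knot and a point of its complement. -/
abbrev F7E : Type := {x : LongKnot 3 × Eu 3 // x.2 ∉ Set.range x.1.toFun}

/-- The section given by the base point. -/
def f7s : C(LongKnot 3, F7E) := ⟨fun f => ⟨(f, bb), bb_notin f⟩, by fun_prop⟩

/-- The inclusion of the fibre. -/
def f7i (f : LongKnot 3) : C(Cp (Set.range f.toFun), F7E) :=
  ⟨fun p => ⟨(f, p.1), p.2⟩, by fun_prop⟩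

/-- Paths are homotopic if there is a continuous family of paths between them. -/
theorem f7_fam {X : Type*} [TopologicalSpace X] {x y : X} {p q : Path x y}
    (F : I × I → X) (hF : Continuous F) (h0 : ∀ t, F (0, t) = p t) (h1 : ∀ t, F (1, t) = q t)
    (hl : ∀ s, F (s, 0) = x) (hr : ∀ s, F (s, 1) = y) : p.Homotopic q := by
  refine ⟨⟨⟨⟨F, hF⟩, h0, h1⟩, ?_⟩⟩
  rintro s t (rfl | ht)
  · show F (s, 0) = p 0
    rw [hl, p.source]
  · rw [Set.mem_singleton_iff] at ht
    subst ht
    show F (s, 1) = p 1
    rw [hr, p.target]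

/-- The two ways around a square are homotopic. -/
theorem f7_square {X : Type*} [TopologicalSpace X] (G : I × I → X) (hG : Continuous G)
    {a b c d : X} (l : Path a b) (r : Path c d) (bt : Path a c) (tp : Path b d)
    (hl : ∀ t, G (0, t) = l t) (hr : ∀ t, G (1, t) = r t) (hb : ∀ s, G (s, 0) = bt s)
    (ht : ∀ s, G (s, 1) = tp s) : (l.trans tp).Homotopic (bt.trans r) := by
  -- the two paths in the square
  let P : Path ((0, 0) : I × I) (1, 1) :=
    Path.trans (y := (0, 1))
      ⟨⟨fun t => (0, t), by fun_prop⟩, rfl, rfl⟩ ⟨⟨fun t => (t, 1), by fun_prop⟩, rfl, rfl⟩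
  let Q : Path ((0, 0) : I × I) (1, 1) :=
    Path.trans (y := (1, 0))
      ⟨⟨fun t => (t, 0), by fun_prop⟩, rfl, rfl⟩ ⟨⟨fun t => (1, t), by fun_prop⟩, rfl, rfl⟩
  have hP : ∀ t, G (P t) = (l.trans tp) t := by
    intro t
    simp only [P, Path.trans_apply]
    split_ifs with h
    · exact hl _
    · exact ht _
  have hQ : ∀ t, G (Q t) = (bt.trans r) t := by
    intro t
    simp only [Q, Path.trans_apply]
    split_ifs with h
    · exact hb _
    · exact hr _
  have hproj : ∀ x : I, Set.projIcc (0 : ℝ) 1 zero_le_one x = x := fun x => Set.projIcc_val _ x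
  let T : I × I → I × I := fun z =>
    (Set.projIcc (0 : ℝ) 1 zero_le_one ((1 - (z.1 : ℝ)) * (P z.2).1 + z.1 * (Q z.2).1),
      Set.projIcc (0 : ℝ) 1 zero_le_one ((1 - (z.1 : ℝ)) * (P z.2).2 + z.1 * (Q z.2).2))
  have hT : Continuous T := by
    have hPc : Continuous fun z : I × I => P z.2 := P.continuous.comp continuous_snd
    have hQc : Continuous fun z : I × I => Q z.2 := Q.continuous.comp continuous_snd
    refine Continuous.prodMk (continuous_projIcc.comp ?_) (continuous_projIcc.comp ?_)
    · fun_prop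
    · fun_prop
  have hT0 : ∀ t, T (0, t) = P t := by
    intro t
    apply Prod.ext
    · simp only [T, Set.Icc.coe_zero, sub_zero, one_mul, zero_mul, add_zero]
      exact hproj _
    · simp only [T, Set.Icc.coe_zero, sub_zero, one_mul, zero_mul, add_zero]
      exact hproj _
  have hT1 : ∀ t, T (1, t) = Q t := by
    intro t
    apply Prod.ext
    · simp only [T, Set.Icc.coe_one, sub_self, one_mul, zero_mul, zero_add]
      exact hproj _
    · simp only [T, Set.Icc.coe_one, sub_self, one_mul, zero_mul, zero_add]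
      exact hproj _
  have hTl : ∀ s, T (s, 0) = (0, 0) := by
    intro s
    apply Prod.ext
    · simp only [T, P.source, Q.source, Set.Icc.coe_zero, mul_zero, add_zero]
      exact hproj 0
    · simp only [T, P.source, Q.source, Set.Icc.coe_zero, mul_zero, add_zero]
      exact hproj 0
  have hTr : ∀ s, T (s, 1) = (1, 1) := by
    intro s
    apply Prod.ext
    · simp only [T, P.target, Q.target, Set.Icc.coe_one, mul_one, sub_add_cancel]
      exact hproj 1
    · simp only [T, P.target, Q.target, Set.Icc.coe_one, mul_one, sub_add_cancel]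
      exact hproj 1
  refine f7_fam (fun z => G (T z)) (hG.comp hT) ?_ ?_ ?_ ?_
  · intro t; show G (T (0, t)) = _; rw [hT0, hP]
  · intro t; show G (T (1, t)) = _; rw [hT1, hQ]
  · intro s; show G (T (s, 0)) = _; rw [hTl, hl, l.source]
  · intro s; show G (T (s, 1)) = _; rw [hTr, hr, r.target]

/-- the underlying class of an element of the fundamental group -/
def f7u {C : Type} [TopologicalSpace C] {b : C} (x : PG C b) : Path.Homotopic.Quotient b b := x

theorem f7u_mul {C : Type} [TopologicalSpace C] {b : C} (x y : PG C b) :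
    f7u (x * y) = (f7u x).trans (f7u y) := rfl

/-- the class in the total space of a class of the fibre -/
def f7q (f : LongKnot 3) (x : KG f) : Path.Homotopic.Quotient (f7s f) (f7s f) :=
  Path.Homotopic.Quotient.map (f7u x) (f7i f)

theorem f7q_mk (f : LongKnot 3)
    (p : Path (⟨bb, bb_notin f⟩ : Cp (Set.range f.toFun)) ⟨bb, bb_notin f⟩) :
    f7q f (PG.mk p) = Path.Homotopic.Quotient.mk (p.map (f7i f).continuous) := rfl

theorem f7q_mul (f : LongKnot 3) (x y : KG f) : f7q f (x * y) = (f7q f x).trans (f7q f y) := by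
  induction x using Path.Homotopic.Quotient.ind with | _ p =>
  induction y using Path.Homotopic.Quotient.ind with | _ q =>
  have h : (p.trans q).map (f7i f).continuous =
      (p.map (f7i f).continuous).trans (q.map (f7i f).continuous) := Path.map_trans _ _ _
  exact congrArg Path.Homotopic.Quotient.mk h

theorem f7q_one (f : LongKnot 3) : f7q f 1 = Path.Homotopic.Quotient.refl _ := by
  have h : (Path.refl (⟨bb, bb_notin f⟩ : Cp (Set.range f.toFun))).map (f7i f).continuous =
      Path.refl (f7i f ⟨bb, bb_notin f⟩) := Path.ext (funext fun _ => rfl)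
  exact congrArg Path.Homotopic.Quotient.mk h

theorem f7_ker (f : LongKnot 3) (x : KG f) (hx : f7q f x = Path.Homotopic.Quotient.refl _) :
    x = 1 := by
  induction x using Path.Homotopic.Quotient.ind with | _ p =>
  have h1 : (p.map (f7i f).continuous).Homotopic (Path.refl (f7s f)) :=
    Path.Homotopic.Quotient.exact hx
  obtain ⟨F⟩ := h1
  have hF : Continuous (fun z : I × I => F (z.2, z.1)) := F.continuous.comp (by fun_prop)
  have hFv : Continuous (fun z : I × I => (F (z.2, z.1)).1) := continuous_subtype_val.comp hF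
  have hH : Continuous (fun z : I × I => (F (z.2, z.1)).1.1) := continuous_fst.comp hFv
  obtain ⟨R, hRc, hR0, hR1, hRi, hRb⟩ := isotopy_extension hH
  have hF0 : ∀ t : I, F (0, t) = f7i f (p t) := fun t => F.apply_zero t
  have hF1 : ∀ t : I, F (1, t) = f7s f := fun t => F.apply_one t
  have hFs0 : ∀ s : I, F (s, 0) = f7s f := fun s => F.source s
  have hFs1 : ∀ s : I, F (s, 1) = f7s f := fun s => F.target s
  have key : ∀ z : I × I, R ((z.2, z.1), (F z).1.2) ∉ Set.range f.toFun := by
    rintro ⟨s, t⟩ ⟨u, hu⟩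
    apply (F (s, t)).2
    refine ⟨u, hRi (t, s) ?_⟩
    show R ((t, s), (F (s, t)).1.1.toFun u) = R ((t, s), (F (s, t)).1.2)
    have h2 : R ((t, s), (F (s, t)).1.1.toFun u) = (F (0, t)).1.1.toFun u := hR1 t s u
    rw [h2, hF0]
    exact hu
  have hfin : p.Homotopic (Path.refl _) := by
    refine f7_fam (fun z => ⟨R ((z.2, z.1), (F z).1.2), key z⟩) ?_ ?_ ?_ ?_ ?_
    · refine Continuous.subtype_mk ?_ _
      refine hRc.comp (Continuous.prodMk (by fun_prop) ?_)
      exact continuous_snd.comp (continuous_subtype_val.comp F.continuous)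
    · intro t
      apply Subtype.ext
      show R ((t, 0), (F (0, t)).1.2) = (p t).1
      rw [hR0, hF0]
      rfl
    · intro t
      apply Subtype.ext
      show R ((t, 1), (F (1, t)).1.2) = bb
      rw [hF1]
      exact hRb _ _ bb_zero bb_norm
    · intro s
      apply Subtype.ext
      show R ((0, s), (F (s, 0)).1.2) = bb
      rw [hFs0]
      exact hRb _ _ bb_zero bb_norm
    · intro s
      apply Subtype.ext
      show R ((1, s), (F (s, 1)).1.2) = bb
      rw [hFs1]
      exact hRb _ _ bb_zero bb_norm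
  exact Path.Homotopic.Quotient.eq.2 hfin

theorem f7q_inj (f : LongKnot 3) {x y : KG f} (h : f7q f x = f7q f y) : x = y := by
  have h1 : f7q f (x * y⁻¹) = Path.Homotopic.Quotient.refl _ := by
    rw [f7q_mul, h, ← f7q_mul, mul_inv_cancel, f7q_one]
  have h2 := f7_ker f _ h1
  exact mul_inv_eq_one.1 h2

/-- the class of the path of base points -/
def f7c {f f' : LongKnot 3} (H : Path f f') : Path.Homotopic.Quotient (f7s f) (f7s f') :=
  Path.Homotopic.Quotient.mk (H.map f7s.continuous)

/-- the relation of transport -/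
def F7R {f f' : LongKnot 3} (H : Path f f') (x : KG f) (x' : KG f') : Prop :=
  (f7q f x).trans (f7c H) = (f7c H).trans (f7q f' x')

theorem f7c_symm {f f' : LongKnot 3} (H : Path f f') : f7c H.symm = (f7c H).symm := by
  have h : H.symm.map f7s.continuous = (H.map f7s.continuous).symm := (Path.map_symm _ _).symm
  exact congrArg Path.Homotopic.Quotient.mk h

theorem f7c_trans {f f' f'' : LongKnot 3} (H : Path f f') (H' : Path f' f'') :
    f7c (H.trans H') = (f7c H).trans (f7c H') := by
  have h : (H.trans H').map f7s.continuous =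
    (H.map f7s.continuous).trans (H'.map f7s.continuous) := (Path.map_trans _ _ _)
  exact congrArg Path.Homotopic.Quotient.mk h

theorem F7R.unique {f f' : LongKnot 3} {H : Path f f'} {x : KG f} {x₁ x₂ : KG f'}
    (h₁ : F7R H x x₁) (h₂ : F7R H x x₂) : x₁ = x₂ := by
  apply f7q_inj
  have h : (f7c H).trans (f7q f' x₁) = (f7c H).trans (f7q f' x₂) := h₁.symm.trans h₂
  have h3 : (f7c H).symm.trans ((f7c H).trans (f7q f' x₁)) =
    (f7c H).symm.trans ((f7c H).trans (f7q f' x₂)) := by rw [h]
  rwa [← Path.Homotopic.Quotient.trans_assoc, ← Path.Homotopic.Quotient.trans_assoc,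
    Path.Homotopic.Quotient.symm_trans, Path.Homotopic.Quotient.refl_trans,
    Path.Homotopic.Quotient.refl_trans] at h3

theorem F7R.symm {f f' : LongKnot 3} {H : Path f f'} {x : KG f} {x' : KG f'}
    (h : F7R H x x') : F7R H.symm x' x := by
  unfold F7R at h ⊢
  rw [f7c_symm]
  have h3 : (f7c H).symm.trans (((f7q f x).trans (f7c H)).trans (f7c H).symm) =
    (f7c H).symm.trans (((f7c H).trans (f7q f' x')).trans (f7c H).symm) := by rw [h]
  rw [Path.Homotopic.Quotient.trans_assoc (f7q f x), Path.Homotopic.Quotient.trans_symm,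
    Path.Homotopic.Quotient.trans_refl, ← Path.Homotopic.Quotient.trans_assoc (f7c H).symm,
    ← Path.Homotopic.Quotient.trans_assoc (f7c H).symm, Path.Homotopic.Quotient.symm_trans,
    Path.Homotopic.Quotient.refl_trans] at h3
  exact h3.symm

theorem F7R.mul {f f' : LongKnot 3} {H : Path f f'} {x y : KG f} {x' y' : KG f'}
    (hx : F7R H x x') (hy : F7R H y y') : F7R H (x * y) (x' * y') := by
  unfold F7R at hx hy ⊢
  rw [f7q_mul, f7q_mul, Path.Homotopic.Quotient.trans_assoc, hy,
    ← Path.Homotopic.Quotient.trans_assoc, hx, Path.Homotopic.Quotient.trans_assoc]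

theorem F7R.trans {f f' f'' : LongKnot 3} {H : Path f f'} {H' : Path f' f''} {x : KG f}
    {x' : KG f'} {x'' : KG f''} (h : F7R H x x') (h' : F7R H' x' x'') :
    F7R (H.trans H') x x'' := by
  unfold F7R at h h' ⊢
  rw [f7c_trans, ← Path.Homotopic.Quotient.trans_assoc, h, Path.Homotopic.Quotient.trans_assoc, h',
    Path.Homotopic.Quotient.trans_assoc]

/-- a continuous family of loops -/
theorem F7R.family {f f' : LongKnot 3} (H : Path f f') (ℓ : I × I → Eu 3) (hℓ : Continuous ℓ)
    (hn : ∀ s t, ℓ (s, t) ∉ Set.range (H s).toFun) (h0 : ∀ s, ℓ (s, 0) = bb)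
    (h1 : ∀ s, ℓ (s, 1) = bb)
    (p : Path (⟨bb, bb_notin f⟩ : Cp (Set.range f.toFun)) ⟨bb, bb_notin f⟩)
    (p' : Path (⟨bb, bb_notin f'⟩ : Cp (Set.range f'.toFun)) ⟨bb, bb_notin f'⟩)
    (hp : ∀ t, (p t).1 = ℓ (0, t)) (hp' : ∀ t, (p' t).1 = ℓ (1, t)) :
    F7R H (PG.mk p) (PG.mk p') := by
  have key : (Path.trans (x := f7s f) (y := f7s f) (p.map (f7i f).continuous)
      (H.map f7s.continuous)).Homotopic
      (Path.trans (y := f7s f') (z := f7s f') (H.map f7s.continuous)
        (p'.map (f7i f').continuous)) := by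
    refine f7_square (fun z => (⟨(H z.1, ℓ z), hn z.1 z.2⟩ : F7E)) ?_ _ _ _ _ ?_ ?_ ?_ ?_
    · refine Continuous.subtype_mk ?_ _
      exact (H.continuous.comp continuous_fst).prodMk hℓ
    · intro t
      apply Subtype.ext
      show (H 0, ℓ (0, t)) = (f, (p t).1)
      rw [H.source, hp]
    · intro t
      apply Subtype.ext
      show (H 1, ℓ (1, t)) = (f', (p' t).1)
      rw [H.target, hp']
    · intro s
      apply Subtype.ext
      show (H s, ℓ (s, 0)) = (H s, bb)
      rw [h0]
    · intro s
      apply Subtype.ext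
      show (H s, ℓ (s, 1)) = (H s, bb)
      rw [h1]
  exact Path.Homotopic.Quotient.eq.2 key

theorem F7R.exists {f f' : LongKnot 3} (H : Path f f') (x : KG f) : ∃ x' : KG f', F7R H x x' := by
  induction x using Path.Homotopic.Quotient.ind with | _ p =>
  obtain ⟨F, hFc, hF0, hF1, hFi, hFb, -⟩ := isotopy_forward (H := H) H.continuous
  have hn : ∀ s t, F (s, (p t).1) ∉ Set.range (H s).toFun := by
    rintro s t ⟨u, hu⟩
    rw [← hF1 s u] at hu
    have h2 : (H 0).toFun u = (p t).1 := hFi s hu
    rw [H.source] at h2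
    exact (p t).2 ⟨u, h2⟩
  have hn1 : ∀ t, F (1, (p t).1) ∉ Set.range f'.toFun := by
    intro t
    have := hn 1 t
    rwa [H.target] at this
  let p' : Path (⟨bb, bb_notin f'⟩ : Cp (Set.range f'.toFun)) ⟨bb, bb_notin f'⟩ :=
    { toFun := fun t => ⟨F (1, (p t).1), hn1 t⟩
      continuous_toFun := by
        refine Continuous.subtype_mk ?_ _
        exact hFc.comp (continuous_const.prodMk (continuous_subtype_val.comp p.continuous))
      source' := by apply Subtype.ext; simp only [p.source]; exact hFb _ _ bb_zero bb_norm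
      target' := by apply Subtype.ext; simp only [p.target]; exact hFb _ _ bb_zero bb_norm }
  refine ⟨PG.mk p', F7R.family H (fun z => F (z.1, (p z.2).1)) ?_ hn ?_ ?_ p p' ?_ ?_⟩
  · exact hFc.comp (continuous_fst.prodMk
      (continuous_subtype_val.comp (p.continuous.comp continuous_snd)))
  · intro s
    show F (s, (p 0).1) = bb
    rw [p.source]; exact hFb _ _ bb_zero bb_norm
  · intro s
    show F (s, (p 1).1) = bb
    rw [p.target]; exact hFb _ _ bb_zero bb_norm
  · intro t; exact (hF0 _).symm
  · intro t; rfl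

/-- transport, as a function -/
def f7t {f f' : LongKnot 3} (H : Path f f') (x : KG f) : KG f' := (F7R.exists H x).choose

theorem f7t_spec {f f' : LongKnot 3} (H : Path f f') (x : KG f) : F7R H x (f7t H x) :=
  (F7R.exists H x).choose_spec

/-- transport, as an isomorphism -/
def f7e {f f' : LongKnot 3} (H : Path f f') : KG f ≃* KG f' where
  toFun := f7t H
  invFun := f7t H.symm
  left_inv x := (f7t_spec H.symm (f7t H x)).unique (f7t_spec H x).symm
  right_inv x := by
    have h := (f7t_spec H.symm x).symm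
    rw [Path.symm_symm] at h
    exact (f7t_spec H (f7t H.symm x)).unique h
  map_mul' x y := (f7t_spec H (x * y)).unique ((f7t_spec H x).mul (f7t_spec H y))

theorem exists_tr : ∃ tr : ∀ {f f' : LongKnot 3}, Path f f' → (KG f ≃* KG f'), Tr @tr := by
  refine ⟨fun {f f'} H => f7e H, ?_, ?_, ?_⟩
  · intro f f' H H' hh
    ext x
    have hc : f7c H = f7c H' := Path.Homotopic.Quotient.eq.2 (hh.map f7s)
    have h2 : F7R H x (f7t H' x) := by
      have := f7t_spec H' x
      unfold F7R at this ⊢
      rw [hc]; exact this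
    exact (f7t_spec H x).unique h2
  · intro f f' f'' H H' x
    exact (f7t_spec (H.trans H') x).unique ((f7t_spec H x).trans (f7t_spec H' (f7t H x)))
  · intro f f' H ℓ hℓ hn h0 h1 p p' hp hp'
    exact (f7t_spec H (PG.mk p)).unique (F7R.family H ℓ hℓ hn h0 h1 p p' hp hp')

end Pool.Agent.H414_LQ
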