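import Pool.Agent.H414_LQ.G1

/-!
JOB G2.  The tube map of a grid knot.
-/

set_option autoImplicit false

open scoped Topology ContDiff unitInterval

noncomputable section

namespace Pool.Agent.H414_LQ

open Pool.Agent.H414_LK

namespace GTube

variable (g : GK)

theorem mul48 : ContDiff ℝ ∞ (fun t : ℝ => 48 * t) := contDiff_const.mul contDiff_id

theorem n_bds : (3 : ℝ) ≤ g.n ∧ (g.n : ℝ) ≤ 7 := ⟨by exact_mod_cast g.n3, by exact_mod_cast g.n7⟩

theorem be_contDiff : ContDiff ℝ ∞ g.be :=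
  v3_contDiff' (((gfacts g).smx.comp mul48).div_const 48) (((gfacts g).smy.comp mul48).div_const 48)
    (((gfacts g).smz.comp mul48).div_const 48)

theorem ps_contDiff : ContDiff ℝ ∞ g.ps := by
  unfold GK.ps
  exact ((gfacts g).smc.add (gfacts g).smz).div_const 2

theorem ve_contDiff : ContDiff ℝ ∞ g.ve :=
  v3_contDiff' ((ps_contDiff g).comp mul48) (contDiff_const.sub ((ps_contDiff g).comp mul48))
    contDiff_const

theorem deriv_be_contDiff : ContDiff ℝ ∞ (deriv g.be) := by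
  have := (contDiff_infty_iff_deriv (f := g.be)).1 (be_contDiff g)
  exact this.2

theorem ue_contDiff : ContDiff ℝ ∞ g.ue := by
  rw [contDiff_iff_contDiffAt]
  intro x
  exact cr_contDiff (deriv_be_contDiff g).contDiffAt (ve_contDiff g).contDiffAt

theorem tu_contDiff : ContDiff ℝ ∞ g.tu := by
  unfold GK.tu
  have h0 : ContDiff ℝ ∞ (fun x : Eu 3 => x 0) := coord_contDiff' contDiff_id 0
  have h1 : ContDiff ℝ ∞ (fun x : Eu 3 => x 1) := coord_contDiff' contDiff_id 1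
  have h2 : ContDiff ℝ ∞ (fun x : Eu 3 => x 2) := coord_contDiff' contDiff_id 2
  exact (((be_contDiff g).comp h0).add (h1.smul ((ve_contDiff g).comp h0))).add
    (h2.smul ((ue_contDiff g).comp h0))

theorem be_hasDerivAt (t : ℝ) :
    HasDerivAt g.be (v3 (deriv g.gx (48 * t)) (deriv g.gy (48 * t)) (deriv g.gz (48 * t))) t := by
  have h48 : HasDerivAt (fun s : ℝ => 48 * s) 48 t := by
    simpa using (hasDerivAt_id t).const_mul 48
  have key : ∀ f : ℝ → ℝ, ContDiff ℝ ∞ f →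
      HasDerivAt (fun s : ℝ => f (48 * s) / 48) (deriv f (48 * t)) t := by
    intro f hf
    have h1 : HasDerivAt f (deriv f (48 * t)) (48 * t) :=
      (hf.differentiable (by simp) _).hasDerivAt
    have := (h1.comp t h48).div_const 48
    refine this.congr_deriv ?_
    ring
  exact v3_hasDerivAt (key _ (gfacts g).smx) (key _ (gfacts g).smy) (key _ (gfacts g).smz)

theorem ue_ne (t : ℝ) : g.ue t ≠ 0 := by
  unfold GK.ue
  rw [(be_hasDerivAt g t).deriv]
  set s := 48 * t with hs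
  intro h
  have e0 : -(deriv g.gz s * (1 - g.ps s)) = 0 := by
    have := congrArg (fun v : Eu 3 => v 0) h
    simpa [cr, GK.ve, ← hs] using this
  have e1 : deriv g.gz s * g.ps s = 0 := by
    have := congrArg (fun v : Eu 3 => v 1) h
    simpa [cr, GK.ve, ← hs] using this
  have e2 : deriv g.gx s * (1 - g.ps s) - deriv g.gy s * g.ps s = 0 := by
    have := congrArg (fun v : Eu 3 => v 2) h
    simpa [cr, GK.ve, ← hs] using this
  have hc := (gfacts g).gc1 s
  rcases (gfacts g).dir s with ⟨h1, h2, h3⟩ | ⟨h1, h2, h3⟩ | ⟨h1, -⟩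
  · rw [h3, zero_mul, sub_zero] at e2
    have : 1 - g.ps s ≠ 0 := by unfold GK.ps; intro h; linarith
    exact (mul_ne_zero h2 this) e2
  · rw [h2, zero_mul, zero_sub, neg_eq_zero] at e2
    have : g.ps s ≠ 0 := by
      have := (gfacts g).gc0 s
      unfold GK.ps; intro h; linarith
    exact (mul_ne_zero h3 this) e2
  · have h2 := (mul_eq_zero.1 e1).resolve_left h1
    rw [h2] at e0
    apply h1
    linarith

theorem out48 {t : ℝ} (h : 1 / 6 ≤ |t|) :
    (48 * t ≤ -((g.n : ℝ) + 1) ∨ (g.n : ℝ) ≤ 48 * t) ∧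
    (48 * t ≤ -(g.n : ℝ) ∨ (g.n : ℝ) - 1 ≤ 48 * t) := by
  obtain ⟨h3, h7⟩ := n_bds g
  rcases le_abs.1 h with h | h
  · exact ⟨Or.inr (by linarith), Or.inr (by linarith)⟩
  · exact ⟨Or.inl (by linarith), Or.inl (by linarith)⟩

theorem be_std {t : ℝ} (h : 1 / 6 ≤ |t|) : g.be t = v3 t 0 0 := by
  obtain ⟨h1, h2⟩ := out48 g h
  unfold GK.be
  rw [(gfacts g).stdx _ h1, (gfacts g).stdy _ h2, (gfacts g).stdz _ h1]
  apply ext3 <;> simp

theorem ps_std {t : ℝ} (h : 1 / 6 ≤ |t|) : g.ps (48 * t) = 0 := by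
  obtain ⟨h1, h2⟩ := out48 g h
  unfold GK.ps
  rw [(gfacts g).stdz _ h1, (gfacts g).stdc _ h1]
  simp

theorem ve_std {t : ℝ} (h : 1 / 6 ≤ |t|) : g.ve t = v3 0 1 0 := by
  unfold GK.ve
  rw [ps_std g h]; apply ext3 <;> simp

theorem deriv_be_std {t : ℝ} (h : 1 / 6 ≤ |t|) : deriv g.be t = v3 1 0 0 := by
  have hcont : Continuous (deriv g.be) := (deriv_be_contDiff g).continuous
  have h1 : ∀ s : ℝ, 1 / 6 < |s| → deriv g.be s = v3 1 0 0 := by
    intro s hs
    have he : g.be =ᶠ[𝓝 s] fun r => v3 r 0 0 := by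
      have : ∀ᶠ r in 𝓝 s, 1 / 6 < |r| := (continuous_abs.tendsto s).eventually (lt_mem_nhds hs)
      filter_upwards [this] with r hr
      exact be_std g hr.le
    rw [he.deriv_eq]
    exact (v3_hasDerivAt (hasDerivAt_id s) (hasDerivAt_const s 0) (hasDerivAt_const s 0)).deriv
  rcases h.lt_or_eq with h2 | h2
  · exact h1 t h2
  · have hcl : t ∈ closure {s : ℝ | 1 / 6 < |s|} := by
      rw [Metric.mem_closure_iff]
      intro ε hε
      rcases le_or_gt 0 t with ht | ht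
      · refine ⟨t + ε / 2, ?_, ?_⟩
        · rw [abs_of_nonneg ht] at h2
          show 1 / 6 < |t + ε / 2|
          rw [abs_of_nonneg (by linarith)]; linarith
        · rw [Real.dist_eq, show t - (t + ε / 2) = -(ε / 2) by ring, abs_neg,
            abs_of_pos (by linarith)]; linarith
      · refine ⟨t - ε / 2, ?_, ?_⟩
        · rw [abs_of_neg ht] at h2
          show 1 / 6 < |t - ε / 2|
          rw [abs_of_neg (by linarith)]; linarith
        · rw [Real.dist_eq, show t - (t - ε / 2) = ε / 2 by ring,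
            abs_of_pos (by linarith)]; linarith
    have hclosed : IsClosed {s : ℝ | deriv g.be s = v3 1 0 0} :=
      isClosed_eq hcont continuous_const
    exact hclosed.closure_subset_iff.2 (fun s hs => h1 s hs) hcl

theorem ue_std {t : ℝ} (h : 1 / 6 ≤ |t|) : g.ue t = v3 0 0 1 := by
  unfold GK.ue
  rw [deriv_be_std g h, ve_std g h]
  apply ext3 <;> simp [cr]

theorem tu_id {x : Eu 3} (h : 1 / 6 ≤ |x 0|) : g.tu x = x := by
  unfold GK.tu
  rw [be_std g h, ve_std g h, ue_std g h]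
  apply ext3 <;> simp

theorem tu_axis (t : ℝ) : g.tu (v3 t 0 0) = g.be t := by
  unfold GK.tu; simp

theorem be_inj : Function.Injective g.be := by
  intro s t h
  have e0 : g.gx (48 * s) / 48 = g.gx (48 * t) / 48 := congrArg (fun v : Eu 3 => v 0) h
  have e1 : g.gy (48 * s) / 48 = g.gy (48 * t) / 48 := congrArg (fun v : Eu 3 => v 1) h
  have e2 : g.gz (48 * s) / 48 = g.gz (48 * t) / 48 := congrArg (fun v : Eu 3 => v 2) h
  have e0' : g.gx (48 * s) = g.gx (48 * t) := by linarith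
  have e1' : g.gy (48 * s) = g.gy (48 * t) := by linarith
  have e2' : g.gz (48 * s) = g.gz (48 * t) := by linarith
  rcases le_or_gt (g.gz (48 * s)) 0 with h0 | h0
  · have := (gfacts g).injh _ _ h0 (e2' ▸ h0) e0' e1'
    linarith
  · have := (gfacts g).injv _ _ h0 (e2' ▸ h0) e0' e1'
    linarith

theorem gx_le {t : ℝ} (h : |t| ≤ 1 / 6) : |g.gx (48 * t)| ≤ 8 := by
  obtain ⟨h3, h7⟩ := n_bds g
  obtain ⟨ha, hb⟩ := abs_le.1 h
  rcases le_or_gt (-((g.n : ℝ) + 1)) (48 * t) with h1 | h1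
  · rcases le_or_gt (48 * t) g.n with h2 | h2
    · exact ((gfacts g).gxb _ h1 h2).trans (by linarith)
    · rw [(gfacts g).stdx _ (Or.inr h2.le), abs_le]; constructor <;> linarith
  · rw [(gfacts g).stdx _ (Or.inl h1.le), abs_le]; constructor <;> linarith

theorem norm_axis3 (t : ℝ) : ‖v3 t 0 0‖ = |t| := by
  rw [← axis_eq]
  simp [axis]

theorem be_nm {t : ℝ} (h : |t| ≤ 1 / 5) : ‖g.be t‖ ≤ 11 / 50 := by
  rcases le_or_gt (1 / 6) |t| with h1 | h1
  · rw [be_std g h1, norm_axis3]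
    linarith
  · obtain ⟨h3, h7⟩ := n_bds g
    have hx := gx_le g h1.le
    have hy : |g.gy (48 * t)| ≤ 6 := by
      obtain ⟨ha, hb⟩ := (gfacts g).gyb (48 * t)
      rw [abs_le]; constructor <;> linarith
    have hz : |g.gz (48 * t)| ≤ 1 := ((gfacts g).gzc _).trans ((gfacts g).gc1 _)
    have hsq : ‖g.be t‖ ^ 2 ≤ (11 / 50) ^ 2 := by
      rw [normsq3]
      simp only [GK.be, v3_0, v3_1, v3_2]
      have a1 := sq_le_sq' (abs_le.1 hx).1 (abs_le.1 hx).2
      have a2 := sq_le_sq' (abs_le.1 hy).1 (abs_le.1 hy).2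
      have a3 := sq_le_sq' (abs_le.1 hz).1 (abs_le.1 hz).2
      nlinarith
    exact (sq_le_sq₀ (norm_nonneg _) (by norm_num)).1 hsq

theorem be_0 {t : ℝ} (h : |t| ≤ 1 / 6) : |g.be t 0| ≤ 1 / 6 := by
  have hx := gx_le g h
  show |g.gx (48 * t) / 48| ≤ 1 / 6
  rw [abs_div, abs_of_pos (show (0:ℝ) < 48 by norm_num), div_le_iff₀ (by norm_num)]
  linarith

theorem fderiv_tu_axis (t : ℝ) (h : Eu 3) :
    fderiv ℝ g.tu (v3 t 0 0) h = h 0 • deriv g.be t + h 1 • g.ve t + h 2 • g.ue t := by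
  have hd : DifferentiableAt ℝ g.tu (v3 t 0 0) := (tu_contDiff g).differentiable (by simp) _
  have hc : HasDerivAt (fun s : ℝ => v3 t 0 0 + s • h) h 0 := by
    simpa using ((hasDerivAt_id (0 : ℝ)).smul_const h).const_add (v3 t 0 0)
  have h1 : HasDerivAt (fun s : ℝ => g.tu (v3 t 0 0 + s • h)) (fderiv ℝ g.tu (v3 t 0 0) h) 0 := by
    have := hd.hasFDerivAt
    have e : v3 t 0 0 = v3 t 0 0 + (0 : ℝ) • h := by simp
    rw [e] at this
    have h2 := this.comp_hasDerivAt (0 : ℝ) hc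
    rw [← e] at h2
    exact h2
  have hb : HasDerivAt (fun s : ℝ => g.be (t + s * h 0)) (h 0 • deriv g.be t) 0 := by
    have h3 : HasDerivAt (fun s : ℝ => t + s * h 0) (h 0) 0 := by
      simpa using ((hasDerivAt_id (0 : ℝ)).mul_const (h 0)).const_add t
    have h4 : HasDerivAt g.be (deriv g.be t) (t + 0 * h 0) := by
      rw [zero_mul, add_zero]
      exact ((be_contDiff g).differentiable (by simp) t).hasDerivAt
    exact HasDerivAt.scomp (0 : ℝ) h4 h3
  have key : ∀ (w : ℝ → Eu 3) (a : ℝ), ContDiff ℝ ∞ w →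
      HasDerivAt (fun s : ℝ => (s * a) • w (t + s * h 0)) (a • w t) 0 := by
    intro w a hw
    have h3 : HasDerivAt (fun s : ℝ => t + s * h 0) (h 0) 0 := by
      simpa using ((hasDerivAt_id (0 : ℝ)).mul_const (h 0)).const_add t
    have h4 : HasDerivAt w (deriv w (t + 0 * h 0)) (t + 0 * h 0) :=
      (hw.differentiable (by simp) _).hasDerivAt
    have h5 := HasDerivAt.scomp (0 : ℝ) h4 h3
    have h6 : HasDerivAt (fun s : ℝ => s * a) a 0 := by
      simpa using (hasDerivAt_id (0 : ℝ)).mul_const a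
    refine (h6.smul h5).congr_deriv ?_
    simp
  have h2 : HasDerivAt (fun s : ℝ => g.tu (v3 t 0 0 + s • h))
      (h 0 • deriv g.be t + h 1 • g.ve t + h 2 • g.ue t) 0 := by
    have := (hb.add (key g.ve (h 1) (ve_contDiff g))).add (key g.ue (h 2) (ue_contDiff g))
    refine this.congr_of_eventuallyEq (Filter.Eventually.of_forall fun s => ?_)
    simp [GK.tu]
  exact h1.unique h2

theorem fderiv_tu_inj (t : ℝ) : Function.Injective (fderiv ℝ g.tu (v3 t 0 0)) := by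
  rw [injective_iff_map_eq_zero]
  intro h hh
  rw [fderiv_tu_axis] at hh
  obtain ⟨h0, h1, h2⟩ := indep (ue_ne g t) hh
  exact ext3 h0 h1 h2

theorem tube_local (t : ℝ) : ∃ u ∈ 𝓝 (v3 t 0 0), Set.InjOn g.tu u ∧
    ∀ x ∈ u, Function.Injective (fderiv ℝ g.tu x) := by
  obtain ⟨e, he⟩ := exists_equiv (fderiv_tu_inj g t)
  have hs : HasStrictFDerivAt g.tu (e : Eu 3 →L[ℝ] Eu 3) (v3 t 0 0) := by
    rw [he]
    exact ((tu_contDiff g).contDiffAt).hasStrictFDerivAt (by simp)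
  have hinj : Set.InjOn g.tu (hs.toOpenPartialHomeomorph g.tu).source := by
    intro x hx y hy hxy
    exact (hs.toOpenPartialHomeomorph g.tu).injOn hx hy hxy
  have hop : (hs.toOpenPartialHomeomorph g.tu).source ∈ 𝓝 (v3 t 0 0) :=
    (hs.toOpenPartialHomeomorph g.tu).open_source.mem_nhds hs.mem_toOpenPartialHomeomorph_source
  have hn : Set.range ((↑) : (Eu 3 ≃L[ℝ] Eu 3) → Eu 3 →L[ℝ] Eu 3) ∈
      𝓝 (fderiv ℝ g.tu (v3 t 0 0)) := by
    rw [← he]; exact ContinuousLinearEquiv.nhds e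
  have hcont : Continuous (fderiv ℝ g.tu) := (tu_contDiff g).continuous_fderiv (by simp)
  have hd := hcont.continuousAt.preimage_mem_nhds hn
  refine ⟨_, Filter.inter_mem hop hd, hinj.mono Set.inter_subset_left, ?_⟩
  rintro x ⟨-, e', he'⟩
  rw [← he']
  exact e'.injective

theorem exists_tube' : ∃ ε : ℝ, 0 < ε ∧
    Set.InjOn g.tu {x | ∃ t : ℝ, |t| ≤ 1 ∧ ‖x - v3 t 0 0‖ < ε} ∧
    (∀ x, (∃ t : ℝ, |t| ≤ 1 ∧ ‖x - v3 t 0 0‖ < ε) → Function.Injective (fderiv ℝ g.tu x)) := by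
  have hinj : Set.InjOn g.tu seg := by
    rintro _ ⟨s, -, rfl⟩ _ ⟨t, -, rfl⟩ h
    simp only [tu_axis] at h
    rw [be_inj g h]
  obtain ⟨U, hU, hUinj⟩ := Set.InjOn.exists_mem_nhdsSet hinj seg_compact
    (fun x _ => (tu_contDiff g).continuous.continuousAt) (by
      rintro _ ⟨t, -, rfl⟩
      obtain ⟨u, hu, h, -⟩ := tube_local g t
      exact ⟨u, hu, h⟩)
  have hU2 : {x | Function.Injective (fderiv ℝ g.tu x)} ∈ 𝓝ˢ seg := by
    rw [mem_nhdsSet_iff_forall]
    rintro _ ⟨t, -, rfl⟩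
    obtain ⟨u, hu, -, h⟩ := tube_local g t
    exact Filter.mem_of_superset hu h
  have hN := Filter.inter_mem hU hU2
  obtain ⟨V, hVo, hsV, hV⟩ := mem_nhdsSet_iff_exists.1 hN
  obtain ⟨ε, hε, hth⟩ := seg_compact.exists_thickening_subset_open hVo hsV
  have hsub : {x : Eu 3 | ∃ t : ℝ, |t| ≤ 1 ∧ ‖x - v3 t 0 0‖ < ε} ⊆ V := by
    rintro x ⟨t, ht, hx⟩
    apply hth
    rw [Metric.mem_thickening_iff]
    exact ⟨v3 t 0 0, ⟨t, abs_le.1 ht, rfl⟩, by rwa [dist_eq_norm]⟩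
  exact ⟨ε, hε, hUinj.mono fun x hx => (hV (hsub hx)).1, fun x hx => (hV (hsub hx)).2⟩

theorem exists_bd : ∃ M : ℝ, 0 ≤ M ∧ ∀ t : ℝ, |t| ≤ 1 / 6 → ‖g.ve t‖ + ‖g.ue t‖ ≤ M := by
  have hc : Continuous (fun t : ℝ => ‖g.ve t‖ + ‖g.ue t‖) :=
    (ve_contDiff g).continuous.norm.add (ue_contDiff g).continuous.norm
  obtain ⟨M, hM⟩ := (isCompact_Icc (a := -(1 / 6 : ℝ)) (b := 1 / 6)).bddAbove_image hc.continuousOn
  refine ⟨M, ?_, fun t ht => hM ⟨t, abs_le.1 ht, rfl⟩⟩
  have := hM ⟨0, by constructor <;> norm_num, rfl⟩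
  refine le_trans ?_ this
  positivity

theorem coord_le (y : Eu 3) : |y 1| ≤ ‖y‖ ∧ |y 2| ≤ ‖y‖ := by
  have h := normsq3 y
  constructor <;> apply abs_le_of_sq_le_sq _ (norm_nonneg _) <;>
    nlinarith [sq_nonneg (y 0), sq_nonneg (y 1), sq_nonneg (y 2)]

theorem near_aux {ε M : ℝ} (hM : ∀ t : ℝ, |t| ≤ 1 / 6 → ‖g.ve t‖ + ‖g.ue t‖ ≤ M)
    (hε : 0 < ε) (h : ε * M ≤ 1 / 400) : ∀ x ∈ Om ε, |x 0| ≤ 1 / 6 →
    ‖g.tu x - g.be (x 0)‖ ≤ 1 / 400 := by
  intro x hx h0
  have h1 : ‖x - v3 (x 0) 0 0‖ < ε := hx (by linarith)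
  obtain ⟨c1, c2⟩ := coord_le (x - v3 (x 0) 0 0)
  simp only [sub_app, v3_1, v3_2, sub_zero] at c1 c2
  have e : g.tu x - g.be (x 0) = x 1 • g.ve (x 0) + x 2 • g.ue (x 0) := by
    unfold GK.tu; abel
  rw [e]
  have h2 := hM (x 0) h0
  have n1 := norm_nonneg (g.ve (x 0))
  have n2 := norm_nonneg (g.ue (x 0))
  calc ‖x 1 • g.ve (x 0) + x 2 • g.ue (x 0)‖ ≤ |x 1| * ‖g.ve (x 0)‖ + |x 2| * ‖g.ue (x 0)‖ := by
        refine (norm_add_le _ _).trans ?_
        rw [norm_smul, norm_smul, Real.norm_eq_abs, Real.norm_eq_abs]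
    _ ≤ ε * ‖g.ve (x 0)‖ + ε * ‖g.ue (x 0)‖ := by
        gcongr
        · linarith
        · linarith
    _ = ε * (‖g.ve (x 0)‖ + ‖g.ue (x 0)‖) := by ring
    _ ≤ ε * M := by gcongr
    _ ≤ 1 / 400 := h

end GTube

theorem exists_tube (g : GK) : ∃ ε, TubeF g ε := by
  obtain ⟨ε₁, h1, hinj, hdinj⟩ := GTube.exists_tube' g
  obtain ⟨M, hM0, hM⟩ := GTube.exists_bd g
  set ε := min ε₁ (min (1 / 100) (1 / (400 * (M + 1)))) with hεdef
  have hε : 0 < ε := lt_min h1 (lt_min (by norm_num) (by positivity))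
  have hε1 : ε ≤ ε₁ := min_le_left _ _
  have hε2 : ε ≤ 1 / 100 := (min_le_right _ _).trans (min_le_left _ _)
  have hε3 : ε * M ≤ 1 / 400 := by
    have h5 : ε ≤ 1 / (400 * (M + 1)) := (min_le_right _ _).trans (min_le_right _ _)
    calc ε * M ≤ 1 / (400 * (M + 1)) * (M + 1) := by gcongr; linarith
      _ = 1 / 400 := by field_simp
  have hnear := GTube.near_aux g hM hε hε3
  have htube : ∀ x ∈ Om ε, |x 0| ≤ 1 / 5 → ∃ t : ℝ, |t| ≤ 1 ∧ ‖x - v3 t 0 0‖ < ε₁ :=
    fun x hx h0 => ⟨x 0, by linarith, (hx h0).trans_le hε1⟩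
  have hfar : ∀ x : Eu 3, ∀ y ∈ Om ε, 1 / 5 < |x 0| → |y 0| ≤ 1 / 5 → g.tu x = g.tu y → x = y := by
    intro x y hy hx0 hy0 h
    rw [GTube.tu_id g (x := x) (by linarith)] at h
    rcases le_or_gt (1 / 6) |y 0| with h6 | h6
    · rw [GTube.tu_id g h6] at h
      exact h
    · exfalso
      have a1 := hnear y hy h6.le
      have a2 := GTube.be_0 g h6.le
      rw [← h] at a1
      have a3 : |x 0 - g.be (y 0) 0| ≤ ‖x - g.be (y 0)‖ := by
        have h := normsq3 (x - g.be (y 0))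
        have e : (x - g.be (y 0)) 0 = x 0 - g.be (y 0) 0 := rfl
        rw [← e]
        apply abs_le_of_sq_le_sq _ (norm_nonneg _)
        nlinarith [sq_nonneg ((x - g.be (y 0)) 1), sq_nonneg ((x - g.be (y 0)) 2)]
      have a4 := abs_sub_abs_le_abs_sub (x 0) (g.be (y 0) 0)
      linarith
  refine ⟨ε, ⟨hε, hε2, GTube.be_contDiff g, GTube.ve_contDiff g, GTube.ue_contDiff g,
    GTube.tu_contDiff g, GTube.be_inj g, fun t => GTube.be_std g, fun t => GTube.deriv_be_std g,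
    fun t => GTube.ve_std g, fun t => GTube.ue_std g, GTube.ue_ne g, fun t => GTube.be_nm g,
    fun t => GTube.be_0 g, GTube.tu_axis g, GTube.fderiv_tu_axis g, fun x => GTube.tu_id g,
    hnear, ?_, ?_⟩⟩
  · intro x hx y hy hxy
    rcases le_or_gt |x 0| (1 / 5) with h0 | h0 <;> rcases le_or_gt |y 0| (1 / 5) with h0' | h0'
    · exact hinj (htube x hx h0) (htube y hy h0') hxy
    · exact (hfar y x hx h0' h0 hxy.symm).symm
    · exact hfar x y hy h0 h0' hxy
    · rw [GTube.tu_id g (x := x) (by linarith), GTube.tu_id g (x := y) (by linarith)] at hxy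
      exact hxy
  · intro x hx
    rcases le_or_gt |x 0| (1 / 5) with h0 | h0
    · exact hdinj x (htube x hx h0)
    · have he : g.tu =ᶠ[𝓝 x] id := by
        have hc : Continuous (fun x : Eu 3 => |x 0|) :=
          continuous_abs.comp (coord_contDiff' (n := ∞) contDiff_id 0).continuous
        have h2 : ∀ᶠ y in 𝓝 x, 1 / 5 < |y 0| := (hc.tendsto _).eventually (lt_mem_nhds h0)
        filter_upwards [h2] with y hy
        exact GTube.tu_id g (by linarith)
      rw [he.fderiv_eq, fderiv_id]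
      exact fun _ _ h => h

/-- the facts also hold for smaller `ε` -/
theorem TubeF.mono {g : GK} {ε ε' : ℝ} (h : TubeF g ε) (h0 : 0 < ε') (h1 : ε' ≤ ε) :
    TubeF g ε' := by
  have hs : ∀ x ∈ Om ε', x ∈ Om ε := fun x hx h2 => (hx h2).trans_le h1
  exact { h with
    pos := h0
    le := h1.trans h.le
    near := fun x hx => h.near x (hs x hx)
    inj := fun x hx y hy => h.inj (hs x hx) (hs y hy)
    dinj := fun x hx => h.dinj x (hs x hx) }

end Pool.Agent.H414_LQ
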