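import Pool.Agent.H414_LQ.PC
import Pool.Agent.H414_LQ.F6c
import Pool.Agent.H414_LQ.F6b

/-!
JOB M8a.  The parallel of the composite knot is its longitude.
-/

set_option autoImplicit false

open scoped Topology ContDiff unitInterval

noncomputable section

namespace Pool.Agent.H414_LQ

open Pool.Agent.H414_LK

section given

/-! The following are given, proved elsewhere (jobs PC, F6b, F6c). -/

variable {g : Fin 3 → GK} {ε : ℝ}

end given

variable {g : Fin 3 → GK} {ε : ℝ}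

/-! ### Paths along a map from the line -/

/-- the image of the straight path -/
def p0c_kk {X : Type} [TopologicalSpace X] (k : ℝ → X) (hk : Continuous k) (a b : ℝ) :
    Path (k a) (k b) where
  toFun t := k ((1 - (t : ℝ)) * a + (t : ℝ) * b)
  continuous_toFun := hk.comp (by fun_prop)
  source' := by simp
  target' := by simp

/-- the straight path of the line -/
def p0c_ln (a b : ℝ) : Path a b where
  toFun t := (1 - (t : ℝ)) * a + (t : ℝ) * b
  continuous_toFun := by fun_prop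
  source' := by simp
  target' := by simp

theorem p0c_kk_eq {X : Type} [TopologicalSpace X] (k : ℝ → X) (hk : Continuous k) (a b : ℝ) :
    p0c_kk k hk a b = (p0c_ln a b).map hk := rfl

theorem p0c_kk_trans {X : Type} [TopologicalSpace X] (k : ℝ → X) (hk : Continuous k) (a b c : ℝ) :
    (Path.Homotopic.Quotient.mk (p0c_kk k hk a b)).trans
      (Path.Homotopic.Quotient.mk (p0c_kk k hk b c)) =
      Path.Homotopic.Quotient.mk (p0c_kk k hk a c) := by
  rw [← Path.Homotopic.Quotient.mk_trans, Path.Homotopic.Quotient.eq]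
  rw [p0c_kk_eq, p0c_kk_eq, p0c_kk_eq, ← Path.map_trans]
  have h : ((p0c_ln a b).trans (p0c_ln b c)).Homotopic (p0c_ln a c) :=
    SimplyConnectedSpace.paths_homotopic _ _
  exact h.map ⟨k, hk⟩

/-- `parallel` for paths given pointwise -/
theorem p0c_parallel (g : GK) {ε : ℝ} (hF : GFacts g) (hT : TubeF g ε) (f : LongKnot 3)
    {tp : ∀ p : Eu 3, ∀ h : KTop f p, Path.Homotopic.Quotient
        (⟨bb, bb_notin f⟩ : Cp (Set.range f.toFun)) ⟨p, h.nin⟩}
    {bp : ∀ p : Eu 3, ∀ h : KBot f p, Path.Homotopic.Quotient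
        (⟨bb, bb_notin f⟩ : Cp (Set.range f.toFun)) ⟨p, h.nin⟩}
    {PL : ∀ _ _ : ℝ, KG f} (hK : KTB f tp bp PL) (c η : ℝ) (hη : 0 < η) (hη1 : 48 * η < 1)
    (hf : ∀ p : Eu 3, |p 0 - c| ≤ 1 / 5 → (p ∈ Set.range f.toFun ↔ p - v3 c 0 0 ∈ Set.range g.be))
    {p q : Eu 3} (hp : p = v3 c 0 0 + g.be (-(1 / 5)) + η • g.ve (-(1 / 5)))
    (hq : q = v3 c 0 0 + g.be (1 / 5) + η • g.ve (1 / 5))
    (ha : KTop f p) (hb : KTop f q)
    (δ : Path (⟨p, ha.nin⟩ : Cp (Set.range f.toFun)) ⟨q, hb.nin⟩)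
    (hδ : ∀ t, (δ t).1 = v3 c 0 0 + g.be (-(1 / 5) + 2 / 5 * (t : ℝ)) +
      η • g.ve (-(1 / 5) + 2 / 5 * (t : ℝ))) :
    (tp _ ha).trans (Path.Homotopic.Quotient.mk δ) =
    (toQ (lam (G := KG f) g (fun i j => PL (c + (i + 1 / 2) / 48) ((j + 1 / 2) / 48)))).trans
      (tp _ hb) := by
  subst hp hq
  have hpp : ∀ t, parl g hT.sb.continuous hT.sv.continuous c η t ∉ Set.range f.toFun := by
    intro t
    have h1 : parl g hT.sb.continuous hT.sv.continuous c η t = (δ t).1 := (hδ t).symm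
    rw [h1]
    exact (δ t).2
  have h := parallel g hF hT f hK c η hη hη1 hf ha hb hpp
  have e : δ = inC (parl g hT.sb.continuous hT.sv.continuous c η) hpp ha.nin hb.nin := by
    exact Path.ext (funext fun t => Subtype.ext (hδ t))
  rw [e]
  exact h

theorem par0_class (hg : ∀ l, TubeF (g l) ε) (hG : ∀ l, GFacts (g l)) {f : LongKnot 3}
    (hf : ∀ t, f.toFun t = Mc g 0 1 2 th0 (v3 t 0 0))
    {tp : ∀ p : Eu 3, ∀ h : KTop f p, Path.Homotopic.Quotient
        (⟨bb, bb_notin f⟩ : Cp (Set.range f.toFun)) ⟨p, h.nin⟩}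
    {bp : ∀ p : Eu 3, ∀ h : KBot f p, Path.Homotopic.Quotient
        (⟨bb, bb_notin f⟩ : Cp (Set.range f.toFun)) ⟨p, h.nin⟩}
    {PL : ∀ _ _ : ℝ, KG f} (hK : KTB f tp bp PL) {η : ℝ} (h0 : 0 < η) (h1 : η < ε)
    (ha : KTop f (v3 (-2) η 0)) (hb : KTop f (v3 2 η 0))
    (γ : Path (⟨v3 (-2) η 0, ha.nin⟩ : Cp (Set.range f.toFun)) ⟨v3 2 η 0, hb.nin⟩)
    (hγ : ∀ t, (γ t).1 = Mc g 0 1 2 th0 (v3 (-2 + 4 * (t : ℝ)) η 0)) :
    (tp _ ha).trans (Path.Homotopic.Quotient.mk γ) = (toQ (Lam g PL)).trans (tp _ hb) := by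
  classical
  -- the parallel
  set h : ℝ → Eu 3 := fun u => Mc g 0 1 2 th0 (v3 u η 0) with hh
  have hhc : Continuous h :=
    (Mc0_smooth hg).continuous.comp (v3_cont continuous_id continuous_const continuous_const)
  have hav : ∀ u, h u ∉ Set.range f.toFun := by
    rintro u ⟨t, ht⟩
    rw [hf t] at ht
    exact Mc0_avoid hg h0 h1 ht
  set k : ℝ → Cp (Set.range f.toFun) := fun u => ⟨h u, hav u⟩ with hk
  have hkc : Continuous k := hhc.subtype_mk _
  have hrng : ∀ p : Eu 3, p ∈ Set.range f.toFun ↔ ∃ t : ℝ, Mc g 0 1 2 th0 (v3 t 0 0) = p := by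
    intro p
    constructor
    · rintro ⟨t, ht⟩; exact ⟨t, by rw [← hf t]; exact ht⟩
    · rintro ⟨t, ht⟩; exact ⟨t, by rw [hf t]; exact ht⟩
  have hη1 : 48 * η < 1 := by
    have := (hg 0).le
    linarith
  -- the standard part
  have hstd : ∀ u : ℝ, (∀ l, 1 / 5 ≤ |u - th0.1 l|) → h u = v3 u η 0 := by
    intro u hu
    refine Mc0_out hg fun l => ?_
    have := hu l
    simp only [v3_0]
    linarith
  have htop : ∀ u : ℝ, (∀ l, 1 / 5 ≤ |u - th0.1 l|) → KTop f (h u) := by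
    intro u hu w _ hw
    rw [hstd u hu] at hw
    simp only [v3_0, v3_1] at hw
    rw [hrng] at hw
    have h2 := (rng_out hg th0_dis (i := 0) (j := 1) (k := 2) (by decide) (by decide) (by decide)
      (p := v3 u η w) (fun l => by
        have := hu l
        simp only [v3_0]
        have h3 : th0.2 l = 1 := rfl
        rw [h3]
        linarith)).1 hw
    simp only [v3_1] at h2
    exact h0.ne' h2.1
  -- a standard segment
  have hseg : ∀ (a b : ℝ) (ua : KTop f (h a)) (ub : KTop f (h b)), a ≤ b →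
      (∀ u, a ≤ u → u ≤ b → ∀ l, 1 / 5 ≤ |u - th0.1 l|) →
      (tp _ ua).trans (Path.Homotopic.Quotient.mk (p0c_kk k hkc a b)) = tp _ ub := by
    intro a b ua ub hab hu
    have hin : ∀ t : I, a ≤ (1 - (t : ℝ)) * a + (t : ℝ) * b ∧ (1 - (t : ℝ)) * a + (t : ℝ) * b ≤ b := by
      intro t
      have t0 := t.2.1
      have t1 := t.2.2
      constructor
      · nlinarith
      · nlinarith
    have hδ : ∀ t, KTop f (p0c_kk h hhc a b t) := fun t => htop _ (hu _ (hin t).1 (hin t).2)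
    have h2 := hK.top ua ub (p0c_kk h hhc a b) hδ
    exact h2
  -- a knot segment
  have hknot : ∀ (l : Fin 3) (ua : KTop f (h (th0.1 l - 1 / 5))) (ub : KTop f (h (th0.1 l + 1 / 5))),
      (tp _ ua).trans (Path.Homotopic.Quotient.mk
        (p0c_kk k hkc (th0.1 l - 1 / 5) (th0.1 l + 1 / 5))) =
      (toQ (lam (g l) (cel PL th0 l))).trans (tp _ ub) := by
    intro l ua ub
    have e1 : h (th0.1 l - 1 / 5) = v3 (th0.1 l) 0 0 + (g l).be (-(1 / 5)) +
        η • (g l).ve (-(1 / 5)) := by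
      have := Mc0_slab hg l (u := th0.1 l - 1 / 5) (η := η) (by
        rw [show th0.1 l - 1 / 5 - th0.1 l = -(1 / 5) by ring, abs_neg, abs_of_pos (by norm_num)])
        h0.le h1
      rw [show th0.1 l - 1 / 5 - th0.1 l = -(1 / 5) by ring] at this
      exact this
    have e2 : h (th0.1 l + 1 / 5) = v3 (th0.1 l) 0 0 + (g l).be (1 / 5) +
        η • (g l).ve (1 / 5) := by
      have := Mc0_slab hg l (u := th0.1 l + 1 / 5) (η := η) (by
        rw [show th0.1 l + 1 / 5 - th0.1 l = 1 / 5 by ring, abs_of_pos (by norm_num)])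
        h0.le h1
      rw [show th0.1 l + 1 / 5 - th0.1 l = 1 / 5 by ring] at this
      exact this
    have h2 := p0c_parallel (g l) (hG l) (hg l) f hK (th0.1 l) η h0 hη1 (fun p hp => by
      rw [hrng, rng_slab hg th0_dis (i := 0) (j := 1) (k := 2) (by decide) (by decide) (by decide) l
        (by
          have h3 : th0.2 l = 1 := rfl
          rw [h3]; exact hp)]
      have h3 : th0.2 l = 1 := rfl
      rw [h3, inv_one, one_smul]) e1 e2 ua ub
      (p0c_kk k hkc (th0.1 l - 1 / 5) (th0.1 l + 1 / 5)) (fun t => by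
        have t0 := t.2.1
        have t1 := t.2.2
        have h3 := Mc0_slab hg l (u := (1 - (t : ℝ)) * (th0.1 l - 1 / 5) +
          (t : ℝ) * (th0.1 l + 1 / 5)) (η := η) (by rw [abs_le]; constructor <;> nlinarith) h0.le h1
        rw [show (1 - (t : ℝ)) * (th0.1 l - 1 / 5) + (t : ℝ) * (th0.1 l + 1 / 5) - th0.1 l
          = -(1 / 5) + 2 / 5 * (t : ℝ) by ring] at h3
        exact h3)
    rw [h2]
    congr 3
    funext i j
    have h3 : th0.2 l = 1 := rfl
    simp only [cel, h3, one_mul]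
  -- the values of the centers
  have c0 : th0.1 0 = -2 / 3 := rfl
  have c1 : th0.1 1 = 0 := rfl
  have c2 : th0.1 2 = 2 / 3 := rfl
  have hc : ∀ u : ℝ, 1 / 5 ≤ |u + 2 / 3| → 1 / 5 ≤ |u| → 1 / 5 ≤ |u - 2 / 3| →
      ∀ l, 1 / 5 ≤ |u - th0.1 l| := by
    intro u h2 h3 h4 l
    fin_cases l
    · show 1 / 5 ≤ |u - th0.1 0|
      rw [c0, show u - -2 / 3 = u + 2 / 3 by ring]; exact h2
    · show 1 / 5 ≤ |u - th0.1 1|
      rw [c1, sub_zero]; exact h3
    · show 1 / 5 ≤ |u - th0.1 2|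
      rw [c2]; exact h4
  have hA : ∀ u : ℝ, u ≤ th0.1 0 - 1 / 5 → ∀ l, 1 / 5 ≤ |u - th0.1 l| := by
    intro u hu
    rw [c0] at hu
    exact hc u (by rw [le_abs]; right; linarith) (by rw [le_abs]; right; linarith)
      (by rw [le_abs]; right; linarith)
  have hB : ∀ u : ℝ, th0.1 0 + 1 / 5 ≤ u → u ≤ th0.1 1 - 1 / 5 → ∀ l, 1 / 5 ≤ |u - th0.1 l| := by
    intro u hu hu'
    rw [c0] at hu
    rw [c1] at hu'
    exact hc u (by rw [le_abs]; left; linarith) (by rw [le_abs]; right; linarith)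
      (by rw [le_abs]; right; linarith)
  have hC : ∀ u : ℝ, th0.1 1 + 1 / 5 ≤ u → u ≤ th0.1 2 - 1 / 5 → ∀ l, 1 / 5 ≤ |u - th0.1 l| := by
    intro u hu hu'
    rw [c1] at hu
    rw [c2] at hu'
    exact hc u (by rw [le_abs]; left; linarith) (by rw [le_abs]; left; linarith)
      (by rw [le_abs]; right; linarith)
  have hD : ∀ u : ℝ, th0.1 2 + 1 / 5 ≤ u → ∀ l, 1 / 5 ≤ |u - th0.1 l| := by
    intro u hu
    rw [c2] at hu
    exact hc u (by rw [le_abs]; left; linarith) (by rw [le_abs]; left; linarith)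
      (by rw [le_abs]; left; linarith)
  have um2 : KTop f (h (-2)) := htop _ (hA _ (by rw [c0]; norm_num))
  have ua0 : KTop f (h (th0.1 0 - 1 / 5)) := htop _ (hA _ le_rfl)
  have ub0 : KTop f (h (th0.1 0 + 1 / 5)) := htop _ (hB _ le_rfl (by rw [c0, c1]; norm_num))
  have ua1 : KTop f (h (th0.1 1 - 1 / 5)) := htop _ (hB _ (by rw [c0, c1]; norm_num) le_rfl)
  have ub1 : KTop f (h (th0.1 1 + 1 / 5)) := htop _ (hC _ le_rfl (by rw [c1, c2]; norm_num))
  have ua2 : KTop f (h (th0.1 2 - 1 / 5)) := htop _ (hC _ (by rw [c1, c2]; norm_num) le_rfl)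
  have ub2 : KTop f (h (th0.1 2 + 1 / 5)) := htop _ (hD _ le_rfl)
  have up2 : KTop f (h 2) := htop _ (hD _ (by rw [c2]; norm_num))
  have main : (tp _ um2).trans (Path.Homotopic.Quotient.mk (p0c_kk k hkc (-2) 2)) =
      (toQ (Lam g PL)).trans (tp _ up2) := by
    have s1 := hseg _ _ um2 ua0 (by rw [c0]; norm_num) (fun u _ hu => hA u hu)
    have s2 := hknot 0 ua0 ub0
    have s3 := hseg _ _ ub0 ua1 (by rw [c0, c1]; norm_num) (fun u hu hu' => hB u hu hu')
    have s4 := hknot 1 ua1 ub1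
    have s5 := hseg _ _ ub1 ua2 (by rw [c1, c2]; norm_num) (fun u hu hu' => hC u hu hu')
    have s6 := hknot 2 ua2 ub2
    have s7 := hseg _ _ ub2 up2 (by rw [c2]; norm_num) (fun u hu _ => hD u hu)
    have hL : toQ (Lam g PL) = (toQ (lam (g 0) (cel PL th0 0))).trans
        ((toQ (lam (g 1) (cel PL th0 1))).trans (toQ (lam (g 2) (cel PL th0 2)))) := by
      exact Path.Homotopic.Quotient.trans_assoc (toQ _) (toQ _) (toQ _)
    rw [← p0c_kk_trans k hkc (-2) (th0.1 0 - 1 / 5) 2,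
      ← p0c_kk_trans k hkc (th0.1 0 - 1 / 5) (th0.1 0 + 1 / 5) 2,
      ← p0c_kk_trans k hkc (th0.1 0 + 1 / 5) (th0.1 1 - 1 / 5) 2,
      ← p0c_kk_trans k hkc (th0.1 1 - 1 / 5) (th0.1 1 + 1 / 5) 2,
      ← p0c_kk_trans k hkc (th0.1 1 + 1 / 5) (th0.1 2 - 1 / 5) 2,
      ← p0c_kk_trans k hkc (th0.1 2 - 1 / 5) (th0.1 2 + 1 / 5) 2]
    rw [← Path.Homotopic.Quotient.trans_assoc, s1, ← Path.Homotopic.Quotient.trans_assoc, s2,
      Path.Homotopic.Quotient.trans_assoc, ← Path.Homotopic.Quotient.trans_assoc (tp _ ub0), s3,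
      ← Path.Homotopic.Quotient.trans_assoc (tp _ ua1), s4,
      Path.Homotopic.Quotient.trans_assoc, ← Path.Homotopic.Quotient.trans_assoc (tp _ ub1), s5,
      ← Path.Homotopic.Quotient.trans_assoc (tp _ ua2), s6,
      Path.Homotopic.Quotient.trans_assoc, s7, hL]
    simp only [Path.Homotopic.Quotient.trans_assoc]
  -- transport to the given end points
  have em : v3 (-2) η 0 = h (-2) := (hstd (-2) (hA _ (by rw [c0]; norm_num))).symm
  have ep : v3 2 η 0 = h 2 := (hstd 2 (hD _ (by rw [c2]; norm_num))).symm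
  have gen : ∀ (p q : Eu 3) (_ : p = h (-2)) (_ : q = h 2) (ha : KTop f p) (hb : KTop f q)
      (γ : Path (⟨p, ha.nin⟩ : Cp (Set.range f.toFun)) ⟨q, hb.nin⟩),
      (∀ t, (γ t).1 = h (-2 + 4 * (t : ℝ))) →
      (tp _ ha).trans (Path.Homotopic.Quotient.mk γ) = (toQ (Lam g PL)).trans (tp _ hb) := by
    intro p q hp hq ha hb γ hγ
    subst hp hq
    have e : γ = p0c_kk k hkc (-2) 2 := by
      refine Path.ext (funext fun t => Subtype.ext ?_)
      have h2 : (γ t).1 = h ((1 - (t : ℝ)) * (-2) + (t : ℝ) * 2) := by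
        rw [hγ t]; congr 1; ring
      exact h2
    rw [e]
    exact main
  exact gen _ _ em ep ha hb γ hγ

end Pool.Agent.H414_LQ
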