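import Pool.Agent.H414_LQ.Base3

/-!
JOB M8b.  Homeomorphisms of space fixing a curve, near this curve.
-/

set_option autoImplicit false

open scoped Topology ContDiff unitInterval

noncomputable section

namespace Pool.Agent.H414_LQ

open Pool.Agent.H414_LK

/-- the tube around the axis -/
def NA_T (ε : ℝ) : Set (Eu 3) := {x | ‖x - v3 (x 0) 0 0‖ < ε}

theorem NA_coord (i : Fin 3) : Continuous (fun x : Eu 3 => x i) :=
  (coord_contDiff' (contDiff_id (𝕜 := ℝ) (n := 0)) i).continuous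

theorem NA_T_open (ε : ℝ) : IsOpen (NA_T ε) := by
  refine isOpen_lt ?_ continuous_const
  exact (continuous_id.sub (v3_cont (NA_coord 0) continuous_const continuous_const)).norm

theorem NA_mem_iff {ε : ℝ} (hε : 0 < ε) (x : Eu 3) : x ∈ NA_T ε ↔ x 1 ^ 2 + x 2 ^ 2 < ε ^ 2 := by
  have h : ‖x - v3 (x 0) 0 0‖ ^ 2 = x 1 ^ 2 + x 2 ^ 2 := by
    rw [normsq3]; simp
  rw [← h]
  constructor
  · intro hx
    exact pow_lt_pow_left₀ hx (norm_nonneg _) (by norm_num)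
  · intro hx
    exact lt_of_pow_lt_pow_left₀ 2 hε.le hx

theorem NA_axis_mem {ε : ℝ} (hε : 0 < ε) (t : ℝ) : v3 t 0 0 ∈ NA_T ε := by
  rw [NA_mem_iff hε]; simp; positivity

theorem NA_local {Θ : Eu 3 → Eu 3} (hΘ : ContDiff ℝ ∞ Θ) (a : Eu 3)
    (hd : Function.Injective (fderiv ℝ Θ a)) :
    ∃ V : Set (Eu 3), IsOpen V ∧ a ∈ V ∧ ∀ W, IsOpen W → W ⊆ V → IsOpen (Θ '' W) := by
  let L : Eu 3 ≃ₗ[ℝ] Eu 3 := LinearEquiv.ofInjectiveEndo (fderiv ℝ Θ a).toLinearMap hd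
  let e : Eu 3 ≃L[ℝ] Eu 3 := L.toContinuousLinearEquiv
  have he : (e : Eu 3 →L[ℝ] Eu 3) = fderiv ℝ Θ a := by ext1 x; rfl
  have hs : HasStrictFDerivAt Θ (e : Eu 3 →L[ℝ] Eu 3) a := by
    rw [he]; exact hΘ.contDiffAt.hasStrictFDerivAt (by simp)
  let E := hs.toOpenPartialHomeomorph Θ
  exact ⟨E.source, E.open_source, hs.mem_toOpenPartialHomeomorph_source,
    fun W hW h => E.isOpen_image_of_subset_source hW h⟩

theorem NA_open {Θ : Eu 3 → Eu 3} {ε : ℝ} (hε : 0 < ε)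
    (hΘ : ContDiff ℝ ∞ Θ) (hinj : Set.InjOn Θ (NA_T ε))
    (hd : ∀ t : ℝ, Function.Injective (fderiv ℝ Θ (v3 t 0 0))) :
    ∃ U : Set (Eu 3), IsOpen U ∧ (∀ t : ℝ, v3 t 0 0 ∈ U) ∧ U ⊆ NA_T ε ∧
      Topology.IsOpenEmbedding (fun x : U => Θ x) := by
  choose V hVo hVm hV using fun t : ℝ => NA_local hΘ (v3 t 0 0) (hd t)
  refine ⟨⋃ t, V t ∩ NA_T ε, isOpen_iUnion fun t => (hVo t).inter (NA_T_open ε),
    fun t => Set.mem_iUnion.2 ⟨t, hVm t, NA_axis_mem hε t⟩,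
    Set.iUnion_subset fun t => Set.inter_subset_right, ?_⟩
  have hsub : (⋃ t, V t ∩ NA_T ε) ⊆ NA_T ε := Set.iUnion_subset fun t => Set.inter_subset_right
  have hopen : IsOpen (⋃ t, V t ∩ NA_T ε) :=
    isOpen_iUnion fun t => (hVo t).inter (NA_T_open ε)
  refine Topology.IsOpenEmbedding.of_continuous_injective_isOpenMap
    (hΘ.continuous.comp continuous_subtype_val) ?_ ?_
  · intro x y hxy
    exact Subtype.ext (hinj (hsub x.2) (hsub y.2) hxy)
  · intro W hW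
    have h1 : (fun x : ↥(⋃ t, V t ∩ NA_T ε) => Θ x) '' W =
        ⋃ t, Θ '' ((Subtype.val '' W) ∩ V t) := by
      ext p
      simp only [Set.mem_image, Set.mem_iUnion, Set.mem_inter_iff]
      constructor
      · rintro ⟨x, hx, rfl⟩
        obtain ⟨t, ht⟩ := Set.mem_iUnion.1 x.2
        exact ⟨t, x, ⟨⟨x, hx, rfl⟩, ht.1⟩, rfl⟩
      · rintro ⟨t, _, ⟨⟨x, hx, rfl⟩, _⟩, rfl⟩
        exact ⟨x, hx, rfl⟩
    rw [h1]
    refine isOpen_iUnion fun t => hV t _ ?_ Set.inter_subset_right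
    exact ((hopen.isOpenMap_subtype_val) W hW).inter (hVo t)

/-- the lifted curves -/
theorem NA_curve {Θ F : Eu 3 → Eu 3} {ε : ℝ} (hε : 0 < ε)
    (hΘ : ContDiff ℝ ∞ Θ) (hinj : Set.InjOn Θ (NA_T ε))
    (hd : ∀ t : ℝ, Function.Injective (fderiv ℝ Θ (v3 t 0 0)))
    (hF : Continuous F) (hFa : ∀ t : ℝ, F (Θ (v3 t 0 0)) = Θ (v3 t 0 0)) :
    ∃ η₀ : ℝ, 0 < η₀ ∧ ∀ η : ℝ, 0 < η → η < η₀ → ∃ c : I → Eu 3, Continuous c ∧
      (∀ t, c t ∈ NA_T ε) ∧ ∀ t : I, Θ (c t) = F (Θ (v3 (-2 + 4 * (t : ℝ)) η 0)) := by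
  obtain ⟨U, hUo, hUa, hUs, hg⟩ := NA_open hε hΘ hinj hd
  have hc : Continuous (fun q : ℝ × I => F (Θ (v3 (-2 + 4 * (q.2 : ℝ)) q.1 0))) := by
    refine hF.comp (hΘ.continuous.comp (v3_cont ?_ continuous_fst continuous_const))
    fun_prop
  have hO : IsOpen (Set.range (fun x : U => Θ x)) := hg.isOpen_range
  have h1 : ∀ᶠ η : ℝ in 𝓝 0, ∀ t ∈ (Set.univ : Set I),
      F (Θ (v3 (-2 + 4 * (t : ℝ)) η 0)) ∈ Set.range (fun x : U => Θ x) := by
    refine isCompact_univ.eventually_forall_of_forall_eventually fun t _ => ?_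
    refine hc.continuousAt.eventually (hO.mem_nhds ?_)
    show F (Θ (v3 (-2 + 4 * (t : ℝ)) 0 0)) ∈ _
    rw [hFa]
    exact ⟨⟨v3 (-2 + 4 * (t : ℝ)) 0 0, hUa _⟩, rfl⟩
  obtain ⟨r, hr, h2⟩ := Metric.eventually_nhds_iff.1 h1
  refine ⟨r, hr, fun η h0 hη => ?_⟩
  have h3 : ∀ t : I, F (Θ (v3 (-2 + 4 * (t : ℝ)) η 0)) ∈ Set.range (fun x : U => Θ x) := by
    intro t
    refine h2 ?_ t (Set.mem_univ t)
    rw [Real.dist_eq, sub_zero, abs_of_pos h0]; exact hη
  let Φ := hg.isEmbedding.toHomeomorph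
  let p : I → Set.range (fun x : U => Θ x) := fun t => ⟨F (Θ (v3 (-2 + 4 * (t : ℝ)) η 0)), h3 t⟩
  have hp : Continuous p := by
    refine Continuous.subtype_mk ?_ _
    refine hF.comp (hΘ.continuous.comp (v3_cont ?_ continuous_const continuous_const))
    fun_prop
  refine ⟨fun t => ((Φ.symm (p t) : U) : Eu 3), ?_, fun t => hUs (Φ.symm (p t)).2, fun t => ?_⟩
  · exact continuous_subtype_val.comp (Φ.symm.continuous.comp hp)
  · have h4 : Φ (Φ.symm (p t)) = p t := Φ.apply_symm_apply (p t)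
    exact congrArg Subtype.val h4

/-- the map from the covering of the tube minus the axis -/
def NA_G (Θ : Eu 3 → Eu 3) (q : ℝ × ℂ) : Eu 3 :=
  Θ (v3 q.1 (Complex.exp q.2).re (Complex.exp q.2).im)

theorem NA_G_cont {Θ : Eu 3 → Eu 3} (hΘ : Continuous Θ) : Continuous (NA_G Θ) := by
  refine hΘ.comp (v3_cont continuous_fst ?_ ?_)
  · exact Complex.continuous_re.comp (Complex.continuous_exp.comp continuous_snd)
  · exact Complex.continuous_im.comp (Complex.continuous_exp.comp continuous_snd)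

theorem NA_exp_sq (w : ℂ) : (Complex.exp w).re ^ 2 + (Complex.exp w).im ^ 2 =
    Real.exp w.re ^ 2 := by
  rw [← Complex.norm_exp, Complex.sq_norm, Complex.normSq_apply]; ring

theorem NA_mem_exp {ε : ℝ} (hε : 0 < ε) (a : ℝ) (w : ℂ) :
    v3 a (Complex.exp w).re (Complex.exp w).im ∈ NA_T ε ↔ w.re < Real.log ε := by
  rw [NA_mem_iff hε]
  simp only [v3_1, v3_2]
  rw [NA_exp_sq, Real.lt_log_iff_exp_lt hε]
  exact pow_lt_pow_iff_left₀ (Real.exp_pos _).le hε.le (by norm_num)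

theorem NA_G_off {Θ : Eu 3 → Eu 3} {ε : ℝ} (hε : 0 < ε) (hinj : Set.InjOn Θ (NA_T ε))
    (q : ℝ × ℂ) (hq : q.2.re < Real.log ε) :
    NA_G Θ q ∉ Set.range (fun t : ℝ => Θ (v3 t 0 0)) := by
  rintro ⟨t, ht⟩
  have h1 := hinj (NA_axis_mem hε t) ((NA_mem_exp hε q.1 q.2).2 hq) ht
  have h2 := congrArg (fun v : Eu 3 => v 1) h1
  have h3 := congrArg (fun v : Eu 3 => v 2) h1
  simp only [v3_1, v3_2] at h2 h3
  exact Complex.exp_ne_zero q.2 (Complex.ext h2.symm h3.symm)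

/-- the straight path in the covering -/
def NA_A (η : ℝ) : Path ((-2 : ℝ), (Real.log η : ℂ)) ((2 : ℝ), (Real.log η : ℂ)) where
  toFun t := (-2 + 4 * (t : ℝ), (Real.log η : ℂ))
  continuous_toFun := by fun_prop
  source' := by simp
  target' := by
    refine Prod.ext ?_ rfl
    show -2 + 4 * ((1 : I) : ℝ) = 2
    rw [Set.Icc.coe_one]; norm_num

/-- the turning path in the covering -/
def NA_B (η : ℝ) (k : ℤ) : Path ((2 : ℝ), (Real.log η : ℂ))
    ((2 : ℝ), (Real.log η : ℂ) + k * (2 * Real.pi * Complex.I)) where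
  toFun t := ((2 : ℝ), (Real.log η : ℂ) + ((t : ℝ) : ℂ) * (k * (2 * Real.pi * Complex.I)))
  continuous_toFun := by fun_prop
  source' := by simp
  target' := by simp

theorem NA_B_re (η : ℝ) (k : ℤ) (t : I) : (NA_B η k t).2.re = Real.log η := by
  show ((Real.log η : ℂ) + ((t : ℝ) : ℂ) * (k * (2 * Real.pi * Complex.I))).re = _
  simp

theorem NA_exp_A {η : ℝ} (hη : 0 < η) : Complex.exp (Real.log η : ℂ) = (η : ℂ) := by
  rw [← Complex.ofReal_exp, Real.exp_log hη]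

theorem NA_exp_B {η : ℝ} (hη : 0 < η) (k : ℤ) (t : ℝ) :
    Complex.exp ((Real.log η : ℂ) + (t : ℂ) * (k * (2 * Real.pi * Complex.I))) =
      (η * Real.cos (2 * Real.pi * k * t) : ℝ) + (η * Real.sin (2 * Real.pi * k * t) : ℝ) *
        Complex.I := by
  rw [Complex.exp_add, NA_exp_A hη,
    show (t : ℂ) * (k * (2 * Real.pi * Complex.I)) = ((2 * Real.pi * k * t : ℝ) : ℂ) * Complex.I by
      push_cast; ring, Complex.exp_mul_I]
  push_cast; ring

/-
PROOF IDEA (TARGET).  Let `T r = {x | |x 0| ≤ 3 ∧ ‖x - v3 (x 0) 0 0‖ < r}`.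
(1) `U = {x | ‖x - v3 (x 0) 0 0‖ < ε ∧ fderiv ℝ Θ x invertible}` is open, contains the axis, and
`Θ` is injective on `U` and a local homeomorphism at the points of `U` (inverse function theorem,
`ContDiffAt.toOpenPartialHomeomorph` / `HasStrictFDerivAt.map_nhds_eq_of_equiv`; an injective linear
map of `ℝ³` is an equivalence), so `Θ '' U` is open and there is `Ψ : Eu 3 → Eu 3`, continuous on
`Θ '' U`, with `Ψ (Θ x) = x` for `x ∈ U` (`Function.invFunOn`).  By compactness of `[-3, 3]` there is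
`r > 0` with `T r ⊆ U` (`r ≤ ε`).
(2) `F (Θ (v3 u 0 0)) = Θ (v3 u 0 0)`; by compactness there is `η₀ > 0`, `η₀ < min r δ`, such that for
`u ∈ [-2, 2]`, `0 ≤ η < η₀`: `F (Θ (v3 u η 0)) ∈ Θ '' U` and `c η u = Ψ (F (Θ (v3 u η 0)))` lies in `T r` (the map
`(u, η) ↦ Ψ (F (Θ (v3 u η 0)))` is continuous at the points `(u, 0)`, with value `v3 u 0 0`; tube lemma).
For `η > 0`, `c η u` is not on the axis: otherwise `F (Θ (v3 u η 0)) = Θ (v3 t 0 0) = F (Θ (v3 t 0 0))`, so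
`Θ (v3 u η 0) = Θ (v3 t 0 0)`, and `Θ` is injective on the tube.  Also `c η (±2) = v3 (±2) η 0`
(`hout`, `hFo`).
(3) Write the last two coordinates of `c η u` as `ρ u (cos φ u, sin φ u)` with `ρ u > 0`, `φ`
continuous on `[-2, 2]`, `φ (-2) = 0` (lift through `Circle.exp` or `Complex.exp`:
`Complex.isCoveringMap_exp`, or `Circle` covering lemmas of Mathlib, `IsCoveringMap.liftPath`); then
`φ 2 = 2 π k` for an integer `k`, and `ρ (±2) = η`.  Homotopy in the complement of the curve from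
`F (Θ (v3 u η 0)) = Θ (a u, ρ u cos φ u, ρ u sin φ u)`, `a u = c η u 0`, to `Θ (u, η cos φ u, η sin φ u)`:
interpolate linearly between `a u` and `u`, and between `ρ u` and `η` (`T r` is convex in these
coordinates, `ρ` stays `> 0`, so the points stay off the axis and their images under `Θ` off the curve,
since the curve is `Θ (axis)` and `Θ` is injective on the tube).
(4) `(u, φ) ↦ Θ (v3 u (η cos φ) (η sin φ))` maps the plane (for `|u| ≤ 3` if needed; simply use the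
whole plane, as `‖(0, η cos φ, η sin φ)‖ = η < ε`) to the complement of the curve; the path `(u, φ u)` is
homotopic in the plane, with fixed ends, to the path going from `(-2, 0)` to `(2, 0)` straight and
then to `(2, 2 π k)` straight.  The images of these are `γ` and `ρ`, since `Θ = id` for `|x 0| ≥ 1`.
(`Path.Homotopic` in a convex set or in `ℝ × ℝ`: `SimplyConnectedSpace.paths_homotopic`, or a linear
homotopy.)
-/
theorem near_axis {Θ F : Eu 3 → Eu 3} {ε δ : ℝ} (hε : 0 < ε) (hδ : 0 < δ)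
    (hΘ : ContDiff ℝ ∞ Θ) (hinj : Set.InjOn Θ {x | ‖x - v3 (x 0) 0 0‖ < ε})
    (hd : ∀ t : ℝ, Function.Injective (fderiv ℝ Θ (v3 t 0 0)))
    (hout : ∀ x : Eu 3, 1 ≤ |x 0| → Θ x = x)
    (hF : Continuous F) (hFi : Function.Injective F)
    (hFa : ∀ t : ℝ, F (Θ (v3 t 0 0)) = Θ (v3 t 0 0))
    (hFo : ∀ p : Eu 3, (‖p - v3 2 0 0‖ < δ ∨ ‖p - v3 (-2) 0 0‖ < δ) → F p = p) :
    ∃ η₀ : ℝ, 0 < η₀ ∧ ∀ η : ℝ, 0 < η → η < η₀ → ∃ k : ℤ,
      ∀ (𝒦 : Set (Eu 3)), 𝒦 = Set.range (fun t : ℝ => Θ (v3 t 0 0)) →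
      ∀ (h1 : v3 (-2) η 0 ∉ 𝒦) (h2 : v3 2 η 0 ∉ 𝒦)
        (γ γ' : Path (⟨v3 (-2) η 0, h1⟩ : Cp 𝒦) ⟨v3 2 η 0, h2⟩)
        (ρ : Path (⟨v3 2 η 0, h2⟩ : Cp 𝒦) ⟨v3 2 η 0, h2⟩),
        (∀ t, (γ t).1 = Θ (v3 (-2 + 4 * (t : ℝ)) η 0)) →
        (∀ t, (γ' t).1 = F (Θ (v3 (-2 + 4 * (t : ℝ)) η 0))) →
        (∀ t, (ρ t).1 = rotp η k t) →
        Path.Homotopic.Quotient.mk γ' =
          (Path.Homotopic.Quotient.mk γ).trans (Path.Homotopic.Quotient.mk ρ) := by
  change Set.InjOn Θ (NA_T ε) at hinj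
  obtain ⟨r, hr, hcurve⟩ := NA_curve hε hΘ hinj hd hF hFa
  refine ⟨min r (min ε δ), lt_min hr (lt_min hε hδ), fun η h0 hη => ?_⟩
  have hηr : η < r := lt_of_lt_of_le hη (min_le_left _ _)
  have hηε : η < ε := lt_of_lt_of_le hη ((min_le_right _ _).trans (min_le_left _ _))
  have hηδ : η < δ := lt_of_lt_of_le hη ((min_le_right _ _).trans (min_le_right _ _))
  obtain ⟨c, hcc, hcT, hcΘ⟩ := hcurve η h0 hηr
  have hlogη : Real.log η < Real.log ε := Real.log_lt_log h0 hηε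
  have hvT : ∀ a : ℝ, v3 a η 0 ∈ NA_T ε := by
    intro a
    rw [NA_mem_iff hε]
    simp only [v3_1, v3_2]
    nlinarith
  -- the curve is off the axis
  have hoff : ∀ t : I, (⟨c t 1, c t 2⟩ : ℂ) ≠ 0 := by
    intro t h
    have h1 : c t 1 = 0 := congrArg Complex.re h
    have h2 : c t 2 = 0 := congrArg Complex.im h
    have h3 : c t = v3 (c t 0) 0 0 := ext3 rfl h1 h2
    have h4 := hcΘ t
    rw [h3, ← hFa] at h4
    have h5 := hinj (NA_axis_mem hε _) (hvT _) (hFi h4)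
    have h6 := congrArg (fun v : Eu 3 => v 1) h5
    simp only [v3_1] at h6
    linarith
  -- the ends
  have hnorm : ∀ a : ℝ, ‖v3 a η 0 - v3 a 0 0‖ < δ := by
    intro a
    refine lt_of_pow_lt_pow_left₀ 2 hδ.le ?_
    rw [normsq3]
    simp only [sub_app, v3_0, v3_1, v3_2]
    nlinarith
  have hc0 : c 0 = v3 (-2) η 0 := by
    refine hinj (hcT 0) (hvT _) ?_
    rw [hcΘ 0, show -2 + 4 * ((0 : I) : ℝ) = -2 by simp,
      hout (v3 (-2) η 0) (by simp only [v3_0]; norm_num)]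
    exact hFo _ (Or.inr (hnorm _))
  have hc1 : c 1 = v3 2 η 0 := by
    refine hinj (hcT 1) (hvT _) ?_
    rw [hcΘ 1, show -2 + 4 * ((1 : I) : ℝ) = 2 by rw [Set.Icc.coe_one]; norm_num,
      hout (v3 2 η 0) (by simp only [v3_0]; norm_num)]
    exact hFo _ (Or.inl (hnorm _))
  -- the lift
  have hzc : Continuous (fun t : I => (⟨c t 1, c t 2⟩ : ℂ)) := by
    have h1 : Continuous (fun t : I => c t 1) := (NA_coord 1).comp hcc
    have h2 : Continuous (fun t : I => c t 2) := (NA_coord 2).comp hcc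
    exact Complex.equivRealProdCLM.symm.continuous.comp (h1.prodMk h2)
  let z : C(I, {z : ℂ // z ≠ 0}) := ⟨fun t => ⟨⟨c t 1, c t 2⟩, hoff t⟩, hzc.subtype_mk _⟩
  have hz0 : z 0 = (fun w : ℂ => (⟨Complex.exp w, w.exp_ne_zero⟩ : {z : ℂ // z ≠ 0}))
      (Real.log η : ℂ) := by
    refine Subtype.ext ?_
    show (⟨c 0 1, c 0 2⟩ : ℂ) = Complex.exp (Real.log η : ℂ)
    rw [NA_exp_A h0, hc0]
    exact Complex.ext rfl rfl
  let w : C(I, ℂ) := Complex.isCoveringMap_exp.liftPath z (Real.log η : ℂ) hz0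
  have hw : ∀ t : I, Complex.exp (w t) = ⟨c t 1, c t 2⟩ := by
    intro t
    have := congrFun (Complex.isCoveringMap_exp.liftPath_lifts z (Real.log η : ℂ) hz0) t
    exact congrArg Subtype.val this
  have hw0 : w 0 = (Real.log η : ℂ) :=
    Complex.isCoveringMap_exp.liftPath_zero z (Real.log η : ℂ) hz0
  obtain ⟨k, hk⟩ : ∃ k : ℤ, w 1 = (Real.log η : ℂ) + k * (2 * Real.pi * Complex.I) := by
    refine Complex.exp_eq_exp_iff_exists_int.1 ?_
    rw [hw 1, NA_exp_A h0, hc1]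
    exact Complex.ext rfl rfl
  have hwre : ∀ t : I, (w t).re < Real.log ε := by
    intro t
    rw [← NA_mem_exp hε (c t 0), hw t]
    show v3 (c t 0) (c t 1) (c t 2) ∈ _
    rw [v3_eta]; exact hcT t
  refine ⟨k, fun 𝒦 h𝒦 h1 h2 γ γ' ρ hγ hγ' hρ => ?_⟩
  subst h𝒦
  -- the two paths in the covering
  let P1 : I → ℝ × ℂ := fun t => (c t 0, w t)
  let P2 : Path ((-2 : ℝ), (Real.log η : ℂ))
    ((2 : ℝ), (Real.log η : ℂ) + k * (2 * Real.pi * Complex.I)) := (NA_A η).trans (NA_B η k)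
  have hP1c : Continuous P1 := ((NA_coord 0).comp hcc).prodMk w.continuous
  have hP2re : ∀ t, (P2 t).2.re = Real.log η := by
    intro t
    show (((NA_A η).trans (NA_B η k)) t).2.re = _
    rw [Path.trans_apply]
    split_ifs with h
    · exact Complex.ofReal_re _
    · exact NA_B_re _ _ _
  have hre : ∀ s t : I, (((1 - (s : ℝ)) • P1 t + (s : ℝ) • P2 t).2).re < Real.log ε := by
    intro s t
    have h3 : (((1 - (s : ℝ)) • P1 t + (s : ℝ) • P2 t).2).re =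
        (1 - (s : ℝ)) * (w t).re + (s : ℝ) * (P2 t).2.re := by
      simp [P1]
    rw [h3, hP2re]
    have hs0 : 0 ≤ (s : ℝ) := s.2.1
    have hs1 : (s : ℝ) ≤ 1 := s.2.2
    have h4 := hwre t
    rcases eq_or_lt_of_le hs0 with h | h
    · rw [← h]; linarith
    · nlinarith
  have hG1 : ∀ t : I, NA_G Θ (P1 t) = (γ' t).1 := by
    intro t
    show Θ (v3 (c t 0) (Complex.exp (w t)).re (Complex.exp (w t)).im) = _
    rw [hw t, hγ' t, ← hcΘ t]
    show Θ (v3 (c t 0) (c t 1) (c t 2)) = _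
    rw [v3_eta]
  have hG2 : ∀ t : I, NA_G Θ (P2 t) = ((γ.trans ρ) t).1 := by
    intro t
    show NA_G Θ (((NA_A η).trans (NA_B η k)) t) = _
    rw [Path.trans_apply, Path.trans_apply]
    split_ifs with h
    · rw [hγ]
      show Θ (v3 _ (Complex.exp (Real.log η : ℂ)).re (Complex.exp (Real.log η : ℂ)).im) = _
      rw [NA_exp_A h0]
      rfl
    · rw [hρ]
      have hcoe : ∀ t' : I, NA_G Θ (NA_B η k t') = rotp η k t' := by
        intro t'
        show Θ (v3 2 (Complex.exp ((Real.log η : ℂ) +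
          ((t' : ℝ) : ℂ) * (k * (2 * Real.pi * Complex.I)))).re (Complex.exp ((Real.log η : ℂ) +
          ((t' : ℝ) : ℂ) * (k * (2 * Real.pi * Complex.I)))).im) = v3 2 _ _
        rw [NA_exp_B h0, hout _ (by simp only [v3_0]; norm_num)]
        have e1 : ∀ a b : ℝ, ((a : ℂ) + (b : ℂ) * Complex.I).re = a := by intro a b; simp
        have e2 : ∀ a b : ℝ, ((a : ℂ) + (b : ℂ) * Complex.I).im = b := by intro a b; simp
        exact ext3 rfl (e1 _ _) (e2 _ _)
      exact hcoe _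
  have hends : ∀ s t : I, t ∈ ({0, 1} : Set I) →
      (1 - (s : ℝ)) • P1 t + (s : ℝ) • P2 t = P1 t := by
    intro s t ht
    have h3 : P2 t = P1 t := by
      rcases ht with rfl | ht
      · rw [P2.source]
        show _ = (c 0 0, w 0)
        rw [hc0, hw0]; rfl
      · rw [Set.mem_singleton_iff] at ht
        subst ht
        rw [P2.target]
        show _ = (c 1 0, w 1)
        rw [hc1, hk]; rfl
    rw [h3, ← add_smul]; simp
  have hhom : Path.Homotopic γ' (γ.trans ρ) := by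
    refine ⟨⟨⟨⟨fun q => ⟨NA_G Θ ((1 - (q.1 : ℝ)) • P1 q.2 + (q.1 : ℝ) • P2 q.2),
      NA_G_off hε hinj _ (hre q.1 q.2)⟩, ?_⟩, ?_, ?_⟩, ?_⟩⟩
    · refine Continuous.subtype_mk ((NA_G_cont hΘ.continuous).comp ?_) _
      have hP2c : Continuous (fun q : I × I => P2 q.2) := P2.continuous.comp continuous_snd
      have hP1c' : Continuous (fun q : I × I => P1 q.2) := hP1c.comp continuous_snd
      have hs : Continuous (fun q : I × I => (q.1 : ℝ)) :=
        continuous_subtype_val.comp continuous_fst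
      exact ((continuous_const.sub hs).smul hP1c').add (hs.smul hP2c)
    · intro t
      refine Subtype.ext ?_
      show NA_G Θ ((1 - ((0 : I) : ℝ)) • P1 t + ((0 : I) : ℝ) • P2 t) = (γ' t).1
      rw [← hG1]; simp
    · intro t
      refine Subtype.ext ?_
      show NA_G Θ ((1 - ((1 : I) : ℝ)) • P1 t + ((1 : I) : ℝ) • P2 t) = ((γ.trans ρ) t).1
      rw [← hG2]; simp
    · intro s t ht
      refine Subtype.ext ?_
      show NA_G Θ ((1 - (s : ℝ)) • P1 t + (s : ℝ) • P2 t) = (γ' t).1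
      rw [hends s t ht, hG1]
  rw [← Path.Homotopic.Quotient.mk_trans]
  exact Path.Homotopic.Quotient.eq.2 hhom

end Pool.Agent.H414_LQ
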