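import Pool.Agent.H414_LQ.Base3

/-!
JOB M8c.  Meridians.
-/

set_option autoImplicit false

open scoped Topology ContDiff unitInterval

noncomputable section

namespace Pool.Agent.H414_LQ

open Pool.Agent.H414_LK

/-! ### auxiliary: points of long knots -/

theorem M8c_range (f : LongKnot 3) {p : Eu 3} (hp : p ∈ Set.range f.toFun) :
    (p 1 = 0 ∧ p 2 = 0 ∧ 1 ≤ |p 0|) ∨ (|p 0| ≤ 1 ∧ |p 1| ≤ 1 ∧ |p 2| ≤ 1) := by
  obtain ⟨t, rfl⟩ := hp
  rcases le_total 1 |t| with h | h
  · left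
    rw [f.standard t h, axis_eq]
    exact ⟨rfl, rfl, h⟩
  · right
    have h1 := f.ball t h
    rw [mem_closedBall_zero_iff] at h1
    have h2 : ‖f.toFun t‖ ^ 2 ≤ 1 := by nlinarith [norm_nonneg (f.toFun t)]
    rw [normsq3] at h2
    refine ⟨?_, ?_, ?_⟩ <;>
    · rw [← sq_le_one_iff_abs_le_one]
      nlinarith [sq_nonneg (f.toFun t 0), sq_nonneg (f.toFun t 1), sq_nonneg (f.toFun t 2)]

theorem M8c_free_top (f : LongKnot 3) {x y : ℝ} (hy : 1 < y) : Free f x y := by
  intro w hw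
  rcases M8c_range f hw with h | h
  · simp only [v3_1] at h; linarith [h.1]
  · simp only [v3_1] at h
    have := le_abs_self y
    linarith [h.2.1]

theorem M8c_free_neg (f : LongKnot 3) (hn : ∀ t, 0 ≤ f.toFun t 1) {x y : ℝ} (hy : y < 0) :
    Free f x y := by
  rintro w ⟨t, ht⟩
  have h1 := hn t
  rw [ht, v3_1] at h1
  linarith

theorem M8c_free_out (f : LongKnot 3) {x y : ℝ} (hx : 1 < |x|) (hy : y ≠ 0) : Free f x y := by
  intro w hw
  rcases M8c_range f hw with h | h
  · simp only [v3_1] at h; exact hy h.1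
  · simp only [v3_0] at h; linarith [h.1]

theorem M8c_free_ktop {f : LongKnot 3} {p : Eu 3} (h : Free f (p 0) (p 1)) : KTop f p :=
  fun w _ => h w

theorem M8c_free_kbot {f : LongKnot 3} {p : Eu 3} (h : Free f (p 0) (p 1)) : KBot f p :=
  fun w _ => h w

/-! ### auxiliary: algebra of path classes -/

theorem M8c_cancel {X : Type} [TopologicalSpace X] {a b c d : X}
    (P : Path.Homotopic.Quotient a b) (Q : Path.Homotopic.Quotient d b)
    (g : Path.Homotopic.Quotient b c) :
    (P.trans g).trans (Q.trans g).symm = P.trans Q.symm := by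
  induction P using Path.Homotopic.Quotient.ind with
  | _ P =>
  induction Q using Path.Homotopic.Quotient.ind with
  | _ Q =>
  induction g using Path.Homotopic.Quotient.ind with
  | _ g =>
  rw [← Path.Homotopic.Quotient.mk_trans, ← Path.Homotopic.Quotient.mk_trans,
    ← Path.Homotopic.Quotient.mk_symm, Path.trans_symm, Path.Homotopic.Quotient.mk_trans,
    Path.Homotopic.Quotient.mk_trans,
    Path.Homotopic.Quotient.trans_assoc, ← Path.Homotopic.Quotient.trans_assoc (Path.Homotopic.Quotient.mk g),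
    Path.Homotopic.Quotient.mk_symm, Path.Homotopic.Quotient.trans_symm,
    Path.Homotopic.Quotient.refl_trans, Path.Homotopic.Quotient.mk_symm]

theorem M8c_rcancel {X : Type} [TopologicalSpace X] {a b c : X}
    {P Q : Path.Homotopic.Quotient a b} {g : Path.Homotopic.Quotient b c}
    (h : P.trans g = Q.trans g) : P = Q := by
  have h1 := congrArg (fun z => Path.Homotopic.Quotient.trans z g.symm) h
  simpa only [Path.Homotopic.Quotient.trans_assoc, Path.Homotopic.Quotient.trans_symm,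
    Path.Homotopic.Quotient.trans_refl] using h1

theorem M8c_symm_trans {X : Type} [TopologicalSpace X] {a b c : X}
    (P : Path.Homotopic.Quotient a b) (Q : Path.Homotopic.Quotient b c) :
    (P.trans Q).symm = Q.symm.trans P.symm := by
  apply M8c_rcancel (g := P.trans Q)
  rw [Path.Homotopic.Quotient.symm_trans, Path.Homotopic.Quotient.trans_assoc,
    ← Path.Homotopic.Quotient.trans_assoc P.symm, Path.Homotopic.Quotient.symm_trans,
    Path.Homotopic.Quotient.refl_trans, Path.Homotopic.Quotient.symm_trans]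

theorem M8c_symm_symm {X : Type} [TopologicalSpace X] {a b : X}
    (P : Path.Homotopic.Quotient a b) : P.symm.symm = P := by
  apply M8c_rcancel (g := P.symm)
  rw [Path.Homotopic.Quotient.symm_trans, Path.Homotopic.Quotient.trans_symm]

/-- two paths that lift to paths in `ℝ` with the same ends are homotopic -/
theorem M8c_homot {X : Type} [TopologicalSpace X] {x y : X} (ρ : ℝ → X) (hρ : Continuous ρ)
    (γ₁ γ₂ : Path x y) (g₁ g₂ : I → ℝ) (h₁ : Continuous g₁) (h₂ : Continuous g₂)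
    (e₁ : ∀ t, γ₁ t = ρ (g₁ t)) (e₂ : ∀ t, γ₂ t = ρ (g₂ t)) (h0 : g₁ 0 = g₂ 0)
    (h1 : g₁ 1 = g₂ 1) : γ₁.Homotopic γ₂ := by
  refine ⟨⟨⟨⟨fun z => ρ ((1 - (z.1 : ℝ)) * g₁ z.2 + (z.1 : ℝ) * g₂ z.2), ?_⟩, ?_, ?_⟩, ?_⟩⟩
  · exact hρ.comp (by fun_prop)
  · intro t
    simp [e₁ t]
  · intro t
    simp [e₂ t]
  · intro s t ht
    rcases ht with rfl | ht
    · have : (1 - (s : ℝ)) * g₁ 0 + (s : ℝ) * g₂ 0 = g₁ 0 := by rw [← h0]; ring
      simp only [ContinuousMap.coe_mk, this]
      exact (e₁ 0).symm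
    · rw [Set.mem_singleton_iff] at ht
      subst ht
      have : (1 - (s : ℝ)) * g₁ 1 + (s : ℝ) * g₂ 1 = g₁ 1 := by rw [← h1]; ring
      simp only [ContinuousMap.coe_mk, this]
      exact (e₁ 1).symm

/-- the circle around the axis -/
def M8c_circ (η : ℝ) (θ : ℝ) : Eu 3 :=
  v3 2 (η * Real.cos (2 * Real.pi * θ)) (η * Real.sin (2 * Real.pi * θ))

theorem M8c_circ_cont (η : ℝ) : Continuous (M8c_circ η) := by
  unfold M8c_circ
  refine v3_cont continuous_const ?_ ?_ <;> fun_prop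

theorem M8c_out {f : LongKnot 3} {y z : ℝ} (h : y ≠ 0 ∨ z ≠ 0) : v3 2 y z ∉ Set.range f.toFun := by
  intro hp
  rcases M8c_range f hp with h1 | h1
  · simp only [v3_1, v3_2] at h1
    rcases h with h | h
    · exact h h1.1
    · exact h h1.2.1
  · simp only [v3_0] at h1
    norm_num at h1

theorem M8c_circ_nin (f : LongKnot 3) {η : ℝ} (hη : 0 < η) (θ : ℝ) :
    M8c_circ η θ ∉ Set.range f.toFun := by
  refine M8c_out ?_
  by_contra hc
  push Not at hc
  have h1 : Real.cos (2 * Real.pi * θ) = 0 := by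
    rcases mul_eq_zero.1 hc.1 with h | h
    · exact absurd h hη.ne'
    · exact h
  have h2 : Real.sin (2 * Real.pi * θ) = 0 := by
    rcases mul_eq_zero.1 hc.2 with h | h
    · exact absurd h hη.ne'
    · exact h
  have := Real.sin_sq_add_cos_sq (2 * Real.pi * θ)
  rw [h1, h2] at this
  norm_num at this

theorem M8c_circ_add (η θ : ℝ) (k : ℤ) : M8c_circ η (θ + k) = M8c_circ η θ := by
  unfold M8c_circ
  rw [show 2 * Real.pi * (θ + k) = 2 * Real.pi * θ + k * (2 * Real.pi) by ring,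
    Real.cos_add_int_mul_two_pi, Real.sin_add_int_mul_two_pi]

theorem M8c_rotp (η : ℝ) (k : ℤ) (t : I) : rotp η k t = M8c_circ η (k * t) := by
  show v3 2 (η * Real.cos (2 * Real.pi * k * t)) (η * Real.sin (2 * Real.pi * k * t)) = _
  unfold M8c_circ
  rw [show 2 * Real.pi * k * (t : ℝ) = 2 * Real.pi * (k * t) by ring]

/-- the upper half of the circle -/
def M8c_up (η : ℝ) : Path (v3 2 η 0) (v3 2 (-η) 0) where
  toFun t := v3 2 (η * Real.cos (Real.pi * t)) (η * Real.sin (Real.pi * t))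
  continuous_toFun := by
    refine v3_cont continuous_const ?_ ?_ <;> fun_prop
  source' := by simp
  target' := by simp

/-- the lower half of the circle -/
def M8c_dn (η : ℝ) : Path (v3 2 (-η) 0) (v3 2 η 0) where
  toFun t := v3 2 (-(η * Real.cos (Real.pi * t))) (-(η * Real.sin (Real.pi * t)))
  continuous_toFun := by
    refine v3_cont continuous_const ?_ ?_ <;> fun_prop
  source' := by simp
  target' := by simp

theorem M8c_up_top (f : LongKnot 3) {η : ℝ} (hη : 0 < η) (t : I) : KTop f (M8c_up η t) := by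
  intro w hw
  show v3 2 (η * Real.cos (Real.pi * t)) w ∉ _
  have hw' : η * Real.sin (Real.pi * t) ≤ w := hw
  refine M8c_out ?_
  by_contra hc
  push Not at hc
  have h1 : Real.cos (Real.pi * t) = 0 := by
    rcases mul_eq_zero.1 hc.1 with h | h
    · exact absurd h hη.ne'
    · exact h
  have h2 : 0 ≤ Real.sin (Real.pi * t) := by
    refine Real.sin_nonneg_of_nonneg_of_le_pi ?_ ?_
    · have := t.2.1; positivity
    · have := t.2.2; have := Real.pi_pos; nlinarith
  have h3 := Real.sin_sq_add_cos_sq (Real.pi * t)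
  rw [h1] at h3
  have h4 : 0 < Real.sin (Real.pi * t) := by
    rcases eq_or_lt_of_le h2 with h | h
    · rw [← h] at h3; norm_num at h3
    · exact h
  rw [hc.2] at hw'
  have := mul_pos hη h4
  linarith

theorem M8c_dn_bot (f : LongKnot 3) {η : ℝ} (hη : 0 < η) (t : I) : KBot f (M8c_dn η t) := by
  intro w hw
  show v3 2 (-(η * Real.cos (Real.pi * t))) w ∉ _
  have hw' : w ≤ -(η * Real.sin (Real.pi * t)) := hw
  refine M8c_out ?_
  by_contra hc
  push Not at hc
  have h1 : Real.cos (Real.pi * t) = 0 := by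
    rcases mul_eq_zero.1 (neg_eq_zero.1 hc.1) with h | h
    · exact absurd h hη.ne'
    · exact h
  have h2 : 0 ≤ Real.sin (Real.pi * t) := by
    refine Real.sin_nonneg_of_nonneg_of_le_pi ?_ ?_
    · have := t.2.1; positivity
    · have := t.2.2; have := Real.pi_pos; nlinarith
  have h3 := Real.sin_sq_add_cos_sq (Real.pi * t)
  rw [h1] at h3
  have h4 : 0 < Real.sin (Real.pi * t) := by
    rcases eq_or_lt_of_le h2 with h | h
    · rw [← h] at h3; norm_num at h3
    · exact h
  rw [hc.2] at hw'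
  have := mul_pos hη h4
  linarith

/-- the circle in the complement -/
def M8c_circC (f : LongKnot 3) {η : ℝ} (hη : 0 < η) (θ : ℝ) : Cp (Set.range f.toFun) :=
  ⟨M8c_circ η θ, M8c_circ_nin f hη θ⟩

theorem M8c_circC_cont (f : LongKnot 3) {η : ℝ} (hη : 0 < η) : Continuous (M8c_circC f hη) :=
  (M8c_circ_cont η).subtype_mk _

/-- the class of `rotp η k` -/
def M8c_c (f : LongKnot 3) {η : ℝ} (hη : 0 < η) (h : KTop f (v3 2 η 0)) (k : ℤ) :
    Path.Homotopic.Quotient (⟨v3 2 η 0, h.nin⟩ : Cp (Set.range f.toFun)) ⟨v3 2 η 0, h.nin⟩ :=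
  Path.Homotopic.Quotient.mk (inC (rotp η k)
    (fun t => by rw [M8c_rotp]; exact M8c_circ_nin f hη _) h.nin h.nin)

theorem M8c_c_zero (f : LongKnot 3) {η : ℝ} (hη : 0 < η) (h : KTop f (v3 2 η 0)) :
    M8c_c f hη h 0 = Path.Homotopic.Quotient.refl _ := by
  unfold M8c_c
  rw [← Path.Homotopic.Quotient.mk_refl, Path.Homotopic.Quotient.eq]
  refine M8c_homot (M8c_circC f hη) (M8c_circC_cont f hη) _ _ (fun _ => 0) (fun _ => 0)
    continuous_const continuous_const ?_ ?_ rfl rfl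
  · intro t
    refine Subtype.ext ?_
    show rotp η 0 t = M8c_circ η 0
    rw [M8c_rotp]
    simp
  · intro t
    refine Subtype.ext ?_
    show v3 2 η 0 = M8c_circ η 0
    simp [M8c_circ]

theorem M8c_c_succ (f : LongKnot 3) {η : ℝ} (hη : 0 < η) (h : KTop f (v3 2 η 0)) (k : ℤ) :
    M8c_c f hη h (k + 1) = (M8c_c f hη h k).trans (M8c_c f hη h 1) := by
  unfold M8c_c
  rw [← Path.Homotopic.Quotient.mk_trans, Path.Homotopic.Quotient.eq]
  refine M8c_homot (M8c_circC f hη) (M8c_circC_cont f hη) _ _ (fun t => ((k + 1 : ℤ) : ℝ) * t)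
    (fun t => k * min (2 * (t : ℝ)) 1 + max (2 * (t : ℝ) - 1) 0)
    (by fun_prop) (by fun_prop) ?_ ?_ (by norm_num) (by norm_num)
  · intro t
    refine Subtype.ext ?_
    exact M8c_rotp η (k + 1) t
  · intro t
    rw [Path.trans_apply]
    split_ifs with ht
    · refine Subtype.ext ?_
      show rotp η k ⟨2 * t, _⟩ = M8c_circ η _
      rw [M8c_rotp]
      have h1 : min (2 * (t : ℝ)) 1 = 2 * t := min_eq_left (by linarith)
      have h2 : max (2 * (t : ℝ) - 1) 0 = 0 := max_eq_right (by linarith)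
      rw [h1, h2, add_zero]
    · refine Subtype.ext ?_
      show rotp η 1 ⟨2 * t - 1, _⟩ = M8c_circ η _
      rw [M8c_rotp]
      push Not at ht
      have h1 : min (2 * (t : ℝ)) 1 = 1 := min_eq_right (by linarith)
      have h2 : max (2 * (t : ℝ) - 1) 0 = 2 * t - 1 := max_eq_left (by linarith)
      rw [h1, h2, mul_one, add_comm, M8c_circ_add]
      simp

theorem M8c_c_one (f : LongKnot 3) {η : ℝ} (hη : 0 < η) (h : KTop f (v3 2 η 0))
    (hq : KTop f (v3 2 (-η) 0)) :
    M8c_c f hη h 1 = (Path.Homotopic.Quotient.mk (inC (M8c_up η)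
        (fun t => (M8c_up_top f hη t).nin) h.nin hq.nin)).trans
      (Path.Homotopic.Quotient.mk (inC (M8c_dn η)
        (fun t => (M8c_dn_bot f hη t).nin) hq.nin h.nin)) := by
  unfold M8c_c
  rw [← Path.Homotopic.Quotient.mk_trans]
  congr 1
  ext1
  ext1 t
  rw [Path.trans_apply]
  split_ifs with ht
  · refine Subtype.ext ?_
    show rotp η 1 t = v3 2 (η * Real.cos (Real.pi * (2 * t))) (η * Real.sin (Real.pi * (2 * t)))
    rw [M8c_rotp, M8c_circ]
    rw [show 2 * Real.pi * (((1 : ℤ) : ℝ) * (t : ℝ)) = Real.pi * (2 * t) by push_cast; ring]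
  · refine Subtype.ext ?_
    show rotp η 1 t = v3 2 (-(η * Real.cos (Real.pi * (2 * t - 1))))
      (-(η * Real.sin (Real.pi * (2 * t - 1))))
    rw [M8c_rotp, M8c_circ]
    rw [show 2 * Real.pi * (((1 : ℤ) : ℝ) * (t : ℝ)) = Real.pi * (2 * t - 1) + Real.pi by
      push_cast; ring, Real.cos_add_pi, Real.sin_add_pi]
    congr 1 <;> ring

section

variable {f : LongKnot 3}
  {tp : ∀ p : Eu 3, ∀ h : KTop f p, Path.Homotopic.Quotient
    (⟨bb, bb_notin f⟩ : Cp (Set.range f.toFun)) ⟨p, h.nin⟩}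
  {bp : ∀ p : Eu 3, ∀ h : KBot f p, Path.Homotopic.Quotient
    (⟨bb, bb_notin f⟩ : Cp (Set.range f.toFun)) ⟨p, h.nin⟩}
  {PL : ∀ _ _ : ℝ, KG f}

/-
PROOF IDEA (TARGET).  (1) If all `v3 (x s) (y s) 0`, `s ∈ [0,1]`, are on a path of points over which
there is nothing of the knot, then `PL` has the same values at the ends: by `hK.pl`, `hK.top`, `hK.bot`,
for a path `δ` from `p` to `q` of points which are `KTop` and `KBot`:
`PL q = bp q (tp q)⁻¹ = bp p [δ] [δ]⁻¹ (tp p)⁻¹ = PL p`.
-/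
theorem PL_path (hK : KTB f tp bp PL) {p q : Eu 3} (δ : Path p q)
    (hδ : ∀ t, Free f (δ t 0) (δ t 1)) : PL (p 0) (p 1) = PL (q 0) (q 1) := by
  have hpf : Free f (p 0) (p 1) := by have := hδ 0; rwa [δ.source] at this
  have hqf : Free f (q 0) (q 1) := by have := hδ 1; rwa [δ.target] at this
  rw [hK.pl (M8c_free_ktop hpf) (M8c_free_kbot hpf), hK.pl (M8c_free_ktop hqf) (M8c_free_kbot hqf),
    ← hK.top (M8c_free_ktop hpf) (M8c_free_ktop hqf) δ (fun t => M8c_free_ktop (hδ t)),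
    ← hK.bot (M8c_free_kbot hpf) (M8c_free_kbot hqf) δ (fun t => M8c_free_kbot (hδ t))]
  exact congrArg PG.of (M8c_cancel _ _ _).symm

/-- the loops in the half plane `y < 0` are all the same -/
theorem PL_neg (hK : KTB f tp bp PL) (hn : ∀ t, 0 ≤ f.toFun t 1) {x y x' y' : ℝ} (hy : y < 0)
    (hy' : y' < 0) : PL x y = PL x' y' := by
  refine PL_path hK (sg (v3 x y 0) (v3 x' y' 0)) fun t => M8c_free_neg f hn ?_
  show (1 - (t : ℝ)) * y + (t : ℝ) * y' < 0
  have h0 := t.2.1
  have h1 := t.2.2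
  rcases eq_or_lt_of_le h0 with h | h
  · rw [← h]; linarith
  · nlinarith

/-
Points `(x, y)` with `1 < |x|`, `0 < y`: there is nothing of the knot over them (a long knot is contained
in the union of the closed unit ball and the axis), and they can be joined by straight segments with
`(x, 3)` and `(0, 3)`, so `tp = bp` there, `PL = 1`.
-/
theorem PL_out (hK : KTB f tp bp PL) {x y : ℝ} (hx : 1 < |x|) (hy : 0 < y) : PL x y = 1 := by
  have h1 : PL x y = PL x 3 := by
    refine PL_path hK (sg (v3 x y 0) (v3 x 3 0)) fun t => ?_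
    have e0 : (sg (v3 x y 0) (v3 x 3 0)) t 0 = x := by
      show (1 - (t : ℝ)) * x + (t : ℝ) * x = x
      ring
    rw [e0]
    refine M8c_free_out f hx (ne_of_gt ?_)
    show 0 < (1 - (t : ℝ)) * y + (t : ℝ) * 3
    have h0 := t.2.1
    have h1 := t.2.2
    rcases eq_or_lt_of_le h0 with h | h
    · rw [← h]; linarith
    · nlinarith
  have h2 : PL x 3 = PL 0 3 := by
    refine PL_path hK (sg (v3 x 3 0) (v3 0 3 0)) fun t => M8c_free_top f ?_
    show 1 < (1 - (t : ℝ)) * 3 + (t : ℝ) * 3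
    linarith
  have hbf : Free f (bb 0) (bb 1) := M8c_free_top f (by simp [bb])
  have h3 : PL (bb 0) (bb 1) = 1 := by
    rw [hK.pl (M8c_free_ktop hbf) (M8c_free_kbot hbf),
      ← hK.top0 (M8c_free_ktop hbf) (Path.refl bb) (fun _ => M8c_free_ktop hbf),
      ← hK.bot0 (M8c_free_kbot hbf) (Path.refl bb) (fun _ => M8c_free_kbot hbf)]
    exact Path.Homotopic.Quotient.trans_symm _
  rw [h1, h2]
  exact h3

/-
`rotp η k t = v3 2 (η cos (2 π k t)) (η sin (2 π k t))`.  For `k = 1`: the first half of the loop lies above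
(`z ≥ 0`) the axis, its points are `KTop`; the second half is `KBot`.  With `p = v3 2 η 0`,
`q = v3 2 (-η) 0`: `tp p [rotp 1] = tp q [second half] = (PL q)⁻¹ bp q [second half] = (PL q)⁻¹ bp p
= (PL q)⁻¹ (PL p) tp p = m⁻¹ tp p`, by `PL_out` and `PL_neg` (`mer PL = PL (1/96) (-(1/96))`).
The class of `rotp η k` is the `k`-th power (as an element of the group of loops at `p`) of that of
`rotp η 1` (e.g. `rotp η k` is the image of a path from `0` to `k` in `ℝ`; induction on `k`, using that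
paths in `ℝ` with the same ends are homotopic).
-/
theorem rot_class (hK : KTB f tp bp PL) (hn : ∀ t, 0 ≤ f.toFun t 1) {η : ℝ} (hη : 0 < η)
    (k : ℤ) (h : KTop f (v3 2 η 0)) (hp : ∀ t, rotp η k t ∉ Set.range f.toFun) :
    (tp _ h).trans (Path.Homotopic.Quotient.mk (inC (rotp η k) hp h.nin h.nin)) =
      (toQ ((mer PL) ^ (-k))).trans (tp _ h) := by
  have hpf : Free f ((v3 2 η 0) 0) ((v3 2 η 0) 1) := M8c_free_out f (by norm_num) hη.ne'
  have hqf : Free f ((v3 2 (-η) 0) 0) ((v3 2 (-η) 0) 1) :=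
    M8c_free_out f (by norm_num) (neg_ne_zero.2 hη.ne')
  have hq : KTop f (v3 2 (-η) 0) := M8c_free_ktop hqf
  have hpb : KBot f (v3 2 η 0) := M8c_free_kbot hpf
  have hqb : KBot f (v3 2 (-η) 0) := M8c_free_kbot hqf
  have e1 := hK.top h hq (M8c_up η) (M8c_up_top f hη)
  have e2 := hK.bot hqb hpb (M8c_dn η) (M8c_dn_bot f hη)
  have e3 : PL 2 η = 1 := PL_out hK (by norm_num) hη
  have e4 : PL 2 η = PG.of ((bp _ hpb).trans (tp _ h).symm) := hK.pl h hpb
  have e5 : mer PL = PL 2 (-η) := PL_neg hK hn (by norm_num) (by linarith)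
  have e6 : PL 2 (-η) = PG.of ((bp _ hqb).trans (tp _ hq).symm) := hK.pl hq hqb
  have e7 : bp _ hpb = tp _ h := by
    have e8 : (bp _ hpb).trans (tp _ h).symm = Path.Homotopic.Quotient.refl _ := by
      rw [e3] at e4
      exact e4.symm
    apply M8c_rcancel (g := (tp _ h).symm)
    rw [e8, Path.Homotopic.Quotient.trans_symm]
  have e9 : toQ ((mer PL)⁻¹) = (tp _ hq).trans (bp _ hqb).symm := by
    rw [e5, e6]
    show ((bp _ hqb).trans (tp _ hq).symm).symm = _
    rw [M8c_symm_trans, M8c_symm_symm]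
  have base : (tp _ h).trans (M8c_c f hη h 1) = (toQ ((mer PL)⁻¹)).trans (tp _ h) := by
    rw [M8c_c_one f hη h hq, ← Path.Homotopic.Quotient.trans_assoc, e1, e9, ← e7, ← e2,
      Path.Homotopic.Quotient.trans_assoc, ← Path.Homotopic.Quotient.trans_assoc (bp _ hqb).symm,
      Path.Homotopic.Quotient.symm_trans, Path.Homotopic.Quotient.refl_trans]
  have hpow : ∀ k : ℤ, toQ ((mer PL) ^ (-(k + 1))) =
      (toQ ((mer PL) ^ (-k))).trans (toQ ((mer PL)⁻¹)) := by
    intro k
    have h1 : (mer PL) ^ (-(k + 1)) = (mer PL) ^ (-k) * (mer PL)⁻¹ := by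
      rw [show -(k + 1) = -k - 1 by ring, zpow_sub_one]
    rw [h1]
    rfl
  have key : ∀ k : ℤ, (tp _ h).trans (M8c_c f hη h k) =
      (toQ ((mer PL) ^ (-k))).trans (tp _ h) := by
    intro k
    induction k using Int.induction_on with
    | zero =>
      rw [M8c_c_zero, Path.Homotopic.Quotient.trans_refl, neg_zero, zpow_zero]
      exact (Path.Homotopic.Quotient.refl_trans _).symm
    | succ i ih =>
      rw [M8c_c_succ, ← Path.Homotopic.Quotient.trans_assoc, ih,
        Path.Homotopic.Quotient.trans_assoc, base, ← Path.Homotopic.Quotient.trans_assoc, ← hpow]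
    | pred i ih =>
      have h1 := M8c_c_succ f hη h (-(i : ℤ) - 1)
      rw [sub_add_cancel] at h1
      rw [h1, ← Path.Homotopic.Quotient.trans_assoc] at ih
      apply M8c_rcancel (g := M8c_c f hη h 1)
      rw [ih, Path.Homotopic.Quotient.trans_assoc, base, ← Path.Homotopic.Quotient.trans_assoc,
        ← hpow, sub_add_cancel]
  exact key k

end

theorem M8c_poly (g : LongKnot 3) (t : I) : poly 2 (-3) t ∉ Set.range g.toFun := by
  have hfar : ∀ p : Eu 3, (1 < |p 1| ∨ 1 < |p 2|) → p ∉ Set.range g.toFun := by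
    intro p hp hr
    rcases M8c_range g hr with h | h
    · rcases hp with h1 | h1
      · rw [h.1] at h1; norm_num at h1
      · rw [h.2.1] at h1; norm_num at h1
    · rcases hp with h1 | h1
      · linarith [h.2.1]
      · linarith [h.2.2]
  have ht : poly 2 (-3) t ∈ Set.range (poly 2 (-3)) := ⟨t, rfl⟩
  unfold poly at ht
  rw [Path.trans_range, Path.trans_range, Path.trans_range, Path.trans_range] at ht
  change poly 2 (-3) t ∈ _ at ht
  apply hfar
  rcases ht with ⟨s, hs⟩ | ⟨s, hs⟩ | ⟨s, hs⟩ | ⟨s, hs⟩ | ⟨s, hs⟩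
  · left
    rw [← hs]
    show 1 < |(1 - (s : ℝ)) * 3 + s * 3|
    rw [show (1 - (s : ℝ)) * 3 + s * 3 = 3 by ring]; norm_num
  · right
    rw [← hs]
    show 1 < |(1 - (s : ℝ)) * (-3) + s * (-3)|
    rw [show (1 - (s : ℝ)) * (-3) + s * (-3) = -3 by ring]; norm_num
  · left
    rw [← hs]
    show 1 < |(1 - (s : ℝ)) * (-3) + s * (-3)|
    rw [show (1 - (s : ℝ)) * (-3) + s * (-3) = -3 by ring]; norm_num
  · right
    rw [← hs]
    show 1 < |(1 - (s : ℝ)) * 3 + s * 3|
    rw [show (1 - (s : ℝ)) * 3 + s * 3 = 3 by ring]; norm_num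
  · left
    rw [← hs]
    show 1 < |(1 - (s : ℝ)) * 3 + s * 3|
    rw [show (1 - (s : ℝ)) * 3 + s * 3 = 3 by ring]; norm_num

/-
PROOF IDEA (TARGET).  By `PL_neg`, `mer (PL f) = PL f 2 (-3)`, same for `f'`.  The polygon
`poly 2 (-3)` avoids all long knots (closed unit ball and axis).  Apply `hT.family` to the constant
family of loops `ℓ (s, t) = poly 2 (-3) t`, and `KTB.poly`.
-/
theorem tr_mer {tr : ∀ {f f' : LongKnot 3}, Path f f' → (KG f ≃* KG f')} (hT : Tr @tr)
    {tp : ∀ f : LongKnot 3, ∀ p : Eu 3, ∀ h : KTop f p, Path.Homotopic.Quotient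
        (⟨bb, bb_notin f⟩ : Cp (Set.range f.toFun)) ⟨p, h.nin⟩}
    {bp : ∀ f : LongKnot 3, ∀ p : Eu 3, ∀ h : KBot f p, Path.Homotopic.Quotient
        (⟨bb, bb_notin f⟩ : Cp (Set.range f.toFun)) ⟨p, h.nin⟩}
    {PL : ∀ f : LongKnot 3, ℝ → ℝ → KG f} (hK : ∀ f, KTB f (tp f) (bp f) (PL f))
    {f f' : LongKnot 3} (hn : ∀ t, 0 ≤ f.toFun t 1) (hn' : ∀ t, 0 ≤ f'.toFun t 1)
    (H : Path f f') : tr H (mer (PL f)) = mer (PL f') := by
  have hav : ∀ (g : LongKnot 3) (t : I), poly 2 (-3) t ∉ Set.range g.toFun := M8c_poly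
  have hfr : ∀ g : LongKnot 3, (∀ t, 0 ≤ g.toFun t 1) → Free g 2 (-3) :=
    fun g hg => M8c_free_neg g hg (by norm_num)
  have e1 : mer (PL f) = PL f 2 (-3) := PL_neg (hK f) hn (by norm_num) (by norm_num)
  have e2 : mer (PL f') = PL f' 2 (-3) := PL_neg (hK f') hn' (by norm_num) (by norm_num)
  rw [e1, e2, (hK f).poly (hfr f hn) (hav f), (hK f').poly (hfr f' hn') (hav f')]
  refine hT.family H (fun z => poly 2 (-3) z.2) ?_ ?_ ?_ ?_ _ _ ?_ ?_
  · exact (poly 2 (-3)).continuous.comp continuous_snd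
  · intro s t
    exact hav _ t
  · intro s
    exact (poly 2 (-3)).source
  · intro s
    exact (poly 2 (-3)).target
  · intro t; rfl
  · intro t; rfl

end Pool.Agent.H414_LQ
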