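import Pool.Agent.H414_LQ.F7a
import Pool.Agent.H414_LQ.M8b
import Pool.Agent.H414_LQ.M8a
import Pool.Agent.H414_LQ.M8c
import Pool.Agent.H414_LQ.F6c

/-!
JOB M8d.  Transport along loops of long knots preserves the longitude up to powers of the meridian.
-/

set_option autoImplicit false

open scoped Topology ContDiff unitInterval

noncomputable section

namespace Pool.Agent.H414_LQ

open Pool.Agent.H414_LK

section given

/-! The following are given, proved elsewhere (jobs F7a, M8a, M8b, M8c, F6c). -/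

variable {g : Fin 3 → GK} {ε : ℝ}

end given

variable {g : Fin 3 → GK} {ε : ℝ}


/-! ### auxiliary facts -/

theorem M8d_inC_trans {𝒦 : Set (Eu 3)} {a b c : Eu 3} (γ : Path a b) (γ' : Path b c)
    (h : ∀ t, (γ.trans γ') t ∉ 𝒦) (h1 : ∀ t, γ t ∉ 𝒦) (h2 : ∀ t, γ' t ∉ 𝒦)
    (ha : a ∉ 𝒦) (hb : b ∉ 𝒦) (hc : c ∉ 𝒦) :
    inC (γ.trans γ') h ha hc = (inC γ h1 ha hb).trans (inC γ' h2 hb hc) := by
  apply Path.ext
  funext t
  apply Subtype.ext
  change (γ.trans γ') t = (((inC γ h1 ha hb).trans (inC γ' h2 hb hc)) t).1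
  rw [Path.trans_apply, Path.trans_apply]
  split_ifs <;> rfl

theorem M8d_inC_symm {𝒦 : Set (Eu 3)} {a b : Eu 3} (γ : Path a b)
    (h : ∀ t, γ.symm t ∉ 𝒦) (h1 : ∀ t, γ t ∉ 𝒦) (ha : a ∉ 𝒦) (hb : b ∉ 𝒦) :
    inC γ.symm h hb ha = (inC γ h1 ha hb).symm := rfl

theorem M8d_trans_notin {𝒦 : Set (Eu 3)} {a b c : Eu 3} {γ : Path a b} {γ' : Path b c}
    (h1 : ∀ t, γ t ∉ 𝒦) (h2 : ∀ t, γ' t ∉ 𝒦) (t : I) : (γ.trans γ') t ∉ 𝒦 := by
  rw [Path.trans_apply]
  split_ifs
  · exact h1 _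
  · exact h2 _

/-- points outside the unit ball with positive second coordinate are not on a long knot -/
theorem M8d_out (f : LongKnot 3) (p : Eu 3) (h : 0 < p 1 ∨ p 2 ≠ 0) (h' : 1 < ‖p‖ ^ 2) :
    p ∉ Set.range f.toFun := by
  rintro ⟨t, ht⟩
  rcases le_total 1 |t| with h1 | h1
  · rw [f.standard t h1, axis_eq] at ht
    rcases h with h | h
    · rw [← ht, v3_1] at h
      exact lt_irrefl _ h
    · rw [← ht, v3_2] at h
      exact h rfl
  · have h2 := f.ball t h1
    rw [ht, mem_closedBall_zero_iff] at h2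
    have : ‖p‖ ^ 2 ≤ 1 := by nlinarith [norm_nonneg p]
    linarith

theorem M8d_KTop (f : LongKnot 3) (p : Eu 3) (h : 0 < p 1) (h' : 1 < p 0 ^ 2 + p 1 ^ 2) :
    KTop f p := by
  intro w _
  apply M8d_out
  · left
    rw [v3_1]
    exact h
  · rw [normsq3, v3_0, v3_1, v3_2]
    nlinarith [sq_nonneg w]

/-- the path from the base point to `(x, η, 0)` -/
def M8d_A (x η : ℝ) : Path bb (v3 x η 0) := (sg bb (v3 x 3 0)).trans (sg (v3 x 3 0) (v3 x η 0))

theorem M8d_A_top (f : LongKnot 3) {x η : ℝ} (hx : x ^ 2 = 4) (hη : 0 < η) (hη1 : η ≤ 3) (t : I) :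
    KTop f (M8d_A x η t) := by
  have key : ∀ t : I, (0 < (M8d_A x η t) 1 ∧
      1 < (M8d_A x η t) 0 ^ 2 + (M8d_A x η t) 1 ^ 2) := by
    intro t
    unfold M8d_A
    rw [Path.trans_apply]
    split_ifs with h
    · generalize (⟨2 * (t : ℝ), _⟩ : I) = u
      change 0 < ((1 - (u : ℝ)) • bb + (u : ℝ) • v3 x 3 0) 1 ∧
        1 < ((1 - (u : ℝ)) • bb + (u : ℝ) • v3 x 3 0) 0 ^ 2 +
          ((1 - (u : ℝ)) • bb + (u : ℝ) • v3 x 3 0) 1 ^ 2
      have e1 : ((1 - (u : ℝ)) • bb + (u : ℝ) • v3 x 3 0) 1 = 3 := by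
        simp [bb]
        ring
      rw [e1]
      constructor
      · norm_num
      · nlinarith [sq_nonneg (((1 - (u : ℝ)) • bb + (u : ℝ) • v3 x 3 0) 0)]
    · generalize (⟨2 * (t : ℝ) - 1, _⟩ : I) = u
      change 0 < ((1 - (u : ℝ)) • v3 x 3 0 + (u : ℝ) • v3 x η 0) 1 ∧
        1 < ((1 - (u : ℝ)) • v3 x 3 0 + (u : ℝ) • v3 x η 0) 0 ^ 2 +
          ((1 - (u : ℝ)) • v3 x 3 0 + (u : ℝ) • v3 x η 0) 1 ^ 2
      have hu0 : (0 : ℝ) ≤ u := u.2.1
      have hu1 : (u : ℝ) ≤ 1 := u.2.2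
      have e0 : ((1 - (u : ℝ)) • v3 x 3 0 + (u : ℝ) • v3 x η 0) 0 = x := by
        simp
        ring
      have e1 : ((1 - (u : ℝ)) • v3 x 3 0 + (u : ℝ) • v3 x η 0) 1 =
          (1 - (u : ℝ)) * 3 + u * η := by
        simp
      rw [e0, e1]
      constructor
      · nlinarith [mul_nonneg (sub_nonneg.mpr hu1) (show (0 : ℝ) ≤ 3 - η by linarith)]
      · nlinarith [sq_nonneg ((1 - (u : ℝ)) * 3 + u * η)]
  exact M8d_KTop f _ (key t).1 (key t).2

/-- the class of the loop through a middle part -/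
theorem M8d_cls {𝒦 : Set (Eu 3)} {a b c : Eu 3} (A : Path a b) (M : Path b c) (B : Path a c)
    (hA : ∀ t, A t ∉ 𝒦) (hM : ∀ t, M t ∉ 𝒦) (hB : ∀ t, B t ∉ 𝒦)
    (ha : a ∉ 𝒦) (hb : b ∉ 𝒦) (hc : c ∉ 𝒦) (h : ∀ t, (A.trans (M.trans B.symm)) t ∉ 𝒦) :
    Path.Homotopic.Quotient.mk (inC (A.trans (M.trans B.symm)) h ha ha) =
      (Path.Homotopic.Quotient.mk (inC A hA ha hb)).trans
        ((Path.Homotopic.Quotient.mk (inC M hM hb hc)).trans
          (Path.Homotopic.Quotient.mk (inC B hB ha hc)).symm) := by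
  have hBs : ∀ t, B.symm t ∉ 𝒦 := fun t => hB _
  rw [M8d_inC_trans A (M.trans B.symm) h hA (M8d_trans_notin hM hBs) ha hb ha,
    M8d_inC_trans M B.symm (M8d_trans_notin hM hBs) hM hBs hb hc ha,
    M8d_inC_symm B hBs hB ha hc, Path.Homotopic.Quotient.mk_trans,
    Path.Homotopic.Quotient.mk_trans, Path.Homotopic.Quotient.mk_symm]


theorem M8d_out' (f : LongKnot 3) (η : ℝ) (hη : 0 < η) (k : ℤ) (t : I) :
    rotp η k t ∉ Set.range f.toFun := by
  rintro ⟨u, hu⟩
  have e : rotp η k t = v3 2 (η * Real.cos (2 * Real.pi * k * t))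
    (η * Real.sin (2 * Real.pi * k * t)) := rfl
  rw [e] at hu
  have hcs := Real.cos_sq_add_sin_sq (2 * Real.pi * k * (t : ℝ))
  rcases le_total 1 |u| with h1 | h1
  · rw [f.standard u h1, axis_eq] at hu
    have h2 := congrArg (fun v : Eu 3 => v 1) hu
    have h3 := congrArg (fun v : Eu 3 => v 2) hu
    simp only [v3_1, v3_2] at h2 h3
    have h4 : Real.cos (2 * Real.pi * k * (t : ℝ)) = 0 := by
      rcases mul_eq_zero.mp h2.symm with h | h
      · exact absurd h hη.ne'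
      · exact h
    have h5 : Real.sin (2 * Real.pi * k * (t : ℝ)) = 0 := by
      rcases mul_eq_zero.mp h3.symm with h | h
      · exact absurd h hη.ne'
      · exact h
    rw [h4, h5] at hcs
    norm_num at hcs
  · have h2 := f.ball u h1
    rw [hu, mem_closedBall_zero_iff] at h2
    have h3 : ‖v3 2 (η * Real.cos (2 * Real.pi * k * t))
        (η * Real.sin (2 * Real.pi * k * t))‖ ^ 2 ≤ 1 := by
      nlinarith [norm_nonneg (v3 2 (η * Real.cos (2 * Real.pi * k * t))
        (η * Real.sin (2 * Real.pi * k * t)))]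
    rw [normsq3, v3_0, v3_1, v3_2] at h3
    nlinarith [sq_nonneg (η * Real.cos (2 * Real.pi * k * t)),
      sq_nonneg (η * Real.sin (2 * Real.pi * k * t))]

/-
PROOF IDEA (TARGET).  Let `Θ = Mc g 0 1 2 th0`, `F` from `isotopy_forward` for `H`, `F₁ = F (1, ·)`.
As `H 0 = H 1 = f`, `F₁ (Θ (v3 t 0 0)) = Θ (v3 t 0 0)`.  Choose `η > 0` small for `near_axis` (`F = F₁`), and
`η < ε`, `η < δ`.  Family of loops at `bb`:
 `ℓ_s = A · (F (s, Θ (v3 u η 0)), u from -2 to 2) · B⁻¹`,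
`A`: `bb → (-2, 3, 0) → (-2, η, 0)` straight, `B`: `bb → (2, 3, 0) → (2, η, 0)` straight.  The points of `A, B`
are outside the closed unit ball and not on the axis, so not on any long knot; `F (s, Θ (v3 u η 0))` is
not on `H s` because `F (s, ·)` is injective and maps the points of `f` to those of `H s`
(`Mc0_avoid`).  All the points of `A`, `B` are `KTop` for `f`, so `[A] = tp (v3 (-2) η 0)`,
`[B] = tp (v3 2 η 0)` (`hK.top0`).  By `hT.family`, `par0_class`, `near_axis`, `rot_class`: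
 `[ℓ_0] = tp (-2) [γ] (tp 2)⁻¹ = Λ`, `[ℓ_1] = tp (-2) [γ] [ρ] (tp 2)⁻¹ = Λ tp 2 [ρ] (tp 2)⁻¹ = Λ m ^ (-k)`.
-/
theorem long_fixed {tr : ∀ {f f' : LongKnot 3}, Path f f' → (KG f ≃* KG f')} (hT : Tr @tr)
    {tp : ∀ f : LongKnot 3, ∀ p : Eu 3, ∀ h : KTop f p, Path.Homotopic.Quotient
        (⟨bb, bb_notin f⟩ : Cp (Set.range f.toFun)) ⟨p, h.nin⟩}
    {bp : ∀ f : LongKnot 3, ∀ p : Eu 3, ∀ h : KBot f p, Path.Homotopic.Quotient
        (⟨bb, bb_notin f⟩ : Cp (Set.range f.toFun)) ⟨p, h.nin⟩}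
    {PL : ∀ f : LongKnot 3, ℝ → ℝ → KG f} (hK : ∀ f, KTB f (tp f) (bp f) (PL f))
    (hg : ∀ l, TubeF (g l) ε) (hG : ∀ l, GFacts (g l)) {f : LongKnot 3}
    (hf : ∀ t, f.toFun t = Mc g 0 1 2 th0 (v3 t 0 0)) (H : Path f f) :
    ∃ k : ℤ, tr H (Lam g (PL f)) = Lam g (PL f) * mer (PL f) ^ k := by
  obtain ⟨F, hFc, hF0, hFf, hFi, hFb, δ, hδ, hFδ⟩ := isotopy_forward (H := H) H.continuous
  have hH0 : H 0 = f := H.source
  have hH1 : H 1 = f := H.target
  rw [hH0] at hFf
  have hε := (hg 0).pos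
  obtain ⟨η₀, hη₀, hnear⟩ := near_axis (Θ := Mc g 0 1 2 th0) (F := fun p => F (1, p))
    (ε := ε) (δ := δ) hε hδ (Mc0_smooth hg) (Mc0_inj hg) (Mc0_dinj hg)
    (fun x hx => Mc0_out' hg hx) (hFc.comp (Continuous.prodMk_right 1)) (hFi 1)
    (fun t => by rw [← hf, hFf, hH1]) (hFδ 1)
  obtain ⟨η, hη0, hη1⟩ : ∃ η : ℝ, 0 < η ∧ η < η₀ ∧ η < ε ∧ η < δ ∧ η < 1 := by
    refine ⟨min (min η₀ ε) (min δ 1) / 2, by positivity, ?_, ?_, ?_, ?_⟩
    · have h1 : min (min η₀ ε) (min δ 1) ≤ η₀ := (min_le_left _ _).trans (min_le_left _ _)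
      linarith
    · have h1 : min (min η₀ ε) (min δ 1) ≤ ε := (min_le_left _ _).trans (min_le_right _ _)
      linarith
    · have h1 : min (min η₀ ε) (min δ 1) ≤ δ := (min_le_right _ _).trans (min_le_left _ _)
      linarith
    · have h1 : min (min η₀ ε) (min δ 1) ≤ 1 := (min_le_right _ _).trans (min_le_right _ _)
      linarith
  obtain ⟨hη2, hη3, hη4, hη5⟩ := hη1
  obtain ⟨k, hk⟩ := hnear η hη0 hη2
  refine ⟨-k, ?_⟩
  have hrange : Set.range f.toFun = Set.range (fun t : ℝ => Mc g 0 1 2 th0 (v3 t 0 0)) :=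
    congrArg Set.range (funext hf)
  -- end points of the middle part
  have hend : ∀ (s : I) (x : ℝ), (x = -2 ∨ x = 2) → F (s, Mc g 0 1 2 th0 (v3 x η 0)) = v3 x η 0 := by
    intro s x hx
    have h1 : Mc g 0 1 2 th0 (v3 x η 0) = v3 x η 0 := by
      apply Mc0_out' hg
      rw [v3_0]
      rcases hx with rfl | rfl <;> norm_num
    rw [h1]
    apply hFδ
    have h2 : ‖v3 x η 0 - v3 x 0 0‖ < δ := by
      have e : v3 x η 0 - v3 x 0 0 = v3 0 η 0 := by
        apply ext3 <;> simp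
      rw [e]
      have h2 : ‖v3 0 η 0‖ ^ 2 = η ^ 2 := by rw [normsq3]; simp
      have h3 : ‖v3 0 η 0‖ = η := by
        rwa [pow_left_inj₀ (norm_nonneg _) hη0.le (by norm_num)] at h2
      rw [h3]
      exact hη4
    rcases hx with rfl | rfl
    · right; exact h2
    · left; exact h2
  have hMcc : Continuous (Mc g 0 1 2 th0) := (Mc0_smooth hg).continuous
  let M : ∀ _ : I, Path (v3 (-2) η 0) (v3 2 η 0) := fun s =>
    { toFun := fun u => F (s, Mc g 0 1 2 th0 (v3 (-2 + 4 * (u : ℝ)) η 0))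
      continuous_toFun := by
        apply hFc.comp
        apply Continuous.prodMk continuous_const
        apply hMcc.comp
        exact v3_cont (by fun_prop) continuous_const continuous_const
      source' := by
        have := hend s (-2) (Or.inl rfl)
        simpa using this
      target' := by
        have := hend s 2 (Or.inr rfl)
        have e : (-2 + 4 * ((1 : I) : ℝ)) = 2 := by norm_num
        rw [e]
        exact this }
  have hMcont : Continuous ↿M := by
    change Continuous (fun x : I × I => F (x.1, Mc g 0 1 2 th0 (v3 (-2 + 4 * (x.2 : ℝ)) η 0)))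
    apply hFc.comp
    apply Continuous.prodMk continuous_fst
    apply hMcc.comp
    exact v3_cont (by fun_prop) continuous_const continuous_const
  have hMav : ∀ s u, M s u ∉ Set.range (H s).toFun := by
    rintro s u ⟨t, ht⟩
    have h1 : F (s, f.toFun t) = F (s, Mc g 0 1 2 th0 (v3 (-2 + 4 * (u : ℝ)) η 0)) := by
      rw [hFf]; exact ht
    have h2 : f.toFun t = Mc g 0 1 2 th0 (v3 (-2 + 4 * (u : ℝ)) η 0) := hFi s h1
    rw [hf] at h2
    exact Mc0_avoid hg hη0 hη3 h2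
  let A : Path bb (v3 (-2) η 0) := M8d_A (-2) η
  let B : Path bb (v3 2 η 0) := M8d_A 2 η
  have hAt : ∀ (f : LongKnot 3) (t : I), KTop f (A t) := fun f t =>
    M8d_A_top f (by norm_num) hη0 (by linarith) t
  have hBt : ∀ (f : LongKnot 3) (t : I), KTop f (B t) := fun f t =>
    M8d_A_top f (by norm_num) hη0 (by linarith) t
  let P : ∀ _ : I, Path bb bb := fun s => A.trans ((M s).trans B.symm)
  have hPav : ∀ s t, P s t ∉ Set.range (H s).toFun := fun s t =>
    M8d_trans_notin (fun t => (hAt (H s) t).nin)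
      (M8d_trans_notin (hMav s) (fun t => (hBt (H s) _).nin)) t
  have hPcont : Continuous ↿P := by
    apply Path.trans_continuous_family
    · exact A.continuous.comp continuous_snd
    · apply Path.trans_continuous_family
      · exact hMcont
      · exact B.symm.continuous.comp continuous_snd
  have hP0 : ∀ t, P 0 t ∉ Set.range f.toFun := by
    intro t
    have := hPav 0 t
    rwa [hH0] at this
  have hP1 : ∀ t, P 1 t ∉ Set.range f.toFun := by
    intro t
    have := hPav 1 t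
    rwa [hH1] at this
  have hM0 : ∀ t, M 0 t ∉ Set.range f.toFun := by
    intro t
    have := hMav 0 t
    rwa [hH0] at this
  have hM1 : ∀ t, M 1 t ∉ Set.range f.toFun := by
    intro t
    have := hMav 1 t
    rwa [hH1] at this
  have hfam := hT.family H (fun x => P x.1 x.2) hPcont hPav (fun s => (P s).source)
    (fun s => (P s).target) (inC (P 0) hP0 (bb_notin f) (bb_notin f))
    (inC (P 1) hP1 (bb_notin f) (bb_notin f)) (fun _ => rfl) (fun _ => rfl)
  have ha : KTop f (v3 (-2) η 0) := by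
    have := hAt f 1
    rwa [A.target] at this
  have hb : KTop f (v3 2 η 0) := by
    have := hBt f 1
    rwa [B.target] at this
  have eA : Path.Homotopic.Quotient.mk (inC A (fun t => (hAt f t).nin) (bb_notin f) ha.nin) =
      tp f _ ha := (hK f).top0 ha A (hAt f)
  have eB : Path.Homotopic.Quotient.mk (inC B (fun t => (hBt f t).nin) (bb_notin f) hb.nin) =
      tp f _ hb := (hK f).top0 hb B (hBt f)
  have c0 := M8d_cls A (M 0) B (fun t => (hAt f t).nin) hM0 (fun t => (hBt f t).nin)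
    (bb_notin f) ha.nin hb.nin hP0
  have c1 := M8d_cls A (M 1) B (fun t => (hAt f t).nin) hM1 (fun t => (hBt f t).nin)
    (bb_notin f) ha.nin hb.nin hP1
  rw [eA, eB] at c0 c1
  have hpar := par0_class hg hG hf (hK f) hη0 hη3 ha hb (inC (M 0) hM0 ha.nin hb.nin)
    (fun t => hF0 _)
  -- the rotation
  have hrot : ∀ t, rotp η k t ∉ Set.range f.toFun := by
    intro t
    apply M8d_out' f η hη0 k t
  have hρ := hk (Set.range f.toFun) hrange ha.nin hb.nin (inC (M 0) hM0 ha.nin hb.nin)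
    (inC (M 1) hM1 ha.nin hb.nin) (inC (rotp η k) hrot hb.nin hb.nin) (fun t => hF0 _)
    (fun t => rfl) (fun t => rfl)
  have hrc := rot_class (hK f) (fun t => by rw [hf]; exact Mc0_nonneg hg hG t) hη0 k hb hrot
  -- the two classes
  have r0 : Path.Homotopic.Quotient.mk (inC (P 0) hP0 (bb_notin f) (bb_notin f)) =
      toQ (Lam g (PL f)) := by
    change Path.Homotopic.Quotient.mk (inC (A.trans ((M 0).trans B.symm)) hP0 (bb_notin f)
      (bb_notin f)) = _
    rw [c0, ← Path.Homotopic.Quotient.trans_assoc, hpar, Path.Homotopic.Quotient.trans_assoc,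
      Path.Homotopic.Quotient.trans_symm, Path.Homotopic.Quotient.trans_refl]
  have r1 : Path.Homotopic.Quotient.mk (inC (P 1) hP1 (bb_notin f) (bb_notin f)) =
      (toQ (Lam g (PL f))).trans (toQ ((mer (PL f)) ^ (-k))) := by
    change Path.Homotopic.Quotient.mk (inC (A.trans ((M 1).trans B.symm)) hP1 (bb_notin f)
      (bb_notin f)) = _
    rw [c1, hρ, ← Path.Homotopic.Quotient.trans_assoc, ← Path.Homotopic.Quotient.trans_assoc, hpar,
      Path.Homotopic.Quotient.trans_assoc (toQ (Lam g (PL f))), hrc,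
      Path.Homotopic.Quotient.trans_assoc, Path.Homotopic.Quotient.trans_assoc,
      Path.Homotopic.Quotient.trans_symm, Path.Homotopic.Quotient.trans_refl]
  have e0 : PG.mk (inC (P 0) hP0 (bb_notin f) (bb_notin f)) = Lam g (PL f) := r0
  have e1 : PG.mk (inC (P 1) hP1 (bb_notin f) (bb_notin f)) =
      Lam g (PL f) * mer (PL f) ^ (-k) := r1
  rw [e0, e1] at hfam
  exact hfam

end Pool.Agent.H414_LQ
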