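import Pool.Agent.H414_LQ.S2

/-!
JOB S3.  Two loops of framed long knots.
-/

set_option autoImplicit false

open scoped Topology ContDiff unitInterval

noncomputable section

namespace Pool.Agent.H414_LQ

open Pool.Agent.H414_LK

variable {g : Fin 3 → GK} {ε : ℝ} (D : Dat g ε)

section given

/-! The following are given, proved elsewhere (jobs F6b, S2). -/

end given


theorem s3_trf_trans {F F' F'' : FramedLongKnot 3} (H : Path F F') (H' : Path F' F'')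
    (x : KG F.toLongKnot) : D.trf (H.trans H') x = D.trf H' (D.trf H x) := by
  unfold Dat.trf
  rw [Path.map_trans]
  exact D.hT.trans _ _ _

/-- a homomorphism carries longitudes to longitudes -/
theorem lam_map {G G' : Type} [Group G] [Group G'] (φ : G ≃* G') (g : GK) {L : ℤ → ℤ → G}
    {L' : ℤ → ℤ → G'}
    (h : ∀ (a b : ℤ), -1 ≤ a → a ≤ 7 → -1 ≤ b → b ≤ 7 → φ (L a b) = L' a b) :
    φ (lam g L) = lam g L' := by
  have n3 := g.n3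
  have n7 := g.n7
  have hX : ∀ k, k < g.n → -1 ≤ g.X k ∧ g.X k ≤ 7 := by
    intro k hk
    have := g.Xr k hk
    omega
  have hY : ∀ k, k + 1 < g.n → -1 ≤ g.Y (k + 1) ∧ g.Y (k + 1) ≤ 7 := by
    intro k hk
    have := g.Yr (k + 1) (Nat.succ_pos k) hk
    omega
  unfold lam
  rw [map_mul, map_mul, map_inv, map_list_prod, List.map_map]
  have e0 := hX 0 (by omega)
  have e1 := hX (g.n - 1) (by omega)
  rw [h _ _ e0.1 e0.2 (by norm_num) (by norm_num), h _ _ e1.1 e1.2 (by norm_num) (by norm_num)]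
  congr 3
  refine List.map_congr_left fun k hk => ?_
  rw [List.mem_range] at hk
  have e2 := hX k (by omega)
  have e3 := hX (k + 1) (by omega)
  have e4 := hY k (by omega)
  rw [Function.comp_apply, map_mul, map_inv, h _ _ e2.1 e2.2 e4.1 e4.2,
    h _ _ e3.1 e3.2 e4.1 e4.2]

/-- the same up to conjugation -/
theorem lam_map_conj {G G' : Type} [Group G] [Group G'] (φ : G ≃* G') (g : GK) {L : ℤ → ℤ → G}
    {L' : ℤ → ℤ → G'} (c : G')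
    (h : ∀ (a b : ℤ), -1 ≤ a → a ≤ 7 → -1 ≤ b → b ≤ 7 → φ (L a b) = c * L' a b * c⁻¹) :
    φ (lam g L) = c * lam g L' * c⁻¹ := by
  rw [← MulAut.conj_apply, lam_map (MulAut.conj c) g (L := L') (L' := fun a b => c * L' a b * c⁻¹)
    fun a b _ _ _ _ => MulAut.conj_apply c _]
  exact lam_map φ g h

theorem pos_c0 : Pos ![-2 / 3, 0, 2 / 3] := by
  refine ⟨fun l => by fin_cases l <;> simp, fun l l' h => ?_⟩
  fin_cases l <;> fin_cases l' <;> first | rfl | (exfalso; norm_num at h)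

theorem pos_c1 : Pos ![0, -2 / 3, 2 / 3] := by
  refine ⟨fun l => by fin_cases l <;> simp, fun l l' h => ?_⟩
  fin_cases l <;> fin_cases l' <;> first | rfl | (exfalso; norm_num at h)

theorem pos_c2 : Pos ![2 / 3, -2 / 3, 0] := by
  refine ⟨fun l => by fin_cases l <;> simp, fun l l' h => ?_⟩
  fin_cases l <;> fin_cases l' <;> first | rfl | (exfalso; norm_num at h)

/-- the target with the parameters written in another way -/
theorem loops_aux (h : AM (Mc g 0 1 2 (ths ![-2 / 3, 0, 2 / 3]))) :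
    ∃ α β : Path (D.fr (Mc g 0 1 2 (ths ![-2 / 3, 0, 2 / 3])) h)
        (D.fr (Mc g 0 1 2 (ths ![-2 / 3, 0, 2 / 3])) h),
      ∀ (a b : ℤ), -1 ≤ a → a ≤ 7 → -1 ≤ b → b ≤ 7 →
        ∀ (Λ d : Fin 3 → KG (D.fr (Mc g 0 1 2 (ths ![-2 / 3, 0, 2 / 3])) h).toLongKnot),
          (∀ l, Λ l = lam (g l) (D.ce (D.fr (Mc g 0 1 2 (ths ![-2 / 3, 0, 2 / 3])) h)
            (ths ![-2 / 3, 0, 2 / 3]) l)) →
          (∀ l, d l = D.ce (D.fr (Mc g 0 1 2 (ths ![-2 / 3, 0, 2 / 3])) h)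
            (ths ![-2 / 3, 0, 2 / 3]) l a b) →
        D.trf α (d 0) = Λ 0 * Λ 1 * (Λ 0)⁻¹ * d 0 * (Λ 0 * Λ 1 * (Λ 0)⁻¹)⁻¹ ∧
        D.trf α (d 1) = Λ 0 * d 1 * (Λ 0)⁻¹ ∧
        D.trf α (d 2) = d 2 ∧
        D.trf β (d 0) = Λ 0 * Λ 1 * Λ 2 * (Λ 0)⁻¹ * d 0 * (Λ 0 * Λ 1 * Λ 2 * (Λ 0)⁻¹)⁻¹ ∧
        D.trf β (d 1) = Λ 0 * d 1 * (Λ 0)⁻¹ ∧
        D.trf β (d 2) = Λ 0 * d 2 * (Λ 0)⁻¹ := by
  have v00 : ∀ x y z : ℝ, (![x, y, z] : Fin 3 → ℝ) 0 = x := fun _ _ _ => rfl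
  have v11 : ∀ x y z : ℝ, (![x, y, z] : Fin 3 → ℝ) 1 = y := fun _ _ _ => rfl
  have v22 : ∀ x y z : ℝ, (![x, y, z] : Fin 3 → ℝ) 2 = z := fun _ _ _ => rfl
  have h1 : AM (Mc g 0 1 2 (ths ![0, -2 / 3, 2 / 3])) := AM_dis D.hg pos_c1.dis
  have h2 : AM (Mc g 0 1 2 (ths ![2 / 3, -2 / 3, 0])) := AM_dis D.hg pos_c2.dis
  obtain ⟨H1, E1⟩ := swap D (i := 0) (j := 1) (k := 2) (by decide) (by decide) (by decide)
    pos_c0 pos_c1 (by rw [v00, v11]; norm_num) (by rw [v00, v11]) (by rw [v00, v11])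
      (by rw [v22, v22]) h h1
  obtain ⟨H2, E2⟩ := swap D (i := 0) (j := 2) (k := 1) (by decide) (by decide) (by decide)
    pos_c1 pos_c2 (by rw [v00, v22]; norm_num) (by rw [v00, v22]) (by rw [v00, v22])
      (by rw [v11, v11]) h1 h2
  obtain ⟨H3, E3⟩ := swap D (i := 2) (j := 0) (k := 1) (by decide) (by decide) (by decide)
    pos_c2 pos_c1 (by rw [v00, v22]; norm_num) (by rw [v00, v22]) (by rw [v00, v22])
      (by rw [v11, v11]) h2 h1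
  obtain ⟨H4, E4⟩ := swap D (i := 1) (j := 0) (k := 2) (by decide) (by decide) (by decide)
    pos_c1 pos_c0 (by rw [v00, v11]; norm_num) (by rw [v00, v11]) (by rw [v00, v11])
      (by rw [v22, v22]) h1 h
  -- effects on the longitudes
  have L4_0 := lam_map (D.trf H4) (g 0) fun a b x y z w => (E4 a b x y z w).1
  have L4_2 := lam_map (D.trf H4) (g 2) fun a b x y z w => (E4 a b x y z w).2.1
  have L4_1 := lam_map_conj (D.trf H4) (g 1) _ fun a b x y z w => (E4 a b x y z w).2.2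
  have L3_1 := lam_map (D.trf H3) (g 1) fun a b x y z w => (E3 a b x y z w).2.1
  have L3_2 := lam_map_conj (D.trf H3) (g 2) _ fun a b x y z w => (E3 a b x y z w).2.2
  have L2_1 := lam_map (D.trf H2) (g 1) fun a b x y z w => (E2 a b x y z w).2.1
  refine ⟨H1.trans H4, H1.trans (H2.trans (H3.trans H4)),
    fun a b ha ha' hb hb' Λ d hΛ hd => ?_⟩
  obtain ⟨e11, e12, e10⟩ := E1 a b ha ha' hb hb'
  obtain ⟨e22, e21, e20⟩ := E2 a b ha ha' hb hb'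
  obtain ⟨e30, e31, e32⟩ := E3 a b ha ha' hb hb'
  obtain ⟨e40, e42, e41⟩ := E4 a b ha ha' hb hb'
  rw [← hΛ 0] at L4_0 L4_1 e41
  rw [← hΛ 1] at L4_1
  rw [← hΛ 2] at L4_2
  rw [← hd 0] at e10 e40
  rw [← hd 1] at e11 e41
  rw [← hd 2] at e12 e42
  refine ⟨?_, ?_, ?_, ?_, ?_, ?_⟩
  · rw [s3_trf_trans, e10, map_mul, map_mul, map_inv, L4_1, e40]
  · rw [s3_trf_trans, e11, e41]
  · rw [s3_trf_trans, e12, e42]
  · rw [s3_trf_trans, s3_trf_trans, s3_trf_trans, e10]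
    simp only [map_mul, map_inv, L2_1, e20, L3_1, L3_2, e30, L4_1, L4_2, L4_0, e40]
    group
  · rw [s3_trf_trans, s3_trf_trans, s3_trf_trans, e11, e21, e31, e41]
  · rw [s3_trf_trans, s3_trf_trans, s3_trf_trans, e12, e22, e32, map_mul, map_mul, map_inv, L4_0, e42]

/-
PROOF IDEA (TARGET).  `th0 = ths ![-2/3, 0, 2/3]`.  Write `Λ l = lam (g l) (D.ce _ th0 l)`.
A homomorphism carries `lam (g j) L` to `lam (g j)` of the images of the labels, where only the labels of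
the cells `(a, b)` with `0 ≤ a, b ≤ 6` matter (`Xr`, `Yr`, `Y0`, `n7`).  `D.trf (H.trans H') x = D.trf H' (D.trf H x)`
by `D.hT.trans` and `Path.map_trans`.
`α`: `swap` with `i = 0, j = 1, k = 2` from centers `![-2/3, 0, 2/3]` to `![0, -2/3, 2/3]`, then `swap` with
`i = 1, j = 0, k = 2` back.
`β`: `(0, 1)` from `![-2/3, 0, 2/3]` to `![0, -2/3, 2/3]`; `(0, 2)` to `![2/3, -2/3, 0]`; `(2, 0)` (the knot `2`,
at `0`, moves through the knot `0`, at `2/3`) to `![0, -2/3, 2/3]`; `(1, 0)` to `![-2/3, 0, 2/3]`.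
Effects for `β`, successively: a cell `d` of `0`: `Λ1 d Λ1⁻¹`; `Λ1 Λ2 d Λ2⁻¹ Λ1⁻¹`;
`Λ1 (Λ0 Λ2 Λ0⁻¹) d (...)⁻¹`; `(Λ0 Λ1 Λ0⁻¹) (Λ0 Λ2 Λ0⁻¹) d (...)⁻¹ = Λ0 Λ1 Λ2 Λ0⁻¹ d (...)⁻¹`.
(Here `Λ l` is the longitude of the knot `l` in the groups of the respective composite knots.)
-/
theorem exists_loops (h : AM (Mc g 0 1 2 th0)) :
    ∃ α β : Path (D.fr (Mc g 0 1 2 th0) h) (D.fr (Mc g 0 1 2 th0) h),
      ∀ (a b : ℤ), -1 ≤ a → a ≤ 7 → -1 ≤ b → b ≤ 7 →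
        let Λ : Fin 3 → KG (D.fr (Mc g 0 1 2 th0) h).toLongKnot :=
          fun l => lam (g l) (D.ce (D.fr (Mc g 0 1 2 th0) h) th0 l)
        let d : Fin 3 → KG (D.fr (Mc g 0 1 2 th0) h).toLongKnot :=
          fun l => D.ce (D.fr (Mc g 0 1 2 th0) h) th0 l a b
        D.trf α (d 0) = Λ 0 * Λ 1 * (Λ 0)⁻¹ * d 0 * (Λ 0 * Λ 1 * (Λ 0)⁻¹)⁻¹ ∧
        D.trf α (d 1) = Λ 0 * d 1 * (Λ 0)⁻¹ ∧
        D.trf α (d 2) = d 2 ∧
        D.trf β (d 0) = Λ 0 * Λ 1 * Λ 2 * (Λ 0)⁻¹ * d 0 * (Λ 0 * Λ 1 * Λ 2 * (Λ 0)⁻¹)⁻¹ ∧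
        D.trf β (d 1) = Λ 0 * d 1 * (Λ 0)⁻¹ ∧
        D.trf β (d 2) = Λ 0 * d 2 * (Λ 0)⁻¹ := by
  obtain ⟨α, β, H⟩ := loops_aux D h
  exact ⟨α, β, fun a b ha ha' hb hb' => H a b ha ha' hb hb' _ _ (fun _ => rfl) (fun _ => rfl)⟩

end Pool.Agent.H414_LQ
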