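import Pool.Agent.H414_LQ.A3
import Pool.Agent.H414_LQ.M8d
import Pool.Agent.H414_LQ.S3
import Pool.Agent.H414_LQ.G2
import Pool.Agent.H414_LQ.F5g
import Pool.Agent.H414_LQ.F7b
import Pool.Agent.H414_LQ.F6a
import Pool.Agent.H414_HQ.C2
import Pool.Agent.H414_HQ.B2

/-!
# A nonabelian Heisenberg quotient of the fundamental group of the space of long knots
-/

set_option autoImplicit false

open scoped Topology ContDiff unitInterval

noncomputable section

namespace Pool.Agent.H414_LQ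

open Pool.Agent.H414_LK

theorem exists_dat : ∃ ε : ℝ, Nonempty (Dat g3 ε) := by
  choose e he using fun l => exists_tube (g3 l)
  have h0 : 0 < min (e 0) (min (e 1) (e 2)) :=
    lt_min (he 0).pos (lt_min (he 1).pos (he 2).pos)
  have hg : ∀ l, TubeF (g3 l) (min (e 0) (min (e 1) (e 2))) := by
    intro l
    refine (he l).mono h0 ?_
    fin_cases l
    · exact min_le_left _ _
    · exact (min_le_right _ _).trans (min_le_left _ _)
    · exact (min_le_right _ _).trans (min_le_right _ _)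
  obtain ⟨tr, hT⟩ := exists_tr
  choose tp bp PL hK using exists_KTB
  obtain ⟨fr, hfr⟩ := exists_fr
  exact ⟨_, ⟨⟨tr, hT, tp, bp, PL, hK, hg, fun l => gfacts _, fr, hfr⟩⟩⟩

namespace Dat

variable {g : Fin 3 → GK} {ε : ℝ} (D : Dat g ε)

/-- the action of the fundamental group of the space of long knots on the knot group -/
def act (f : LongKnot 3) : FundamentalGroup (LongKnot 3) f →* MulAut (KG f) :=
  MonoidHom.mk' (fun γ => Quotient.lift (fun H : Path f f => (D.tr H : MulAut (KG f)))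
    (fun _ _ hh => D.hT.homotopic hh) γ) (by
      intro γ γ'
      induction γ using Quotient.ind with | _ H =>
      induction γ' using Quotient.ind with | _ H' =>
      refine MulEquiv.ext fun x => ?_
      exact D.hT.trans H' H x)

theorem act_mk (f : LongKnot 3) (H : Path f f) (x : KG f) :
    D.act f (Path.Homotopic.Quotient.mk H) x = D.tr H x := rfl

end Dat

open H414B (Hs)

theorem phi_of {ε : ℝ} (D : Dat g3 ε) (F : FramedLongKnot 3)
    (hf : ∀ t, F.toLongKnot.toFun t = Mc g3 0 1 2 th0 (v3 t 0 0)) (α β : Path F F)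
    (hl : ∀ (a b : ℤ), -1 ≤ a → a ≤ 7 → -1 ≤ b → b ≤ 7 →
        let Λ : Fin 3 → KG F.toLongKnot := fun l => lam (g3 l) (D.ce F th0 l)
        let d : Fin 3 → KG F.toLongKnot := fun l => D.ce F th0 l a b
        D.trf α (d 0) = Λ 0 * Λ 1 * (Λ 0)⁻¹ * d 0 * (Λ 0 * Λ 1 * (Λ 0)⁻¹)⁻¹ ∧
        D.trf α (d 1) = Λ 0 * d 1 * (Λ 0)⁻¹ ∧
        D.trf α (d 2) = d 2 ∧
        D.trf β (d 0) = Λ 0 * Λ 1 * Λ 2 * (Λ 0)⁻¹ * d 0 * (Λ 0 * Λ 1 * Λ 2 * (Λ 0)⁻¹)⁻¹ ∧
        D.trf β (d 1) = Λ 0 * d 1 * (Λ 0)⁻¹ ∧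
        D.trf β (d 2) = Λ 0 * d 2 * (Λ 0)⁻¹) :
    ∃ (Q C : Type) (_ : AddCommGroup Q) (_ : Module ℚ Q) (_ : AddCommGroup C) (_ : Module ℚ C)
    (B : Q →ₗ[ℚ] Q →ₗ[ℚ] C) (Φ : FundamentalGroup (LongKnot 3) F.toLongKnot →* Hs B),
    Φ (Path.Homotopic.Quotient.mk (α.map (continuous_forget 3))) *
        Φ (Path.Homotopic.Quotient.mk (β.map (continuous_forget 3))) ≠
      Φ (Path.Homotopic.Quotient.mk (β.map (continuous_forget 3))) *
        Φ (Path.Homotopic.Quotient.mk (α.map (continuous_forget 3))) := by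
  obtain ⟨r1, r2, r3, gen, l1, l2, l3, up⟩ := labels D.hg D.hG hf (D.hK F.toLongKnot)
  have hn : ∀ t, 0 ≤ F.toLongKnot.toFun t 1 := by
    intro t; rw [hf]; exact Mc0_nonneg D.hg D.hG t
  have P : H414C.Pres (mer (D.PL F.toLongKnot)) (cel (D.PL F.toLongKnot) th0 0 1 1)
      (cel (D.PL F.toLongKnot) th0 1 1 4) (cel (D.PL F.toLongKnot) th0 2 1 2) :=
    ⟨gen, r1, r2, r3, up⟩
  have e1 : lam (g3 0) (D.ce F th0 0) = H414C.L1 (mer (D.PL F.toLongKnot))
      (cel (D.PL F.toLongKnot) th0 0 1 1) := l1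
  have e2 : lam (g3 1) (D.ce F th0 1) = H414C.L2 (mer (D.PL F.toLongKnot))
      (cel (D.PL F.toLongKnot) th0 1 1 4) := l2
  have e3 : lam (g3 2) (D.ce F th0 2) = H414C.L3 (mer (D.PL F.toLongKnot))
      (cel (D.PL F.toLongKnot) th0 2 1 2) := l3
  have A : H414C.Act (FundamentalGroup (LongKnot 3) F.toLongKnot) (mer (D.PL F.toLongKnot))
      (cel (D.PL F.toLongKnot) th0 0 1 1)
      (cel (D.PL F.toLongKnot) th0 1 1 4) (cel (D.PL F.toLongKnot) th0 2 1 2)
      (D.act F.toLongKnot) (Path.Homotopic.Quotient.mk (α.map (continuous_forget 3)))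
      (Path.Homotopic.Quotient.mk (β.map (continuous_forget 3))) := by
    obtain ⟨a1, -, -, b1, -, -⟩ := hl 1 1 (by norm_num) (by norm_num) (by norm_num) (by norm_num)
    obtain ⟨-, a2, -, -, b2, -⟩ := hl 1 4 (by norm_num) (by norm_num) (by norm_num) (by norm_num)
    obtain ⟨-, -, a3, -, -, b3⟩ := hl 1 2 (by norm_num) (by norm_num) (by norm_num) (by norm_num)
    simp only [e1, e2, e3] at a1 a2 a3 b1 b2 b3
    refine ⟨?_, ?_, a1, a2, a3, b1, b2, b3⟩
    · intro γ
      induction γ using Quotient.ind with | _ H =>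
      exact tr_mer D.hT D.hK hn hn H
    · intro γ
      induction γ using Quotient.ind with | _ H =>
      obtain ⟨k, hk⟩ := long_fixed D.hT D.hK D.hg D.hG hf H
      refine ⟨k, ?_⟩
      have e4 : Lam g3 (D.PL F.toLongKnot) = H414C.L1 (mer (D.PL F.toLongKnot))
        (cel (D.PL F.toLongKnot) th0 0 1 1) * H414C.L2 (mer (D.PL F.toLongKnot))
        (cel (D.PL F.toLongKnot) th0 1 1 4) * H414C.L3 (mer (D.PL F.toLongKnot))
        (cel (D.PL F.toLongKnot) th0 2 1 2) := by
        rw [← e1, ← e2, ← e3]; rfl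
      rw [← e4]
      exact hk
  exact H414C.exists_heis P A

/-- There are a framed long knot in `ℝ³`, two loops `α`, `β` of framed long knots at it, and a
homomorphism of the fundamental group of the space of long knots to a rational Heisenberg group,
such that the images of `α` and `β` do not commute. -/
theorem exists_phi : ∃ (F : FramedLongKnot 3) (α β : Path F F)
    (Q C : Type) (_ : AddCommGroup Q) (_ : Module ℚ Q) (_ : AddCommGroup C) (_ : Module ℚ C)
    (B : Q →ₗ[ℚ] Q →ₗ[ℚ] C) (Φ : FundamentalGroup (LongKnot 3) F.toLongKnot →* Hs B),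
    Φ (Path.Homotopic.Quotient.mk (α.map (continuous_forget 3))) *
        Φ (Path.Homotopic.Quotient.mk (β.map (continuous_forget 3))) ≠
      Φ (Path.Homotopic.Quotient.mk (β.map (continuous_forget 3))) *
        Φ (Path.Homotopic.Quotient.mk (α.map (continuous_forget 3))) := by
  obtain ⟨ε, ⟨D⟩⟩ := exists_dat
  have h : AM (Mc g3 0 1 2 th0) :=
    Mc_AM D.hg (by decide) (by decide) (by decide)
      (th0_dis.adm (by decide) (by decide) (by decide))
  obtain ⟨α, β, hl⟩ := exists_loops D h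
  exact ⟨_, α, β, phi_of D _ (D.hfr.toFun _ h) α β hl⟩

/-- Neither space of long knots in `ℝ³` is a retract, in a localisation of the category of spaces
at rational homology isomorphisms, of a space with commutative fundamental groups. -/
theorem no_rational_retract (W : CategoryTheory.MorphismProperty TopCat.{0})
    (hW : ∀ ⦃X Y : TopCat.{0}⦄ (f : X ⟶ Y), W f → ∀ n : ℕ,
      CategoryTheory.IsIso (((AlgebraicTopology.singularHomologyFunctor (ModuleCat.{0} ℚ) n).obj
        (ModuleCat.of ℚ ℚ)).map f)) (Z : TopCat.{0})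
    (hZ : ∀ (z : Z) (a b : Path.Homotopic.Quotient z z), a.trans b = b.trans a) :
    IsEmpty (CategoryTheory.Retract (W.Q.obj (TopCat.of (LongKnot 3))) (W.Q.obj Z)) ∧
    IsEmpty (CategoryTheory.Retract (W.Q.obj (TopCat.of (FramedLongKnot 3))) (W.Q.obj Z)) := by
  obtain ⟨F, α, β, Q, C, i1, i2, i3, i4, B, Φ, hΦ⟩ := exists_phi
  have hZ' : ∀ (z : Z) (a b : FundamentalGroup Z z), a * b = b * a := fun z a b => hZ z b a
  refine ⟨⟨fun r => ?_⟩, ⟨fun r => ?_⟩⟩
  · exact hΦ (H414B.comm_of_rational_retract (X := TopCat.of (LongKnot 3)) (Z := Z) W hW r hZ'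
      F.toLongKnot B Φ _ _)
  · exact hΦ (H414B.comm_of_rational_retract (X := TopCat.of (FramedLongKnot 3)) (Z := Z) W hW r
      hZ' F B (Φ.comp (FundamentalGroup.map ⟨_, continuous_forget 3⟩ F))
      (Path.Homotopic.Quotient.mk α) (Path.Homotopic.Quotient.mk β))

end Pool.Agent.H414_LQ
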