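import Pool.Agent.H414_LQ.Base2

/-!
JOB G1.  Elementary facts on grid knots.
-/

set_option autoImplicit false

open scoped Topology ContDiff unitInterval

noncomputable section

namespace Pool.Agent.H414_LQ

open Pool.Agent.H414_LK

theorem gfacts_sum (F : ℕ → ℝ) (m k : ℕ) (hk : k < m) (s : ℝ) (h1 : k = 0 ∨ 2 * (k : ℝ) - 1 ≤ s)
    (h2 : k + 1 = m ∨ s ≤ 2 * (k : ℝ) + 2) :
    ∑ j ∈ Finset.range m, (F (j + 1) - F j) * st (s - 2 * j) =
      F k - F 0 + (F (k + 1) - F k) * st (s - 2 * k) := by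
  obtain ⟨r, rfl⟩ : ∃ r, m = k + 1 + r := ⟨m - (k + 1), by omega⟩
  rw [Finset.sum_range_add, Finset.sum_range_succ]
  have e1 : ∑ j ∈ Finset.range k, (F (j + 1) - F j) * st (s - 2 * j) = F k - F 0 := by
    rw [← Finset.sum_range_sub]
    apply Finset.sum_congr rfl
    intro j hj
    have hj := Finset.mem_range.1 hj
    have hj' : (j : ℝ) + 1 ≤ k := by exact_mod_cast hj
    rcases h1 with h1 | h1
    · omega
    · rw [st_one (by linarith), mul_one]
  have e2 : ∑ x ∈ Finset.range r, (F (k + 1 + x + 1) - F (k + 1 + x)) *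
      st (s - 2 * ((k + 1 + x : ℕ) : ℝ)) = 0 := by
    apply Finset.sum_eq_zero
    intro j hj
    have hj := Finset.mem_range.1 hj
    rcases h2 with h2 | h2
    · omega
    · have : (0:ℝ) ≤ j := Nat.cast_nonneg j
      rw [st_zero (by push_cast; linarith), mul_zero]
  rw [e1, e2, add_zero]

namespace GK

variable (g : GK)

theorem gfacts_n3 : (3:ℝ) ≤ g.n := by exact_mod_cast g.n3

theorem gfacts_Xnn {k : ℕ} (hk : k < g.n) : (0:ℝ) ≤ g.X k := by exact_mod_cast (g.Xr k hk).1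

theorem gfacts_Xle {k : ℕ} (hk : k < g.n) : (g.X k : ℝ) ≤ g.n - 1 := by
  have h := (g.Xr k hk).2
  have h2 : g.X k + 1 ≤ (g.n : ℤ) := by omega
  have h3 : (g.X k : ℝ) + 1 ≤ g.n := by exact_mod_cast h2
  linarith

theorem gfacts_Ynn {k : ℕ} (hk : k ≤ g.n) : (0:ℝ) ≤ g.Y k ∧ (g.Y k : ℝ) ≤ g.n - 1 := by
  have h3 := gfacts_n3 g
  rcases Nat.eq_zero_or_pos k with h0 | h0
  · subst h0
    rw [g.Y0]; push_cast; constructor <;> linarith
  · rcases hk.lt_or_eq with h | h
    · obtain ⟨a, b⟩ := g.Yr k h0 h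
      have b2 : g.Y k + 1 ≤ (g.n : ℤ) := by omega
      have b3 : (g.Y k : ℝ) + 1 ≤ g.n := by exact_mod_cast b2
      have a3 : (0:ℝ) < g.Y k := by exact_mod_cast a
      constructor <;> linarith
    · rw [h, g.Yn]; push_cast; constructor <;> linarith

theorem gfacts_Xne {k : ℕ} (hk : k + 1 < g.n) : (g.X (k + 1) : ℝ) - g.X k ≠ 0 := by
  intro h
  have h2 : (g.X (k + 1) : ℝ) = g.X k := by linarith
  have h3 : g.X (k + 1) = g.X k := by exact_mod_cast h2
  have := g.Xinj (k + 1) k hk (by omega) h3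
  omega

theorem gfacts_Yne {k : ℕ} (hk : k < g.n) : (g.Y (k + 1) : ℝ) - g.Y k ≠ 0 := by
  intro h
  have h2 : (g.Y (k + 1) : ℝ) = g.Y k := by linarith
  have h3 : g.Y (k + 1) = g.Y k := by exact_mod_cast h2
  have hn := g.n3
  rcases Nat.eq_zero_or_pos k with h0 | h0
  · subst h0
    have := (g.Yr 1 (by omega) (by omega)).1
    rw [g.Y0] at h3
    simp only [zero_add] at h3
    omega
  · rcases Nat.lt_or_ge (k + 1) g.n with h4 | h4
    · have := g.Yinj (k + 1) k (by omega) h4 h0 (by omega) h3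
      omega
    · have h5 : k + 1 = g.n := by omega
      rw [h5, g.Yn] at h3
      have := (g.Yr k h0 hk).1
      omega

theorem gfacts_gxL {t : ℝ} (ht : t ≤ -g.n + 1) :
    g.gx t = t + (g.X 0 - t) * st (t + g.n + 1) := by
  have hn := gfacts_n3 g
  have h2 : g.n - 1 ≠ 0 := by have := g.n3; omega
  unfold gx
  rw [gfacts_sum (fun j => (g.X j : ℝ)) (g.n - 1) 0 (by omega) (t + g.n - 1) (Or.inl rfl)
    (Or.inr (by push_cast; linarith))]
  rw [st_zero (x := t + g.n - 1 - 2 * ((0 : ℕ) : ℝ)) (by push_cast; linarith),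
    st_zero (x := t - (g.n - 1)) (by linarith)]
  ring

theorem gfacts_gxR {t : ℝ} (ht : (g.n : ℝ) - 2 ≤ t) :
    g.gx t = g.X (g.n - 1) + (t - g.X (g.n - 1)) * st (t - (g.n - 1)) := by
  have hn := gfacts_n3 g
  have hn3 := g.n3
  unfold gx
  have h5 : g.n - 2 + 1 = g.n - 1 := by omega
  have h6 : ((g.n - 2 : ℕ) : ℝ) = (g.n : ℝ) - 2 := by
    rw [Nat.cast_sub (by omega)]; norm_num
  rw [gfacts_sum (fun j => (g.X j : ℝ)) (g.n - 1) (g.n - 2) (by omega) (t + g.n - 1)
    (Or.inr (by rw [h6]; linarith)) (Or.inl (by omega))]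
  rw [st_one (x := t + g.n - 1 - 2 * ((g.n - 2 : ℕ) : ℝ)) (by rw [h6]; linarith),
    st_one (x := t + g.n + 1) (by linarith), h5]
  ring

theorem gfacts_gxH {k : ℕ} (hk : k + 1 < g.n) {t : ℝ} (h1 : -(g.n : ℝ) + 2 * k ≤ t)
    (h2 : t ≤ -(g.n : ℝ) + 2 * k + 3) :
    g.gx t = g.X k + ((g.X (k + 1) : ℝ) - g.X k) * st (t + g.n - 1 - 2 * k) := by
  have hn := gfacts_n3 g
  have hk0 : (0:ℝ) ≤ k := Nat.cast_nonneg k
  have hk1 : (k : ℝ) + 2 ≤ g.n := by exact_mod_cast hk
  unfold gx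
  rw [gfacts_sum (fun j => (g.X j : ℝ)) (g.n - 1) k (by omega) (t + g.n - 1)
    (Or.inr (by linarith)) (Or.inr (by linarith))]
  rw [st_one (x := t + g.n + 1) (by linarith), st_zero (x := t - (g.n - 1)) (by linarith)]
  ring

theorem gfacts_gxV {k : ℕ} (hk : k < g.n) {t : ℝ} (h1 : -(g.n : ℝ) + 2 * k ≤ t)
    (h2 : t ≤ -(g.n : ℝ) + 2 * k + 1) :
    g.gx t = g.X k := by
  have hn := gfacts_n3 g
  have hn3 := g.n3
  rcases Nat.lt_or_ge (k + 1) g.n with h | h
  · rw [gfacts_gxH g h h1 (by linarith), st_zero (by linarith)]; ring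
  · have h5 : k = g.n - 1 := by omega
    have h6 : ((g.n - 1 : ℕ) : ℝ) = (g.n : ℝ) - 1 := by
      rw [Nat.cast_sub (by omega)]; norm_num
    rw [h5, h6] at h1 h2
    rw [gfacts_gxR g (by linarith), st_zero (by linarith), h5]; ring

theorem gfacts_gyV {k : ℕ} (hk : k < g.n) {t : ℝ} (h1 : k = 0 ∨ -(g.n : ℝ) + 2 * k - 1 ≤ t)
    (h2 : k + 1 = g.n ∨ t ≤ -(g.n : ℝ) + 2 * k + 2) :
    g.gy t = g.Y k + ((g.Y (k + 1) : ℝ) - g.Y k) * st (t + g.n - 2 * k) := by
  unfold gy
  rw [gfacts_sum (fun j => (g.Y j : ℝ)) g.n k hk (t + g.n)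
    (h1.imp id (fun h => by linarith)) (h2.imp id (fun h => by linarith))]
  rw [g.Y0]
  push_cast
  ring

theorem gfacts_gyL {t : ℝ} (ht : t ≤ -g.n) : g.gy t = 0 := by
  have hn3 := g.n3
  rw [gfacts_gyV g (k := 0) (by omega) (Or.inl rfl) (Or.inr (by push_cast; linarith)),
    st_zero (by push_cast; linarith), g.Y0]
  simp

theorem gfacts_gyR {t : ℝ} (ht : (g.n : ℝ) - 1 ≤ t) : g.gy t = 0 := by
  have hn3 := g.n3
  have h6 : ((g.n - 1 : ℕ) : ℝ) = (g.n : ℝ) - 1 := by
    rw [Nat.cast_sub (by omega)]; norm_num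
  have h5 : g.n - 1 + 1 = g.n := by omega
  rw [gfacts_gyV g (k := g.n - 1) (by omega) (Or.inr (by rw [h6]; linarith)) (Or.inl h5),
    st_one (by rw [h6]; linarith), h5, g.Yn]
  simp

theorem gfacts_gyH {k : ℕ} (hk : k + 1 < g.n) {t : ℝ} (h1 : -(g.n : ℝ) + 2 * k + 1 ≤ t)
    (h2 : t ≤ -(g.n : ℝ) + 2 * k + 2) : g.gy t = g.Y (k + 1) := by
  rw [gfacts_gyV g (k := k) (by omega) (Or.inr (by linarith)) (Or.inr h2),
    st_one (by linarith)]
  ring

theorem gfacts_gc0 (t : ℝ) : 0 ≤ g.gc t := mul_nonneg (st_nonneg _) (st_nonneg _)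

theorem gfacts_gc1 (t : ℝ) : g.gc t ≤ 1 := by
  unfold gc
  have h1 := st_nonneg (t + g.n + 1)
  have h2 := st_le_one (t + g.n + 1)
  have h3 := st_nonneg (g.n - t)
  have h4 := st_le_one (g.n - t)
  nlinarith

theorem gfacts_gc_one {t : ℝ} (h1 : -(g.n : ℝ) ≤ t) (h2 : t ≤ (g.n : ℝ) - 1) : g.gc t = 1 := by
  unfold gc
  rw [st_one (by linarith), st_one (by linarith)]; norm_num

theorem gfacts_gc_zero {t : ℝ} (h : t ≤ -((g.n : ℝ) + 1) ∨ (g.n : ℝ) ≤ t) : g.gc t = 0 := by
  unfold gc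
  rcases h with h | h
  · rw [st_zero (by linarith)]; simp
  · rw [st_zero (x := g.n - t) (by linarith)]; simp

theorem gfacts_gc_pos {t : ℝ} (h1 : -((g.n : ℝ) + 1) < t) (h2 : t < g.n) : 0 < g.gc t :=
  mul_pos (st_pos (by linarith)) (st_pos (by linarith))

theorem gfacts_sin_pos (k : ℤ) {u : ℝ} (h1 : 2 * k < u) (h2 : u < 2 * k + 1) :
    0 < Real.sin (Real.pi * u) := sin_pos_even k h1 h2

theorem gfacts_z_nonpos (k : ℤ) {t : ℝ} (h1 : 2 * k ≤ t + g.n + 1) (h2 : t + g.n + 1 ≤ 2 * k + 1) :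
    g.gz t ≤ 0 := by
  have := mul_nonneg (gfacts_gc0 g t) (sin_nonneg_even k h1 h2)
  unfold gz
  linarith

theorem gfacts_z_pos (k : ℤ) {t : ℝ} (h1 : 2 * k - 1 < t + g.n + 1) (h2 : t + g.n + 1 < 2 * k)
    (h3 : -(g.n : ℝ) ≤ t) (h4 : t ≤ (g.n : ℝ) - 1) : 0 < g.gz t := by
  have := sin_neg_odd k h1 h2
  unfold gz
  rw [gfacts_gc_one g h3 h4]
  linarith

theorem gfacts_stdz {t : ℝ} (h : t ≤ -((g.n : ℝ) + 1) ∨ (g.n : ℝ) ≤ t) : g.gz t = 0 := by
  unfold gz
  rw [gfacts_gc_zero g h]; simp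

theorem gfacts_zL {t : ℝ} (ht : t ≤ -g.n) : g.gz t ≤ 0 := by
  rcases le_or_gt t (-((g.n : ℝ) + 1)) with h | h
  · rw [gfacts_stdz g (Or.inl h)]
  · exact gfacts_z_nonpos g 0 (by push_cast; linarith) (by push_cast; linarith)

theorem gfacts_zR {t : ℝ} (ht : (g.n : ℝ) - 1 ≤ t) : g.gz t ≤ 0 := by
  rcases le_or_gt (g.n : ℝ) t with h | h
  · rw [gfacts_stdz g (Or.inr h)]
  · exact gfacts_z_nonpos g g.n (by push_cast; linarith) (by push_cast; linarith)

theorem gfacts_piece (t : ℝ) : g.Piece t := by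
  have hn := gfacts_n3 g
  have hn3 := g.n3
  rcases le_or_gt t (-(g.n : ℝ)) with h0 | h0
  · exact .hl h0 (gfacts_gxL g (by linarith)) (gfacts_gyL g h0) (gfacts_zL g h0)
  rcases le_or_gt ((g.n : ℝ) - 1) t with h1 | h1
  · exact .hr h1 (gfacts_gxR g (by linarith)) (gfacts_gyR g h1) (gfacts_zR g h1)
  have hq1 := Nat.floor_le (a := t + g.n) (by linarith)
  have hq2 := Nat.lt_floor_add_one (t + g.n)
  set q := ⌊t + g.n⌋₊ with hq
  have hqn : q < 2 * g.n - 1 := by
    have : (q : ℝ) + 1 < 2 * g.n := by linarith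
    have : q + 1 < 2 * g.n := by exact_mod_cast this
    omega
  have hh : ∀ k : ℕ, k + 1 < g.n → -(g.n : ℝ) + 2 * k + 1 ≤ t → t ≤ -(g.n : ℝ) + 2 * k + 2 →
      g.Piece t := by
    intro k hk a b
    exact .h k hk a b (gfacts_gxH g hk (by linarith) (by linarith)) (gfacts_gyH g hk a b)
      (gfacts_z_nonpos g (k + 1) (by push_cast; linarith) (by push_cast; linarith))
  rcases Nat.even_or_odd' q with ⟨k, hk | hk⟩
  · have hk' : (q : ℝ) = 2 * k := by rw [hk]; push_cast; ring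
    rw [hk'] at hq1 hq2
    have hkn : k < g.n := by omega
    rcases hq1.lt_or_eq with h2 | h2
    · refine .v k hkn (by linarith) (by linarith) (gfacts_gxV g hkn (by linarith) (by linarith))
        (gfacts_gyV g hkn (Or.inr (by linarith)) (Or.inr (by linarith)))
        (gfacts_z_pos g (k + 1) (by push_cast; linarith) (by push_cast; linarith) h0.le h1.le)
    · have hk0 : k ≠ 0 := by
        rintro rfl
        push_cast at h2
        linarith
      have hk1 : ((k - 1 : ℕ) : ℝ) = (k : ℝ) - 1 := by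
        rw [Nat.cast_sub (by omega)]; norm_num
      exact hh (k - 1) (by omega) (by rw [hk1]; linarith) (by rw [hk1]; linarith)
  · have hk' : (q : ℝ) = 2 * k + 1 := by rw [hk]; push_cast; ring
    rw [hk'] at hq1 hq2
    exact hh k (by omega) (by linarith) (by linarith)

theorem gfacts_rayL {t t' : ℝ} (h : t < t') (ht' : t' ≤ -g.n) :
    t + (g.X 0 - t) * st (t + g.n + 1) < t' + (g.X 0 - t') * st (t' + g.n + 1) := by
  have hn := gfacts_n3 g
  have hn3 := g.n3
  have h0 := gfacts_Xnn g (k := 0) (by omega)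
  have h1 : st (t + g.n + 1) ≤ st (t' + g.n + 1) := st_mono (by linarith)
  have h2 : st (t + g.n + 1) < 1 := st_lt_one (by linarith)
  nlinarith [mul_pos (sub_pos.2 h) (sub_pos.2 h2), mul_nonneg
    (show (0:ℝ) ≤ g.X 0 - t' by linarith) (sub_nonneg.2 h1)]

theorem gfacts_rayR {t t' : ℝ} (h : t < t') (ht : (g.n : ℝ) - 1 ≤ t) :
    g.X (g.n - 1) + (t - g.X (g.n - 1)) * st (t - (g.n - 1)) <
      g.X (g.n - 1) + (t' - g.X (g.n - 1)) * st (t' - (g.n - 1)) := by
  have hn3 := g.n3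
  have h0 := gfacts_Xle g (k := g.n - 1) (by omega)
  have h1 : st (t - (g.n - 1)) ≤ st (t' - (g.n - 1)) := st_mono (by linarith)
  have h2 : 0 < st (t' - (g.n - 1)) := st_pos (by linarith)
  nlinarith [mul_pos (sub_pos.2 h) h2, mul_nonneg
    (show (0:ℝ) ≤ t - g.X (g.n - 1) by linarith) (sub_nonneg.2 h1)]

theorem gfacts_rayL_le {t : ℝ} (ht : t ≤ -g.n) :
    t + (g.X 0 - t) * st (t + g.n + 1) ≤ g.X 0 := by
  have hn := gfacts_n3 g
  have hn3 := g.n3
  have h0 := gfacts_Xnn g (k := 0) (by omega)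
  have h2 := st_le_one (t + g.n + 1)
  nlinarith [mul_nonneg (show (0:ℝ) ≤ g.X 0 - t by linarith) (sub_nonneg.2 h2)]

theorem gfacts_rayL_ge {t : ℝ} (ht : t ≤ -g.n) :
    t ≤ t + (g.X 0 - t) * st (t + g.n + 1) := by
  have hn := gfacts_n3 g
  have hn3 := g.n3
  have h0 := gfacts_Xnn g (k := 0) (by omega)
  have h2 := st_nonneg (t + g.n + 1)
  nlinarith [mul_nonneg (show (0:ℝ) ≤ g.X 0 - t by linarith) h2]

theorem gfacts_rayR_ge {t : ℝ} (ht : (g.n : ℝ) - 1 ≤ t) :
    (g.X (g.n - 1) : ℝ) ≤ g.X (g.n - 1) + (t - g.X (g.n - 1)) * st (t - (g.n - 1)) := by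
  have hn3 := g.n3
  have h0 := gfacts_Xle g (k := g.n - 1) (by omega)
  have h1 := st_nonneg (t - (g.n - 1))
  nlinarith [mul_nonneg (show (0:ℝ) ≤ t - g.X (g.n - 1) by linarith) h1]

theorem gfacts_rayR_le {t : ℝ} (ht : (g.n : ℝ) - 1 ≤ t) :
    g.X (g.n - 1) + (t - g.X (g.n - 1)) * st (t - (g.n - 1)) ≤ t := by
  have hn3 := g.n3
  have h0 := gfacts_Xle g (k := g.n - 1) (by omega)
  have h1 := st_le_one (t - (g.n - 1))
  nlinarith [mul_nonneg (show (0:ℝ) ≤ t - g.X (g.n - 1) by linarith) (sub_nonneg.2 h1)]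

theorem gfacts_X0 : (g.X 0 : ℝ) < g.X (g.n - 1) := by exact_mod_cast g.X0

theorem gfacts_injh (t t' : ℝ) (hz : g.gz t ≤ 0) (hz' : g.gz t' ≤ 0) (hx : g.gx t = g.gx t')
    (hy : g.gy t = g.gy t') : t = t' := by
  have hX0 := gfacts_X0 g
  have hYpos : ∀ k : ℕ, k + 1 < g.n → (0:ℝ) < g.Y (k + 1) := by
    intro k hk
    exact_mod_cast (g.Yr (k + 1) (by omega) hk).1
  rcases gfacts_piece g t with ⟨a, x, y, z⟩ | ⟨k, hk, a, b, x, y, z⟩ | ⟨k, hk, a, b, x, y, z⟩ |
    ⟨a, x, y, z⟩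
  · rcases gfacts_piece g t' with ⟨a', x', y', z'⟩ | ⟨k', hk', a', b', x', y', z'⟩ |
      ⟨k', hk', a', b', x', y', z'⟩ | ⟨a', x', y', z'⟩
    · rcases lt_trichotomy t t' with h | h | h
      · have := gfacts_rayL g h a'; exfalso; linarith
      · exact h
      · have := gfacts_rayL g h a; exfalso; linarith
    · exact absurd hz' (not_le.2 z')
    · have := hYpos k' hk'; exfalso; linarith
    · have := gfacts_rayL_le g a; have := gfacts_rayR_ge g a'; exfalso; linarith
  · exact absurd hz (not_le.2 z)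
  · rcases gfacts_piece g t' with ⟨a', x', y', z'⟩ | ⟨k', hk', a', b', x', y', z'⟩ |
      ⟨k', hk', a', b', x', y', z'⟩ | ⟨a', x', y', z'⟩
    · have := hYpos k hk; exfalso; linarith
    · exact absurd hz' (not_le.2 z')
    · have h1 : (g.Y (k + 1) : ℝ) = g.Y (k' + 1) := by linarith
      have h2 : g.Y (k + 1) = g.Y (k' + 1) := by exact_mod_cast h1
      have h3 := g.Yinj (k + 1) (k' + 1) (by omega) hk (by omega) hk' h2
      have h4 : k = k' := by omega
      subst h4
      have h5 := gfacts_Xne g hk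
      have h6 : ((g.X (k + 1) : ℝ) - g.X k) * st (t + g.n - 1 - 2 * k) =
          ((g.X (k + 1) : ℝ) - g.X k) * st (t' + g.n - 1 - 2 * k) := by linarith
      have h7 := mul_left_cancel₀ h5 h6
      have := st_inj (by linarith) (by linarith) (by linarith) (by linarith) h7
      linarith
    · have := hYpos k hk; exfalso; linarith
  · rcases gfacts_piece g t' with ⟨a', x', y', z'⟩ | ⟨k', hk', a', b', x', y', z'⟩ |
      ⟨k', hk', a', b', x', y', z'⟩ | ⟨a', x', y', z'⟩
    · have := gfacts_rayL_le g a'; have := gfacts_rayR_ge g a; exfalso; linarith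
    · exact absurd hz' (not_le.2 z')
    · have := hYpos k' hk'; exfalso; linarith
    · rcases lt_trichotomy t t' with h | h | h
      · have := gfacts_rayR g h a; exfalso; linarith
      · exact h
      · have := gfacts_rayR g h a'; exfalso; linarith

theorem gfacts_injv (t t' : ℝ) (hz : 0 < g.gz t) (hz' : 0 < g.gz t') (hx : g.gx t = g.gx t')
    (hy : g.gy t = g.gy t') : t = t' := by
  rcases gfacts_piece g t with ⟨a, x, y, z⟩ | ⟨k, hk, a, b, x, y, z⟩ | ⟨k, hk, a, b, x, y, z⟩ |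
    ⟨a, x, y, z⟩
  · exact absurd hz (not_lt.2 z)
  · rcases gfacts_piece g t' with ⟨a', x', y', z'⟩ | ⟨k', hk', a', b', x', y', z'⟩ |
      ⟨k', hk', a', b', x', y', z'⟩ | ⟨a', x', y', z'⟩
    · exact absurd hz' (not_lt.2 z')
    · have h1 : (g.X k : ℝ) = g.X k' := by linarith
      have h2 : g.X k = g.X k' := by exact_mod_cast h1
      have h4 := g.Xinj k k' hk hk' h2
      subst h4
      have h5 := gfacts_Yne g hk
      have h6 : ((g.Y (k + 1) : ℝ) - g.Y k) * st (t + g.n - 2 * k) =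
          ((g.Y (k + 1) : ℝ) - g.Y k) * st (t' + g.n - 2 * k) := by linarith
      have h7 := mul_left_cancel₀ h5 h6
      have := st_inj (by linarith) (by linarith) (by linarith) (by linarith) h7
      linarith
    · exact absurd hz' (not_lt.2 z')
    · exact absurd hz' (not_lt.2 z')
  · exact absurd hz (not_lt.2 z)
  · exact absurd hz (not_lt.2 z)

theorem gfacts_convex {a b s : ℝ} {lo hi : ℝ} (h0 : 0 ≤ s) (h1 : s ≤ 1) (ha : lo ≤ a)
    (ha' : a ≤ hi) (hb : lo ≤ b) (hb' : b ≤ hi) : lo ≤ a + (b - a) * s ∧ a + (b - a) * s ≤ hi := by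
  constructor
  · nlinarith [mul_nonneg h0 (sub_nonneg.2 hb), mul_nonneg (sub_nonneg.2 h1) (sub_nonneg.2 ha)]
  · nlinarith [mul_nonneg h0 (sub_nonneg.2 hb'), mul_nonneg (sub_nonneg.2 h1) (sub_nonneg.2 ha')]

theorem gfacts_gyb (t : ℝ) : 0 ≤ g.gy t ∧ g.gy t ≤ g.n - 1 := by
  have hn := gfacts_n3 g
  rcases gfacts_piece g t with ⟨a, x, y, z⟩ | ⟨k, hk, a, b, x, y, z⟩ | ⟨k, hk, a, b, x, y, z⟩ |
    ⟨a, x, y, z⟩
  · rw [y]; constructor <;> linarith
  · rw [y]
    have h1 := gfacts_Ynn g hk.le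
    have h2 := gfacts_Ynn g (k := k + 1) hk
    exact gfacts_convex (st_nonneg _) (st_le_one _) h1.1 h1.2 h2.1 h2.2
  · rw [y]; exact gfacts_Ynn g hk.le
  · rw [y]; constructor <;> linarith

theorem gfacts_gxb (t : ℝ) (h1 : -((g.n : ℝ) + 1) ≤ t) (h2 : t ≤ g.n) : |g.gx t| ≤ g.n + 1 := by
  have hn := gfacts_n3 g
  have hn3 := g.n3
  have hX : ∀ k, k < g.n → -((g.n : ℝ) + 1) ≤ g.X k ∧ (g.X k : ℝ) ≤ g.n + 1 := by
    intro k hk
    have := gfacts_Xnn g hk
    have := gfacts_Xle g hk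
    constructor <;> linarith
  rw [abs_le]
  rcases gfacts_piece g t with ⟨a, x, y, z⟩ | ⟨k, hk, a, b, x, y, z⟩ | ⟨k, hk, a, b, x, y, z⟩ |
    ⟨a, x, y, z⟩
  · rw [x]
    exact gfacts_convex (st_nonneg _) (st_le_one _) h1 (by linarith) (hX 0 (by omega)).1
      (hX 0 (by omega)).2
  · rw [x]; exact hX k hk
  · rw [x]
    exact gfacts_convex (st_nonneg _) (st_le_one _) (hX k (by omega)).1 (hX k (by omega)).2
      (hX _ hk).1 (hX _ hk).2
  · rw [x]
    exact gfacts_convex (st_nonneg _) (st_le_one _) (hX _ (by omega)).1 (hX _ (by omega)).2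
      h1 (by linarith)

theorem gfacts_st_smooth (a : ℝ) : ContDiff ℝ ∞ (fun t : ℝ => st (t + a)) :=
  (st_contDiff (n := ⊤)).comp (contDiff_id.add contDiff_const)

theorem gfacts_st_smooth' (a : ℝ) : ContDiff ℝ ∞ (fun t : ℝ => st (a - t)) :=
  (st_contDiff (n := ⊤)).comp (contDiff_const.sub contDiff_id)

theorem gfacts_smx : ContDiff ℝ ∞ g.gx := by
  have e : g.gx = fun t => t + (g.X 0 - t) * st (t + ((g.n : ℝ) + 1)) +
      (∑ k ∈ Finset.range (g.n - 1), ((g.X (k + 1) : ℝ) - g.X k) *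
        st (t + ((g.n : ℝ) - 1 - 2 * k))) +
      (t - g.X (g.n - 1)) * st (t + (-((g.n : ℝ) - 1))) := by
    funext t
    unfold gx
    have e1 : t + g.n + 1 = t + ((g.n : ℝ) + 1) := by ring
    have e2 : t - (g.n - 1) = t + (-((g.n : ℝ) - 1)) := by ring
    have e3 : ∀ k : ℕ, t + g.n - 1 - 2 * k = t + ((g.n : ℝ) - 1 - 2 * k) := by intro k; ring
    simp only [e1, e2, e3]
  rw [e]
  refine ((contDiff_id.add ((contDiff_const.sub contDiff_id).mul (gfacts_st_smooth _))).add
    (ContDiff.sum fun k _ => contDiff_const.mul (gfacts_st_smooth _))).add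
    ((contDiff_id.sub contDiff_const).mul (gfacts_st_smooth _))

theorem gfacts_smy : ContDiff ℝ ∞ g.gy := by
  have e : g.gy = fun t => (∑ k ∈ Finset.range g.n, ((g.Y (k + 1) : ℝ) - g.Y k) *
        st (t + ((g.n : ℝ) - 2 * k))) := by
    funext t
    unfold gy
    have e3 : ∀ k : ℕ, t + g.n - 2 * k = t + ((g.n : ℝ) - 2 * k) := by intro k; ring
    simp only [e3]
  rw [e]
  exact ContDiff.sum fun k _ => contDiff_const.mul (gfacts_st_smooth _)

theorem gfacts_smc : ContDiff ℝ ∞ g.gc := by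
  have e : g.gc = fun t => st (t + ((g.n : ℝ) + 1)) * st (g.n - t) := by
    funext t
    unfold gc
    have e1 : t + g.n + 1 = t + ((g.n : ℝ) + 1) := by ring
    rw [e1]
  rw [e]
  exact (gfacts_st_smooth _).mul (gfacts_st_smooth' _)

theorem gfacts_smz : ContDiff ℝ ∞ g.gz := by
  have : ContDiff ℝ ∞ (fun t : ℝ => Real.sin (Real.pi * (t + g.n + 1))) :=
    Real.contDiff_sin.comp (contDiff_const.mul ((contDiff_id.add contDiff_const).add
      contDiff_const))
  exact ((gfacts_smc g).mul this).neg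

theorem gfacts_derivx_of_const {t c : ℝ} {a b : ℝ} (h1 : a < t) (h2 : t < b) {f : ℝ → ℝ}
    (h : ∀ s, a ≤ s → s ≤ b → f s = c) : deriv f t = 0 := by
  have : f =ᶠ[𝓝 t] fun _ => c := by
    filter_upwards [Ioo_mem_nhds h1 h2] with s hs
    exact h s hs.1.le hs.2.le
  rw [this.deriv_eq]
  simp

theorem gfacts_deriv_of {t : ℝ} {a b A B C : ℝ} (h1 : a < t) (h2 : t < b) {f : ℝ → ℝ}
    (h : ∀ s, a ≤ s → s ≤ b → f s = A + B * st (s + C)) : deriv f t = B * st' (t + C) := by
  have : f =ᶠ[𝓝 t] fun s => A + B * st (s + C) := by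
    filter_upwards [Ioo_mem_nhds h1 h2] with s hs
    exact h s hs.1.le hs.2.le
  rw [this.deriv_eq]
  exact (((st_add_hasDerivAt C t).const_mul B).const_add A).deriv

theorem gfacts_zint {t : ℝ} (m : ℤ) (hm : t + g.n + 1 = m) (h1 : -(g.n : ℝ) ≤ t)
    (h2 : t ≤ (g.n : ℝ) - 1) : deriv g.gz t ≠ 0 ∧ g.gz t = 0 := by
  have hs : Real.sin (Real.pi * (t + g.n + 1)) = 0 := by
    rw [hm, mul_comm]; exact Real.sin_int_mul_pi m
  constructor
  · have hc : HasDerivAt g.gc (deriv g.gc t) t :=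
      ((gfacts_smc g).differentiable (by simp) t).hasDerivAt
    have h3 : HasDerivAt (fun s : ℝ => Real.sin (Real.pi * (s + g.n + 1)))
        (Real.cos (Real.pi * (t + g.n + 1)) * (Real.pi * 1)) t :=
      (((((hasDerivAt_id t).add_const (g.n : ℝ)).add_const 1)).const_mul Real.pi).sin
    have h4 : HasDerivAt g.gz (-(deriv g.gc t * Real.sin (Real.pi * (t + g.n + 1)) +
        g.gc t * (Real.cos (Real.pi * (t + g.n + 1)) * (Real.pi * 1)))) t := (hc.mul h3).neg
    rw [h4.deriv, hs, gfacts_gc_one g h1 h2, hm]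
    have h5 := cos_ne_int m
    have h6 := Real.pi_ne_zero
    simp [h5, h6]
  · unfold gz
    rw [hs]; simp

theorem gfacts_dir (t : ℝ) : (g.gz t ≤ 0 ∧ deriv g.gx t ≠ 0 ∧ deriv g.gy t = 0) ∨
    (0 < g.gz t ∧ deriv g.gx t = 0 ∧ deriv g.gy t ≠ 0) ∨ (deriv g.gz t ≠ 0 ∧ g.gz t = 0) := by
  have hn := gfacts_n3 g
  have hn3 := g.n3
  rcases gfacts_piece g t with ⟨a, x, y, z⟩ | ⟨k, hk, a, b, x, y, z⟩ | ⟨k, hk, a, b, x, y, z⟩ |
    ⟨a, x, y, z⟩
  · rcases a.lt_or_eq with a' | a'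
    · left
      refine ⟨z, ?_, ?_⟩
      · have h : g.gx =ᶠ[𝓝 t] fun s => s + (g.X 0 - s) * st (s + ((g.n : ℝ) + 1)) := by
          filter_upwards [Iio_mem_nhds a'] with s hs
          have hs' : s < -(g.n : ℝ) := hs
          rw [gfacts_gxL g (by linarith)]
          have e1 : s + g.n + 1 = s + ((g.n : ℝ) + 1) := by ring
          rw [e1]
        rw [h.deriv_eq]
        have h2 : HasDerivAt (fun s : ℝ => (g.X 0 : ℝ) - s) (-1) t := by
          simpa using (hasDerivAt_id t).const_sub (g.X 0 : ℝ)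
        have h3 := (hasDerivAt_id t).add (h2.mul (st_add_hasDerivAt ((g.n : ℝ) + 1) t))
        have h4 : deriv (fun s => s + (g.X 0 - s) * st (s + ((g.n : ℝ) + 1))) t =
            1 + (-1 * st (t + ((g.n : ℝ) + 1)) +
              (g.X 0 - t) * st' (t + ((g.n : ℝ) + 1))) := h3.deriv
        rw [h4]
        have h5 := st_lt_one (x := t + ((g.n : ℝ) + 1)) (by linarith)
        have h6 := st'_nonneg (t + ((g.n : ℝ) + 1))
        have h0 := gfacts_Xnn g (k := 0) (by omega)
        have h7 : 0 ≤ ((g.X 0 : ℝ) - t) * st' (t + ((g.n : ℝ) + 1)) :=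
          mul_nonneg (by linarith) h6
        have : 0 < 1 + (-1 * st (t + ((g.n : ℝ) + 1)) +
              (g.X 0 - t) * st' (t + ((g.n : ℝ) + 1))) := by linarith
        exact this.ne'
      · exact gfacts_derivx_of_const (a := t - 1) (b := -(g.n : ℝ)) (by linarith) a'
          (fun s _ hs => gfacts_gyL g hs)
    · right; right
      exact gfacts_zint g 1 (by rw [a']; push_cast; ring) (by linarith) (by linarith)
  · right; left
    refine ⟨z, ?_, ?_⟩
    · exact gfacts_derivx_of_const a b (fun s h1 h2 => gfacts_gxV g hk h1 h2)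
    · rw [gfacts_deriv_of (A := g.Y k) (B := (g.Y (k + 1) : ℝ) - g.Y k) (C := g.n - 2 * k) a b
        (fun s h1 h2 => by
          rw [gfacts_gyV g hk (Or.inr (by linarith)) (Or.inr (by linarith))]
          have : s + g.n - 2 * k = s + ((g.n : ℝ) - 2 * k) := by ring
          rw [this])]
      exact mul_ne_zero (gfacts_Yne g hk) (st'_pos (by linarith) (by linarith)).ne'
  · rcases a.lt_or_eq with a' | a'
    · rcases b.lt_or_eq with b' | b'
      · left
        refine ⟨z, ?_, ?_⟩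
        · rw [gfacts_deriv_of (A := g.X k) (B := (g.X (k + 1) : ℝ) - g.X k)
            (C := g.n - 1 - 2 * k) a' b'
            (fun s h1 h2 => by
              rw [gfacts_gxH g hk (by linarith) (by linarith)]
              have : s + g.n - 1 - 2 * k = s + ((g.n : ℝ) - 1 - 2 * k) := by ring
              rw [this])]
          exact mul_ne_zero (gfacts_Xne g hk) (st'_pos (by linarith) (by linarith)).ne'
        · exact gfacts_derivx_of_const a' b' (fun s h1 h2 => gfacts_gyH g hk h1 h2)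
      · right; right
        have hk1 : (k : ℝ) + 2 ≤ g.n := by exact_mod_cast hk
        have hk0 : (0:ℝ) ≤ k := Nat.cast_nonneg k
        exact gfacts_zint g (2 * k + 3) (by rw [b']; push_cast; ring) (by linarith) (by linarith)
    · right; right
      have hk1 : (k : ℝ) + 2 ≤ g.n := by exact_mod_cast hk
      have hk0 : (0:ℝ) ≤ k := Nat.cast_nonneg k
      exact gfacts_zint g (2 * k + 2) (by rw [← a']; push_cast; ring) (by linarith) (by linarith)
  · rcases a.lt_or_eq with a' | a'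
    · left
      refine ⟨z, ?_, ?_⟩
      · have h : g.gx =ᶠ[𝓝 t] fun s => g.X (g.n - 1) +
            (s - g.X (g.n - 1)) * st (s + -((g.n : ℝ) - 1)) := by
          filter_upwards [Ioi_mem_nhds a'] with s hs
          have hs' : (g.n : ℝ) - 1 < s := hs
          rw [gfacts_gxR g (by linarith)]
          have e1 : s - (g.n - 1) = s + -((g.n : ℝ) - 1) := by ring
          rw [e1]
        rw [h.deriv_eq]
        have h2 : HasDerivAt (fun s : ℝ => s - (g.X (g.n - 1) : ℝ)) 1 t := by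
          simpa using (hasDerivAt_id t).sub_const (g.X (g.n - 1) : ℝ)
        have h3 := (h2.mul (st_add_hasDerivAt (-((g.n : ℝ) - 1)) t)).const_add
          (g.X (g.n - 1) : ℝ)
        have h4 : deriv (fun s => (g.X (g.n - 1) : ℝ) +
            (s - g.X (g.n - 1)) * st (s + -((g.n : ℝ) - 1))) t =
            (1 * st (t + -((g.n : ℝ) - 1)) +
              (t - g.X (g.n - 1)) * st' (t + -((g.n : ℝ) - 1))) := h3.deriv
        rw [h4]
        have h5 := st_pos (x := t + -((g.n : ℝ) - 1)) (by linarith)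
        have h6 := st'_nonneg (t + -((g.n : ℝ) - 1))
        have h0 := gfacts_Xle g (k := g.n - 1) (by omega)
        have h7 : 0 ≤ (t - (g.X (g.n - 1) : ℝ)) * st' (t + -((g.n : ℝ) - 1)) :=
          mul_nonneg (by linarith) h6
        have : 0 < (1 * st (t + -((g.n : ℝ) - 1)) +
              (t - g.X (g.n - 1)) * st' (t + -((g.n : ℝ) - 1))) := by linarith
        exact this.ne'
      · exact gfacts_derivx_of_const (a := (g.n : ℝ) - 1) (b := t + 1) a' (by linarith)
          (fun s hs _ => gfacts_gyR g hs)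
    · right; right
      exact gfacts_zint g (2 * g.n) (by rw [← a']; push_cast; ring) (by linarith) (by linarith)

end GK

open GK in
theorem gfacts_aux (g : GK) : GFacts g where
  smx := gfacts_smx g
  smy := gfacts_smy g
  smz := gfacts_smz g
  smc := gfacts_smc g
  piece := gfacts_piece g
  stdx := by
    intro t h
    have hn := gfacts_n3 g
    rcases h with h | h
    · rw [gfacts_gxL g (by linarith), st_zero (by linarith)]; ring
    · rw [gfacts_gxR g (by linarith), st_one (by linarith)]; ring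
  stdy := by
    intro t h
    rcases h with h | h
    · exact gfacts_gyL g h
    · exact gfacts_gyR g h
  stdz := fun t h => gfacts_stdz g h
  stdc := fun t h => gfacts_gc_zero g h
  gc0 := gfacts_gc0 g
  gc1 := gfacts_gc1 g
  gzc := by
    intro t
    unfold GK.gz
    rw [abs_neg, abs_mul, abs_of_nonneg (gfacts_gc0 g t)]
    have h2 := Real.abs_sin_le_one (Real.pi * (t + g.n + 1))
    have h4 := gfacts_gc0 g t
    nlinarith
  gcz := by
    intro t hz
    rcases gfacts_piece g t with ⟨a, x, y, z⟩ | ⟨k, hk, a, b, x, y, z⟩ |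
      ⟨k, hk, a, b, x, y, z⟩ | ⟨a, x, y, z⟩
    · exact absurd hz (not_lt.2 z)
    · have hk1 : (k : ℝ) + 1 ≤ g.n := by exact_mod_cast hk
      have hk0 : (0:ℝ) ≤ k := Nat.cast_nonneg k
      exact gfacts_gc_one g (by linarith) (by linarith)
    · exact absurd hz (not_lt.2 z)
    · exact absurd hz (not_lt.2 z)
  gyb := gfacts_gyb g
  gxb := gfacts_gxb g
  neg := by
    intro k t hk h1 h2
    have hk1 : (k : ℝ) ≤ g.n := by exact_mod_cast hk
    have hk0 : (0:ℝ) ≤ k := Nat.cast_nonneg k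
    have hs := gfacts_sin_pos k (u := t + g.n + 1) (by push_cast; linarith)
      (by push_cast; linarith)
    have hc := gfacts_gc_pos g (t := t) (by linarith) (by linarith)
    have := mul_pos hc hs
    unfold GK.gz
    linarith
  injh := gfacts_injh g
  injv := gfacts_injv g
  dir := gfacts_dir g

/-
PROOF IDEA (TARGET).  This generalises H414_LK/Grid.lean (a particular grid knot with `n = 5`);
that file is imported, its names `kx, ky, kz, piece, inj_h, inj_v, dir, ...` are in the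
namespace `Pool.Agent.H414_LK`.  `st` is the smooth step function of H414_LK/Step.lean (`0` for
`x ≤ 0`, `1` for `x ≥ 1`, strictly increasing on `[0, 1]`, derivative `st'`, positive on `(0, 1)`, zero
outside).
For given `t`, all the terms of the sums in `gx`, `gy` but at most one have `st = 0` or `st = 1`; the
sums telescope (`Finset.sum_range_sub`, splitting the range at `k`).  For `dir` it may be better to use
that on the OPEN pieces the formulas of `Piece` hold in a neighbourhood of `t`, so that the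
derivatives can be computed from them; at the end points `t = m` of the pieces, `m` an integer with
`-n ≤ m ≤ n - 1`, `gc t = 1` and `sin (π (t + n + 1)) = 0`, so `gz` vanishes with nonzero derivative
(product rule).  On the left ray `t < -n`: `gx` has derivative
`1 - st + (X 0 - t) st' > 0` with `st = st (t + n + 1) < 1` and `X 0 ≥ 0 > t`; on the right ray
`t > n - 1 ≥ X (n - 1)` it is `st + (t - X (n - 1)) st' > 0` with `st = st (t - (n - 1)) > 0`.
Injectivity: two horizontal pieces with the same `y` are the same piece, or both are rays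
(`Yinj`, `Yr`), and the two rays are disjoint by `X0` (on the left ray `gx ≤ X 0`, on the right one
`gx ≥ X (n - 1)`), `gx` is strictly increasing on each ray; on a piece `st` is injective; consecutive
columns are distinct, consecutive rows too.  Vertical pieces: `Xinj`.
-/
theorem gfacts (g : GK) : GFacts g := gfacts_aux g

end Pool.Agent.H414_LQ
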