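import Pool.Agent.H414_LQ.Base3
import Pool.Agent.H414_LQ.F6b

/-!
JOB M7a.  Transport of loops over moving points.
-/

set_option autoImplicit false

open scoped Topology ContDiff unitInterval

noncomputable section

namespace Pool.Agent.H414_LQ

open Pool.Agent.H414_LK

/-
PROOF IDEA (TARGET).  (1) Apply `hT.family` to `ℓ (s, t) = poly (x s) (y s) t`: it is continuous
(`Path.trans_continuous_family`, `sg` is a continuous family), and avoids the knots: the segments
of the polygon other than the middle one have `y = 3` or `z = ± 3`, while long knots are contained in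
the union of the closed unit ball and the axis; the middle one is over `(x s, y s)`.
(2) Apply (1) to `x s = θ.1 l + θ.2 l (i + 1/2)/48`, `y s = θ.2 l (j + 1/2)/48`: by `rng_slab`
(`8.5 / 48 < 1/5`) a point of the knot over it gives a time `t` with
`be t = v3 ((i + 1/2)/48) ((j + 1/2)/48) _`, so `gx, gy` are half integers at the time `48 t`, while
by `GFacts.piece` one of them is an integer at each time.
-/
theorem PL_move_rng {f : LongKnot 3} {p : Eu 3} (hp : p ∈ Set.range f.toFun) :
    p 1 < 2 ∧ -2 < p 1 ∧ p 2 < 2 ∧ -2 < p 2 := by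
  obtain ⟨t, ht⟩ := hp
  rcases le_total 1 |t| with h | h
  · rw [f.standard t h, axis_eq] at ht
    subst ht
    simp
  · have h1 := f.ball t h
    rw [ht, mem_closedBall_zero_iff] at h1
    have h2 : ‖p‖ ^ 2 ≤ 1 := by nlinarith [norm_nonneg p]
    rw [normsq3] at h2
    refine ⟨?_, ?_, ?_, ?_⟩ <;> nlinarith [sq_nonneg (p 0), sq_nonneg (p 1), sq_nonneg (p 2)]

theorem PL_move_trans {X : Type*} [TopologicalSpace X] {a b c : X} {P : X → Prop}
    {γ : Path a b} {γ' : Path b c} (h : ∀ t, P (γ t)) (h' : ∀ t, P (γ' t)) (t : I) :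
    P ((γ.trans γ') t) := by
  rw [Path.trans_apply]
  split_ifs
  · exact h _
  · exact h' _

theorem PL_move_sg (a b : Eu 3) (t : I) : sg a b t = (1 - (t : ℝ)) • a + (t : ℝ) • b := rfl

theorem PL_move_avoid {f : LongKnot 3} {x y : ℝ} (h : Free f x y) (t : I) :
    poly x y t ∉ Set.range f.toFun := by
  have key : ∀ q : Eu 3, (q 1 = 3 ∨ q 2 = 3 ∨ q 2 = -3) → q ∉ Set.range f.toFun := by
    intro q hq hr
    obtain ⟨h1, h2, h3, h4⟩ := PL_move_rng hr
    rcases hq with hq | hq | hq <;> linarith
  refine PL_move_trans (P := fun q => q ∉ Set.range f.toFun) (fun t => ?_)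
    (fun t => PL_move_trans (P := fun q => q ∉ Set.range f.toFun) (fun t => ?_)
    (fun t => PL_move_trans (P := fun q => q ∉ Set.range f.toFun) (fun t => ?_)
    (fun t => PL_move_trans (P := fun q => q ∉ Set.range f.toFun) (fun t => ?_)
    (fun t => ?_) t) t) t) t
  · refine key _ (Or.inl ?_)
    rw [PL_move_sg]; simp [bb]; ring
  · refine key _ (Or.inr (Or.inr ?_))
    rw [PL_move_sg]; simp; ring
  · have e : sg (v3 x y (-3)) (v3 x y 3) t = v3 x y ((1 - (t : ℝ)) * (-3) + t * 3) := by
      rw [PL_move_sg]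
      apply ext3 <;> simp <;> ring
    rw [e]
    exact h _
  · refine key _ (Or.inr (Or.inl ?_))
    rw [PL_move_sg]; simp; ring
  · refine key _ (Or.inl ?_)
    rw [PL_move_sg]; simp [bb]; ring

theorem PL_move_v3 {S : Type*} [TopologicalSpace S] {x y z : S → ℝ} (hx : Continuous x)
    (hy : Continuous y) (hz : Continuous z) : Continuous fun s => v3 (x s) (y s) (z s) := by
  refine (PiLp.continuous_toLp 2 (fun _ : Fin 3 => ℝ)).comp ?_
  refine continuous_pi fun i => ?_
  fin_cases i
  · exact hx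
  · exact hy
  · exact hz

theorem PL_move_sgc {S : Type*} [TopologicalSpace S] {a b : S → Eu 3} (ha : Continuous a)
    (hb : Continuous b) : Continuous (Function.HasUncurry.uncurry fun s => sg (a s) (b s)) := by
  show Continuous fun p : S × I => (1 - (p.2 : ℝ)) • a p.1 + (p.2 : ℝ) • b p.1
  fun_prop

theorem PL_move_cont {x y : I → ℝ} (hx : Continuous x) (hy : Continuous y) :
    Continuous fun p : I × I => poly (x p.1) (y p.1) p.2 := by
  have c1 : Continuous fun s : I => v3 (x s) (y s) (-3) := PL_move_v3 hx hy continuous_const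
  have c2 : Continuous fun s : I => v3 (x s) (y s) 3 := PL_move_v3 hx hy continuous_const
  have k1 : Continuous fun _ : I => bb := continuous_const
  have k2 : Continuous fun _ : I => v3 0 3 (-3) := continuous_const
  have k3 : Continuous fun _ : I => v3 0 3 3 := continuous_const
  exact Path.trans_continuous_family _ (PL_move_sgc k1 k2) _
    (Path.trans_continuous_family _ (PL_move_sgc k2 c1) _
    (Path.trans_continuous_family _ (PL_move_sgc c1 c2) _
    (Path.trans_continuous_family _ (PL_move_sgc c2 k3) _ (PL_move_sgc k3 k1))))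

theorem PL_move {tr : ∀ {f f' : LongKnot 3}, Path f f' → (KG f ≃* KG f')} (hT : Tr @tr)
    {PL : ∀ f : LongKnot 3, ℝ → ℝ → KG f}
    (hP : ∀ f x y, Free f x y → ∀ hp : ∀ t, poly x y t ∉ Set.range f.toFun,
      PL f x y = PG.mk (inC (poly x y) hp (bb_notin f) (bb_notin f)))
    {f f' : LongKnot 3} (H : Path f f') (x y : I → ℝ) (hx : Continuous x) (hy : Continuous y)
    (hfree : ∀ s, Free (H s) (x s) (y s)) : tr H (PL f (x 0) (y 0)) = PL f' (x 1) (y 1) := by
  rw [hP f (x 0) (y 0) (by simpa using hfree 0) (PL_move_avoid (by simpa using hfree 0)),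
    hP f' (x 1) (y 1) (by simpa using hfree 1) (PL_move_avoid (by simpa using hfree 1))]
  refine hT.family H (fun p => poly (x p.1) (y p.1) p.2) (PL_move_cont hx hy)
    (fun s t => PL_move_avoid (hfree s) t) (fun s => (poly (x s) (y s)).source)
    (fun s => (poly (x s) (y s)).target) _ _ (fun t => rfl) (fun t => rfl)

theorem cel_move {tr : ∀ {f f' : LongKnot 3}, Path f f' → (KG f ≃* KG f')} (hT : Tr @tr)
    {PL : ∀ f : LongKnot 3, ℝ → ℝ → KG f}
    (hP : ∀ f x y, Free f x y → ∀ hp : ∀ t, poly x y t ∉ Set.range f.toFun,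
      PL f x y = PG.mk (inC (poly x y) hp (bb_notin f) (bb_notin f)))
    {g : Fin 3 → GK} {ε : ℝ} (hg : ∀ l, TubeF (g l) ε) (hG : ∀ l, GFacts (g l))
    {f f' : LongKnot 3} (H : Path f f') (θ : I → Par) (hθ : Continuous θ) (hD : ∀ s, Dis (θ s))
    (hH : ∀ s t, (H s).toFun t = Mc g 0 1 2 (θ s) (v3 t 0 0)) (l : Fin 3) (i j : ℤ)
    (hi : -1 ≤ i) (hi' : i ≤ 8) (hj : -1 ≤ j) (hj' : j ≤ 8) :
    tr H (cel (PL f) (θ 0) l i j) = cel (PL f') (θ 1) l i j := by
  have hθ1 : Continuous fun s => (θ s).1 l := (continuous_apply l).comp (continuous_fst.comp hθ)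
  have hθ2 : Continuous fun s => (θ s).2 l := (continuous_apply l).comp (continuous_snd.comp hθ)
  refine PL_move hT hP H (fun s => (θ s).1 l + (θ s).2 l * ((i + 1 / 2) / 48))
    (fun s => (θ s).2 l * ((j + 1 / 2) / 48)) (by fun_prop) (by fun_prop) fun s w hw => ?_
  obtain ⟨t, ht⟩ := hw
  rw [hH] at ht
  have hpos := (hD s).pos l
  have h1 := (rng_slab hg (hD s) (i := 0) (j := 1) (k := 2) (by decide) (by decide) (by decide) l
    (p := v3 ((θ s).1 l + (θ s).2 l * ((i + 1 / 2) / 48)) ((θ s).2 l * ((j + 1 / 2) / 48)) w) ?_).1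
    ⟨t, ht⟩
  · obtain ⟨u, hu⟩ := h1
    have e0 : (g l).gx (48 * u) = i + 1 / 2 := by
      have := congrArg (fun v : Eu 3 => v 0) hu
      simp only [GK.be, v3_0, smul_app, sub_app, add_sub_cancel_left] at this
      rw [inv_mul_cancel_left₀ hpos.ne'] at this
      linarith
    have e1 : (g l).gy (48 * u) = j + 1 / 2 := by
      have := congrArg (fun v : Eu 3 => v 1) hu
      simp only [GK.be, v3_1, smul_app, sub_app, sub_zero] at this
      rw [inv_mul_cancel_left₀ hpos.ne'] at this
      linarith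
    have key : ∀ m n : ℤ, (m : ℝ) + 1 / 2 ≠ n := by
      intro m n h
      have h2 : (2 * m + 1 : ℤ) = 2 * n := by
        have : (2 * m + 1 : ℝ) = 2 * n := by linarith
        exact_mod_cast this
      omega
    cases (hG l).piece (48 * u) with
    | hl _ _ y _ => exact key j 0 (by rw [← e1, y]; simp)
    | v k _ _ _ x _ _ => exact key i ((g l).X k) (by rw [← e0, x])
    | h k _ _ _ _ y _ => exact key j ((g l).Y (k + 1)) (by rw [← e1, y])
    | hr _ _ y _ => exact key j 0 (by rw [← e1, y]; simp)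
  · simp only [v3_0, add_sub_cancel_left]
    have hi1 : (-1 : ℝ) ≤ i := by exact_mod_cast hi
    have hi2 : (i : ℝ) ≤ 8 := by exact_mod_cast hi'
    rw [abs_le]
    constructor <;> nlinarith

end Pool.Agent.H414_LQ
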