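import Pool.Agent.H414_LQ.PC
import Pool.Agent.H414_LQ.F6b
import Pool.Agent.H414_LQ.M7a

/-!
JOB M7b.  Passing a small knot through another one.
-/

set_option autoImplicit false

open scoped Topology ContDiff unitInterval

noncomputable section

namespace Pool.Agent.H414_LQ

open Pool.Agent.H414_LK


namespace PassAux

/-- the tube map of size 1 centered at `c` -/
def T1 (g : GK) (c : ℝ) (x : Eu 3) : Eu 3 := v3 c 0 0 + g.tu (x - v3 c 0 0)

theorem tub_one (g : GK) (c : ℝ) (x : Eu 3) : g.tub c 1 x = T1 g c x := by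
  simp [GK.tub, T1]

/-- the small knot -/
def Qk (g : GK) (δ c t : ℝ) : Eu 3 := v3 c 0 0 + δ • g.be (δ⁻¹ * (t - c))

theorem tub_axis {g : GK} {ε : ℝ} (hT : TubeF g ε) (c δ t : ℝ) :
    g.tub c δ (v3 t 0 0) = Qk g δ c t := by
  unfold GK.tub Qk
  have h1 : δ⁻¹ • (v3 t 0 0 - v3 c 0 0) = v3 (δ⁻¹ * (t - c)) 0 0 := by
    apply ext3 <;> simp
  rw [h1, hT.tu_axis]

/-- the tube around the axis -/
def Tb (ε : ℝ) (x : Eu 3) : Prop := ‖x - v3 (x 0) 0 0‖ < ε

theorem sub_sub_v3 (x : Eu 3) (c : ℝ) :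
    (x - v3 c 0 0) - v3 ((x - v3 c 0 0) 0) 0 0 = x - v3 (x 0) 0 0 := by
  apply ext3 <;> simp

theorem T1_out {g : GK} {ε : ℝ} (hT : TubeF g ε) {c : ℝ} {x : Eu 3} (h : 1 / 6 ≤ |x 0 - c|) :
    T1 g c x = x := by
  unfold T1
  rw [hT.out (x - v3 c 0 0) (by simpa using h)]
  abel

theorem T1_near {g : GK} {ε : ℝ} (hT : TubeF g ε) {c : ℝ} {x : Eu 3} (h : |x 0 - c| ≤ 1 / 6)
    (hx : Tb ε x) : |(T1 g c x) 0 - c| ≤ 1 / 6 + 1 / 400 := by
  have h0 : (x - v3 c 0 0) 0 = x 0 - c := by simp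
  have h1 := hT.near (x - v3 c 0 0) (by
    intro _
    rw [sub_sub_v3]
    exact hx) (by rw [h0]; exact h)
  rw [h0] at h1
  have h2 := hT.be_0 (x 0 - c) h
  have h3 : |(g.tu (x - v3 c 0 0) - g.be (x 0 - c)) 0| ≤
      ‖g.tu (x - v3 c 0 0) - g.be (x 0 - c)‖ := by
    have := PiLp.norm_apply_le (g.tu (x - v3 c 0 0) - g.be (x 0 - c)) 0
    rwa [Real.norm_eq_abs] at this
  have h4 : (T1 g c x) 0 - c = (g.tu (x - v3 c 0 0) - g.be (x 0 - c)) 0 + g.be (x 0 - c) 0 := by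
    simp [T1]
  rw [h4]
  refine (abs_add_le _ _).trans ?_
  linarith

theorem T1_inj {g : GK} {ε : ℝ} (hT : TubeF g ε) {c : ℝ} {x y : Eu 3}
    (hx : |x 0 - c| ≤ 1 / 5 → Tb ε x) (hy : |y 0 - c| ≤ 1 / 5 → Tb ε y)
    (h : T1 g c x = T1 g c y) : x = y := by
  have h0 : ∀ z : Eu 3, (z - v3 c 0 0) 0 = z 0 - c := fun z => by simp
  have h1 : g.tu (x - v3 c 0 0) = g.tu (y - v3 c 0 0) := by
    unfold T1 at h
    exact add_left_cancel h
  have hxO : x - v3 c 0 0 ∈ Om ε := by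
    intro hh
    rw [sub_sub_v3]
    exact hx (by rwa [h0] at hh)
  have hyO : y - v3 c 0 0 ∈ Om ε := by
    intro hh
    rw [sub_sub_v3]
    exact hy (by rwa [h0] at hh)
  exact sub_left_injective (hT.inj hxO hyO h1)

theorem T1_cont {g : GK} {ε : ℝ} (hT : TubeF g ε) (c : ℝ) : Continuous (T1 g c) := by
  unfold T1
  have := hT.st.continuous
  fun_prop

/-! ### the small knot -/

theorem be0 (g : GK) (t : ℝ) : g.be t 0 = g.gx (48 * t) / 48 := rfl
theorem be1 (g : GK) (t : ℝ) : g.be t 1 = g.gy (48 * t) / 48 := rfl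
theorem be2 (g : GK) (t : ℝ) : g.be t 2 = g.gz (48 * t) / 48 := rfl

theorem be1_le {g : GK} (hG : GFacts g) (t : ℝ) : 0 ≤ g.be t 1 ∧ g.be t 1 ≤ 1 / 8 := by
  rw [be1]
  have h1 := hG.gyb (48 * t)
  have h2 : (g.n : ℝ) ≤ 7 := by exact_mod_cast g.n7
  constructor <;> linarith [h1.1, h1.2]

theorem be2_le {g : GK} (hG : GFacts g) (t : ℝ) : |g.be t 2| ≤ 1 / 48 := by
  rw [be2, abs_div, abs_of_pos (by norm_num : (0 : ℝ) < 48)]
  have h1 := hG.gzc (48 * t)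
  have h2 := hG.gc1 (48 * t)
  linarith

/-- one of the coordinates is an integer -/
theorem be_int {g : GK} (hG : GFacts g) (t : ℝ) :
    (∃ m : ℤ, 48 * g.be t 0 = m) ∨ ∃ m : ℤ, 48 * g.be t 1 = m := by
  have e0 : 48 * g.be t 0 = g.gx (48 * t) := by rw [be0]; ring
  have e1 : 48 * g.be t 1 = g.gy (48 * t) := by rw [be1]; ring
  rw [e0, e1]
  rcases hG.piece (48 * t) with ⟨_, _, y, _⟩ | ⟨k, _, _, _, x, _, _⟩ | ⟨k, _, _, _, _, y, _⟩ |
    ⟨_, _, y, _⟩
  · exact Or.inr ⟨0, by rw [y]; simp⟩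
  · exact Or.inl ⟨_, x⟩
  · exact Or.inr ⟨_, y⟩
  · exact Or.inr ⟨0, by rw [y]; simp⟩

theorem half_int (a m : ℤ) : 1 / 2 ≤ |(m : ℝ) - (a + 1 / 2)| := by
  rcases le_or_gt m a with h | h
  · have h' : (m : ℝ) ≤ a := by exact_mod_cast h
    rw [abs_of_neg (by linarith)]
    linarith
  · have h' : (a : ℝ) + 1 ≤ m := by exact_mod_cast h
    rw [abs_of_pos (by linarith)]
    linarith

theorem be_cell {g : GK} (hG : GFacts g) (t : ℝ) (a b : ℤ) (h0 : g.be t 0 = (a + 1 / 2) / 48)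
    (h1 : g.be t 1 = (b + 1 / 2) / 48) : False := by
  rcases be_int hG t with ⟨m, hm⟩ | ⟨m, hm⟩
  · have := half_int a m
    rw [← hm, h0] at this
    norm_num at this
    have h2 : (48 : ℝ) * ((a + 1 / 2) / 48) - (a + 1 / 2) = 0 := by ring
    rw [h2, abs_zero] at this
    linarith
  · have := half_int b m
    rw [← hm, h1] at this
    have h2 : (48 : ℝ) * ((b + 1 / 2) / 48) - (b + 1 / 2) = 0 := by ring
    rw [h2, abs_zero] at this
    linarith

theorem Qk_tube {g : GK} {ε δ : ℝ} (hT : TubeF g ε) (hδ : 0 < δ) (hδε : δ ≤ ε) (c t : ℝ) :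
    Tb ε (Qk g δ c t) := by
  unfold Tb Qk
  set τ := δ⁻¹ * (t - c) with hτ
  have h1 : v3 c 0 0 + δ • g.be τ - v3 ((v3 c 0 0 + δ • g.be τ) 0) 0 0 =
      δ • (g.be τ - v3 (g.be τ 0) 0 0) := by
    apply ext3 <;> simp
  rw [h1, norm_smul, Real.norm_of_nonneg hδ.le]
  have hε := hT.pos
  rcases le_total |τ| (1 / 6) with h | h
  · have h2 := hT.be_nm τ (by linarith)
    have h3 : ‖g.be τ - v3 (g.be τ 0) 0 0‖ ≤ ‖g.be τ‖ := by
      have : ‖g.be τ - v3 (g.be τ 0) 0 0‖ ^ 2 ≤ ‖g.be τ‖ ^ 2 := by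
        rw [normsq3, normsq3]
        simp only [sub_app, v3_0, v3_1, v3_2]
        nlinarith [sq_nonneg (g.be τ 0)]
      exact abs_le_of_sq_le_sq' this (norm_nonneg _) |>.2
    calc δ * ‖g.be τ - v3 (g.be τ 0) 0 0‖ ≤ δ * (11 / 50) := by
          gcongr
          exact h3.trans h2
      _ < ε := by linarith
  · rw [hT.be_std τ h]
    simp [hε]

theorem Qk_1 {g : GK} {δ : ℝ} (hG : GFacts g) (hδ : 0 < δ) (c t : ℝ) :
    (Qk g δ c t) 1 ≤ δ / 8 := by
  have := (be1_le hG (δ⁻¹ * (t - c))).2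
  simp only [Qk, add_app, v3_1, smul_app, zero_add]
  nlinarith

/-! ### the composite knot -/

/-- the composite knot with the small knot at `c` -/
def KN (gi gj gk : GK) (cj ck δ c : ℝ) : Set (Eu 3) :=
  Set.range (fun t => T1 gk ck (T1 gj cj (Qk gi δ c t)))

section geo

variable {gi gj gk : GK} {ε cj ck δ : ℝ} (hi : TubeF gi ε) (hj : TubeF gj ε) (hk : TubeF gk ε)
  (hδ : 0 < δ) (hδε : δ ≤ ε) (hjk : 2 / 3 ≤ |cj - ck|)

include hi hj hk hδ hδε hjk

theorem far_k {x : Eu 3} (hx : Tb ε x) (h : 1 / 4 ≤ |x 0 - ck|) :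
    1 / 5 < |(T1 gj cj x) 0 - ck| := by
  rcases le_total (1 / 6) |x 0 - cj| with h1 | h1
  · rw [T1_out hj h1]
    linarith
  · have h2 := T1_near hj h1 hx
    have h3 : |cj - ck| ≤ |(T1 gj cj x) 0 - ck| + |(T1 gj cj x) 0 - cj| := by
      rw [abs_sub_comm ((T1 gj cj x) 0) cj]
      have := abs_add_le ((T1 gj cj x) 0 - ck) (cj - (T1 gj cj x) 0)
      have e : (T1 gj cj x) 0 - ck + (cj - (T1 gj cj x) 0) = cj - ck := by ring
      rwa [e] at this
    linarith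

theorem avoid (c : ℝ) {x : Eu 3} (hx : Tb ε x) (h : 1 / 4 ≤ |x 0 - ck|)
    (hn : ∀ t, Qk gi δ c t ≠ x) : T1 gj cj x ∉ KN gi gj gk cj ck δ c := by
  rintro ⟨t, ht⟩
  simp only at ht
  have hq := Qk_tube hi hδ hδε c t
  have h1 := far_k hi hj hk hδ hδε hjk hx h
  have h2 : T1 gk ck (T1 gj cj x) = T1 gj cj x := T1_out hk (by linarith)
  rw [← h2] at ht
  have h3 := T1_inj hk (x := T1 gj cj (Qk gi δ c t)) (y := T1 gj cj x) (fun hh => by
    rcases le_total (1 / 6) |(Qk gi δ c t) 0 - cj| with h4 | h4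
    · rw [T1_out hj h4]
      exact hq
    · exfalso
      have h5 := T1_near hj h4 hq
      have h6 : |cj - ck| ≤ |(T1 gj cj (Qk gi δ c t)) 0 - ck| +
          |(T1 gj cj (Qk gi δ c t)) 0 - cj| := by
        rw [abs_sub_comm ((T1 gj cj (Qk gi δ c t)) 0) cj]
        have := abs_add_le ((T1 gj cj (Qk gi δ c t)) 0 - ck) (cj - (T1 gj cj (Qk gi δ c t)) 0)
        have e : (T1 gj cj (Qk gi δ c t)) 0 - ck + (cj - (T1 gj cj (Qk gi δ c t)) 0) = cj - ck := by
          ring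
        rwa [e] at this
      linarith) (fun hh => by exfalso; linarith) ht
  exact hn t (T1_inj hj (fun _ => hq) (fun _ => hx) h3)

theorem outside (c : ℝ) {p : Eu 3} (hp : p ∈ KN gi gj gk cj ck δ c) (h1 : 1 / 5 ≤ |p 0 - cj|)
    (h2 : 1 / 5 ≤ |p 0 - ck|) : ∃ t, Qk gi δ c t = p := by
  obtain ⟨t, ht⟩ := hp
  simp only at ht
  have hq := Qk_tube hi hδ hδε c t
  have tri : ∀ u : ℝ, |cj - ck| ≤ |u - ck| + |u - cj| := by
    intro u
    rw [abs_sub_comm u cj]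
    have := abs_add_le (u - ck) (cj - u)
    have e : u - ck + (cj - u) = cj - ck := by ring
    rwa [e] at this
  rcases le_total |(Qk gi δ c t) 0 - cj| (1 / 6) with h3 | h3
  · exfalso
    have h4 := T1_near hj h3 hq
    have h5 := tri ((T1 gj cj (Qk gi δ c t)) 0)
    rw [T1_out hk (by linarith)] at ht
    rw [ht] at h4
    linarith
  · rw [T1_out hj h3] at ht
    rcases le_total |(Qk gi δ c t) 0 - ck| (1 / 6) with h4 | h4
    · exfalso
      have h5 := T1_near hk h4 hq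
      rw [ht] at h5
      linarith
    · rw [T1_out hk h4] at ht
      exact ⟨t, ht⟩

end geo

end PassAux


namespace PassAux

section pathalg

variable {𝒦 : Set (Eu 3)}

/-- class of a path in the complement -/
def mkC {a b : Eu 3} (γ : Path a b) (h : ∀ t, γ t ∉ 𝒦) (ha : a ∉ 𝒦) (hb : b ∉ 𝒦) :
    Path.Homotopic.Quotient (⟨a, ha⟩ : Cp 𝒦) ⟨b, hb⟩ :=
  Path.Homotopic.Quotient.mk (inC γ h ha hb)

theorem avoid_trans {P : Eu 3 → Prop} {a b c : Eu 3} {γ : Path a b} {γ' : Path b c}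
    (h : ∀ t, P (γ t)) (h' : ∀ t, P (γ' t)) : ∀ t, P ((γ.trans γ') t) := by
  intro t
  rw [Path.trans_apply]
  split_ifs
  · exact h _
  · exact h' _

theorem avoid_symm {P : Eu 3 → Prop} {a b : Eu 3} {γ : Path a b}
    (h : ∀ t, P (γ t)) : ∀ t, P (γ.symm t) := fun _ => h _

theorem mkC_trans {a b c : Eu 3} (γ : Path a b) (γ' : Path b c) (h : ∀ t, γ t ∉ 𝒦)
    (h' : ∀ t, γ' t ∉ 𝒦) (hh : ∀ t, (γ.trans γ') t ∉ 𝒦) (ha : a ∉ 𝒦) (hb : b ∉ 𝒦)
    (hc : c ∉ 𝒦) :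
    mkC (γ.trans γ') hh ha hc = (mkC γ h ha hb).trans (mkC γ' h' hb hc) := by
  unfold mkC
  rw [← Path.Homotopic.Quotient.mk_trans]
  congr 1
  apply Path.ext
  funext t
  apply Subtype.ext
  rw [Path.trans_apply]
  change (γ.trans γ') t = _
  rw [Path.trans_apply]
  split_ifs <;> rfl

theorem mkC_symm {a b : Eu 3} (γ : Path a b) (h : ∀ t, γ t ∉ 𝒦)
    (h' : ∀ t, γ.symm t ∉ 𝒦) (ha : a ∉ 𝒦) (hb : b ∉ 𝒦) :
    mkC γ.symm h' hb ha = (mkC γ h ha hb).symm := by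
  unfold mkC
  rw [← Path.Homotopic.Quotient.mk_symm]
  congr 1

/-- concatenation of images of paths in a convex set -/
theorem cat {J : Set ℝ} (hJ : Convex ℝ J) (Φ : ℝ → Eu 3) (hΦ : Continuous Φ)
    (hav : ∀ u ∈ J, Φ u ∉ 𝒦) {a b c : ℝ} (φ1 : Path a b) (φ2 : Path b c) (φ3 : Path a c)
    (h1 : ∀ t, φ1 t ∈ J) (h2 : ∀ t, φ2 t ∈ J) (h3 : ∀ t, φ3 t ∈ J) {p q r : Eu 3}
    (γ1 : Path p q) (γ2 : Path q r) (γ3 : Path p r) (e1 : ∀ t, γ1 t = Φ (φ1 t))
    (e2 : ∀ t, γ2 t = Φ (φ2 t)) (e3 : ∀ t, γ3 t = Φ (φ3 t)) (k1 : ∀ t, γ1 t ∉ 𝒦)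
    (k2 : ∀ t, γ2 t ∉ 𝒦) (k3 : ∀ t, γ3 t ∉ 𝒦) (hp : p ∉ 𝒦) (hq : q ∉ 𝒦) (hr : r ∉ 𝒦) :
    (mkC γ1 k1 hp hq).trans (mkC γ2 k2 hq hr) = mkC γ3 k3 hp hr := by
  obtain rfl : p = Φ a := by
    have := e1 0
    rwa [γ1.source, φ1.source] at this
  obtain rfl : q = Φ b := by
    have := e1 1
    rwa [γ1.target, φ1.target] at this
  obtain rfl : r = Φ c := by
    have := e2 1
    rwa [γ2.target, φ2.target] at this
  have haJ : a ∈ J := by have := h1 0; rwa [φ1.source] at this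
  have hbJ : b ∈ J := by have := h1 1; rwa [φ1.target] at this
  have hcJ : c ∈ J := by have := h2 1; rwa [φ2.target] at this
  have : ContractibleSpace J := hJ.contractibleSpace ⟨a, haJ⟩
  let ι : C(J, Cp 𝒦) := ⟨fun x => ⟨Φ x.1, hav x.1 x.2⟩, by fun_prop⟩
  let lift : ∀ {x y : ℝ} (hx : x ∈ J) (hy : y ∈ J) (φ : Path x y), (∀ t, φ t ∈ J) →
      Path (⟨x, hx⟩ : J) ⟨y, hy⟩ := fun hx hy φ hφ =>
    { toFun := fun t => ⟨φ t, hφ t⟩
      continuous_toFun := by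
        refine Continuous.subtype_mk ?_ _
        exact φ.continuous
      source' := Subtype.ext φ.source
      target' := Subtype.ext φ.target }
  have key : ((lift haJ hbJ φ1 h1).trans (lift hbJ hcJ φ2 h2)).Homotopic (lift haJ hcJ φ3 h3) :=
    SimplyConnectedSpace.paths_homotopic _ _
  have key2 := key.map ι
  rw [Path.map_trans] at key2
  unfold mkC
  rw [← Path.Homotopic.Quotient.mk_trans, Path.Homotopic.Quotient.eq]
  have E1 : inC γ1 k1 hp hq = (lift haJ hbJ φ1 h1).map ι.continuous :=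
    Path.ext (funext fun t => Subtype.ext (e1 t))
  have E2 : inC γ2 k2 hq hr = (lift hbJ hcJ φ2 h2).map ι.continuous :=
    Path.ext (funext fun t => Subtype.ext (e2 t))
  have E3 : inC γ3 k3 hp hr = (lift haJ hcJ φ3 h3).map ι.continuous :=
    Path.ext (funext fun t => Subtype.ext (e3 t))
  rw [E1, E2, E3]
  exact key2

end pathalg

/-- straight path in the line -/
def ls (a b : ℝ) : Path a b where
  toFun t := (1 - (t : ℝ)) * a + (t : ℝ) * b
  continuous_toFun := by fun_prop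
  source' := by simp
  target' := by simp

theorem ls_mem {a b : ℝ} {J : Set ℝ} (hJ : Convex ℝ J) (ha : a ∈ J) (hb : b ∈ J) (t : I) :
    ls a b t ∈ J := by
  have := hJ ha hb (a := 1 - (t : ℝ)) (b := (t : ℝ)) (by linarith [t.2.2]) t.2.1 (by ring)
  simpa [ls] using this

theorem ls_Icc {a b u v : ℝ} (ha : u ≤ a ∧ a ≤ v) (hb : u ≤ b ∧ b ≤ v) (t : I) :
    u ≤ ls a b t ∧ ls a b t ≤ v :=
  ls_mem (convex_Icc u v) ha hb t

/-- coordinates of a straight path -/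
theorem sg_app (a b : Eu 3) (t : I) (i : Fin 3) :
    sg a b t i = (1 - (t : ℝ)) * a i + (t : ℝ) * b i := rfl

theorem sg_ls (a b : Eu 3) (t : I) (i : Fin 3) : sg a b t i = ls (a i) (b i) t := rfl

end PassAux


namespace PassAux

/-! ### local points -/

/-- nothing of the grid knot at or below `z` -/
def LB (g : GK) (z : Eu 3) : Prop := ∀ w, w ≤ z 2 → v3 (z 0) (z 1) w ∉ Set.range g.be

/-- nothing of the grid knot at or above `z` -/
def LT (g : GK) (z : Eu 3) : Prop := ∀ w, z 2 ≤ w → v3 (z 0) (z 1) w ∉ Set.range g.be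

/-- bounds -/
def Bd (z : Eu 3) : Prop := |z 0| ≤ 1 / 5 ∧ |z 1| ≤ 1 / 2 ∧ |z 2| ≤ 1 / 2

theorem lb_high {g : GK} (hG : GFacts g) {z : Eu 3} (h : 1 / 8 < z 1) : LB g z ∧ LT g z := by
  have key : ∀ w, v3 (z 0) (z 1) w ∉ Set.range g.be := by
    rintro w ⟨t, ht⟩
    have h1 := (be1_le hG t).2
    rw [ht, v3_1] at h1
    linarith
  exact ⟨fun w _ => key w, fun w _ => key w⟩

theorem lb_low {g : GK} (hG : GFacts g) {z : Eu 3} (h : z 2 < -(1 / 48)) : LB g z := by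
  rintro w hw ⟨t, ht⟩
  have h1 := be2_le hG t
  rw [ht, v3_2, abs_le] at h1
  linarith [h1.1]

theorem lt_up {g : GK} (hG : GFacts g) {z : Eu 3} (h : 1 / 48 < z 2) : LT g z := by
  rintro w hw ⟨t, ht⟩
  have h1 := be2_le hG t
  rw [ht, v3_2, abs_le] at h1
  linarith [h1.2]

theorem lb_cell {g : GK} (hG : GFacts g) {z : Eu 3} (a b : ℤ) (h0 : z 0 = (a + 1 / 2) / 48)
    (h1 : z 1 = (b + 1 / 2) / 48) : LB g z ∧ LT g z := by
  have key : ∀ w, v3 (z 0) (z 1) w ∉ Set.range g.be := by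
    rintro w ⟨t, ht⟩
    apply be_cell hG t a b
    · rw [ht, v3_0, h0]
    · rw [ht, v3_1, h1]
  exact ⟨fun w _ => key w, fun w _ => key w⟩

/-- the lower part of the local loop -/
def locB (x y : ℝ) : Path (v3 0 (1 / 2) 0) (v3 x y 0) :=
  (sg (v3 0 (1 / 2) 0) (v3 0 (1 / 2) (-(1 / 2)))).trans
    ((sg (v3 0 (1 / 2) (-(1 / 2))) (v3 x y (-(1 / 2)))).trans (sg (v3 x y (-(1 / 2))) (v3 x y 0)))

/-- the upper part of the local loop -/
def locT (x y : ℝ) : Path (v3 x y 0) (v3 0 (1 / 2) 0) :=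
  (sg (v3 x y 0) (v3 x y (1 / 2))).trans
    ((sg (v3 x y (1 / 2)) (v3 0 (1 / 2) (1 / 2))).trans (sg (v3 0 (1 / 2) (1 / 2)) (v3 0 (1 / 2) 0)))

theorem cv {u v m M : ℝ} (t : I) (hu : m ≤ u ∧ u ≤ M) (hv : m ≤ v ∧ v ≤ M) :
    m ≤ (1 - (t : ℝ)) * u + t * v ∧ (1 - (t : ℝ)) * u + t * v ≤ M := by
  have h0 := t.2.1
  have h1 := t.2.2
  constructor <;> nlinarith [hu.1, hu.2, hv.1, hv.2]

theorem locB_ok {g : GK} (hG : GFacts g) (a b : ℤ) (ha : -1 ≤ a) (ha' : a ≤ 7) (hb : -1 ≤ b)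
    (hb' : b ≤ 7) (t : I) : LB g (locB ((a + 1 / 2) / 48) ((b + 1 / 2) / 48) t) ∧
      Bd (locB ((a + 1 / 2) / 48) ((b + 1 / 2) / 48) t) := by
  have e1 : (-1 : ℝ) ≤ a := by exact_mod_cast ha
  have e2 : (a : ℝ) ≤ 7 := by exact_mod_cast ha'
  have e3 : (-1 : ℝ) ≤ b := by exact_mod_cast hb
  have e4 : (b : ℝ) ≤ 7 := by exact_mod_cast hb'
  revert t
  unfold locB
  apply avoid_trans (P := fun z => LB g z ∧ Bd z)
  · intro t
    refine ⟨(lb_high hG ?_).1, ?_, ?_, ?_⟩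
    · simp only [sg_app, v3_1]; linarith
    · simp only [sg_app, v3_0]; norm_num
    · simp only [sg_app, v3_1]; rw [abs_le]; constructor <;> linarith
    · simp only [sg_app, v3_2]; rw [abs_le]
      exact cv t (by norm_num) (by norm_num)
  · apply avoid_trans (P := fun z => LB g z ∧ Bd z)
    · intro t
      refine ⟨lb_low hG ?_, ?_, ?_, ?_⟩
      · simp only [sg_app, v3_2]; linarith
      · simp only [sg_app, v3_0]; rw [abs_le]
        exact cv t (by norm_num) ⟨by linarith, by linarith⟩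
      · simp only [sg_app, v3_1]; rw [abs_le]
        exact cv t (by norm_num) ⟨by linarith, by linarith⟩
      · simp only [sg_app, v3_2]; rw [abs_le]; constructor <;> linarith
    · intro t
      refine ⟨(lb_cell hG a b ?_ ?_).1, ?_, ?_, ?_⟩
      · simp only [sg_app, v3_0]; ring
      · simp only [sg_app, v3_1]; ring
      · simp only [sg_app, v3_0]; rw [abs_le]
        exact cv t ⟨by linarith, by linarith⟩ ⟨by linarith, by linarith⟩
      · simp only [sg_app, v3_1]; rw [abs_le]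
        exact cv t ⟨by linarith, by linarith⟩ ⟨by linarith, by linarith⟩
      · simp only [sg_app, v3_2]; rw [abs_le]
        exact cv t (by norm_num) (by norm_num)

theorem locT_ok {g : GK} (hG : GFacts g) (a b : ℤ) (ha : -1 ≤ a) (ha' : a ≤ 7) (hb : -1 ≤ b)
    (hb' : b ≤ 7) (t : I) : LT g (locT ((a + 1 / 2) / 48) ((b + 1 / 2) / 48) t) ∧
      Bd (locT ((a + 1 / 2) / 48) ((b + 1 / 2) / 48) t) := by
  have e1 : (-1 : ℝ) ≤ a := by exact_mod_cast ha
  have e2 : (a : ℝ) ≤ 7 := by exact_mod_cast ha'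
  have e3 : (-1 : ℝ) ≤ b := by exact_mod_cast hb
  have e4 : (b : ℝ) ≤ 7 := by exact_mod_cast hb'
  revert t
  unfold locT
  apply avoid_trans (P := fun z => LT g z ∧ Bd z)
  · intro t
    refine ⟨(lb_cell hG a b ?_ ?_).2, ?_, ?_, ?_⟩
    · simp only [sg_app, v3_0]; ring
    · simp only [sg_app, v3_1]; ring
    · simp only [sg_app, v3_0]; rw [abs_le]
      exact cv t ⟨by linarith, by linarith⟩ ⟨by linarith, by linarith⟩
    · simp only [sg_app, v3_1]; rw [abs_le]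
      exact cv t ⟨by linarith, by linarith⟩ ⟨by linarith, by linarith⟩
    · simp only [sg_app, v3_2]; rw [abs_le]
      exact cv t (by norm_num) (by norm_num)
  · apply avoid_trans (P := fun z => LT g z ∧ Bd z)
    · intro t
      refine ⟨lt_up hG ?_, ?_, ?_, ?_⟩
      · simp only [sg_app, v3_2]; linarith
      · simp only [sg_app, v3_0]; rw [abs_le]
        exact cv t ⟨by linarith, by linarith⟩ (by norm_num)
      · simp only [sg_app, v3_1]; rw [abs_le]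
        exact cv t ⟨by linarith, by linarith⟩ (by norm_num)
      · simp only [sg_app, v3_2]; rw [abs_le]; constructor <;> linarith
    · intro t
      refine ⟨(lb_high hG ?_).2, ?_, ?_, ?_⟩
      · simp only [sg_app, v3_1]; linarith
      · simp only [sg_app, v3_0]; norm_num
      · simp only [sg_app, v3_1]; rw [abs_le]; constructor <;> linarith
      · simp only [sg_app, v3_2]; rw [abs_le]
        exact cv t (by norm_num) (by norm_num)

theorem LB.notin {g : GK} {z : Eu 3} (h : LB g z) : z ∉ Set.range g.be := by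
  have := h (z 2) le_rfl
  rwa [v3_eta] at this

theorem LT.notin {g : GK} {z : Eu 3} (h : LT g z) : z ∉ Set.range g.be := by
  have := h (z 2) le_rfl
  rwa [v3_eta] at this

/-! ### the maps -/

/-- local coordinates at the small knot -/
def Psi (g : GK) (cj δ c : ℝ) (z : Eu 3) : Eu 3 := T1 g cj (v3 c 0 0 + δ • z)

theorem Psi_cont {g : GK} {ε : ℝ} (hT : TubeF g ε) (cj δ c : ℝ) : Continuous (Psi g cj δ c) := by
  unfold Psi
  have := T1_cont hT cj
  fun_prop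

/-- the first part of the access path -/
def A1 (c0 δ : ℝ) : Path bb (v3 c0 (δ / 2) 0) :=
  (sg bb (v3 c0 3 0)).trans (sg (v3 c0 3 0) (v3 c0 (δ / 2) 0))

theorem half_pt (c δ : ℝ) : v3 c 0 0 + δ • v3 0 (1 / 2) 0 = v3 c (δ / 2) 0 := by
  apply ext3
  · simp
  · simp only [add_app, smul_app, v3_1]; ring
  · simp

/-- the second part of the access path -/
def PP {g : GK} {ε : ℝ} (hT : TubeF g ε) {cj δ c0 : ℝ} (h0 : 1 / 6 ≤ |c0 - cj|) (c : ℝ) :
    Path (v3 c0 (δ / 2) 0) (Psi g cj δ c (v3 0 (1 / 2) 0)) where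
  toFun t := T1 g cj (v3 (ls c0 c t) (δ / 2) 0)
  continuous_toFun := by
    have h1 := T1_cont hT cj
    have h2 : Continuous fun t : I => v3 (ls c0 c t) (δ / 2) 0 := by
      unfold v3
      fun_prop
    exact h1.comp h2
  source' := by
    rw [(ls c0 c).source, T1_out hT (by simpa using h0)]
  target' := by
    rw [(ls c0 c).target, Psi, half_pt]

/-- the loop -/
def LL {g : GK} {ε : ℝ} (hT : TubeF g ε) {cj δ c0 : ℝ} (h0 : 1 / 6 ≤ |c0 - cj|) (x y c : ℝ) :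
    Path bb bb :=
  (((A1 c0 δ).trans (PP hT h0 c)).trans (((locB x y).map (Psi_cont hT cj δ c)).trans
    ((locT x y).map (Psi_cont hT cj δ c)))).trans ((A1 c0 δ).trans (PP hT h0 c)).symm

theorem LL_cont {g : GK} {ε : ℝ} (hT : TubeF g ε) {cj δ c0 : ℝ} (h0 : 1 / 6 ≤ |c0 - cj|)
    (x y : ℝ) (c : I → ℝ) (hc : Continuous c) :
    Continuous (fun p : I × I => LL (δ := δ) hT h0 x y (c p.1) p.2) := by
  have hT1 := T1_cont hT cj
  have h1 : Continuous ↿(fun _ : I => A1 c0 δ) := by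
    change Continuous (fun p : I × I => A1 c0 δ p.2)
    fun_prop
  have h2 : Continuous ↿(fun s : I => PP (δ := δ) hT h0 (c s)) := by
    change Continuous (fun p : I × I => T1 g cj (v3 (ls c0 (c p.1) p.2) (δ / 2) 0))
    apply hT1.comp
    unfold v3 ls
    simp only [Path.coe_mk_mk]
    fun_prop
  have h3 : Continuous ↿(fun s : I => (locB x y).map (Psi_cont hT cj δ (c s))) := by
    change Continuous (fun p : I × I => T1 g cj (v3 (c p.1) 0 0 + δ • locB x y p.2))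
    apply hT1.comp
    unfold v3
    fun_prop
  have h4 : Continuous ↿(fun s : I => (locT x y).map (Psi_cont hT cj δ (c s))) := by
    change Continuous (fun p : I × I => T1 g cj (v3 (c p.1) 0 0 + δ • locT x y p.2))
    apply hT1.comp
    unfold v3
    fun_prop
  have h5 := Path.trans_continuous_family _ h1 _ h2
  have h6 := Path.trans_continuous_family _ h3 _ h4
  have h7 := Path.trans_continuous_family _ h5 _ h6
  exact Path.trans_continuous_family _ h7 _ (Path.symm_continuous_family _ h5)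

end PassAux


namespace PassAux

section av

variable {gi gj gk : GK} {ε cj ck δ : ℝ} (hi : TubeF gi ε) (hj : TubeF gj ε) (hk : TubeF gk ε)
  (hGi : GFacts gi) (hδ : 0 < δ) (hδε : δ ≤ ε) (hjk : 2 / 3 ≤ |cj - ck|)
  (hck : ∀ u, cj - 2 / 3 ≤ u → u ≤ cj + 1 / 4 → 5 / 12 ≤ |u - ck|)

include hi hj hk hGi hδ hδε hjk hck

theorem av_half (c u : ℝ) (h1 : cj - 2 / 3 ≤ u) (h2 : u ≤ cj + 1 / 4) :
    T1 gj cj (v3 u (δ / 2) 0) ∉ KN gi gj gk cj ck δ c := by
  apply avoid hi hj hk hδ hδε hjk c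
  · unfold Tb
    have e : v3 u (δ / 2) 0 - v3 ((v3 u (δ / 2) 0) 0) 0 0 = v3 0 (δ / 2) 0 := by
      apply ext3 <;> simp
    rw [e]
    have e2 : ‖v3 0 (δ / 2) 0‖ ^ 2 = (δ / 2) ^ 2 := by
      rw [normsq3]; simp
    have e3 : ‖v3 0 (δ / 2) 0‖ = δ / 2 :=
      (sq_eq_sq₀ (norm_nonneg _) (by positivity)).1 e2
    rw [e3]
    linarith
  · rw [v3_0]
    have := hck u h1 h2
    linarith
  · intro t ht
    have := Qk_1 hGi hδ c t
    rw [ht, v3_1] at this
    linarith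

theorem av_Psi (c : ℝ) (h1 : cj - 2 / 3 ≤ c) (h2 : c ≤ cj + 1 / 4) {z : Eu 3} (hz : Bd z)
    (hzn : z ∉ Set.range gi.be) : Psi gj cj δ c z ∉ KN gi gj gk cj ck δ c := by
  have hε := hi.le
  obtain ⟨z0, z1, z2⟩ := hz
  apply avoid hi hj hk hδ hδε hjk c
  · unfold Tb
    have e : v3 c 0 0 + δ • z - v3 ((v3 c 0 0 + δ • z) 0) 0 0 = δ • v3 0 (z 1) (z 2) := by
      apply ext3 <;> simp
    rw [e, norm_smul, Real.norm_of_nonneg hδ.le]
    have e2 : ‖v3 0 (z 1) (z 2)‖ ^ 2 = (z 1) ^ 2 + (z 2) ^ 2 := by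
      rw [normsq3]; simp
    have e3 : ‖v3 0 (z 1) (z 2)‖ < 1 := by
      have e4 : (z 1) ^ 2 ≤ (1 / 2) ^ 2 := by
        rw [← sq_abs (z 1)]
        exact pow_le_pow_left₀ (abs_nonneg _) z1 2
      have e5 : (z 2) ^ 2 ≤ (1 / 2) ^ 2 := by
        rw [← sq_abs (z 2)]
        exact pow_le_pow_left₀ (abs_nonneg _) z2 2
      by_contra hcon
      push Not at hcon
      nlinarith [norm_nonneg (v3 0 (z 1) (z 2))]
    calc δ * ‖v3 0 (z 1) (z 2)‖ < δ * 1 := by gcongr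
      _ ≤ ε := by linarith
  · have e1 : (v3 c 0 0 + δ • z) 0 - ck = (c - ck) + δ * z 0 := by simp; ring
    rw [e1]
    have e2 := hck c h1 h2
    have e3 : |δ * z 0| ≤ 1 / 500 := by
      rw [abs_mul, abs_of_pos hδ]
      calc δ * |z 0| ≤ (1 / 100) * (1 / 5) := by gcongr; linarith
        _ = 1 / 500 := by norm_num
    have e4 : |c - ck| ≤ |(c - ck) + δ * z 0| + |δ * z 0| := by
      have := abs_sub ((c - ck) + δ * z 0) (δ * z 0)
      simpa using this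
    linarith
  · intro t ht
    apply hzn
    refine ⟨δ⁻¹ * (t - c), ?_⟩
    unfold Qk at ht
    have e1 := add_left_cancel ht
    have e2 := congrArg (fun v => δ⁻¹ • v) e1
    simp only [smul_smul, inv_mul_cancel₀ hδ.ne', one_smul] at e2
    exact e2

theorem av_Y (c u y w : ℝ) (h1 : 1 / 5 ≤ |u - cj|) (h2 : 1 / 5 ≤ |u - ck|) (hy : δ / 8 < y) :
    v3 u y w ∉ KN gi gj gk cj ck δ c := by
  intro hm
  obtain ⟨t, ht⟩ := outside hi hj hk hδ hδε hjk c hm (by simpa using h1) (by simpa using h2)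
  have := Qk_1 hGi hδ c t
  rw [ht, v3_1] at this
  linarith

/-- nothing of the knot over `p` -/
def Fz (F : LongKnot 3) (p : Eu 3) : Prop := ∀ w, v3 (p 0) (p 1) w ∉ Set.range F.toFun

omit hi hj hk hGi hδ hδε hjk hck in
theorem Fz.top {F : LongKnot 3} {p : Eu 3} (h : Fz F p) : KTop F p := fun w _ => h w

omit hi hj hk hGi hδ hδε hjk hck in
theorem Fz.bot {F : LongKnot 3} {p : Eu 3} (h : Fz F p) : KBot F p := fun w _ => h w

omit hi hj hk hGi hδ hδε hjk hck in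
theorem free3 (F : LongKnot 3) {p : Eu 3} (h : p 1 = 3) : Fz F p := by
  rintro w ⟨t, ht⟩
  rw [h] at ht
  rcases le_total 1 |t| with h1 | h1
  · rw [F.standard t h1, axis_eq] at ht
    have := congrArg (fun v : Eu 3 => v 1) ht
    simp only [v3_1] at this
    norm_num at this
  · have h2 := F.ball t h1
    rw [ht, mem_closedBall_zero_iff] at h2
    have h3 : ‖v3 (p 0) 3 w‖ ^ 2 = (p 0) ^ 2 + 9 + w ^ 2 := by
      rw [normsq3]; simp; norm_num
    nlinarith [norm_nonneg (v3 (p 0) 3 w), sq_nonneg (p 0), sq_nonneg w]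

theorem A1_free {F : LongKnot 3} {c : ℝ} (hF : Set.range F.toFun = KN gi gj gk cj ck δ c)
    (c0 : ℝ) (h1 : 1 / 5 ≤ |c0 - cj|) (h2 : 1 / 5 ≤ |c0 - ck|) (hδ1 : δ ≤ 3) (t : I) :
    Fz F (A1 c0 δ t) := by
  revert t
  unfold A1
  apply avoid_trans (P := Fz F)
  · intro t
    apply free3
    rw [sg_app]
    simp only [bb, v3_1]
    ring
  · intro t w
    rw [hF]
    have e0 : sg (v3 c0 3 0) (v3 c0 (δ / 2) 0) t 0 = c0 := by
      simp only [sg_app, v3_0]; ring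
    rw [e0]
    apply av_Y hi hj hk hGi hδ hδε hjk hck c c0 _ w h1 h2
    simp only [sg_app, v3_1]
    have := (cv (u := 3) (v := δ / 2) (m := δ / 2) (M := 3) t ⟨by linarith, le_rfl⟩
      ⟨le_rfl, by linarith⟩).1
    linarith

theorem half_free {F : LongKnot 3} {c : ℝ} (hF : Set.range F.toFun = KN gi gj gk cj ck δ c)
    (u : ℝ) (h1 : 1 / 5 ≤ |u - cj|) (h2 : 1 / 5 ≤ |u - ck|) :
    Fz F (T1 gj cj (v3 u (δ / 2) 0)) := by
  intro w
  rw [T1_out hj (by rw [v3_0]; linarith), hF, v3_0, v3_1]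
  exact av_Y hi hj hk hGi hδ hδε hjk hck c u _ w h1 h2 (by linarith)

theorem Psi_id (c : ℝ) (h3 : 1 / 4 ≤ |c - cj|) {z : Eu 3} (hz : Bd z) :
    Psi gj cj δ c z = v3 c 0 0 + δ • z := by
  have hε := hi.le
  unfold Psi
  apply T1_out hj
  have e1 : (v3 c 0 0 + δ • z) 0 - cj = (c - cj) + δ * z 0 := by simp; ring
  rw [e1]
  have e3 : |δ * z 0| ≤ 1 / 500 := by
    rw [abs_mul, abs_of_pos hδ]
    calc δ * |z 0| ≤ (1 / 100) * (1 / 5) := by gcongr; linarith; exact hz.1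
      _ = 1 / 500 := by norm_num
  have e4 : |c - cj| ≤ |(c - cj) + δ * z 0| + |δ * z 0| := by
    have := abs_sub ((c - cj) + δ * z 0) (δ * z 0)
    simpa using this
  linarith

theorem over_loc {c : ℝ} (h1 : cj - 2 / 3 ≤ c) (h2 : c ≤ cj + 1 / 4) (h3 : 1 / 4 ≤ |c - cj|)
    {z : Eu 3} (hz : Bd z) {w : ℝ} (hw : v3 (Psi gj cj δ c z 0) (Psi gj cj δ c z 1) w ∈
      KN gi gj gk cj ck δ c) : v3 (z 0) (z 1) (δ⁻¹ * w) ∈ Set.range gi.be := by
  have hε := hi.le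
  rw [Psi_id hi hj hk hGi hδ hδε hjk hck c h3 hz] at hw
  have e3 : |δ * z 0| ≤ 1 / 500 := by
    rw [abs_mul, abs_of_pos hδ]
    calc δ * |z 0| ≤ (1 / 100) * (1 / 5) := by gcongr; linarith; exact hz.1
      _ = 1 / 500 := by norm_num
  have e0 : (v3 c 0 0 + δ • z) 0 = c + δ * z 0 := by simp
  have e1 : (v3 c 0 0 + δ • z) 1 = δ * z 1 := by simp
  rw [e0, e1] at hw
  have g1 : 1 / 5 ≤ |c + δ * z 0 - cj| := by
    have e4 : |c - cj| ≤ |c + δ * z 0 - cj| + |δ * z 0| := by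
      have := abs_sub (c + δ * z 0 - cj) (δ * z 0)
      have e : c + δ * z 0 - cj - δ * z 0 = c - cj := by ring
      rwa [e] at this
    linarith
  have g2 : 1 / 5 ≤ |c + δ * z 0 - ck| := by
    have e4 : |c - ck| ≤ |c + δ * z 0 - ck| + |δ * z 0| := by
      have := abs_sub (c + δ * z 0 - ck) (δ * z 0)
      have e : c + δ * z 0 - ck - δ * z 0 = c - ck := by ring
      rwa [e] at this
    have := hck c h1 h2
    linarith
  obtain ⟨t, ht⟩ := outside hi hj hk hδ hδε hjk c hw (by simpa using g1) (by simpa using g2)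
  refine ⟨δ⁻¹ * (t - c), ?_⟩
  unfold Qk at ht
  have k0 := congrArg (fun v : Eu 3 => v 0) ht
  have k1 := congrArg (fun v : Eu 3 => v 1) ht
  have k2 := congrArg (fun v : Eu 3 => v 2) ht
  simp only [add_app, smul_app, v3_0, v3_1, v3_2, zero_add] at k0 k1 k2
  apply ext3
  · rw [v3_0]
    have : δ * gi.be (δ⁻¹ * (t - c)) 0 = δ * z 0 := by linarith
    exact mul_left_cancel₀ hδ.ne' this
  · rw [v3_1]
    exact mul_left_cancel₀ hδ.ne' k1
  · rw [v3_2, ← k2, ← mul_assoc, inv_mul_cancel₀ hδ.ne', one_mul]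

theorem Psi_bot {F : LongKnot 3} {c : ℝ} (hF : Set.range F.toFun = KN gi gj gk cj ck δ c)
    (h1 : cj - 2 / 3 ≤ c) (h2 : c ≤ cj + 1 / 4) (h3 : 1 / 4 ≤ |c - cj|)
    {z : Eu 3} (hz : Bd z) (hl : LB gi z) : KBot F (Psi gj cj δ c z) := by
  intro w hw hm
  rw [hF] at hm
  apply hl (δ⁻¹ * w) _ (over_loc hi hj hk hGi hδ hδε hjk hck h1 h2 h3 hz hm)
  rw [Psi_id hi hj hk hGi hδ hδε hjk hck c h3 hz] at hw
  simp only [add_app, smul_app, v3_2, zero_add] at hw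
  rw [inv_mul_le_iff₀ hδ]
  exact hw

theorem Psi_top {F : LongKnot 3} {c : ℝ} (hF : Set.range F.toFun = KN gi gj gk cj ck δ c)
    (h1 : cj - 2 / 3 ≤ c) (h2 : c ≤ cj + 1 / 4) (h3 : 1 / 4 ≤ |c - cj|)
    {z : Eu 3} (hz : Bd z) (hl : LT gi z) : KTop F (Psi gj cj δ c z) := by
  intro w hw hm
  rw [hF] at hm
  apply hl (δ⁻¹ * w) _ (over_loc hi hj hk hGi hδ hδε hjk hck h1 h2 h3 hz hm)
  rw [Psi_id hi hj hk hGi hδ hδε hjk hck c h3 hz] at hw
  simp only [add_app, smul_app, v3_2, zero_add] at hw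
  rw [le_inv_mul_iff₀ hδ]
  exact hw

end av

section cls

variable {C : Type} [TopologicalSpace C]

theorem tr_symm {a b c : C} (x : Path.Homotopic.Quotient a b) (z : Path.Homotopic.Quotient b c) :
    (x.trans z).symm = z.symm.trans x.symm := by
  induction x using Path.Homotopic.Quotient.ind with | mk x => ?_
  induction z using Path.Homotopic.Quotient.ind with | mk z => ?_
  rw [← Path.Homotopic.Quotient.mk_trans, ← Path.Homotopic.Quotient.mk_symm, Path.trans_symm,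
    Path.Homotopic.Quotient.mk_trans, Path.Homotopic.Quotient.mk_symm,
    Path.Homotopic.Quotient.mk_symm]

theorem alg1 {b z q : C} (bz tz : Path.Homotopic.Quotient b z) (bq tq : Path.Homotopic.Quotient b q)
    (B : Path.Homotopic.Quotient z q) (T : Path.Homotopic.Quotient q z)
    (h1 : bz.trans B = bq) (h2 : tq.trans T = tz) :
    (bz.trans (B.trans T)).trans tz.symm = bq.trans tq.symm := by
  rw [← h1, ← h2, tr_symm, ← Path.Homotopic.Quotient.trans_assoc,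
    ← Path.Homotopic.Quotient.trans_assoc, Path.Homotopic.Quotient.trans_assoc _ T T.symm,
    Path.Homotopic.Quotient.trans_symm, Path.Homotopic.Quotient.trans_refl]

theorem alg2 {b z : C} (L : Path.Homotopic.Quotient b b) (t : Path.Homotopic.Quotient b z)
    (W : Path.Homotopic.Quotient z z) (x : Path.Homotopic.Quotient b z) (hx : x = L.trans t) :
    (x.trans W).trans x.symm = (L.trans ((t.trans W).trans t.symm)).trans L.symm := by
  subst hx
  rw [tr_symm]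
  simp only [Path.Homotopic.Quotient.trans_assoc]

end cls

end PassAux

section given

variable {g : Fin 3 → GK} {ε : ℝ}

/-! The following are given, proved elsewhere (jobs F6b, M7a, PC). -/

end given

namespace PassAux

theorem thp_1i (i j : Fin 3) (cj ck δ s : ℝ) :
    (thp i j cj ck δ s).1 i = cj - 2 / 3 + s * (11 / 12) := by simp [thp]
theorem thp_1j {i j : Fin 3} (hij : i ≠ j) (cj ck δ s : ℝ) :
    (thp i j cj ck δ s).1 j = cj := by simp [thp, hij.symm]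
theorem thp_1k {i j k : Fin 3} (hik : i ≠ k) (hjk : j ≠ k) (cj ck δ s : ℝ) :
    (thp i j cj ck δ s).1 k = ck := by simp [thp, hik.symm, hjk.symm]
theorem thp_2i (i j : Fin 3) (cj ck δ s : ℝ) : (thp i j cj ck δ s).2 i = δ := by simp [thp]
theorem thp_2 {i l : Fin 3} (hil : i ≠ l) (j : Fin 3) (cj ck δ s : ℝ) :
    (thp i j cj ck δ s).2 l = 1 := by simp [thp, hil.symm]

theorem Mc_eq {g : Fin 3 → GK} {ε : ℝ} (hg : ∀ l, TubeF (g l) ε) {i j k : Fin 3} (hij : i ≠ j)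
    (hik : i ≠ k) (hjk : j ≠ k) (cj ck δ s t : ℝ) :
    Mc g i j k (thp i j cj ck δ s) (v3 t 0 0) =
      T1 (g k) ck (T1 (g j) cj (Qk (g i) δ (cj - 2 / 3 + s * (11 / 12)) t)) := by
  unfold Mc
  rw [thp_1i, thp_1j hij, thp_1k hik hjk, thp_2i, thp_2 hij, thp_2 hik, tub_one, tub_one,
    tub_axis (hg i)]

theorem cover3 : ∀ i j k l : Fin 3, i ≠ j → i ≠ k → j ≠ k → l = i ∨ l = j ∨ l = k := by decide

theorem dis_one {i j k : Fin 3} (hij : i ≠ j) (hik : i ≠ k) (hjk : j ≠ k) {cj ck δ : ℝ}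
    (hδ : 0 < δ) (hδ1 : δ ≤ 1 / 100) (hcc : 2 / 3 ≤ |cj - ck|)
    (hck : 5 / 12 ≤ |cj + 1 / 4 - ck|)
    (hbd : |cj + 1 / 4| ≤ 11 / 12) (hbk : |ck| ≤ 2 / 3) (hbj : |cj| ≤ 2 / 3) :
    Dis (thp i j cj ck δ 1) := by
  have e1 := thp_1i i j cj ck δ 1
  have e2 := thp_1j hij cj ck δ 1
  have e3 := thp_1k hik hjk cj ck δ 1
  have e4 := thp_2i i j cj ck δ 1
  have e5 := thp_2 hij j cj ck δ 1
  have e6 := thp_2 hik j cj ck δ 1
  have e7 : cj - 2 / 3 + 1 * (11 / 12) = cj + 1 / 4 := by ring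
  rw [e7] at e1
  have hij' : 1 / 4 ≤ |cj + 1 / 4 - cj| := by
    rw [show cj + 1 / 4 - cj = 1 / 4 by ring, abs_of_pos (by norm_num)]
  constructor
  · intro l
    rcases cover3 i j k l hij hik hjk with rfl | rfl | rfl
    · rw [e4]; exact hδ
    · rw [e5]; norm_num
    · rw [e6]; norm_num
  · intro l
    rcases cover3 i j k l hij hik hjk with rfl | rfl | rfl
    · rw [e4]; linarith
    · rw [e5]
    · rw [e6]
  · intro l
    rcases cover3 i j k l hij hik hjk with rfl | rfl | rfl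
    · rw [e1, e4]; linarith
    · rw [e2, e5]; linarith
    · rw [e3, e6]; linarith
  · intro l l' hll
    rcases cover3 i j k l hij hik hjk with rfl | rfl | rfl <;>
    rcases cover3 _ _ _ l' hij hik hjk with rfl | rfl | rfl
    · exact absurd rfl hll
    · rw [e1, e2, e4, e5]; linarith
    · rw [e1, e3, e4, e6]; linarith
    · rw [e1, e2, e4, e5, abs_sub_comm]; linarith
    · exact absurd rfl hll
    · rw [e2, e3, e5, e6]; linarith
    · rw [e1, e3, e4, e6, abs_sub_comm]; linarith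
    · rw [e2, e3, e5, e6, abs_sub_comm]; linarith
    · exact absurd rfl hll

section cell

variable {gi gj gk : GK} {ε cj ck δ : ℝ} (hi : TubeF gi ε) (hj : TubeF gj ε) (hk : TubeF gk ε)
  (hGi : GFacts gi) (hδ : 0 < δ) (hδε : δ ≤ ε) (hjk : 2 / 3 ≤ |cj - ck|)
  (hck : ∀ u, cj - 2 / 3 ≤ u → u ≤ cj + 1 / 4 → 5 / 12 ≤ |u - ck|)

include hi hk hGi hδ hδε hjk hck

theorem cell_class {F : LongKnot 3} {tp : ∀ p : Eu 3, ∀ h : KTop F p, Path.Homotopic.Quotient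
        (⟨bb, bb_notin F⟩ : Cp (Set.range F.toFun)) ⟨p, h.nin⟩}
    {bp : ∀ p : Eu 3, ∀ h : KBot F p, Path.Homotopic.Quotient
        (⟨bb, bb_notin F⟩ : Cp (Set.range F.toFun)) ⟨p, h.nin⟩}
    {PL : ∀ _ _ : ℝ, KG F} (hKF : KTB F tp bp PL) {c : ℝ}
    (hF : Set.range F.toFun = KN gi gj gk cj ck δ c)
    (h1 : cj - 2 / 3 ≤ c) (h2 : c ≤ cj + 1 / 4) (h3 : 1 / 4 ≤ |c - cj|) (a b : ℤ)
    (ha : -1 ≤ a) (ha' : a ≤ 7) (hb : -1 ≤ b) (hb' : b ≤ 7)
    (hZt : KTop F (Psi gj cj δ c (v3 0 (1 / 2) 0))) (hZb : KBot F (Psi gj cj δ c (v3 0 (1 / 2) 0)))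
    (kB : ∀ t, ((locB ((a + 1 / 2) / 48) ((b + 1 / 2) / 48)).map (Psi_cont hj cj δ c)) t ∉
      Set.range F.toFun)
    (kT : ∀ t, ((locT ((a + 1 / 2) / 48) ((b + 1 / 2) / 48)).map (Psi_cont hj cj δ c)) t ∉
      Set.range F.toFun)
    (hq : Psi gj cj δ c (v3 ((a + 1 / 2) / 48) ((b + 1 / 2) / 48) 0) ∉ Set.range F.toFun) :
    ((bp _ hZb).trans ((mkC ((locB ((a + 1 / 2) / 48) ((b + 1 / 2) / 48)).map
      (Psi_cont hj cj δ c)) kB hZb.nin hq).trans
      (mkC ((locT ((a + 1 / 2) / 48) ((b + 1 / 2) / 48)).map (Psi_cont hj cj δ c)) kT hq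
        hZt.nin))).trans (tp _ hZt).symm =
      toQ (PL (c + δ * ((a + 1 / 2) / 48)) (δ * ((b + 1 / 2) / 48))) := by
  have hB := locB_ok hGi a b ha ha' hb hb'
  have hT := locT_ok hGi a b ha ha' hb hb'
  have hKB : ∀ t, KBot F (((locB ((a + 1 / 2) / 48) ((b + 1 / 2) / 48)).map
      (Psi_cont hj cj δ c)) t) := fun t =>
    Psi_bot hi hj hk hGi hδ hδε hjk hck hF h1 h2 h3 (hB t).2 (hB t).1
  have hKT : ∀ t, KTop F (((locT ((a + 1 / 2) / 48) ((b + 1 / 2) / 48)).map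
      (Psi_cont hj cj δ c)) t) := fun t =>
    Psi_top hi hj hk hGi hδ hδε hjk hck hF h1 h2 h3 (hT t).2 (hT t).1
  have hqb : KBot F (Psi gj cj δ c (v3 ((a + 1 / 2) / 48) ((b + 1 / 2) / 48) 0)) := by
    have := hKB 1
    rwa [Path.target] at this
  have hqt : KTop F (Psi gj cj δ c (v3 ((a + 1 / 2) / 48) ((b + 1 / 2) / 48) 0)) := by
    have := hKT 0
    rwa [Path.source] at this
  have e1 := hKF.bot hZb hqb ((locB ((a + 1 / 2) / 48) ((b + 1 / 2) / 48)).map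
      (Psi_cont hj cj δ c)) hKB
  have e2 := hKF.top hqt hZt ((locT ((a + 1 / 2) / 48) ((b + 1 / 2) / 48)).map
      (Psi_cont hj cj δ c)) hKT
  have e3 := hKF.pl hqt hqb
  have e4 := alg1 (bp _ hZb) (tp _ hZt) (bp _ hqb) (tp _ hqt) _ _ e1 e2
  refine Eq.trans e4 ?_
  have e5 : Psi gj cj δ c (v3 ((a + 1 / 2) / 48) ((b + 1 / 2) / 48) 0) =
      v3 c 0 0 + δ • v3 ((a + 1 / 2) / 48) ((b + 1 / 2) / 48) 0 := by
    apply Psi_id hi hj hk hGi hδ hδε hjk hck c h3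
    have := (hB 1).2
    rwa [Path.target] at this
  have e6 : c + δ * ((a + 1 / 2) / 48) =
      Psi gj cj δ c (v3 ((a + 1 / 2) / 48) ((b + 1 / 2) / 48) 0) 0 := by
    rw [e5]; simp
  have e7 : δ * ((b + 1 / 2) / 48) =
      Psi gj cj δ c (v3 ((a + 1 / 2) / 48) ((b + 1 / 2) / 48) 0) 1 := by
    rw [e5]; simp
  rw [e6, e7, e3]
  rfl

/-- the access path from outside -/
theorem access {F : LongKnot 3} {tp : ∀ p : Eu 3, ∀ h : KTop F p, Path.Homotopic.Quotient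
        (⟨bb, bb_notin F⟩ : Cp (Set.range F.toFun)) ⟨p, h.nin⟩}
    {bp : ∀ p : Eu 3, ∀ h : KBot F p, Path.Homotopic.Quotient
        (⟨bb, bb_notin F⟩ : Cp (Set.range F.toFun)) ⟨p, h.nin⟩}
    {PL : ∀ _ _ : ℝ, KG F} (hKF : KTB F tp bp PL) {c : ℝ}
    (hF : Set.range F.toFun = KN gi gj gk cj ck δ c)
    (h1 : cj - 2 / 3 ≤ c) (h2 : c ≤ cj + 1 / 4) (h3 : 1 / 4 ≤ |c - cj|) (h0 : 1 / 6 ≤ |c - cj|) :
    ∃ (hZt : KTop F (Psi gj cj δ c (v3 0 (1 / 2) 0)))
      (hZb : KBot F (Psi gj cj δ c (v3 0 (1 / 2) 0)))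
      (hav : ∀ t, ((A1 c δ).trans (PP hj h0 c)) t ∉ Set.range F.toFun),
      mkC ((A1 c δ).trans (PP hj h0 c)) hav (bb_notin F) hZt.nin = tp _ hZt ∧
      mkC ((A1 c δ).trans (PP hj h0 c)) hav (bb_notin F) hZt.nin = bp _ hZb := by
  have hε := hi.le
  have h5 := hck c h1 h2
  have hA : ∀ t, Fz F (((A1 c δ).trans (PP hj h0 c)) t) := by
    apply avoid_trans (P := Fz F)
    · exact A1_free hi hj hk hGi hδ hδε hjk hck hF c (by linarith) (by linarith) (by linarith)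
    · intro t
      change Fz F (T1 gj cj (v3 (ls c c t) (δ / 2) 0))
      have e : ls c c t = c := by simp only [ls, Path.coe_mk_mk]; ring
      rw [e]
      exact half_free hi hj hk hGi hδ hδε hjk hck hF c (by linarith) (by linarith)
  have hZ : Fz F (Psi gj cj δ c (v3 0 (1 / 2) 0)) := by
    have := hA 1
    rwa [Path.target] at this
  exact ⟨hZ.top, hZ.bot, fun t => (hA t).top.nin,
    hKF.top0 hZ.top _ (fun t => (hA t).top), hKF.bot0 hZ.bot _ (fun t => (hA t).bot)⟩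

end cell

/-- a path with prescribed ends -/
def ph (Φ : ℝ → Eu 3) (hΦ : Continuous Φ) (u v : ℝ) {p q : Eu 3} (hp : Φ u = p) (hq : Φ v = q) :
    Path p q where
  toFun t := Φ (ls u v t)
  continuous_toFun := by
    have := (ls u v).continuous
    exact hΦ.comp this
  source' := by rw [Path.source, hp]
  target' := by rw [Path.target, hq]

theorem ph_app (Φ : ℝ → Eu 3) (hΦ : Continuous Φ) (u v : ℝ) {p q : Eu 3} (hp : Φ u = p)
    (hq : Φ v = q) (t : I) : ph Φ hΦ u v hp hq t = Φ (ls u v t) := rfl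

/-- the path at distance `η` -/
def Ph (g : GK) (cj η : ℝ) (u : ℝ) : Eu 3 := T1 g cj (v3 u η 0)

theorem Ph_cont {g : GK} {ε : ℝ} (hT : TubeF g ε) (cj η : ℝ) : Continuous (Ph g cj η) := by
  have h1 := T1_cont hT cj
  have h2 : Continuous fun u : ℝ => v3 u η 0 := by
    unfold v3
    fun_prop
  exact h1.comp h2

theorem Ph_eq (g : GK) (cj η τ : ℝ) :
    Ph g cj η (cj + τ) = v3 cj 0 0 + g.be τ + η • g.ve τ := by
  unfold Ph T1
  have e : v3 (cj + τ) η 0 - v3 cj 0 0 = v3 τ η 0 := by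
    apply ext3 <;> simp
  rw [e]
  unfold GK.tu
  simp only [v3_0, v3_1, v3_2, zero_smul, add_zero]
  rw [add_assoc]

end PassAux

open PassAux in
/-- the classes of the loops -/
theorem pass_i {tr : ∀ {f f' : LongKnot 3}, Path f f' → (KG f ≃* KG f')} (hT : Tr @tr)
    {tp : ∀ f : LongKnot 3, ∀ p : Eu 3, ∀ h : KTop f p, Path.Homotopic.Quotient
        (⟨bb, bb_notin f⟩ : Cp (Set.range f.toFun)) ⟨p, h.nin⟩}
    {bp : ∀ f : LongKnot 3, ∀ p : Eu 3, ∀ h : KBot f p, Path.Homotopic.Quotient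
        (⟨bb, bb_notin f⟩ : Cp (Set.range f.toFun)) ⟨p, h.nin⟩}
    {PL : ∀ f : LongKnot 3, ℝ → ℝ → KG f} (hK : ∀ f, KTB f (tp f) (bp f) (PL f))
    {g : Fin 3 → GK} {ε : ℝ} (hg : ∀ l, TubeF (g l) ε) (hG : ∀ l, GFacts (g l))
    {i j k : Fin 3} (hij : i ≠ j) (hik : i ≠ k) (hjk : j ≠ k) {cj ck δ : ℝ} (hδ : 0 < δ)
    (hδε : δ ≤ ε) (hcc : 2 / 3 ≤ |cj - ck|)
    (hck : ∀ u, cj - 2 / 3 ≤ u → u ≤ cj + 1 / 4 → 5 / 12 ≤ |u - ck|)
    (hbd : |cj + 1 / 4| ≤ 11 / 12) (hbk : |ck| ≤ 2 / 3) (hbj : |cj| ≤ 2 / 3)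
    {f f' : LongKnot 3} (H : Path f f')
    (hH : ∀ (s : I) t, (H s).toFun t = Mc g i j k (thp i j cj ck δ s) (v3 t 0 0)) (a b : ℤ)
    (ha : -1 ≤ a) (ha' : a ≤ 7) (hb : -1 ≤ b) (hb' : b ≤ 7) :
    tr H (cel (PL f) (thp i j cj ck δ 0) i a b) =
      lam (g j) (cel (PL f') (thp i j cj ck δ 1) j) * cel (PL f') (thp i j cj ck δ 1) i a b *
        (lam (g j) (cel (PL f') (thp i j cj ck δ 1) j))⁻¹ := by
  have hε := (hg i).le
  have hr : ∀ s : I, Set.range (H s).toFun =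
      KN (g i) (g j) (g k) cj ck δ (cj - 2 / 3 + s * (11 / 12)) := by
    intro s
    unfold KN
    congr 1
    funext t
    rw [hH, Mc_eq hg hij hik hjk]
  have hr0 : Set.range f.toFun = KN (g i) (g j) (g k) cj ck δ (cj - 2 / 3) := by
    have := hr 0
    rw [H.source] at this
    rw [this]
    congr 1
    simp
  have hr1 : Set.range f'.toFun = KN (g i) (g j) (g k) cj ck δ (cj + 1 / 4) := by
    have := hr 1
    rw [H.target] at this
    rw [this]
    congr 1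
    simp
    norm_num
    ring
  have habs0 : |cj - 2 / 3 - cj| = 2 / 3 := by
    have : cj - 2 / 3 - cj = -(2 / 3) := by ring
    rw [this, abs_neg, abs_of_pos (by norm_num)]
  have habs1 : |cj + 1 / 4 - cj| = 1 / 4 := by
    have : cj + 1 / 4 - cj = 1 / 4 := by ring
    rw [this, abs_of_pos (by norm_num)]
  have h0 : 1 / 6 ≤ |cj - 2 / 3 - cj| := by rw [habs0]; norm_num
  have hB := locB_ok (hG i) a b ha ha' hb hb'
  have hTt := locT_ok (hG i) a b ha ha' hb hb'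
  have hk0 := hck (cj - 2 / 3) le_rfl (by linarith)
  have hk1 := hck (cj + 1 / 4) (by linarith) le_rfl
  -- avoidance of the parts
  have avA : ∀ (F : LongKnot 3) (c : ℝ), Set.range F.toFun = KN (g i) (g j) (g k) cj ck δ c →
      ∀ t, Fz F (A1 (cj - 2 / 3) δ t) := by
    intro F c hF t
    exact A1_free (hg i) (hg j) (hg k) (hG i) hδ hδε hcc hck hF (cj - 2 / 3)
      (by rw [habs0]; norm_num) (by linarith) (by linarith) t
  have avP : ∀ (F : LongKnot 3) (c : ℝ), Set.range F.toFun = KN (g i) (g j) (g k) cj ck δ c →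
      cj - 2 / 3 ≤ c → c ≤ cj + 1 / 4 →
      ∀ t, PP (δ := δ) (hg j) h0 c t ∉ Set.range F.toFun := by
    intro F c hF h1 h2 t
    rw [hF]
    have := ls_Icc (a := cj - 2 / 3) (b := c) (u := cj - 2 / 3)
      (v := cj + 1 / 4) ⟨le_rfl, by linarith⟩ ⟨h1, h2⟩ t
    exact av_half (hg i) (hg j) (hg k) (hG i) hδ hδε hcc hck _ _ this.1 this.2
  have avB : ∀ (F : LongKnot 3) (c : ℝ), Set.range F.toFun = KN (g i) (g j) (g k) cj ck δ c →
      cj - 2 / 3 ≤ c → c ≤ cj + 1 / 4 →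
      ∀ t, ((locB ((a + 1 / 2) / 48) ((b + 1 / 2) / 48)).map
      (Psi_cont (hg j) cj δ c)) t ∉ Set.range F.toFun := by
    intro F c hF h1 h2 t
    rw [hF]
    exact av_Psi (hg i) (hg j) (hg k) (hG i) hδ hδε hcc hck _ h1 h2 (hB t).2
      (hB t).1.notin
  have avT : ∀ (F : LongKnot 3) (c : ℝ), Set.range F.toFun = KN (g i) (g j) (g k) cj ck δ c →
      cj - 2 / 3 ≤ c → c ≤ cj + 1 / 4 →
      ∀ t, ((locT ((a + 1 / 2) / 48) ((b + 1 / 2) / 48)).map
      (Psi_cont (hg j) cj δ c)) t ∉ Set.range F.toFun := by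
    intro F c hF h1 h2 t
    rw [hF]
    exact av_Psi (hg i) (hg j) (hg k) (hG i) hδ hδε hcc hck _ h1 h2 (hTt t).2
      (hTt t).1.notin
  have avAP : ∀ (F : LongKnot 3) (c : ℝ), Set.range F.toFun = KN (g i) (g j) (g k) cj ck δ c →
      cj - 2 / 3 ≤ c → c ≤ cj + 1 / 4 →
      ∀ t, ((A1 (cj - 2 / 3) δ).trans (PP (hg j) h0 c)) t ∉ Set.range F.toFun :=
    fun F c hF h1 h2 => avoid_trans (P := fun p => p ∉ Set.range F.toFun)
      (fun t => (avA F c hF t).top.nin) (avP F c hF h1 h2)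
  have avBT : ∀ (F : LongKnot 3) (c : ℝ), Set.range F.toFun = KN (g i) (g j) (g k) cj ck δ c →
      cj - 2 / 3 ≤ c → c ≤ cj + 1 / 4 →
      ∀ t, (((locB ((a + 1 / 2) / 48) ((b + 1 / 2) / 48)).map
      (Psi_cont (hg j) cj δ c)).trans ((locT ((a + 1 / 2) / 48) ((b + 1 / 2) / 48)).map
      (Psi_cont (hg j) cj δ c))) t ∉ Set.range F.toFun :=
    fun F c hF h1 h2 => avoid_trans (P := fun p => p ∉ Set.range F.toFun)
      (avB F c hF h1 h2) (avT F c hF h1 h2)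
  have avL : ∀ (F : LongKnot 3) (c : ℝ), Set.range F.toFun = KN (g i) (g j) (g k) cj ck δ c →
      cj - 2 / 3 ≤ c → c ≤ cj + 1 / 4 →
      ∀ t, LL (δ := δ) (hg j) h0 ((a + 1 / 2) / 48) ((b + 1 / 2) / 48) c t ∉
      Set.range F.toFun := fun F c hF h1 h2 =>
    avoid_trans (P := fun p => p ∉ Set.range F.toFun)
      (avoid_trans (P := fun p => p ∉ Set.range F.toFun) (avAP F c hF h1 h2) (avBT F c hF h1 h2))
      (avoid_symm (P := fun p => p ∉ Set.range F.toFun) (avAP F c hF h1 h2))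
  -- the class of the loop
  have cls : ∀ (F : LongKnot 3) (c : ℝ) (hF : Set.range F.toFun = KN (g i) (g j) (g k) cj ck δ c)
      (h1 : cj - 2 / 3 ≤ c) (h2 : c ≤ cj + 1 / 4)
      (hZ : Psi (g j) cj δ c (v3 0 (1 / 2) 0) ∉ Set.range F.toFun)
      (hq : Psi (g j) cj δ c (v3 ((a + 1 / 2) / 48) ((b + 1 / 2) / 48) 0) ∉ Set.range F.toFun),
      mkC (LL (δ := δ) (hg j) h0 ((a + 1 / 2) / 48) ((b + 1 / 2) / 48) c) (avL F c hF h1 h2)
        (bb_notin F) (bb_notin F) =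
      ((mkC ((A1 (cj - 2 / 3) δ).trans (PP (hg j) h0 c)) (avAP F c hF h1 h2) (bb_notin F) hZ).trans
        ((mkC ((locB ((a + 1 / 2) / 48) ((b + 1 / 2) / 48)).map (Psi_cont (hg j) cj δ c))
          (avB F c hF h1 h2) hZ hq).trans
        (mkC ((locT ((a + 1 / 2) / 48) ((b + 1 / 2) / 48)).map (Psi_cont (hg j) cj δ c))
          (avT F c hF h1 h2) hq hZ))).trans
        (mkC ((A1 (cj - 2 / 3) δ).trans (PP (hg j) h0 c)) (avAP F c hF h1 h2)
          (bb_notin F) hZ).symm := by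
    intro F c hF h1 h2 hZ hq
    have s1 := mkC_trans (𝒦 := Set.range F.toFun)
      (((A1 (cj - 2 / 3) δ).trans (PP (hg j) h0 c)).trans
        (((locB ((a + 1 / 2) / 48) ((b + 1 / 2) / 48)).map (Psi_cont (hg j) cj δ c)).trans
        ((locT ((a + 1 / 2) / 48) ((b + 1 / 2) / 48)).map (Psi_cont (hg j) cj δ c))))
      ((A1 (cj - 2 / 3) δ).trans (PP (hg j) h0 c)).symm
      (avoid_trans (P := fun p => p ∉ Set.range F.toFun) (avAP F c hF h1 h2) (avBT F c hF h1 h2))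
      (avoid_symm (P := fun p => p ∉ Set.range F.toFun) (avAP F c hF h1 h2))
      (avL F c hF h1 h2) (bb_notin F) hZ (bb_notin F)
    have s2 := mkC_trans (𝒦 := Set.range F.toFun)
      ((A1 (cj - 2 / 3) δ).trans (PP (hg j) h0 c))
      (((locB ((a + 1 / 2) / 48) ((b + 1 / 2) / 48)).map (Psi_cont (hg j) cj δ c)).trans
        ((locT ((a + 1 / 2) / 48) ((b + 1 / 2) / 48)).map (Psi_cont (hg j) cj δ c)))
      (avAP F c hF h1 h2) (avBT F c hF h1 h2)
      (avoid_trans (P := fun p => p ∉ Set.range F.toFun) (avAP F c hF h1 h2) (avBT F c hF h1 h2))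
      (bb_notin F) hZ hZ
    have s3 := mkC_trans (𝒦 := Set.range F.toFun)
      ((locB ((a + 1 / 2) / 48) ((b + 1 / 2) / 48)).map (Psi_cont (hg j) cj δ c))
      ((locT ((a + 1 / 2) / 48) ((b + 1 / 2) / 48)).map (Psi_cont (hg j) cj δ c))
      (avB F c hF h1 h2) (avT F c hF h1 h2) (avBT F c hF h1 h2) hZ hq hZ
    have s4 := mkC_symm (𝒦 := Set.range F.toFun)
      ((A1 (cj - 2 / 3) δ).trans (PP (hg j) h0 c)) (avAP F c hF h1 h2)
      (avoid_symm (P := fun p => p ∉ Set.range F.toFun) (avAP F c hF h1 h2)) (bb_notin F) hZ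
    rw [s3] at s2
    rw [s2, s4] at s1
    exact s1
  -- the beginning
  obtain ⟨hZt0, hZb0, hav0, at0, ab0⟩ := access (hg i) (hg j) (hg k) (hG i) hδ hδε hcc hck (hK f)
    hr0 le_rfl (by linarith) (by rw [habs0]; norm_num) h0
  have hq0 : Psi (g j) cj δ (cj - 2 / 3) (v3 ((a + 1 / 2) / 48) ((b + 1 / 2) / 48) 0) ∉
      Set.range f.toFun := by
    have := avB f _ hr0 le_rfl (by linarith) 1
    rwa [Path.target] at this
  have c0 := cls f _ hr0 le_rfl (by linarith) hZt0.nin hq0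
  have cc0 := cell_class (hg i) (hg j) (hg k) (hG i) hδ hδε hcc hck (hK f) hr0 le_rfl
    (by linarith) (by rw [habs0]; norm_num) a b ha ha' hb hb' hZt0 hZb0
    (avB f _ hr0 le_rfl (by linarith)) (avT f _ hr0 le_rfl (by linarith)) hq0
  -- the end
  have h01 : 1 / 6 ≤ |cj + 1 / 4 - cj| := by rw [habs1]; norm_num
  obtain ⟨hZt1, hZb1, hav1, at1, ab1⟩ := access (hg i) (hg j) (hg k) (hG i) hδ hδε hcc hck (hK f')
    hr1 (by linarith) le_rfl (by rw [habs1]) h01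
  have hq1 : Psi (g j) cj δ (cj + 1 / 4) (v3 ((a + 1 / 2) / 48) ((b + 1 / 2) / 48) 0) ∉
      Set.range f'.toFun := by
    have := avB f' _ hr1 (by linarith) le_rfl 1
    rwa [Path.target] at this
  have c1 := cls f' _ hr1 (by linarith) le_rfl hZt1.nin hq1
  have cc1 := cell_class (hg i) (hg j) (hg k) (hG i) hδ hδε hcc hck (hK f') hr1 (by linarith)
    le_rfl (by rw [habs1]) a b ha ha' hb hb' hZt1 hZb1
    (avB f' _ hr1 (by linarith) le_rfl) (avT f' _ hr1 (by linarith) le_rfl) hq1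
  -- the access path at the end
  have hΦ := Ph_cont (hg j) cj (δ / 2)
  have avΦ : ∀ u ∈ Set.Icc (cj - 2 / 3) (cj + 1 / 4), Ph (g j) cj (δ / 2) u ∉
      Set.range f'.toFun := by
    intro u hu
    rw [hr1]
    exact av_half (hg i) (hg j) (hg k) (hG i) hδ hδε hcc hck _ u hu.1 hu.2
  have fzΦ : ∀ u ∈ Set.Icc (cj - 2 / 3) (cj + 1 / 4), 1 / 5 ≤ |u - cj| →
      Fz f' (Ph (g j) cj (δ / 2) u) := by
    intro u hu h1
    have := hck u hu.1 hu.2
    exact half_free (hg i) (hg j) (hg k) (hG i) hδ hδε hcc hck hr1 u h1 (by linarith)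
  have pe0 : Ph (g j) cj (δ / 2) (cj - 2 / 3) = v3 (cj - 2 / 3) (δ / 2) 0 :=
    T1_out (hg j) (by rw [v3_0]; exact h0)
  have pea := Ph_eq (g j) cj (δ / 2) (-(1 / 5))
  have peb := Ph_eq (g j) cj (δ / 2) (1 / 5)
  have pe1 : Ph (g j) cj (δ / 2) (cj + 1 / 4) = Psi (g j) cj δ (cj + 1 / 4) (v3 0 (1 / 2) 0) := by
    unfold Ph Psi
    rw [half_pt]
  have mm : ∀ u v : ℝ, cj - 2 / 3 ≤ u → u ≤ cj + 1 / 4 → cj - 2 / 3 ≤ v → v ≤ cj + 1 / 4 →
      ∀ t, ls u v t ∈ Set.Icc (cj - 2 / 3) (cj + 1 / 4) := fun u v h1 h2 h3 h4 t =>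
    ls_Icc ⟨h1, h2⟩ ⟨h3, h4⟩ t
  have hpa : Fz f' (v3 cj 0 0 + (g j).be (-(1 / 5)) + (δ / 2) • (g j).ve (-(1 / 5))) := by
    rw [← pea]
    apply fzΦ _ ⟨by linarith, by linarith⟩
    rw [show cj + -(1 / 5) - cj = -(1 / 5) by ring, abs_neg, abs_of_pos (by norm_num)]
  have hpb : Fz f' (v3 cj 0 0 + (g j).be (1 / 5) + (δ / 2) • (g j).ve (1 / 5)) := by
    rw [← peb]
    apply fzΦ _ ⟨by linarith, by linarith⟩
    rw [show cj + 1 / 5 - cj = 1 / 5 by ring, abs_of_pos (by norm_num)]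
  have parl_eq : ∀ t, parl (g j) (hg j).sb.continuous (hg j).sv.continuous cj (δ / 2) t =
      Ph (g j) cj (δ / 2) (ls (cj + -(1 / 5)) (cj + 1 / 5) t) := by
    intro t
    have : ls (cj + -(1 / 5)) (cj + 1 / 5) t = cj + (-(1 / 5) + 2 / 5 * (t : ℝ)) := by
      simp only [ls, Path.coe_mk_mk]; ring
    rw [this, Ph_eq]
    rfl
  have avp : ∀ t, parl (g j) (hg j).sb.continuous (hg j).sv.continuous cj (δ / 2) t ∉
      Set.range f'.toFun := by
    intro t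
    rw [parl_eq]
    exact avΦ _ (mm _ _ (by linarith) (by linarith) (by linarith) (by linarith) t)
  have hΛ := parallel (g j) (hG j) (hg j) f' (hK f') cj (δ / 2) (by linarith) (by linarith)
    (fun p hp => by
      have hD := dis_one hij hik hjk hδ (hδε.trans hε) hcc hk1 hbd hbk hbj
      have := rng_slab hg hD hij hik hjk j (p := p) (by
        rw [thp_1j hij, thp_2 hij]; exact hp)
      rw [thp_1j hij, thp_2 hij, inv_one, one_smul] at this
      rw [← this]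
      constructor
      · rintro ⟨t, ht⟩
        refine ⟨t, ?_⟩
        have e := hH 1 t
        rw [H.target] at e
        rw [← ht, e]
        simp
      · rintro ⟨t, ht⟩
        refine ⟨t, ?_⟩
        have e := hH 1 t
        rw [H.target] at e
        rw [e, ← ht]
        simp) hpa.top hpb.top avp
  have w1 : ∀ t, Fz f' (ph (Ph (g j) cj (δ / 2)) hΦ (cj - 2 / 3) (cj + -(1 / 5)) pe0 pea t) := by
    intro t
    rw [ph_app]
    have m := ls_Icc (a := cj - 2 / 3) (b := cj + -(1 / 5)) (u := cj - 2 / 3)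
      (v := cj + -(1 / 5)) ⟨le_rfl, by linarith⟩ ⟨by linarith, le_rfl⟩ t
    apply fzΦ _ ⟨m.1, by linarith [m.2]⟩
    rw [abs_of_neg (by linarith [m.2])]
    linarith [m.2]
  have w3 : ∀ t, Fz f' (ph (Ph (g j) cj (δ / 2)) hΦ (cj + 1 / 5) (cj + 1 / 4) peb pe1 t) := by
    intro t
    rw [ph_app]
    have m := ls_Icc (a := cj + 1 / 5) (b := cj + 1 / 4) (u := cj + 1 / 5)
      (v := cj + 1 / 4) ⟨le_rfl, by linarith⟩ ⟨by linarith, le_rfl⟩ t
    apply fzΦ _ ⟨by linarith [m.1], m.2⟩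
    rw [abs_of_pos (by linarith [m.1])]
    linarith [m.1]
  have w12 : ∀ t, ph (Ph (g j) cj (δ / 2)) hΦ (cj - 2 / 3) (cj + 1 / 5) pe0 peb t ∉
      Set.range f'.toFun := fun t =>
    avΦ _ (mm _ _ le_rfl (by linarith) (by linarith) (by linarith) t)
  have hp0 : v3 (cj - 2 / 3) (δ / 2) 0 ∉ Set.range f'.toFun := by
    rw [← pe0]
    exact avΦ _ ⟨le_rfl, by linarith⟩
  have q1 := cat (convex_Icc (cj - 2 / 3) (cj + 1 / 4)) (Ph (g j) cj (δ / 2)) hΦ avΦ
    (ls (cj - 2 / 3) (cj + -(1 / 5))) (ls (cj + -(1 / 5)) (cj + 1 / 5))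
    (ls (cj - 2 / 3) (cj + 1 / 5)) (mm _ _ le_rfl (by linarith) (by linarith) (by linarith))
    (mm _ _ (by linarith) (by linarith) (by linarith) (by linarith))
    (mm _ _ le_rfl (by linarith) (by linarith) (by linarith))
    (ph (Ph (g j) cj (δ / 2)) hΦ (cj - 2 / 3) (cj + -(1 / 5)) pe0 pea)
    (parl (g j) (hg j).sb.continuous (hg j).sv.continuous cj (δ / 2))
    (ph (Ph (g j) cj (δ / 2)) hΦ (cj - 2 / 3) (cj + 1 / 5) pe0 peb)
    (fun _ => rfl) parl_eq (fun _ => rfl) (fun t => (w1 t).top.nin) avp w12 hp0 hpa.top.nin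
    hpb.top.nin
  have q2 := cat (convex_Icc (cj - 2 / 3) (cj + 1 / 4)) (Ph (g j) cj (δ / 2)) hΦ avΦ
    (ls (cj - 2 / 3) (cj + 1 / 5)) (ls (cj + 1 / 5) (cj + 1 / 4))
    (ls (cj - 2 / 3) (cj + 1 / 4)) (mm _ _ le_rfl (by linarith) (by linarith) (by linarith))
    (mm _ _ (by linarith) (by linarith) (by linarith) (by linarith))
    (mm _ _ le_rfl (by linarith) (by linarith) (by linarith))
    (ph (Ph (g j) cj (δ / 2)) hΦ (cj - 2 / 3) (cj + 1 / 5) pe0 peb)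
    (ph (Ph (g j) cj (δ / 2)) hΦ (cj + 1 / 5) (cj + 1 / 4) peb pe1)
    (PP (δ := δ) (hg j) h0 (cj + 1 / 4))
    (fun _ => rfl) (fun _ => rfl) (fun _ => rfl) w12 (fun t => (w3 t).top.nin)
    (avP f' _ hr1 (by linarith) le_rfl) hp0 hpb.top.nin hZt1.nin
  have q3 := mkC_trans (𝒦 := Set.range f'.toFun) (A1 (cj - 2 / 3) δ)
    (PP (δ := δ) (hg j) h0 (cj + 1 / 4)) (fun t => (avA f' _ hr1 t).top.nin)
    (avP f' _ hr1 (by linarith) le_rfl) (avAP f' _ hr1 (by linarith) le_rfl) (bb_notin f') hp0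
    hZt1.nin
  have w4 : ∀ t, Fz f' (((A1 (cj - 2 / 3) δ).trans
      (ph (Ph (g j) cj (δ / 2)) hΦ (cj - 2 / 3) (cj + -(1 / 5)) pe0 pea)) t) :=
    avoid_trans (P := Fz f') (avA f' _ hr1) w1
  have q4 := mkC_trans (𝒦 := Set.range f'.toFun) (A1 (cj - 2 / 3) δ)
    (ph (Ph (g j) cj (δ / 2)) hΦ (cj - 2 / 3) (cj + -(1 / 5)) pe0 pea)
    (fun t => (avA f' _ hr1 t).top.nin)
    (fun t => (w1 t).top.nin) (fun t => (w4 t).top.nin) (bb_notin f') hp0 hpa.top.nin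
  have q5 : mkC ((A1 (cj - 2 / 3) δ).trans
      (ph (Ph (g j) cj (δ / 2)) hΦ (cj - 2 / 3) (cj + -(1 / 5)) pe0 pea))
      (fun t => (w4 t).top.nin) (bb_notin f') hpa.top.nin = tp f' _ hpa.top :=
    (hK f').top0 hpa.top _ (fun t => (w4 t).top)
  have q6 : (tp f' _ hpb.top).trans
      (mkC (ph (Ph (g j) cj (δ / 2)) hΦ (cj + 1 / 5) (cj + 1 / 4) peb pe1)
        (fun t => (w3 t).top.nin) hpb.top.nin hZt1.nin) = tp f' _ hZt1 :=
    (hK f').top hpb.top hZt1 _ (fun t => (w3 t).top)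
  have hX : mkC ((A1 (cj - 2 / 3) δ).trans (PP (hg j) h0 (cj + 1 / 4)))
      (avAP f' _ hr1 (by linarith) le_rfl) (bb_notin f') hZt1.nin =
      (toQ (lam (G := KG f') (g j) (fun i j => PL f' (cj + (i + 1 / 2) / 48)
        ((j + 1 / 2) / 48)))).trans (tp f' _ hZt1) := by
    rw [q3, ← q2, ← q1, ← Path.Homotopic.Quotient.trans_assoc,
      ← Path.Homotopic.Quotient.trans_assoc, ← q4, q5, ← q6,
      ← Path.Homotopic.Quotient.trans_assoc]
    congr 1
  -- the family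
  have key := hT.family H (fun p => LL (δ := δ) (hg j) h0 ((a + 1 / 2) / 48) ((b + 1 / 2) / 48)
      (cj - 2 / 3 + (p.1 : ℝ) * (11 / 12)) p.2)
    (LL_cont (hg j) h0 _ _ (fun s => cj - 2 / 3 + (s : ℝ) * (11 / 12)) (by fun_prop))
    (fun s t => avL (H s) _ (hr s) (by have := s.2.1; linarith) (by have := s.2.2; linarith) t)
    (fun s => Path.source _) (fun s => Path.target _)
    (inC (LL (δ := δ) (hg j) h0 ((a + 1 / 2) / 48) ((b + 1 / 2) / 48) (cj - 2 / 3))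
      (avL f _ hr0 le_rfl (by linarith)) (bb_notin f) (bb_notin f))
    (inC (LL (δ := δ) (hg j) h0 ((a + 1 / 2) / 48) ((b + 1 / 2) / 48) (cj + 1 / 4))
      (avL f' _ hr1 (by linarith) le_rfl) (bb_notin f') (bb_notin f'))
    (fun t => by
      have e : cj - 2 / 3 + ((0 : I) : ℝ) * (11 / 12) = cj - 2 / 3 := by simp
      simp only [e]
      rfl)
    (fun t => by
      have e : cj - 2 / 3 + ((1 : I) : ℝ) * (11 / 12) = cj + 1 / 4 := by simp; ring
      simp only [e]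
      rfl)
  have start : (PG.mk (inC (LL (δ := δ) (hg j) h0 ((a + 1 / 2) / 48) ((b + 1 / 2) / 48)
      (cj - 2 / 3)) (avL f _ hr0 le_rfl (by linarith)) (bb_notin f) (bb_notin f)) : KG f) =
      cel (PL f) (thp i j cj ck δ 0) i a b := by
    have e1 : cel (PL f) (thp i j cj ck δ 0) i a b =
        PL f (cj - 2 / 3 + δ * ((a + 1 / 2) / 48)) (δ * ((b + 1 / 2) / 48)) := by
      unfold cel
      rw [thp_1i, thp_2i, zero_mul, add_zero]
    rw [e1]
    change mkC _ _ _ _ = toQ _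
    rw [c0, ← cc0]
    have hA0 : mkC ((A1 (cj - 2 / 3) δ).trans (PP (hg j) h0 (cj - 2 / 3)))
      (avAP f _ hr0 le_rfl (by linarith)) (bb_notin f) hZt0.nin = tp f _ hZt0 := at0
    have hB0 : mkC ((A1 (cj - 2 / 3) δ).trans (PP (hg j) h0 (cj - 2 / 3)))
      (avAP f _ hr0 le_rfl (by linarith)) (bb_notin f) hZt0.nin = bp f _ hZb0 := ab0
    exact congrArg₂ (fun u v => (Path.Homotopic.Quotient.trans u _).trans
      (Path.Homotopic.Quotient.symm v)) hB0 hA0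
  have hlam : lam (g j) (cel (PL f') (thp i j cj ck δ 1) j) =
      lam (G := KG f') (g j) (fun i j => PL f' (cj + (i + 1 / 2) / 48) ((j + 1 / 2) / 48)) := by
    congr 1
    funext u v
    unfold cel
    rw [thp_1j hij, thp_2 hij, one_mul, one_mul]
  have hcel1 : cel (PL f') (thp i j cj ck δ 1) i a b =
      PL f' (cj + 1 / 4 + δ * ((a + 1 / 2) / 48)) (δ * ((b + 1 / 2) / 48)) := by
    unfold cel
    rw [thp_1i, thp_2i, show cj - 2 / 3 + 1 * (11 / 12) = cj + 1 / 4 by ring]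
  have htb : tp f' _ hZt1 = bp f' _ hZb1 := at1.symm.trans ab1
  have fin : (PG.mk (inC (LL (δ := δ) (hg j) h0 ((a + 1 / 2) / 48) ((b + 1 / 2) / 48)
      (cj + 1 / 4)) (avL f' _ hr1 (by linarith) le_rfl) (bb_notin f') (bb_notin f')) : KG f') =
      lam (g j) (cel (PL f') (thp i j cj ck δ 1) j) * cel (PL f') (thp i j cj ck δ 1) i a b *
        (lam (g j) (cel (PL f') (thp i j cj ck δ 1) j))⁻¹ := by
    rw [hlam, hcel1]
    change mkC _ _ _ _ = (Path.Homotopic.Quotient.trans (toQ _) (toQ _)).trans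
      (Path.Homotopic.Quotient.symm (toQ _))
    rw [c1]
    refine (alg2 _ (tp f' _ hZt1) _ _ hX).trans ?_
    rw [← cc1]
    refine congrArg (fun u => (Path.Homotopic.Quotient.trans _ ((Path.Homotopic.Quotient.trans u
      _).trans (Path.Homotopic.Quotient.symm (tp f' _ hZt1)))).trans _) htb
  rw [← start, key, fin]

namespace PassAux

theorem adm_s {ε : ℝ} {i j k : Fin 3} (hij : i ≠ j) (hik : i ≠ k) (hjk : j ≠ k) {cj ck δ : ℝ}
    (hδ : 0 < δ) (hδε : δ ≤ ε) (hε : ε ≤ 1 / 100) (hcc : 2 / 3 ≤ |cj - ck|)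
    (hck : ∀ u, cj - 2 / 3 ≤ u → u ≤ cj + 1 / 4 → 5 / 12 ≤ |u - ck|)
    (hbs : ∀ u, cj - 2 / 3 ≤ u → u ≤ cj + 1 / 4 → |u| ≤ 11 / 12)
    (hbk : |ck| ≤ 2 / 3) (hbj : |cj| ≤ 2 / 3) {s : ℝ} (hs0 : 0 ≤ s) (hs1 : s ≤ 1) :
    Adm ε i j k (thp i j cj ck δ s) := by
  have e1 := thp_1i i j cj ck δ s
  have e2 := thp_1j hij cj ck δ s
  have e3 := thp_1k hik hjk cj ck δ s
  have e4 := thp_2i i j cj ck δ s
  have e5 := thp_2 hij j cj ck δ s
  have e6 := thp_2 hik j cj ck δ s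
  have m0 : cj - 2 / 3 ≤ cj - 2 / 3 + s * (11 / 12) := by linarith
  have m1 : cj - 2 / 3 + s * (11 / 12) ≤ cj + 1 / 4 := by linarith
  have k1 := hck _ m0 m1
  have k2 := hbs _ m0 m1
  constructor
  · intro l
    rcases cover3 i j k l hij hik hjk with rfl | rfl | rfl
    · rw [e4]; exact hδ
    · rw [e5]; norm_num
    · rw [e6]; norm_num
  · intro l
    rcases cover3 i j k l hij hik hjk with rfl | rfl | rfl
    · rw [e4]; linarith
    · rw [e5]
    · rw [e6]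
  · intro l
    rcases cover3 i j k l hij hik hjk with rfl | rfl | rfl
    · rw [e1, e4]; linarith
    · rw [e2, e5]; linarith
    · rw [e3, e6]; linarith
  · right
    rw [e4, e5]; linarith
  · rw [e1, e3, e4, e6]; linarith
  · rw [e2, e3, e5, e6]; linarith

theorem cell_bd {a : ℤ} (ha : -1 ≤ a) (ha' : a ≤ 7) : |((a : ℝ) + 1 / 2) / 48| ≤ 1 / 5 := by
  have e1 : (-1 : ℝ) ≤ a := by exact_mod_cast ha
  have e2 : (a : ℝ) ≤ 7 := by exact_mod_cast ha'
  rw [abs_le]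
  constructor <;> linarith

theorem near_cell {g : GK} (hG : GFacts g) (t : ℝ) (a b : ℤ) (w : ℝ)
    (h : ‖v3 ((a + 1 / 2) / 48) ((b + 1 / 2) / 48) w - g.be t‖ ≤ 1 / 100) : False := by
  have h0 : |(v3 (((a : ℝ) + 1 / 2) / 48) (((b : ℝ) + 1 / 2) / 48) w - g.be t) 0| ≤ 1 / 100 := by
    have := PiLp.norm_apply_le (v3 (((a : ℝ) + 1 / 2) / 48) (((b : ℝ) + 1 / 2) / 48) w - g.be t) 0
    rw [Real.norm_eq_abs] at this
    exact this.trans h
  have h1 : |(v3 (((a : ℝ) + 1 / 2) / 48) (((b : ℝ) + 1 / 2) / 48) w - g.be t) 1| ≤ 1 / 100 := by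
    have := PiLp.norm_apply_le (v3 (((a : ℝ) + 1 / 2) / 48) (((b : ℝ) + 1 / 2) / 48) w - g.be t) 1
    rw [Real.norm_eq_abs] at this
    exact this.trans h
  simp only [sub_app, v3_0, v3_1] at h0 h1
  rw [abs_le] at h0 h1
  rcases be_int hG t with ⟨m, hm⟩ | ⟨m, hm⟩
  · have := half_int a m
    rcases abs_cases ((m : ℝ) - (a + 1 / 2)) with ⟨h2, _⟩ | ⟨h2, _⟩ <;> rw [h2] at this <;>
      linarith [h0.1, h0.2]
  · have := half_int b m
    rcases abs_cases ((m : ℝ) - (b + 1 / 2)) with ⟨h2, _⟩ | ⟨h2, _⟩ <;> rw [h2] at this <;>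
      linarith [h1.1, h1.2]

end PassAux

open PassAux in
theorem pass {tr : ∀ {f f' : LongKnot 3}, Path f f' → (KG f ≃* KG f')} (hT : Tr @tr)
    {tp : ∀ f : LongKnot 3, ∀ p : Eu 3, ∀ h : KTop f p, Path.Homotopic.Quotient
        (⟨bb, bb_notin f⟩ : Cp (Set.range f.toFun)) ⟨p, h.nin⟩}
    {bp : ∀ f : LongKnot 3, ∀ p : Eu 3, ∀ h : KBot f p, Path.Homotopic.Quotient
        (⟨bb, bb_notin f⟩ : Cp (Set.range f.toFun)) ⟨p, h.nin⟩}
    {PL : ∀ f : LongKnot 3, ℝ → ℝ → KG f} (hK : ∀ f, KTB f (tp f) (bp f) (PL f))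
    (hP : ∀ f x y, Free f x y → ∀ hp : ∀ t, poly x y t ∉ Set.range f.toFun,
      PL f x y = PG.mk (inC (poly x y) hp (bb_notin f) (bb_notin f)))
    {g : Fin 3 → GK} {ε : ℝ} (hg : ∀ l, TubeF (g l) ε) (hG : ∀ l, GFacts (g l))
    {i j k : Fin 3} (hij : i ≠ j) (hik : i ≠ k) (hjk : j ≠ k) {cj ck δ : ℝ} (hδ : 0 < δ)
    (hδε : δ ≤ ε) (hc : (cj = 0 ∧ ck = 2 / 3) ∨ (cj = 2 / 3 ∧ ck = -2 / 3))
    {f f' : LongKnot 3} (H : Path f f')
    (hH : ∀ (s : I) t, (H s).toFun t = Mc g i j k (thp i j cj ck δ s) (v3 t 0 0)) (a b : ℤ)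
    (ha : -1 ≤ a) (ha' : a ≤ 7) (hb : -1 ≤ b) (hb' : b ≤ 7) :
    tr H (cel (PL f) (thp i j cj ck δ 0) j a b) = cel (PL f') (thp i j cj ck δ 1) j a b ∧
    tr H (cel (PL f) (thp i j cj ck δ 0) k a b) = cel (PL f') (thp i j cj ck δ 1) k a b ∧
    tr H (cel (PL f) (thp i j cj ck δ 0) i a b) =
      lam (g j) (cel (PL f') (thp i j cj ck δ 1) j) * cel (PL f') (thp i j cj ck δ 1) i a b *
        (lam (g j) (cel (PL f') (thp i j cj ck δ 1) j))⁻¹ := by
  have hε := (hg i).le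
  have hcc : 2 / 3 ≤ |cj - ck| := by
    rcases hc with ⟨rfl, rfl⟩ | ⟨rfl, rfl⟩
    · rw [abs_of_neg (by norm_num)]; norm_num
    · rw [abs_of_pos (by norm_num)]; norm_num
  have hck : ∀ u, cj - 2 / 3 ≤ u → u ≤ cj + 1 / 4 → 5 / 12 ≤ |u - ck| := by
    rcases hc with ⟨rfl, rfl⟩ | ⟨rfl, rfl⟩
    · intro u h1 h2
      rw [abs_of_neg (by linarith)]; linarith
    · intro u h1 h2
      rw [abs_of_pos (by linarith)]; linarith
  have hbs : ∀ u, cj - 2 / 3 ≤ u → u ≤ cj + 1 / 4 → |u| ≤ 11 / 12 := by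
    rcases hc with ⟨rfl, rfl⟩ | ⟨rfl, rfl⟩
    · intro u h1 h2
      rw [abs_le]; constructor <;> linarith
    · intro u h1 h2
      rw [abs_le]; constructor <;> linarith
  have hbd := hbs (cj + 1 / 4) (by linarith) le_rfl
  have hbk : |ck| ≤ 2 / 3 := by
    rcases hc with ⟨rfl, rfl⟩ | ⟨rfl, rfl⟩ <;> rw [abs_le] <;> constructor <;> norm_num
  have hbj : |cj| ≤ 2 / 3 := by
    rcases hc with ⟨rfl, rfl⟩ | ⟨rfl, rfl⟩ <;> rw [abs_le] <;> constructor <;> norm_num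
  have hA : ∀ s : I, Adm ε i j k (thp i j cj ck δ s) := fun s =>
    adm_s hij hik hjk hδ hδε hε hcc hck hbs hbk hbj s.2.1 s.2.2
  refine ⟨?_, ?_, pass_i hT hK hg hG hij hik hjk hδ hδε hcc hck hbd hbk hbj H hH a b ha ha' hb
    hb'⟩
  · have e : ∀ (F : LongKnot 3) (s : ℝ), cel (PL F) (thp i j cj ck δ s) j a b =
        PL F (cj + (a + 1 / 2) / 48) ((b + 1 / 2) / 48) := by
      intro F s
      unfold cel
      rw [thp_1j hij, thp_2 hij, one_mul, one_mul]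
    rw [e, e]
    refine PL_move hT hP H (fun _ => cj + (a + 1 / 2) / 48) (fun _ => (b + 1 / 2) / 48)
      continuous_const continuous_const ?_
    intro s w hm
    obtain ⟨t, ht⟩ := hm
    rw [hH] at ht
    obtain ⟨u, hu⟩ := rng_adm_j hg hij hik hjk (hA s)
      (p := v3 (cj + (a + 1 / 2) / 48) ((b + 1 / 2) / 48) w) (by
        rw [thp_1j hij, thp_2 hij, v3_0, add_sub_cancel_left]
        exact cell_bd ha ha') ⟨t, ht⟩
    rw [thp_1j hij, thp_2 hij, inv_one, one_smul] at hu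
    apply near_cell (hG j) u a b w
    have e2 : v3 (cj + (a + 1 / 2) / 48) ((b + 1 / 2) / 48) w - v3 cj 0 0 =
        v3 ((a + 1 / 2) / 48) ((b + 1 / 2) / 48) w := by
      apply ext3 <;> simp
    rwa [e2] at hu
  · have e : ∀ (F : LongKnot 3) (s : ℝ), cel (PL F) (thp i j cj ck δ s) k a b =
        PL F (ck + (a + 1 / 2) / 48) ((b + 1 / 2) / 48) := by
      intro F s
      unfold cel
      rw [thp_1k hik hjk, thp_2 hik, one_mul, one_mul]
    rw [e, e]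
    refine PL_move hT hP H (fun _ => ck + (a + 1 / 2) / 48) (fun _ => (b + 1 / 2) / 48)
      continuous_const continuous_const ?_
    intro s w hm
    obtain ⟨t, ht⟩ := hm
    rw [hH] at ht
    have hu := (rng_adm_k hg hij hik hjk (hA s)
      (p := v3 (ck + (a + 1 / 2) / 48) ((b + 1 / 2) / 48) w) (by
        rw [thp_1k hik hjk, thp_2 hik, v3_0, add_sub_cancel_left]
        exact cell_bd ha ha')).1 ⟨t, ht⟩
    rw [thp_1k hik hjk, thp_2 hik, inv_one, one_smul] at hu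
    obtain ⟨u, hu⟩ := hu
    apply be_cell (hG k) u a b
    · rw [hu]; simp
    · rw [hu]; simp

end Pool.Agent.H414_LQ
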