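import Pool.Agent.H414_LQ.Base3

/-!
JOB PC.  The parallel of a grid knot as a product of loops over cells.
-/

set_option autoImplicit false

open scoped Topology ContDiff unitInterval

noncomputable section

namespace Pool.Agent.H414_LQ

open Pool.Agent.H414_LK

/-! ### Path classes -/

section paths

variable {f : LongKnot 3}

/-- the path along a curve -/
def sp (P : ℝ → Eu 3) (hP : Continuous P) (a b : ℝ) : Path (P a) (P b) where
  toFun t := P ((1 - (t : ℝ)) * a + (t : ℝ) * b)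
  continuous_toFun := by fun_prop
  source' := by simp
  target' := by simp

theorem mem_seg {lo hi a b : ℝ} (ha : a ∈ Set.Icc lo hi) (hb : b ∈ Set.Icc lo hi) (t : I) :
    (1 - (t : ℝ)) * a + (t : ℝ) * b ∈ Set.Icc lo hi := by
  have h0 := t.2.1
  have h1 := t.2.2
  constructor
  · nlinarith [ha.1, hb.1]
  · nlinarith [ha.2, hb.2]

theorem sp_trans {𝒦 : Set (Eu 3)} (P : ℝ → Eu 3) (hP : Continuous P) {a b d lo hi : ℝ}
    (h : ∀ x ∈ Set.Icc lo hi, P x ∉ 𝒦) (ha : a ∈ Set.Icc lo hi) (hb : b ∈ Set.Icc lo hi)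
    (hd : d ∈ Set.Icc lo hi) :
    (Path.Homotopic.Quotient.mk (inC (sp P hP a b) (fun t => h _ (mem_seg ha hb t)) (h a ha)
      (h b hb))).trans (Path.Homotopic.Quotient.mk (inC (sp P hP b d)
      (fun t => h _ (mem_seg hb hd t)) (h b hb) (h d hd))) =
    Path.Homotopic.Quotient.mk (inC (sp P hP a d) (fun t => h _ (mem_seg ha hd t)) (h a ha)
      (h d hd)) := by
  let m : C(Set.Icc lo hi, Cp 𝒦) := ⟨fun x => ⟨P x, h x x.2⟩, by
    refine Continuous.subtype_mk ?_ _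
    exact hP.comp continuous_subtype_val⟩
  let jp : ∀ (a b : ℝ) (ha : a ∈ Set.Icc lo hi) (hb : b ∈ Set.Icc lo hi),
      Path (⟨a, ha⟩ : Set.Icc lo hi) ⟨b, hb⟩ := fun a b ha hb =>
    { toFun := fun t => ⟨(1 - (t : ℝ)) * a + (t : ℝ) * b, mem_seg ha hb t⟩
      continuous_toFun := by
        refine Continuous.subtype_mk ?_ _
        fun_prop
      source' := by simp
      target' := by simp }
  have e : ∀ (a b : ℝ) (ha : a ∈ Set.Icc lo hi) (hb : b ∈ Set.Icc lo hi),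
      inC (sp P hP a b) (fun t => h _ (mem_seg ha hb t)) (h a ha) (h b hb) =
      (jp a b ha hb).map m.continuous := by
    intro a b ha hb
    rfl
  rw [e a b ha hb, e b d hb hd, e a d ha hd]
  have hc : ContractibleSpace (Set.Icc lo hi) :=
    (convex_Icc lo hi).contractibleSpace ⟨a, ha⟩
  have h1 : ((jp a b ha hb).trans (jp b d hb hd)).Homotopic (jp a d ha hd) :=
    SimplyConnectedSpace.paths_homotopic _ _
  have h2 := h1.map m
  have h3 : Path.Homotopic.Quotient.mk (((jp a b ha hb).trans (jp b d hb hd)).map m.continuous) =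
      Path.Homotopic.Quotient.mk ((jp a d ha hd).map m.continuous) :=
    Path.Homotopic.Quotient.eq.2 h2
  rw [Path.map_trans] at h3
  exact h3

theorem sp_refl {𝒦 : Set (Eu 3)} (P : ℝ → Eu 3) (hP : Continuous P) {a : ℝ}
    (h : ∀ t, sp P hP a a t ∉ 𝒦) (ha : P a ∉ 𝒦) :
    Path.Homotopic.Quotient.mk (inC (sp P hP a a) h ha ha) = Path.Homotopic.Quotient.refl _ := by
  rw [← Path.Homotopic.Quotient.mk_refl]
  congr 1
  refine Path.ext (funext fun t => Subtype.ext ?_)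
  show P ((1 - (t : ℝ)) * a + (t : ℝ) * a) = P a
  congr 1
  ring

theorem symm_trans' {C : Type} [TopologicalSpace C] {x y z : C} (p : Path.Homotopic.Quotient x y)
    (q : Path.Homotopic.Quotient y z) : (p.trans q).symm = q.symm.trans p.symm := by
  induction p using Path.Homotopic.Quotient.ind with
  | mk p =>
  induction q using Path.Homotopic.Quotient.ind with
  | mk q =>
  rw [← Path.Homotopic.Quotient.mk_trans, ← Path.Homotopic.Quotient.mk_symm,
    ← Path.Homotopic.Quotient.mk_symm, ← Path.Homotopic.Quotient.mk_symm,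
    ← Path.Homotopic.Quotient.mk_trans, Path.trans_symm]


variable {tp : ∀ p : Eu 3, ∀ h : KTop f p, Path.Homotopic.Quotient
        (⟨bb, bb_notin f⟩ : Cp (Set.range f.toFun)) ⟨p, h.nin⟩}
    {bp : ∀ p : Eu 3, ∀ h : KBot f p, Path.Homotopic.Quotient
        (⟨bb, bb_notin f⟩ : Cp (Set.range f.toFun)) ⟨p, h.nin⟩}
    {PL : ∀ _ _ : ℝ, KG f}

/-- a path class between two points, in terms of `PL` -/
theorem bot_step (hK : KTB f tp bp PL) {p q : Eu 3} (hp : KTop f p) (hp' : KBot f p)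
    (hq : KTop f q) (hq' : KBot f q) (δ : Path p q) (hδ : ∀ t, KBot f (δ t)) :
    (tp p hp).trans (Path.Homotopic.Quotient.mk (inC δ (fun t => (hδ t).nin) hp.nin hq.nin)) =
    (toQ ((PL (p 0) (p 1))⁻¹ * PL (q 0) (q 1))).trans (tp q hq) := by
  have e1 := hK.bot hp' hq' δ hδ
  have e2 := hK.pl hp hp'
  have e3 := hK.pl hq hq'
  rw [e2, e3]
  have e4 : toQ ((PG.of ((bp p hp').trans (tp p hp).symm))⁻¹ *
      PG.of ((bp q hq').trans (tp q hq).symm)) =
      (((bp p hp').trans (tp p hp).symm).symm).trans ((bp q hq').trans (tp q hq).symm) := rfl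
  rw [e4, symm_trans', ← e1]
  have e5 : ∀ {C : Type} [TopologicalSpace C] {x y : C} (p : Path.Homotopic.Quotient x y),
      p.symm.symm = p := by
    intro C _ x y p
    induction p using Path.Homotopic.Quotient.ind with
    | mk p => rw [← Path.Homotopic.Quotient.mk_symm, ← Path.Homotopic.Quotient.mk_symm,
        Path.symm_symm]
  rw [e5]
  simp only [Path.Homotopic.Quotient.trans_assoc]
  rw [Path.Homotopic.Quotient.symm_trans, Path.Homotopic.Quotient.trans_refl,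
    ← Path.Homotopic.Quotient.trans_assoc (bp p hp').symm, Path.Homotopic.Quotient.symm_trans,
    Path.Homotopic.Quotient.refl_trans]

theorem free_top {p : Eu 3} (h : Free f (p 0) (p 1)) : KTop f p := fun w _ => h w
theorem free_bot {p : Eu 3} (h : Free f (p 0) (p 1)) : KBot f p := fun w _ => h w

theorem sg_0 (a b : Eu 3) (t : I) (i : Fin 3) :
    (sg a b t) i = (1 - (t : ℝ)) * a i + (t : ℝ) * b i := rfl

/-- `PL` is constant on sets without points of the knot -/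
theorem pl_eq (hK : KTB f tp bp PL) {x y x' y' : ℝ}
    (h : ∀ t : I, Free f ((1 - (t : ℝ)) * x + (t : ℝ) * x') ((1 - (t : ℝ)) * y + (t : ℝ) * y')) :
    PL x y = PL x' y' := by
  have hp : Free f ((v3 x y 0) 0) ((v3 x y 0) 1) := by simpa using h 0
  have hq : Free f ((v3 x' y' 0) 0) ((v3 x' y' 0) 1) := by simpa using h 1
  have hδ : ∀ t, Free f ((sg (v3 x y 0) (v3 x' y' 0) t) 0) ((sg (v3 x y 0) (v3 x' y' 0) t) 1) :=
    fun t => h t
  have e1 := hK.bot (free_bot hp) (free_bot hq) _ (fun t => free_bot (hδ t))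
  have e2 := hK.top (free_top hp) (free_top hq) _ (fun t => free_top (hδ t))
  have e3 := hK.pl (free_top hp) (free_bot hp)
  have e4 := hK.pl (free_top hq) (free_bot hq)
  rw [v3_0, v3_1] at e3 e4
  rw [e3, e4, ← e1, ← e2, symm_trans', Path.Homotopic.Quotient.trans_assoc,
    ← Path.Homotopic.Quotient.trans_assoc (Path.Homotopic.Quotient.mk _),
    Path.Homotopic.Quotient.trans_symm, Path.Homotopic.Quotient.refl_trans]

/-- `PL` is trivial at a point connected to the base point without points of the knot -/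
theorem pl_one (hK : KTB f tp bp PL) {q : Eu 3} (hq : Free f (q 0) (q 1)) (δ : Path bb q)
    (hδ : ∀ t, Free f ((δ t) 0) ((δ t) 1)) : PL (q 0) (q 1) = 1 := by
  have e1 := hK.bot0 (free_bot hq) δ (fun t => free_bot (hδ t))
  have e2 := hK.top0 (free_top hq) δ (fun t => free_top (hδ t))
  rw [hK.pl (free_top hq) (free_bot hq), ← e1, ← e2]
  exact Path.Homotopic.Quotient.trans_symm _

end paths

/-! ### Geometry -/

section geo

/-- the parallel point at the time `τ` -/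
def Pp (g : GK) (c η τ : ℝ) : Eu 3 := v3 c 0 0 + g.be τ + η • g.ve τ

theorem Pp_0 (g : GK) (c η τ : ℝ) : Pp g c η τ 0 = c + g.gx (48 * τ) / 48 + η * g.ps (48 * τ) := rfl
theorem Pp_1 (g : GK) (c η τ : ℝ) :
    Pp g c η τ 1 = 0 + g.gy (48 * τ) / 48 + η * (1 - g.ps (48 * τ)) := rfl
theorem Pp_2 (g : GK) (c η τ : ℝ) : Pp g c η τ 2 = 0 + g.gz (48 * τ) / 48 + η * 0 := rfl

variable {g : GK} {ε c η : ℝ} {f : LongKnot 3}

theorem ps_bd (hF : GFacts g) (s : ℝ) : 0 ≤ g.ps s ∧ g.ps s ≤ 1 := by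
  have h1 := abs_le.1 (hF.gzc s)
  have h2 := hF.gc1 s
  unfold GK.ps
  constructor <;> linarith [h1.1, h1.2]

theorem ps_h (hF : GFacts g) (s : ℝ) (hz : g.gz s ≤ 0) : g.ps s ≤ 1 / 2 := by
  have h2 := hF.gc1 s
  unfold GK.ps
  linarith

theorem ps_v (hF : GFacts g) (s : ℝ) (hz : 0 < g.gz s) : 1 / 2 ≤ g.ps s := by
  have h2 := hF.gcz s hz
  unfold GK.ps
  linarith

theorem int_h (hF : GFacts g) (s : ℝ) (h : g.gz s ≤ 0) : ∃ m : ℤ, g.gy s = m := by
  cases hF.piece s with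
  | hl ht x y z => exact ⟨0, by rw [y]; simp⟩
  | v k hk h1 h2 x y z => linarith
  | h k hk h1 h2 x y z => exact ⟨_, y⟩
  | hr ht x y z => exact ⟨0, by rw [y]; simp⟩

theorem int_v (hF : GFacts g) (s : ℝ) (h : 0 < g.gz s) : ∃ m : ℤ, g.gx s = m := by
  cases hF.piece s with
  | hl ht x y z => linarith
  | v k hk h1 h2 x y z => exact ⟨_, x⟩
  | h k hk h1 h2 x y z => linarith
  | hr ht x y z => linarith

theorem not_int {m m' : ℤ} {u : ℝ} (h : (m : ℝ) = m' + u) (h0 : 0 < u) (h1 : u < 1) : False := by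
  have e1 : (m' : ℝ) < m := by linarith
  have e2 : (m : ℝ) < m' + 1 := by linarith
  have e3 : m' < m := by exact_mod_cast e1
  have e4 : m < m' + 1 := by exact_mod_cast e2
  omega

/-- the hypothesis on the knot in the slab -/
def Slab (g : GK) (f : LongKnot 3) (c : ℝ) : Prop :=
  ∀ p : Eu 3, |p 0 - c| ≤ 1 / 5 → (p ∈ Set.range f.toFun ↔ p - v3 c 0 0 ∈ Set.range g.be)

theorem Slab.mem (hf : Slab g f c) {p : Eu 3} (h0 : |p 0 - c| ≤ 1 / 5)
    (hp : p ∈ Set.range f.toFun) :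
    ∃ s, g.gx s = 48 * (p 0 - c) ∧ g.gy s = 48 * p 1 ∧ g.gz s = 48 * p 2 := by
  obtain ⟨τ, hτ⟩ := (hf p h0).1 hp
  refine ⟨48 * τ, ?_, ?_, ?_⟩
  · have : g.gx (48 * τ) / 48 = p 0 - c := congrArg (fun v : Eu 3 => v 0) hτ
    linarith
  · have : g.gy (48 * τ) / 48 = p 1 - 0 := congrArg (fun v : Eu 3 => v 1) hτ
    linarith
  · have : g.gz (48 * τ) / 48 = p 2 - 0 := congrArg (fun v : Eu 3 => v 2) hτ
    linarith

theorem Pp_x (hF : GFacts g) (hT : TubeF g ε) (hη : 0 < η) (hη1 : 48 * η < 1) {τ : ℝ}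
    (hτ : |τ| ≤ 1 / 5) : |Pp g c η τ 0 - c| ≤ 1 / 5 := by
  rcases le_total (1 / 6) |τ| with h | h
  · have e1 : g.gx (48 * τ) / 48 = τ := congrArg (fun v : Eu 3 => v 0) (hT.be_std τ h)
    have e2 : g.ps (48 * τ) = 0 := congrArg (fun v : Eu 3 => v 0) (hT.ve_std τ h)
    rw [Pp_0, e1, e2]
    have : c + τ + η * 0 - c = τ := by ring
    rw [this]
    exact hτ
  · have e1 : |g.gx (48 * τ) / 48| ≤ 1 / 6 := hT.be_0 τ h
    have e2 := ps_bd hF (48 * τ)
    rw [Pp_0]
    rw [abs_le] at e1 ⊢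
    constructor <;> nlinarith [e1.1, e1.2, e2.1, e2.2]

/-- horizontal pieces -/
theorem kbot (hF : GFacts g) (hT : TubeF g ε) (hη : 0 < η) (hη1 : 48 * η < 1)
    (hf : Slab g f c) {τ : ℝ} (hτ : |τ| ≤ 1 / 5) (hz : g.gz (48 * τ) ≤ 0) :
    KBot f (Pp g c η τ) := by
  intro w hw hK
  obtain ⟨s, h0, h1, h2⟩ := hf.mem (by rw [v3_0]; exact Pp_x hF hT hη hη1 hτ) hK
  rw [v3_2] at h2
  rw [v3_1, Pp_1] at h1
  rw [Pp_2] at hw
  obtain ⟨m, hm⟩ := int_h hF s (by linarith)
  obtain ⟨m', hm'⟩ := int_h hF (48 * τ) hz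
  have e1 := ps_bd hF (48 * τ)
  have e2 := ps_h hF (48 * τ) hz
  rw [hm, hm'] at h1
  refine not_int (m := m) (m' := m') (u := 48 * η * (1 - g.ps (48 * τ))) ?_ ?_ ?_
  · rw [h1]; ring
  · have : 0 < 1 - g.ps (48 * τ) := by linarith
    positivity
  · nlinarith [e1.1]

/-- vertical pieces -/
theorem ktop (hF : GFacts g) (hT : TubeF g ε) (hη : 0 < η) (hη1 : 48 * η < 1)
    (hf : Slab g f c) {τ : ℝ} (hτ : |τ| ≤ 1 / 5) (hz : 0 < g.gz (48 * τ)) :
    KTop f (Pp g c η τ) := by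
  intro w hw hK
  obtain ⟨s, h0, h1, h2⟩ := hf.mem (by rw [v3_0]; exact Pp_x hF hT hη hη1 hτ) hK
  rw [v3_2] at h2
  rw [v3_0, Pp_0] at h0
  rw [Pp_2] at hw
  obtain ⟨m, hm⟩ := int_v hF s (by linarith)
  obtain ⟨m', hm'⟩ := int_v hF (48 * τ) hz
  have e1 := ps_bd hF (48 * τ)
  have e2 := ps_v hF (48 * τ) hz
  rw [hm, hm'] at h0
  refine not_int (m := m) (m' := m') (u := 48 * η * g.ps (48 * τ)) ?_ ?_ ?_
  · rw [h0]; ring
  · have : 0 < g.ps (48 * τ) := by linarith
    positivity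
  · nlinarith [e1.2]

/-- inside a cell there are no points of the knot -/
theorem cell_free (hF : GFacts g) (hf : Slab g f c) {i j : ℤ} (hi : 0 ≤ i) (hi' : i ≤ 6)
    {x y : ℝ} (hx : (i : ℝ) < 48 * (x - c)) (hx' : 48 * (x - c) < i + 1)
    (hy : (j : ℝ) < 48 * y) (hy' : 48 * y < j + 1) : Free f x y := by
  intro w hK
  have hi1 : (0 : ℝ) ≤ i := by exact_mod_cast hi
  have hi2 : (i : ℝ) ≤ 6 := by exact_mod_cast hi'
  obtain ⟨s, h0, h1, h2⟩ := hf.mem (by
    rw [v3_0, abs_le]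
    constructor <;> linarith) hK
  rw [v3_0] at h0
  rw [v3_1] at h1
  rcases le_or_gt (g.gz s) 0 with hz | hz
  · obtain ⟨m, hm⟩ := int_h hF s hz
    rw [hm] at h1
    exact not_int (m := m) (m' := j) (u := 48 * y - j) (by rw [h1]; ring) (by linarith)
      (by linarith)
  · obtain ⟨m, hm⟩ := int_v hF s hz
    rw [hm] at h0
    exact not_int (m := m) (m' := i) (u := 48 * (x - c) - i) (by rw [h0]; ring) (by linarith)
      (by linarith)

/-! ### corners -/

theorem gz_corner (g : GK) (m : ℕ) : g.gz (-(g.n : ℝ) + m) = 0 := by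
  unfold GK.gz
  have : Real.sin (Real.pi * (-(g.n : ℝ) + m + g.n + 1)) = 0 := by
    rw [Real.sin_eq_zero_iff]
    exact ⟨(m : ℤ) + 1, by push_cast; ring⟩
  rw [this]
  simp

theorem gc_corner (g : GK) (m : ℕ) (hm : m + 1 ≤ 2 * g.n) : g.gc (-(g.n : ℝ) + m) = 1 := by
  unfold GK.gc
  have h1 : (m : ℝ) + 1 ≤ 2 * g.n := by exact_mod_cast hm
  have h0 : (0 : ℝ) ≤ m := by positivity
  rw [st_one (by linarith), st_one (by linarith), one_mul]

theorem ps_corner (g : GK) (m : ℕ) (hm : m + 1 ≤ 2 * g.n) : g.ps (-(g.n : ℝ) + m) = 1 / 2 := by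
  unfold GK.ps
  rw [gz_corner, gc_corner g m hm]
  norm_num

theorem even_corner (hF : GFacts g) (k : ℕ) (hk : k < g.n) :
    g.gx (-(g.n : ℝ) + (2 * k : ℕ)) = g.X k ∧ g.gy (-(g.n : ℝ) + (2 * k : ℕ)) = g.Y k := by
  have h3 := g.n3
  have hkr : (k : ℝ) + 1 ≤ g.n := by exact_mod_cast hk
  push_cast
  cases hF.piece (-(g.n : ℝ) + 2 * k) with
  | hl ht x y z =>
    have : (k : ℝ) ≤ 0 := by linarith
    have hk0 : k = 0 := by
      have : k ≤ 0 := by exact_mod_cast this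
      omega
    subst hk0
    rw [x, y, g.Y0]
    simp only [Nat.cast_zero, mul_zero, add_zero, neg_add_cancel, zero_add]
    rw [st_one le_rfl]
    simp
  | v k' hk' h1 h2 x y z =>
    exfalso
    have e1 : (k' : ℝ) < k := by linarith
    have e2 : (2 * k : ℝ) < 2 * k' + 1 := by linarith
    have e3 : k' < k := by exact_mod_cast e1
    have e4 : 2 * k < 2 * k' + 1 := by exact_mod_cast e2
    omega
  | h k' hk' h1 h2 x y z =>
    have e1 : (2 * k' + 1 : ℝ) ≤ 2 * k := by linarith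
    have e2 : (2 * k : ℝ) ≤ 2 * k' + 2 := by linarith
    have e3 : 2 * k' + 1 ≤ 2 * k := by exact_mod_cast e1
    have e4 : 2 * k ≤ 2 * k' + 2 := by exact_mod_cast e2
    have e5 : k = k' + 1 := by omega
    subst e5
    rw [x, y]
    refine ⟨?_, rfl⟩
    rw [st_one (by push_cast; linarith)]
    ring
  | hr ht x y z =>
    exfalso
    linarith

theorem odd_corner (hF : GFacts g) (k : ℕ) (hk : k < g.n) :
    g.gx (-(g.n : ℝ) + (2 * k + 1 : ℕ)) = g.X k ∧
      g.gy (-(g.n : ℝ) + (2 * k + 1 : ℕ)) = g.Y (k + 1) := by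
  have h3 := g.n3
  have hkr : (k : ℝ) + 1 ≤ g.n := by exact_mod_cast hk
  have hk0 : (0 : ℝ) ≤ k := by positivity
  push_cast
  cases hF.piece (-(g.n : ℝ) + (2 * k + 1)) with
  | hl ht x y z =>
    exfalso
    linarith
  | v k' hk' h1 h2 x y z =>
    exfalso
    have e1 : (2 * k' : ℝ) < 2 * k + 1 := by linarith
    have e2 : (2 * k + 1 : ℝ) < 2 * k' + 1 := by linarith
    have e3 : 2 * k' < 2 * k + 1 := by exact_mod_cast e1
    have e4 : 2 * k + 1 < 2 * k' + 1 := by exact_mod_cast e2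
    omega
  | h k' hk' h1 h2 x y z =>
    have e1 : (2 * k' + 1 : ℝ) ≤ 2 * k + 1 := by linarith
    have e2 : (2 * k + 1 : ℝ) ≤ 2 * k' + 2 := by linarith
    have e3 : 2 * k' + 1 ≤ 2 * k + 1 := by exact_mod_cast e1
    have e4 : 2 * k + 1 ≤ 2 * k' + 2 := by exact_mod_cast e2
    have e5 : k = k' := by omega
    subst e5
    rw [x, y]
    refine ⟨?_, rfl⟩
    rw [st_zero (by linarith)]
    ring
  | hr ht x y z =>
    have e1 : (2 * g.n : ℝ) ≤ 2 * k + 2 := by linarith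
    have e3 : 2 * g.n ≤ 2 * k + 2 := by exact_mod_cast e1
    have e5 : g.n = k + 1 := by omega
    have e6 : g.n - 1 = k := by omega
    rw [x, y, e6]
    have e7 : (g.n : ℝ) = k + 1 := by rw [e5]; push_cast; ring
    rw [st_zero (by linarith), ← e5, g.Yn]
    simp

theorem vert_pos (hF : GFacts g) (k : ℕ) (hk : k < g.n) (s : ℝ) (h1 : -(g.n : ℝ) + 2 * k < s)
    (h2 : s < -(g.n : ℝ) + 2 * k + 1) : 0 < g.gz s := by
  have hkr : (k : ℝ) + 1 ≤ g.n := by exact_mod_cast hk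
  have hk0 : (0 : ℝ) ≤ k := by positivity
  cases hF.piece s with
  | hl ht x y z =>
    exfalso
    linarith
  | v k' hk' h1' h2' x y z => exact z
  | h k' hk' h1' h2' x y z =>
    exfalso
    have e1 : (2 * k' + 1 : ℝ) < 2 * k + 1 := by linarith
    have e2 : (2 * k : ℝ) < 2 * k' + 2 := by linarith
    have e3 : 2 * k' + 1 < 2 * k + 1 := by exact_mod_cast e1
    have e4 : 2 * k < 2 * k' + 2 := by exact_mod_cast e2
    omega
  | hr ht x y z =>
    exfalso
    linarith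

theorem hor_nonpos (hF : GFacts g) (k : ℕ) (s : ℝ) (h1 : -(g.n : ℝ) + 2 * k + 1 ≤ s)
    (h2 : s ≤ -(g.n : ℝ) + 2 * k + 2) : g.gz s ≤ 0 := by
  have hk0 : (0 : ℝ) ≤ k := by positivity
  cases hF.piece s with
  | hl ht x y z => exact z
  | v k' hk' h1' h2' x y z =>
    exfalso
    have e1 : (2 * k' : ℝ) < 2 * k + 2 := by linarith
    have e2 : (2 * k + 1 : ℝ) < 2 * k' + 1 := by linarith
    have e3 : 2 * k' < 2 * k + 2 := by exact_mod_cast e1
    have e4 : 2 * k + 1 < 2 * k' + 1 := by exact_mod_cast e2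
    omega
  | h k' hk' h1' h2' x y z => exact z
  | hr ht x y z => exact z

theorem left_nonpos (hF : GFacts g) (s : ℝ) (h1 : s ≤ -(g.n : ℝ)) : g.gz s ≤ 0 := by
  cases hF.piece s with
  | hl ht x y z => exact z
  | v k' hk' h1' h2' x y z =>
    exfalso
    have hk0 : (0 : ℝ) ≤ k' := by positivity
    linarith
  | h k' hk' h1' h2' x y z => exact z
  | hr ht x y z => exact z

theorem right_nonpos (hF : GFacts g) (s : ℝ) (h1 : (g.n : ℝ) - 1 ≤ s) : g.gz s ≤ 0 := by
  cases hF.piece s with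
  | hl ht x y z => exact z
  | v k' hk' h1' h2' x y z =>
    exfalso
    have hkr : (k' : ℝ) + 1 ≤ g.n := by exact_mod_cast hk'
    linarith
  | h k' hk' h1' h2' x y z => exact z
  | hr ht x y z => exact z

end geo

section geo2

variable {g : GK} {ε c η : ℝ} {f : LongKnot 3}
variable {tp : ∀ p : Eu 3, ∀ h : KTop f p, Path.Homotopic.Quotient
        (⟨bb, bb_notin f⟩ : Cp (Set.range f.toFun)) ⟨p, h.nin⟩}
    {bp : ∀ p : Eu 3, ∀ h : KBot f p, Path.Homotopic.Quotient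
        (⟨bb, bb_notin f⟩ : Cp (Set.range f.toFun)) ⟨p, h.nin⟩}
    {PL : ∀ _ _ : ℝ, KG f}

/-- the time of the corner number `m` -/
def ctm (g : GK) (m : ℕ) : ℝ := (-(g.n : ℝ) + m) / 48

theorem ctm_48 (g : GK) (m : ℕ) : 48 * ctm g m = -(g.n : ℝ) + m := by
  unfold ctm
  ring

theorem ctm_le (g : GK) (m : ℕ) (hm : m + 1 ≤ 2 * g.n) : |ctm g m| ≤ 1 / 6 := by
  have h1 : (m : ℝ) + 1 ≤ 2 * g.n := by exact_mod_cast hm
  have h0 : (0 : ℝ) ≤ m := by positivity
  have h7 : (g.n : ℝ) ≤ 7 := by exact_mod_cast g.n7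
  have h48 := ctm_48 g m
  rw [abs_le]
  constructor <;> linarith

theorem corner_cell (hF : GFacts g) (hη : 0 < η) (hη1 : 48 * η < 1)
    (hf : Slab g f c) (hK : KTB f tp bp PL) (m : ℕ) (hm : m + 1 ≤ 2 * g.n) {i j : ℤ} (hi : 0 ≤ i)
    (hi' : i ≤ 6) (hx : g.gx (-(g.n : ℝ) + m) = i) (hy : g.gy (-(g.n : ℝ) + m) = j) :
    Free f (Pp g c η (ctm g m) 0) (Pp g c η (ctm g m) 1) ∧
      PL (Pp g c η (ctm g m) 0) (Pp g c η (ctm g m) 1) =
        PL (c + (i + 1 / 2) / 48) ((j + 1 / 2) / 48) := by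
  rw [Pp_0, Pp_1, ctm_48, ps_corner g m hm, hx, hy]
  constructor
  · apply cell_free hF hf hi hi' (j := j)
    · linarith
    · linarith
    · linarith
    · linarith
  · apply pl_eq hK
    intro t
    have h0 := t.2.1
    have h1 := t.2.2
    have e1 : 48 * ((1 - (t : ℝ)) * (c + i / 48 + η * (1 / 2)) +
        (t : ℝ) * (c + (i + 1 / 2) / 48) - c) = i + ((1 - (t : ℝ)) * (24 * η) + t * (1 / 2)) := by
      ring
    have e2 : 48 * ((1 - (t : ℝ)) * (0 + j / 48 + η * (1 - 1 / 2)) +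
        (t : ℝ) * ((j + 1 / 2) / 48)) = j + ((1 - (t : ℝ)) * (24 * η) + t * (1 / 2)) := by
      ring
    have e3 : 0 < (1 - (t : ℝ)) * (24 * η) + t * (1 / 2) := by
      rcases h0.eq_or_lt with h | h
      · rw [← h]; linarith
      · have : 0 ≤ (1 - (t : ℝ)) * (24 * η) := by
          apply mul_nonneg <;> linarith
        linarith
    have e4 : (1 - (t : ℝ)) * (24 * η) + t * (1 / 2) < 1 := by
      have : (1 - (t : ℝ)) * (24 * η) ≤ 1 - t := by
        have h3 : 24 * η ≤ 1 := by linarith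
        have h4 : 0 ≤ 1 - (t : ℝ) := by linarith
        nlinarith
      rcases h0.eq_or_lt with h | h
      · rw [← h]; linarith
      · linarith
    apply cell_free hF hf hi hi' (j := j)
    · rw [e1]; linarith
    · rw [e1]; linarith
    · rw [e2]; linarith
    · rw [e2]; linarith

theorem free_high (f : LongKnot 3) {x y : ℝ} (hy : 1 < y) : Free f x y := by
  rintro w ⟨t, ht⟩
  rcases le_total 1 |t| with h | h
  · rw [f.standard t h, axis_eq] at ht
    have := congrArg (fun v : Eu 3 => v 1) ht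
    simp only [v3_1] at this
    linarith
  · have h1 := f.ball t h
    rw [ht, mem_closedBall_zero_iff] at h1
    have h2 := normsq3 (v3 x y w)
    simp only [v3_0, v3_1, v3_2] at h2
    nlinarith [norm_nonneg (v3 x y w), sq_nonneg x, sq_nonneg w]

theorem free_end (hT : TubeF g ε) (hf : Slab g f c) {e : ℝ} (he : |e| = 1 / 5) {y : ℝ}
    (hy : 0 < y) : Free f (c + e) y := by
  intro w hK
  have h0 : |(v3 (c + e) y w) 0 - c| ≤ 1 / 5 := by
    rw [v3_0, add_sub_cancel_left, he]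
  obtain ⟨τ, hτ⟩ := (hf _ h0).1 hK
  rcases le_total (1 / 6) |τ| with h | h
  · rw [hT.be_std τ h] at hτ
    have : (0 : ℝ) = y - 0 := congrArg (fun v : Eu 3 => v 1) hτ
    linarith
  · have h1 := hT.be_0 τ h
    rw [hτ] at h1
    have e1 : ((v3 (c + e) y w) - v3 c 0 0) 0 = e := by
      show c + e - c = e
      ring
    rw [e1, he] at h1
    norm_num at h1

theorem Pp_end (hT : TubeF g ε) {e : ℝ} (he : |e| = 1 / 5) :
    Pp g c η e 0 = c + e ∧ Pp g c η e 1 = η := by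
  unfold Pp
  rw [hT.be_std e (by rw [he]; norm_num), hT.ve_std e (by rw [he]; norm_num)]
  constructor <;> simp

theorem pl_end (hT : TubeF g ε) (hη : 0 < η) (hf : Slab g f c) (hK : KTB f tp bp PL) {e : ℝ}
    (he : |e| = 1 / 5) : Free f (Pp g c η e 0) (Pp g c η e 1) ∧
      PL (Pp g c η e 0) (Pp g c η e 1) = 1 := by
  obtain ⟨e0, e1⟩ := Pp_end (c := c) (η := η) hT he
  have hfr : Free f (Pp g c η e 0) (Pp g c η e 1) := by
    rw [e0, e1]
    exact free_end hT hf he hη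
  refine ⟨hfr, ?_⟩
  refine pl_one hK (q := Pp g c η e) hfr ((sg bb (v3 (c + e) 3 0)).trans
    (sg (v3 (c + e) 3 0) (Pp g c η e))) ?_
  intro t
  rw [Path.trans_apply]
  split_ifs with h
  · apply free_high
    rw [sg_0]
    simp only [bb, v3_1]
    linarith
  · rw [sg_0, sg_0, e0, e1]
    simp only [v3_0, v3_1]
    have h1 := t.2.2
    push Not at h
    have e2 : ∀ u : ℝ, (1 - u) * (c + e) + u * (c + e) = c + e := fun u => by ring
    rw [e2]
    apply free_end hT hf he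
    have h3 : (0 : ℝ) ≤ 1 - (2 * (t : ℝ) - 1) := by linarith
    have h4 : (0 : ℝ) < 2 * (t : ℝ) - 1 := by linarith
    have h5 : 0 < (2 * (t : ℝ) - 1) * η := mul_pos h4 hη
    have h6 : 0 ≤ (1 - (2 * (t : ℝ) - 1)) * 3 := by positivity
    linarith

end geo2

section asm

variable {g : GK} {ε c η : ℝ} {f : LongKnot 3}
variable {tp : ∀ p : Eu 3, ∀ h : KTop f p, Path.Homotopic.Quotient
        (⟨bb, bb_notin f⟩ : Cp (Set.range f.toFun)) ⟨p, h.nin⟩}
    {bp : ∀ p : Eu 3, ∀ h : KBot f p, Path.Homotopic.Quotient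
        (⟨bb, bb_notin f⟩ : Cp (Set.range f.toFun)) ⟨p, h.nin⟩}
    {PL : ∀ _ _ : ℝ, KG f}

/-- the state after the time `a` -/
def St (f : LongKnot 3) (tp : ∀ p : Eu 3, ∀ h : KTop f p, Path.Homotopic.Quotient
        (⟨bb, bb_notin f⟩ : Cp (Set.range f.toFun)) ⟨p, h.nin⟩) (P : ℝ → Eu 3)
    (hP : Continuous P) (lo hi : ℝ) (hn : ∀ x ∈ Set.Icc lo hi, P x ∉ Set.range f.toFun)
    (hlo : lo ∈ Set.Icc lo hi) (h0 : KTop f (P lo)) (a : ℝ) (x : KG f) : Prop :=
  ∃ (ha : a ∈ Set.Icc lo hi) (h : KTop f (P a)),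
    (tp _ h0).trans (Path.Homotopic.Quotient.mk (inC (sp P hP lo a)
      (fun t => hn _ (mem_seg hlo ha t)) h0.nin h.nin)) = (toQ x).trans (tp (P a) h)

variable {P : ℝ → Eu 3} {hP : Continuous P} {lo hi : ℝ}
    {hn : ∀ x ∈ Set.Icc lo hi, P x ∉ Set.range f.toFun}
    {hlo : lo ∈ Set.Icc lo hi} {h0 : KTop f (P lo)}

theorem St_start : St f tp P hP lo hi hn hlo h0 lo 1 := by
  refine ⟨hlo, h0, ?_⟩
  rw [sp_refl, Path.Homotopic.Quotient.trans_refl]
  exact (Path.Homotopic.Quotient.refl_trans _).symm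

theorem St_top (hK : KTB f tp bp PL) {a b : ℝ} {x : KG f} (hab : a ≤ b) (hb : b ≤ hi)
    (h : St f tp P hP lo hi hn hlo h0 a x) (ht : ∀ τ ∈ Set.Icc a b, KTop f (P τ)) :
    St f tp P hP lo hi hn hlo h0 b x := by
  obtain ⟨ha, hta, e⟩ := h
  have hb' : b ∈ Set.Icc lo hi := ⟨ha.1.trans hab, hb⟩
  have htb := ht b (Set.right_mem_Icc.2 hab)
  refine ⟨hb', htb, ?_⟩
  have e1 := sp_trans P hP hn hlo ha hb'
  have e2 := hK.top hta htb (sp P hP a b) (fun t => ht _ (mem_seg (Set.left_mem_Icc.2 hab)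
    (Set.right_mem_Icc.2 hab) t))
  have e3 : (tp _ h0).trans ((Path.Homotopic.Quotient.mk (inC (sp P hP lo a)
      (fun t => hn _ (mem_seg hlo ha t)) h0.nin hta.nin)).trans
      (Path.Homotopic.Quotient.mk (inC (sp P hP a b)
      (fun t => hn _ (mem_seg ha hb' t)) hta.nin htb.nin))) = (toQ x).trans (tp (P b) htb) := by
    rw [← Path.Homotopic.Quotient.trans_assoc, e, Path.Homotopic.Quotient.trans_assoc]
    congr 1
  rw [← e3]
  congr 1
  exact e1.symm

theorem St_bot (hK : KTB f tp bp PL) {a b : ℝ} {x y z : KG f} (hab : a ≤ b) (hb : b ≤ hi)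
    (h : St f tp P hP lo hi hn hlo h0 a x) (ht : ∀ τ ∈ Set.Icc a b, KBot f (P τ))
    (htb : KTop f (P b)) (hy : PL (P a 0) (P a 1) = y) (hz : PL (P b 0) (P b 1) = z) :
    St f tp P hP lo hi hn hlo h0 b (x * (y⁻¹ * z)) := by
  obtain ⟨ha, hta, e⟩ := h
  have hb' : b ∈ Set.Icc lo hi := ⟨ha.1.trans hab, hb⟩
  have hba := ht a (Set.left_mem_Icc.2 hab)
  have hbb := ht b (Set.right_mem_Icc.2 hab)
  refine ⟨hb', htb, ?_⟩
  have e1 := sp_trans P hP hn hlo ha hb'
  have e2 := bot_step hK hta hba htb hbb (sp P hP a b) (fun t => ht _ (mem_seg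
    (Set.left_mem_Icc.2 hab) (Set.right_mem_Icc.2 hab) t))
  rw [hy, hz] at e2
  have e3 : (tp _ h0).trans ((Path.Homotopic.Quotient.mk (inC (sp P hP lo a)
      (fun t => hn _ (mem_seg hlo ha t)) h0.nin hta.nin)).trans
      (Path.Homotopic.Quotient.mk (inC (sp P hP a b)
      (fun t => hn _ (mem_seg ha hb' t)) hta.nin htb.nin))) =
      (toQ (x * (y⁻¹ * z))).trans (tp (P b) htb) := by
    rw [← Path.Homotopic.Quotient.trans_assoc, e, Path.Homotopic.Quotient.trans_assoc]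
    have e4 : toQ (x * (y⁻¹ * z)) = (toQ x).trans (toQ (y⁻¹ * z)) := rfl
    rw [e4, Path.Homotopic.Quotient.trans_assoc]
    congr 1
  rw [← e3]
  congr 1
  exact e1.symm

end asm
/-
PROOF IDEA (TARGET).  Let `K` be the knot `f`.  In the slab `|p 0 - c| ≤ 1/5` its points are those
of the grid knot, shifted by `c`: `p ∈ K` iff `T (48 (p 0 - c)) (48 p 1) (48 p 2)`.
Write `τ = -(1/5) + (2/5) t` and `s = 48 τ` for the time of the grid knot; `ve τ = (ps s, 1 - ps s, 0)`,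
`ps s = (gc s + gz s) / 2`.  The parallel point `P(s)` has (relative to `c`, scaled by 48) coordinates
`(gx s + 48 η ps s, gy s + 48 η (1 - ps s), gz s)`.  By `gzc`, `gc1`: `0 ≤ ps ≤ 1`.
 * On a horizontal piece (`gz ≤ 0`): `ps ≤ 1/2`, the second coordinate is an integer plus
   `48 η (1 - ps) ∈ [24 η, 48 η] ⊂ (0, 1)`, not an integer, and `z ≤ 0`; so there is no point of `K` at or
   below `P(s)`: such a point would have `z ≤ 0`, so it would be on a horizontal piece (second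
   coordinate an integer).  So `KBot`.
 * On a vertical piece (`gz > 0`, `gc = 1`): `ps ≥ 1/2`, the first coordinate is an integer plus
   `48 η ps ∈ [24 η, 48 η]`: no point of `K` with `z > 0` over it, so `KTop`.
 * At the corners (`s = -n + m`, `m = 0, ..., 2n - 1`): `gz = 0`, `gc = 1`, `ps = 1/2`; both coordinates
   are integers plus `24 η`, so the point is `KTop` and `KBot`, and by a straight segment inside the
   open cell, `PL` of this point is `PL` of the center of the cell (corners, in order: cells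
   `(X 0, 0), (X 0, Y 1), (X 1, Y 1), (X 1, Y 2), ..., (X (n-1), Y (n-1)), (X (n-1), 0)`).
 * All the points have `|first coordinate - c| ≤ 1/5`: for `|τ| ≤ 1/6` it is at most `1/6 + η`
   (`be_0`), for `|τ| ≥ 1/6` we have `ps = 0`.
 * The end points of the path are `(c ± 1/5, η, 0)`, with nothing of `K` over them; the straight path
   from `bb = (0,3,0)` to `(c ± 1/5, 3, 0)` and then to the end point consists of points which are
   `KTop` and `KBot` (the knot has `y ≤ 1` everywhere, and in the slab at `|p 0 - c| = 1/5` only the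
   axis), so `tp = bp` for the end points, i.e. `PL = 1`.
So the path `parl` is a composition of `2 n + 1` pieces, alternately `KBot` (the first and the last
one) and `KTop`; using `bp p = PL p * tp p`, i.e.
`tp p * [δ] = (PL p)⁻¹ * PL q * tp q` for a `KBot` path `δ` from `p` to `q` (both ends `KTop` and `KBot`),
and `tp p * [δ] = tp q` for a `KTop` path, the product is `lam g (labels of the cells) * tp (end)`.
-/
theorem parallel (g : GK) {ε : ℝ} (hF : GFacts g) (hT : TubeF g ε) (f : LongKnot 3)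
    {tp : ∀ p : Eu 3, ∀ h : KTop f p, Path.Homotopic.Quotient
        (⟨bb, bb_notin f⟩ : Cp (Set.range f.toFun)) ⟨p, h.nin⟩}
    {bp : ∀ p : Eu 3, ∀ h : KBot f p, Path.Homotopic.Quotient
        (⟨bb, bb_notin f⟩ : Cp (Set.range f.toFun)) ⟨p, h.nin⟩}
    {PL : ∀ _ _ : ℝ, KG f} (hK : KTB f tp bp PL) (c η : ℝ) (hη : 0 < η) (hη1 : 48 * η < 1)
    (hf : ∀ p : Eu 3, |p 0 - c| ≤ 1 / 5 → (p ∈ Set.range f.toFun ↔ p - v3 c 0 0 ∈ Set.range g.be))
    (ha : KTop f (v3 c 0 0 + g.be (-(1 / 5)) + η • g.ve (-(1 / 5))))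
    (hb : KTop f (v3 c 0 0 + g.be (1 / 5) + η • g.ve (1 / 5)))
    (hp : ∀ t, parl g hT.sb.continuous hT.sv.continuous c η t ∉ Set.range f.toFun) :
    (tp _ ha).trans (Path.Homotopic.Quotient.mk
      (inC (parl g hT.sb.continuous hT.sv.continuous c η) hp ha.nin hb.nin)) =
    (toQ (lam (G := KG f) g (fun i j => PL (c + (i + 1 / 2) / 48) ((j + 1 / 2) / 48)))).trans
      (tp _ hb) := by
  have hbe := hT.sb.continuous
  have hve := hT.sv.continuous
  have hP : Continuous (Pp g c η) := by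
    unfold Pp
    fun_prop
  have hsl : Slab g f c := hf
  have hab : ∀ {τ : ℝ}, τ ∈ Set.Icc (-(1 / 5) : ℝ) (1 / 5) → |τ| ≤ 1 / 5 := fun h => abs_le.2 h
  have hn : ∀ x ∈ Set.Icc (-(1 / 5) : ℝ) (1 / 5), Pp g c η x ∉ Set.range f.toFun := by
    intro x hx
    have h1 : 5 / 2 * (x + 1 / 5) ∈ Set.Icc (0 : ℝ) 1 := ⟨by linarith [hx.1], by linarith [hx.2]⟩
    have h2 := hp ⟨_, h1⟩
    have h3 : parl g hT.sb.continuous hT.sv.continuous c η ⟨_, h1⟩ = Pp g c η x := by
      show v3 c 0 0 + g.be (-(1 / 5) + 2 / 5 * (5 / 2 * (x + 1 / 5))) +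
        η • g.ve (-(1 / 5) + 2 / 5 * (5 / 2 * (x + 1 / 5))) = _
      have : -(1 / 5) + 2 / 5 * (5 / 2 * (x + 1 / 5)) = x := by ring
      rw [this]
      rfl
    rwa [h3] at h2
  have hlo : (-(1 / 5) : ℝ) ∈ Set.Icc (-(1 / 5) : ℝ) (1 / 5) := by constructor <;> norm_num
  have h3n := g.n3
  have h7n := g.n7
  have h3r : (3 : ℝ) ≤ g.n := by exact_mod_cast h3n
  have h7r : (g.n : ℝ) ≤ 7 := by exact_mod_cast h7n
  -- ends
  have E1 := pl_end (e := -(1 / 5)) hT hη hsl hK (by rw [abs_neg]; norm_num)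
  have E2 := pl_end (e := 1 / 5) hT hη hsl hK (by rw [abs_of_pos] <;> norm_num)
  -- corners
  have Cev : ∀ k, k < g.n → Free f (Pp g c η (ctm g (2 * k)) 0) (Pp g c η (ctm g (2 * k)) 1) ∧
      PL (Pp g c η (ctm g (2 * k)) 0) (Pp g c η (ctm g (2 * k)) 1) =
        PL (c + (g.X k + 1 / 2) / 48) ((g.Y k + 1 / 2) / 48) := by
    intro k hk
    obtain ⟨e1, e2⟩ := even_corner hF k hk
    have h1 := (g.Xr k hk)
    exact corner_cell hF hη hη1 hsl hK (2 * k) (by omega) h1.1 (by omega) e1 e2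
  have Cod : ∀ k, k < g.n → Free f (Pp g c η (ctm g (2 * k + 1)) 0)
      (Pp g c η (ctm g (2 * k + 1)) 1) ∧
      PL (Pp g c η (ctm g (2 * k + 1)) 0) (Pp g c η (ctm g (2 * k + 1)) 1) =
        PL (c + (g.X k + 1 / 2) / 48) ((g.Y (k + 1) + 1 / 2) / 48) := by
    intro k hk
    obtain ⟨e1, e2⟩ := odd_corner hF k hk
    have h1 := (g.Xr k hk)
    exact corner_cell hF hη hη1 hsl hK (2 * k + 1) (by omega) h1.1 (by omega) e1 e2
  have hct : ∀ m, m + 1 ≤ 2 * g.n → ctm g m ∈ Set.Icc (-(1 / 5) : ℝ) (1 / 5) := by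
    intro m hm
    have := abs_le.1 (ctm_le g m hm)
    constructor <;> linarith [this.1, this.2]
  have hmono : ∀ m, ctm g m ≤ ctm g (m + 1) := by
    intro m
    unfold ctm
    push_cast
    linarith
  -- vertical pieces
  have Vt : ∀ k, k < g.n → ∀ τ ∈ Set.Icc (ctm g (2 * k)) (ctm g (2 * k + 1)),
      KTop f (Pp g c η τ) := by
    intro k hk τ hτ
    rcases hτ.1.eq_or_lt with h1 | h1
    · rw [← h1]
      exact free_top (Cev k hk).1
    rcases hτ.2.eq_or_lt with h2 | h2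
    · rw [h2]
      exact free_top (Cod k hk).1
    have h3 := hct (2 * k) (by omega)
    have h4 := hct (2 * k + 1) (by omega)
    refine ktop hF hT hη hη1 hsl (abs_le.2 ⟨by linarith [h3.1], by linarith [h4.2]⟩) ?_
    have h5 := ctm_48 g (2 * k)
    have h6 := ctm_48 g (2 * k + 1)
    push_cast at h5 h6
    exact vert_pos hF k hk _ (by linarith) (by linarith)
  -- horizontal pieces
  have Ht : ∀ k, k + 1 < g.n → ∀ τ ∈ Set.Icc (ctm g (2 * k + 1)) (ctm g (2 * k + 2)),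
      KBot f (Pp g c η τ) := by
    intro k hk τ hτ
    have h3 := hct (2 * k + 1) (by omega)
    have h4 := hct (2 * k + 2) (by omega)
    refine kbot hF hT hη hη1 hsl (abs_le.2 ⟨by linarith [h3.1, hτ.1], by linarith [h4.2, hτ.2]⟩) ?_
    have h5 := ctm_48 g (2 * k + 1)
    have h6 := ctm_48 g (2 * k + 2)
    push_cast at h5 h6
    exact hor_nonpos hF k _ (by linarith [hτ.1]) (by linarith [hτ.2])
  have Hl : ∀ τ ∈ Set.Icc (-(1 / 5) : ℝ) (ctm g 0), KBot f (Pp g c η τ) := by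
    intro τ hτ
    have h4 := hct 0 (by omega)
    refine kbot hF hT hη hη1 hsl (abs_le.2 ⟨hτ.1, by linarith [h4.2, hτ.2]⟩) ?_
    have h5 := ctm_48 g 0
    push_cast at h5
    exact left_nonpos hF _ (by linarith [hτ.2])
  have Hr : ∀ τ ∈ Set.Icc (ctm g (2 * (g.n - 1) + 1)) (1 / 5 : ℝ), KBot f (Pp g c η τ) := by
    intro τ hτ
    have h4 := hct (2 * (g.n - 1) + 1) (by omega)
    refine kbot hF hT hη hη1 hsl (abs_le.2 ⟨by linarith [h4.1, hτ.1], hτ.2⟩) ?_
    have h5 := ctm_48 g (2 * (g.n - 1) + 1)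
    have h6 : ((2 * (g.n - 1) + 1 : ℕ) : ℝ) = 2 * g.n - 1 := by
      have : 2 * (g.n - 1) + 1 = 2 * g.n - 1 := by omega
      rw [this, Nat.cast_sub (by omega)]
      push_cast
      ring
    rw [h6] at h5
    exact right_nonpos hF _ (by linarith [hτ.1])
  -- assembly
  obtain ⟨L, hL⟩ : ∃ L : ℤ → ℤ → KG f,
      L = fun i j : ℤ => PL (c + ((i : ℝ) + 1 / 2) / 48) (((j : ℝ) + 1 / 2) / 48) := ⟨_, rfl⟩
  have Lev : ∀ k, k < g.n → PL (Pp g c η (ctm g (2 * k)) 0) (Pp g c η (ctm g (2 * k)) 1) =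
      L (g.X k) (g.Y k) := fun k hk => by rw [hL]; exact (Cev k hk).2
  have Lod : ∀ k, k < g.n → PL (Pp g c η (ctm g (2 * k + 1)) 0)
      (Pp g c η (ctm g (2 * k + 1)) 1) = L (g.X k) (g.Y (k + 1)) :=
    fun k hk => by rw [hL]; exact (Cod k hk).2
  have hall : ∀ k, k < g.n → St f tp (Pp g c η) hP (-(1 / 5)) (1 / 5) hn hlo ha (ctm g (2 * k))
      (L (g.X 0) 0 * ((List.range k).map fun k =>
        (L (g.X k) (g.Y (k + 1)))⁻¹ * L (g.X (k + 1)) (g.Y (k + 1))).prod) := by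
    intro k
    induction k with
    | zero =>
      intro hk
      have h1 := St_bot (hP := hP) (hn := hn) (hlo := hlo) (h0 := ha) hK (hct 0 (by omega)).1
        (hct 0 (by omega)).2 St_start Hl (free_top (Cev 0 hk).1) E1.2 (Lev 0 hk)
      rw [g.Y0] at h1
      simpa using h1
    | succ k ih =>
      intro hk
      have h1 := ih (by omega)
      have h2 := St_top hK (hmono (2 * k)) (hct (2 * k + 1) (by omega)).2 h1 (Vt k (by omega))
      have h3 := St_bot hK (hmono (2 * k + 1)) (hct (2 * k + 2) (by omega)).2 h2 (Ht k hk)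
        (free_top (Cev (k + 1) hk).1) (Lod k (by omega)) (Lev (k + 1) hk)
      have h4 : 2 * k + 1 + 1 = 2 * (k + 1) := by ring
      rw [h4] at h3
      rw [List.range_succ, List.map_append, List.prod_append]
      simpa [mul_assoc] using h3
  have h1 := hall (g.n - 1) (by omega)
  have h2 := St_top hK (hmono (2 * (g.n - 1))) (hct (2 * (g.n - 1) + 1) (by omega)).2 h1
    (Vt (g.n - 1) (by omega))
  have h3 := St_bot hK (hct (2 * (g.n - 1) + 1) (by omega)).2 le_rfl h2 Hr hb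
    (Lod (g.n - 1) (by omega)) E2.2
  obtain ⟨h5, h6, h7⟩ := h3
  have h8 : g.n - 1 + 1 = g.n := by omega
  have h9 : lam g L = L (g.X 0) 0 * ((List.range (g.n - 1)).map fun k =>
        (L (g.X k) (g.Y (k + 1)))⁻¹ * L (g.X (k + 1)) (g.Y (k + 1))).prod *
        ((L (g.X (g.n - 1)) (g.Y (g.n - 1 + 1)))⁻¹ * 1) := by
    rw [h8, g.Yn, mul_one]
    rfl
  rw [← hL, h9]
  refine Eq.trans ?_ h7
  have hpath : inC (parl g hT.sb.continuous hT.sv.continuous c η) hp ha.nin hb.nin =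
      inC (sp (Pp g c η) hP (-(1 / 5)) (1 / 5)) (fun t => hn _ (mem_seg hlo h5 t)) ha.nin h6.nin := by
    refine Path.ext (funext fun t => Subtype.ext ?_)
    show v3 c 0 0 + g.be (-(1 / 5) + 2 / 5 * (t : ℝ)) + η • g.ve (-(1 / 5) + 2 / 5 * (t : ℝ)) =
      v3 c 0 0 + g.be ((1 - (t : ℝ)) * (-(1 / 5)) + t * (1 / 5)) +
        η • g.ve ((1 - (t : ℝ)) * (-(1 / 5)) + t * (1 / 5))
    have e : (1 - (t : ℝ)) * (-(1 / 5)) + t * (1 / 5) = -(1 / 5) + 2 / 5 * (t : ℝ) := by ring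
    rw [e]
  exact congrArg (fun q => (tp _ ha).trans (Path.Homotopic.Quotient.mk q)) hpath


end Pool.Agent.H414_LQ
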