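import Pool.Agent.H414_LQ.Final
import Pool.Agent.H414_LK.Local

/-!
# Integral and rational retracts
-/

set_option autoImplicit false

open CategoryTheory
open scoped unitInterval

noncomputable section

namespace Pool.Agent.H414_LQ

open Pool.Agent.H414_LK

/-- The map induces isomorphisms of all singular homology groups with rational coefficients. -/
def RatHomIso {A B : TopCat.{0}} (f : A ⟶ B) : Prop :=
  ∀ n : ℕ, IsIso (((AlgebraicTopology.singularHomologyFunctor (ModuleCat.{0} ℚ) n).obj
    (ModuleCat.of ℚ ℚ)).map f)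

/-- `X` is not a retract of `T`, neither integrally nor rationally. -/
structure NoRetract (X T : Type) [TopologicalSpace X] [TopologicalSpace T] : Prop where
  /-- `X` is not a retract of `T` up to homotopy. -/
  integral : ¬ IsHRetract X T
  /-- `X` is not a retract of `T` in a category obtained from the category of topological spaces by
  inverting rational homology isomorphisms: all of them (this is the rational homotopy category),
  or some of them. -/
  rational : ∀ W : MorphismProperty TopCat.{0},
    (∀ ⦃A B : TopCat.{0}⦄ (f : A ⟶ B), W f → RatHomIso f) →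
      IsEmpty (Retract (W.Q.obj (TopCat.of X)) (W.Q.obj (TopCat.of T)))
  /-- If `X → X'` and `T → T'` are rational homology isomorphisms (for instance rationalisations),
  then `X'` is not a retract of `T'` up to homotopy. -/
  rationalisations : ∀ (X' T' : Type) [TopologicalSpace X'] [TopologicalSpace T'] (e : C(X, X'))
    (e' : C(T, T')), RatHomIso (TopCat.ofHom e) → RatHomIso (TopCat.ofHom e') → ¬ IsHRetract X' T'
  /-- `X` is not a retract of `T` in a category obtained from the category of topological spaces by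
  inverting maps that induce bijections on path components and on fundamental groups. -/
  onetype : ∀ W : MorphismProperty TopCat.{0},
    (∀ {A B : TopCat.{0}} (f : A ⟶ B), W f → OneTypeEquiv f) →
      IsEmpty (Retract (W.Q.obj (TopCat.of X)) (W.Q.obj (TopCat.of T)))

theorem ratHomIso_id (A : TopCat.{0}) : RatHomIso (𝟙 A) := by
  intro n
  rw [CategoryTheory.Functor.map_id]
  infer_instance

/-- homotopic maps induce the same maps of homology -/
theorem hom_eq {A B : TopCat.{0}} {f g : A ⟶ B} (H : TopCat.Homotopy f g) (n : ℕ) :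
    ((AlgebraicTopology.singularHomologyFunctor (ModuleCat.{0} ℚ) n).obj
      (ModuleCat.of ℚ ℚ)).map f =
    ((AlgebraicTopology.singularHomologyFunctor (ModuleCat.{0} ℚ) n).obj
      (ModuleCat.of ℚ ℚ)).map g :=
  TopCat.Homotopy.congr_homologyMap_singularChainComplexFunctor H (ModuleCat.of ℚ ℚ) n

/-- all rational homology isomorphisms -/
def WQ : MorphismProperty TopCat.{0} := fun _ _ f => RatHomIso f

/-- the ends of the cylinder -/
def cyl0 (A : TopCat.{0}) (s : I) : A ⟶ TopCat.of (I × A) :=
  TopCat.ofHom ⟨fun a => (s, a), by fun_prop⟩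

/-- the projection of the cylinder -/
def cylp (A : TopCat.{0}) : TopCat.of (I × A) ⟶ A := TopCat.ofHom ⟨fun a => a.2, by fun_prop⟩

theorem cyl0_p (A : TopCat.{0}) (s : I) : cyl0 A s ≫ cylp A = 𝟙 A := rfl

/-- the cylinder retracts to its end -/
def cylH (A : TopCat.{0}) : TopCat.Homotopy (cylp A ≫ cyl0 A 0) (𝟙 _) where
  toFun z := (⟨(z.1 : ℝ) * (z.2.1 : ℝ), unitInterval.mul_mem z.1.2 z.2.1.2⟩, z.2.2)
  continuous_toFun := by fun_prop
  map_zero_left z := by
    refine Prod.ext (Subtype.ext ?_) rfl
    show ((0 : I) : ℝ) * (z.1 : ℝ) = 0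
    simp
  map_one_left z := by
    refine Prod.ext (Subtype.ext ?_) rfl
    show ((1 : I) : ℝ) * (z.1 : ℝ) = z.1
    simp

theorem cylp_iso (A : TopCat.{0}) : RatHomIso (cylp A) := by
  intro n
  refine ⟨((AlgebraicTopology.singularHomologyFunctor (ModuleCat.{0} ℚ) n).obj
      (ModuleCat.of ℚ ℚ)).map (cyl0 A 0), ?_, ?_⟩
  · rw [← Functor.map_comp, hom_eq (cylH A), CategoryTheory.Functor.map_id]
  · rw [← Functor.map_comp, cyl0_p, CategoryTheory.Functor.map_id]

/-- homotopic maps become equal in the rational homotopy category -/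
theorem Q_homotopic {A B : TopCat.{0}} {f g : A ⟶ B} (H : TopCat.Homotopy f g) :
    WQ.Q.map f = WQ.Q.map g := by
  have hp : IsIso (WQ.Q.map (cylp A)) := MorphismProperty.Q_inverts WQ _ (cylp_iso A)
  have h01 : WQ.Q.map (cyl0 A 0) = WQ.Q.map (cyl0 A 1) := by
    rw [← cancel_mono (WQ.Q.map (cylp A)), ← Functor.map_comp, ← Functor.map_comp, cyl0_p, cyl0_p]
  let h : TopCat.of (I × A) ⟶ B := TopCat.ofHom ⟨fun z => H z, by fun_prop⟩
  have e0 : cyl0 A 0 ≫ h = f := by
    ext a
    exact H.apply_zero a
  have e1 : cyl0 A 1 ≫ h = g := by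
    ext a
    exact H.apply_one a
  rw [← e0, ← e1, Functor.map_comp, Functor.map_comp, h01]

/-- The last form of the statement follows from the one on localisations. -/
theorem no_rationalisations {X T : Type} [TopologicalSpace X] [TopologicalSpace T]
    (h : IsEmpty (Retract (WQ.Q.obj (TopCat.of X)) (WQ.Q.obj (TopCat.of T))))
    {X' T' : Type} [TopologicalSpace X'] [TopologicalSpace T'] (e : C(X, X'))
    (e' : C(T, T')) (he : RatHomIso (TopCat.ofHom e)) (he' : RatHomIso (TopCat.ofHom e')) :
    ¬ IsHRetract X' T' := by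
  rintro ⟨i, r, ⟨H⟩⟩
  have i1 : IsIso (WQ.Q.map (TopCat.ofHom e)) := MorphismProperty.Q_inverts WQ _ he
  have i2 : IsIso (WQ.Q.map (TopCat.ofHom e')) := MorphismProperty.Q_inverts WQ _ he'
  have h1 : WQ.Q.map (TopCat.ofHom i) ≫ WQ.Q.map (TopCat.ofHom r) = 𝟙 _ := by
    rw [← Functor.map_comp, ← CategoryTheory.Functor.map_id]
    exact Q_homotopic (f := TopCat.ofHom i ≫ TopCat.ofHom r) (g := 𝟙 (TopCat.of X')) H
  refine h.false
    { i := WQ.Q.map (TopCat.ofHom e) ≫ WQ.Q.map (TopCat.ofHom i) ≫
        inv (WQ.Q.map (TopCat.ofHom e'))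
      r := WQ.Q.map (TopCat.ofHom e') ≫ WQ.Q.map (TopCat.ofHom r) ≫
        inv (WQ.Q.map (TopCat.ofHom e))
      retract := ?_ }
  simp only [Category.assoc, IsIso.inv_hom_id_assoc]
  rw [← Category.assoc (WQ.Q.map (TopCat.ofHom i)), h1, Category.id_comp, IsIso.hom_inv_id]

/-- Neither the space of long knots in `ℝ³` nor the space of framed long knots is a retract,
integrally or rationally, of a space with commutative fundamental groups. -/
theorem noRetract_of_comm (T : Type) [TopologicalSpace T]
    (hT : ∀ (z : T) (a b : Path.Homotopic.Quotient z z), a.trans b = b.trans a) :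
    NoRetract (LongKnot 3) T ∧ NoRetract (FramedLongKnot 3) T := by
  have hr := fun W hW => no_rational_retract W hW (TopCat.of T) hT
  have h1 := fun (X' T' : Type) (_ : TopologicalSpace X') (_ : TopologicalSpace T')
    (e : C(LongKnot 3, X')) (e' : C(T, T')) (he : RatHomIso (TopCat.ofHom e))
    (he' : RatHomIso (TopCat.ofHom e')) =>
      no_rationalisations (hr WQ (fun _ _ _ hf => hf)).1 e e' he he'
  have h2 := fun (X' T' : Type) (_ : TopologicalSpace X') (_ : TopologicalSpace T')
    (e : C(FramedLongKnot 3, X')) (e' : C(T, T')) (he : RatHomIso (TopCat.ofHom e))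
    (he' : RatHomIso (TopCat.ofHom e')) =>
      no_rationalisations (hr WQ (fun _ _ _ hf => hf)).2 e e' he he'
  refine ⟨⟨?_, fun W hW => (hr W hW).1, fun X' T' _ _ => h1 X' T' _ _, fun W hW => ⟨fun R => ?_⟩⟩,
    ⟨?_, fun W hW => (hr W hW).2, fun X' T' _ _ => h2 X' T' _ _, fun W hW => ⟨fun R => ?_⟩⟩⟩
  · exact h1 _ _ _ _ (ContinuousMap.id _) (ContinuousMap.id _) (ratHomIso_id _) (ratHomIso_id _)
  · exact not_comm_long fun a b => comm_of_local_retract W hW R hT K0.toLongKnot a b
  · exact h2 _ _ _ _ (ContinuousMap.id _) (ContinuousMap.id _) (ratHomIso_id _) (ratHomIso_id _)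
  · exact not_comm_framed fun a b => comm_of_local_retract W hW R hT K0 a b

end Pool.Agent.H414_LQ
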