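import Pool.Agent.H414_LQ.F6b
import Pool.Agent.H414_LQ.M7a
import Pool.Agent.H414_LQ.M7b

/-!
JOB S1.  Paths of framed composite knots.
-/

set_option autoImplicit false

open scoped Topology ContDiff unitInterval

noncomputable section

namespace Pool.Agent.H414_LQ

open Pool.Agent.H414_LK

section given

/-! The following are given, proved elsewhere (jobs F6b, M7a, M7b). -/

variable {g : Fin 3 → GK} {ε : ℝ}

end given

variable {g : Fin 3 → GK} {ε : ℝ} (D : Dat g ε)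

/-
PROOF IDEA (TARGET).  `H s = D.fr (Mc g 0 1 2 (θ s)) _` (`Mc_AM`, `Dis.adm`), continuous by
`D.hfr.cont` (`P = Par`, `G p x = Mc g 0 1 2 p x`, `Mc_smooth`; the sizes are positive).
Its image in the space of long knots is as in `cel_move` (`D.hfr.toFun`); `hP` is `(D.hK f).poly`.
Note `D.trf H = D.tr (H.map _)`, `D.ce F θ l i j = cel (D.PL F.toLongKnot) θ l i j`.
-/
theorem disj_path (θ : I → Par) (hθ : Continuous θ) (hD : ∀ s, Dis (θ s))
    (h0 : AM (Mc g 0 1 2 (θ 0))) (h1 : AM (Mc g 0 1 2 (θ 1))) :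
    ∃ H : Path (D.fr (Mc g 0 1 2 (θ 0)) h0) (D.fr (Mc g 0 1 2 (θ 1)) h1),
      ∀ (l : Fin 3) (a b : ℤ), -1 ≤ a → a ≤ 7 → -1 ≤ b → b ≤ 7 →
        D.trf H (D.ce _ (θ 0) l a b) = D.ce _ (θ 1) l a b := by
  have hAM : ∀ s, AM (Mc g 0 1 2 (θ s)) := fun s =>
    Mc_AM D.hg (by decide) (by decide) (by decide)
      ((hD s).adm (ε := ε) (by decide) (by decide) (by decide))
  let H : Path (D.fr (Mc g 0 1 2 (θ 0)) h0) (D.fr (Mc g 0 1 2 (θ 1)) h1) :=
    { toFun := fun s => D.fr (Mc g 0 1 2 (θ s)) (hAM s)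
      continuous_toFun := D.hfr.cont θ hθ (fun p x => Mc g 0 1 2 p x) hAM
        (fun s t => Mc_smooth D.hg 0 1 2 (fun l => ((hD s).pos l).ne') (v3 t 0 0))
      source' := rfl
      target' := rfl }
  refine ⟨H, fun l a b ha ha' hb hb' => ?_⟩
  exact cel_move D.hT (fun f x y hf hp => (D.hK f).poly hf hp) D.hg D.hG
    (H.map (continuous_forget 3)) θ hθ hD (fun s t => D.hfr.toFun _ _ t) l a b ha (by omega) hb
    (by omega)

/-- the parameters of the passage are admissible -/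
theorem thp_adm {ε : ℝ} {i j k : Fin 3} (hij : i ≠ j) (hik : i ≠ k) (hjk : j ≠ k) {cj ck δ : ℝ}
    (hδ : 0 < δ) (hδε : δ ≤ ε) (hε : ε ≤ 1 / 100)
    (hc : (cj = 0 ∧ ck = 2 / 3) ∨ (cj = 2 / 3 ∧ ck = -2 / 3)) (s : I) :
    Adm ε i j k (thp i j cj ck δ s) := by
  have hs0 : (0 : ℝ) ≤ s := s.2.1
  have hs1 : (s : ℝ) ≤ 1 := s.2.2
  have ki : k ≠ i := hik.symm
  have kj : k ≠ j := hjk.symm
  have ji : j ≠ i := hij.symm
  constructor
  · intro l
    simp only [thp]
    split_ifs <;> linarith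
  · intro l
    simp only [thp]
    split_ifs <;> linarith
  · intro l
    simp only [thp]
    rcases hc with ⟨rfl, rfl⟩ | ⟨rfl, rfl⟩
    · by_cases h1 : l = i
      · rw [if_pos h1, if_pos h1]
        have : |(0 : ℝ) - 2 / 3 + s * (11 / 12)| ≤ 2 / 3 := by rw [abs_le]; constructor <;> linarith
        linarith
      · rw [if_neg h1, if_neg h1]
        by_cases h2 : l = j
        · rw [if_pos h2]; norm_num
        · rw [if_neg h2]
          rw [abs_of_nonneg (by norm_num)]; norm_num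
    · by_cases h1 : l = i
      · rw [if_pos h1, if_pos h1]
        have : |(2 / 3 : ℝ) - 2 / 3 + s * (11 / 12)| ≤ 11 / 12 := by
          rw [abs_le]; constructor <;> linarith
        linarith
      · rw [if_neg h1, if_neg h1]
        by_cases h2 : l = j
        · rw [if_pos h2]
          rw [abs_of_nonneg (by norm_num)]; norm_num
        · rw [if_neg h2]
          rw [abs_of_nonpos (by norm_num)]; norm_num
  · right
    simp only [thp, if_true, if_neg ji]
    linarith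
  · simp only [thp, if_true, if_neg ki, if_neg kj]
    rcases hc with ⟨rfl, rfl⟩ | ⟨rfl, rfl⟩
    · rw [abs_of_nonpos (by linarith)]; linarith
    · rw [abs_of_nonneg (by linarith)]; linarith
  · simp only [thp, if_true, if_neg ji, if_neg ki, if_neg kj]
    rcases hc with ⟨rfl, rfl⟩ | ⟨rfl, rfl⟩
    · rw [abs_of_nonpos (by linarith)]; linarith
    · rw [abs_of_nonneg (by linarith)]; linarith

theorem fin3_cases : ∀ i j k : Fin 3, i ≠ j → i ≠ k → j ≠ k → ∀ l : Fin 3, l = i ∨ l = j ∨ l = k := by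
  decide

/-- the end parameters of the passage give disjoint knots -/
theorem thp_dis {ε : ℝ} {i j k : Fin 3} (hij : i ≠ j) (hik : i ≠ k) (hjk : j ≠ k) {cj ck δ : ℝ}
    (hδ : 0 < δ) (hδε : δ ≤ ε) (hε : ε ≤ 1 / 100)
    (hc : (cj = 0 ∧ ck = 2 / 3) ∨ (cj = 2 / 3 ∧ ck = -2 / 3)) (s : I)
    (hs : (s : ℝ) = 0 ∨ (s : ℝ) = 1) : Dis (thp i j cj ck δ s) := by
  have hA := thp_adm hij hik hjk hδ hδε hε hc s
  have hij' : ((thp i j cj ck δ s).2 i + (thp i j cj ck δ s).2 j) / 5 ≤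
      |(thp i j cj ck δ s).1 i - (thp i j cj ck δ s).1 j| := by
    simp only [thp, if_true, if_neg hij.symm]
    rcases hs with hs | hs <;> rw [hs]
    · rw [abs_of_nonpos (by linarith)]; linarith
    · rw [abs_of_nonneg (by linarith)]; linarith
  refine ⟨hA.pos, hA.le, hA.bd, ?_⟩
  intro l l' hl
  have hcases : ∀ l : Fin 3, l = i ∨ l = j ∨ l = k := fin3_cases i j k hij hik hjk
  have sym : ∀ a b : Fin 3, ((thp i j cj ck δ s).2 a + (thp i j cj ck δ s).2 b) / 5 ≤
      |(thp i j cj ck δ s).1 a - (thp i j cj ck δ s).1 b| →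
      ((thp i j cj ck δ s).2 b + (thp i j cj ck δ s).2 a) / 5 ≤
      |(thp i j cj ck δ s).1 b - (thp i j cj ck δ s).1 a| := by
    intro a b h
    rw [abs_sub_comm, add_comm]
    exact h
  rcases hcases l with rfl | rfl | rfl <;> rcases hcases l' with rfl | rfl | rfl
  · exact absurd rfl hl
  · exact hij'
  · exact hA.ik
  · exact sym _ _ hij'
  · exact absurd rfl hl
  · exact hA.jk
  · exact sym _ _ hA.ik
  · exact sym _ _ hA.jk
  · exact absurd rfl hl

/-
PROOF IDEA (TARGET).  With `θ s = thp i j cj ck δ s`: `Adm ε i j k (θ s)` holds for all `s` (`ε ≤ 1/100`,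
`δ ≤ ε`, so `δ / 4 ≤ ε * 1`), and `Dis (θ 0)`, `Dis (θ 1)`.  The path is
`s ↦ D.fr (Mc g i j k (θ s)) _`, continuous by `D.hfr.cont`; its ends are the framed knots of
`Mc g 0 1 2 (θ 0)`, `Mc g 0 1 2 (θ 1)` by `D.hfr.ext` and `Mc_comm` (use `Path.cast` or build the path with
these ends).  The effect on the cells is `pass`.
-/
theorem pass_path {i j k : Fin 3} (hij : i ≠ j) (hik : i ≠ k) (hjk : j ≠ k) {cj ck δ : ℝ}
    (hδ : 0 < δ) (hδε : δ ≤ ε) (hc : (cj = 0 ∧ ck = 2 / 3) ∨ (cj = 2 / 3 ∧ ck = -2 / 3))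
    (h0 : AM (Mc g 0 1 2 (thp i j cj ck δ 0))) (h1 : AM (Mc g 0 1 2 (thp i j cj ck δ 1))) :
    ∃ H : Path (D.fr (Mc g 0 1 2 (thp i j cj ck δ 0)) h0)
        (D.fr (Mc g 0 1 2 (thp i j cj ck δ 1)) h1),
      ∀ (a b : ℤ), -1 ≤ a → a ≤ 7 → -1 ≤ b → b ≤ 7 →
        D.trf H (D.ce _ (thp i j cj ck δ 0) j a b) = D.ce _ (thp i j cj ck δ 1) j a b ∧
        D.trf H (D.ce _ (thp i j cj ck δ 0) k a b) = D.ce _ (thp i j cj ck δ 1) k a b ∧
        D.trf H (D.ce _ (thp i j cj ck δ 0) i a b) =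
          lam (g j) (D.ce _ (thp i j cj ck δ 1) j) * D.ce _ (thp i j cj ck δ 1) i a b *
            (lam (g j) (D.ce _ (thp i j cj ck δ 1) j))⁻¹ := by
  have hε : ε ≤ 1 / 100 := (D.hg i).le
  have hA : ∀ s : I, Adm ε i j k (thp i j cj ck δ s) := thp_adm hij hik hjk hδ hδε hε hc
  have hAM : ∀ s : I, AM (Mc g i j k (thp i j cj ck δ s)) := fun s => Mc_AM D.hg hij hik hjk (hA s)
  have hθ : Continuous (fun s : I => thp i j cj ck δ s) := by
    unfold thp
    refine Continuous.prodMk ?_ ?_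
    · refine continuous_pi fun l => ?_
      by_cases h1 : l = i
      · simp only [if_pos h1]; fun_prop
      · simp only [if_neg h1]; fun_prop
    · exact continuous_const
  have e0 : ((0 : I) : ℝ) = 0 := rfl
  have e1 : ((1 : I) : ℝ) = 1 := rfl
  have hD0 := thp_dis hij hik hjk hδ hδε hε hc 0 (Or.inl e0)
  have hD1 := thp_dis hij hik hjk hδ hδε hε hc 1 (Or.inr e1)
  rw [e0] at hD0
  rw [e1] at hD1
  let H : Path (D.fr (Mc g 0 1 2 (thp i j cj ck δ 0)) h0)
      (D.fr (Mc g 0 1 2 (thp i j cj ck δ 1)) h1) :=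
    { toFun := fun s => D.fr (Mc g i j k (thp i j cj ck δ s)) (hAM s)
      continuous_toFun := D.hfr.cont (fun s : I => thp i j cj ck δ s) hθ
        (fun p x => Mc g i j k p x) hAM
        (fun s t => Mc_smooth D.hg i j k (fun l => ((hA s).pos l).ne') (v3 t 0 0))
      source' := by
        refine D.hfr.ext _ _ _ _ fun t => ?_
        exact Mc_comm D.hg hD0 hij hik hjk (by decide) (by decide) (by decide) t
      target' := by
        refine D.hfr.ext _ _ _ _ fun t => ?_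
        exact Mc_comm D.hg hD1 hij hik hjk (by decide) (by decide) (by decide) t }
  refine ⟨H, fun a b ha ha' hb hb' => ?_⟩
  exact pass D.hT D.hK (fun f x y hf hp => (D.hK f).poly hf hp) D.hg D.hG hij hik hjk hδ hδε hc
    (H.map (continuous_forget 3)) (fun s t => D.hfr.toFun _ _ t) a b ha ha' hb hb'

end Pool.Agent.H414_LQ
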