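import Pool.Agent.H414_LQ.S1
import Pool.Agent.H414_LQ.AMd

/-!
JOB S2.  Exchanging two neighbouring knots.
-/

set_option autoImplicit false

open scoped Topology ContDiff unitInterval

noncomputable section

namespace Pool.Agent.H414_LQ

open Pool.Agent.H414_LK

variable {g : Fin 3 → GK} {ε : ℝ} (D : Dat g ε)

section given

/-! The following are given, proved elsewhere (jobs F6b, S1). -/

end given

/-- the knots, of size `1`, with given centers -/
def ths (c : Fin 3 → ℝ) : Par := (c, fun _ => 1)

/-- the permutations of the three positions -/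
structure Pos (c : Fin 3 → ℝ) : Prop where
  mem : ∀ l, c l = -2 / 3 ∨ c l = 0 ∨ c l = 2 / 3
  inj : Function.Injective c

/-
PROOF IDEA (TARGET).  `Dis`: the centers have distance `≥ 2/3 ≥ 2/5`, `|c l| + 1/4 ≤ 1`.
-/
theorem Pos.dis {c : Fin 3 → ℝ} (h : Pos c) : Dis (ths c) := by
  refine ⟨fun l => ?_, fun l => ?_, fun l => ?_, fun l l' hl => ?_⟩
  · simp [ths]
  · simp [ths]
  · simp only [ths]
    rcases h.mem l with h1 | h1 | h1 <;> rw [h1] <;> norm_num [abs_div]
  · have h3 : c l ≠ c l' := fun e => hl (h.inj e)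
    simp only [ths]
    rcases h.mem l with h1 | h1 | h1 <;> rcases h.mem l' with h2 | h2 | h2 <;>
      rw [h1, h2] at h3 ⊢ <;> first | exact absurd rfl h3 | norm_num [abs_div]

theorem lam_congr {G : Type} [Group G] (g : GK) {L L' : ℤ → ℤ → G}
    (h : ∀ a b : ℤ, 0 ≤ a → a ≤ 6 → 0 ≤ b → b ≤ 6 → L a b = L' a b) : lam g L = lam g L' := by
  have n7 := g.n7
  have n3 := g.n3
  have hX : ∀ k, k < g.n → 0 ≤ g.X k ∧ g.X k ≤ 6 := by
    intro k hk
    have := g.Xr k hk
    constructor
    · exact this.1
    · have h2 : (g.n : ℤ) ≤ 7 := by exact_mod_cast n7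
      omega
  have hY : ∀ k, 0 < k → k < g.n → 0 ≤ g.Y k ∧ g.Y k ≤ 6 := by
    intro k h0 hk
    have := g.Yr k h0 hk
    have h2 : (g.n : ℤ) ≤ 7 := by exact_mod_cast n7
    constructor <;> omega
  unfold lam
  have h0 := hX 0 (by omega)
  have h1 := hX (g.n - 1) (by omega)
  rw [h _ _ h0.1 h0.2 le_rfl (by norm_num), h _ _ h1.1 h1.2 le_rfl (by norm_num)]
  congr 2
  congr 1
  refine List.map_congr_left fun k hk => ?_
  have hk' := List.mem_range.mp hk
  have h2 := hX k (by omega)
  have h3 := hX (k + 1) (by omega)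
  have h4 := hY (k + 1) (by omega) (by omega)
  rw [h _ _ h2.1 h2.2 h4.1 h4.2, h _ _ h3.1 h3.2 h4.1 h4.2]

theorem map_lam {G G' : Type} [Group G] [Group G'] (φ : G →* G') (g : GK) (L : ℤ → ℤ → G) :
    φ (lam g L) = lam g (fun a b => φ (L a b)) := by
  unfold lam
  rw [map_mul, map_mul, map_inv, map_list_prod, List.map_map]
  congr 3
  refine List.map_congr_left fun k _ => ?_
  simp only [Function.comp, map_mul, map_inv]

theorem trf_trans {F F' F'' : FramedLongKnot 3} (H : Path F F') (H' : Path F' F'')
    (x : KG F.toLongKnot) : D.trf (H.trans H') x = D.trf H' (D.trf H x) := by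
  unfold Dat.trf
  rw [Path.map_trans, D.hT.trans]

theorem disj_path' (θ : I → Par) (hθ : Continuous θ) (hD : ∀ s, Dis (θ s)) {p q : Par}
    (hp : θ 0 = p) (hq : θ 1 = q)
    (h0 : AM (Mc g 0 1 2 p)) (h1 : AM (Mc g 0 1 2 q)) :
    ∃ H : Path (D.fr (Mc g 0 1 2 p) h0) (D.fr (Mc g 0 1 2 q) h1),
      ∀ (l : Fin 3) (a b : ℤ), -1 ≤ a → a ≤ 7 → -1 ≤ b → b ≤ 7 →
        D.trf H (D.ce _ p l a b) = D.ce _ q l a b := by
  subst hp hq
  exact disj_path D θ hθ hD h0 h1

/-
PROOF IDEA (TARGET).  The knot `i` has the center `c j - 2/3`, it is just to the left of `j`; the new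
centers `c'` are: `c' i = c j`, `c' j = c i`, `c' k = c k`.  Let `δ = ε` (`ε ≤ 1/100`), `cj = c j`, `ck = c k`
(`cj = 0 ∧ ck = 2/3` or `cj = 2/3 ∧ ck = -2/3`).  Composition of:
 1. the size of `i` goes linearly from `1` to `δ`, the centers are fixed (`disj_path`), from `ths c` to
    `thp i j cj ck δ 0`;
 2. `pass_path`, from `thp i j cj ck δ 0` to `thp i j cj ck δ 1` (center of `i`: `cj + 1/4`);
 3. `j` moves linearly from `cj` to `cj - 2/3` and, at the same time, `i` from `cj + 1/4` to `cj`
    (`disj_path`; the distance of `i` and `j` is between `1/4` and `2/3`, at least `(1 + δ)/5`; `k` is far);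
 4. the size of `i` goes from `δ` to `1`, ending at `ths c'` (`disj_path`).
(3 and 4 can be one path, or not.)  Use `D.hT.trans` for `D.trf (H.trans H')`:
`(H.trans H').map = (H.map).trans (H'.map)` (`Path.map_trans`).  Effect of 1 on the cells: none; of 2: `pass_path`; of 3, 4:
none; a homomorphism carries `lam (g j) L` to `lam (g j) (image of L)`, where only the labels of the
cells `(a, b)` with `0 ≤ a, b ≤ 6` matter (`Xr`, `Yr`, `Y0`, `n7`).
-/
theorem swap {i j k : Fin 3} (hij : i ≠ j) (hik : i ≠ k) (hjk : j ≠ k) {c c' : Fin 3 → ℝ}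
    (hc : Pos c) (hc' : Pos c') (hi : c i = c j - 2 / 3) (hi' : c' i = c j) (hj' : c' j = c i)
    (hk' : c' k = c k) (h : AM (Mc g 0 1 2 (ths c))) (h' : AM (Mc g 0 1 2 (ths c'))) :
    ∃ H : Path (D.fr (Mc g 0 1 2 (ths c)) h) (D.fr (Mc g 0 1 2 (ths c')) h'),
      ∀ (a b : ℤ), -1 ≤ a → a ≤ 7 → -1 ≤ b → b ≤ 7 →
        D.trf H (D.ce _ (ths c) j a b) = D.ce _ (ths c') j a b ∧
        D.trf H (D.ce _ (ths c) k a b) = D.ce _ (ths c') k a b ∧
        D.trf H (D.ce _ (ths c) i a b) =
          lam (g j) (D.ce _ (ths c') j) * D.ce _ (ths c') i a b *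
            (lam (g j) (D.ce _ (ths c') j))⁻¹ := by
  have hε := (D.hg 0).pos
  have hε1 := (D.hg 0).le
  have all : ∀ l : Fin 3, l = i ∨ l = j ∨ l = k := by
    revert hij hik hjk
    clear * -
    revert i j k
    decide
  have hcc : (c j = 0 ∧ c k = 2 / 3) ∨ (c j = 2 / 3 ∧ c k = -2 / 3) := by
    have e1 : c k ≠ c j := fun e => hjk (hc.inj e).symm
    have e2 : c k ≠ c i := fun e => hik (hc.inj e).symm
    rcases hc.mem j with h1 | h1 | h1
    · exfalso
      rcases hc.mem i with h2 | h2 | h2 <;> rw [h1, h2] at hi <;> norm_num at hi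
    · left
      refine ⟨h1, ?_⟩
      rw [h1] at e1 hi
      rw [hi] at e2
      rcases hc.mem k with h2 | h2 | h2
      · exfalso; apply e2; rw [h2]; norm_num
      · exact absurd h2 e1
      · exact h2
    · right
      refine ⟨h1, ?_⟩
      rw [h1] at e1 hi
      rw [hi] at e2
      rcases hc.mem k with h2 | h2 | h2
      · exact h2
      · exfalso; apply e2; rw [h2]; norm_num
      · exact absurd h2 e1
  have hji : j ≠ i := hij.symm
  have hki : k ≠ i := hik.symm
  have hkj : k ≠ j := hjk.symm
  -- a criterion for disjointness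
  have disC : ∀ (x y z r : ℝ), 0 < r → r ≤ 1 → |x| + r / 4 ≤ 1 → |y| + 1 / 4 ≤ 1 →
      |z| + 1 / 4 ≤ 1 → (r + 1) / 5 ≤ |x - y| → (r + 1) / 5 ≤ |x - z| → (1 + 1) / 5 ≤ |y - z| →
      Dis (fun l => if l = i then x else if l = j then y else z, fun l => if l = i then r else 1) := by
    intro x y z r h1 h2 h3 h4 h5 h6 h7 h8
    refine ⟨fun l => ?_, fun l => ?_, fun l => ?_, fun l l' hl => ?_⟩
    · rcases all l with rfl | rfl | rfl
      · simpa using h1
      · simp [hji]
      · simp [hki]
    · rcases all l with rfl | rfl | rfl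
      · simpa using h2
      · simp [hji]
      · simp [hki]
    · rcases all l with rfl | rfl | rfl
      · simpa using h3
      · simpa [hji] using h4
      · simpa [hki, hkj] using h5
    · rcases all l with e | e | e <;> rcases all l' with e' | e' | e' <;> subst e <;> subst e'
      · exact absurd rfl hl
      · simpa [hji] using h6
      · simpa [hki, hkj] using h7
      · simpa [hji, add_comm, abs_sub_comm] using h6
      · exact absurd rfl hl
      · simpa [hji, hki, hkj] using h8
      · simpa [hki, hkj, add_comm, abs_sub_comm] using h7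
      · simpa [hji, hki, hkj, abs_sub_comm] using h8
      · exact absurd rfl hl
  have disL : ∀ (x y z r : ℝ), 0 < r → r ≤ 1 → -(1 - r / 4) ≤ x → x ≤ 1 - r / 4 → -(3 / 4) ≤ y →
      y ≤ 3 / 4 → -(3 / 4) ≤ z → z ≤ 3 / 4 → ((r + 1) / 5 ≤ x - y ∨ (r + 1) / 5 ≤ -(x - y)) →
      ((r + 1) / 5 ≤ x - z ∨ (r + 1) / 5 ≤ -(x - z)) →
      ((1 + 1) / 5 ≤ y - z ∨ (1 + 1) / 5 ≤ -(y - z)) →
      Dis (fun l => if l = i then x else if l = j then y else z, fun l => if l = i then r else 1) := by
    intro x y z r h1 h2 h3 h3' h4 h4' h5 h5' h6 h7 h8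
    refine disC x y z r h1 h2 ?_ ?_ ?_ (le_abs.mpr h6) (le_abs.mpr h7) (le_abs.mpr h8)
    · have := abs_le.mpr ⟨h3, h3'⟩; linarith
    · have := abs_le.mpr ⟨h4, h4'⟩; linarith
    · have := abs_le.mpr ⟨h5, h5'⟩; linarith
  have dis0 : Dis (thp i j (c j) (c k) ε 0) := by
    unfold thp
    rcases hcc with ⟨h1, h2⟩ | ⟨h1, h2⟩
    · rw [h1, h2]
      exact disL _ _ _ _ hε (by linarith) (by linarith) (by linarith) (by norm_num)
        (by norm_num) (by norm_num) (by norm_num) (Or.inr (by linarith)) (Or.inr (by linarith))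
        (Or.inr (by norm_num))
    · rw [h1, h2]
      exact disL _ _ _ _ hε (by linarith) (by linarith) (by linarith) (by norm_num)
        (by norm_num) (by norm_num) (by norm_num) (Or.inr (by linarith)) (Or.inl (by linarith))
        (Or.inl (by norm_num))
  have dis1 : Dis (thp i j (c j) (c k) ε 1) := by
    unfold thp
    rcases hcc with ⟨h1, h2⟩ | ⟨h1, h2⟩
    · rw [h1, h2]
      exact disL _ _ _ _ hε (by linarith) (by linarith) (by linarith) (by norm_num)
        (by norm_num) (by norm_num) (by norm_num) (Or.inl (by linarith)) (Or.inr (by linarith))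
        (Or.inr (by norm_num))
    · rw [h1, h2]
      exact disL _ _ _ _ hε (by linarith) (by linarith) (by linarith) (by norm_num)
        (by norm_num) (by norm_num) (by norm_num) (Or.inl (by linarith)) (Or.inl (by linarith))
        (Or.inl (by norm_num))
  -- first path
  obtain ⟨H1, hH1⟩ := disj_path' D
    (fun s : I => ((fun l => if l = i then c j - 2 / 3 else if l = j then c j else c k,
      fun l => if l = i then 1 - (s : ℝ) * (1 - ε) else 1) : Par))
    (by
      refine Continuous.prodMk continuous_const (continuous_pi fun l => ?_)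
      by_cases hl : l = i
      · simp only [hl, if_true]; fun_prop
      · simp only [hl, if_false]; fun_prop)
    (by
      intro s
      have s0 := s.2.1
      have s1 := s.2.2
      have e1 : 0 < 1 - (s : ℝ) * (1 - ε) := by nlinarith
      have e2 : 1 - (s : ℝ) * (1 - ε) ≤ 1 := by nlinarith
      rcases hcc with ⟨h1, h2⟩ | ⟨h1, h2⟩
      · rw [h1, h2]
        exact disL _ _ _ _ e1 e2 (by linarith) (by linarith) (by norm_num)
          (by norm_num) (by norm_num) (by norm_num) (Or.inr (by linarith)) (Or.inr (by linarith))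
          (Or.inr (by norm_num))
      · rw [h1, h2]
        exact disL _ _ _ _ e1 e2 (by linarith) (by linarith) (by norm_num)
          (by norm_num) (by norm_num) (by norm_num) (Or.inr (by linarith)) (Or.inl (by linarith))
          (Or.inl (by norm_num)))
    (p := ths c) (q := thp i j (c j) (c k) ε 0)
    (by
      unfold ths
      refine Prod.ext (funext fun l => ?_) (funext fun l => ?_)
      · rcases all l with e | e | e <;> subst e
        · simp [hi]
        · simp [hji]
        · simp [hki, hkj]
      · simp)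
    (by
      unfold thp
      refine Prod.ext (funext fun l => ?_) (funext fun l => ?_)
      · simp
      · simp)
    h (AM_dis D.hg dis0)
  -- second path
  obtain ⟨H2, hH2⟩ := pass_path D hij hik hjk hε le_rfl hcc (AM_dis D.hg dis0) (AM_dis D.hg dis1)
  -- third path
  obtain ⟨H3, hH3⟩ := disj_path' D
    (fun s : I => ((fun l => if l = i then c j + 1 / 4 - (s : ℝ) / 4 else
        if l = j then c j - 2 / 3 * (s : ℝ) else c k,
      fun l => if l = i then ε + (s : ℝ) * (1 - ε) else 1) : Par))
    (by
      refine Continuous.prodMk (continuous_pi fun l => ?_) (continuous_pi fun l => ?_)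
      · by_cases hl : l = i
        · simp only [hl, if_true]; fun_prop
        · by_cases hl2 : l = j
          · simp only [hl2, hji, if_true, if_false]; fun_prop
          · simp only [hl, hl2, if_false]; fun_prop
      · by_cases hl : l = i
        · simp only [hl, if_true]; fun_prop
        · simp only [hl, if_false]; fun_prop)
    (by
      intro s
      have s0 := s.2.1
      have s1 := s.2.2
      have e3 : 0 ≤ (s : ℝ) * (1 - ε) := by nlinarith
      have e4 : (s : ℝ) * (1 - ε) ≤ s := by nlinarith
      have e1 : 0 < ε + (s : ℝ) * (1 - ε) := by nlinarith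
      have e2 : ε + (s : ℝ) * (1 - ε) ≤ 1 := by nlinarith
      rcases hcc with ⟨h1, h2⟩ | ⟨h1, h2⟩
      · rw [h1, h2]
        exact disL _ _ _ _ e1 e2 (by linarith) (by linarith) (by linarith)
          (by linarith) (by linarith) (by linarith) (Or.inl (by linarith)) (Or.inr (by linarith))
          (Or.inr (by linarith))
      · rw [h1, h2]
        exact disL _ _ _ _ e1 e2 (by linarith) (by linarith) (by linarith)
          (by linarith) (by linarith) (by linarith) (Or.inl (by linarith)) (Or.inl (by linarith))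
          (Or.inl (by linarith)))
    (p := thp i j (c j) (c k) ε 1) (q := ths c')
    (by
      unfold thp
      refine Prod.ext (funext fun l => ?_) (funext fun l => ?_)
      · rcases all l with e | e | e <;> subst e
        · simp; ring
        · simp [hji]
        · simp [hki, hkj]
      · simp)
    (by
      unfold ths
      refine Prod.ext (funext fun l => ?_) (funext fun l => ?_)
      · rcases all l with e | e | e <;> subst e
        · simp [hi']
        · simp [hji, hj', hi]
        · simp [hki, hkj, hk']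
      · simp)
    (AM_dis D.hg dis1) h'
  refine ⟨(H1.trans H2).trans H3, fun a b ha ha' hb hb' => ?_⟩
  obtain ⟨p1, p2, p3⟩ := hH2 a b ha ha' hb hb'
  refine ⟨?_, ?_, ?_⟩
  · rw [trf_trans, trf_trans, hH1 j a b ha ha' hb hb', p1, hH3 j a b ha ha' hb hb']
  · rw [trf_trans, trf_trans, hH1 k a b ha ha' hb hb', p2, hH3 k a b ha ha' hb hb']
  · rw [trf_trans, trf_trans, hH1 i a b ha ha' hb hb', p3, map_mul, map_mul, map_inv,
      hH3 i a b ha ha' hb hb']
    have e : D.trf H3 (lam (g j) (D.ce _ (thp i j (c j) (c k) ε 1) j)) =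
        lam (g j) (D.ce _ (ths c') j) := by
      have := map_lam (D.trf H3).toMonoidHom (g j) (D.ce _ (thp i j (c j) (c k) ε 1) j)
      refine this.trans (lam_congr (g j) fun a b h1 h2 h3 h4 => ?_)
      exact hH3 j a b (by omega) (by omega) (by omega) (by omega)
    rw [e]

end Pool.Agent.H414_LQ
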