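import Pool.Agent.H414_LQ.Base

/-!
JOB T1.  Paths above and below the knot.
-/

set_option autoImplicit false

open scoped Topology ContDiff unitInterval

noncomputable section

namespace Pool.Agent.H414_LQ

open Pool.Agent.H414_LK

theorem T1_contr (𝒦 : Set (Eu 3)) (T : Cp 𝒦 → Prop) (u : Eu 3 → Eu 3) (hu : Continuous u)
    (c : Eu 3) (hc : ∃ h : c ∉ 𝒦, T ⟨c, h⟩)
    (h1 : ∀ p : Cp 𝒦, T p → ∀ s : I,
      ∃ h : ((1 - (s : ℝ)) • p.1 + (s : ℝ) • u p.1) ∉ 𝒦, T ⟨_, h⟩)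
    (h2 : ∀ p : Cp 𝒦, T p → ∀ s : I,
      ∃ h : ((1 - (s : ℝ)) • u p.1 + (s : ℝ) • c) ∉ 𝒦, T ⟨_, h⟩) :
    ContractibleSpace {p // T p} := by
  rw [contractible_iff_id_nullhomotopic]
  let H1 : I × {p // T p} → {p // T p} := fun x =>
    ⟨⟨(1 - (x.1 : ℝ)) • x.2.1.1 + (x.1 : ℝ) • u x.2.1.1, (h1 x.2.1 x.2.2 x.1).fst⟩,
      (h1 x.2.1 x.2.2 x.1).snd⟩
  let H2 : I × {p // T p} → {p // T p} := fun x =>
    ⟨⟨(1 - (x.1 : ℝ)) • u x.2.1.1 + (x.1 : ℝ) • c, (h2 x.2.1 x.2.2 x.1).fst⟩,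
      (h2 x.2.1 x.2.2 x.1).snd⟩
  have hv : Continuous (fun x : I × {p // T p} => (x.2.1.1 : Eu 3)) :=
    continuous_subtype_val.comp (continuous_subtype_val.comp continuous_snd)
  have hs : Continuous (fun x : I × {p // T p} => (x.1 : ℝ)) :=
    continuous_subtype_val.comp continuous_fst
  have hH1 : Continuous H1 := by
    apply Continuous.subtype_mk
    apply Continuous.subtype_mk
    exact ((continuous_const.sub hs).smul hv).add (hs.smul (hu.comp hv))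
  have hH2 : Continuous H2 := by
    apply Continuous.subtype_mk
    apply Continuous.subtype_mk
    exact ((continuous_const.sub hs).smul (hu.comp hv)).add (hs.smul continuous_const)
  let U1 : C({p // T p}, {p // T p}) :=
    ⟨fun p => H1 (1, p), hH1.comp (continuous_const.prodMk continuous_id)⟩
  refine ⟨⟨⟨c, hc.fst⟩, hc.snd⟩, ContinuousMap.Homotopic.trans (g := U1) ⟨⟨⟨H1, hH1⟩, ?_, ?_⟩⟩
    ⟨⟨⟨H2, hH2⟩, ?_, ?_⟩⟩⟩
  · intro p
    apply Subtype.ext
    apply Subtype.ext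
    simp [H1]
  · intro p
    rfl
  · intro p
    apply Subtype.ext
    apply Subtype.ext
    simp [H1, H2, U1]
  · intro p
    apply Subtype.ext
    apply Subtype.ext
    simp [H2]

theorem T1_cls {X : Type} [TopologicalSpace X] (T : X → Prop) [ContractibleSpace {p // T p}]
    (b : X) (hb : T b) :
    ∃ tp : ∀ p, T p → Path.Homotopic.Quotient b p,
      (∀ {p q : X} (hp : T p) (hq : T q) (δ : Path p q), (∀ t, T (δ t)) →
        (tp p hp).trans (Path.Homotopic.Quotient.mk δ) = tp q hq) ∧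
      (∀ (p : X) (hp : T p), ∃ δ : Path b p, (∀ t, T (δ t)) ∧
        tp p hp = Path.Homotopic.Quotient.mk δ) := by
  let pa : ∀ p (hp : T p), Path (⟨b, hb⟩ : {p // T p}) ⟨p, hp⟩ :=
    fun p hp => PathConnectedSpace.somePath _ _
  let ma : ∀ p (_ : T p), Path b p := fun p hp => (pa p hp).map continuous_subtype_val
  refine ⟨fun p hp => Path.Homotopic.Quotient.mk (ma p hp), ?_, ?_⟩
  · intro p q hp hq δ hδ
    let δ' : Path (⟨p, hp⟩ : {p // T p}) ⟨q, hq⟩ :=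
      { toFun := fun t => ⟨δ t, hδ t⟩
        continuous_toFun := δ.continuous.subtype_mk _
        source' := Subtype.ext δ.source
        target' := Subtype.ext δ.target }
    have h1 : ((pa p hp).trans δ').Homotopic (pa q hq) := SimplyConnectedSpace.paths_homotopic _ _
    have h2 := h1.map (⟨Subtype.val, continuous_subtype_val⟩ : C({p // T p}, X))
    rw [← Path.Homotopic.Quotient.mk_trans, Path.Homotopic.Quotient.eq]
    have h3 : (((pa p hp).trans δ').map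
        (⟨Subtype.val, continuous_subtype_val⟩ : C({p // T p}, X)).continuous) =
        (ma p hp).trans δ := by
      rw [Path.map_trans]
      rfl
    rw [h3] at h2
    exact h2
  · intro p hp
    exact ⟨ma p hp, fun t => (pa p hp t).2, rfl⟩

theorem T1_top {S : Shadow} {𝒦 : Set (Eu 3)} (h : IsSh S 𝒦) (x : Eu 3)
    (hx : ∀ w, 48 * x 2 ≤ w → ¬ S.K (48 * x 0) (48 * x 1) w) :
    ∃ h : x ∉ 𝒦, Top S 𝒦 ⟨x, h⟩ :=
  ⟨fun hm => hx _ le_rfl ((h x).1 hm), hx⟩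

theorem T1_bot {S : Shadow} {𝒦 : Set (Eu 3)} (h : IsSh S 𝒦) (x : Eu 3)
    (hx : ∀ w, w ≤ 48 * x 2 → ¬ S.K (48 * x 0) (48 * x 1) w) :
    ∃ h : x ∉ 𝒦, Bot S 𝒦 ⟨x, h⟩ :=
  ⟨fun hm => hx _ le_rfl ((h x).1 hm), hx⟩

theorem T1_contrTop {S : Shadow} {𝒦 : Set (Eu 3)} (h : IsSh S 𝒦) :
    ContractibleSpace {p // Top S 𝒦 p} := by
  have hgt : ∀ x : Eu 3, 1 ≤ x 2 → ∀ w, 48 * x 2 ≤ w → ¬ S.K (48 * x 0) (48 * x 1) w := by
    intro x hx w hw hK
    have := abs_le.mp (S.bz hK)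
    linarith [this.2]
  apply T1_contr 𝒦 (Top S 𝒦) (fun x => v3 (x 0) (x 1) (max (x 2) 1))
    (by
      have h0 : Continuous fun x : Eu 3 => x 0 := by fun_prop
      have h1 : Continuous fun x : Eu 3 => x 1 := by fun_prop
      have h2 : Continuous fun x : Eu 3 => x 2 := by fun_prop
      unfold v3
      fun_prop)
    (v3 0 3 1) (T1_top h _ (hgt _ (by simp)))
  · intro p hp s
    apply T1_top h
    intro w hw
    have hs0 : (0 : ℝ) ≤ s := s.2.1
    have e0 : 48 * ((1 - (s : ℝ)) • p.1 + (s : ℝ) • v3 (p.1 0) (p.1 1) (max (p.1 2) 1)) 0 =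
        48 * p.1 0 := by simp; ring
    have e1 : 48 * ((1 - (s : ℝ)) • p.1 + (s : ℝ) • v3 (p.1 0) (p.1 1) (max (p.1 2) 1)) 1 =
        48 * p.1 1 := by simp; ring
    rw [e0, e1]
    apply hp
    refine le_trans ?_ hw
    simp only [add_app, smul_app, v3_2]
    have := le_max_left (p.1 2) 1
    nlinarith
  · intro p _ s
    apply T1_top h
    apply hgt
    have hs0 : (0 : ℝ) ≤ s := s.2.1
    have hs1 : (s : ℝ) ≤ 1 := s.2.2
    simp only [add_app, smul_app, v3_2]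
    have := le_max_right (p.1 2) 1
    nlinarith

theorem T1_contrBot {S : Shadow} {𝒦 : Set (Eu 3)} (h : IsSh S 𝒦) :
    ContractibleSpace {p // Bot S 𝒦 p} := by
  have hgt : ∀ x : Eu 3, x 2 ≤ -1 → ∀ w, w ≤ 48 * x 2 → ¬ S.K (48 * x 0) (48 * x 1) w := by
    intro x hx w hw hK
    have := abs_le.mp (S.bz hK)
    linarith [this.1]
  apply T1_contr 𝒦 (Bot S 𝒦) (fun x => v3 (x 0) (x 1) (min (x 2) (-1)))
    (by
      have h0 : Continuous fun x : Eu 3 => x 0 := by fun_prop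
      have h1 : Continuous fun x : Eu 3 => x 1 := by fun_prop
      have h2 : Continuous fun x : Eu 3 => x 2 := by fun_prop
      unfold v3
      fun_prop)
    (v3 0 3 (-1)) (T1_bot h _ (hgt _ (by simp)))
  · intro p hp s
    apply T1_bot h
    intro w hw
    have hs0 : (0 : ℝ) ≤ s := s.2.1
    have e0 : 48 * ((1 - (s : ℝ)) • p.1 + (s : ℝ) • v3 (p.1 0) (p.1 1) (min (p.1 2) (-1))) 0 =
        48 * p.1 0 := by simp; ring
    have e1 : 48 * ((1 - (s : ℝ)) • p.1 + (s : ℝ) • v3 (p.1 0) (p.1 1) (min (p.1 2) (-1))) 1 =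
        48 * p.1 1 := by simp; ring
    rw [e0, e1]
    apply hp
    refine le_trans hw ?_
    simp only [add_app, smul_app, v3_2]
    have := min_le_left (p.1 2) (-1)
    nlinarith
  · intro p _ s
    apply T1_bot h
    apply hgt
    have hs0 : (0 : ℝ) ≤ s := s.2.1
    have hs1 : (s : ℝ) ≤ 1 := s.2.2
    simp only [add_app, smul_app, v3_2]
    have := min_le_right (p.1 2) (-1)
    nlinarith

theorem exists_TB {S : Shadow} {𝒦 : Set (Eu 3)} (h : IsSh S 𝒦) :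
    ∃ (tp : ∀ p : Cp 𝒦, Top S 𝒦 p → Path.Homotopic.Quotient ⟨bb, h.bb⟩ p)
      (bp : ∀ p : Cp 𝒦, Bot S 𝒦 p → Path.Homotopic.Quotient ⟨bb, h.bb⟩ p), TB h tp bp := by
  have hno : ∀ w, ¬ S.K (48 * bb 0) (48 * bb 1) w := by
    intro w hK
    have := S.by6 hK
    simp only [Pool.Agent.H414_LQ.bb, v3_1] at this
    norm_num at this
  have := T1_contrTop h
  have := T1_contrBot h
  obtain ⟨tp, ht1, ht2⟩ := T1_cls (Top S 𝒦) ⟨bb, h.bb⟩ (fun w _ => hno w)
  obtain ⟨bp, hb1, hb2⟩ := T1_cls (Bot S 𝒦) ⟨bb, h.bb⟩ (fun w _ => hno w)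
  exact ⟨tp, bp, ⟨ht1, hb1, ht2, hb2⟩⟩

end Pool.Agent.H414_LQ
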