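import Pool.Agent.H414_LQ.Base

/-!
JOB T2.  The loops of the cells form a good labelling.
-/

set_option autoImplicit false

open scoped Topology ContDiff unitInterval

noncomputable section

namespace Pool.Agent.H414_LQ

open Pool.Agent.H414_LK

/-
PROOF IDEA (TARGET).
(0) If `p`, `q` are joined by a path `δ` whose points are all both `Top` and `Bot`, then
`FF p = FF q`: by `hT.top` and `hT.bot`.
(v), (h): the segment between the centers of two cells separated by an uncovered edge consists of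
points over which there is no point of `K` at all (`unc_v`, `int_v`, `int_h`).
(up): the segment from `bb` to the center of the cell has `48 y > 6`, so no point of `K` over it
(`by6`); so `tp` and `bp` of the center agree (both are the class of the segment, using
`hT.top`, `hT.bot` and that `tp bb`, `bp bb` are trivial, which follows from `rt`, `rb`).
(low): same with `48 y < 0` (`by0`).
(c): let `(m, n)` be a crossing, with points `K m n z₀`, `K m n w₀`, `z₀ < 0 < w₀` (`cr_pt`).  By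
`near_v`, `near_h`, `uniq_v`, `uniq_h`, `int_v`, `int_h` there is `ε < 1/2` such that the box
`|x - m| ≤ ε, |y - n| ≤ ε, |z| ≤ ε` is disjoint from `K`, that a point of it with `x ≠ m` has nothing
above it and a point of it with `y ≠ n` has nothing below it.  (Coordinates scaled by 48.)  Let
`a = (m - ε, n - ε, 0), b = (m + ε, n - ε, 0), c = (m + ε, n + ε, 0), d = (m - ε, n + ε, 0)`: these four
points are `Top` and `Bot`, with `FF a = FC (m-1) (n-1)`, `FF b = FC m (n-1)`, `FF c = FC m n`,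
`FF d = FC (m-1) n` by (0).  The path `a → b` is `Bot`, so
`tp a * [a → b] = (FF a)⁻¹ * bp a * [a → b] = (FF a)⁻¹ * bp b = (FF a)⁻¹ * FF b * tp b`; the path
`b → c` is `Top`, so `tp b * [b → c] = tp c`; etc.  As the box is convex,
`[a → b] [b → c] = [a → d] [d → c]`, which gives `(FF a)⁻¹ * FF b = (FF d)⁻¹ * FF c`.
-/
namespace FCg


/-- straight path in the complement -/
def sp {𝒦 : Set (Eu 3)} (p q : Cp 𝒦) (h : ∀ t : I, AffineMap.lineMap p.1 q.1 (t : ℝ) ∉ 𝒦) :
    Path p q where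
  toFun t := ⟨AffineMap.lineMap p.1 q.1 (t : ℝ), h t⟩
  continuous_toFun := by
    apply Continuous.subtype_mk
    exact (AffineMap.lineMap_continuous (R := ℝ) (p := p.1) (q := q.1)).comp
      continuous_subtype_val
  source' := by
    apply Subtype.ext
    simp
  target' := by
    apply Subtype.ext
    simp

theorem lm (p q : Eu 3) (t : ℝ) (i : Fin 3) :
    AffineMap.lineMap p q t i = (1 - t) * p i + t * q i := by
  rw [AffineMap.lineMap_apply, vsub_eq_sub, vadd_eq_add, add_app, smul_app, sub_app]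
  ring

/-- two ways around a convex region -/
theorem sq {𝒦 : Set (Eu 3)} (Q : Set (Eu 3)) (hQ : Convex ℝ Q) (hK : ∀ x ∈ Q, x ∉ 𝒦)
    (a b c d : Cp 𝒦) (ha : a.1 ∈ Q) (hb : b.1 ∈ Q) (hc : c.1 ∈ Q) (hd : d.1 ∈ Q)
    (h1 : ∀ t : I, AffineMap.lineMap a.1 b.1 (t : ℝ) ∉ 𝒦)
    (h2 : ∀ t : I, AffineMap.lineMap b.1 c.1 (t : ℝ) ∉ 𝒦)
    (h3 : ∀ t : I, AffineMap.lineMap a.1 d.1 (t : ℝ) ∉ 𝒦)
    (h4 : ∀ t : I, AffineMap.lineMap d.1 c.1 (t : ℝ) ∉ 𝒦) :
    (Path.Homotopic.Quotient.mk (sp a b h1)).trans (Path.Homotopic.Quotient.mk (sp b c h2)) =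
      (Path.Homotopic.Quotient.mk (sp a d h3)).trans (Path.Homotopic.Quotient.mk (sp d c h4)) := by
  have : ContractibleSpace Q := hQ.contractibleSpace ⟨a.1, ha⟩
  let ι : C(Q, Cp 𝒦) := ⟨fun x => ⟨x.1, hK x.1 x.2⟩, by fun_prop⟩
  have hseg : ∀ (x y : Q) (t : I), AffineMap.lineMap x.1 y.1 (t : ℝ) ∈ Q := fun x y t =>
    hQ.lineMap_mem x.2 y.2 t.2
  let sQ : ∀ x y : Q, Path x y := fun x y =>
    { toFun := fun t => ⟨AffineMap.lineMap x.1 y.1 (t : ℝ), hseg x y t⟩
      continuous_toFun := by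
        apply Continuous.subtype_mk
        exact (AffineMap.lineMap_continuous (R := ℝ) (p := x.1) (q := y.1)).comp
          continuous_subtype_val
      source' := by
        apply Subtype.ext
        simp
      target' := by
        apply Subtype.ext
        simp }
  have key : ((sQ ⟨a.1, ha⟩ ⟨b.1, hb⟩).trans (sQ ⟨b.1, hb⟩ ⟨c.1, hc⟩)).Homotopic
      ((sQ ⟨a.1, ha⟩ ⟨d.1, hd⟩).trans (sQ ⟨d.1, hd⟩ ⟨c.1, hc⟩)) :=
    SimplyConnectedSpace.paths_homotopic _ _
  have key2 := key.map ι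
  rw [Path.map_trans, Path.map_trans] at key2
  rw [← Path.Homotopic.Quotient.mk_trans, ← Path.Homotopic.Quotient.mk_trans, Path.Homotopic.Quotient.eq]
  exact key2

section grp

variable {S : Shadow} {𝒦 : Set (Eu 3)} {h : IsSh S 𝒦}
    {tp : ∀ p : Cp 𝒦, Top S 𝒦 p → Path.Homotopic.Quotient ⟨bb, h.bb⟩ p}
    {bp : ∀ p : Cp 𝒦, Bot S 𝒦 p → Path.Homotopic.Quotient ⟨bb, h.bb⟩ p}

theorem FF_eq (hT : TB h tp bp) {p q : Cp 𝒦} (δ : Path p q) (ht : ∀ t, Top S 𝒦 (δ t))
    (hb : ∀ t, Bot S 𝒦 (δ t)) (tp' : Top S 𝒦 p) (tq : Top S 𝒦 q) (bp' : Bot S 𝒦 p)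
    (bq : Bot S 𝒦 q) : FF h tp bp p tp' bp' = FF h tp bp q tq bq := by
  unfold FF
  rw [← hT.top tp' tq δ ht, ← hT.bot bp' bq δ hb]
  generalize tp p tp' = x
  generalize bp p bp' = y
  generalize Path.Homotopic.Quotient.mk δ = z
  have e1 : (x.trans z).symm = z.symm.trans x.symm := by
    induction x using Path.Homotopic.Quotient.ind with | mk x => ?_
    induction z using Path.Homotopic.Quotient.ind with | mk z => ?_
    rw [← Path.Homotopic.Quotient.mk_trans, ← Path.Homotopic.Quotient.mk_symm, Path.trans_symm, Path.Homotopic.Quotient.mk_trans,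
      Path.Homotopic.Quotient.mk_symm, Path.Homotopic.Quotient.mk_symm]
  rw [e1, Path.Homotopic.Quotient.trans_assoc, ← Path.Homotopic.Quotient.trans_assoc z, Path.Homotopic.Quotient.trans_symm,
    Path.Homotopic.Quotient.refl_trans]

theorem bp_eq (p : Cp 𝒦) (ht : Top S 𝒦 p) (hb : Bot S 𝒦 p) :
    (FF h tp bp p ht hb : Path.Homotopic.Quotient _ _).trans (tp p ht) = bp p hb := by
  unfold FF
  rw [Path.Homotopic.Quotient.trans_assoc, Path.Homotopic.Quotient.symm_trans, Path.Homotopic.Quotient.trans_refl]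

theorem FF_base (hT : TB h tp bp) (ht : Top S 𝒦 ⟨bb, h.bb⟩) (hb : Bot S 𝒦 ⟨bb, h.bb⟩) :
    FF h tp bp ⟨bb, h.bb⟩ ht hb = 1 := by
  obtain ⟨δ, h1, h2⟩ := hT.rt _ ht
  obtain ⟨δ', h1', h2'⟩ := hT.rb _ hb
  have e1 := hT.top ht ht δ h1
  have e2 := hT.bot hb hb δ' h1'
  rw [← h2] at e1
  rw [← h2'] at e2
  let x : PG (Cp 𝒦) ⟨bb, h.bb⟩ := tp _ ht
  let y : PG (Cp 𝒦) ⟨bb, h.bb⟩ := bp _ hb
  have e3 : x * x = x := e1
  have e4 : y * y = y := e2
  have e5 : x = 1 := by simpa using e3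
  have e6 : y = 1 := by simpa using e4
  have e7 : FF h tp bp ⟨bb, h.bb⟩ ht hb = y * x⁻¹ := rfl
  rw [e7, e5, e6]
  simp

/-- the relation at a crossing -/
theorem cross_rel (hT : TB h tp bp) (a b c d : Cp 𝒦) (ab : Path a b) (bc : Path b c)
    (ad : Path a d) (dc : Path d c)
    (hq : (Path.Homotopic.Quotient.mk ab).trans (Path.Homotopic.Quotient.mk bc) = (Path.Homotopic.Quotient.mk ad).trans (Path.Homotopic.Quotient.mk dc))
    (hab : ∀ t, Bot S 𝒦 (ab t)) (hbc : ∀ t, Top S 𝒦 (bc t)) (had : ∀ t, Top S 𝒦 (ad t))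
    (hdc : ∀ t, Bot S 𝒦 (dc t))
    (ta : Top S 𝒦 a) (tb : Top S 𝒦 b) (tc : Top S 𝒦 c) (td : Top S 𝒦 d)
    (ba : Bot S 𝒦 a) (b_b : Bot S 𝒦 b) (bc' : Bot S 𝒦 c) (bd : Bot S 𝒦 d) :
    (FF h tp bp a ta ba)⁻¹ * FF h tp bp b tb b_b = (FF h tp bp d td bd)⁻¹ * FF h tp bp c tc bc' := by
  have e1 := hT.bot ba b_b ab hab
  have e2 := hT.top tb tc bc hbc
  have e3 := hT.top ta td ad had
  have e4 := hT.bot bd bc' dc hdc
  rw [← bp_eq (h := h) (tp := tp) (bp := bp) a ta ba, ← bp_eq (h := h) (tp := tp) (bp := bp) b tb b_b] at e1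
  rw [← bp_eq (h := h) (tp := tp) (bp := bp) d td bd, ← bp_eq (h := h) (tp := tp) (bp := bp) c tc bc'] at e4
  let x : PG (Cp 𝒦) ⟨bb, h.bb⟩ := ((tp a ta).trans
    ((Path.Homotopic.Quotient.mk ab).trans (Path.Homotopic.Quotient.mk bc))).trans (tp c tc).symm
  have k1 : FF h tp bp a ta ba * x = FF h tp bp b tb b_b := by
    change (FF h tp bp a ta ba : Path.Homotopic.Quotient _ _).trans (((tp a ta).trans
      ((Path.Homotopic.Quotient.mk ab).trans (Path.Homotopic.Quotient.mk bc))).trans (tp c tc).symm) = FF h tp bp b tb b_b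
    rw [← Path.Homotopic.Quotient.trans_assoc, ← Path.Homotopic.Quotient.trans_assoc, ← Path.Homotopic.Quotient.trans_assoc, e1,
      Path.Homotopic.Quotient.trans_assoc _ (tp b tb), e2, Path.Homotopic.Quotient.trans_assoc, Path.Homotopic.Quotient.trans_symm,
      Path.Homotopic.Quotient.trans_refl]
  have k2 : FF h tp bp d td bd * x = FF h tp bp c tc bc' := by
    change (FF h tp bp d td bd : Path.Homotopic.Quotient _ _).trans (((tp a ta).trans
      ((Path.Homotopic.Quotient.mk ab).trans (Path.Homotopic.Quotient.mk bc))).trans (tp c tc).symm) = FF h tp bp c tc bc'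
    rw [hq, ← Path.Homotopic.Quotient.trans_assoc (tp a ta), e3, ← Path.Homotopic.Quotient.trans_assoc,
      ← Path.Homotopic.Quotient.trans_assoc, e4, Path.Homotopic.Quotient.trans_assoc, Path.Homotopic.Quotient.trans_symm,
      Path.Homotopic.Quotient.trans_refl]
  rw [← k1, ← k2]
  group

end grp

section geo

variable {S : Shadow} {𝒦 : Set (Eu 3)}

/-- no point of the set over `p` -/
def Fr (S : Shadow) (p : Eu 3) : Prop := ∀ w, ¬ S.K (48 * p 0) (48 * p 1) w

theorem Fr.notMem (h : IsSh S 𝒦) {p : Eu 3} (hp : Fr S p) : p ∉ 𝒦 := fun hm =>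
  hp _ ((h p).1 hm)

/-- segments with nothing over them -/
theorem FF_seg {h : IsSh S 𝒦}
    {tp : ∀ p : Cp 𝒦, Top S 𝒦 p → Path.Homotopic.Quotient ⟨bb, h.bb⟩ p}
    {bp : ∀ p : Cp 𝒦, Bot S 𝒦 p → Path.Homotopic.Quotient ⟨bb, h.bb⟩ p} (hT : TB h tp bp)
    (p q : Cp 𝒦) (hf : ∀ t ∈ Set.Icc (0 : ℝ) 1, Fr S (AffineMap.lineMap p.1 q.1 t))
    (tp' : Top S 𝒦 p) (tq : Top S 𝒦 q) (bp' : Bot S 𝒦 p)
    (bq : Bot S 𝒦 q) : FF h tp bp p tp' bp' = FF h tp bp q tq bq :=
  FF_eq hT (sp p q (fun t => (hf t t.2).notMem h)) (fun t w _ => hf t t.2 w)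
    (fun t w _ => hf t t.2 w) tp' tq bp' bq

theorem no_int {x : ℝ} {m : ℤ} (h1 : (m : ℝ) < x) (h2 : x < m + 1) : ∀ k : ℤ, x ≠ k := by
  intro k hk
  rw [hk] at h1 h2
  have e1 : m < k := by exact_mod_cast h1
  have e2 : k < m + 1 := by exact_mod_cast h2
  omega

/-- nothing over points of an open cell -/
theorem fr_cell {p : Eu 3} {m n : ℤ} (h1 : (m : ℝ) < 48 * p 0) (h2 : 48 * p 0 < m + 1)
    (h3 : (n : ℝ) < 48 * p 1) (h4 : 48 * p 1 < n + 1) : Fr S p := by
  intro w hK
  rcases lt_or_ge 0 w with hw | hw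
  · obtain ⟨k, hk⟩ := S.int_v hK hw
    exact no_int h1 h2 k hk
  · obtain ⟨k, hk⟩ := S.int_h hK hw
    exact no_int h3 h4 k hk

end geo

end FCg

open FCg in
theorem FC_good {S : Shadow} {𝒦 : Set (Eu 3)} (h : IsSh S 𝒦)
    {tp : ∀ p : Cp 𝒦, Top S 𝒦 p → Path.Homotopic.Quotient ⟨bb, h.bb⟩ p}
    {bp : ∀ p : Cp 𝒦, Bot S 𝒦 p → Path.Homotopic.Quotient ⟨bb, h.bb⟩ p} (hT : TB h tp bp) :
    GoodL S.VE S.HE S.Cr (FC h tp bp 0 (-1)) (FC h tp bp) := by
  constructor
  · intro i j hE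
    apply FF_seg hT
    intro t ht w hK
    simp only [lm, cptc, cpt, v3_0, v3_1] at hK
    push_cast at hK
    obtain ⟨ht0, ht1⟩ := ht
    rcases lt_or_ge 0 w with hw | hw
    · obtain ⟨k, hk⟩ := S.int_v hK hw
      have hki : k = i := by
        have e1 : (i : ℝ) - 1 < k := by rw [← hk]; linarith
        have e2 : (k : ℝ) < i + 1 := by rw [← hk]; linarith
        have e3 : i - 1 < k := by exact_mod_cast e1
        have e4 : k < i + 1 := by exact_mod_cast e2
        omega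
      rw [hk, hki] at hK
      refine S.unc_v hE ?_ ?_ hK <;> linarith
    · obtain ⟨k, hk⟩ := S.int_h hK hw
      exact no_int (m := j) (by linarith) (by linarith) k hk
  · intro i j hE
    apply FF_seg hT
    intro t ht w hK
    simp only [lm, cptc, cpt, v3_0, v3_1] at hK
    push_cast at hK
    obtain ⟨ht0, ht1⟩ := ht
    rcases lt_or_ge 0 w with hw | hw
    · obtain ⟨k, hk⟩ := S.int_v hK hw
      exact no_int (m := i) (by linarith) (by linarith) k hk
    · obtain ⟨k, hk⟩ := S.int_h hK hw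
      have hki : k = j := by
        have e1 : (j : ℝ) - 1 < k := by rw [← hk]; linarith
        have e2 : (k : ℝ) < j + 1 := by rw [← hk]; linarith
        have e3 : j - 1 < k := by exact_mod_cast e1
        have e4 : k < j + 1 := by exact_mod_cast e2
        omega
      rw [hk, hki] at hK
      refine S.unc_h hE ?_ ?_ hK <;> linarith
  · intro m n hC
    obtain ⟨z₀, w₀, hz₀, hw₀, hKz, hKw⟩ := S.cr_pt hC
    have hev := S.near_h (w := z₀ / 2) hKz hz₀ (by linarith)
    rw [Metric.eventually_nhds_iff] at hev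
    obtain ⟨ε', hε', hev⟩ := hev
    obtain ⟨ε, hε0, hε1, hε2⟩ : ∃ ε : ℝ, 0 < ε ∧ ε < 1 / 2 ∧ ε < ε' :=
      ⟨min (1 / 4) (ε' / 2), by positivity, by
        have := min_le_left (1 / 4 : ℝ) (ε' / 2)
        linarith, by
        have := min_le_right (1 / 4 : ℝ) (ε' / 2)
        linarith⟩
    -- the three facts on the square
    have f3 : ∀ x y w : ℝ, |y - n| ≤ ε → y ≠ n → w ≤ 0 → ¬ S.K x y w := by
      intro x y w hy hyn hw hK
      obtain ⟨k, hk⟩ := S.int_h hK hw
      rw [hk] at hy hyn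
      rw [abs_le] at hy
      have e1 : (n : ℝ) - 1 < k := by linarith
      have e2 : (k : ℝ) < n + 1 := by linarith
      have e3 : n - 1 < k := by exact_mod_cast e1
      have e4 : k < n + 1 := by exact_mod_cast e2
      exact hyn (by rw [show k = n by omega])
    have f1 : ∀ x y : ℝ, |x - m| ≤ ε → |y - n| ≤ ε → ¬ S.K x y 0 := by
      intro x y hx hy hK
      by_cases hyn : y = n
      · subst hyn
        obtain ⟨z', hz', hK'⟩ := hev (y := x) (by rw [Real.dist_eq]; linarith)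
        have := S.uniq_h hK' hK (by linarith) le_rfl
        linarith
      · exact f3 x y 0 hy hyn le_rfl hK
    have f2 : ∀ x y w : ℝ, |x - m| ≤ ε → |y - n| ≤ ε → x ≠ m → 0 ≤ w → ¬ S.K x y w := by
      intro x y w hx hy hxm hw hK
      rcases hw.lt_or_eq with hw | hw
      · obtain ⟨k, hk⟩ := S.int_v hK hw
        rw [hk] at hx hxm
        rw [abs_le] at hx
        have e1 : (m : ℝ) - 1 < k := by linarith
        have e2 : (k : ℝ) < m + 1 := by linarith
        have e3 : m - 1 < k := by exact_mod_cast e1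
        have e4 : k < m + 1 := by exact_mod_cast e2
        exact hxm (by rw [show k = m by omega])
      · rw [← hw] at hK
        exact f1 x y hx hy hK
    -- the square
    let Q : Set (Eu 3) := {p | |48 * p 0 - m| ≤ ε ∧ |48 * p 1 - n| ≤ ε ∧ p 2 = 0}
    have hQK : ∀ p ∈ Q, p ∉ 𝒦 := by
      intro p hp hm
      obtain ⟨h1, h2, h3⟩ := hp
      have := (h p).1 hm
      rw [h3, mul_zero] at this
      exact f1 _ _ h1 h2 this
    have hQc : Convex ℝ Q := by
      intro p hp q hq s t hs ht hst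
      obtain ⟨h1, h2, h3⟩ := hp
      obtain ⟨k1, k2, k3⟩ := hq
      have hs' : s = 1 - t := by linarith
      subst hs'
      rw [abs_le] at h1 h2 k1 k2
      refine ⟨?_, ?_, ?_⟩
      · rw [abs_le]
        simp only [add_app, smul_app]
        constructor <;> nlinarith
      · rw [abs_le]
        simp only [add_app, smul_app]
        constructor <;> nlinarith
      · simp only [add_app, smul_app, h3, k3]
        ring
    -- the corners
    let pt : ℝ → ℝ → Eu 3 := fun u v => v3 ((m + u) / 48) ((n + v) / 48) 0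
    have hpt0 : ∀ u v, 48 * pt u v 0 = m + u := fun u v => by simp only [pt, v3_0]; ring
    have hpt1 : ∀ u v, 48 * pt u v 1 = n + v := fun u v => by simp only [pt, v3_1]; ring
    have hptQ : ∀ u v, |u| ≤ ε → |v| ≤ ε → pt u v ∈ Q := by
      intro u v hu hv
      refine ⟨?_, ?_, rfl⟩
      · rw [hpt0]; simpa using hu
      · rw [hpt1]; simpa using hv
    have hεa : |ε| ≤ ε := by rw [abs_of_pos hε0]
    have hεn : |-ε| ≤ ε := by rw [abs_neg, abs_of_pos hε0]
    have hTopQ : ∀ p : Cp 𝒦, p.1 ∈ Q → 48 * p.1 0 ≠ m → Top S 𝒦 p := by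
      intro p hp hne w hw
      rw [hp.2.2, mul_zero] at hw
      exact f2 _ _ w hp.1 hp.2.1 hne hw
    have hBotQ : ∀ p : Cp 𝒦, p.1 ∈ Q → 48 * p.1 1 ≠ n → Bot S 𝒦 p := by
      intro p hp hne w hw
      rw [hp.2.2, mul_zero] at hw
      exact f3 _ _ w hp.2.1 hne hw
    let cor : ∀ u v : ℝ, |u| ≤ ε → |v| ≤ ε → Cp 𝒦 := fun u v hu hv =>
      ⟨pt u v, hQK _ (hptQ u v hu hv)⟩
    have hseg : ∀ (p q : Cp 𝒦), p.1 ∈ Q → q.1 ∈ Q → ∀ t : I,
        AffineMap.lineMap p.1 q.1 (t : ℝ) ∈ Q := fun p q hp hq t => hQc.lineMap_mem hp hq t.2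
    let a := cor (-ε) (-ε) hεn hεn
    let b := cor ε (-ε) hεa hεn
    let c := cor ε ε hεa hεa
    let d := cor (-ε) ε hεn hεa
    have haQ : a.1 ∈ Q := hptQ _ _ hεn hεn
    have hbQ : b.1 ∈ Q := hptQ _ _ hεa hεn
    have hcQ : c.1 ∈ Q := hptQ _ _ hεa hεa
    have hdQ : d.1 ∈ Q := hptQ _ _ hεn hεa
    have hx : ∀ (u v : ℝ), u ≠ 0 → 48 * pt u v 0 ≠ m := by
      intro u v hu he
      rw [hpt0] at he
      exact hu (by linarith)
    have hy : ∀ (u v : ℝ), v ≠ 0 → 48 * pt u v 1 ≠ n := by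
      intro u v hu he
      rw [hpt1] at he
      exact hu (by linarith)
    have hn0 : (-ε) ≠ 0 := by linarith
    have hp0 : ε ≠ 0 := by linarith
    have hab : ∀ t : I, AffineMap.lineMap a.1 b.1 (t : ℝ) ∉ 𝒦 := fun t => hQK _ (hseg a b haQ hbQ t)
    have hbc : ∀ t : I, AffineMap.lineMap b.1 c.1 (t : ℝ) ∉ 𝒦 := fun t => hQK _ (hseg b c hbQ hcQ t)
    have had : ∀ t : I, AffineMap.lineMap a.1 d.1 (t : ℝ) ∉ 𝒦 := fun t => hQK _ (hseg a d haQ hdQ t)
    have hdc : ∀ t : I, AffineMap.lineMap d.1 c.1 (t : ℝ) ∉ 𝒦 := fun t => hQK _ (hseg d c hdQ hcQ t)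
    have hcross := cross_rel hT a b c d (sp a b hab) (sp b c hbc) (sp a d had) (sp d c hdc)
      (sq Q hQc hQK a b c d haQ hbQ hcQ hdQ hab hbc had hdc)
      (fun t => hBotQ _ (hseg a b haQ hbQ t) (by
        change 48 * AffineMap.lineMap (pt (-ε) (-ε)) (pt ε (-ε)) (t : ℝ) 1 ≠ n
        rw [lm]
        have e1 := hpt1 (-ε) (-ε)
        have e2 := hpt1 ε (-ε)
        intro he
        apply hn0
        linear_combination he - (1 - (t : ℝ)) * e1 - (t : ℝ) * e2))
      (fun t => hTopQ _ (hseg b c hbQ hcQ t) (by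
        change 48 * AffineMap.lineMap (pt ε (-ε)) (pt ε ε) (t : ℝ) 0 ≠ m
        rw [lm]
        have e1 := hpt0 ε (-ε)
        have e2 := hpt0 ε ε
        intro he
        apply hp0
        linear_combination he - (1 - (t : ℝ)) * e1 - (t : ℝ) * e2))
      (fun t => hTopQ _ (hseg a d haQ hdQ t) (by
        change 48 * AffineMap.lineMap (pt (-ε) (-ε)) (pt (-ε) ε) (t : ℝ) 0 ≠ m
        rw [lm]
        have e1 := hpt0 (-ε) (-ε)
        have e2 := hpt0 (-ε) ε
        intro he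
        apply hn0
        linear_combination he - (1 - (t : ℝ)) * e1 - (t : ℝ) * e2))
      (fun t => hBotQ _ (hseg d c hdQ hcQ t) (by
        change 48 * AffineMap.lineMap (pt (-ε) ε) (pt ε ε) (t : ℝ) 1 ≠ n
        rw [lm]
        have e1 := hpt1 (-ε) ε
        have e2 := hpt1 ε ε
        intro he
        apply hp0
        linear_combination he - (1 - (t : ℝ)) * e1 - (t : ℝ) * e2))
      (hTopQ a haQ (hx _ _ hn0)) (hTopQ b hbQ (hx _ _ hp0)) (hTopQ c hcQ (hx _ _ hp0))
      (hTopQ d hdQ (hx _ _ hn0))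
      (hBotQ a haQ (hy _ _ hn0)) (hBotQ b hbQ (hy _ _ hn0)) (hBotQ c hcQ (hy _ _ hp0))
      (hBotQ d hdQ (hy _ _ hp0))
    -- the cells
    have hcell : ∀ (u v : ℝ) (hu : |u| ≤ ε) (hv : |v| ≤ ε) (i j : ℤ)
        (ht : Top S 𝒦 (cor u v hu hv)) (hb : Bot S 𝒦 (cor u v hu hv)),
        (i : ℝ) < m + u → m + u < i + 1 → (j : ℝ) < n + v → n + v < j + 1 →
        FF h tp bp (cor u v hu hv) ht hb = FC h tp bp i j := by
      intro u v hu hv i j ht hb h1 h2 h3 h4
      apply FF_seg hT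
      intro t ht
      obtain ⟨ht0, ht1⟩ := ht
      have e0 : 48 * AffineMap.lineMap (cor u v hu hv).1 (cptc h i j).1 t 0
          = (1 - t) * (m + u) + t * (i + 1 / 2) := by
        rw [lm]
        simp only [cor, pt, cptc, cpt, v3_0]
        ring
      have e1 : 48 * AffineMap.lineMap (cor u v hu hv).1 (cptc h i j).1 t 1
          = (1 - t) * (n + v) + t * (j + 1 / 2) := by
        rw [lm]
        simp only [cor, pt, cptc, cpt, v3_1]
        ring
      apply fr_cell (m := i) (n := j)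
      · rw [e0]; nlinarith
      · rw [e0]; nlinarith
      · rw [e1]; nlinarith
      · rw [e1]; nlinarith
    rw [← hcell (-ε) (-ε) hεn hεn (m - 1) (n - 1) (hTopQ a haQ (hx _ _ hn0))
        (hBotQ a haQ (hy _ _ hn0)) (by push_cast; linarith) (by push_cast; linarith)
        (by push_cast; linarith) (by push_cast; linarith),
      ← hcell ε (-ε) hεa hεn m (n - 1) (hTopQ b hbQ (hx _ _ hp0))
        (hBotQ b hbQ (hy _ _ hn0)) (by linarith) (by linarith)
        (by push_cast; linarith) (by push_cast; linarith),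
      ← hcell (-ε) ε hεn hεa (m - 1) n (hTopQ d hdQ (hx _ _ hn0))
        (hBotQ d hdQ (hy _ _ hp0)) (by push_cast; linarith) (by push_cast; linarith)
        (by linarith) (by linarith),
      ← hcell ε ε hεa hεa m n (hTopQ c hcQ (hx _ _ hp0))
        (hBotQ c hcQ (hy _ _ hp0)) (by linarith) (by linarith) (by linarith) (by linarith)]
    exact hcross
  · intro i j hj
    have hj' : (6 : ℝ) ≤ j := by exact_mod_cast hj
    have hbf : ∀ w, ¬ S.K (48 * bb 0) (48 * bb 1) w := by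
      intro w hK
      have := S.by6 hK
      simp only [bb, v3_1] at this
      norm_num at this
    rw [← FF_base hT (fun w _ => hbf w) (fun w _ => hbf w)]
    symm
    apply FF_seg hT
    intro t ht w hK
    obtain ⟨ht0, ht1⟩ := ht
    have := S.by6 hK
    simp only [lm, cptc, cpt, bb, v3_1] at this
    nlinarith
  · intro i j hj
    apply FF_seg hT
    intro t ht w hK
    obtain ⟨ht0, ht1⟩ := ht
    have hj' : (j : ℝ) ≤ -1 := by exact_mod_cast (by omega : j ≤ -1)
    have := S.by0 hK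
    simp only [lm, cptc, cpt, v3_1] at this
    push_cast at this
    nlinarith

end Pool.Agent.H414_LQ
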